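import Mathlib

/-!
# Dong–Koh (S09397): definitions

A *state* is a ground set `W : Finset α` with a family `B : Finset α → Prop` of *bad* sets
(forbidden colour classes); bad pairs are the edges of the graph.
-/

set_option autoImplicit false

namespace Pool.Agent.DK

open Classical

variable {α : Type*}

/-- The chromatic polynomial of a state: sum over partitions of `W` into non-bad blocks of the
falling factorial `q (q-1) ... (q-k+1)`, `k` the number of blocks. -/
noncomputable def chrom (W : Finset α) (B : Finset α → Prop) (q : ℝ) : ℝ :=
  ∑ π : Finpartition W,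
    if (∀ S ∈ π.parts, ¬ B S) then ∏ i ∈ Finset.range π.parts.card, (q - (i : ℝ)) else 0

/-- The normalised value `(-1)^n P / (q (q-1))`. -/
noncomputable def Phi (W : Finset α) (B : Finset α → Prop) (q : ℝ) : ℝ :=
  (-1 : ℝ) ^ W.card * chrom W B q / (q * (q - 1))

/-- `u` and `v` are adjacent in the graph of the state. -/
def Adj (B : Finset α → Prop) (u v : α) : Prop := u ≠ v ∧ B {u, v}

/-- `u` and `v` are joined by a path inside the vertex set `R`. -/
def Joined (B : Finset α → Prop) (R : Finset α) (u v : α) : Prop :=
  Relation.ReflTransGen (fun a b => a ∈ R ∧ b ∈ R ∧ Adj B a b) u v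

/-- the connected components (as vertex sets) of the graph of the state induced on `R`
(`R = W \ S` in the applications). -/
noncomputable def comps (B : Finset α → Prop) (R : Finset α) : Finset (Finset α) :=
  R.image (fun v => R.filter (fun u => Joined B R v u))

/-- `D ⊆ R` is closed under adjacency inside `R`. -/
def ClosedIn (B : Finset α → Prop) (R D : Finset α) : Prop :=
  D ⊆ R ∧ ∀ u ∈ D, ∀ v ∈ R, Adj B u v → v ∈ D

/-- `c W B S` = number of components of `W - S`. -/
noncomputable def c (W : Finset α) (B : Finset α → Prop) (S : Finset α) : ℕ :=
  (comps B (W \ S)).card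

/-- adding a bad set `S` to `B`. -/
def addBad (B : Finset α → Prop) (S : Finset α) : Finset α → Prop := fun T => B T ∨ S ⊆ T

/-- contracting the set `S` to its member `s`: ground set `insert s (W \ S)`, bad sets as follows. -/
noncomputable def contrBad (B : Finset α → Prop) (S : Finset α) (s : α) : Finset α → Prop :=
  fun T => if s ∈ T then B (T ∪ S) else B T

end Pool.Agent.DK
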