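import Mathlib
import Pool.Agent.Lib_MP_6f255c_dk.Defs

set_option autoImplicit false

namespace Pool.Agent.DK

open Classical

variable {α : Type*}

/-- `f` and `π` induce the same equivalence relation on `W` -/
private def Cmp {W : Finset α} {k : ℕ} (f : W → Fin k) (π : Finpartition W) : Prop :=
  ∀ w w' : W, f w = f w' ↔ π.part w = π.part w'

private theorem cmp_exists {W : Finset α} {k : ℕ} (f : W → Fin k) : ∃ π : Finpartition W, Cmp f π := by
  set F : α → Option (Fin k) := fun x => if h : x ∈ W then some (f ⟨x, h⟩) else none with hF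
  have hFw : ∀ w : W, F w = some (f w) := by
    intro w
    simp only [hF]
    rw [dif_pos w.2]
  refine ⟨Finpartition.ofSetSetoid (Setoid.ker F) W, fun w w' => ?_⟩
  rw [← Finpartition.mem_part_iff_part_eq_part _ w.2 w'.2]
  rw [Finpartition.mem_part_ofSetSetoid_iff_rel]
  simp only [Setoid.ker_def, hFw, w.2, w'.2, true_and, Option.some_inj]
  constructor
  · intro h; exact h.symm
  · intro h; exact h.symm

private theorem cmp_unique {W : Finset α} {k : ℕ} {f : W → Fin k} {π π' : Finpartition W} (h : Cmp f π)
    (h' : Cmp f π') : π = π' := by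
  have key : ∀ (π π' : Finpartition W), Cmp f π → Cmp f π' → ∀ S ∈ π.parts, S ∈ π'.parts := by
    intro π π' h h' S hS
    obtain ⟨x, hx⟩ := π.nonempty_of_mem_parts hS
    have hxW : x ∈ W := π.subset hS hx
    have e1 : π.part x = S := π.part_eq_of_mem hS hx
    have e2 : π'.part x = S := by
      ext y
      constructor
      · intro hy
        have hyW : y ∈ W := π'.part_subset x hy
        have e3 := (π'.mem_part_iff_part_eq_part hyW hxW).1 hy
        have e4 := (h' ⟨y, hyW⟩ ⟨x, hxW⟩).2 e3
        have e5 := (h ⟨y, hyW⟩ ⟨x, hxW⟩).1 e4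
        rw [← e1]
        exact (π.mem_part_iff_part_eq_part hyW hxW).2 e5
      · intro hy
        have hyW : y ∈ W := π.subset hS hy
        rw [← e1] at hy
        have e3 := (π.mem_part_iff_part_eq_part hyW hxW).1 hy
        have e4 := (h ⟨y, hyW⟩ ⟨x, hxW⟩).2 e3
        have e5 := (h' ⟨y, hyW⟩ ⟨x, hxW⟩).1 e4
        exact (π'.mem_part_iff_part_eq_part hyW hxW).2 e5
    rw [← e2]
    exact π'.part_mem.2 hxW
  exact Finpartition.ext (Finset.Subset.antisymm (key π π' h h') (key π' π h' h))

private noncomputable def cmpEquiv {W : Finset α} (k : ℕ) (π : Finpartition W) :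
    {f : W → Fin k // Cmp f π} ≃ (π.parts ↪ Fin k) where
  toFun f := ⟨fun S => f.1 ⟨(π.nonempty_of_mem_parts S.2).choose,
      π.subset S.2 (π.nonempty_of_mem_parts S.2).choose_spec⟩, by
    intro S T hST
    have h1 := (f.2 _ _).1 hST
    simp only at h1
    rw [π.part_eq_of_mem S.2 (π.nonempty_of_mem_parts S.2).choose_spec,
      π.part_eq_of_mem T.2 (π.nonempty_of_mem_parts T.2).choose_spec] at h1
    exact Subtype.ext h1⟩
  invFun e := ⟨fun w => e ⟨π.part w, π.part_mem.2 w.2⟩, by
    intro w w'
    rw [e.injective.eq_iff, Subtype.mk.injEq]⟩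
  left_inv f := by
    apply Subtype.ext
    funext w
    refine (f.2 _ _).2 ?_
    have hm := π.part_mem.2 w.2
    exact π.part_eq_of_mem hm (π.nonempty_of_mem_parts hm).choose_spec
  right_inv e := by
    ext S
    simp only [Function.Embedding.coeFn_mk]
    congr 2
    apply Subtype.ext
    exact π.part_eq_of_mem S.2 (π.nonempty_of_mem_parts S.2).choose_spec

private theorem prod_cast (k m : ℕ) : (∏ i ∈ Finset.range m, ((k : ℝ) - (i : ℝ))) = (k.descFactorial m : ℝ) := by
  induction m with
  | zero => simp
  | succ m ih =>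
    rw [Finset.prod_range_succ, ih, Nat.descFactorial_succ]
    rcases le_or_gt m k with h | h
    · push_cast [Nat.cast_sub h]; ring
    · rw [Nat.descFactorial_of_lt h]; simp

private theorem good_iff {W : Finset α} {B : Finset α → Prop} {k : ℕ} {f : W → Fin k} {π : Finpartition W}
    (h : Cmp f π) : (∀ j, (Finset.univ.filter (fun w => f w = j)).Nonempty →
        ¬ B ((Finset.univ.filter (fun w => f w = j)).map (Function.Embedding.subtype _))) ↔
      ∀ S ∈ π.parts, ¬ B S := by
  have key : ∀ w : W, (Finset.univ.filter (fun w' => f w' = f w)).map (Function.Embedding.subtype _) = π.part w := by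
    intro w
    ext x
    simp only [Finset.mem_map, Finset.mem_filter, Finset.mem_univ, true_and, Function.Embedding.subtype_apply]
    constructor
    · rintro ⟨w', hw', rfl⟩
      exact (π.mem_part_iff_part_eq_part w'.2 w.2).2 ((h w' w).1 hw')
    · intro hx
      have hxW := π.part_subset _ hx
      exact ⟨⟨x, hxW⟩, (h ⟨x, hxW⟩ w).2 ((π.mem_part_iff_part_eq_part hxW w.2).1 hx), rfl⟩
  constructor
  · intro hf S hS
    obtain ⟨x, hx⟩ := π.nonempty_of_mem_parts hS
    have hxW : x ∈ W := π.subset hS hx
    have := hf (f ⟨x, hxW⟩) ⟨⟨x, hxW⟩, by simp⟩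
    rw [key ⟨x, hxW⟩, π.part_eq_of_mem hS hx] at this
    exact this
  · rintro hπ j ⟨w, hw⟩
    rw [Finset.mem_filter] at hw
    rw [← hw.2, key w]
    exact hπ _ (π.part_mem.2 w.2)

/-- P1: value at a natural number = number of colourings of `W` with `k` colours
all of whose nonempty classes are not bad. -/
theorem chrom_natCast (W : Finset α) (B : Finset α → Prop) (k : ℕ) :
    chrom W B (k : ℝ) =
      (Fintype.card {f : W → Fin k // ∀ j, (Finset.univ.filter (fun w => f w = j)).Nonempty →
        ¬ B ((Finset.univ.filter (fun w => f w = j)).map (Function.Embedding.subtype _))} : ℝ) := by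
  set P : (W → Fin k) → Prop := fun f => ∀ j, (Finset.univ.filter (fun w => f w = j)).Nonempty →
        ¬ B ((Finset.univ.filter (fun w => f w = j)).map (Function.Embedding.subtype _)) with hP
  choose g hg using fun f : W → Fin k => cmp_exists f
  have hgi : ∀ (f : W → Fin k) (π : Finpartition W), g f = π ↔ Cmp f π := by
    intro f π
    constructor
    · rintro rfl; exact hg f
    · intro h; exact cmp_unique (hg f) h
  have e1 : Fintype.card {f : W → Fin k // P f} = ∑ π : Finpartition W,
      ((Finset.univ.filter P).filter (fun f => g f = π)).card := by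
    rw [Fintype.card_subtype]
    exact Finset.card_eq_sum_card_fiberwise (fun _ _ => Finset.mem_coe.2 (Finset.mem_univ _))
  rw [show (Fintype.card {f : W → Fin k // ∀ j, (Finset.univ.filter (fun w => f w = j)).Nonempty →
        ¬ B ((Finset.univ.filter (fun w => f w = j)).map (Function.Embedding.subtype _))}) =
      Fintype.card {f : W → Fin k // P f} from rfl, e1, chrom]
  push_cast
  refine Finset.sum_congr rfl (fun π _ => ?_)
  rw [Finset.filter_filter]
  split_ifs with hπ
  · rw [prod_cast]
    have e2 : Finset.univ.filter (fun f : W → Fin k => P f ∧ g f = π) = Finset.univ.filter (fun f => Cmp f π) := by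
      ext f
      simp only [Finset.mem_filter, Finset.mem_univ, true_and]
      rw [hgi]
      exact ⟨fun h => h.2, fun h => ⟨(good_iff h).2 hπ, h⟩⟩
    rw [e2, ← Fintype.card_subtype, Fintype.card_congr (cmpEquiv k π), Fintype.card_embedding_eq, Fintype.card_fin,
      Fintype.card_coe]
  · symm
    rw [Nat.cast_eq_zero, Finset.card_eq_zero, Finset.filter_eq_empty_iff]
    rintro f - ⟨h1, h2⟩
    exact hπ ((good_iff ((hgi f π).1 h2)).1 h1)

/-- P2: `chrom` is a polynomial function, so identities may be checked at naturals. -/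
theorem chrom_poly (W : Finset α) (B : Finset α → Prop) :
    ∃ p : Polynomial ℝ, ∀ q, chrom W B q = p.eval q := by
  refine ⟨∑ π : Finpartition W, if (∀ S ∈ π.parts, ¬ B S) then
    ∏ i ∈ Finset.range π.parts.card, (Polynomial.X - Polynomial.C (i : ℝ)) else 0, fun q => ?_⟩
  rw [chrom, Polynomial.eval_finsetSum]
  refine Finset.sum_congr rfl (fun π _ => ?_)
  split_ifs
  · rw [Polynomial.eval_prod]
    simp
  · simp

end Pool.Agent.DK
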