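import Mathlib
import Pool.Agent.Lib_MP_6f255c_dk.Defs
import Pool.Agent.Lib_MP_6f255c_dk.ChromNat

/-!
# Piece P6 of S09397: the edge subset expansion is `chrom` of the edge family
-/

set_option autoImplicit false

namespace Pool.Agent.DK

open Classical

variable {α : Type*}

private lemma const_of_reachable {V : Type} {K : Type} (H : SimpleGraph V) (f : V → K)
    (h : ∀ u v, H.Adj u v → f u = f v) (u v : V) (p : H.Walk u v) : f u = f v := by
  induction p with
  | nil => rfl
  | cons hadj _ ih => exact (h _ _ hadj).trans ih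

private def colEquiv {V : Type} (H : SimpleGraph V) (k : ℕ) :
    {f : V → Fin k // ∀ u v, H.Adj u v → f u = f v} ≃ (H.ConnectedComponent → Fin k) where
  toFun f := fun c => c.lift f.1 (fun u v p _ => const_of_reachable H f.1 f.2 u v p)
  invFun g := ⟨fun v => g (H.connectedComponentMk v), fun u v huv => by
    have : H.connectedComponentMk u = H.connectedComponentMk v :=
      SimpleGraph.ConnectedComponent.sound huv.reachable
    simp [this]⟩
  left_inv f := by
    ext v
    rfl
  right_inv g := by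
    funext c
    induction c using SimpleGraph.ConnectedComponent.ind with
    | h v => rfl

private lemma card_col {V : Type} [Fintype V] [DecidableEq V] (H : SimpleGraph V) (k : ℕ) :
    ((k : ℝ)) ^ Nat.card H.ConnectedComponent =
      ∑ f : V → Fin k, (if (∀ u v, H.Adj u v → f u = f v) then (1 : ℝ) else 0) := by
  have h1 : Nat.card {f : V → Fin k // ∀ u v, H.Adj u v → f u = f v} =
      k ^ Nat.card H.ConnectedComponent := by
    rw [Nat.card_congr (colEquiv H k)]
    have : Finite H.ConnectedComponent := Quot.finite _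
    rw [Nat.card_fun]
    simp
  have h2 : (∑ f : V → Fin k, (if (∀ u v, H.Adj u v → f u = f v) then (1 : ℝ) else 0)) =
      (Nat.card {f : V → Fin k // ∀ u v, H.Adj u v → f u = f v} : ℝ) := by
    rw [Finset.sum_boole]
    congr 1
    rw [Nat.card_eq_fintype_card, Fintype.card_subtype]
  rw [h2, h1]
  push_cast
  rfl

private lemma cond_iff {V : Type} [Fintype V] [DecidableEq V] (G : SimpleGraph V)
    [DecidableRel G.Adj] (k : ℕ) (f : V → Fin k) (A : Finset (Sym2 V)) (hA : A ⊆ G.edgeFinset) :
    (∀ u v, (SimpleGraph.fromEdgeSet (A : Set (Sym2 V))).Adj u v → f u = f v) ↔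
      A ⊆ G.edgeFinset.filter (fun e => (e.map f).IsDiag) := by
  constructor
  · intro h e he
    rw [Finset.mem_filter]
    refine ⟨hA he, ?_⟩
    induction e using Sym2.ind with
    | _ u v =>
      have hadj : G.Adj u v := by
        have := hA he
        rwa [SimpleGraph.mem_edgeFinset, SimpleGraph.mem_edgeSet] at this
      rw [Sym2.map_mk]
      simp only [Prod.map_apply, Sym2.mk_isDiag_iff]
      exact h u v (by
        rw [SimpleGraph.fromEdgeSet_adj]
        exact ⟨he, hadj.ne⟩)
  · intro h u v huv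
    rw [SimpleGraph.fromEdgeSet_adj] at huv
    have := h huv.1
    rw [Finset.mem_filter] at this
    have h2 := this.2
    rw [Sym2.map_mk] at h2
    simpa using h2

private lemma lhs_nat (V : Type) [Fintype V] [DecidableEq V] (G : SimpleGraph V)
    [DecidableRel G.Adj] (k : ℕ) :
    (∑ A ∈ G.edgeFinset.powerset,
      (-1 : ℝ) ^ A.card *
        (k : ℝ) ^ Nat.card (SimpleGraph.fromEdgeSet (A : Set (Sym2 V))).ConnectedComponent) =
    ∑ f : V → Fin k, (if (∀ u v, G.Adj u v → f u ≠ f v) then (1 : ℝ) else 0) := by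
  have h1 : (∑ A ∈ G.edgeFinset.powerset,
      (-1 : ℝ) ^ A.card *
        (k : ℝ) ^ Nat.card (SimpleGraph.fromEdgeSet (A : Set (Sym2 V))).ConnectedComponent) =
      ∑ A ∈ G.edgeFinset.powerset, ∑ f : V → Fin k,
        (if A ⊆ G.edgeFinset.filter (fun e => (e.map f).IsDiag) then (-1 : ℝ) ^ A.card else 0) := by
    refine Finset.sum_congr rfl (fun A hA => ?_)
    rw [Finset.mem_powerset] at hA
    rw [card_col, Finset.mul_sum]
    refine Finset.sum_congr rfl (fun f _ => ?_)
    by_cases hc : A ⊆ G.edgeFinset.filter (fun e => (e.map f).IsDiag)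
    · rw [if_pos ((cond_iff G k f A hA).2 hc), if_pos hc, mul_one]
    · rw [if_neg (fun h => hc ((cond_iff G k f A hA).1 h)), if_neg hc, mul_zero]
  rw [h1, Finset.sum_comm]
  refine Finset.sum_congr rfl (fun f _ => ?_)
  set M := G.edgeFinset.filter (fun e => (e.map f).IsDiag) with hM
  have h2 : (∑ A ∈ G.edgeFinset.powerset, (if A ⊆ M then (-1 : ℝ) ^ A.card else 0)) =
      ∑ A ∈ M.powerset, (-1 : ℝ) ^ A.card := by
    rw [← Finset.sum_filter]
    congr 1
    ext A
    simp only [Finset.mem_filter, Finset.mem_powerset]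
    constructor
    · exact fun h => h.2
    · exact fun h => ⟨h.trans (Finset.filter_subset _ _), h⟩
  rw [h2]
  have h3 : (∑ A ∈ M.powerset, (-1 : ℝ) ^ A.card) = if M = ∅ then 1 else 0 := by
    have := Finset.sum_powerset_neg_one_pow_card (x := M)
    have h4 : ((∑ A ∈ M.powerset, (-1 : ℤ) ^ A.card : ℤ) : ℝ) = ((if M = ∅ then 1 else 0 : ℤ) : ℝ) := by
      rw [this]
    push_cast at h4
    simpa using h4
  rw [h3]
  have h5 : M = ∅ ↔ ∀ u v, G.Adj u v → f u ≠ f v := by
    constructor
    · intro h u v huv heq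
      have : s(u, v) ∈ M := by
        rw [hM, Finset.mem_filter, SimpleGraph.mem_edgeFinset, SimpleGraph.mem_edgeSet, Sym2.map_mk]
        exact ⟨huv, by simpa using heq⟩
      rw [h] at this
      simp at this
    · intro h
      rw [Finset.eq_empty_iff_forall_notMem]
      intro e he
      rw [hM, Finset.mem_filter, SimpleGraph.mem_edgeFinset] at he
      induction e using Sym2.ind with
      | _ u v =>
        rw [SimpleGraph.mem_edgeSet, Sym2.map_mk] at he
        exact h u v he.1 (by simpa using he.2)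
  by_cases hc : M = ∅
  · rw [if_pos hc, if_pos (h5.1 hc)]
  · rw [if_neg hc, if_neg (fun h => hc (h5.2 h))]

private lemma chrom_natCast' (W : Finset α) (B : Finset α → Prop) (k : ℕ) :
    chrom W B (k : ℝ) =
      (Nat.card {f : W → Fin k // ∀ j, (Finset.univ.filter (fun w => f w = j)).Nonempty →
        ¬ B ((Finset.univ.filter (fun w => f w = j)).map (Function.Embedding.subtype _))} : ℝ) := by
  rw [chrom_natCast, Nat.card_eq_fintype_card]

private lemma rhs_nat (V : Type) [Fintype V] [DecidableEq V] (G : SimpleGraph V)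
    [DecidableRel G.Adj] (k : ℕ) :
    chrom (Finset.univ : Finset V) (fun S => ∃ u ∈ S, ∃ v ∈ S, G.Adj u v) (k : ℝ) =
    ∑ f : V → Fin k, (if (∀ u v, G.Adj u v → f u ≠ f v) then (1 : ℝ) else 0) := by
  have h2 : (Finset.univ.filter (fun f : V → Fin k => ∀ u v, G.Adj u v → f u ≠ f v)).card =
      Nat.card {f : V → Fin k // ∀ u v, G.Adj u v → f u ≠ f v} := by
    rw [Nat.card_eq_fintype_card, Fintype.card_subtype]
  rw [chrom_natCast', Finset.sum_boole, h2]
  congr 1
  refine Nat.card_congr (Equiv.subtypeEquiv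
    (Equiv.arrowCongr (Equiv.subtypeUnivEquiv (fun v => Finset.mem_univ v)) (Equiv.refl _)) ?_)
  intro f
  constructor
  · intro h u v huv heq
    have heq' : f ⟨u, Finset.mem_univ u⟩ = f ⟨v, Finset.mem_univ v⟩ := heq
    refine h (f ⟨u, Finset.mem_univ u⟩) ⟨⟨u, Finset.mem_univ u⟩, by simp⟩
      ⟨u, ?_, v, ?_, huv⟩
    · simp
    · simp [heq']
  · rintro h j _ ⟨u, hu, v, hv, huv⟩
    rw [Finset.mem_map] at hu hv
    obtain ⟨⟨u', hu'⟩, hu1, hu2⟩ := hu
    obtain ⟨⟨v', hv'⟩, hv1, hv2⟩ := hv
    simp only [Finset.mem_filter, Finset.mem_univ, true_and] at hu1 hv1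
    simp only [Function.Embedding.coe_subtype] at hu2 hv2
    subst hu2 hv2
    exact h u' v' huv (hu1.trans hv1.symm)

/-- P6 (bridge to the frozen statement). -/
theorem edge_sum_eq_chrom (V : Type) [Fintype V] [DecidableEq V] (G : SimpleGraph V)
    [DecidableRel G.Adj] (q : ℝ) :
    (∑ A ∈ G.edgeFinset.powerset,
      (-1 : ℝ) ^ A.card *
        q ^ Nat.card (SimpleGraph.fromEdgeSet (A : Set (Sym2 V))).ConnectedComponent) =
    chrom (Finset.univ : Finset V) (fun S => ∃ u ∈ S, ∃ v ∈ S, G.Adj u v) q := by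
  obtain ⟨p, hp⟩ := chrom_poly (Finset.univ : Finset V) (fun S => ∃ u ∈ S, ∃ v ∈ S, G.Adj u v)
  set P : Polynomial ℝ := ∑ A ∈ G.edgeFinset.powerset,
      Polynomial.C ((-1 : ℝ) ^ A.card) *
        Polynomial.X ^ Nat.card (SimpleGraph.fromEdgeSet (A : Set (Sym2 V))).ConnectedComponent
    with hP
  have hPe : ∀ x : ℝ, P.eval x = ∑ A ∈ G.edgeFinset.powerset,
      (-1 : ℝ) ^ A.card *
        x ^ Nat.card (SimpleGraph.fromEdgeSet (A : Set (Sym2 V))).ConnectedComponent := by
    intro x
    rw [hP, Polynomial.eval_finsetSum]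
    refine Finset.sum_congr rfl (fun A _ => ?_)
    simp
  have hPp : P = p := by
    refine Polynomial.eq_of_infinite_eval_eq P p ?_
    refine Set.Infinite.mono ?_ (Set.infinite_range_of_injective (Nat.cast_injective (R := ℝ)))
    rintro _ ⟨k, rfl⟩
    rw [Set.mem_ofPred_eq, hPe, ← hp, lhs_nat, rhs_nat]
  rw [← hPe, hPp, hp]

end Pool.Agent.DK
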