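import Mathlib
import Pool.Agent.Lib_MP_6f255c_dk.Defs
import Pool.Agent.Lib_MP_6f255c_dk.ChromNat

/-!
# P5: gluing along an adjacent pair
-/

set_option autoImplicit false

namespace Pool.Agent.DK

open Classical

variable {α : Type*}

namespace GlueE

/-- the colour class `j` of a colouring of `W`, as a subset of `α`. -/
private noncomputable def cls (W : Finset α) {k : ℕ} (f : W → Fin k) (j : Fin k) : Finset α :=
  (Finset.univ.filter (fun w => f w = j)).map (Function.Embedding.subtype _)

private lemma mem_cls (W : Finset α) {k : ℕ} (f : W → Fin k) (j : Fin k) (x : α) :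
    x ∈ cls W f j ↔ ∃ h : x ∈ W, f ⟨x, h⟩ = j := by
  simp [cls]

/-- the set of good colourings. -/
private noncomputable def good (W : Finset α) (B : Finset α → Prop) (k : ℕ) :
    Finset (W → Fin k) :=
  Finset.univ.filter (fun f => ∀ j, ¬ B (cls W f j))

private lemma mem_good (W : Finset α) (B : Finset α → Prop) (k : ℕ) (f : W → Fin k) :
    f ∈ good W B k ↔ ∀ j, ¬ B (cls W f j) := by
  simp [good]

private lemma chrom_eq_card (W : Finset α) (B : Finset α → Prop) (hB0 : ¬ B ∅) (k : ℕ) :
    chrom W B (k : ℝ) = ((good W B k).card : ℝ) := by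
  rw [chrom_natCast, Fintype.card_subtype]
  congr 2
  ext f
  simp only [Finset.mem_filter, Finset.mem_univ, true_and, mem_good]
  refine forall_congr' fun j => ?_
  constructor
  · intro h hb
    by_cases hne : (Finset.univ.filter (fun w => f w = j)).Nonempty
    · exact h hne hb
    · rw [Finset.not_nonempty_iff_eq_empty] at hne
      rw [cls, hne, Finset.map_empty] at hb
      exact hB0 hb
  · intro h _
    exact h

/-- colourings with prescribed colours on `a` and `b`. -/
private noncomputable def fib (W : Finset α) (B : Finset α → Prop) (k : ℕ) (a b : W)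
    (p : Fin k × Fin k) : Finset (W → Fin k) :=
  (good W B k).filter (fun f => (f a, f b) = p)

private lemma card_good (W : Finset α) (B : Finset α → Prop) (k : ℕ) (a b : W)
    (hBab : B {a.1, b.1}) (hup : ∀ T T', T ⊆ T' → B T → B T') :
    (good W B k).card = ∑ p ∈ (Finset.univ : Finset (Fin k)).offDiag, (fib W B k a b p).card := by
  refine Finset.card_eq_sum_card_fiberwise ?_
  intro f hf
  have hf' := (mem_good W B k f).1 (Finset.mem_coe.1 hf)
  simp only [Finset.coe_offDiag, Set.mem_offDiag, Finset.coe_univ, Set.mem_univ, true_and]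
  intro hab
  apply hf' (f a)
  refine hup _ _ ?_ hBab
  intro x hx
  rw [mem_cls]
  rcases Finset.mem_insert.1 hx with rfl | hx
  · exact ⟨a.2, rfl⟩
  · rw [Finset.mem_singleton] at hx
    subst hx
    exact ⟨b.2, hab.symm⟩

private lemma exists_perm {k : ℕ} {p p' : Fin k × Fin k} (hp : p.1 ≠ p.2) (hp' : p'.1 ≠ p'.2) :
    ∃ σ : Equiv.Perm (Fin k), σ p.1 = p'.1 ∧ σ p.2 = p'.2 := by
  refine ⟨(Equiv.swap p.1 p'.1).trans (Equiv.swap ((Equiv.swap p.1 p'.1) p.2) p'.2), ?_, ?_⟩
  · simp only [Equiv.trans_apply, Equiv.swap_apply_left]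
    apply Equiv.swap_apply_of_ne_of_ne
    · intro h
      have : (Equiv.swap p.1 p'.1) p.1 = (Equiv.swap p.1 p'.1) p.2 := by
        rw [Equiv.swap_apply_left]; exact h
      exact hp ((Equiv.swap p.1 p'.1).injective this)
    · exact hp'
  · simp

private lemma cls_perm (W : Finset α) {k : ℕ} (f : W → Fin k) (σ : Equiv.Perm (Fin k))
    (j : Fin k) : cls W (σ ∘ f) j = cls W f (σ.symm j) := by
  ext x
  simp only [mem_cls, Function.comp_apply]
  refine exists_congr fun h => ?_
  rw [Equiv.eq_symm_apply]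

private lemma card_fib_eq (W : Finset α) (B : Finset α → Prop) (k : ℕ) (a b : W)
    {p p' : Fin k × Fin k} (hp : p.1 ≠ p.2) (hp' : p'.1 ≠ p'.2) :
    (fib W B k a b p).card = (fib W B k a b p').card := by
  obtain ⟨σ, h1, h2⟩ := exists_perm hp hp'
  refine Finset.card_bij' (fun f _ => σ ∘ f) (fun f _ => σ.symm ∘ f) ?_ ?_ ?_ ?_
  · intro f hf
    rw [fib, Finset.mem_filter, mem_good] at hf ⊢
    refine ⟨fun j => ?_, ?_⟩
    · rw [cls_perm]; exact hf.1 _
    · obtain ⟨rfl⟩ := hf.2
      simp only [Function.comp_apply]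
      exact Prod.ext h1 h2
  · intro f hf
    rw [fib, Finset.mem_filter, mem_good] at hf ⊢
    refine ⟨fun j => ?_, ?_⟩
    · rw [cls_perm]; exact hf.1 _
    · simp only [Function.comp_apply]
      refine Prod.ext ?_ ?_
      · show σ.symm (f a) = p.1
        rw [Equiv.symm_apply_eq, h1, ← hf.2]
      · show σ.symm (f b) = p.2
        rw [Equiv.symm_apply_eq, h2, ← hf.2]
  · intro f _
    ext x
    simp
  · intro f _
    ext x
    simp

private lemma cls_restrict {W A : Finset α} (hA : A ⊆ W) {k : ℕ} (f : W → Fin k) (j : Fin k) :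
    cls A (fun x : A => f ⟨x.1, hA x.2⟩) j = cls W f j ∩ A := by
  ext x
  simp only [mem_cls, Finset.mem_inter]
  constructor
  · rintro ⟨h, h'⟩
    exact ⟨⟨hA h, h'⟩, h⟩
  · rintro ⟨⟨_, h'⟩, h⟩
    exact ⟨h, h'⟩

/-- glue two colourings. -/
private noncomputable def glue (A D : Finset α) {k : ℕ} (g : A → Fin k) (h : D → Fin k) :
    (A ∪ D : Finset α) → Fin k := fun x =>
  if hx : x.1 ∈ A then g ⟨x.1, hx⟩ else h ⟨x.1, (Finset.mem_union.1 x.2).resolve_left hx⟩

private lemma card_fib_union (A D : Finset α) (B : Finset α → Prop) (k : ℕ) (a b : α)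
    (haA : a ∈ A) (hbA : b ∈ A) (haD : a ∈ D) (hbD : b ∈ D)
    (hAD : ∀ x ∈ A, x ∈ D → x = a ∨ x = b)
    (hB : ∀ T ⊆ A ∪ D, (B T ↔ B (T ∩ A) ∨ B (T ∩ D))) (p : Fin k × Fin k) :
    (fib (A ∪ D) B k ⟨a, Finset.mem_union_left _ haA⟩ ⟨b, Finset.mem_union_left _ hbA⟩ p).card =
      (fib A B k ⟨a, haA⟩ ⟨b, hbA⟩ p).card * (fib D B k ⟨a, haD⟩ ⟨b, hbD⟩ p).card := by
  rw [← Finset.card_product]
  have clsub : ∀ (f : (A ∪ D : Finset α) → Fin k) (j : Fin k), cls (A ∪ D) f j ⊆ A ∪ D := by
    intro f j x hx
    exact ((mem_cls _ _ _ _).1 hx).1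
  refine Finset.card_bij' (fun f _ => (fun x : A => f ⟨x.1, Finset.mem_union_left _ x.2⟩,
      fun x : D => f ⟨x.1, Finset.mem_union_right _ x.2⟩)) (fun q _ => glue A D q.1 q.2) ?_ ?_ ?_ ?_
  · intro f hf
    rw [fib, Finset.mem_filter, mem_good] at hf
    rw [Finset.mem_product, fib, fib, Finset.mem_filter, Finset.mem_filter, mem_good, mem_good]
    refine ⟨⟨fun j => ?_, hf.2⟩, ⟨fun j => ?_, hf.2⟩⟩
    · intro hb
      refine hf.1 j ((hB _ (clsub f j)).2 (Or.inl ?_))
      rw [← cls_restrict Finset.subset_union_left f j]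
      exact hb
    · intro hb
      refine hf.1 j ((hB _ (clsub f j)).2 (Or.inr ?_))
      rw [← cls_restrict Finset.subset_union_right f j]
      exact hb
  · rintro ⟨g, h⟩ hq
    rw [Finset.mem_product, fib, fib, Finset.mem_filter, Finset.mem_filter, mem_good,
      mem_good] at hq
    obtain ⟨⟨hg, hgp⟩, ⟨hh, hhp⟩⟩ := hq
    simp only at hg hgp hh hhp ⊢
    have e1 : (fun x : A => glue A D g h ⟨x.1, Finset.mem_union_left _ x.2⟩) = g := by
      ext x; simp [glue]
    have e2 : (fun x : D => glue A D g h ⟨x.1, Finset.mem_union_right _ x.2⟩) = h := by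
      funext x
      by_cases hx : x.1 ∈ A
      · have hpp := hgp.trans hhp.symm
        rw [Prod.ext_iff] at hpp
        obtain ⟨x, hxD⟩ := x
        simp only at hx ⊢
        rcases hAD x hx hxD with rfl | rfl
        · simp only [glue, hx, dif_pos]; exact hpp.1
        · simp only [glue, hx, dif_pos]; exact hpp.2
      · simp [glue, hx]
    rw [fib, Finset.mem_filter, mem_good]
    refine ⟨fun j hb => ?_, ?_⟩
    · rcases (hB _ (clsub _ j)).1 hb with hb | hb
      · rw [← cls_restrict Finset.subset_union_left (glue A D g h) j, e1] at hb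
        exact hg j hb
      · rw [← cls_restrict Finset.subset_union_right (glue A D g h) j, e2] at hb
        exact hh j hb
    · rw [← hgp]
      simp only [glue, haA, hbA, dif_pos]
  · intro f _
    ext x
    simp only [glue]
    split_ifs <;> rfl
  · rintro ⟨g, h⟩ hq
    rw [Finset.mem_product, fib, fib, Finset.mem_filter, Finset.mem_filter, mem_good,
      mem_good] at hq
    obtain ⟨⟨hg, hgp⟩, ⟨hh, hhp⟩⟩ := hq
    simp only at hg hgp hh hhp ⊢
    refine Prod.ext ?_ ?_
    · funext x; simp [glue]
    · funext x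
      by_cases hx : x.1 ∈ A
      · have hpp := hgp.trans hhp.symm
        rw [Prod.ext_iff] at hpp
        obtain ⟨x, hxD⟩ := x
        simp only at hx ⊢
        rcases hAD x hx hxD with rfl | rfl
        · simp only [glue, hx, dif_pos]; exact hpp.1
        · simp only [glue, hx, dif_pos]; exact hpp.2
      · simp [glue, hx]

private lemma poly_ext {f g : ℝ → ℝ} (hf : ∃ p : Polynomial ℝ, ∀ q, f q = p.eval q)
    (hg : ∃ p : Polynomial ℝ, ∀ q, g q = p.eval q) (h : ∀ k : ℕ, f k = g k) (q : ℝ) :
    f q = g q := by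
  obtain ⟨p, hp⟩ := hf
  obtain ⟨p', hp'⟩ := hg
  have : p = p' := by
    apply Polynomial.eq_of_infinite_eval_eq
    refine Set.Infinite.mono ?_ (Set.infinite_range_of_injective (Nat.cast_injective (R := ℝ)))
    rintro _ ⟨k, rfl⟩
    show p.eval (k : ℝ) = p'.eval (k : ℝ)
    rw [← hp, ← hp', h]
  rw [hp, hp', this]

private lemma glue2 (A D : Finset α) (B : Finset α → Prop) (a b : α) (_hab : a ≠ b)
    (haA : a ∈ A) (hbA : b ∈ A) (haD : a ∈ D) (hbD : b ∈ D)
    (hAD : ∀ x ∈ A, x ∈ D → x = a ∨ x = b) (hB0 : ¬ B ∅)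
    (hBab : B {a, b}) (hup : ∀ T T', T ⊆ T' → B T → B T')
    (hB : ∀ T ⊆ A ∪ D, (B T ↔ B (T ∩ A) ∨ B (T ∩ D))) (q : ℝ) :
    chrom (A ∪ D) B q * (q * (q - 1)) = chrom A B q * chrom D B q := by
  refine poly_ext (f := fun q => chrom (A ∪ D) B q * (q * (q - 1)))
    (g := fun q => chrom A B q * chrom D B q) ?_ ?_ ?_ q
  · obtain ⟨p, hp⟩ := chrom_poly (A ∪ D) B
    refine ⟨p * (Polynomial.X * (Polynomial.X - 1)), fun q => ?_⟩
    simp [hp]
  · obtain ⟨p, hp⟩ := chrom_poly A B
    obtain ⟨p', hp'⟩ := chrom_poly D B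
    refine ⟨p * p', fun q => ?_⟩
    simp [hp, hp']
  · intro k
    rw [chrom_eq_card _ B hB0, chrom_eq_card _ B hB0, chrom_eq_card _ B hB0]
    have cA := card_good A B k ⟨a, haA⟩ ⟨b, hbA⟩ hBab hup
    have cD := card_good D B k ⟨a, haD⟩ ⟨b, hbD⟩ hBab hup
    have cW := card_good (A ∪ D) B k ⟨a, Finset.mem_union_left _ haA⟩
      ⟨b, Finset.mem_union_left _ hbA⟩ hBab hup
    have hoff : (((Finset.univ : Finset (Fin k)).offDiag.card : ℕ) : ℝ) = (k : ℝ) * (k - 1) := by
      rw [Finset.offDiag_card, Finset.card_univ, Fintype.card_fin, Nat.cast_sub (Nat.le_mul_self k)]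
      push_cast
      ring
    have key : (good A B k).card * (good D B k).card =
        (good (A ∪ D) B k).card * (Finset.univ : Finset (Fin k)).offDiag.card := by
      rw [cA, cD, cW, Finset.sum_mul_sum, Finset.sum_mul]
      refine Finset.sum_congr rfl fun p hp => ?_
      rw [card_fib_union A D B k a b haA hbA haD hbD hAD hB p, ← Finset.mul_sum, mul_assoc]
      congr 1
      rw [Finset.sum_congr rfl (g := fun _ => (fib D B k ⟨a, haD⟩ ⟨b, hbD⟩ p).card),
        Finset.sum_const, smul_eq_mul, mul_comm]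
      intro p' hp'
      exact card_fib_eq D B k _ _ (by simpa using hp') (by simpa using hp)
    rw [← hoff]
    exact_mod_cast key.symm

end GlueE

set_option linter.unusedVariables false in
/-- P5 (adjacent separating pair). -/
theorem chrom_glue_edge (a b : α) (hab : a ≠ b) (C : Finset (Finset α)) (B : Finset α → Prop)
    (hne : C.Nonempty) (hdisj : (C : Set (Finset α)).PairwiseDisjoint id)
    (ha : ∀ K ∈ C, a ∉ K) (hb : ∀ K ∈ C, b ∉ K) (hB0 : ¬ B ∅) (hB1 : ∀ v, ¬ B {v})
    (hBab : B {a, b}) (hup : ∀ T T', T ⊆ T' → B T → B T')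
    (hB : ∀ T ⊆ insert a (insert b (C.biUnion id)),
      (B T ↔ ∃ K ∈ C, B (T ∩ insert a (insert b K)))) (q : ℝ) :
    chrom (insert a (insert b (C.biUnion id))) B q * (q * (q - 1)) ^ (C.card - 1) =
      ∏ K ∈ C, chrom (insert a (insert b K)) B q := by
  induction hne using Finset.Nonempty.cons_induction with
  | singleton K => simp
  | cons K C hK hne ih =>
    have hsubC : ∀ L ∈ C, L ∈ Finset.cons K C hK := fun L hL => Finset.mem_cons.2 (Or.inr hL)
    have hKm : K ∈ Finset.cons K C hK := Finset.mem_cons_self K C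
    have hW : insert a (insert b ((Finset.cons K C hK).biUnion id)) =
        insert a (insert b K) ∪ insert a (insert b (C.biUnion id)) := by
      ext x
      simp only [Finset.mem_insert, Finset.mem_biUnion, Finset.mem_cons, Finset.mem_union, id]
      constructor
      · rintro (h | h | ⟨L, rfl | hL, hx⟩)
        · exact Or.inl (Or.inl h)
        · exact Or.inl (Or.inr (Or.inl h))
        · exact Or.inl (Or.inr (Or.inr hx))
        · exact Or.inr (Or.inr (Or.inr ⟨L, hL, hx⟩))
      · rintro ((h | h | h) | (h | h | ⟨L, hL, hx⟩))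
        · exact Or.inl h
        · exact Or.inr (Or.inl h)
        · exact Or.inr (Or.inr ⟨K, Or.inl rfl, h⟩)
        · exact Or.inl h
        · exact Or.inr (Or.inl h)
        · exact Or.inr (Or.inr ⟨L, Or.inr hL, hx⟩)
    have hsub2 : insert a (insert b (C.biUnion id)) ⊆
        insert a (insert b ((Finset.cons K C hK).biUnion id)) := by
      rw [hW]; exact Finset.subset_union_right
    have hBC : ∀ T ⊆ insert a (insert b (C.biUnion id)),
        (B T ↔ ∃ L ∈ C, B (T ∩ insert a (insert b L))) := by
      intro T hT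
      rw [hB T (hT.trans hsub2)]
      constructor
      · rintro ⟨L, hL, hBL⟩
        rcases Finset.mem_cons.1 hL with rfl | hL
        · -- the trace on the other component is inside `{a, b}`
          obtain ⟨M, hM⟩ := hne
          refine ⟨M, hM, hup _ _ ?_ hBL⟩
          intro x hx
          rw [Finset.mem_inter] at hx ⊢
          refine ⟨hx.1, ?_⟩
          have hxT := hT hx.1
          simp only [Finset.mem_insert, Finset.mem_biUnion, id] at hxT hx ⊢
          rcases hx.2 with h | h | h
          · exact Or.inl h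
          · exact Or.inr (Or.inl h)
          · rcases hxT with h' | h' | ⟨N, hN, hxN⟩
            · exact Or.inl h'
            · exact Or.inr (Or.inl h')
            · exfalso
              have hne' : L ≠ N := fun e => hK (e ▸ hN)
              have := hdisj (Finset.mem_coe.2 hKm) (Finset.mem_coe.2 (hsubC N hN)) hne'
              exact Finset.disjoint_left.1 this h hxN
        · exact ⟨L, hL, hBL⟩
      · rintro ⟨L, hL, hBL⟩
        exact ⟨L, hsubC L hL, hBL⟩
    have ih' := ih (hdisj.subset (by
        intro L hL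
        exact Finset.mem_coe.2 (hsubC L (Finset.mem_coe.1 hL))))
      (fun L hL => ha L (hsubC L hL)) (fun L hL => hb L (hsubC L hL)) hBC
    have hg := GlueE.glue2 (insert a (insert b K)) (insert a (insert b (C.biUnion id))) B a b hab
      (by simp) (by simp) (by simp) (by simp) (by
        intro x hx hx'
        simp only [Finset.mem_insert, Finset.mem_biUnion, id] at hx hx'
        rcases hx with h | h | h
        · exact Or.inl h
        · exact Or.inr h
        · rcases hx' with h' | h' | ⟨N, hN, hxN⟩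
          · exact Or.inl h'
          · exact Or.inr h'
          · exfalso
            have hne' : K ≠ N := fun e => hK (e ▸ hN)
            have := hdisj (Finset.mem_coe.2 hKm) (Finset.mem_coe.2 (hsubC N hN)) hne'
            exact Finset.disjoint_left.1 this h hxN) hB0 hBab hup (by
        intro T hT
        rw [← hW] at hT
        rw [hB T hT]
        constructor
        · rintro ⟨L, hL, hBL⟩
          rcases Finset.mem_cons.1 hL with rfl | hL
          · exact Or.inl hBL
          · right
            refine hup _ _ ?_ hBL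
            refine Finset.inter_subset_inter le_rfl ?_
            refine Finset.insert_subset_insert _ (Finset.insert_subset_insert _ ?_)
            exact Finset.subset_biUnion_of_mem id hL
        · rintro (hBL | hBL)
          · exact ⟨K, hKm, hBL⟩
          · obtain ⟨L, hL, hL'⟩ := (hBC _ Finset.inter_subset_right).1 hBL
            refine ⟨L, hsubC L hL, hup _ _ ?_ hL'⟩
            intro x hx
            rw [Finset.mem_inter, Finset.mem_inter] at hx
            exact Finset.mem_inter.2 ⟨hx.1.1, hx.2⟩) q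
    rw [Finset.prod_cons, ← ih', ← mul_assoc, ← hg, hW, Finset.card_cons]
    obtain ⟨c, hc⟩ : ∃ c, C.card = c + 1 := ⟨C.card - 1, by
      have := Finset.card_pos.2 hne
      omega⟩
    rw [hc]
    simp only [Nat.add_sub_cancel]
    ring

end Pool.Agent.DK
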