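import Mathlib
import Pool.Agent.Lib_MP_6f255c_dk.Defs
import Pool.Agent.Lib_MP_6f255c_dk.ChromNat

set_option autoImplicit false

namespace Pool.Agent.DK

open Classical

variable {α : Type*}

private def Good (W : Finset α) (B : Finset α → Prop) (k : ℕ) (f : W → Fin k) : Prop :=
  ∀ j, (Finset.univ.filter (fun w => f w = j)).Nonempty →
        ¬ B ((Finset.univ.filter (fun w => f w = j)).map (Function.Embedding.subtype _))

private lemma good_iff (W : Finset α) (B : Finset α → Prop) (hB0 : ¬ B ∅) (k : ℕ) (f : W → Fin k) :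
    Good W B k f ↔ ∀ j, ¬ B (W.filter (fun x => ∃ h : x ∈ W, f ⟨x, h⟩ = j)) := by
  unfold Good
  refine forall_congr' fun j => ?_
  have h1 : (Finset.univ.filter (fun w => f w = j)).map (Function.Embedding.subtype _) =
      W.filter (fun x => ∃ h : x ∈ W, f ⟨x, h⟩ = j) := by
    ext x
    simp only [Finset.mem_map, Finset.mem_filter, Finset.mem_univ, true_and,
      Function.Embedding.coe_subtype, Subtype.exists]
    constructor
    · rintro ⟨y, hy, hfy, rfl⟩
      exact ⟨hy, hy, hfy⟩
    · rintro ⟨hx, hx', hf⟩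
      exact ⟨x, hx, hf, rfl⟩
  rw [h1]
  constructor
  · intro h hB
    by_cases hn : (Finset.univ.filter (fun w => f w = j)).Nonempty
    · exact h hn hB
    · rw [← h1, Finset.not_nonempty_iff_eq_empty.1 hn, Finset.map_empty] at hB
      exact hB0 hB
  · intro h _
    exact h

private lemma chrom_eq_good (W : Finset α) (B : Finset α → Prop) (k : ℕ) :
    chrom W B (k : ℝ) = (Fintype.card {f : W → Fin k // Good W B k f} : ℝ) := by
  rw [chrom_natCast]
  exact congrArg (fun x : ℕ => (x : ℝ)) (Fintype.card_congr (Equiv.refl _))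

private lemma glue_two_nat (s : α) (K L : Finset α) (B : Finset α → Prop)
    (hd : Disjoint K L) (hB0 : ¬ B ∅)
    (hB : ∀ T ⊆ insert s (K ∪ L), (B T ↔ B (T ∩ insert s K) ∨ B (T ∩ insert s L))) (m : ℕ) :
    chrom (insert s (K ∪ L)) B ((m + 1 : ℕ) : ℝ) * ((m + 1 : ℕ) : ℝ) =
      chrom (insert s K) B ((m + 1 : ℕ) : ℝ) * chrom (insert s L) B ((m + 1 : ℕ) : ℝ) := by
  rw [chrom_eq_good, chrom_eq_good, chrom_eq_good]
  set W := insert s (K ∪ L) with hW
  set A := insert s K with hA
  set D := insert s L with hD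
  have hAW : A ⊆ W := Finset.insert_subset_insert _ Finset.subset_union_left
  have hDW : D ⊆ W := Finset.insert_subset_insert _ Finset.subset_union_right
  have hsA : s ∈ A := Finset.mem_insert_self _ _
  have hsD : s ∈ D := Finset.mem_insert_self _ _
  have hAD : ∀ x, x ∈ A → x ∈ D → x = s := by
    intro x h1 h2
    by_contra hne
    have h3 : x ∈ K := Finset.mem_of_mem_insert_of_ne h1 hne
    have h4 : x ∈ L := Finset.mem_of_mem_insert_of_ne h2 hne
    exact Finset.disjoint_left.1 hd h3 h4
  have hWD : ∀ x, x ∈ W → x ∉ A → x ∈ D := by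
    intro x h1 h2
    rw [hW, Finset.mem_insert, Finset.mem_union] at h1
    rw [hA, Finset.mem_insert] at h2
    rw [hD, Finset.mem_insert]
    tauto
  -- goodness of the glued function
  have key : ∀ (f : W → Fin (m + 1)) (g : A → Fin (m + 1)) (h : D → Fin (m + 1)) (d : Fin (m + 1)),
      (∀ x (hx : x ∈ A), g ⟨x, hx⟩ = f ⟨x, hAW hx⟩) →
      (∀ x (hx : x ∈ D), h ⟨x, hx⟩ = f ⟨x, hDW hx⟩ + d) →
      (Good W B (m + 1) f ↔ Good A B (m + 1) g ∧ Good D B (m + 1) h) := by
    intro f g h d hg hh
    rw [good_iff _ _ hB0, good_iff _ _ hB0, good_iff _ _ hB0]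
    have e1 : ∀ j, (W.filter (fun x => ∃ h : x ∈ W, f ⟨x, h⟩ = j)) ∩ A =
        A.filter (fun x => ∃ h : x ∈ A, g ⟨x, h⟩ = j) := by
      intro j
      ext x
      simp only [Finset.mem_inter, Finset.mem_filter]
      constructor
      · rintro ⟨⟨_, h2, h3⟩, h4⟩
        exact ⟨h4, h4, by rw [hg x h4]; exact h3⟩
      · rintro ⟨h4, h5, h6⟩
        exact ⟨⟨hAW h4, hAW h4, by rw [← hg x h4]; exact h6⟩, h4⟩
    have e2 : ∀ j, (W.filter (fun x => ∃ h : x ∈ W, f ⟨x, h⟩ = j)) ∩ D =
        D.filter (fun x => ∃ h' : x ∈ D, h ⟨x, h'⟩ = j + d) := by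
      intro j
      ext x
      simp only [Finset.mem_inter, Finset.mem_filter]
      constructor
      · rintro ⟨⟨_, h2, h3⟩, h4⟩
        exact ⟨h4, h4, by rw [hh x h4, h3]⟩
      · rintro ⟨h4, h5, h6⟩
        refine ⟨⟨hDW h4, hDW h4, ?_⟩, h4⟩
        rw [hh x h4] at h6
        exact add_right_cancel h6
    have e3 : ∀ j, B (W.filter (fun x => ∃ h : x ∈ W, f ⟨x, h⟩ = j)) ↔
        B (A.filter (fun x => ∃ h : x ∈ A, g ⟨x, h⟩ = j)) ∨
        B (D.filter (fun x => ∃ h' : x ∈ D, h ⟨x, h'⟩ = j + d)) := by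
      intro j
      rw [hB _ (Finset.filter_subset _ _), e1, e2]
    constructor
    · intro h1
      refine ⟨fun j hj => h1 j ((e3 j).2 (Or.inl hj)), fun j hj => ?_⟩
      refine h1 (j - d) ((e3 (j - d)).2 (Or.inr ?_))
      rw [sub_add_cancel]
      exact hj
    · rintro ⟨h1, h2⟩ j hj
      rcases (e3 j).1 hj with h3 | h3
      · exact h1 j h3
      · exact h2 (j + d) h3
  -- the bijection
  have hcard : Fintype.card ({f : W → Fin (m + 1) // Good W B (m + 1) f} × Fin (m + 1)) =
      Fintype.card ({g : A → Fin (m + 1) // Good A B (m + 1) g} ×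
        {h : D → Fin (m + 1) // Good D B (m + 1) h}) := by
    refine Fintype.card_of_bijective (f := fun p =>
      (⟨fun a => p.1.1 ⟨a.1, hAW a.2⟩,
        ((key p.1.1 (fun a => p.1.1 ⟨a.1, hAW a.2⟩) (fun b => p.1.1 ⟨b.1, hDW b.2⟩ + p.2) p.2
          (fun _ _ => rfl) (fun _ _ => rfl)).1 p.1.2).1⟩,
       ⟨fun b => p.1.1 ⟨b.1, hDW b.2⟩ + p.2,
        ((key p.1.1 (fun a => p.1.1 ⟨a.1, hAW a.2⟩) (fun b => p.1.1 ⟨b.1, hDW b.2⟩ + p.2) p.2
          (fun _ _ => rfl) (fun _ _ => rfl)).1 p.1.2).2⟩)) ⟨?_, ?_⟩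
    · rintro ⟨⟨f, hf⟩, d⟩ ⟨⟨f', hf'⟩, d'⟩ heq
      have h1 := congrArg (fun p => p.1.1) heq
      have h2 := congrArg (fun p => p.2.1) heq
      simp only at h1 h2
      have h1' : ∀ x (hx : x ∈ A), f ⟨x, hAW hx⟩ = f' ⟨x, hAW hx⟩ := fun x hx =>
        congrFun h1 ⟨x, hx⟩
      have h2' : ∀ x (hx : x ∈ D), f ⟨x, hDW hx⟩ + d = f' ⟨x, hDW hx⟩ + d' := fun x hx =>
        congrFun h2 ⟨x, hx⟩
      have hdd : d = d' := by
        have h3 := h1' s hsA
        have h4 := h2' s hsD
        rw [h3] at h4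
        exact add_left_cancel h4
      subst hdd
      have hff : f = f' := by
        funext ⟨x, hx⟩
        by_cases hxA : x ∈ A
        · exact h1' x hxA
        · exact add_right_cancel (h2' x (hWD x hx hxA))
      subst hff
      rfl
    · rintro ⟨⟨g, hg⟩, ⟨h, hh⟩⟩
      set d : Fin (m + 1) := h ⟨s, hsD⟩ - g ⟨s, hsA⟩ with hd'
      set f : W → Fin (m + 1) := fun w =>
        if hw : w.1 ∈ A then g ⟨w.1, hw⟩ else h ⟨w.1, hWD w.1 w.2 hw⟩ - d with hf'
      have f1 : ∀ x (hx : x ∈ A), g ⟨x, hx⟩ = f ⟨x, hAW hx⟩ := by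
        intro x hx
        simp only [hf']
        rw [dif_pos hx]
      have f2 : ∀ x (hx : x ∈ D), h ⟨x, hx⟩ = f ⟨x, hDW hx⟩ + d := by
        intro x hx
        simp only [hf']
        by_cases hxA : x ∈ A
        · rw [dif_pos hxA]
          have hxs := hAD x hxA hx
          subst hxs
          rw [hd']
          abel
        · rw [dif_neg hxA, sub_add_cancel]
      have hgood := (key f g h d f1 f2).2 ⟨hg, hh⟩
      refine ⟨(⟨f, hgood⟩, d), ?_⟩
      refine Prod.ext (Subtype.ext ?_) (Subtype.ext ?_)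
      · funext ⟨x, hx⟩
        exact (f1 x hx).symm
      · funext ⟨x, hx⟩
        exact (f2 x hx).symm
  rw [Fintype.card_prod, Fintype.card_prod, Fintype.card_fin] at hcard
  have hc : ((Fintype.card {f : W → Fin (m + 1) // Good W B (m + 1) f} * (m + 1) : ℕ) : ℝ) =
      ((Fintype.card {g : A → Fin (m + 1) // Good A B (m + 1) g} *
        Fintype.card {h : D → Fin (m + 1) // Good D B (m + 1) h} : ℕ) : ℝ) := by
    rw [hcard]
  rw [Nat.cast_mul, Nat.cast_mul] at hc
  exact hc

private lemma glue_two (s : α) (K L : Finset α) (B : Finset α → Prop)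
    (hd : Disjoint K L) (hB0 : ¬ B ∅)
    (hB : ∀ T ⊆ insert s (K ∪ L), (B T ↔ B (T ∩ insert s K) ∨ B (T ∩ insert s L))) (q : ℝ) :
    chrom (insert s (K ∪ L)) B q * q = chrom (insert s K) B q * chrom (insert s L) B q := by
  obtain ⟨pW, hpW⟩ := chrom_poly (insert s (K ∪ L)) B
  obtain ⟨pA, hpA⟩ := chrom_poly (insert s K) B
  obtain ⟨pD, hpD⟩ := chrom_poly (insert s L) B
  have hpoly : pW * Polynomial.X = pA * pD := by
    apply Polynomial.eq_of_infinite_eval_eq
    have hinf : Set.Infinite (Set.range (fun m : ℕ => ((m + 1 : ℕ) : ℝ))) := by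
      apply Set.infinite_range_of_injective
      intro a b hab
      have h1 : ((a + 1 : ℕ) : ℝ) = ((b + 1 : ℕ) : ℝ) := hab
      have h2 : (a + 1 : ℕ) = b + 1 := Nat.cast_injective h1
      omega
    refine hinf.mono ?_
    rintro _ ⟨m, rfl⟩
    have h1 := glue_two_nat s K L B hd hB0 hB m
    rw [hpW, hpA, hpD] at h1
    show Polynomial.eval _ (pW * Polynomial.X) = Polynomial.eval _ (pA * pD)
    rw [Polynomial.eval_mul, Polynomial.eval_mul, Polynomial.eval_X]
    exact h1
  have h2 := congrArg (Polynomial.eval q) hpoly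
  rw [Polynomial.eval_mul, Polynomial.eval_mul, Polynomial.eval_X, ← hpW, ← hpA, ← hpD] at h2
  exact h2

/-- P4 (cut vertex): `W = {s} ∪ ⋃ K`, a set is bad iff its trace on some `K ∪ {s}` is bad. -/
theorem chrom_glue_vertex (s : α) (C : Finset (Finset α)) (B : Finset α → Prop)
    (hne : C.Nonempty) (hdisj : (C : Set (Finset α)).PairwiseDisjoint id)
    (hs : ∀ K ∈ C, s ∉ K) (hB0 : ¬ B ∅) (hB1 : ∀ v, ¬ B {v})
    (hB : ∀ T ⊆ insert s (C.biUnion id), (B T ↔ ∃ K ∈ C, B (T ∩ insert s K))) (q : ℝ) :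
    chrom (insert s (C.biUnion id)) B q * q ^ (C.card - 1) =
      ∏ K ∈ C, chrom (insert s K) B q := by
  induction C using Finset.induction_on with
  | empty => exact absurd hne Finset.not_nonempty_empty
  | insert K C hKC ih =>
    rcases C.eq_empty_or_nonempty with rfl | hCne
    · simp
    · have hsK : s ∉ K := hs K (Finset.mem_insert_self _ _)
      have hdKC : Disjoint K (C.biUnion id) := by
        rw [Finset.disjoint_biUnion_right]
        intro K' hK'
        have hne' : K ≠ K' := fun h => hKC (h ▸ hK')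
        exact hdisj (Finset.mem_coe.2 (Finset.mem_insert_self _ _))
          (Finset.mem_coe.2 (Finset.mem_insert_of_mem hK')) hne'
      have hcap : ∀ K' ∈ C, insert s (C.biUnion id) ∩ insert s K' = insert s K' := by
        intro K' hK'
        apply Finset.inter_eq_right.2
        exact Finset.insert_subset_insert _ (Finset.subset_biUnion_of_mem id hK')
      have hcapK : insert s (C.biUnion id) ∩ insert s K = {s} := by
        rw [← Finset.insert_inter_distrib, Finset.disjoint_iff_inter_eq_empty.1 hdKC.symm]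
        rfl
      have hBC : ∀ T ⊆ insert s (C.biUnion id), (B T ↔ ∃ K ∈ C, B (T ∩ insert s K)) := by
        intro T hT
        have hT' : T ⊆ insert s ((insert K C).biUnion id) := by
          refine hT.trans (Finset.insert_subset_insert _ ?_)
          exact Finset.biUnion_subset_biUnion_of_subset_left _ (Finset.subset_insert _ _)
        rw [hB T hT']
        constructor
        · rintro ⟨K', hK', hBK'⟩
          rcases Finset.mem_insert.1 hK' with rfl | hK''
          · exfalso
            have h1 : T ∩ insert s K' ⊆ {s} := by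
              rw [← hcapK]
              exact Finset.inter_subset_inter_right hT
            rcases Finset.subset_singleton_iff.1 h1 with h2 | h2
            · rw [h2] at hBK'
              exact hB0 hBK'
            · rw [h2] at hBK'
              exact hB1 s hBK'
          · exact ⟨K', hK'', hBK'⟩
        · rintro ⟨K', hK', hBK'⟩
          exact ⟨K', Finset.mem_insert_of_mem hK', hBK'⟩
      have hIH := ih hCne
        (hdisj.subset (by
          intro x hx
          exact Finset.mem_coe.2 (Finset.mem_insert_of_mem (Finset.mem_coe.1 hx))))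
        (fun K' hK' => hs K' (Finset.mem_insert_of_mem hK')) hBC
      have hB2 : ∀ T ⊆ insert s (K ∪ C.biUnion id),
          (B T ↔ B (T ∩ insert s K) ∨ B (T ∩ insert s (C.biUnion id))) := by
        intro T hT
        have hT' : T ⊆ insert s ((insert K C).biUnion id) := by
          rw [Finset.biUnion_insert]
          exact hT
        rw [hB T hT', hBC (T ∩ insert s (C.biUnion id)) Finset.inter_subset_right]
        constructor
        · rintro ⟨K', hK', hBK'⟩
          rcases Finset.mem_insert.1 hK' with rfl | hK''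
          · exact Or.inl hBK'
          · refine Or.inr ⟨K', hK'', ?_⟩
            rw [Finset.inter_assoc, hcap K' hK'']
            exact hBK'
        · rintro (h1 | ⟨K', hK', h1⟩)
          · exact ⟨K, Finset.mem_insert_self _ _, h1⟩
          · rw [Finset.inter_assoc, hcap K' hK'] at h1
            exact ⟨K', Finset.mem_insert_of_mem hK', h1⟩
      have h2 := glue_two s K (C.biUnion id) B hdKC hB0 hB2 q
      rw [Finset.prod_insert hKC, ← hIH, Finset.card_insert_of_notMem hKC, Finset.biUnion_insert]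
      have hpos : 0 < C.card := Finset.card_pos.2 hCne
      have hpow : q ^ (C.card + 1 - 1) = q * q ^ (C.card - 1) := by
        rw [← pow_succ']
        congr 1
        omega
      rw [hpow, ← mul_assoc, ← mul_assoc]
      simp only [id]
      rw [h2]

end Pool.Agent.DK
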