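import Mathlib
import Pool.Agent.Lib_MP_6f255c_dk.Defs

set_option autoImplicit false

namespace Pool.Agent.DK

open Classical

variable {α : Type*}

/-- P7: congruence — only the bad sets inside `W` matter. -/
theorem chrom_congr (W : Finset α) (B B' : Finset α → Prop) (h : ∀ T ⊆ W, T.Nonempty → (B T ↔ B' T))
    (q : ℝ) : chrom W B q = chrom W B' q := by
  unfold chrom
  refine Finset.sum_congr rfl (fun π _ => ?_)
  have hiff : (∀ S ∈ π.parts, ¬ B S) ↔ (∀ S ∈ π.parts, ¬ B' S) := by
    refine forall_congr' (fun S => forall_congr' (fun hS => ?_))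
    exact not_congr (h S (π.le hS) (π.nonempty_of_mem_parts hS))
  by_cases h1 : ∀ S ∈ π.parts, ¬ B S
  · rw [if_pos h1, if_pos (hiff.1 h1)]
  · rw [if_neg h1, if_neg (fun h2 => h1 (hiff.2 h2))]

/-- P8: small ground sets. -/
theorem chrom_empty (B : Finset α → Prop) (q : ℝ) : chrom (∅ : Finset α) B q = 1 := by
  unfold chrom
  have hp : ∀ π : Finpartition (∅ : Finset α), π.parts = ∅ := by
    intro π
    by_contra hne
    obtain ⟨S, hS⟩ := Finset.nonempty_iff_ne_empty.2 hne
    obtain ⟨x, hx⟩ := π.nonempty_of_mem_parts hS
    exact absurd (π.le hS hx) (Finset.notMem_empty x)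
  have huniq : ∀ π π' : Finpartition (∅ : Finset α), π = π' := by
    intro π π'
    ext1
    rw [hp π, hp π']
  rw [Fintype.sum_eq_single (⊥ : Finpartition (∅ : Finset α)) (fun π hπ => absurd (huniq π ⊥) hπ)]
  rw [hp ⊥]
  simp

theorem chrom_singleton (v : α) (B : Finset α → Prop) (hB1 : ¬ B {v}) (q : ℝ) :
    chrom {v} B q = q := by
  unfold chrom
  have hp : ∀ π : Finpartition ({v} : Finset α), π.parts = {{v}} := by
    intro π
    have hsub : ∀ S ∈ π.parts, S = {v} := by
      intro S hS
      have h1 : S ⊆ {v} := π.le hS
      rcases Finset.subset_singleton_iff.1 h1 with h2 | h2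
      · exact absurd h2 (Finset.nonempty_iff_ne_empty.1 (π.nonempty_of_mem_parts hS))
      · exact h2
    ext S
    rw [Finset.mem_singleton]
    refine ⟨hsub S, fun h => ?_⟩
    obtain ⟨T, hT, _⟩ := π.exists_mem (Finset.mem_singleton_self v)
    have hTS : T = S := (hsub T hT).trans h.symm
    exact hTS ▸ hT
  have huniq : ∀ π π' : Finpartition ({v} : Finset α), π = π' := by
    intro π π'
    ext1
    rw [hp π, hp π']
  rw [Fintype.sum_eq_single (⊥ : Finpartition ({v} : Finset α)) (fun π hπ => absurd (huniq π ⊥) hπ)]
  rw [hp ⊥]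
  simp [hB1]

theorem chrom_pair (u v : α) (huv : u ≠ v) (B : Finset α → Prop) (hB1 : ∀ v, ¬ B {v})
    (hB : B {u, v}) (q : ℝ) : chrom {u, v} B q = q * (q - 1) := by
  unfold chrom
  have key : ∀ π : Finpartition ({u, v} : Finset α), (∀ S ∈ π.parts, ¬ B S) →
      π.parts = {{u}, {v}} := by
    intro π hπ
    have hsub : ∀ S ∈ π.parts, S = {u} ∨ S = {v} := by
      intro S hS
      have h1 : S ⊆ {u, v} := π.le hS
      have hne := π.nonempty_of_mem_parts hS
      have hnB := hπ S hS
      by_cases hu : u ∈ S
      · by_cases hv : v ∈ S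
        · exfalso
          apply hnB
          have : S = {u, v} := by
            apply Finset.Subset.antisymm h1
            intro x hx
            rcases Finset.mem_insert.1 hx with h | h
            · rw [h]; exact hu
            · rw [Finset.mem_singleton.1 h]; exact hv
          rw [this]; exact hB
        · left
          ext x
          constructor
          · intro hx
            rcases Finset.mem_insert.1 (h1 hx) with h | h
            · exact Finset.mem_singleton.2 h
            · exact absurd ((Finset.mem_singleton.1 h) ▸ hx) hv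
          · intro hx
            rw [Finset.mem_singleton.1 hx]; exact hu
      · right
        ext x
        constructor
        · intro hx
          rcases Finset.mem_insert.1 (h1 hx) with h | h
          · exact absurd (h ▸ hx) hu
          · exact h
        · intro hx
          rw [Finset.mem_singleton.1 hx]
          obtain ⟨y, hy⟩ := hne
          rcases Finset.mem_insert.1 (h1 hy) with h | h
          · exact absurd (h ▸ hy) hu
          · exact (Finset.mem_singleton.1 h) ▸ hy
    have hum : ({u} : Finset α) ∈ π.parts := by
      obtain ⟨T, hT, huT⟩ := π.exists_mem (Finset.mem_insert_self u {v})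
      rcases hsub T hT with h | h
      · exact h ▸ hT
      · rw [h] at huT
        exact absurd (Finset.mem_singleton.1 huT) huv
    have hvm : ({v} : Finset α) ∈ π.parts := by
      obtain ⟨T, hT, hvT⟩ := π.exists_mem (Finset.mem_insert_of_mem (Finset.mem_singleton_self v))
      rcases hsub T hT with h | h
      · rw [h] at hvT
        exact absurd (Finset.mem_singleton.1 hvT).symm huv
      · exact h ▸ hT
    ext S
    rw [Finset.mem_insert, Finset.mem_singleton]
    refine ⟨hsub S, fun h => ?_⟩
    rcases h with h | h
    · rw [h]; exact hum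
    · rw [h]; exact hvm
  have hbot : ∀ S ∈ (⊥ : Finpartition ({u, v} : Finset α)).parts, ¬ B S := by
    intro S hS
    rw [Finpartition.mem_bot_iff] at hS
    obtain ⟨x, _, hx⟩ := hS
    rw [← hx]
    exact hB1 x
  rw [Fintype.sum_eq_single (⊥ : Finpartition ({u, v} : Finset α))]
  · rw [if_pos hbot, key _ hbot]
    have hne : ({u} : Finset α) ≠ {v} := fun h => huv (Finset.singleton_injective h)
    rw [Finset.card_pair hne]
    simp [Finset.prod_range_succ]
  · intro π hπ
    rw [if_neg]
    intro h
    apply hπ
    ext1
    rw [key π h, key _ hbot]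

/-- P9: relation between component counts of the two formalisms. -/
theorem natCard_cc_eq_c (V : Type) [Fintype V] [DecidableEq V] (G : SimpleGraph V)
    (S : Finset V) :
    Nat.card ((G.induce ((S : Set V)ᶜ)).ConnectedComponent) =
      c (Finset.univ : Finset V) (fun S => ∃ u ∈ S, ∃ v ∈ S, G.Adj u v) S := by
  set H := G.induce ((S : Set V)ᶜ) with hH
  set B : Finset V → Prop := fun S => ∃ u ∈ S, ∃ v ∈ S, G.Adj u v with hBdef
  set R : Finset V := Finset.univ \ S with hR
  have hRmem : ∀ x : V, x ∈ R ↔ x ∈ ((S : Set V)ᶜ) := by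
    intro x
    simp [hR]
  have hadj : ∀ a b : V, Adj B a b ↔ G.Adj a b := by
    intro a b
    constructor
    · rintro ⟨hne, u, hu, v, hv, huv⟩
      simp only [Finset.mem_insert, Finset.mem_singleton] at hu hv
      rcases hu with rfl | rfl <;> rcases hv with rfl | rfl
      · exact absurd rfl huv.ne
      · exact huv
      · exact huv.symm
      · exact absurd rfl huv.ne
    · intro h
      exact ⟨h.ne, a, by simp, b, by simp, h⟩
  -- joined iff reachable
  have hjr : ∀ (a b : V) (ha : a ∈ ((S : Set V)ᶜ)) (hb : b ∈ ((S : Set V)ᶜ)),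
      Joined B R a b ↔ H.Reachable ⟨a, ha⟩ ⟨b, hb⟩ := by
    intro a b ha hb
    constructor
    · intro h
      have : ∀ y : V, Joined B R a y → ∀ hy : y ∈ ((S : Set V)ᶜ), H.Reachable ⟨a, ha⟩ ⟨y, hy⟩ := by
        intro y hy
        induction hy with
        | refl => intro _; exact SimpleGraph.Reachable.refl _
        | tail _ hst ih =>
          intro hy'
          obtain ⟨h1, h2, h3⟩ := hst
          have h1' := (hRmem _).1 h1
          refine (ih h1').trans (SimpleGraph.Adj.reachable ?_)
          exact (hadj _ _).1 h3
      exact this b h hb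
    · rintro ⟨p⟩
      have : ∀ (x y : ((S : Set V)ᶜ : Set V)) (_ : H.Walk x y), Joined B R (x : V) (y : V) := by
        intro x y p
        induction p with
        | nil => exact Relation.ReflTransGen.refl
        | cons hxy _ ih =>
          refine Relation.ReflTransGen.head ?_ ih
          refine ⟨(hRmem _).2 (Subtype.property _), (hRmem _).2 (Subtype.property _), (hadj _ _).2 hxy⟩
      exact this _ _ p
  -- the map
  let f : H.ConnectedComponent → Finset V := fun C =>
    R.filter (fun u => ∃ h : u ∈ ((S : Set V)ᶜ), H.connectedComponentMk ⟨u, h⟩ = C)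
  have hf : ∀ x : ((S : Set V)ᶜ : Set V), f (H.connectedComponentMk x) =
      R.filter (fun u => Joined B R (x : V) u) := by
    intro x
    ext u
    simp only [f, Finset.mem_filter]
    constructor
    · rintro ⟨hu, h, he⟩
      refine ⟨hu, (hjr _ _ x.2 h).2 ?_⟩
      exact (SimpleGraph.ConnectedComponent.eq.1 he).symm
    · rintro ⟨hu, h⟩
      have hu' := (hRmem u).1 hu
      refine ⟨hu, hu', ?_⟩
      exact SimpleGraph.ConnectedComponent.eq.2 ((hjr _ _ x.2 hu').1 h).symm
  have hinj : Function.Injective f := by
    intro C C' hCC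
    induction C using SimpleGraph.ConnectedComponent.ind with
    | h x =>
    have hx : (x : V) ∈ f (H.connectedComponentMk x) := by
      simp only [f]
      exact Finset.mem_filter.2 ⟨(hRmem _).2 x.2, x.2, rfl⟩
    rw [hCC] at hx
    simp only [f, Finset.mem_filter] at hx
    obtain ⟨_, _, h⟩ := hx
    exact h
  have : Finite H.ConnectedComponent := Finite.of_injective f hinj
  have : Fintype H.ConnectedComponent := Fintype.ofFinite _
  have himg : comps B R = Finset.univ.image f := by
    ext T
    simp only [comps, Finset.mem_image, Finset.mem_univ, true_and]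
    constructor
    · rintro ⟨v, hv, rfl⟩
      exact ⟨H.connectedComponentMk ⟨v, (hRmem v).1 hv⟩, hf ⟨v, (hRmem v).1 hv⟩⟩
    · rintro ⟨C, rfl⟩
      induction C using SimpleGraph.ConnectedComponent.ind with
      | h x => exact ⟨(x : V), (hRmem _).2 x.2, (hf x).symm⟩
  have hc : c (Finset.univ : Finset V) B S = (comps B R).card := by
    unfold c
    congr!
  rw [hc, himg, Finset.card_image_of_injective _ hinj, Finset.card_univ, Nat.card_eq_fintype_card]

end Pool.Agent.DK
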