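import Mathlib
import Pool.Agent.Lib_MP_6f255c_dk.Defs

/-!
# P3: the splitting identity for `chrom`
-/

set_option autoImplicit false

namespace Pool.Agent.DK

open Classical

variable {α : Type*}

private lemma sub_aux {W S : Finset α} {s : α} (hS : S ⊆ W) (hs : s ∈ S) :
    insert s (W \ S) ⊆ W := by
  intro x hx
  rcases Finset.mem_insert.1 hx with rfl | hx
  · exact hS hs
  · exact (Finset.mem_sdiff.1 hx).1

private lemma mem_restr {W W' : Finset α} (π : Finpartition W) (h : W' ≤ W) (T : Finset α) :
    T ∈ (π.restrict h).parts ↔ T ≠ ∅ ∧ ∃ U ∈ π.parts, U ∩ W' = T := by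
  simp [Finpartition.restrict]

/-- the only element of `S` in the contracted ground set is `s`. -/
private lemma eq_of_mem_both {W S : Finset α} {s x : α} (hx : x ∈ insert s (W \ S)) (hxS : x ∈ S) :
    x = s := by
  rcases Finset.mem_insert.1 hx with rfl | hx
  · rfl
  · exact absurd hxS (Finset.mem_sdiff.1 hx).2

/-- the expansion of a partition of the contracted ground set. -/
private noncomputable def back {W S : Finset α} {s : α} (hS : S ⊆ W) (hs : s ∈ S)
    (ρ : Finpartition (insert s (W \ S))) : Finpartition W :=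
  Finpartition.ofExistsUnique (ρ.parts.image (fun T => if s ∈ T then T ∪ S else T))
    (by
      intro p hp
      obtain ⟨T, hT, rfl⟩ := Finset.mem_image.1 hp
      have hTW : T ⊆ W := (ρ.subset hT).trans (sub_aux hS hs)
      split_ifs
      · exact Finset.union_subset hTW hS
      · exact hTW)
    (by
      intro a ha
      by_cases haS : a ∈ S
      · obtain ⟨T, hT, hsT⟩ := ρ.exists_mem (Finset.mem_insert_self s (W \ S))
        refine ⟨T ∪ S, ⟨Finset.mem_image.2 ⟨T, hT, by simp [hsT]⟩,
          Finset.mem_union_right _ haS⟩, ?_⟩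
        rintro U ⟨hU, haU⟩
        obtain ⟨T', hT', rfl⟩ := Finset.mem_image.1 hU
        by_cases hsT' : s ∈ T'
        · rw [if_pos hsT', ρ.eq_of_mem_parts hT' hT hsT' hsT]
        · rw [if_neg hsT'] at haU
          have := eq_of_mem_both (ρ.subset hT' haU) haS
          subst this
          exact absurd haU hsT'
      · have ha' : a ∈ insert s (W \ S) :=
          Finset.mem_insert_of_mem (Finset.mem_sdiff.2 ⟨ha, haS⟩)
        obtain ⟨T, hT, haT⟩ := ρ.exists_mem ha'
        refine ⟨if s ∈ T then T ∪ S else T, ⟨Finset.mem_image.2 ⟨T, hT, rfl⟩, ?_⟩, ?_⟩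
        · split_ifs
          · exact Finset.mem_union_left _ haT
          · exact haT
        · rintro U ⟨hU, haU⟩
          obtain ⟨T', hT', rfl⟩ := Finset.mem_image.1 hU
          have haT' : a ∈ T' := by
            split_ifs at haU
            · rcases Finset.mem_union.1 haU with h | h
              · exact h
              · exact absurd h haS
            · exact haU
          rw [ρ.eq_of_mem_parts hT' hT haT' haT])
    (by
      intro h0
      obtain ⟨T, hT, h⟩ := Finset.mem_image.1 h0
      split_ifs at h with hsT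
      · rw [Finset.union_eq_empty] at h
        exact ρ.ne_empty hT h.1
      · exact ρ.ne_empty hT h)

private lemma mem_back {W S : Finset α} {s : α} (hS : S ⊆ W) (hs : s ∈ S)
    (ρ : Finpartition (insert s (W \ S))) (U : Finset α) :
    U ∈ (back hS hs ρ).parts ↔ ∃ T ∈ ρ.parts, (if s ∈ T then T ∪ S else T) = U := by
  simp [back]

private lemma inter_other {W S T U : Finset α} {s : α} (π : Finpartition W)
    (hT : T ∈ π.parts) (hU : U ∈ π.parts) (hSU : S ⊆ U) (hne : T ≠ U) :
    T ∩ insert s (W \ S) = T := by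
  refine Finset.inter_eq_left.2 ?_
  intro x hx
  refine Finset.mem_insert_of_mem (Finset.mem_sdiff.2 ⟨π.subset hT hx, ?_⟩)
  intro hxS
  exact hne (π.eq_of_mem_parts hT hU hx (hSU hxS))

private lemma inter_this {W S U : Finset α} {s : α} (π : Finpartition W)
    (hU : U ∈ π.parts) (hSU : S ⊆ U) :
    (U ∩ insert s (W \ S)) ∪ S = U := by
  ext x
  simp only [Finset.mem_union, Finset.mem_inter, Finset.mem_insert, Finset.mem_sdiff]
  constructor
  · rintro (⟨h, -⟩ | h)
    · exact h
    · exact hSU h
  · intro h
    by_cases hx : x ∈ S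
    · exact Or.inr hx
    · exact Or.inl ⟨h, Or.inr ⟨π.subset hU h, hx⟩⟩

private lemma expand_inter {W S T : Finset α} {s : α} (hT : T ⊆ insert s (W \ S)) :
    (if s ∈ T then T ∪ S else T) ∩ insert s (W \ S) = T := by
  split_ifs with hsT
  · ext x
    simp only [Finset.mem_inter, Finset.mem_union]
    constructor
    · rintro ⟨h | h, h'⟩
      · exact h
      · rw [eq_of_mem_both h' h]; exact hsT
    · intro h
      exact ⟨Or.inl h, hT h⟩
  · exact Finset.inter_eq_left.2 hT

/-- STUB P3 (Step A / B identity): colourings in which `S` is not monochromatic + those in which it is. -/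
theorem chrom_split (W : Finset α) (B : Finset α → Prop) (S : Finset α) (s : α)
    (hS : S ⊆ W) (hs : s ∈ S) (q : ℝ) :
    chrom W B q = chrom W (addBad B S) q + chrom (insert s (W \ S)) (contrBad B S s) q := by
  have h1 : chrom W B q = chrom W (addBad B S) q +
      ∑ π : Finpartition W, if ((∀ T ∈ π.parts, ¬ B T) ∧ ∃ T ∈ π.parts, S ⊆ T) then
        ∏ i ∈ Finset.range π.parts.card, (q - (i : ℝ)) else 0 := by
    unfold chrom
    rw [← Finset.sum_add_distrib]
    refine Finset.sum_congr rfl fun π _ => ?_
    by_cases h : ∀ T ∈ π.parts, ¬ B T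
    · by_cases h2 : ∃ T ∈ π.parts, S ⊆ T
      · have h3 : ¬ ∀ T ∈ π.parts, ¬ addBad B S T := by
          intro h3
          obtain ⟨T, hT, hST⟩ := h2
          exact h3 T hT (Or.inr hST)
        rw [if_pos h, if_neg h3, if_pos ⟨h, h2⟩, zero_add]
      · have h3 : ∀ T ∈ π.parts, ¬ addBad B S T := by
          rintro T hT (hB | hST)
          · exact h T hT hB
          · exact h2 ⟨T, hT, hST⟩
        have h4 : ¬ ((∀ T ∈ π.parts, ¬ B T) ∧ ∃ T ∈ π.parts, S ⊆ T) := fun h4 => h2 h4.2
        rw [if_pos h, if_pos h3, if_neg h4, add_zero]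
    · have h3 : ¬ ∀ T ∈ π.parts, ¬ addBad B S T := by
        intro h3
        exact h fun T hT hB => h3 T hT (Or.inl hB)
      have h4 : ¬ ((∀ T ∈ π.parts, ¬ B T) ∧ ∃ T ∈ π.parts, S ⊆ T) := fun h4 => h h4.1
      rw [if_neg h, if_neg h3, if_neg h4, add_zero]
  rw [h1]
  congr 1
  unfold chrom
  rw [← Finset.sum_filter, ← Finset.sum_filter]
  refine Finset.sum_nbij' (fun π => π.restrict (sub_aux hS hs)) (fun ρ => back hS hs ρ)
    ?_ ?_ ?_ ?_ ?_
  · -- maps to
    intro π hπ
    obtain ⟨hB, U, hU, hSU⟩ := (Finset.mem_filter.1 hπ).2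
    refine Finset.mem_filter.2 ⟨Finset.mem_univ _, ?_⟩
    intro T hT
    obtain ⟨hT0, V, hV, rfl⟩ := (mem_restr π _ T).1 hT
    by_cases hVU : V = U
    · subst hVU
      have hsV : s ∈ V ∩ insert s (W \ S) :=
        Finset.mem_inter.2 ⟨hSU hs, Finset.mem_insert_self _ _⟩
      simp only [contrBad, if_pos hsV]
      rw [inter_this π hU hSU]
      exact hB V hV
    · rw [inter_other π hV hU hSU hVU]
      have hsV : s ∉ V := fun h => hVU (π.eq_of_mem_parts hV hU h (hSU hs))
      simp only [contrBad, if_neg hsV]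
      exact hB V hV
  · -- back maps to
    intro ρ hρ
    have hρ' := (Finset.mem_filter.1 hρ).2
    refine Finset.mem_filter.2 ⟨Finset.mem_univ _, ?_, ?_⟩
    · intro T hT
      obtain ⟨V, hV, rfl⟩ := (mem_back hS hs ρ T).1 hT
      have := hρ' V hV
      simp only [contrBad] at this
      split_ifs at this ⊢ with h
      · exact this
      · exact this
    · obtain ⟨V, hV, hsV⟩ := ρ.exists_mem (Finset.mem_insert_self s (W \ S))
      refine ⟨V ∪ S, (mem_back hS hs ρ _).2 ⟨V, hV, by simp [hsV]⟩, Finset.subset_union_right⟩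
  · -- left inverse
    intro π hπ
    obtain ⟨hB, U, hU, hSU⟩ := (Finset.mem_filter.1 hπ).2
    apply Finpartition.ext
    ext T
    rw [mem_back]
    constructor
    · rintro ⟨V, hV, rfl⟩
      obtain ⟨hV0, X, hX, rfl⟩ := (mem_restr π _ V).1 hV
      by_cases hXU : X = U
      · subst hXU
        have hsV : s ∈ X ∩ insert s (W \ S) :=
          Finset.mem_inter.2 ⟨hSU hs, Finset.mem_insert_self _ _⟩
        rw [if_pos hsV, inter_this π hU hSU]
        exact hX
      · rw [inter_other π hX hU hSU hXU]
        have hsX : s ∉ X := fun h => hXU (π.eq_of_mem_parts hX hU h (hSU hs))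
        rw [if_neg hsX]
        exact hX
    · intro hT
      refine ⟨T ∩ insert s (W \ S), ?_, ?_⟩
      · refine (mem_restr π _ _).2 ⟨?_, T, hT, rfl⟩
        by_cases hTU : T = U
        · subst hTU
          exact Finset.ne_empty_of_mem
            (Finset.mem_inter.2 ⟨hSU hs, Finset.mem_insert_self _ _⟩)
        · rw [inter_other π hT hU hSU hTU]
          exact π.ne_empty hT
      · by_cases hTU : T = U
        · subst hTU
          have hsV : s ∈ T ∩ insert s (W \ S) :=
            Finset.mem_inter.2 ⟨hSU hs, Finset.mem_insert_self _ _⟩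
          rw [if_pos hsV, inter_this π hU hSU]
        · rw [inter_other π hT hU hSU hTU]
          have hsT : s ∉ T := fun h => hTU (π.eq_of_mem_parts hT hU h (hSU hs))
          rw [if_neg hsT]
  · -- right inverse
    intro ρ hρ
    apply Finpartition.ext
    ext T
    rw [mem_restr]
    constructor
    · rintro ⟨hT0, V, hV, rfl⟩
      obtain ⟨X, hX, rfl⟩ := (mem_back hS hs ρ V).1 hV
      rw [expand_inter (ρ.subset hX)]
      exact hX
    · intro hT
      exact ⟨ρ.ne_empty hT, _, (mem_back hS hs ρ _).2 ⟨T, hT, rfl⟩,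
        expand_inter (ρ.subset hT)⟩
  · -- values
    intro π hπ
    obtain ⟨hB, U, hU, hSU⟩ := (Finset.mem_filter.1 hπ).2
    have hcard : (π.restrict (sub_aux hS hs)).parts.card = π.parts.card := by
      have hne : ∀ T ∈ π.parts, T ∩ insert s (W \ S) ≠ ∅ := by
        intro T hT
        by_cases hTU : T = U
        · subst hTU
          exact Finset.ne_empty_of_mem
            (Finset.mem_inter.2 ⟨hSU hs, Finset.mem_insert_self _ _⟩)
        · rw [inter_other π hT hU hSU hTU]
          exact π.ne_empty hT
      have himg : (π.restrict (sub_aux hS hs)).parts =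
          π.parts.image (fun T => T ∩ insert s (W \ S)) := by
        ext T
        rw [mem_restr, Finset.mem_image]
        constructor
        · rintro ⟨-, h⟩
          exact h
        · rintro ⟨V, hV, rfl⟩
          exact ⟨hne V hV, V, hV, rfl⟩
      rw [himg, Finset.card_image_of_injOn]
      intro T hT V hV hTV
      obtain ⟨x, hx⟩ := Finset.nonempty_iff_ne_empty.2 (hne T hT)
      have hx' : x ∈ V ∩ insert s (W \ S) := by
        have : T ∩ insert s (W \ S) = V ∩ insert s (W \ S) := hTV
        rw [← this]; exact hx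
      exact π.eq_of_mem_parts hT hV (Finset.mem_inter.1 hx).1 (Finset.mem_inter.1 hx').1
    rw [hcard]

end Pool.Agent.DK
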