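import Mathlib
import Pool.Agent.Lib_MP_6f255c_dk.Defs

/-! Piece G17: connected components of a state (characterisation as minimal closed sets). -/

set_option autoImplicit false

namespace Pool.Agent.DK

open Classical

variable {α : Type*}

theorem adj_symm {B : Finset α → Prop} {u v : α} (h : Adj B u v) : Adj B v u := by
  refine ⟨h.1.symm, ?_⟩
  rw [Finset.pair_comm]
  exact h.2

private theorem joined_symm {B : Finset α → Prop} {R : Finset α} {u v : α}
    (h : Joined B R u v) : Joined B R v u := by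
  unfold Joined at h ⊢
  induction h with
  | refl => exact Relation.ReflTransGen.refl
  | tail _ hstep ih =>
    exact Relation.ReflTransGen.head ⟨hstep.2.1, hstep.1, adj_symm hstep.2.2⟩ ih

private theorem joined_mem {B : Finset α → Prop} {R X : Finset α} (hX : ClosedIn B R X)
    {u v : α} (hu : u ∈ X) (h : Joined B R u v) : v ∈ X := by
  unfold Joined at h
  induction h with
  | refl => exact hu
  | tail _ hstep ih => exact hX.2 _ ih _ hstep.2.1 hstep.2.2

private theorem closed_class (B : Finset α → Prop) (R : Finset α) (v : α) :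
    ClosedIn B R (R.filter (fun u => Joined B R v u)) := by
  refine ⟨Finset.filter_subset _ _, ?_⟩
  intro u hu w hw huw
  rw [Finset.mem_filter] at hu ⊢
  exact ⟨hw, Relation.ReflTransGen.tail hu.2 ⟨hu.1, hw, huw⟩⟩

/-- STUB G1: characterisation of components (use this everywhere, never `Joined` directly). -/
theorem mem_comps_iff (B : Finset α → Prop) (R D : Finset α) :
    D ∈ comps B R ↔ D.Nonempty ∧ ClosedIn B R D ∧
      ∀ X ⊆ D, X.Nonempty → ClosedIn B R X → X = D := by
  constructor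
  · intro h
    obtain ⟨v, hv, rfl⟩ := Finset.mem_image.1 h
    refine ⟨⟨v, Finset.mem_filter.2 ⟨hv, Relation.ReflTransGen.refl⟩⟩, closed_class B R v, ?_⟩
    intro X hXD hXn hX
    refine Finset.Subset.antisymm hXD ?_
    intro y hy
    obtain ⟨x, hx⟩ := hXn
    have h1 := (Finset.mem_filter.1 (hXD hx)).2
    have h2 := (Finset.mem_filter.1 hy).2
    exact joined_mem hX hx (Relation.ReflTransGen.trans (joined_symm h1) h2)
  · rintro ⟨⟨v, hv⟩, hD, hmin⟩
    have hvR : v ∈ R := hD.1 hv
    refine Finset.mem_image.2 ⟨v, hvR, ?_⟩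
    refine hmin _ ?_ ⟨v, Finset.mem_filter.2 ⟨hvR, Relation.ReflTransGen.refl⟩⟩
      (closed_class B R v)
    intro u hu
    exact joined_mem hD hv (Finset.mem_filter.1 hu).2

private theorem closed_inter {B : Finset α → Prop} {R X Y : Finset α} (hX : ClosedIn B R X)
    (hY : ClosedIn B R Y) : ClosedIn B R (X ∩ Y) := by
  refine ⟨fun u hu => hX.1 (Finset.mem_inter.1 hu).1, ?_⟩
  intro u hu v hv huv
  rw [Finset.mem_inter] at hu ⊢
  exact ⟨hX.2 u hu.1 v hv huv, hY.2 u hu.2 v hv huv⟩

/-- STUB G2 -/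
theorem comps_disjoint (B : Finset α → Prop) (R : Finset α) {D D' : Finset α}
    (h : D ∈ comps B R) (h' : D' ∈ comps B R) (hne : D ≠ D') : Disjoint D D' := by
  obtain ⟨_, hc, hm⟩ := (mem_comps_iff B R D).1 h
  obtain ⟨_, hc', hm'⟩ := (mem_comps_iff B R D').1 h'
  by_contra hd
  have hn : (D ∩ D').Nonempty := by
    rwa [Finset.not_disjoint_iff_nonempty_inter] at hd
  have h1 := hm _ Finset.inter_subset_left hn (closed_inter hc hc')
  have h2 := hm' _ Finset.inter_subset_right hn (closed_inter hc hc')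
  exact hne (h1.symm.trans h2)

/-- STUB G3 -/
theorem exists_comp (B : Finset α → Prop) (R : Finset α) {v : α} (hv : v ∈ R) :
    ∃ D ∈ comps B R, v ∈ D :=
  ⟨R.filter (fun u => Joined B R v u), Finset.mem_image.2 ⟨v, hv, rfl⟩,
    Finset.mem_filter.2 ⟨hv, Relation.ReflTransGen.refl⟩⟩

/-- STUB G4: a closed set is the union of the components meeting it. -/
theorem comp_subset_of_closed (B : Finset α → Prop) (R X : Finset α) (hX : ClosedIn B R X)
    {D : Finset α} (hD : D ∈ comps B R) {v : α} (hv : v ∈ D) (hvX : v ∈ X) : D ⊆ X := by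
  obtain ⟨_, hc, hm⟩ := (mem_comps_iff B R D).1 hD
  have h1 := hm (D ∩ X) Finset.inter_subset_left ⟨v, Finset.mem_inter.2 ⟨hv, hvX⟩⟩
    (closed_inter hc hX)
  exact Finset.inter_eq_left.1 h1

/-- STUB G5: lower bound for the number of components. -/
theorem card_le_comps (B : Finset α → Prop) (R : Finset α) (P : Finset (Finset α))
    (hP : ∀ X ∈ P, X.Nonempty ∧ ClosedIn B R X)
    (hd : (P : Set (Finset α)).PairwiseDisjoint id) : P.card ≤ (comps B R).card := by
  have h : ∀ X ∈ P, ∃ D ∈ comps B R, D ⊆ X := by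
    intro X hX
    obtain ⟨⟨x, hx⟩, hc⟩ := hP X hX
    obtain ⟨D, hD, hxD⟩ := exists_comp B R (hc.1 hx)
    exact ⟨D, hD, comp_subset_of_closed B R X hc hD hxD hx⟩
  choose! f hf1 hf2 using h
  refine Finset.card_le_card_of_injOn f (fun X hX => hf1 X hX) ?_
  intro X hX Y hY hXY
  by_contra hne
  have hX' : X ∈ P := Finset.mem_coe.1 hX
  have hY' : Y ∈ P := Finset.mem_coe.1 hY
  have hdis : Disjoint X Y := hd hX hY hne
  obtain ⟨z, hz⟩ := ((mem_comps_iff B R _).1 (hf1 X hX')).1
  exact (Finset.disjoint_left.1 hdis) (hf2 X hX' hz) (hf2 Y hY' (hXY ▸ hz))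

/-- STUB G6: a component of a smaller set without neighbours in the rest is a component. -/
theorem mem_comps_of_subset (B : Finset α → Prop) (R R' D : Finset α) (hR : R' ⊆ R)
    (hD : D ∈ comps B R') (hn : ∀ u ∈ D, ∀ v ∈ R, Adj B u v → v ∈ R') : D ∈ comps B R := by
  obtain ⟨hne, hc, hm⟩ := (mem_comps_iff B R' D).1 hD
  refine (mem_comps_iff B R D).2 ⟨hne, ⟨hc.1.trans hR, ?_⟩, ?_⟩
  · intro u hu v hv huv
    exact hc.2 u hu v (hn u hu v hv huv) huv
  · intro X hXD hXn hX
    refine hm X hXD hXn ⟨hXD.trans hc.1, ?_⟩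
    intro u hu v hv huv
    exact hX.2 u hu v (hR hv) huv

/-- STUB G7: a component contained in a smaller set is a component of it. -/
theorem mem_comps_of_superset (B : Finset α → Prop) (R R' D : Finset α) (hR : R' ⊆ R)
    (hD : D ∈ comps B R) (hDR : D ⊆ R') : D ∈ comps B R' := by
  obtain ⟨hne, hc, hm⟩ := (mem_comps_iff B R D).1 hD
  refine (mem_comps_iff B R' D).2 ⟨hne, ⟨hDR, ?_⟩, ?_⟩
  · intro u hu v hv huv
    exact hc.2 u hu v (hR hv) huv
  · intro X hXD hXn hX
    refine hm X hXD hXn ⟨hXD.trans hc.1, ?_⟩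
    intro u hu v hv huv
    exact hX.2 u hu v (hDR (hc.2 u (hXD hu) v hv huv)) huv

end Pool.Agent.DK
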