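import Mathlib
import Pool.Agent.Lib_MP_6f255c_dk.Defs

/-!
# Dong–Koh (S09397), piece G9: components of `R \ T` through the components of `R`
-/

set_option autoImplicit false

namespace Pool.Agent.DK

open Classical

variable {α : Type*}

private theorem cs_joined_symm {B : Finset α → Prop} {R : Finset α} {u v : α}
    (h : Joined B R u v) : Joined B R v u := by
  unfold Joined at h ⊢
  induction h with
  | refl => exact Relation.ReflTransGen.refl
  | tail _ hbc ih =>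
    refine Relation.ReflTransGen.head ⟨hbc.2.1, hbc.1, hbc.2.2.1.symm, ?_⟩ ih
    rw [Finset.pair_comm]
    exact hbc.2.2.2

private theorem cs_joined_mem {B : Finset α → Prop} {R X : Finset α} (hX : ClosedIn B R X)
    {u v : α} (hu : u ∈ X) (h : Joined B R u v) : v ∈ X := by
  unfold Joined at h
  induction h with
  | refl => exact hu
  | tail _ hbc ih => exact hX.2 _ ih _ hbc.2.1 hbc.2.2

private theorem cs_closed (B : Finset α → Prop) (R : Finset α) (v : α) :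
    ClosedIn B R (R.filter (fun u => Joined B R v u)) := by
  refine ⟨Finset.filter_subset _ _, fun u hu w hw huw => ?_⟩
  obtain ⟨huR, hvu⟩ := Finset.mem_filter.1 hu
  exact Finset.mem_filter.2 ⟨hw, Relation.ReflTransGen.tail hvu ⟨huR, hw, huw⟩⟩

private theorem cs_mem_iff (B : Finset α → Prop) (R D : Finset α) :
    D ∈ comps B R ↔ D.Nonempty ∧ ClosedIn B R D ∧
      ∀ X ⊆ D, X.Nonempty → ClosedIn B R X → X = D := by
  unfold comps
  rw [Finset.mem_image]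
  constructor
  · rintro ⟨v, hv, rfl⟩
    refine ⟨⟨v, Finset.mem_filter.2 ⟨hv, Relation.ReflTransGen.refl⟩⟩, cs_closed B R v, ?_⟩
    rintro X hX ⟨x, hx⟩ hXcl
    refine Finset.Subset.antisymm hX (fun y hy => ?_)
    have hvx := (Finset.mem_filter.1 (hX hx)).2
    have hvy := (Finset.mem_filter.1 hy).2
    exact cs_joined_mem hXcl (cs_joined_mem hXcl hx (cs_joined_symm hvx)) hvy
  · rintro ⟨⟨v, hv⟩, hcl, hmin⟩
    refine ⟨v, hcl.1 hv, ?_⟩
    refine hmin _ (fun u hu => cs_joined_mem hcl hv (Finset.mem_filter.1 hu).2)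
      ⟨v, Finset.mem_filter.2 ⟨hcl.1 hv, Relation.ReflTransGen.refl⟩⟩ (cs_closed B R v)

private theorem cs_disjoint (B : Finset α → Prop) (R : Finset α) {D D' : Finset α}
    (h : D ∈ comps B R) (h' : D' ∈ comps B R) (hne : D ≠ D') : Disjoint D D' := by
  obtain ⟨_, hcl, hmin⟩ := (cs_mem_iff B R D).1 h
  obtain ⟨_, hcl', hmin'⟩ := (cs_mem_iff B R D').1 h'
  by_contra hnd
  have hne' : (D ∩ D').Nonempty := by
    rw [Finset.not_disjoint_iff] at hnd
    obtain ⟨a, ha, ha'⟩ := hnd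
    exact ⟨a, Finset.mem_inter.2 ⟨ha, ha'⟩⟩
  have hci : ClosedIn B R (D ∩ D') := by
    refine ⟨fun u hu => hcl.1 (Finset.mem_inter.1 hu).1, fun u hu w hw huw => ?_⟩
    exact Finset.mem_inter.2 ⟨hcl.2 u (Finset.mem_inter.1 hu).1 w hw huw,
      hcl'.2 u (Finset.mem_inter.1 hu).2 w hw huw⟩
  apply hne
  rw [← hmin _ Finset.inter_subset_left hne' hci]
  exact hmin' _ Finset.inter_subset_right hne' hci

private theorem cs_exists (B : Finset α → Prop) (R : Finset α) {v : α} (hv : v ∈ R) :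
    ∃ D ∈ comps B R, v ∈ D :=
  ⟨_, Finset.mem_image.2 ⟨v, hv, rfl⟩, Finset.mem_filter.2 ⟨hv, Relation.ReflTransGen.refl⟩⟩

/-- G9: components of `R \ T` = union over the components `D` of `R` of those of `D \ T`. -/
theorem comps_sdiff_biUnion (B : Finset α → Prop) (R T : Finset α) :
    comps B (R \ T) = (comps B R).biUnion (fun D => comps B (D \ T)) := by
  ext X
  rw [Finset.mem_biUnion]
  constructor
  · intro hX
    obtain ⟨hXne, ⟨hXsub, hXcl⟩, hXmin⟩ := (cs_mem_iff B (R \ T) X).1 hX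
    obtain ⟨v, hv⟩ := hXne
    have hvR : v ∈ R := (Finset.mem_sdiff.1 (hXsub hv)).1
    obtain ⟨D, hD, hvD⟩ := cs_exists B R hvR
    obtain ⟨_, ⟨hDsub, hDcl⟩, _⟩ := (cs_mem_iff B R D).1 hD
    have hXD : X ⊆ D := by
      have h1 : X ∩ D = X := by
        refine hXmin (X ∩ D) Finset.inter_subset_left ⟨v, Finset.mem_inter.2 ⟨hv, hvD⟩⟩ ?_
        refine ⟨fun u hu => hXsub (Finset.mem_inter.1 hu).1, fun u hu w hw huw => ?_⟩
        obtain ⟨huX, huD⟩ := Finset.mem_inter.1 hu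
        exact Finset.mem_inter.2
          ⟨hXcl u huX w hw huw, hDcl u huD w (Finset.mem_sdiff.1 hw).1 huw⟩
      intro u hu
      rw [← h1] at hu
      exact (Finset.mem_inter.1 hu).2
    refine ⟨D, hD, (cs_mem_iff B (D \ T) X).2 ⟨⟨v, hv⟩, ⟨fun u hu => ?_, fun u hu w hw huw => ?_⟩,
      fun Y hY hYne hYcl => ?_⟩⟩
    · exact Finset.mem_sdiff.2 ⟨hXD hu, (Finset.mem_sdiff.1 (hXsub hu)).2⟩
    · obtain ⟨hwD, hwT⟩ := Finset.mem_sdiff.1 hw
      exact hXcl u hu w (Finset.mem_sdiff.2 ⟨hDsub hwD, hwT⟩) huw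
    · refine hXmin Y hY hYne ⟨fun u hu => hXsub (hY hu), fun u hu w hw huw => ?_⟩
      obtain ⟨hwR, hwT⟩ := Finset.mem_sdiff.1 hw
      exact hYcl.2 u hu w (Finset.mem_sdiff.2 ⟨hDcl u (hXD (hY hu)) w hwR huw, hwT⟩) huw
  · rintro ⟨D, hD, hX⟩
    obtain ⟨_, ⟨hDsub, hDcl⟩, _⟩ := (cs_mem_iff B R D).1 hD
    obtain ⟨hXne, ⟨hXsub, hXcl⟩, hXmin⟩ := (cs_mem_iff B (D \ T) X).1 hX
    refine (cs_mem_iff B (R \ T) X).2 ⟨hXne, ⟨fun u hu => ?_, fun u hu w hw huw => ?_⟩,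
      fun Y hY hYne hYcl => ?_⟩
    · obtain ⟨huD, huT⟩ := Finset.mem_sdiff.1 (hXsub hu)
      exact Finset.mem_sdiff.2 ⟨hDsub huD, huT⟩
    · obtain ⟨hwR, hwT⟩ := Finset.mem_sdiff.1 hw
      have huD : u ∈ D := (Finset.mem_sdiff.1 (hXsub hu)).1
      exact hXcl u hu w (Finset.mem_sdiff.2 ⟨hDcl u huD w hwR huw, hwT⟩) huw
    · refine hXmin Y hY hYne ⟨fun u hu => hXsub (hY hu), fun u hu w hw huw => ?_⟩
      obtain ⟨hwD, hwT⟩ := Finset.mem_sdiff.1 hw
      exact hYcl.2 u hu w (Finset.mem_sdiff.2 ⟨hDsub hwD, hwT⟩) huw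

theorem card_comps_sdiff (B : Finset α → Prop) (R T : Finset α) :
    (comps B (R \ T)).card = ∑ D ∈ comps B R, (comps B (D \ T)).card := by
  rw [comps_sdiff_biUnion B R T]
  apply Finset.card_biUnion
  intro D hD D' hD' hne
  rw [Function.onFun, Finset.disjoint_left]
  intro X hX hX'
  obtain ⟨⟨v, hv⟩, ⟨hsub, _⟩, _⟩ := (cs_mem_iff B (D \ T) X).1 hX
  obtain ⟨_, ⟨hsub', _⟩, _⟩ := (cs_mem_iff B (D' \ T) X).1 hX'
  have hvD : v ∈ D := (Finset.mem_sdiff.1 (hsub hv)).1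
  have hvD' : v ∈ D' := (Finset.mem_sdiff.1 (hsub' hv)).1
  exact (Finset.disjoint_left.1 (cs_disjoint B R hD hD' hne)) hvD hvD'

end Pool.Agent.DK
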