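import Mathlib
import Pool.Agent.Lib_MP_6f255c_dk.Defs
import Pool.Agent.Lib_MP_6f255c_dk.Comps

/-! Piece G10: the crossing lemma. -/

set_option autoImplicit false

namespace Pool.Agent.DK

open Classical

variable {α : Type*}

/-- connectivity: a nonempty proper vertex set has a neighbour outside. -/
private theorem cr_exists_adj {W : Finset α} {B : Finset α → Prop}
    (hW0 : (comps B W).card ≤ 1) {X : Finset α} (hX : X ⊆ W) (hne : X.Nonempty)
    {w : α} (hw : w ∈ W) (hwX : w ∉ X) : ∃ x ∈ X, ∃ u ∈ W, u ∉ X ∧ Adj B x u := by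
  by_contra hcon
  push Not at hcon
  have hcl : ClosedIn B W X := ⟨hX, fun u hu v hv huv => by
    by_contra hvX
    exact hcon u hu v hv hvX huv⟩
  have hcl' : ClosedIn B W (W \ X) := ⟨Finset.sdiff_subset, fun u hu v hv huv => by
    rw [Finset.mem_sdiff] at hu ⊢
    refine ⟨hv, fun hvX => ?_⟩
    exact hcon v hvX u hu.1 hu.2 (adj_symm huv)⟩
  have hne' : (W \ X).Nonempty := ⟨w, Finset.mem_sdiff.mpr ⟨hw, hwX⟩⟩
  have hneq : X ≠ W \ X := by
    intro h
    obtain ⟨x, hx⟩ := hne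
    have hx2 : x ∈ W \ X := h ▸ hx
    exact (Finset.mem_sdiff.mp hx2).2 hx
  have h2 := card_le_comps B W ({X, W \ X} : Finset (Finset α)) (by
    intro Y hY
    rw [Finset.mem_insert, Finset.mem_singleton] at hY
    rcases hY with rfl | rfl
    · exact ⟨hne, hcl⟩
    · exact ⟨hne', hcl'⟩) (by
    intro Y hY Z hZ hYZ
    simp only [Finset.coe_insert, Finset.coe_singleton, Set.mem_insert_iff,
      Set.mem_singleton_iff] at hY hZ
    rcases hY with rfl | rfl <;> rcases hZ with rfl | rfl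
    · exact absurd rfl hYZ
    · exact Finset.disjoint_sdiff
    · exact Finset.sdiff_disjoint
    · exact absurd rfl hYZ)
  rw [Finset.card_pair hneq] at h2
  omega

/-- the components of `W \ K` disjoint from `K'`, attached to the nodes of `K`. -/
private theorem cr_attached (W : Finset α) (B : Finset α → Prop) (K K' : Finset α)
    (hW0 : (comps B W).card ≤ 1)
    (hK : K ⊆ W) (hd : Disjoint K K') (hne : K.Nonempty) :
    (comps B (W \ K)).filter (fun X => ¬ (K' ∩ X).Nonempty) =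
      ((comps B (W \ K')).filter (fun D => (K ∩ D).Nonempty)).biUnion
        (fun D => (comps B (W \ (K ∩ D))).filter (fun X => Disjoint X (K ∪ K'))) := by
  ext X
  simp only [Finset.mem_filter, Finset.mem_biUnion]
  constructor
  · rintro ⟨hX, hXK'⟩
    have hX' := (mem_comps_iff B (W \ K) X).mp hX
    have hXW : X ⊆ W := hX'.2.1.1.trans Finset.sdiff_subset
    have hXK : Disjoint X K := by
      rw [Finset.disjoint_left]
      intro x hx hxK
      exact (Finset.mem_sdiff.mp (hX'.2.1.1 hx)).2 hxK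
    have hXK'2 : Disjoint X K' := by
      rw [Finset.disjoint_left]
      intro x hx hxK
      exact hXK' ⟨x, Finset.mem_inter.mpr ⟨hxK, hx⟩⟩
    obtain ⟨w, hw⟩ := hne
    have hwX : w ∉ X := fun h => Finset.disjoint_left.mp hXK h hw
    obtain ⟨x, hx, u, hu, huX, hxu⟩ := cr_exists_adj hW0 hXW hX'.1 (hK hw) hwX
    have huK : u ∈ K := by
      by_contra huK
      exact huX (hX'.2.1.2 x hx u (Finset.mem_sdiff.mpr ⟨hu, huK⟩) hxu)
    have huK' : u ∉ K' := Finset.disjoint_left.mp hd huK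
    obtain ⟨D, hD, huD⟩ := exists_comp B (W \ K') (Finset.mem_sdiff.mpr ⟨hu, huK'⟩)
    have hD' := (mem_comps_iff B (W \ K') D).mp hD
    have hxW' : ∀ y ∈ X, y ∈ W \ K' := fun y hy =>
      Finset.mem_sdiff.mpr ⟨hXW hy, Finset.disjoint_left.mp hXK'2 hy⟩
    have hxD : x ∈ D := hD'.2.1.2 u huD x (hxW' x hx) (adj_symm hxu)
    -- `X ⊆ D`
    have hXD : X ⊆ D := by
      have hYeq : X ∩ D = X := hX'.2.2 (X ∩ D) Finset.inter_subset_left
        ⟨x, Finset.mem_inter.mpr ⟨hx, hxD⟩⟩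
        ⟨Finset.inter_subset_left.trans hX'.2.1.1, fun y hy v hv hyv => by
          rw [Finset.mem_inter] at hy ⊢
          have hvX : v ∈ X := hX'.2.1.2 y hy.1 v hv hyv
          exact ⟨hvX, hD'.2.1.2 y hy.2 v (hxW' v hvX) hyv⟩⟩
      intro y hy
      rw [← hYeq] at hy
      exact (Finset.mem_inter.mp hy).2
    refine ⟨D, ⟨hD, ⟨u, Finset.mem_inter.mpr ⟨huK, huD⟩⟩⟩, ?_, ?_⟩
    · refine mem_comps_of_subset B (W \ (K ∩ D)) (W \ K) X
        (Finset.sdiff_subset_sdiff (Finset.Subset.refl W) Finset.inter_subset_left) hX ?_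
      intro y hy v hv hyv
      rw [Finset.mem_sdiff] at hv ⊢
      refine ⟨hv.1, fun hvK => hv.2 (Finset.mem_inter.mpr ⟨hvK, ?_⟩)⟩
      exact hD'.2.1.2 y (hXD hy) v
        (Finset.mem_sdiff.mpr ⟨hv.1, Finset.disjoint_left.mp hd hvK⟩) hyv
    · rw [Finset.disjoint_union_right]
      exact ⟨hXK, hXK'2⟩
  · rintro ⟨D, ⟨hD, hKD⟩, hX, hXd⟩
    rw [Finset.disjoint_union_right] at hXd
    have hX' := (mem_comps_iff B (W \ (K ∩ D)) X).mp hX
    have hXW : X ⊆ W \ K := by
      intro x hx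
      exact Finset.mem_sdiff.mpr ⟨(Finset.mem_sdiff.mp (hX'.2.1.1 hx)).1,
        Finset.disjoint_left.mp hXd.1 hx⟩
    refine ⟨mem_comps_of_superset B (W \ (K ∩ D)) (W \ K) X
      (Finset.sdiff_subset_sdiff (Finset.Subset.refl W) Finset.inter_subset_left) hX hXW, ?_⟩
    rintro ⟨x, hx⟩
    rw [Finset.mem_inter] at hx
    exact Finset.disjoint_left.mp hXd.2 hx.2 hx.1

private theorem cr_count (W : Finset α) (B : Finset α → Prop) (K K' : Finset α)
    (hW0 : (comps B W).card ≤ 1)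
    (hK : K ⊆ W) (hd : Disjoint K K') (hne : K.Nonempty) :
    c W B K = ((comps B (W \ K)).filter (fun D => (K' ∩ D).Nonempty)).card +
      ∑ D ∈ (comps B (W \ K')).filter (fun D => (K ∩ D).Nonempty),
        ((comps B (W \ (K ∩ D))).filter (fun X => Disjoint X (K ∪ K'))).card := by
  have h1 : c W B K = ((comps B (W \ K)).filter (fun D => (K' ∩ D).Nonempty)).card +
      ((comps B (W \ K)).filter (fun D => ¬ (K' ∩ D).Nonempty)).card := by
    unfold c
    rw [Finset.card_filter_add_card_filter_not]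
  rw [h1, cr_attached W B K K' hW0 hK hd hne, Finset.card_biUnion]
  intro D hD D' hD' hDD'
  rw [Finset.mem_coe, Finset.mem_filter] at hD hD'
  show Disjoint ((comps B (W \ (K ∩ D))).filter (fun X => Disjoint X (K ∪ K')))
    ((comps B (W \ (K ∩ D'))).filter (fun X => Disjoint X (K ∪ K')))
  rw [Finset.disjoint_left]
  intro X hX hX2
  rw [Finset.mem_filter] at hX hX2
  have hXc := (mem_comps_iff B (W \ (K ∩ D)) X).mp hX.1
  have hXc2 := (mem_comps_iff B (W \ (K ∩ D')) X).mp hX2.1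
  obtain ⟨w, hw⟩ := hne
  have hXd := hX.2
  rw [Finset.disjoint_union_right] at hXd
  have hwX : w ∉ X := fun h => Finset.disjoint_left.mp hXd.1 h hw
  obtain ⟨x, hx, u, hu, huX, hxu⟩ := cr_exists_adj hW0
    (hXc.2.1.1.trans Finset.sdiff_subset) hXc.1 (hK hw) hwX
  have huD : u ∈ K ∩ D := by
    by_contra hcon
    exact huX (hXc.2.1.2 x hx u (Finset.mem_sdiff.mpr ⟨hu, hcon⟩) hxu)
  have huD' : u ∈ K ∩ D' := by
    by_contra hcon
    exact huX (hXc2.2.1.2 x hx u (Finset.mem_sdiff.mpr ⟨hu, hcon⟩) hxu)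
  exact Finset.disjoint_left.mp (comps_disjoint B (W \ K') hD.1 hD'.1 hDD')
    (Finset.mem_inter.mp huD).2 (Finset.mem_inter.mp huD').2

private theorem cr_sum_card (W : Finset α) (B : Finset α → Prop) (K K' : Finset α)
    (hK : K ⊆ W) (hd : Disjoint K K') :
    ∑ D ∈ (comps B (W \ K')).filter (fun D => (K ∩ D).Nonempty), (K ∩ D).card = K.card := by
  rw [← Finset.card_biUnion]
  · congr 1
    ext x
    simp only [Finset.mem_biUnion, Finset.mem_filter, Finset.mem_inter]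
    constructor
    · rintro ⟨D, _, hx, _⟩
      exact hx
    · intro hx
      obtain ⟨D, hD, hxD⟩ := exists_comp B (W \ K')
        (Finset.mem_sdiff.mpr ⟨hK hx, Finset.disjoint_left.mp hd hx⟩)
      exact ⟨D, ⟨hD, ⟨x, Finset.mem_inter.mpr ⟨hx, hxD⟩⟩⟩, hx, hxD⟩
  · intro D hD D' hD' hDD'
    rw [Finset.mem_coe, Finset.mem_filter] at hD hD'
    have := comps_disjoint B (W \ K') hD.1 hD'.1 hDD'
    exact Finset.disjoint_of_subset_left Finset.inter_subset_right
      (Finset.disjoint_of_subset_right Finset.inter_subset_right this)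

private theorem cr_lt (W : Finset α) (B : Finset α → Prop) (S Z : Finset α) {v : α}
    (hv : v ∈ W) (hvS : v ∉ S) (hvZ : v ∈ Z) :
    ((comps B (W \ S)).filter (fun X => Disjoint X Z)).card + 1 ≤ c W B S := by
  obtain ⟨Y, hY, hvY⟩ := exists_comp B (W \ S) (Finset.mem_sdiff.mpr ⟨hv, hvS⟩)
  unfold c
  refine Finset.card_lt_card ?_
  rw [Finset.filter_ssubset]
  exact ⟨Y, hY, fun h => Finset.disjoint_left.mp h hvY hvZ⟩

/-- one side of the crossing lemma: if `K` has at least two nodes then the number of nodes of `K`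
is at most the number of nodes of `K'`, with the termwise inequalities. -/
private theorem cr_side (W : Finset α) (B : Finset α → Prop) (K K' : Finset α)
    (hW0 : (comps B W).card ≤ 1)
    (hK : K ⊆ W) (hd : Disjoint K K')
    (hKs : ∀ S, S ⊂ K → S.Nonempty → c W B S ≤ S.card)
    (h2 : 2 ≤ ((comps B (W \ K')).filter (fun D => (K ∩ D).Nonempty)).card) :
    K.Nonempty ∧
    c W B K = ((comps B (W \ K)).filter (fun D => (K' ∩ D).Nonempty)).card +
      ∑ D ∈ (comps B (W \ K')).filter (fun D => (K ∩ D).Nonempty),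
        ((comps B (W \ (K ∩ D))).filter (fun X => Disjoint X (K ∪ K'))).card ∧
    ∑ D ∈ (comps B (W \ K')).filter (fun D => (K ∩ D).Nonempty), (K ∩ D).card = K.card ∧
    ∀ D ∈ (comps B (W \ K')).filter (fun D => (K ∩ D).Nonempty),
      c W B (K ∩ D) ≤ (K ∩ D).card ∧
      ((comps B (W \ (K ∩ D))).filter (fun X => Disjoint X (K ∪ K'))).card + 1
        ≤ c W B (K ∩ D) := by
  have hpos : 0 < ((comps B (W \ K')).filter (fun D => (K ∩ D).Nonempty)).card := by omega
  obtain ⟨D0, hD0⟩ := Finset.card_pos.mp hpos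
  have hne : K.Nonempty := by
    rw [Finset.mem_filter] at hD0
    obtain ⟨x, hx⟩ := hD0.2
    exact ⟨x, (Finset.mem_inter.mp hx).1⟩
  refine ⟨hne, cr_count W B K K' hW0 hK hd hne, cr_sum_card W B K K' hK hd, ?_⟩
  intro D hD
  have h1lt : 1 < ((comps B (W \ K')).filter (fun D => (K ∩ D).Nonempty)).card := by omega
  obtain ⟨D', hD', hDD'⟩ := Finset.exists_mem_ne h1lt D
  rw [Finset.mem_filter] at hD hD'
  obtain ⟨w, hw⟩ := hD'.2
  rw [Finset.mem_inter] at hw
  have hwD : w ∉ D := fun h =>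
    Finset.disjoint_left.mp (comps_disjoint B (W \ K') hD'.1 hD.1 hDD') hw.2 h
  have hwKD : w ∉ K ∩ D := fun h => hwD (Finset.mem_inter.mp h).2
  constructor
  · refine hKs (K ∩ D) ?_ hD.2
    rw [Finset.ssubset_iff_of_subset Finset.inter_subset_left]
    exact ⟨w, hw.1, hwKD⟩
  · exact cr_lt W B (K ∩ D) (K ∪ K') (hK hw.1) hwKD (Finset.mem_union_left _ hw.1)

/-- STUB G10: THE CROSSING LEMMA.  `K`, `K'` disjoint, `d ≤ 0`, all nonempty proper subsets
have `d ≥ 0`, and `K` meets two components of `W - K'`. -/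
theorem crossing (W : Finset α) (B : Finset α → Prop) (K K' : Finset α)
    (hW0 : (comps B W).card ≤ 1) (hW : ∀ v ∈ W, (comps B (W \ {v})).card ≤ 1)
    (hK : K ⊆ W) (hK' : K' ⊆ W) (hd : Disjoint K K')
    (hKd : K.card ≤ c W B K) (hK'd : K'.card ≤ c W B K')
    (hKs : ∀ S, S ⊂ K → S.Nonempty → c W B S ≤ S.card)
    (hK's : ∀ S, S ⊂ K' → S.Nonempty → c W B S ≤ S.card)
    (D₁ D₂ : Finset α) (h₁ : D₁ ∈ comps B (W \ K')) (h₂ : D₂ ∈ comps B (W \ K')) (h₁₂ : D₁ ≠ D₂)
    (hm₁ : (K ∩ D₁).Nonempty) (hm₂ : (K ∩ D₂).Nonempty) :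
    c W B K = K.card ∧ c W B K' = K'.card ∧
    ((comps B (W \ K')).filter (fun D => (K ∩ D).Nonempty)).card =
      ((comps B (W \ K)).filter (fun D => (K' ∩ D).Nonempty)).card ∧
    2 ≤ ((comps B (W \ K)).filter (fun D => (K' ∩ D).Nonempty)).card ∧
    (∀ D ∈ comps B (W \ K'), (K ∩ D).Nonempty → c W B (K ∩ D) = (K ∩ D).card ∧
      ((comps B (W \ (K ∩ D))).filter (fun X => Disjoint X (K ∪ K'))).card + 1 = (K ∩ D).card) ∧
    (∀ D ∈ comps B (W \ K), (K' ∩ D).Nonempty → c W B (K' ∩ D) = (K' ∩ D).card ∧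
      ((comps B (W \ (K' ∩ D))).filter (fun X => Disjoint X (K ∪ K'))).card + 1 =
        (K' ∩ D).card) := by
  have hp2 : 2 ≤ ((comps B (W \ K')).filter (fun D => (K ∩ D).Nonempty)).card := by
    have : 1 < ((comps B (W \ K')).filter (fun D => (K ∩ D).Nonempty)).card :=
      Finset.one_lt_card.mpr ⟨D₁, Finset.mem_filter.mpr ⟨h₁, hm₁⟩, D₂,
        Finset.mem_filter.mpr ⟨h₂, hm₂⟩, h₁₂⟩
    omega
  obtain ⟨_, hcK, hsK, htK⟩ := cr_side W B K K' hW0 hK hd hKs hp2
  set N := (comps B (W \ K')).filter (fun D => (K ∩ D).Nonempty) with hN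
  set M := (comps B (W \ K)).filter (fun D => (K' ∩ D).Nonempty) with hM
  have hle1 : ∑ D ∈ N, (((comps B (W \ (K ∩ D))).filter
      (fun X => Disjoint X (K ∪ K'))).card + 1) ≤ ∑ D ∈ N, (K ∩ D).card :=
    Finset.sum_le_sum (fun D hD => (htK D hD).2.trans (htK D hD).1)
  have hexp1 : ∑ D ∈ N, (((comps B (W \ (K ∩ D))).filter
      (fun X => Disjoint X (K ∪ K'))).card + 1) =
      ∑ D ∈ N, ((comps B (W \ (K ∩ D))).filter (fun X => Disjoint X (K ∪ K'))).card + N.card := by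
    rw [Finset.sum_add_distrib, Finset.sum_const, smul_eq_mul, mul_one]
  have hM2 : 2 ≤ M.card := by omega
  obtain ⟨_, hcK', hsK', htK'⟩ := cr_side W B K' K hW0 hK' hd.symm hK's hM2
  rw [← hN, ← hM, Finset.union_comm K' K] at hcK'
  rw [← hM] at hsK'
  rw [← hM, Finset.union_comm K' K] at htK'
  have hle2 : ∑ D ∈ M, (((comps B (W \ (K' ∩ D))).filter
      (fun X => Disjoint X (K ∪ K'))).card + 1) ≤ ∑ D ∈ M, (K' ∩ D).card :=
    Finset.sum_le_sum (fun D hD => (htK' D hD).2.trans (htK' D hD).1)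
  have hexp2 : ∑ D ∈ M, (((comps B (W \ (K' ∩ D))).filter
      (fun X => Disjoint X (K ∪ K'))).card + 1) =
      ∑ D ∈ M, ((comps B (W \ (K' ∩ D))).filter (fun X => Disjoint X (K ∪ K'))).card + M.card := by
    rw [Finset.sum_add_distrib, Finset.sum_const, smul_eq_mul, mul_one]
  have heq1 : ∑ D ∈ N, (((comps B (W \ (K ∩ D))).filter
      (fun X => Disjoint X (K ∪ K'))).card + 1) = ∑ D ∈ N, (K ∩ D).card := by omega
  have heq2 : ∑ D ∈ M, (((comps B (W \ (K' ∩ D))).filter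
      (fun X => Disjoint X (K ∪ K'))).card + 1) = ∑ D ∈ M, (K' ∩ D).card := by omega
  have hall1 := (Finset.sum_eq_sum_iff_of_le
    (fun D hD => (htK D hD).2.trans (htK D hD).1)).mp heq1
  have hall2 := (Finset.sum_eq_sum_iff_of_le
    (fun D hD => (htK' D hD).2.trans (htK' D hD).1)).mp heq2
  refine ⟨by omega, by omega, by omega, hM2, ?_, ?_⟩
  · intro D hD hKD
    have hDN : D ∈ N := Finset.mem_filter.mpr ⟨hD, hKD⟩
    have h1 := htK D hDN
    have h2 := hall1 D hDN
    refine ⟨by omega, h2⟩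
  · intro D hD hKD
    have hDM : D ∈ M := Finset.mem_filter.mpr ⟨hD, hKD⟩
    have h1 := htK' D hDM
    have h2 := hall2 D hDM
    refine ⟨by omega, h2⟩

end Pool.Agent.DK
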