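import Mathlib
import Pool.Agent.Lib_MP_6f255c_dk.Defs
import Pool.Agent.Lib_MP_6f255c_dk.Comps

/-!
# The class V

`W` is the ground set, `G : Finset α → Prop` a family of which only the pairs are used: the graph is
`Adj G`.  `B` is the family of bad sets.  Every edge of the graph is a bad pair, but there may
be bad pairs which are not edges (they are then minimal bad sets of size 2).
In a canonical state the graph is `Adj B`, i.e. `G = B`.

`ClV W G B` is class V of the paper proof:
* `v1` : `c(W - F) ≥ |F|` for every minimal bad set `F` which is not an edge;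
* `v2` : `c(W - S) ≤ |S|` for every nonempty set `S` which is not bad;
* `v3` : disjoint minimal bad non-edges do not cross.
-/

set_option autoImplicit false

namespace Pool.Agent.DK

open Classical

variable {α : Type*}

/-- `F` is a minimal bad set. -/
def MinBad (W : Finset α) (B : Finset α → Prop) (F : Finset α) : Prop :=
  F ⊆ W ∧ B F ∧ ∀ T : Finset α, T ⊂ F → ¬ B T

/-- `F` is an edge of the graph `Adj G`. -/
def IsEdge (G : Finset α → Prop) (F : Finset α) : Prop := ∃ u v, Adj G u v ∧ F = {u, v}

/-- `F` is a minimal bad set and not an edge. -/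
def MB (W : Finset α) (G B : Finset α → Prop) (F : Finset α) : Prop :=
  MinBad W B F ∧ ¬ IsEdge G F

/-- `K'` lies in one component of the complement of `K` (`K` does not separate `K'`). -/
def NC (W : Finset α) (G : Finset α → Prop) (K K' : Finset α) : Prop :=
  ∃ D ∈ comps G (W \ K), K' ⊆ D

/-- Class V. -/
structure ClV (W : Finset α) (G B : Finset α → Prop) : Prop where
  up : ∀ T T' : Finset α, T ⊆ T' → B T → B T'
  one : ∀ v, ¬ B {v}
  edge : ∀ u ∈ W, ∀ v ∈ W, Adj G u v → B {u, v}
  two : 2 ≤ W.card
  conn : (comps G W).card ≤ 1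
  v1 : ∀ F, MB W G B F → F.card ≤ c W G F
  v2 : ∀ S : Finset α, S ⊆ W → S.Nonempty → ¬ B S → c W G S ≤ S.card
  v3 : ∀ F F' : Finset α, MB W G B F → MB W G B F' → Disjoint F F' → NC W G F F'

/-- (Untruncated) tight sets. -/
def Tight (W : Finset α) (G B : Finset α → Prop) (S : Finset α) : Prop :=
  S ⊆ W ∧ 2 ≤ S.card ∧ ¬ B S ∧ S.card ≤ c W G S

/-- Hyper-tight sets: tight, and no minimal bad non-edge disjoint from `S` is separated by `S`. -/
def HT (W : Finset α) (G B : Finset α → Prop) (S : Finset α) : Prop :=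
  Tight W G B S ∧ ∀ F, MB W G B F → Disjoint F S → NC W G S F

/-- Critical sets: `d ≤ 0` and `d ≥ 0` for all nonempty proper subsets; both the minimal bad
non-edges and the tight sets of a state in class V are critical. -/
def Crit (W : Finset α) (G : Finset α → Prop) (K : Finset α) : Prop :=
  K ⊆ W ∧ K.Nonempty ∧ K.card ≤ c W G K ∧
    ∀ S : Finset α, S ⊂ K → S.Nonempty → c W G S ≤ S.card

/-- the family generated by the edges of `Adj G` (its pairs are exactly the edges). -/
def gr (G : Finset α → Prop) : Finset α → Prop := fun T => ∃ u ∈ T, ∃ v ∈ T, Adj G u v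

/-- deletion of the edge `x y` from the graph family. -/
def delG (G : Finset α → Prop) (x y : α) : Finset α → Prop :=
  fun T => ∃ u ∈ T, ∃ v ∈ T, Adj G u v ∧ ({u, v} : Finset α) ≠ {x, y}

/-- bad sets of the deletion child of the edge `x y`: a set not containing both `x` and `y` is bad iff it
was bad; a set `T` containing both is bad iff `T - x` or `T - y` was bad or `T` contains a set
`S ∋ x, y` which leaves at least `|S|` components. -/
def delBad (W : Finset α) (B : Finset α → Prop) (x y : α) : Finset α → Prop :=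
  fun T => (¬ (x ∈ T ∧ y ∈ T) ∧ B T) ∨
    (x ∈ T ∧ y ∈ T ∧ (B (T.erase x) ∨ B (T.erase y) ∨
      ∃ S : Finset α, S ⊆ T ∧ x ∈ S ∧ y ∈ S ∧ S.card ≤ c W B S))

/-! ### first consequences of the definitions -/

theorem adj_gr {G : Finset α → Prop} {u v : α} : Adj (gr G) u v ↔ Adj G u v := by
  unfold gr
  constructor
  · rintro ⟨hne, a, ha, b, hb, hab⟩
    simp only [Finset.mem_insert, Finset.mem_singleton] at ha hb
    have hne' := hab.1
    rcases ha with rfl | rfl <;> rcases hb with rfl | rfl
    · exact absurd rfl hne'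
    · exact hab
    · exact adj_symm hab
    · exact absurd rfl hne'
  · intro h
    exact ⟨h.1, u, by simp, v, by simp, h⟩

theorem adj_delG {G : Finset α → Prop} {x y u v : α} :
    Adj (delG G x y) u v ↔ Adj G u v ∧ ({u, v} : Finset α) ≠ {x, y} := by
  unfold delG
  constructor
  · rintro ⟨hne, a, ha, b, hb, hab, h2⟩
    simp only [Finset.mem_insert, Finset.mem_singleton] at ha hb
    have hne' := hab.1
    rcases ha with rfl | rfl <;> rcases hb with rfl | rfl
    · exact absurd rfl hne'
    · exact ⟨hab, h2⟩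
    · exact ⟨adj_symm hab, by rw [Finset.pair_comm]; exact h2⟩
    · exact absurd rfl hne'
  · rintro ⟨h, h2⟩
    exact ⟨h.1, u, by simp, v, by simp, h, h2⟩

/-- components only depend on the adjacencies inside `R`. -/
theorem comps_congr_adj {G G' : Finset α → Prop} {R : Finset α}
    (h : ∀ u ∈ R, ∀ v ∈ R, (Adj G u v ↔ Adj G' u v)) : comps G R = comps G' R := by
  ext D
  rw [mem_comps_iff, mem_comps_iff]
  have hcl : ∀ X, ClosedIn G R X ↔ ClosedIn G' R X := by
    intro X
    unfold ClosedIn
    constructor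
    · rintro ⟨h1, h2⟩
      exact ⟨h1, fun u hu v hv huv => h2 u hu v hv ((h u (h1 hu) v hv).2 huv)⟩
    · rintro ⟨h1, h2⟩
      exact ⟨h1, fun u hu v hv huv => h2 u hu v hv ((h u (h1 hu) v hv).1 huv)⟩
  simp only [hcl]

theorem c_gr (W : Finset α) (G : Finset α → Prop) (S : Finset α) : c W (gr G) S = c W G S := by
  unfold c
  rw [comps_congr_adj (fun _ _ _ _ => adj_gr)]

theorem comps_gr (G : Finset α → Prop) (R : Finset α) : comps (gr G) R = comps G R :=
  comps_congr_adj (fun _ _ _ _ => adj_gr)

theorem MinBad.subset_bad {W : Finset α} {B : Finset α → Prop} {F : Finset α}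
    (h : MinBad W B F) : F ⊆ W := h.1

/-- every bad subset of `W` contains a minimal bad set. -/
theorem exists_minBad {W : Finset α} {B : Finset α → Prop} {R : Finset α} (hR : R ⊆ W) (hB : B R) :
    ∃ F, F ⊆ R ∧ MinBad W B F := by
  induction R using Finset.strongInduction with
  | H R ih =>
    by_cases h : ∃ T, T ⊂ R ∧ B T
    · obtain ⟨T, hT, hBT⟩ := h
      obtain ⟨F, hF, hmin⟩ := ih T hT (hT.1.trans hR) hBT
      exact ⟨F, hF.trans hT.1, hmin⟩
    · push Not at h
      exact ⟨R, Finset.Subset.refl _, hR, hB, h⟩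

theorem Tight.subset {W : Finset α} {G B : Finset α → Prop} {S : Finset α} (h : Tight W G B S) :
    S ⊆ W := h.1

theorem Tight.nonempty {W : Finset α} {G B : Finset α → Prop} {S : Finset α}
    (h : Tight W G B S) : S.Nonempty := by
  rw [← Finset.card_pos]; have := h.2.1; omega

theorem ClV.not_bad_empty {W : Finset α} {G B : Finset α → Prop} (h : ClV W G B) : ¬ B ∅ := by
  intro hB
  have h2 := h.two
  obtain ⟨v, hv⟩ : W.Nonempty := by rw [← Finset.card_pos]; omega
  exact h.one v (h.up ∅ {v} (by simp) hB)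

theorem ClV.not_bad_of_subset {W : Finset α} {G B : Finset α → Prop} (h : ClV W G B)
    {S T : Finset α} (hT : T ⊆ S) (hS : ¬ B S) : ¬ B T := fun hB => hS (h.up T S hT hB)

theorem ClV.c_tight {W : Finset α} {G B : Finset α → Prop} (h : ClV W G B) {S : Finset α}
    (hS : Tight W G B S) : c W G S = S.card :=
  le_antisymm (h.v2 S hS.1 hS.nonempty hS.2.2.1) hS.2.2.2

theorem ClV.crit_of_tight {W : Finset α} {G B : Finset α → Prop} (h : ClV W G B) {S : Finset α}
    (hS : Tight W G B S) : Crit W G S :=
  ⟨hS.1, hS.nonempty, hS.2.2.2, fun T hT hne =>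
    h.v2 T (hT.1.trans hS.1) hne (h.not_bad_of_subset hT.1 hS.2.2.1)⟩

theorem ClV.minBad_two_le {W : Finset α} {G B : Finset α → Prop} (h : ClV W G B) {F : Finset α}
    (hF : MinBad W B F) : 2 ≤ F.card := by
  by_contra hlt
  have hcases : F.card = 0 ∨ F.card = 1 := by omega
  rcases hcases with h0 | h1
  · rw [Finset.card_eq_zero] at h0
    subst h0
    exact h.not_bad_empty hF.2.1
  · obtain ⟨v, rfl⟩ := Finset.card_eq_one.1 h1
    exact h.one v hF.2.1

theorem ClV.crit_of_minBad {W : Finset α} {G B : Finset α → Prop} (h : ClV W G B) {F : Finset α}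
    (hF : MB W G B F) : Crit W G F :=
  ⟨hF.1.1, by rw [← Finset.card_pos]; have := h.minBad_two_le hF.1; omega, h.v1 F hF,
    fun T hT hne => h.v2 T (hT.1.trans hF.1.1) hne (hF.1.2.2 T hT)⟩

theorem ClV.card_comps_sdiff_singleton {W : Finset α} {G B : Finset α → Prop} (h : ClV W G B)
    {v : α} (hv : v ∈ W) : (comps G (W \ {v})).card ≤ 1 := by
  have := h.v2 {v} (by simpa using hv) (by simp) (h.one v)
  simpa [c] using this

end Pool.Agent.DK
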