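import Mathlib
import Pool.Agent.Lib_MP_6f255c_dk.VDefs
import Pool.Agent.Lib_MP_6f255c_dk.Crossing

/-!
# Symmetry of (non-)crossing, submodularity and neighbours in class V

The crossing lemma G10 (`crossing`) and the submodularity G8 (`submodular`) are in their own files;
copy their statements with sorry while they are not landed, then import
`Pool.Agent.Lib_MP_6f255c_dk.Crossing` and `Pool.Agent.Lib_MP_6f255c_dk.Submod`.
-/

set_option autoImplicit false

namespace Pool.Agent.DK

open Classical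

variable {α : Type*}

/-- Non-crossing is symmetric for critical sets.

Proof. Suppose `K` does not lie in one component of `W \ K'`. `K` is nonempty and `K ⊆ W \ K'`, so `K`
meets two different components `D₁, D₂` of `W \ K'`.  By G10 (`crossing`), at least two components of `W \ K`
meet `K'`; but `K' ⊆ D ∈ comps G (W \ K)`, so only `D` meets `K'` (`comps_disjoint`):
contradiction. -/
theorem nc_symm {W : Finset α} {G : Finset α → Prop} {K K' : Finset α}
    (hW0 : (comps G W).card ≤ 1) (hW : ∀ v ∈ W, (comps G (W \ {v})).card ≤ 1)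
    (hK : Crit W G K) (hK' : Crit W G K') (hd : Disjoint K K') (h : NC W G K K') :
    NC W G K' K := by
  obtain ⟨D₀, hD₀, hK'D₀⟩ := h
  obtain ⟨hKW, ⟨v, hv⟩, hKd, hKs⟩ := hK
  obtain ⟨hK'W, _, hK'd, hK's⟩ := hK'
  have hsub : K ⊆ W \ K' := fun x hx =>
    Finset.mem_sdiff.2 ⟨hKW hx, Finset.disjoint_left.1 hd hx⟩
  obtain ⟨D₁, hD₁, hvD₁⟩ := exists_comp G (W \ K') (hsub hv)
  by_contra hcon
  have hn : ¬ K ⊆ D₁ := fun hs => hcon ⟨D₁, hD₁, hs⟩
  obtain ⟨w, hw, hwD₁⟩ := Finset.not_subset.1 hn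
  obtain ⟨D₂, hD₂, hwD₂⟩ := exists_comp G (W \ K') (hsub hw)
  have h12 : D₁ ≠ D₂ := by
    rintro rfl
    exact hwD₁ hwD₂
  have hcr := (crossing W G K K' hW0 hW hKW hK'W hd hKd hK'd hKs hK's D₁ D₂ hD₁ hD₂ h12
    ⟨v, Finset.mem_inter.2 ⟨hv, hvD₁⟩⟩ ⟨w, Finset.mem_inter.2 ⟨hw, hwD₂⟩⟩).2.2.2.1
  have hle : ((comps G (W \ K)).filter (fun D => (K' ∩ D).Nonempty)).card ≤ 1 := by
    rw [Finset.card_le_one]
    have key : ∀ D ∈ (comps G (W \ K)).filter (fun D => (K' ∩ D).Nonempty), D = D₀ := by
      intro D hD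
      obtain ⟨hD1, ⟨x, hx⟩⟩ := Finset.mem_filter.1 hD
      rw [Finset.mem_inter] at hx
      by_contra hne
      exact Finset.disjoint_left.1 (comps_disjoint G _ hD1 hD₀ hne) hx.2 (hK'D₀ hx.1)
    intro D hD D' hD'
    rw [key D hD, key D' hD']
  omega

/-- the version used most: a tight set and a minimal bad set. -/
theorem ClV.nc_tight_symm {W : Finset α} {G B : Finset α → Prop} (h : ClV W G B) {S F : Finset α}
    (hS : Tight W G B S) (hF : MB W G B F) (hd : Disjoint F S) : NC W G S F ↔ NC W G F S := by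
  have hF' := h.crit_of_minBad hF
  have hS' := h.crit_of_tight hS
  exact ⟨nc_symm h.conn (fun v hv => h.card_comps_sdiff_singleton hv) hS' hF' hd.symm,
    nc_symm h.conn (fun v hv => h.card_comps_sdiff_singleton hv) hF' hS' hd⟩

/-- two disjoint tight sets. -/
theorem ClV.nc_tight_tight_symm {W : Finset α} {G B : Finset α → Prop} (h : ClV W G B)
    {S T : Finset α} (hS : Tight W G B S) (hT : Tight W G B T) (hd : Disjoint S T)
    (hn : NC W G S T) : NC W G T S :=
  nc_symm h.conn (fun v hv => h.card_comps_sdiff_singleton hv) (h.crit_of_tight hS)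
    (h.crit_of_tight hT) hd hn

/-- a set contained in one component of `W \ K` and containing `K'` : monotonicity of `NC`. -/
theorem NC.mono {W : Finset α} {G : Finset α → Prop} {K K' K'' : Finset α} (h : NC W G K K')
    (hs : K'' ⊆ K') : NC W G K K'' := by
  obtain ⟨D, hD, hKD⟩ := h
  exact ⟨D, hD, hs.trans hKD⟩

/-- two meeting sets, each in one component, are together in one component. -/
theorem NC.union {W : Finset α} {G : Finset α → Prop} {K A A' : Finset α} (h : NC W G K A)
    (h' : NC W G K A') (hne : (A ∩ A').Nonempty) : NC W G K (A ∪ A') := by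
  obtain ⟨D, hD, hA⟩ := h
  obtain ⟨D', hD', hA'⟩ := h'
  obtain ⟨x, hx⟩ := hne
  rw [Finset.mem_inter] at hx
  have hDD : D = D' := by
    by_contra hne
    exact (Finset.disjoint_left.1 (comps_disjoint G _ hD hD' hne)) (hA hx.1) (hA' hx.2)
  subst hDD
  exact ⟨D, hD, Finset.union_subset hA hA'⟩

/-- In a connected state every component of `W \ S`, `S` nonempty, `S ⊆ W`, has a neighbour in `S`.

Proof. Otherwise the component is closed in `W`, so it contains a component of `W` (exists_comp and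
`comp_subset_of_closed`), and the component of a vertex of `S` is different from it (a component of `W`
contained in `D` does not contain the vertex of `S`): two components. -/
theorem exists_adj_of_comp {W : Finset α} {G : Finset α → Prop} (hW0 : (comps G W).card ≤ 1)
    {S D : Finset α} (hS : S ⊆ W) (hne : S.Nonempty) (hD : D ∈ comps G (W \ S)) :
    ∃ u ∈ D, ∃ v ∈ S, Adj G u v := by
  obtain ⟨hDne, hDcl, _⟩ := (mem_comps_iff G (W \ S) D).1 hD
  by_contra hcon
  push Not at hcon
  have hDW : D ⊆ W := fun x hx => (Finset.mem_sdiff.1 (hDcl.1 hx)).1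
  have hcl1 : ClosedIn G W D := by
    refine ⟨hDW, fun u hu v hv huv => ?_⟩
    by_cases hvS : v ∈ S
    · exact absurd huv (hcon u hu v hvS)
    · exact hDcl.2 u hu v (Finset.mem_sdiff.2 ⟨hv, hvS⟩) huv
  have hcl2 : ClosedIn G W (W \ D) := by
    refine ⟨Finset.sdiff_subset, fun u hu v hv huv => ?_⟩
    rw [Finset.mem_sdiff] at hu ⊢
    refine ⟨hv, fun hvD => hu.2 ?_⟩
    exact hcl1.2 v hvD u hu.1 (adj_symm huv)
  obtain ⟨s, hs⟩ := hne
  have hsD : s ∈ W \ D := by
    rw [Finset.mem_sdiff]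
    exact ⟨hS hs, fun h => (Finset.mem_sdiff.1 (hDcl.1 h)).2 hs⟩
  have hne2 : D ≠ W \ D := by
    intro he
    have h1 : s ∈ D := by
      rw [he]
      exact hsD
    exact (Finset.mem_sdiff.1 hsD).2 h1
  have h2 := card_le_comps G W {D, W \ D} ?_ ?_
  · rw [Finset.card_pair hne2] at h2
    omega
  · intro X hX
    rw [Finset.mem_insert, Finset.mem_singleton] at hX
    rcases hX with rfl | rfl
    · exact ⟨hDne, hcl1⟩
    · exact ⟨⟨s, hsD⟩, hcl2⟩
  · intro X hX Y hY hXY
    simp only [Finset.coe_insert, Finset.coe_singleton, Set.mem_insert_iff,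
      Set.mem_singleton_iff] at hX hY
    show Disjoint X Y
    rcases hX with rfl | rfl <;> rcases hY with rfl | rfl
    · exact absurd rfl hXY
    · exact Finset.disjoint_sdiff
    · exact Finset.sdiff_disjoint
    · exact absurd rfl hXY

/-- If `K` and `K'` are disjoint and `K` lies in one component of `W \ K'` then every component of
`W \ K` which does not meet `K'`... is contained in the component of `W \ K'` containing `K`.
(`W` connected, `K` nonempty.)

Proof. Let `X ∈ comps G (W \ K)` be disjoint from `K'`, `D ∈ comps G (W \ K')` with `K ⊆ D`. By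
`exists_adj_of_comp` a vertex `u ∈ X` has a neighbour in `K ⊆ D`; `X ⊆ W \ K'`, so `u ∈ D` (closedness).
`X ∩ D` is nonempty, and closed in `W \ K` (a neighbour `v ∈ W \ K` of a vertex of `X ∩ D` is in `X`,
because `X` is closed in `W \ K`; then it is in `W \ K'`, so in `D`). So `X ∩ D = X`. -/
theorem comp_subset_of_nc {W : Finset α} {G : Finset α → Prop} (hW0 : (comps G W).card ≤ 1)
    {K K' D X : Finset α} (hK : K ⊆ W) (hne : K.Nonempty) (hD : D ∈ comps G (W \ K'))
    (hKD : K ⊆ D) (hX : X ∈ comps G (W \ K)) (hXK : Disjoint X K') : X ⊆ D := by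
  obtain ⟨u, hu, v, hv, huv⟩ := exists_adj_of_comp hW0 hK hne hX
  obtain ⟨_, hDcl, _⟩ := (mem_comps_iff G (W \ K') D).1 hD
  obtain ⟨_, hXcl, hXmin⟩ := (mem_comps_iff G (W \ K) X).1 hX
  have hXW : X ⊆ W \ K' := fun x hx =>
    Finset.mem_sdiff.2 ⟨(Finset.mem_sdiff.1 (hXcl.1 hx)).1, Finset.disjoint_left.1 hXK hx⟩
  have huD : u ∈ D := hDcl.2 v (hKD hv) u (hXW hu) (adj_symm huv)
  have h1 := hXmin (X ∩ D) Finset.inter_subset_left ⟨u, Finset.mem_inter.2 ⟨hu, huD⟩⟩ ?_
  · exact Finset.inter_eq_left.1 h1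
  · refine ⟨fun x hx => hXcl.1 (Finset.mem_inter.1 hx).1, fun a ha b hb hab => ?_⟩
    rw [Finset.mem_inter] at ha ⊢
    have hbX := hXcl.2 a ha.1 b hb hab
    exact ⟨hbX, hDcl.2 a ha.2 b (hXW hbX) hab⟩

end Pool.Agent.DK
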