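import Mathlib
import Pool.Agent.Lib_MP_6f255c_dk.VDefs
import Pool.Agent.Lib_MP_6f255c_dk.VCross
import Pool.Agent.Lib_MP_6f255c_dk.Crossing

/-!
# Crossing toolkit

General facts on components, and the consequences of the crossing lemma in the form needed for Theorem D:
`Cross W G K K'` says that `K`, `K'` are disjoint critical sets and that each of them separates the other.
For a component `D` of `W \ K'` meeting `K` the set `N = K ∩ D` is a *trace* (node) of `K`.
-/

set_option autoImplicit false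

namespace Pool.Agent.DK

open Classical

variable {α : Type*}

/-! ### general facts on components -/

theorem comp_nonempty {G : Finset α → Prop} {R D : Finset α} (hD : D ∈ comps G R) :
    D.Nonempty := ((mem_comps_iff G R D).1 hD).1

theorem comp_subset {G : Finset α → Prop} {R D : Finset α} (hD : D ∈ comps G R) : D ⊆ R :=
  ((mem_comps_iff G R D).1 hD).2.1.1

theorem comp_closed {G : Finset α → Prop} {R D : Finset α} (hD : D ∈ comps G R) :
    ClosedIn G R D := ((mem_comps_iff G R D).1 hD).2.1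

theorem comp_subset_left {G : Finset α → Prop} {W S D : Finset α} (hD : D ∈ comps G (W \ S)) :
    D ⊆ W := (comp_subset hD).trans Finset.sdiff_subset

theorem comp_disjoint {G : Finset α → Prop} {W S D : Finset α} (hD : D ∈ comps G (W \ S)) :
    Disjoint D S := by
  rw [Finset.disjoint_left]
  exact fun x hx => (Finset.mem_sdiff.1 (comp_subset hD hx)).2

/-- a component is closed under adjacency. -/
theorem mem_comp_of_adj {G : Finset α → Prop} {R D : Finset α} (hD : D ∈ comps G R) {u v : α}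
    (hu : u ∈ D) (hv : v ∈ R) (huv : Adj G u v) : v ∈ D := (comp_closed hD).2 u hu v hv huv

/-- two components with a common vertex are equal. -/
theorem comp_eq_of_mem {G : Finset α → Prop} {R D D' : Finset α} (hD : D ∈ comps G R)
    (hD' : D' ∈ comps G R) {x : α} (hx : x ∈ D) (hx' : x ∈ D') : D = D' := by
  by_contra hne
  exact Finset.disjoint_left.1 (comps_disjoint G R hD hD' hne) hx hx'

/-- a component of `R'` contained in `R` and meeting the component `D` of `R` is contained in `D`. -/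
theorem comp_subset_comp {G : Finset α → Prop} {R R' X D : Finset α} (hX : X ∈ comps G R')
    (hXR : X ⊆ R) (hD : D ∈ comps G R) (hne : (X ∩ D).Nonempty) : X ⊆ D := by
  obtain ⟨_, hc, hm⟩ := (mem_comps_iff G R' X).1 hX
  have h := hm (X ∩ D) Finset.inter_subset_left hne
    ⟨Finset.inter_subset_left.trans hc.1, fun u hu v hv huv => by
      rw [Finset.mem_inter] at hu ⊢
      have hvX := hc.2 u hu.1 v hv huv
      exact ⟨hvX, mem_comp_of_adj hD hu.2 (hXR hvX) huv⟩⟩
  exact Finset.inter_eq_left.1 h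

/-- a component of `R'` contained in `R` is contained in a component of `R`. -/
theorem exists_comp_superset {G : Finset α → Prop} {R R' X : Finset α} (hX : X ∈ comps G R')
    (hXR : X ⊆ R) : ∃ D ∈ comps G R, X ⊆ D := by
  obtain ⟨x, hx⟩ := comp_nonempty hX
  obtain ⟨D, hD, hxD⟩ := exists_comp G R (hXR hx)
  exact ⟨D, hD, comp_subset_comp hX hXR hD ⟨x, Finset.mem_inter.2 ⟨hx, hxD⟩⟩⟩

/-- a component of `R` contained in the component `D` of `R'` (if `D ⊆ R`). -/
theorem comp_subset_of_adj {G : Finset α → Prop} {R R' X D : Finset α} (hX : X ∈ comps G R')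
    (hXR : X ⊆ R) (hD : D ∈ comps G R) {u v : α} (hu : u ∈ X) (hv : v ∈ D)
    (huv : Adj G u v) : X ⊆ D :=
  comp_subset_comp hX hXR hD
    ⟨u, Finset.mem_inter.2 ⟨hu, mem_comp_of_adj hD hv (hXR hu) (adj_symm huv)⟩⟩

/-- removing more vertices, all outside the component. -/
theorem mem_comps_sdiff_mono {G : Finset α → Prop} {W S S' D : Finset α} (hS : S ⊆ S')
    (hD : D ∈ comps G (W \ S)) (hd : Disjoint D S') : D ∈ comps G (W \ S') := by
  refine mem_comps_of_superset G (W \ S) (W \ S') D (Finset.sdiff_subset_sdiff (Finset.Subset.refl _) hS)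
    hD ?_
  intro x hx
  exact Finset.mem_sdiff.2 ⟨comp_subset_left hD hx, Finset.disjoint_left.1 hd hx⟩

/-- removing fewer vertices, all neighbours of the component being still removed. -/
theorem mem_comps_sdiff_anti {G : Finset α → Prop} {W S S' D : Finset α} (hS : S' ⊆ S)
    (hD : D ∈ comps G (W \ S)) (hn : ∀ u ∈ D, ∀ v ∈ S, Adj G u v → v ∈ S') :
    D ∈ comps G (W \ S') := by
  refine mem_comps_of_subset G (W \ S') (W \ S) D (Finset.sdiff_subset_sdiff (Finset.Subset.refl _) hS)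
    hD ?_
  intro u hu v hv huv
  rw [Finset.mem_sdiff] at hv ⊢
  exact ⟨hv.1, fun hvS => hv.2 (hn u hu v hvS huv)⟩

/-- a nonempty subset of `W`, closed except for the vertex `a`, of a state without cut vertices is
everything (up to `a`). -/
theorem subset_insert_of_no_cut {W : Finset α} {G : Finset α → Prop}
    (hW : ∀ v ∈ W, (comps G (W \ {v})).card ≤ 1) {X : Finset α} (hX : X ⊆ W) (hne : X.Nonempty)
    {a : α} (ha : a ∈ W) (haX : a ∉ X)
    (hcl : ∀ u ∈ X, ∀ v ∈ W, Adj G u v → v ∈ X ∨ v = a) : W ⊆ insert a X := by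
  by_contra hcon
  obtain ⟨z, hz, hzX⟩ := Finset.not_subset.1 hcon
  rw [Finset.mem_insert, not_or] at hzX
  have hclX : ClosedIn G (W \ {a}) X := by
    refine ⟨fun x hx => Finset.mem_sdiff.2 ⟨hX hx, fun h => haX (Finset.mem_singleton.1 h ▸ hx)⟩, ?_⟩
    intro u hu v hv huv
    rw [Finset.mem_sdiff, Finset.mem_singleton] at hv
    rcases hcl u hu v hv.1 huv with h | h
    · exact h
    · exact absurd h hv.2
  have hclY : ClosedIn G (W \ {a}) ((W \ {a}) \ X) := by
    refine ⟨Finset.sdiff_subset, fun u hu v hv huv => ?_⟩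
    rw [Finset.mem_sdiff] at hu ⊢
    exact ⟨hv, fun hvX => hu.2 (hclX.2 v hvX u hu.1 (adj_symm huv))⟩
  have hneq : X ≠ (W \ {a}) \ X := by
    intro h
    obtain ⟨x, hx⟩ := hne
    have hx2 : x ∈ (W \ {a}) \ X := h ▸ hx
    exact (Finset.mem_sdiff.mp hx2).2 hx
  have h2 := card_le_comps G (W \ {a}) ({X, (W \ {a}) \ X} : Finset (Finset α)) (by
    intro Y hY
    rw [Finset.mem_insert, Finset.mem_singleton] at hY
    rcases hY with rfl | rfl
    · exact ⟨hne, hclX⟩
    · exact ⟨⟨z, by simp [hz, hzX.1, hzX.2]⟩, hclY⟩) (by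
    intro Y hY Z hZ hYZ
    simp only [Finset.coe_insert, Finset.coe_singleton, Set.mem_insert_iff,
      Set.mem_singleton_iff] at hY hZ
    rcases hY with rfl | rfl <;> rcases hZ with rfl | rfl
    · exact absurd rfl hYZ
    · exact Finset.disjoint_sdiff
    · exact Finset.sdiff_disjoint
    · exact absurd rfl hYZ)
  rw [Finset.card_pair hneq] at h2
  have := hW a ha
  omega

/-- neighbours in `W` of the set `X`. -/
noncomputable def nbr (W : Finset α) (G : Finset α → Prop) (X : Finset α) : Finset α :=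
  (W \ X).filter (fun v => ∃ u ∈ X, Adj G u v)

theorem mem_nbr {W : Finset α} {G : Finset α → Prop} {X : Finset α} {v : α} :
    v ∈ nbr W G X ↔ v ∈ W ∧ v ∉ X ∧ ∃ u ∈ X, Adj G u v := by
  unfold nbr
  rw [Finset.mem_filter, Finset.mem_sdiff, and_assoc]

theorem nbr_subset_of_closed {W : Finset α} {G : Finset α → Prop} {S X : Finset α}
    (hX : ClosedIn G (W \ S) X) : nbr W G X ⊆ S := by
  intro v hv
  rw [mem_nbr] at hv
  obtain ⟨hvW, hvX, u, hu, huv⟩ := hv
  by_contra hvS
  exact hvX (hX.2 u hu v (Finset.mem_sdiff.2 ⟨hvW, hvS⟩) huv)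

/-- (N2): in class V a nonempty set `X` with `X ∪ N(X) ≠ W` has at least two neighbours. -/
theorem ClV.two_le_card_nbr {W : Finset α} {G B : Finset α → Prop} (h : ClV W G B)
    {X : Finset α} (hX : X ⊆ W) (hne : X.Nonempty) {z : α} (hz : z ∈ W) (hzX : z ∉ X)
    (hzN : z ∉ nbr W G X) : 2 ≤ (nbr W G X).card := by
  by_contra hlt
  obtain ⟨a, ha⟩ : ∃ a ∈ W, a ∉ X ∧ nbr W G X ⊆ {a} := by
    have h1 : (nbr W G X).card ≤ 1 := by omega
    rcases (nbr W G X).eq_empty_or_nonempty with h0 | ⟨a, ha⟩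
    · exact ⟨z, hz, hzX, by simp [h0]⟩
    · refine ⟨a, (mem_nbr.1 ha).1, (mem_nbr.1 ha).2.1, fun b hb => ?_⟩
      rw [Finset.mem_singleton]
      exact (Finset.card_le_one.1 h1) b hb a ha
  obtain ⟨haW, haX, haN⟩ := ha
  have hcl : ∀ u ∈ X, ∀ v ∈ W, Adj G u v → v ∈ X ∨ v = a := by
    intro u hu v hv huv
    by_cases hvX : v ∈ X
    · exact Or.inl hvX
    · exact Or.inr (Finset.mem_singleton.1 (haN (mem_nbr.2 ⟨hv, hvX, u, hu, huv⟩)))
  have hsub := subset_insert_of_no_cut (fun v hv => h.card_comps_sdiff_singleton hv) hX hne haW haX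
    hcl
  have hza : z = a := by
    have := hsub hz
    rw [Finset.mem_insert] at this
    exact this.resolve_right hzX
  subst hza
  -- `z` is the only vertex outside `X`, and it is not adjacent to `X`: two components
  have hclX : ClosedIn G W X := ⟨hX, fun u hu v hv huv => by
    rcases hcl u hu v hv huv with h' | h'
    · exact h'
    · subst h'
      exact absurd (mem_nbr.2 ⟨hv, haX, u, hu, huv⟩) hzN⟩
  have hclz : ClosedIn G W (W \ X) := ⟨Finset.sdiff_subset, fun u hu v hv huv => by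
    rw [Finset.mem_sdiff] at hu ⊢
    exact ⟨hv, fun hvX => hu.2 (hclX.2 v hvX u hu.1 (adj_symm huv))⟩⟩
  have hneq : X ≠ W \ X := by
    intro h'
    obtain ⟨x, hx⟩ := hne
    have hx2 : x ∈ W \ X := h' ▸ hx
    exact (Finset.mem_sdiff.mp hx2).2 hx
  have h2 := card_le_comps G W ({X, W \ X} : Finset (Finset α)) (by
    intro Y hY
    rw [Finset.mem_insert, Finset.mem_singleton] at hY
    rcases hY with rfl | rfl
    · exact ⟨hne, hclX⟩
    · exact ⟨⟨z, Finset.mem_sdiff.2 ⟨hz, hzX⟩⟩, hclz⟩) (by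
    intro Y hY Z hZ hYZ
    simp only [Finset.coe_insert, Finset.coe_singleton, Set.mem_insert_iff,
      Set.mem_singleton_iff] at hY hZ
    rcases hY with rfl | rfl <;> rcases hZ with rfl | rfl
    · exact absurd rfl hYZ
    · exact Finset.disjoint_sdiff
    · exact Finset.sdiff_disjoint
    · exact absurd rfl hYZ)
  rw [Finset.card_pair hneq] at h2
  have := h.conn
  omega

/-! ### crossing pairs -/

/-- `K` and `K'` are disjoint critical sets and each separates the other. -/
structure Cross (W : Finset α) (G : Finset α → Prop) (K K' : Finset α) : Prop where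
  conn : (comps G W).card ≤ 1
  two : ∀ v ∈ W, (comps G (W \ {v})).card ≤ 1
  crit : Crit W G K
  crit' : Crit W G K'
  disj : Disjoint K K'
  nc : ¬ NC W G K K'
  nc' : ¬ NC W G K' K

theorem Cross.symm {W : Finset α} {G : Finset α → Prop} {K K' : Finset α} (h : Cross W G K K') :
    Cross W G K' K :=
  ⟨h.conn, h.two, h.crit', h.crit, h.disj.symm, h.nc', h.nc⟩

/-- two disjoint critical sets, one of which separates the other, cross. -/
theorem cross_of_not_nc {W : Finset α} {G : Finset α → Prop} {K K' : Finset α}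
    (hW0 : (comps G W).card ≤ 1) (hW : ∀ v ∈ W, (comps G (W \ {v})).card ≤ 1)
    (hK : Crit W G K) (hK' : Crit W G K') (hd : Disjoint K K') (h : ¬ NC W G K K') :
    Cross W G K K' :=
  ⟨hW0, hW, hK, hK', hd, h, fun h' => h (nc_symm hW0 hW hK' hK hd.symm h')⟩

/-- a tight set `T` and a minimal bad set `F` disjoint from it, separated by it. -/
theorem ClV.cross {W : Finset α} {G B : Finset α → Prop} (h : ClV W G B) {T F : Finset α}
    (hT : Tight W G B T) (hF : MB W G B F) (hd : Disjoint F T) (hn : ¬ NC W G T F) :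
    Cross W G T F :=
  cross_of_not_nc h.conn (fun _ hv => h.card_comps_sdiff_singleton hv) (h.crit_of_tight hT)
    (h.crit_of_minBad hF) hd.symm hn

/-- two disjoint tight sets, one of which separates the other. -/
theorem ClV.cross_tight {W : Finset α} {G B : Finset α → Prop} (h : ClV W G B) {S T : Finset α}
    (hS : Tight W G B S) (hT : Tight W G B T) (hd : Disjoint S T) (hn : ¬ NC W G S T) :
    Cross W G S T :=
  cross_of_not_nc h.conn (fun _ hv => h.card_comps_sdiff_singleton hv) (h.crit_of_tight hS)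
    (h.crit_of_tight hT) hd hn

/-- `K'` does not lie in one component of `W \ K`: two elements in different components. -/
theorem exists_two_of_not_nc {W : Finset α} {G : Finset α → Prop} {K K' : Finset α}
    (hK' : K' ⊆ W) (hne : K'.Nonempty) (hd : Disjoint K K') (hn : ¬ NC W G K K') :
    ∃ D₁ ∈ comps G (W \ K), ∃ D₂ ∈ comps G (W \ K), D₁ ≠ D₂ ∧ (K' ∩ D₁).Nonempty ∧
      (K' ∩ D₂).Nonempty := by
  obtain ⟨x, hx⟩ := hne
  obtain ⟨D₁, hD₁, hx₁⟩ := exists_comp G (W \ K)
    (Finset.mem_sdiff.2 ⟨hK' hx, Finset.disjoint_right.1 hd hx⟩)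
  have hns : ¬ K' ⊆ D₁ := fun h => hn ⟨D₁, hD₁, h⟩
  obtain ⟨y, hy, hy₁⟩ := Finset.not_subset.1 hns
  obtain ⟨D₂, hD₂, hy₂⟩ := exists_comp G (W \ K)
    (Finset.mem_sdiff.2 ⟨hK' hy, Finset.disjoint_right.1 hd hy⟩)
  refine ⟨D₁, hD₁, D₂, hD₂, ?_, ⟨x, Finset.mem_inter.2 ⟨hx, hx₁⟩⟩, ⟨y, Finset.mem_inter.2 ⟨hy, hy₂⟩⟩⟩
  rintro rfl
  exact hy₁ hy₂

theorem Cross.exists_two {W : Finset α} {G : Finset α → Prop} {K K' : Finset α}
    (h : Cross W G K K') :
    ∃ D₁ ∈ comps G (W \ K'), ∃ D₂ ∈ comps G (W \ K'), D₁ ≠ D₂ ∧ (K ∩ D₁).Nonempty ∧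
      (K ∩ D₂).Nonempty :=
  exists_two_of_not_nc h.crit.1 h.crit.2.1 h.disj.symm h.nc'

/-- the crossing lemma for `Cross`. -/
theorem Cross.all {W : Finset α} {G : Finset α → Prop} {K K' : Finset α} (h : Cross W G K K') :
    c W G K = K.card ∧ c W G K' = K'.card ∧
    ((comps G (W \ K')).filter (fun D => (K ∩ D).Nonempty)).card =
      ((comps G (W \ K)).filter (fun D => (K' ∩ D).Nonempty)).card ∧
    2 ≤ ((comps G (W \ K)).filter (fun D => (K' ∩ D).Nonempty)).card ∧
    (∀ D ∈ comps G (W \ K'), (K ∩ D).Nonempty → c W G (K ∩ D) = (K ∩ D).card ∧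
      ((comps G (W \ (K ∩ D))).filter (fun X => Disjoint X (K ∪ K'))).card + 1 = (K ∩ D).card) ∧
    (∀ D ∈ comps G (W \ K), (K' ∩ D).Nonempty → c W G (K' ∩ D) = (K' ∩ D).card ∧
      ((comps G (W \ (K' ∩ D))).filter (fun X => Disjoint X (K ∪ K'))).card + 1 =
        (K' ∩ D).card) := by
  obtain ⟨D₁, h₁, D₂, h₂, h₁₂, hm₁, hm₂⟩ := h.exists_two
  exact crossing W G K K' h.conn h.two h.crit.1 h.crit'.1 h.disj h.crit.2.2.1 h.crit'.2.2.1
    h.crit.2.2.2 h.crit'.2.2.2 D₁ D₂ h₁ h₂ h₁₂ hm₁ hm₂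

/-- (EQ), part 1. -/
theorem Cross.c_eq {W : Finset α} {G : Finset α → Prop} {K K' : Finset α} (h : Cross W G K K') :
    c W G K = K.card := h.all.1

theorem Cross.c_eq' {W : Finset α} {G : Finset α → Prop} {K K' : Finset α} (h : Cross W G K K') :
    c W G K' = K'.card := h.all.2.1

/-- (EQ), part 2: both sides have the same number of traces. -/
theorem Cross.card_traces {W : Finset α} {G : Finset α → Prop} {K K' : Finset α}
    (h : Cross W G K K') :
    ((comps G (W \ K')).filter (fun D => (K ∩ D).Nonempty)).card =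
      ((comps G (W \ K)).filter (fun D => (K' ∩ D).Nonempty)).card := h.all.2.2.1

/-- a trace has defect `0`. -/
theorem Cross.c_trace {W : Finset α} {G : Finset α → Prop} {K K' : Finset α}
    (h : Cross W G K K') {D : Finset α} (hD : D ∈ comps G (W \ K')) (hne : (K ∩ D).Nonempty) :
    c W G (K ∩ D) = (K ∩ D).card := (h.all.2.2.2.2.1 D hD hne).1

/-- a trace is a proper subset. -/
theorem Cross.trace_ssubset {W : Finset α} {G : Finset α → Prop} {K K' : Finset α}
    (h : Cross W G K K') {D : Finset α} (hD : D ∈ comps G (W \ K')) : K ∩ D ⊂ K := by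
  rw [Finset.ssubset_iff_subset_ne]
  refine ⟨Finset.inter_subset_left, fun he => h.nc' ⟨D, hD, ?_⟩⟩
  exact Finset.inter_eq_left.1 he

/-- (NODE): for a trace `N = K ∩ D` there is exactly one component `R` of `W \ N` which meets `K ∪ K'`, it
contains `(K ∪ K') \ N`, and all other components of `W \ N` are contained in `D`, disjoint from
`K ∪ K'` and components of `W \ K`.  In particular `W \ R ⊆ D`. -/
theorem Cross.node {W : Finset α} {G : Finset α → Prop} {K K' : Finset α} (h : Cross W G K K')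
    {D : Finset α} (hD : D ∈ comps G (W \ K')) (hne : (K ∩ D).Nonempty) :
    ∃ R ∈ comps G (W \ (K ∩ D)), (K ∪ K') \ (K ∩ D) ⊆ R ∧ W \ R ⊆ D ∧ (R ∩ (K ∪ K')).Nonempty ∧
      ∀ X ∈ comps G (W \ (K ∩ D)), X ≠ R →
        X ⊆ D ∧ Disjoint X (K ∪ K') ∧ X ∈ comps G (W \ K) := by
  obtain ⟨hc, hcard⟩ := h.all.2.2.2.2.1 D hD hne
  have hND : K ∩ D ⊆ K := Finset.inter_subset_left
  have hNW : K ∩ D ⊆ W := hND.trans h.crit.1
  -- the element outside the trace
  obtain ⟨z, hzK, hzN⟩ := Finset.exists_of_ssubset (h.trace_ssubset hD)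
  obtain ⟨R, hR, hzR⟩ := exists_comp G (W \ (K ∩ D)) (Finset.mem_sdiff.2 ⟨h.crit.1 hzK, hzN⟩)
  have hRne : (R ∩ (K ∪ K')).Nonempty :=
    ⟨z, Finset.mem_inter.2 ⟨hzR, Finset.mem_union_left _ hzK⟩⟩
  -- every other component is disjoint from `K ∪ K'`
  have hsplit : ((comps G (W \ (K ∩ D))).filter (fun X => Disjoint X (K ∪ K'))).card +
      ((comps G (W \ (K ∩ D))).filter (fun X => ¬ Disjoint X (K ∪ K'))).card = (K ∩ D).card := by
    rw [Finset.card_filter_add_card_filter_not]
    exact hc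
  have hone : ((comps G (W \ (K ∩ D))).filter (fun X => ¬ Disjoint X (K ∪ K'))).card ≤ 1 := by
    omega
  have huniq : ∀ X ∈ comps G (W \ (K ∩ D)), X ≠ R → Disjoint X (K ∪ K') := by
    intro X hX hXR
    by_contra hd
    refine hXR (Finset.card_le_one.1 hone X (Finset.mem_filter.2 ⟨hX, hd⟩) R
      (Finset.mem_filter.2 ⟨hR, ?_⟩))
    rw [Finset.not_disjoint_iff_nonempty_inter]
    exact hRne
  have hother : ∀ X ∈ comps G (W \ (K ∩ D)), X ≠ R →
        X ⊆ D ∧ Disjoint X (K ∪ K') ∧ X ∈ comps G (W \ K) := by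
    intro X hX hXR
    have hd := huniq X hX hXR
    have hd1 := (Finset.disjoint_union_right.1 hd).1
    have hd2 := (Finset.disjoint_union_right.1 hd).2
    obtain ⟨u, hu, v, hv, huv⟩ := exists_adj_of_comp h.conn hNW hne hX
    have hXW' : X ⊆ W \ K' := by
      intro x hx
      exact Finset.mem_sdiff.2 ⟨comp_subset_left hX hx, Finset.disjoint_left.1 hd2 hx⟩
    exact ⟨comp_subset_of_adj hX hXW' hD hu (Finset.mem_inter.1 hv).2 huv, hd,
      mem_comps_sdiff_mono hND hX hd1⟩
  refine ⟨R, hR, ?_, ?_, hRne, hother⟩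
  · intro x hx
    rw [Finset.mem_sdiff] at hx
    have hxW : x ∈ W := by
      rcases Finset.mem_union.1 hx.1 with h' | h'
      · exact h.crit.1 h'
      · exact h.crit'.1 h'
    obtain ⟨X, hX, hxX⟩ := exists_comp G (W \ (K ∩ D)) (Finset.mem_sdiff.2 ⟨hxW, hx.2⟩)
    by_cases hXR : X = R
    · exact hXR ▸ hxX
    · exact absurd hx.1 (Finset.disjoint_left.1 (huniq X hX hXR) hxX)
  · intro x hx
    rw [Finset.mem_sdiff] at hx
    by_cases hxN : x ∈ K ∩ D
    · exact (Finset.mem_inter.1 hxN).2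
    · obtain ⟨X, hX, hxX⟩ := exists_comp G (W \ (K ∩ D)) (Finset.mem_sdiff.2 ⟨hx.1, hxN⟩)
      have hXR : X ≠ R := fun he => hx.2 (he ▸ hxX)
      exact (hother X hX hXR).1 hxX

/-- a trace with at least two elements which is not bad is tight. -/
theorem Cross.tight_trace {W : Finset α} {G B : Finset α → Prop} {K K' : Finset α}
    (h : Cross W G K K') {D : Finset α} (hD : D ∈ comps G (W \ K')) (h2 : 2 ≤ (K ∩ D).card)
    (hb : ¬ B (K ∩ D)) : Tight W G B (K ∩ D) := by
  have hne : (K ∩ D).Nonempty := by rw [← Finset.card_pos]; omega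
  exact ⟨Finset.inter_subset_left.trans h.crit.1, h2, hb, (h.c_trace hD hne).ge⟩

/-- If all traces of `K` are single, then every component of `W \ K` meets `K'`. -/
theorem Cross.meets_of_single {W : Finset α} {G : Finset α → Prop} {K K' : Finset α}
    (h : Cross W G K K') (hs : ∀ D ∈ comps G (W \ K'), (K ∩ D).card ≤ 1) :
    ∀ X ∈ comps G (W \ K), (K' ∩ X).Nonempty := by
  have h1 : K.card ≤ ((comps G (W \ K')).filter (fun D => (K ∩ D).Nonempty)).card := by
    have hex : ∀ x ∈ K, ∃ D ∈ comps G (W \ K'), x ∈ D := fun x hx =>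
      exists_comp G (W \ K') (Finset.mem_sdiff.2 ⟨h.crit.1 hx, Finset.disjoint_left.1 h.disj hx⟩)
    choose! f hf1 hf2 using hex
    refine Finset.card_le_card_of_injOn f (fun x hx => ?_) (fun x hx y hy hxy => ?_)
    · exact Finset.mem_coe.2 (Finset.mem_filter.2 ⟨hf1 x hx, ⟨x, Finset.mem_inter.2 ⟨hx, hf2 x hx⟩⟩⟩)
    · have hx' : x ∈ K := Finset.mem_coe.1 hx
      have hy' : y ∈ K := Finset.mem_coe.1 hy
      exact (Finset.card_le_one.1 (hs (f x) (hf1 x hx'))) x
        (Finset.mem_inter.2 ⟨hx', hf2 x hx'⟩) y (Finset.mem_inter.2 ⟨hy', hxy ▸ hf2 y hy'⟩)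
  have h2 := h.card_traces
  have h3 := h.c_eq
  intro X hX
  by_contra hcon
  have hss : (comps G (W \ K)).filter (fun D => (K' ∩ D).Nonempty) ⊂ comps G (W \ K) := by
    rw [Finset.filter_ssubset]
    exact ⟨X, hX, hcon⟩
  have h4 := Finset.card_lt_card hss
  unfold c at h3
  omega

/-- If all traces of `K` are single then two different elements of `K` are in different components of
`W \ K'`. -/
theorem eq_of_single {K D : Finset α} (hs : (K ∩ D).card ≤ 1) {x y : α} (hx : x ∈ K)
    (hy : y ∈ K) (hxD : x ∈ D) (hyD : y ∈ D) : x = y :=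
  (Finset.card_le_one.1 hs) x (Finset.mem_inter.2 ⟨hx, hxD⟩) y (Finset.mem_inter.2 ⟨hy, hyD⟩)

/-- (V3'): if a subset `S` of the minimal bad set `F` is separated by the minimal bad set `F₁`, then `F` and
`F₁` meet. -/
theorem ClV.inter_of_not_nc {W : Finset α} {G B : Finset α → Prop} (h : ClV W G B)
    {S F F₁ : Finset α} (hF : MB W G B F) (hF₁ : MB W G B F₁) (hS : S ⊆ F)
    (hn : ¬ NC W G F₁ S) : (F ∩ F₁).Nonempty := by
  rw [← Finset.not_disjoint_iff_nonempty_inter]
  intro hd
  exact hn ((h.v3 F₁ F hF₁ hF hd.symm).mono hS)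

/-- (V3') for a tight subset `S` of `F` crossed by `F₁`. -/
theorem ClV.inter_of_cross {W : Finset α} {G B : Finset α → Prop} (h : ClV W G B)
    {S F F₁ : Finset α} (hF : MB W G B F) (hF₁ : MB W G B F₁) (hS : S ⊆ F)
    (hc : Cross W G S F₁) : (F ∩ F₁).Nonempty :=
  h.inter_of_not_nc hF hF₁ hS hc.nc'

end Pool.Agent.DK
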