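import Mathlib
import Pool.Agent.Lib_MP_6f255c_dk.VDefs

/-!
# Comparing components of different graphs; conversion of bad pairs into edges
-/

set_option autoImplicit false

namespace Pool.Agent.DK

open Classical

variable {α : Type*}

/-- Quotient maps.  `φ` maps `R` onto `R'` and maps edges to equal or adjacent vertices.  Then
`R'` has at most as many components as `R`.

Proof. For `D' ∈ comps G' R'` the set `R.filter (φ · ∈ D')` is nonempty (surjectivity) and closed in `R`
(if `u` is in it and `v ∈ R` is adjacent to `u`, then `φ v = φ u` or `φ v` is adjacent to `φ u` in `R'`, so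
`φ v ∈ D'`). These sets are pairwise disjoint (`comps_disjoint`) and distinct; use `card_le_comps` (G5) with
`P := (comps G' R').image (fun D' => R.filter (φ · ∈ D'))`. -/
theorem card_comps_le_of_map (φ : α → α) {G G' : Finset α → Prop} {R R' : Finset α}
    (hmap : ∀ v ∈ R, φ v ∈ R') (hsurj : ∀ w ∈ R', ∃ v ∈ R, φ v = w)
    (hadj : ∀ u ∈ R, ∀ v ∈ R, Adj G u v → φ u = φ v ∨ Adj G' (φ u) (φ v)) :
    (comps G' R').card ≤ (comps G R).card := by
  have hne : ∀ D' ∈ comps G' R', ∃ v ∈ R, φ v ∈ D' := by
    intro D' hD'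
    obtain ⟨⟨w, hw⟩, hc, _⟩ := (mem_comps_iff G' R' D').1 hD'
    obtain ⟨v, hv, hvw⟩ := hsurj w (hc.1 hw)
    exact ⟨v, hv, hvw ▸ hw⟩
  have hinj : Set.InjOn (fun D' : Finset α => R.filter (fun v => φ v ∈ D'))
      (comps G' R' : Set (Finset α)) := by
    intro D hD D' hD' hEq
    have hD1 := Finset.mem_coe.1 hD
    have hD1' := Finset.mem_coe.1 hD'
    by_contra hdd
    obtain ⟨v, hv, hvD⟩ := hne D hD1
    have hmem : v ∈ R.filter (fun v => φ v ∈ D) := Finset.mem_filter.2 ⟨hv, hvD⟩
    have hEq' : R.filter (fun v => φ v ∈ D) = R.filter (fun v => φ v ∈ D') := hEq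
    rw [hEq'] at hmem
    exact (Finset.disjoint_left.1 (comps_disjoint G' R' hD1 hD1' hdd)) hvD
      (Finset.mem_filter.1 hmem).2
  rw [← Finset.card_image_of_injOn hinj]
  refine card_le_comps G R _ ?_ ?_
  · intro X hX
    obtain ⟨D', hD', rfl⟩ := Finset.mem_image.1 hX
    refine ⟨?_, Finset.filter_subset _ _, ?_⟩
    · obtain ⟨v, hv, hvD⟩ := hne D' hD'
      exact ⟨v, Finset.mem_filter.2 ⟨hv, hvD⟩⟩
    · intro u hu v hv huv
      rw [Finset.mem_filter] at hu ⊢
      refine ⟨hv, ?_⟩
      rcases hadj u hu.1 v hv huv with h | h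
      · rw [← h]
        exact hu.2
      · exact ((mem_comps_iff G' R' D').1 hD').2.1.2 _ hu.2 _ (hmap v hv) h
  · intro X hX Y hY hXY
    obtain ⟨D, hD, rfl⟩ := Finset.mem_image.1 (Finset.mem_coe.1 hX)
    obtain ⟨D', hD', rfl⟩ := Finset.mem_image.1 (Finset.mem_coe.1 hY)
    have hdd : D ≠ D' := fun h => hXY (by rw [h])
    have hdis := comps_disjoint G' R' hD hD' hdd
    change Disjoint (R.filter (fun v => φ v ∈ D)) (R.filter (fun v => φ v ∈ D'))
    rw [Finset.disjoint_left]
    intro v hv hv'
    exact (Finset.disjoint_left.1 hdis) (Finset.mem_filter.1 hv).2 (Finset.mem_filter.1 hv').2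

/-- The image of a component lies in a component (no surjectivity needed).

Proof. Let `v₀ ∈ D`, `D' ∈ comps G' R'` the component of `φ v₀` (`exists_comp`). `D.filter (φ · ∈ D')` is a
nonempty subset of `D` closed in `R` (`D` is closed in `R`), so it equals `D` by `mem_comps_iff`. -/
theorem exists_comp_image (φ : α → α) {G G' : Finset α → Prop} {R R' D : Finset α}
    (hD : D ∈ comps G R) (hmap : ∀ v ∈ R, φ v ∈ R')
    (hadj : ∀ u ∈ R, ∀ v ∈ R, Adj G u v → φ u = φ v ∨ Adj G' (φ u) (φ v)) :
    ∃ D' ∈ comps G' R', ∀ v ∈ D, φ v ∈ D' := by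
  obtain ⟨⟨v₀, hv₀⟩, hc, hm⟩ := (mem_comps_iff G R D).1 hD
  obtain ⟨D', hD', hv₀'⟩ := exists_comp G' R' (hmap v₀ (hc.1 hv₀))
  refine ⟨D', hD', ?_⟩
  have h1 := hm (D.filter (fun v => φ v ∈ D')) (Finset.filter_subset _ _)
    ⟨v₀, Finset.mem_filter.2 ⟨hv₀, hv₀'⟩⟩
    ⟨(Finset.filter_subset _ _).trans hc.1, by
      intro u hu v hv huv
      rw [Finset.mem_filter] at hu ⊢
      refine ⟨hc.2 u hu.1 v hv huv, ?_⟩
      rcases hadj u (hc.1 hu.1) v hv huv with h | h
      · rw [← h]
        exact hu.2
      · exact ((mem_comps_iff G' R' D').1 hD').2.1.2 _ hu.2 _ (hmap v hv) h⟩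
  intro v hv
  rw [← h1] at hv
  exact (Finset.mem_filter.1 hv).2

/-- More edges, fewer components (`card_comps_le_of_map` with `φ = id`). -/
theorem card_comps_mono_adj {G G' : Finset α → Prop} {R : Finset α}
    (h : ∀ u ∈ R, ∀ v ∈ R, Adj G u v → Adj G' u v) :
    (comps G' R).card ≤ (comps G R).card :=
  card_comps_le_of_map id (fun _ hv => hv) (fun w hw => ⟨w, hw, rfl⟩)
    (fun u hu v hv huv => Or.inr (h u hu v hv huv))

/-- Adding edges inside components does not change the components.

Proof. Each `D ∈ comps G R` is closed in `R` for `G'` (an edge `u v` of `G'` with `u ∈ D` lies in one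
component of `G`, which is `D` by disjointness) and minimal (a `G'`-closed set is `G`-closed); so
`comps G R ⊆ comps G' R` by `mem_comps_iff`, and conversely `D' ∈ comps G' R`
contains a vertex `v`, whose component `D ∈ comps G R ⊆ comps G' R` meets `D'`, so `D = D'`. -/
theorem comps_eq_of_joined {G G' : Finset α → Prop} {R : Finset α}
    (h : ∀ u ∈ R, ∀ v ∈ R, Adj G u v → Adj G' u v)
    (h2 : ∀ u ∈ R, ∀ v ∈ R, Adj G' u v → ∃ D ∈ comps G R, u ∈ D ∧ v ∈ D) :
    comps G' R = comps G R := by
  have hsub : ∀ D ∈ comps G R, D ∈ comps G' R := by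
    intro D hD
    obtain ⟨hne, hc, hm⟩ := (mem_comps_iff G R D).1 hD
    refine (mem_comps_iff G' R D).2 ⟨hne, ⟨hc.1, ?_⟩, ?_⟩
    · intro u hu v hv huv
      obtain ⟨D₁, hD₁, hu₁, hv₁⟩ := h2 u (hc.1 hu) v hv huv
      have : D = D₁ := by
        by_contra hne'
        exact (Finset.disjoint_left.1 (comps_disjoint G R hD hD₁ hne')) hu hu₁
      rw [this]
      exact hv₁
    · intro X hXD hXn hX
      exact hm X hXD hXn ⟨hX.1, fun u hu v hv huv => hX.2 u hu v hv (h u (hX.1 hu) v hv huv)⟩
  refine Finset.Subset.antisymm ?_ hsub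
  intro D' hD'
  obtain ⟨⟨v, hv⟩, hc', _⟩ := (mem_comps_iff G' R D').1 hD'
  obtain ⟨D, hD, hvD⟩ := exists_comp G R (hc'.1 hv)
  have hEq : D = D' := by
    by_contra hne'
    exact (Finset.disjoint_left.1 (comps_disjoint G' R (hsub D hD) hD' hne')) hvD hv
  rw [← hEq]
  exact hD

/-- If more edges do not decrease the number of components, the components are the same.

Proof. Every `D' ∈ comps G' R` is closed for `G`, so it is a disjoint union of components of `G`; the map
`comps G R → comps G' R` (component of the larger graph containing `D`) is surjective, hence, the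
cardinalities being finite and `≤`, injective; so every edge of `G'` has both ends in one component of
`G` (otherwise two different components of `G` would have the same image). Conclude with
`comps_eq_of_joined`. -/
theorem comps_eq_of_card_le {G G' : Finset α → Prop} {R : Finset α}
    (h : ∀ u ∈ R, ∀ v ∈ R, Adj G u v → Adj G' u v)
    (hc : (comps G R).card ≤ (comps G' R).card) :
    comps G' R = comps G R := by
  have h1 : ∀ D ∈ comps G R, ∃ D' ∈ comps G' R, D ⊆ D' := by
    intro D hD
    obtain ⟨D', hD', hs⟩ := exists_comp_image (R' := R) (G' := G') id hD (fun v hv => hv)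
      (fun u hu v hv huv => Or.inr (h u hu v hv huv))
    exact ⟨D', hD', fun v hv => hs v hv⟩
  choose! f hf1 hf2 using h1
  have hsurj : ∀ D' ∈ comps G' R, ∃ D ∈ comps G R, f D = D' := by
    intro D' hD'
    obtain ⟨⟨v, hv⟩, hc', _⟩ := (mem_comps_iff G' R D').1 hD'
    obtain ⟨D, hD, hvD⟩ := exists_comp G R (hc'.1 hv)
    refine ⟨D, hD, ?_⟩
    by_contra hne'
    exact (Finset.disjoint_left.1 (comps_disjoint G' R (hf1 D hD) hD' hne')) (hf2 D hD hvD) hv
  have hinj : ∀ D₁ ∈ comps G R, ∀ D₂ ∈ comps G R, f D₁ = f D₂ → D₁ = D₂ := by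
    have hi := Finset.inj_on_of_surj_on_of_card_le (s := comps G R) (t := comps G' R)
      (fun D _ => f D) (fun D hD => hf1 D hD)
      (fun D' hD' => by
        obtain ⟨D, hD, hD2⟩ := hsurj D' hD'
        exact ⟨D, hD, hD2⟩) hc
    intro D₁ hD₁ D₂ hD₂ hEq
    exact hi hD₁ hD₂ hEq
  refine comps_eq_of_joined h ?_
  intro u hu v hv huv
  obtain ⟨D₁, hD₁, hu₁⟩ := exists_comp G R hu
  obtain ⟨D₂, hD₂, hv₂⟩ := exists_comp G R hv
  have hv' : v ∈ f D₁ :=
    ((mem_comps_iff G' R _).1 (hf1 D₁ hD₁)).2.1.2 u (hf2 D₁ hD₁ hu₁) v hv huv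
  have hEq : f D₁ = f D₂ := by
    by_contra hne'
    exact (Finset.disjoint_left.1 (comps_disjoint G' R (hf1 D₁ hD₁) (hf1 D₂ hD₂) hne')) hv'
      (hf2 D₂ hD₂ hv₂)
  have := hinj D₁ hD₁ D₂ hD₂ hEq
  subst this
  exact ⟨D₁, hD₁, hu₁, hv₂⟩

/-- Conversion: in class V the bad pairs which are not edges may be turned into edges.

Proof. Let `F` be a minimal bad set which is not an edge of `Adj B`. As every pair in `B` is an edge of
`Adj B` and members of `B` have at least 2 elements, `|F| ≥ 3`, so `F` is not an edge of `Adj G` either.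
Let `u v ∈ W \ F` be adjacent in `B` but not in `G`: `{u, v}` is a minimal bad set (its proper
subsets are `∅` and singletons) and not an edge of `G` (an edge `{a, b}` of `G` equal to `{u, v}` would
give `Adj G u v` by symmetry), so by `v3` it lies in one component of `W \ F`. Hence
`comps B (W \ F) = comps G (W \ F)` by `comps_eq_of_joined`, which gives `v1` and `v3`.
`v2` and `conn` follow from `card_comps_mono_adj` (on subsets of `W`, `Adj G ≤ Adj B` by `edge`). -/
theorem ClV.conv {W : Finset α} {G B : Finset α → Prop} (h : ClV W G B) : ClV W B B := by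
  have hGB : ∀ R : Finset α, R ⊆ W → ∀ u ∈ R, ∀ v ∈ R, Adj G u v → Adj B u v := by
    intro R hR u hu v hv huv
    exact ⟨huv.1, h.edge u (hR hu) v (hR hv) huv⟩
  -- an `MB W B B` set is an `MB W G B` set
  have hMB : ∀ F, MB W B B F → MB W G B F := by
    intro F hF
    refine ⟨hF.1, ?_⟩
    rintro ⟨u, v, huv, rfl⟩
    exact hF.2 ⟨u, v, ⟨huv.1, hF.1.2.1⟩, rfl⟩
  have hcomps : ∀ F, MB W B B F → comps B (W \ F) = comps G (W \ F) := by
    intro F hF
    refine comps_eq_of_joined (hGB _ Finset.sdiff_subset) ?_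
    intro u hu v hv huv
    by_cases hG : Adj G u v
    · obtain ⟨D, hD, huD⟩ := exists_comp G (W \ F) hu
      exact ⟨D, hD, huD, ((mem_comps_iff G _ D).1 hD).2.1.2 u huD v hv hG⟩
    · have huW := (Finset.mem_sdiff.1 hu).1
      have hvW := (Finset.mem_sdiff.1 hv).1
      have hmb : MB W G B {u, v} := by
        refine ⟨⟨?_, huv.2, ?_⟩, ?_⟩
        · intro z hz
          rcases Finset.mem_insert.1 hz with rfl | hz
          · exact huW
          · rw [Finset.mem_singleton.1 hz]
            exact hvW
        · intro T hT hBT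
          have hcard : T.card < 2 := by
            have := Finset.card_lt_card hT
            rw [Finset.card_pair huv.1] at this
            exact this
          have hcases : T.card = 0 ∨ T.card = 1 := by omega
          rcases hcases with h0 | h1
          · rw [Finset.card_eq_zero] at h0
            subst h0
            exact h.not_bad_empty hBT
          · obtain ⟨z, rfl⟩ := Finset.card_eq_one.1 h1
            exact h.one z hBT
        · rintro ⟨a, b, hab, hEq⟩
          apply hG
          have ha : a ∈ ({u, v} : Finset α) := by rw [hEq]; simp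
          have hb : b ∈ ({u, v} : Finset α) := by rw [hEq]; simp
          have hne := hab.1
          simp only [Finset.mem_insert, Finset.mem_singleton] at ha hb
          rcases ha with rfl | rfl <;> rcases hb with rfl | rfl
          · exact absurd rfl hne
          · exact hab
          · exact adj_symm hab
          · exact absurd rfl hne
      have hdis : Disjoint F {u, v} := by
        rw [Finset.disjoint_right]
        intro z hz
        rcases Finset.mem_insert.1 hz with rfl | hz
        · exact (Finset.mem_sdiff.1 hu).2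
        · rw [Finset.mem_singleton.1 hz]
          exact (Finset.mem_sdiff.1 hv).2
      obtain ⟨D, hD, hsub⟩ := h.v3 F {u, v} (hMB F hF) hmb hdis
      exact ⟨D, hD, hsub (by simp), hsub (by simp)⟩
  refine ⟨h.up, h.one, ?_, h.two, ?_, ?_, ?_, ?_⟩
  · intro u _ v _ huv
    exact huv.2
  · exact (card_comps_mono_adj (hGB W (Finset.Subset.refl _))).trans h.conn
  · intro F hF
    unfold c
    rw [hcomps F hF]
    exact h.v1 F (hMB F hF)
  · intro S hS hSn hSB
    exact (card_comps_mono_adj (hGB (W \ S) Finset.sdiff_subset)).trans (h.v2 S hS hSn hSB)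
  · intro F F' hF hF' hdis
    unfold NC
    rw [hcomps F hF]
    exact h.v3 F F' (hMB F hF) (hMB F' hF') hdis

/-- Tight after conversion implies tight before. -/
theorem ClV.tight_of_conv {W : Finset α} {G B : Finset α → Prop} (h : ClV W G B) {S : Finset α}
    (hS : Tight W B B S) : Tight W G B S := by
  refine ⟨hS.1, hS.2.1, hS.2.2.1, hS.2.2.2.trans ?_⟩
  refine card_comps_mono_adj ?_
  intro u hu v hv huv
  exact ⟨huv.1, h.edge u (Finset.mem_sdiff.1 hu).1 v (Finset.mem_sdiff.1 hv).1 huv⟩

/-- For a set which is tight after conversion, the components of the complement are the same before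
and after (`comps_eq_of_card_le`, both numbers are `|S|`). -/
theorem ClV.comps_tight_conv {W : Finset α} {G B : Finset α → Prop} (h : ClV W G B)
    {S : Finset α} (hS : Tight W B B S) : comps B (W \ S) = comps G (W \ S) := by
  refine comps_eq_of_card_le ?_ ?_
  · intro u hu v hv huv
    exact ⟨huv.1, h.edge u (Finset.mem_sdiff.1 hu).1 v (Finset.mem_sdiff.1 hv).1 huv⟩
  · exact (h.v2 S hS.1 hS.nonempty hS.2.2.1).trans hS.2.2.2

end Pool.Agent.DK
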