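import Mathlib
import Pool.Agent.Lib_MP_6f255c_dk.VConv
import Pool.Agent.Lib_MP_6f255c_dk.ChromSplit

/-!
# Step B: formula, and deletion of one edge

Deletion child: ground set `W`, graph family `delG B x y`, bad family `delBad W B x y`.
Contraction child: ground set `insert x (W \ {x, y})`, graph family
`contrBad (gr (delG B x y)) {x, y} x`, bad family `contrBad (delBad W B x y) {x, y} x`.
-/

set_option autoImplicit false

namespace Pool.Agent.DK

open Classical

variable {α : Type*}

private theorem chrom_congr_b (W : Finset α) (B B' : Finset α → Prop)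
    (h : ∀ T, T ⊆ W → T.Nonempty → (B T ↔ B' T)) (q : ℝ) : chrom W B q = chrom W B' q := by
  unfold chrom
  refine Finset.sum_congr rfl fun π _ => ?_
  have h1 : (∀ S ∈ π.parts, ¬ B S) ↔ ∀ S ∈ π.parts, ¬ B' S := by
    refine forall₂_congr fun S hS => not_congr (h S (π.le hS) (π.nonempty_of_mem_parts hS))
  exact if_congr h1 rfl rfl

private theorem addBad_delBad {W : Finset α} {B : Finset α → Prop}
    (up : ∀ T T' : Finset α, T ⊆ T' → B T → B T') {x y : α} (hxy : Adj B x y) (T : Finset α) :
    addBad (delBad W B x y) {x, y} T ↔ B T := by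
  unfold addBad delBad
  by_cases hT : x ∈ T ∧ y ∈ T
  · have h1 : ({x, y} : Finset α) ⊆ T := by
      intro z hz
      rcases Finset.mem_insert.1 hz with rfl | hz
      · exact hT.1
      · rw [Finset.mem_singleton.1 hz]
        exact hT.2
    exact ⟨fun _ => up _ _ h1 hxy.2, fun _ => Or.inr h1⟩
  · constructor
    · rintro ((⟨_, h⟩ | ⟨h1, h2, _⟩) | h)
      · exact h
      · exact absurd ⟨h1, h2⟩ hT
      · exact absurd ⟨h (Finset.mem_insert_self x _),
          h (Finset.mem_insert_of_mem (Finset.mem_singleton_self y))⟩ hT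
    · intro h
      exact Or.inl (Or.inl ⟨hT, h⟩)

/-- Step B, formula.

Proof. `chrom_split` (P3) for `delBad W B x y`, `S = {x, y}`, `s = x`, and `chrom_congr` (P7):
`addBad (delBad W B x y) {x, y} T ↔ B T` (if `{x, y} ⊆ T` both sides hold, `B {x, y}` and `up`; otherwise both sides
are `B T`). The contraction has one vertex less: sign. -/
theorem stepB_phi {W : Finset α} {B : Finset α → Prop} (h : ClV W B B)
    {x y : α} (hx : x ∈ W) (hy : y ∈ W) (hxy : Adj B x y) {q : ℝ} (hq : 1 < q) :
    Phi W B q = Phi W (delBad W B x y) q +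
      Phi (insert x (W \ {x, y})) (contrBad (delBad W B x y) {x, y} x) q := by
  have hS : ({x, y} : Finset α) ⊆ W := by
    intro z hz
    rcases Finset.mem_insert.1 hz with rfl | hz
    · exact hx
    · rw [Finset.mem_singleton.1 hz]
      exact hy
  have h1 := chrom_split W (delBad W B x y) {x, y} x hS (Finset.mem_insert_self x _) q
  rw [chrom_congr_b W (addBad (delBad W B x y) {x, y}) B
    (fun T _ _ => addBad_delBad h.up hxy T) q] at h1
  have h2 : (insert x (W \ {x, y})).card + 1 = W.card := by
    rw [Finset.card_insert_of_notMem, Finset.card_sdiff_of_subset hS, Finset.card_pair hxy.1]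
    · have := Finset.card_le_card hS
      rw [Finset.card_pair hxy.1] at this
      omega
    · intro hm
      exact (Finset.mem_sdiff.1 hm).2 (Finset.mem_insert_self x _)
  unfold Phi
  rw [← h2, h1, pow_succ]
  ring

/-- removing one edge creates at most one component; if it creates one, the edge joined two
different components of the smaller graph.

Proof. `comps (delG B x y) R` versus `comps B R`: if `x ∉ R` or `y ∉ R` or `x, y` are in one component of the
smaller graph then the two sets of components are equal (`comps_eq_of_joined`). Otherwise let `D₁ ∋ x`,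
`D₂ ∋ y` be the components of the smaller graph; then the components of `B` are those of the smaller graph
other than `D₁, D₂`, and `D₁ ∪ D₂`. -/
theorem card_comps_delG {B : Finset α → Prop} {x y : α} (hxy : Adj B x y) (R : Finset α) :
    ((¬ (x ∈ R ∧ y ∈ R) ∨ ∃ D ∈ comps (delG B x y) R, x ∈ D ∧ y ∈ D) ∧
      comps (delG B x y) R = comps B R) ∨
    ((x ∈ R ∧ y ∈ R ∧ ∀ D ∈ comps (delG B x y) R, ¬ (x ∈ D ∧ y ∈ D)) ∧
      (comps (delG B x y) R).card = (comps B R).card + 1) := by
  have hle : ∀ u v, Adj (delG B x y) u v → Adj B u v := fun u v h => (adj_delG.1 h).1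
  have hcl : ∀ X, ClosedIn B R X → ClosedIn (delG B x y) R X := fun X hX =>
    ⟨hX.1, fun u hu v hv huv => hX.2 u hu v hv (hle u v huv)⟩
  by_cases h0 : x ∈ R ∧ y ∈ R
  · by_cases h1 : ∃ D ∈ comps (delG B x y) R, x ∈ D ∧ y ∈ D
    · refine Or.inl ⟨Or.inr h1, ?_⟩
      refine (comps_eq_of_joined (fun u _ v _ huv => hle u v huv) ?_).symm
      intro u hu v hv huv
      by_cases he : ({u, v} : Finset α) = {x, y}
      · obtain ⟨D, hD, hxD, hyD⟩ := h1
        have hsub : ∀ z ∈ ({x, y} : Finset α), z ∈ D := by
          intro z hz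
          rcases Finset.mem_insert.1 hz with rfl | hz
          · exact hxD
          · rw [Finset.mem_singleton.1 hz]
            exact hyD
        refine ⟨D, hD, hsub u ?_, hsub v ?_⟩
        · rw [← he]
          exact Finset.mem_insert_self u _
        · rw [← he]
          exact Finset.mem_insert_of_mem (Finset.mem_singleton_self v)
      · obtain ⟨D, hD, huD⟩ := exists_comp (delG B x y) R hu
        exact ⟨D, hD, huD, ((mem_comps_iff _ R D).1 hD).2.1.2 u huD v hv
          (adj_delG.2 ⟨huv, he⟩)⟩
    · refine Or.inr ⟨⟨h0.1, h0.2, fun D hD hxy' => h1 ⟨D, hD, hxy'⟩⟩, ?_⟩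
      obtain ⟨D₁, hD₁, hx₁⟩ := exists_comp (delG B x y) R h0.1
      obtain ⟨D₂, hD₂, hy₂⟩ := exists_comp (delG B x y) R h0.2
      have hne : D₁ ≠ D₂ := fun e => h1 ⟨D₁, hD₁, hx₁, e ▸ hy₂⟩
      obtain ⟨hn₁, hc₁, hm₁⟩ := (mem_comps_iff _ R D₁).1 hD₁
      obtain ⟨hn₂, hc₂, hm₂⟩ := (mem_comps_iff _ R D₂).1 hD₂
      have hpair : ∀ u v : α, ({u, v} : Finset α) = {x, y} →
          (u = x ∧ v = y) ∨ (u = y ∧ v = x) := by
        intro u v he
        have hu : u ∈ ({x, y} : Finset α) := he ▸ Finset.mem_insert_self u _
        have hv : v ∈ ({x, y} : Finset α) := he ▸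
          Finset.mem_insert_of_mem (Finset.mem_singleton_self v)
        have hx' : x ∈ ({u, v} : Finset α) := he.symm ▸ Finset.mem_insert_self x _
        have hy' : y ∈ ({u, v} : Finset α) := he.symm ▸
          Finset.mem_insert_of_mem (Finset.mem_singleton_self y)
        simp only [Finset.mem_insert, Finset.mem_singleton] at hu hv hx' hy'
        rcases hu with rfl | rfl
        · rcases hv with rfl | rfl
          · exact absurd (hy'.elim id id).symm hxy.1
          · exact Or.inl ⟨rfl, rfl⟩
        · rcases hv with rfl | rfl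
          · exact Or.inr ⟨rfl, rfl⟩
          · exact absurd (hx'.elim id id) hxy.1
      -- the union is a component of the larger graph
      have hU : D₁ ∪ D₂ ∈ comps B R := by
        refine (mem_comps_iff B R _).2 ⟨hn₁.mono Finset.subset_union_left,
          ⟨Finset.union_subset hc₁.1 hc₂.1, ?_⟩, ?_⟩
        · intro u hu v hv huv
          by_cases he : ({u, v} : Finset α) = {x, y}
          · rcases hpair u v he with ⟨_, rfl⟩ | ⟨_, rfl⟩
            · exact Finset.mem_union_right _ hy₂
            · exact Finset.mem_union_left _ hx₁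
          · have huv' : Adj (delG B x y) u v := adj_delG.2 ⟨huv, he⟩
            rcases Finset.mem_union.1 hu with hu | hu
            · exact Finset.mem_union_left _ (hc₁.2 u hu v hv huv')
            · exact Finset.mem_union_right _ (hc₂.2 u hu v hv huv')
        · intro X hX ⟨v, hv⟩ hXc
          have hX' := hcl X hXc
          have key : D₁ ⊆ X ∧ D₂ ⊆ X := by
            rcases Finset.mem_union.1 (hX hv) with hv' | hv'
            · have h2 := comp_subset_of_closed _ R X hX' hD₁ hv' hv
              have hyX : y ∈ X := hXc.2 x (h2 hx₁) y h0.2 hxy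
              exact ⟨h2, comp_subset_of_closed _ R X hX' hD₂ hy₂ hyX⟩
            · have h2 := comp_subset_of_closed _ R X hX' hD₂ hv' hv
              have hxX : x ∈ X := hXc.2 y (h2 hy₂) x h0.1 (adj_symm hxy)
              exact ⟨comp_subset_of_closed _ R X hX' hD₁ hx₁ hxX, h2⟩
          exact Finset.Subset.antisymm hX (Finset.union_subset key.1 key.2)
      -- the other components
      have hO : ∀ D ∈ comps (delG B x y) R, D ≠ D₁ → D ≠ D₂ → D ∈ comps B R := by
        intro D hD hd1 hd2
        obtain ⟨hn, hc, hm⟩ := (mem_comps_iff _ R D).1 hD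
        refine (mem_comps_iff B R D).2 ⟨hn, ⟨hc.1, ?_⟩, fun X hX hXn hXc => hm X hX hXn (hcl X hXc)⟩
        intro u hu v hv huv
        by_cases he : ({u, v} : Finset α) = {x, y}
        · exfalso
          rcases hpair u v he with ⟨rfl, _⟩ | ⟨rfl, _⟩
          · exact Finset.disjoint_left.1 (comps_disjoint _ R hD hD₁ hd1) hu hx₁
          · exact Finset.disjoint_left.1 (comps_disjoint _ R hD hD₂ hd2) hu hy₂
        · exact hc.2 u hu v hv (adj_delG.2 ⟨huv, he⟩)
      have hEq : comps B R = insert (D₁ ∪ D₂) (((comps (delG B x y) R).erase D₁).erase D₂) := by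
        ext D
        rw [Finset.mem_insert, Finset.mem_erase, Finset.mem_erase]
        constructor
        · intro hD
          obtain ⟨⟨v, hv⟩, hc, _⟩ := (mem_comps_iff B R D).1 hD
          obtain ⟨D', hD', hv'⟩ := exists_comp (delG B x y) R (hc.1 hv)
          have hsame : ∀ E ∈ comps B R, v ∈ E → D = E := by
            intro E hE hvE
            by_contra hDE
            exact Finset.disjoint_left.1 (comps_disjoint B R hD hE hDE) hv hvE
          by_cases e1 : D' = D₁
          · exact Or.inl (hsame _ hU (Finset.mem_union_left _ (e1 ▸ hv')))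
          · by_cases e2 : D' = D₂
            · exact Or.inl (hsame _ hU (Finset.mem_union_right _ (e2 ▸ hv')))
            · rw [hsame _ (hO D' hD' e1 e2) hv']
              exact Or.inr ⟨e2, e1, hD'⟩
        · rintro (rfl | ⟨e2, e1, hD⟩)
          · exact hU
          · exact hO D hD e1 e2
      have hnot : D₁ ∪ D₂ ∉ ((comps (delG B x y) R).erase D₁).erase D₂ := by
        intro hm
        rw [Finset.mem_erase, Finset.mem_erase] at hm
        exact Finset.disjoint_left.1 (comps_disjoint _ R hm.2.2 hD₁ hm.2.1)
          (Finset.mem_union_left _ hx₁) hx₁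
      rw [hEq, Finset.card_insert_of_notMem hnot,
        Finset.card_erase_of_mem (Finset.mem_erase.2 ⟨hne.symm, hD₂⟩),
        Finset.card_erase_of_mem hD₁]
      have h2 : 1 < (comps (delG B x y) R).card :=
        Finset.one_lt_card.2 ⟨D₁, hD₁, D₂, hD₂, hne⟩
      omega
  · refine Or.inl ⟨Or.inl h0, ?_⟩
    refine comps_congr_adj fun u hu v hv => ?_
    rw [adj_delG]
    constructor
    · exact fun h => h.1
    · intro h
      refine ⟨h, fun he => h0 ⟨?_, ?_⟩⟩
      · have hx' : x ∈ ({u, v} : Finset α) := he.symm ▸ Finset.mem_insert_self x _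
        rcases Finset.mem_insert.1 hx' with rfl | hx'
        · exact hu
        · rw [Finset.mem_singleton.1 hx']
          exact hv
      · have hy' : y ∈ ({u, v} : Finset α) := he.symm ▸
          Finset.mem_insert_of_mem (Finset.mem_singleton_self y)
        rcases Finset.mem_insert.1 hy' with rfl | hy'
        · exact hu
        · rw [Finset.mem_singleton.1 hy']
          exact hv

end Pool.Agent.DK
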