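import Mathlib
import Pool.Agent.Lib_MP_6f255c_dk.StepBPhi
import Pool.Agent.Lib_MP_6f255c_dk.VConv

/-!
# Step B, contraction child: adjacency and numbers of components
-/

set_option autoImplicit false

namespace Pool.Agent.DK

open Classical

variable {α : Type*}

/-- adjacency of the contraction child: `conG B x y := contrBad (gr (delG B x y)) {x, y} x`. -/
noncomputable def conG (B : Finset α → Prop) (x y : α) : Finset α → Prop :=
  contrBad (gr (delG B x y)) {x, y} x

/-- bad sets of the contraction child. -/
noncomputable def conBad (W : Finset α) (B : Finset α → Prop) (x y : α) : Finset α → Prop :=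
  contrBad (delBad W B x y) {x, y} x

theorem adj_conG {B : Finset α → Prop} {x y u v : α} (hxy : x ≠ y) (hux : u ≠ x) (huy : u ≠ y) :
    (v ≠ x → v ≠ y → (Adj (conG B x y) u v ↔ Adj B u v)) ∧
    (Adj (conG B x y) u x ↔ (Adj B u x ∨ Adj B u y)) := by
  have hnp : ∀ w : α, ({u, w} : Finset α) ≠ {x, y} := by
    intro w he
    have h : u ∈ ({x, y} : Finset α) := he ▸ Finset.mem_insert_self u _
    rcases Finset.mem_insert.1 h with h | h
    · exact hux h
    · exact huy (Finset.mem_singleton.1 h)
  constructor
  · intro hvx _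
    have hx : x ∉ ({u, v} : Finset α) := by
      intro h
      rcases Finset.mem_insert.1 h with h | h
      · exact hux h.symm
      · exact hvx (Finset.mem_singleton.1 h).symm
    have h1 : conG B x y {u, v} ↔ gr (delG B x y) {u, v} := by
      unfold conG contrBad
      rw [if_neg hx]
    have h2 : Adj (conG B x y) u v ↔ Adj (gr (delG B x y)) u v := by
      unfold Adj
      rw [h1]
    rw [h2, adj_gr, adj_delG]
    exact ⟨fun h => h.1, fun h => ⟨h, hnp v⟩⟩
  · have hx : x ∈ ({u, x} : Finset α) := Finset.mem_insert_of_mem (Finset.mem_singleton_self x)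
    have h1 : conG B x y {u, x} ↔ gr (delG B x y) ({u, x} ∪ {x, y}) := by
      unfold conG contrBad
      rw [if_pos hx]
    have hmem : ∀ a : α, a ∈ (({u, x} : Finset α) ∪ {x, y}) → a = u ∨ a = x ∨ a = y := by
      intro a ha
      simp only [Finset.mem_union, Finset.mem_insert, Finset.mem_singleton] at ha
      rcases ha with (h | h) | (h | h)
      · exact Or.inl h
      · exact Or.inr (Or.inl h)
      · exact Or.inr (Or.inl h)
      · exact Or.inr (Or.inr h)
    have hu' : u ∈ (({u, x} : Finset α) ∪ {x, y}) := by simp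
    have hx' : x ∈ (({u, x} : Finset α) ∪ {x, y}) := by simp
    have hy' : y ∈ (({u, x} : Finset α) ∪ {x, y}) := by simp
    constructor
    · rintro ⟨_, h⟩
      obtain ⟨a, ha, b, hb, hab⟩ := h1.1 h
      obtain ⟨hab1, hab2⟩ := adj_delG.1 (show Adj (delG B x y) a b from hab)
      rcases hmem a ha with rfl | rfl | rfl
      · rcases hmem b hb with rfl | rfl | rfl
        · exact absurd rfl hab1.1
        · exact Or.inl hab1
        · exact Or.inr hab1
      · rcases hmem b hb with rfl | rfl | rfl
        · exact Or.inl (adj_symm hab1)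
        · exact absurd rfl hab1.1
        · exact absurd rfl hab2
      · rcases hmem b hb with rfl | rfl | rfl
        · exact Or.inr (adj_symm hab1)
        · exact absurd (Finset.pair_comm _ _) hab2
        · exact absurd rfl hab1.1
    · rintro (h | h)
      · exact ⟨hux, h1.2 ⟨u, hu', x, hx', adj_delG.2 ⟨h, hnp x⟩⟩⟩
      · exact ⟨hux, h1.2 ⟨u, hu', y, hy', adj_delG.2 ⟨h, hnp y⟩⟩⟩

/-- number of components of the contraction child minus `S`, `x ∉ S`: contracting an edge does not change
the number of components.

Proof. `≤`: `card_comps_le_of_map` for the map `y ↦ x`. `≥`: `card_comps_le_of_map` does not apply in this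
direction; use `card_le_comps`: for every component `D` of `W \ S` the set `D.image φ` is closed and nonempty
in the child, and these are pairwise disjoint (`x, y` are in the same component of `W \ S`). -/
theorem c_con_of_not_mem {W : Finset α} {B : Finset α → Prop} {x y : α}
    (hx : x ∈ W) (hy : y ∈ W) (hxy : Adj B x y) {S : Finset α} (hS : S ⊆ W \ {x, y}) :
    c (insert x (W \ {x, y})) (conG B x y) S = c W B S := by
  have hSx : x ∉ S := fun h => (Finset.mem_sdiff.1 (hS h)).2 (Finset.mem_insert_self x _)
  have hSy : y ∉ S := fun h => (Finset.mem_sdiff.1 (hS h)).2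
    (Finset.mem_insert_of_mem (Finset.mem_singleton_self y))
  have hxR : x ∈ W \ S := Finset.mem_sdiff.2 ⟨hx, hSx⟩
  have hyR : y ∈ W \ S := Finset.mem_sdiff.2 ⟨hy, hSy⟩
  have hmemR' : ∀ w : α, w ∈ insert x (W \ {x, y}) \ S ↔ (w ∈ W \ S ∧ w ≠ y) := by
    intro w
    simp only [Finset.mem_sdiff, Finset.mem_insert, Finset.mem_singleton, not_or]
    constructor
    · rintro ⟨rfl | ⟨h1, h2, h3⟩, h4⟩
      · exact ⟨⟨hx, h4⟩, hxy.1⟩
      · exact ⟨⟨h1, h4⟩, h3⟩
    · rintro ⟨⟨h1, h4⟩, h3⟩
      by_cases hwx : w = x
      · exact ⟨Or.inl hwx, h4⟩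
      · exact ⟨Or.inr ⟨h1, hwx, h3⟩, h4⟩
  -- adjacency under the collapse map
  have hadj : ∀ u v : α, Adj B u v → (if u = y then x else u) = (if v = y then x else v) ∨
      Adj (conG B x y) (if u = y then x else u) (if v = y then x else v) := by
    intro u v huv
    by_cases huy : u = y
    · rw [if_pos huy]
      by_cases hvy : v = y
      · exact absurd (huy.trans hvy.symm) huv.1
      · rw [if_neg hvy]
        by_cases hvx : v = x
        · exact Or.inl hvx.symm
        · refine Or.inr (adj_symm ?_)
          refine ((adj_conG (v := x) hxy.1 hvx hvy).2).2 (Or.inr (adj_symm ?_))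
          rw [← huy]
          exact huv
    · rw [if_neg huy]
      by_cases hvy : v = y
      · rw [if_pos hvy]
        by_cases hux : u = x
        · exact Or.inl hux
        · refine Or.inr (((adj_conG (v := x) hxy.1 hux huy).2).2 (Or.inr ?_))
          rw [← hvy]
          exact huv
      · rw [if_neg hvy]
        by_cases hux : u = x
        · by_cases hvx : v = x
          · exact absurd (hux.trans hvx.symm) huv.1
          · refine Or.inr (adj_symm ?_)
            rw [hux]
            refine ((adj_conG (v := x) hxy.1 hvx hvy).2).2 (Or.inl (adj_symm ?_))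
            rw [← hux]
            exact huv
        · by_cases hvx : v = x
          · rw [hvx]
            refine Or.inr (((adj_conG (v := x) hxy.1 hux huy).2).2 (Or.inl ?_))
            rw [← hvx]
            exact huv
          · exact Or.inr (((adj_conG hxy.1 hux huy).1 hvx hvy).2 huv)
  unfold c
  apply le_antisymm
  · refine card_comps_le_of_map (fun w => if w = y then x else w) ?_ ?_ ?_
    · intro v hv
      rw [hmemR']
      by_cases hvy : v = y
      · simp only [if_pos hvy]
        exact ⟨hxR, hxy.1⟩
      · simp only [if_neg hvy]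
        exact ⟨hv, hvy⟩
    · intro w hw
      obtain ⟨h1, h2⟩ := (hmemR' w).1 hw
      exact ⟨w, h1, if_neg h2⟩
    · intro u _ v _ huv
      exact hadj u v huv
  · -- the images of the components are closed and pairwise disjoint
    have hcomp : ∀ D ∈ comps B (W \ S), x ∈ D ↔ y ∈ D := by
      intro D hD
      have hc := ((mem_comps_iff B (W \ S) D).1 hD).2.1
      exact ⟨fun h => hc.2 x h y hyR hxy, fun h => hc.2 y h x hxR (adj_symm hxy)⟩
    have herase : ∀ D ∈ comps B (W \ S), (D.erase y).Nonempty := by
      intro D hD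
      obtain ⟨v, hv⟩ := ((mem_comps_iff B (W \ S) D).1 hD).1
      by_cases hvy : v = y
      · exact ⟨x, Finset.mem_erase.2 ⟨hxy.1, (hcomp D hD).2 (hvy ▸ hv)⟩⟩
      · exact ⟨v, Finset.mem_erase.2 ⟨hvy, hv⟩⟩
    have hinj : Set.InjOn (fun D : Finset α => D.erase y) (comps B (W \ S) : Set (Finset α)) := by
      intro D hD D' hD' hEq
      by_contra hne
      obtain ⟨v, hv⟩ := herase D (Finset.mem_coe.1 hD)
      have hEq' : D.erase y = D'.erase y := hEq
      have hv' := hv
      rw [hEq'] at hv'
      exact Finset.disjoint_left.1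
        (comps_disjoint B (W \ S) (Finset.mem_coe.1 hD) (Finset.mem_coe.1 hD') hne)
        (Finset.mem_of_mem_erase hv) (Finset.mem_of_mem_erase hv')
    rw [← Finset.card_image_of_injOn hinj]
    refine card_le_comps _ _ _ ?_ ?_
    · intro X hX
      obtain ⟨D, hD, rfl⟩ := Finset.mem_image.1 hX
      have hc := ((mem_comps_iff B (W \ S) D).1 hD).2.1
      refine ⟨herase D hD, ?_, ?_⟩
      · intro w hw
        obtain ⟨h1, h2⟩ := Finset.mem_erase.1 hw
        exact (hmemR' w).2 ⟨hc.1 h2, h1⟩
      · intro u hu v hv huv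
        obtain ⟨huy, huD⟩ := Finset.mem_erase.1 hu
        obtain ⟨hvR, hvy⟩ := (hmemR' v).1 hv
        refine Finset.mem_erase.2 ⟨hvy, ?_⟩
        by_cases hux : u = x
        · -- `u = x`: `v` is adjacent to `x` or to `y`
          have hvx : v ≠ x := fun h => huv.1 (hux.trans h.symm)
          rw [hux] at huv huD
          rcases ((adj_conG (v := x) hxy.1 hvx hvy).2).1 (adj_symm huv) with h | h
          · exact hc.2 x huD v hvR (adj_symm h)
          · exact hc.2 y ((hcomp D hD).1 huD) v hvR (adj_symm h)
        · by_cases hvx : v = x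
          · rw [hvx] at huv ⊢
            rcases ((adj_conG (v := x) hxy.1 hux huy).2).1 huv with h | h
            · exact hc.2 u huD x hxR h
            · exact (hcomp D hD).2 (hc.2 u huD y hyR h)
          · exact hc.2 u huD v hvR (((adj_conG hxy.1 hux huy).1 hvx hvy).1 huv)
    · intro X hX Y hY hXY
      obtain ⟨D, hD, rfl⟩ := Finset.mem_image.1 (Finset.mem_coe.1 hX)
      obtain ⟨D', hD', rfl⟩ := Finset.mem_image.1 (Finset.mem_coe.1 hY)
      have hdd : D ≠ D' := fun h => hXY (by rw [h])
      have hdis := comps_disjoint B (W \ S) hD hD' hdd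
      change Disjoint (D.erase y) (D'.erase y)
      exact hdis.mono (Finset.erase_subset _ _) (Finset.erase_subset _ _)

/-- number of components of the contraction child minus `S`, `x ∈ S`: that of `W` minus `S ∪ {x, y}`. -/
theorem c_con_of_mem {W : Finset α} {B : Finset α → Prop} {x y : α} (hxy : Adj B x y)
    {S : Finset α} (hS : x ∈ S) :
    c (insert x (W \ {x, y})) (conG B x y) S = c W B (insert y S) := by
  have hR : insert x (W \ {x, y}) \ S = W \ insert y S := by
    ext w
    simp only [Finset.mem_sdiff, Finset.mem_insert, Finset.mem_singleton, not_or]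
    constructor
    · rintro ⟨rfl | ⟨h1, _, h3⟩, h4⟩
      · exact absurd hS h4
      · exact ⟨h1, h3, h4⟩
    · rintro ⟨h1, h3, h4⟩
      exact ⟨Or.inr ⟨h1, fun h => h4 (h ▸ hS), h3⟩, h4⟩
  unfold c
  rw [hR]
  congr 1
  refine comps_congr_adj fun u hu v hv => ?_
  simp only [Finset.mem_sdiff, Finset.mem_insert, not_or] at hu hv
  have hux : u ≠ x := fun h => hu.2.2 (h ▸ hS)
  have hvx : v ≠ x := fun h => hv.2.2 (h ▸ hS)
  exact (adj_conG hxy.1 hux hu.2.1).1 hvx hv.2.1

end Pool.Agent.DK
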