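import Mathlib
import Pool.Agent.Lib_MP_6f255c_dk.VDefs
import Pool.Agent.Lib_MP_6f255c_dk.ChromGlueE

/-!
# Step C: an adjacent separating pair `a b` (canonical states, `G = B`)

`P` and `Q = (W \ {a, b}) \ P` are nonempty and closed in `W \ {a, b}` (unions of components).
The pieces are `insert a (insert b P)` and `insert a (insert b Q)`.
-/

set_option autoImplicit false

namespace Pool.Agent.DK

open Classical

variable {α : Type*}

/-- `(a, b, P)` is a split: `a b` is an edge, `P` and its complement `Q` in `W \ {a, b}` are nonempty unions of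
components. -/
structure Split (W : Finset α) (B : Finset α → Prop) (a b : α) (P : Finset α) : Prop where
  ha : a ∈ W
  hb : b ∈ W
  hab : Adj B a b
  hP : ClosedIn B (W \ {a, b}) P
  hne : P.Nonempty
  hne' : ((W \ {a, b}) \ P).Nonempty

/-- the complementary split. -/
theorem Split.compl {W : Finset α} {B : Finset α → Prop} {a b : α} {P : Finset α}
    (h : Split W B a b P) : Split W B a b ((W \ {a, b}) \ P) where
  ha := h.ha
  hb := h.hb
  hab := h.hab
  hP := by
    refine ⟨Finset.sdiff_subset, fun u hu v hv huv => ?_⟩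
    rw [Finset.mem_sdiff] at hu ⊢
    exact ⟨hv, fun hvP => hu.2 (h.hP.2 v hvP u hu.1 (adj_symm huv))⟩
  hne := h.hne'
  hne' := by
    rw [Finset.sdiff_sdiff_eq_self h.hP.1]
    exact h.hne

/-- No minimal bad non-edge meets both `P` and `Q`. -/
def NoSpread (W : Finset α) (B : Finset α → Prop) (a b : α) (P : Finset α) : Prop :=
  ∀ F, MB W B B F → F ⊆ insert a (insert b P) ∨ F ⊆ insert a (insert b ((W \ {a, b}) \ P))

/-- Step C, formula.

Proof. `chrom_glue_edge` (P5) for `C := {P, Q}` (two different disjoint sets; the union is `W \ {a, b}`,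
and `insert a (insert b (W \ {a, b})) = W`). `hB`, (→): a bad `T ⊆ W` contains a minimal bad `F`. If
`F` is an edge `{u, v}`, `F` does not meet both `P` and `Q` (closedness), so `F ⊆ P + a + b` or
`F ⊆ Q + a + b`. If `F` is not an edge use `NoSpread`. Then normalise: `|P| + 2 + |Q| + 2 = |W| + 2` has the
parity of `|W|`. -/
theorem stepC_phi {W : Finset α} {B : Finset α → Prop} (h : ClV W B B)
    {a b : α} {P : Finset α} (hs : Split W B a b P) (hns : NoSpread W B a b P)
    {q : ℝ} (hq : 1 < q) :
    Phi W B q = Phi (insert a (insert b P)) B q *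
      Phi (insert a (insert b ((W \ {a, b}) \ P))) B q := by
  have hs' := hs.compl
  set Q : Finset α := (W \ {a, b}) \ P with hQ
  have hPR : P ⊆ W \ {a, b} := hs.hP.1
  have hQR : Q ⊆ W \ {a, b} := Finset.sdiff_subset
  have hdPQ : Disjoint P Q := Finset.disjoint_sdiff
  have hPQ : P ≠ Q := by
    intro e
    obtain ⟨x, hx⟩ := hs.hne
    exact Finset.disjoint_left.1 hdPQ hx (e ▸ hx)
  have hun : P ∪ Q = W \ {a, b} := Finset.union_sdiff_of_subset hPR
  have habW : ({a, b} : Finset α) ⊆ W := by
    intro x hx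
    rcases Finset.mem_insert.1 hx with rfl | hx
    · exact hs.ha
    · rw [Finset.mem_singleton.1 hx]
      exact hs.hb
  have hW : insert a (insert b (P ∪ Q)) = W := by
    rw [hun]
    ext x
    simp only [Finset.mem_insert, Finset.mem_sdiff, Finset.mem_singleton]
    constructor
    · rintro (rfl | rfl | hx)
      · exact hs.ha
      · exact hs.hb
      · exact hx.1
    · intro hx
      by_cases h1 : x = a
      · exact Or.inl h1
      · by_cases h2 : x = b
        · exact Or.inr (Or.inl h2)
        · exact Or.inr (Or.inr ⟨hx, fun h3 => h3.elim h1 h2⟩)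
  have hbi : ({P, Q} : Finset (Finset α)).biUnion id = P ∪ Q := by
    rw [Finset.biUnion_insert, Finset.singleton_biUnion]
    rfl
  have haR : a ∉ W \ {a, b} := fun h1 => (Finset.mem_sdiff.1 h1).2 (Finset.mem_insert_self _ _)
  have hbR : b ∉ W \ {a, b} := fun h1 => (Finset.mem_sdiff.1 h1).2
    (Finset.mem_insert_of_mem (Finset.mem_singleton_self _))
  have hmem : ∀ K ∈ ({P, Q} : Finset (Finset α)), K ⊆ W \ {a, b} := by
    intro K hK
    rcases Finset.mem_insert.1 hK with rfl | hK
    · exact hPR
    · rw [Finset.mem_singleton.1 hK]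
      exact hQR
  -- the edges
  have hedge : ∀ u v : α, u ∈ W → v ∈ W → Adj B u v →
      ({u, v} : Finset α) ⊆ insert a (insert b P) ∨ ({u, v} : Finset α) ⊆ insert a (insert b Q) := by
    intro u v hu hv huv
    have hcase : ∀ x ∈ W, x = a ∨ x = b ∨ x ∈ P ∨ x ∈ Q := by
      intro x hx
      rw [← hW] at hx
      rcases Finset.mem_insert.1 hx with hx | hx
      · exact Or.inl hx
      · rcases Finset.mem_insert.1 hx with hx | hx
        · exact Or.inr (Or.inl hx)
        · exact Or.inr (Or.inr (Finset.mem_union.1 hx))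
    have haX : ∀ X : Finset α, a ∈ insert a (insert b X) := fun X => Finset.mem_insert_self _ _
    have hbX : ∀ X : Finset α, b ∈ insert a (insert b X) := fun X =>
      Finset.mem_insert_of_mem (Finset.mem_insert_self _ _)
    have hX : ∀ (X : Finset α) (x : α), x ∈ X → x ∈ insert a (insert b X) := fun X x hx =>
      Finset.mem_insert_of_mem (Finset.mem_insert_of_mem hx)
    have hsub : ∀ X : Finset α, u ∈ insert a (insert b X) → v ∈ insert a (insert b X) →
        ({u, v} : Finset α) ⊆ insert a (insert b X) := by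
      intro X h1 h2 x hx
      rcases Finset.mem_insert.1 hx with rfl | hx
      · exact h1
      · rw [Finset.mem_singleton.1 hx]
        exact h2
    rcases hcase u hu with hu1 | hu1 | hu1 | hu1 <;> rcases hcase v hv with hv1 | hv1 | hv1 | hv1
    · exact Or.inl (hsub P (hu1 ▸ haX P) (hv1 ▸ haX P))
    · exact Or.inl (hsub P (hu1 ▸ haX P) (hv1 ▸ hbX P))
    · exact Or.inl (hsub P (hu1 ▸ haX P) (hX P v hv1))
    · exact Or.inr (hsub Q (hu1 ▸ haX Q) (hX Q v hv1))
    · exact Or.inl (hsub P (hu1 ▸ hbX P) (hv1 ▸ haX P))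
    · exact Or.inl (hsub P (hu1 ▸ hbX P) (hv1 ▸ hbX P))
    · exact Or.inl (hsub P (hu1 ▸ hbX P) (hX P v hv1))
    · exact Or.inr (hsub Q (hu1 ▸ hbX Q) (hX Q v hv1))
    · exact Or.inl (hsub P (hX P u hu1) (hv1 ▸ haX P))
    · exact Or.inl (hsub P (hX P u hu1) (hv1 ▸ hbX P))
    · exact Or.inl (hsub P (hX P u hu1) (hX P v hv1))
    · exact absurd (hs.hP.2 u hu1 v (hQR hv1) huv)
        fun h1 => Finset.disjoint_left.1 hdPQ h1 hv1
    · exact Or.inr (hsub Q (hX Q u hu1) (hv1 ▸ haX Q))
    · exact Or.inr (hsub Q (hX Q u hu1) (hv1 ▸ hbX Q))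
    · exact absurd (hs'.hP.2 u hu1 v (hPR hv1) huv)
        fun h1 => Finset.disjoint_left.1 hdPQ hv1 h1
    · exact Or.inr (hsub Q (hX Q u hu1) (hX Q v hv1))
  have hglue := chrom_glue_edge a b hs.hab.1 ({P, Q} : Finset (Finset α)) B
    ⟨P, Finset.mem_insert_self _ _⟩
    (by
      intro x hx y hy hxy
      rw [Finset.mem_coe, Finset.mem_insert, Finset.mem_singleton] at hx hy
      rcases hx with rfl | rfl <;> rcases hy with rfl | rfl
      · exact absurd rfl hxy
      · exact hdPQ
      · exact hdPQ.symm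
      · exact absurd rfl hxy)
    (fun K hK h1 => haR (hmem K hK h1)) (fun K hK h1 => hbR (hmem K hK h1))
    h.not_bad_empty h.one hs.hab.2 h.up
    (by
      intro T hT
      rw [hbi, hW] at hT
      constructor
      · intro hBT
        obtain ⟨F, hFT, hF⟩ := exists_minBad hT hBT
        have hFK : F ⊆ insert a (insert b P) ∨ F ⊆ insert a (insert b Q) := by
          by_cases hE : IsEdge B F
          · obtain ⟨u, v, huv, rfl⟩ := hE
            exact hedge u v (hF.1 (Finset.mem_insert_self _ _))
              (hF.1 (Finset.mem_insert_of_mem (Finset.mem_singleton_self _))) huv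
          · exact hns F ⟨hF, hE⟩
        rcases hFK with h1 | h1
        · exact ⟨P, Finset.mem_insert_self _ _, h.up F _ (Finset.subset_inter hFT h1) hF.2.1⟩
        · exact ⟨Q, Finset.mem_insert_of_mem (Finset.mem_singleton_self _),
            h.up F _ (Finset.subset_inter hFT h1) hF.2.1⟩
      · rintro ⟨K, _, h1⟩
        exact h.up _ T Finset.inter_subset_left h1) q
  have hcard : ({P, Q} : Finset (Finset α)).card = 2 := Finset.card_pair hPQ
  rw [hbi, hW, hcard, Finset.prod_pair hPQ] at hglue
  have hWcard : W.card = P.card + Q.card + 2 := by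
    rw [← hW, Finset.card_insert_of_notMem, Finset.card_insert_of_notMem,
      Finset.card_union_of_disjoint hdPQ]
    · rw [hun]
      exact hbR
    · rw [Finset.mem_insert, not_or, hun]
      exact ⟨hs.hab.1, haR⟩
  have hPcard : (insert a (insert b P)).card = P.card + 2 := by
    rw [Finset.card_insert_of_notMem, Finset.card_insert_of_notMem (fun h1 => hbR (hPR h1))]
    rw [Finset.mem_insert, not_or]
    exact ⟨hs.hab.1, fun h1 => haR (hPR h1)⟩
  have hQcard : (insert a (insert b Q)).card = Q.card + 2 := by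
    rw [Finset.card_insert_of_notMem, Finset.card_insert_of_notMem (fun h1 => hbR (hQR h1))]
    rw [Finset.mem_insert, not_or]
    exact ⟨hs.hab.1, fun h1 => haR (hQR h1)⟩
  have hq0 : q * (q - 1) ≠ 0 := (mul_pos (by linarith) (by linarith)).ne'
  unfold Phi
  rw [hWcard, hPcard, hQcard]
  rw [div_mul_div_comm, div_eq_div_iff hq0 (mul_ne_zero hq0 hq0)]
  have h1 : ((-1 : ℝ) ^ (P.card + Q.card + 2)) =
      (-1 : ℝ) ^ (P.card + 2) * (-1 : ℝ) ^ (Q.card + 2) := by
    rw [← pow_add, show P.card + 2 + (Q.card + 2) = P.card + Q.card + 2 + 2 by ring,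
      pow_add (-1 : ℝ) (P.card + Q.card + 2) 2]
    norm_num
  have h2 : chrom W B q * (q * (q - 1)) =
      chrom (insert a (insert b P)) B q * chrom (insert a (insert b Q)) B q := by
    rw [← hglue]
    norm_num
  rw [h1]
  calc (-1 : ℝ) ^ (P.card + 2) * (-1 : ℝ) ^ (Q.card + 2) * chrom W B q *
        (q * (q - 1) * (q * (q - 1)))
      = (-1 : ℝ) ^ (P.card + 2) * (-1 : ℝ) ^ (Q.card + 2) * (chrom W B q * (q * (q - 1))) *
        (q * (q - 1)) := by ring
    _ = _ := by rw [h2]; ring

end Pool.Agent.DK
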