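import Mathlib
import Pool.Agent.Lib_MP_6f255c_dk.VDefs
import Pool.Agent.Lib_MP_6f255c_dk.StepCPhi
import Pool.Agent.Lib_MP_6f255c_dk.StepBConA

/-!
# The classes D(x, y) and Q, stuck states, ready states
-/

set_option autoImplicit false

namespace Pool.Agent.DK

open Classical

variable {α : Type*}

/-- `T` is a weak separator of `x` and `y`. -/
def WSep (W : Finset α) (G : Finset α → Prop) (T : Finset α) (x y : α) : Prop :=
  x ∈ T ∨ y ∈ T ∨ ∀ D ∈ comps G (W \ T), ¬ (x ∈ D ∧ y ∈ D)

/-- class D(x, y): every tight set is a weak separator of `x` and `y` (`x = y` allowed). -/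
structure ClD (W : Finset α) (B : Finset α → Prop) (x y : α) : Prop where
  cl : ClV W B B
  hx : x ∈ W
  hy : y ∈ W
  sep : ∀ T, Tight W B B T → WSep W B T x y

/-- class Q: a minimal bad non-edge `F` with `c(F) = |F|` has no tight proper subset. -/
structure ClQ (W : Finset α) (B : Finset α → Prop) : Prop where
  cl : ClV W B B
  e4 : ∀ F, MB W B B F → c W B F = F.card → ∀ T : Finset α, T ⊂ F → ¬ Tight W B B T

/-- stuck: no hyper-tight set, and no possible Step C. -/
def Stuck (W : Finset α) (B : Finset α → Prop) : Prop :=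
  (∀ S, ¬ HT W B B S) ∧ ∀ a b P, Split W B a b P → ¬ NoSpread W B a b P

/-- ready for Step B with any edge: at least 4 vertices, no separating pair at all, and every tight set is a
vertex cover of the graph. -/
structure Ready (W : Finset α) (B : Finset α → Prop) : Prop where
  cl : ClV W B B
  four : 4 ≤ W.card
  conn3 : ∀ a ∈ W, ∀ b ∈ W, c W B {a, b} ≤ 1
  cover : ∀ T, Tight W B B T → ∀ x ∈ W, ∀ y ∈ W, Adj B x y → x ∈ T ∨ y ∈ T

end Pool.Agent.DK
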