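import Mathlib
import Pool.Agent.Lib_MP_6f255c_dk.VConv
import Pool.Agent.Lib_MP_6f255c_dk.VCross

/-!
# Step A: the truncated state is in class V
-/

set_option autoImplicit false

namespace Pool.Agent.DK

open Classical

variable {α : Type*}

/-- minimal bad sets of `addBad B S`, `S` not bad: `S` itself or old ones not containing `S`. -/
theorem minBad_addBad {W : Finset α} {B : Finset α → Prop} {S F : Finset α}
    (hF : MinBad W (addBad B S) F) : F = S ∨ (MinBad W B F ∧ ¬ S ⊆ F) := by
  obtain ⟨hFW, hB, hmin⟩ := hF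
  by_cases hSF : S ⊆ F
  · left
    by_contra hne
    have hss : S ⊂ F := lt_of_le_of_ne hSF (fun h => hne h.symm)
    exact hmin S hss (Or.inr (Finset.Subset.refl _))
  · right
    rcases hB with hB | hB
    · exact ⟨⟨hFW, hB, fun T hT hBT => hmin T hT (Or.inl hBT)⟩, hSF⟩
    · exact absurd hB hSF

/-- `(W, B + S)` is in class V (same graph; `S` may have two elements).

Proof. `one`: `|S| ≥ 2`.  A minimal bad set of `addBad B S` is `S` or an old one.  `v1` for `S`: tight.
`v2`: fewer sets. `v3`: old pairs; `(S, F)`: hyper-tight; `(F, S)`: `nc_tight_symm`; `(S, S)` is not disjoint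
(`S` nonempty). `edge`: `B ≤ addBad B S`. -/
theorem ClV.addBad {W : Finset α} {G B : Finset α → Prop} (h : ClV W G B) {S : Finset α}
    (hS : HT W G B S) : ClV W G (addBad B S) := by
  have hcase : ∀ F, MB W G (Pool.Agent.DK.addBad B S) F → F = S ∨ MB W G B F := by
    intro F hF
    rcases minBad_addBad hF.1 with h1 | h1
    · exact Or.inl h1
    · exact Or.inr ⟨h1.1, hF.2⟩
  refine ⟨?_, ?_, ?_, h.two, h.conn, ?_, ?_, ?_⟩
  · intro T T' hTT' hT
    rcases hT with hT | hT
    · exact Or.inl (h.up T T' hTT' hT)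
    · exact Or.inr (hT.trans hTT')
  · intro v hv
    rcases hv with hv | hv
    · exact h.one v hv
    · have h1 := Finset.card_le_card hv
      have h2 := hS.1.2.1
      rw [Finset.card_singleton] at h1
      omega
  · intro u hu v hv huv
    exact Or.inl (h.edge u hu v hv huv)
  · intro F hF
    rcases hcase F hF with rfl | h1
    · exact hS.1.2.2.2
    · exact h.v1 F h1
  · intro T hT hne hB
    exact h.v2 T hT hne (fun hb => hB (Or.inl hb))
  · intro F F' hF hF' hd
    rcases hcase F hF with rfl | h1 <;> rcases hcase F' hF' with rfl | h2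
    · rw [Finset.disjoint_self_iff_empty] at hd
      have := hS.1.2.1
      rw [hd, Finset.card_empty] at this
      omega
    · exact hS.2 F' h2 hd.symm
    · exact (h.nc_tight_symm hS.1 h1 hd).1 (hS.2 F h1 hd)
    · exact h.v3 F F' h1 h2 hd

/-- tight sets of `(W, B + S)`. -/
theorem tight_addBad {W : Finset α} {G B : Finset α → Prop} {S T : Finset α}
    (hT : Tight W G (addBad B S) T) : Tight W G B T ∧ ¬ S ⊆ T := by
  obtain ⟨h1, h2, h3, h4⟩ := hT
  exact ⟨⟨h1, h2, fun hb => h3 (Or.inl hb), h4⟩, fun hs => h3 (Or.inr hs)⟩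

end Pool.Agent.DK
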