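import Mathlib
import Pool.Agent.Lib_MP_6f255c_dk.VDefs
import Pool.Agent.Lib_MP_6f255c_dk.ChromSplit
import Pool.Agent.Lib_MP_6f255c_dk.ChromGlueV

/-!
# Step A: the formula for `Phi`

Cite `chrom_split` (P3), `chrom_glue_vertex` (P4) (files ChromSplit, ChromGlueV; if one of them is not landed
yet, copy its statement with sorry as a private theorem in your scratch file and import it later).
-/

set_option autoImplicit false

namespace Pool.Agent.DK

open Classical

variable {α : Type*}

/-- Product condition for `S`: a minimal bad non-edge `F` meeting `S` has a trace on some component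
`K` of `W \ S` with `S ∪ (F ∩ K)` bad. -/
def PF (W : Finset α) (G B : Finset α → Prop) (S : Finset α) : Prop :=
  ∀ F, MB W G B F → (F ∩ S).Nonempty → ∃ K ∈ comps G (W \ S), B (S ∪ (F ∩ K))

private theorem sap_biUnion (G : Finset α → Prop) (R : Finset α) :
    (comps G R).biUnion id = R := by
  ext v
  rw [Finset.mem_biUnion]
  constructor
  · rintro ⟨D, hD, hv⟩
    exact ((mem_comps_iff G R D).1 hD).2.1.1 hv
  · intro hv
    exact exists_comp G R hv

private theorem sap_contr_up {B : Finset α → Prop} {S : Finset α} {s : α}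
    (hup : ∀ T T' : Finset α, T ⊆ T' → B T → B T') {T T' : Finset α} (hT : T ⊆ T')
    (h : contrBad B S s T) : contrBad B S s T' := by
  unfold contrBad at h ⊢
  by_cases h1 : s ∈ T
  · rw [if_pos h1] at h
    rw [if_pos (hT h1)]
    exact hup _ _ (Finset.union_subset_union_left hT) h
  · rw [if_neg h1] at h
    split_ifs
    · exact hup _ _ (hT.trans Finset.subset_union_left) h
    · exact hup _ _ hT h

private theorem sap_key {W : Finset α} {G B : Finset α → Prop} {S : Finset α}
    (hS : HT W G B S) {F : Finset α} (hF : MinBad W B F) (hFS : F ⊆ W \ S) :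
    ∃ K ∈ comps G (W \ S), F ⊆ K := by
  by_cases he : IsEdge G F
  · obtain ⟨u, v, huv, rfl⟩ := he
    have hu : u ∈ W \ S := hFS (by simp)
    have hv : v ∈ W \ S := hFS (by simp)
    obtain ⟨K, hK, huK⟩ := exists_comp G (W \ S) hu
    refine ⟨K, hK, ?_⟩
    have hcl := ((mem_comps_iff G (W \ S) K).1 hK).2.1
    have hvK : v ∈ K := hcl.2 u huK v hv huv
    intro x hx
    rw [Finset.mem_insert, Finset.mem_singleton] at hx
    rcases hx with rfl | rfl
    · exact huK
    · exact hvK
  · refine hS.2 F ⟨hF, he⟩ ?_
    rw [Finset.disjoint_left]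
    intro x hx hxS
    exact (Finset.mem_sdiff.1 (hFS hx)).2 hxS

/-- Step A, formula: `Phi(W, B) = Phi(W, B + S) + (q-1)^(|S|-1) ∏_K Phi(K + s)`.

Proof. `chrom_split` gives `chrom W B = chrom W (addBad B S) + chrom (insert s (W \ S)) (contrBad B S s)`.
Let `C := comps G (W \ S)`, `C.biUnion id = W \ S`, `C.card = c W G S = S.card ≥ 2` (`ClV.c_tight`),
the members are pairwise disjoint, do not contain `s`. We check `hB` of `chrom_glue_vertex` for
`contrBad B S s`: let `T ⊆ insert s (W \ S)`.
(←) `contrBad B S s` is up-closed (cases on `s ∈ T`).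
(→) Case `s ∉ T`: `B T`, so there is a minimal bad `F ⊆ T ⊆ W \ S` (`exists_minBad`). If `F` is an edge `{u, v}`
both ends lie in the same component `K`; otherwise `HT` gives a component `K` with `F ⊆ K`. So
`F ⊆ T ∩ insert s K`, and `s ∉ T ∩ insert s K`, so `contrBad B S s (T ∩ insert s K)` holds.
Case `s ∈ T`: `B (T ∪ S)`; take a minimal bad `F ⊆ T ∪ S` (note `T ∪ S ⊆ W`). If `F ∩ S = ∅`, as before
`F ⊆ K` for a component `K`, and `F ⊆ (T ∩ insert s K) ∪ S`. If `F ∩ S ≠ ∅` and `F = {u, v}` is an edge, one
end is in `S` and the other one is not (`S` is not bad), it lies in some component `K`,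
`F ⊆ (T ∩ insert s K) ∪ S`. If `F ∩ S ≠ ∅` and `F` is not an edge, `PF` gives `K` with `S ∪ (F ∩ K)` bad,
contained in `(T ∩ insert s K) ∪ S`.
`hB0`, `hB1`: `contrBad B S s ∅ ↔ B ∅`; `contrBad B S s {s} ↔ B ({s} ∪ S) = B S`; `v ≠ s` : `B {v}`.
So `chrom (insert s (W \ S)) _ q * q ^ (|S| - 1) = ∏_K chrom (insert s K) _ q`.  With
`chrom (insert s K) = (-1)^(|K|+1) q (q-1) Phi`, `∏_K (-1)^(|K|+1) = (-1)^(|W \ S| + |S|) = (-1)^|W|`,
the claim follows after division by `q (q-1)`. -/
theorem stepA_phi {W : Finset α} {G B : Finset α → Prop} (h : ClV W G B) {S : Finset α}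
    (hS : HT W G B S) (hPF : PF W G B S) {s : α} (hs : s ∈ S) {q : ℝ} (hq : 1 < q) :
    Phi W B q = Phi W (addBad B S) q + (q - 1) ^ (S.card - 1) *
      ∏ K ∈ comps G (W \ S), Phi (insert s K) (contrBad B S s) q := by
  have hSW : S ⊆ W := hS.1.1
  have hcard : (comps G (W \ S)).card = S.card := h.c_tight hS.1
  have hS2 : 2 ≤ S.card := hS.1.2.1
  have hun : (comps G (W \ S)).biUnion id = W \ S := sap_biUnion G (W \ S)
  have hsub : ∀ K ∈ comps G (W \ S), K ⊆ W \ S := fun K hK =>
    ((mem_comps_iff G (W \ S) K).1 hK).2.1.1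
  have hsK : ∀ K ∈ comps G (W \ S), s ∉ K := fun K hK hsK =>
    (Finset.mem_sdiff.1 (hsub K hK hsK)).2 hs
  have hdisj : ((comps G (W \ S) : Finset (Finset α)) : Set (Finset α)).PairwiseDisjoint id := by
    intro D hD D' hD' hne
    exact comps_disjoint G (W \ S) (Finset.mem_coe.1 hD) (Finset.mem_coe.1 hD') hne
  have hsplit := chrom_split W B S s hSW hs q
  have hB : ∀ T ⊆ insert s ((comps G (W \ S)).biUnion id),
      (contrBad B S s T ↔ ∃ K ∈ comps G (W \ S), contrBad B S s (T ∩ insert s K)) := by
    intro T hT
    rw [hun] at hT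
    constructor
    · intro hb
      by_cases hsT : s ∈ T
      · have hb' : B (T ∪ S) := by
          unfold contrBad at hb
          rwa [if_pos hsT] at hb
        have hTS : T ∪ S ⊆ W := by
          intro x hx
          rcases Finset.mem_union.1 hx with hx | hx
          · rcases Finset.mem_insert.1 (hT hx) with rfl | hx
            · exact hSW hs
            · exact (Finset.mem_sdiff.1 hx).1
          · exact hSW hx
        obtain ⟨F, hFT, hF⟩ := exists_minBad hTS hb'
        have hfin : ∀ K ∈ comps G (W \ S), ∀ X : Finset α, B X →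
            X ⊆ (T ∩ insert s K) ∪ S → contrBad B S s (T ∩ insert s K) := by
          intro K _ X hX hXs
          unfold contrBad
          rw [if_pos (Finset.mem_inter.2 ⟨hsT, Finset.mem_insert_self _ _⟩)]
          exact h.up _ _ hXs hX
        by_cases hFS : (F ∩ S).Nonempty
        · by_cases he : IsEdge G F
          · obtain ⟨u, v, huv, rfl⟩ := he
            have hnS : ¬ (u ∈ S ∧ v ∈ S) := by
              rintro ⟨hu, hv⟩
              refine hS.1.2.2.1 (h.up _ _ ?_ hF.2.1)
              intro x hx
              rw [Finset.mem_insert, Finset.mem_singleton] at hx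
              rcases hx with rfl | rfl
              · exact hu
              · exact hv
            have huW : u ∈ T ∪ S := hFT (by simp)
            have hvW : v ∈ T ∪ S := hFT (by simp)
            have key : ∀ a b : α, a ∈ S → b ∉ S → b ∈ T ∪ S →
                (({u, v} : Finset α) ⊆ {a, b}) → ∃ K ∈ comps G (W \ S),
                contrBad B S s (T ∩ insert s K) := by
              intro a b ha hb1 hb2 hab
              obtain ⟨K, hK, hbK⟩ := exists_comp G (W \ S)
                (Finset.mem_sdiff.2 ⟨hTS hb2, hb1⟩)
              refine ⟨K, hK, hfin K hK _ hF.2.1 (hab.trans ?_)⟩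
              intro x hx
              rw [Finset.mem_insert, Finset.mem_singleton] at hx
              rcases hx with rfl | rfl
              · exact Finset.mem_union_right _ ha
              · refine Finset.mem_union_left _ (Finset.mem_inter.2 ⟨?_,
                  Finset.mem_insert_of_mem hbK⟩)
                rcases Finset.mem_union.1 hb2 with h3 | h3
                · exact h3
                · exact absurd h3 hb1
            obtain ⟨x, hx⟩ := hFS
            obtain ⟨hxF, hxS⟩ := Finset.mem_inter.1 hx
            rw [Finset.mem_insert, Finset.mem_singleton] at hxF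
            rcases hxF with rfl | rfl
            · exact key x v hxS (fun hv => hnS ⟨hxS, hv⟩) hvW (Finset.Subset.refl _)
            · exact key x u hxS (fun hu => hnS ⟨hu, hxS⟩) huW
                (by rw [Finset.pair_comm])
          · obtain ⟨K, hK, hBK⟩ := hPF F ⟨hF, he⟩ hFS
            refine ⟨K, hK, hfin K hK _ hBK ?_⟩
            intro x hx
            rcases Finset.mem_union.1 hx with hx | hx
            · exact Finset.mem_union_right _ hx
            · obtain ⟨hxF, hxK⟩ := Finset.mem_inter.1 hx
              have hxS : x ∉ S := (Finset.mem_sdiff.1 (hsub K hK hxK)).2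
              refine Finset.mem_union_left _ (Finset.mem_inter.2 ⟨?_,
                Finset.mem_insert_of_mem hxK⟩)
              rcases Finset.mem_union.1 (hFT hxF) with h3 | h3
              · exact h3
              · exact absurd h3 hxS
        · have hnot : ∀ x ∈ F, x ∉ S := fun x hx hxS =>
            hFS ⟨x, Finset.mem_inter.2 ⟨hx, hxS⟩⟩
          have hFsub : F ⊆ W \ S := fun x hx =>
            Finset.mem_sdiff.2 ⟨hF.1 hx, hnot x hx⟩
          obtain ⟨K, hK, hFK⟩ := sap_key hS hF hFsub
          refine ⟨K, hK, hfin K hK _ hF.2.1 ?_⟩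
          intro x hx
          refine Finset.mem_union_left _ (Finset.mem_inter.2 ⟨?_,
            Finset.mem_insert_of_mem (hFK hx)⟩)
          rcases Finset.mem_union.1 (hFT hx) with h3 | h3
          · exact h3
          · exact absurd h3 (hnot x hx)
      · have hb' : B T := by
          unfold contrBad at hb
          rwa [if_neg hsT] at hb
        have hTS : T ⊆ W \ S := by
          intro x hx
          rcases Finset.mem_insert.1 (hT hx) with rfl | hx'
          · exact absurd hx hsT
          · exact hx'
        obtain ⟨F, hFT, hF⟩ := exists_minBad (hTS.trans Finset.sdiff_subset) hb'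
        obtain ⟨K, hK, hFK⟩ := sap_key hS hF (hFT.trans hTS)
        refine ⟨K, hK, ?_⟩
        unfold contrBad
        rw [if_neg (fun h3 => hsT (Finset.mem_inter.1 h3).1)]
        refine h.up _ _ ?_ hF.2.1
        intro x hx
        exact Finset.mem_inter.2 ⟨hFT hx, Finset.mem_insert_of_mem (hFK hx)⟩
    · rintro ⟨K, _, hb⟩
      exact sap_contr_up h.up Finset.inter_subset_left hb
  have hB0 : ¬ contrBad B S s ∅ := by
    unfold contrBad
    rw [if_neg (Finset.notMem_empty s)]
    exact h.not_bad_empty
  have hB1 : ∀ v, ¬ contrBad B S s {v} := by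
    intro v hb
    unfold contrBad at hb
    split_ifs at hb with h1
    · rw [Finset.mem_singleton] at h1
      subst h1
      refine hS.1.2.2.1 (h.up _ _ ?_ hb)
      intro x hx
      rcases Finset.mem_union.1 hx with hx | hx
      · rw [Finset.mem_singleton] at hx
        exact hx ▸ hs
      · exact hx
    · exact h.one v hb
  have hne : (comps G (W \ S)).Nonempty := by
    rw [← Finset.card_pos, hcard]
    omega
  have hglue := chrom_glue_vertex s (comps G (W \ S)) (contrBad B S s) hne hdisj hsK hB0 hB1 hB q
  rw [hun, hcard] at hglue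
  have hsum : ∑ K ∈ comps G (W \ S), K.card = (W \ S).card := by
    have h1 := Finset.card_biUnion (s := comps G (W \ S)) (t := id)
      (fun D hD D' hD' hne' => hdisj (Finset.mem_coe.2 hD) (Finset.mem_coe.2 hD') hne')
    rw [hun] at h1
    exact h1.symm
  have hq0 : q ≠ 0 := by linarith
  have hq1 : q - 1 ≠ 0 := by linarith
  have hsign : ∏ K ∈ comps G (W \ S), (-1 : ℝ) ^ (insert s K).card = (-1) ^ W.card := by
    rw [Finset.prod_pow_eq_pow_sum]
    congr 1
    rw [Finset.sum_congr rfl (fun K hK => Finset.card_insert_of_notMem (hsK K hK)),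
      Finset.sum_add_distrib, hsum, Finset.sum_const, hcard, smul_eq_mul, mul_one,
      Finset.card_sdiff_add_card_eq_card hSW]
  have hprod : ∏ K ∈ comps G (W \ S), Phi (insert s K) (contrBad B S s) q =
      (-1) ^ W.card * (chrom (insert s (W \ S)) (contrBad B S s) q * q ^ (S.card - 1)) /
        (q * (q - 1)) ^ S.card := by
    unfold Phi
    rw [Finset.prod_div_distrib, Finset.prod_mul_distrib, hsign, ← hglue, Finset.prod_const, hcard]
  rw [hprod]
  unfold Phi
  rw [hsplit]
  obtain ⟨m, hm⟩ : ∃ m, S.card = m + 1 := ⟨S.card - 1, by omega⟩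
  rw [hm, Nat.add_sub_cancel, mul_pow, pow_succ, pow_succ]
  field_simp

end Pool.Agent.DK
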