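import Mathlib
import Pool.Agent.Lib_MP_6f255c_dk.Defs

set_option autoImplicit false

namespace Pool.Agent.DK

open Classical

variable {α : Type*}

/-- symmetric form of closedness -/
private def Cl (B : Finset α → Prop) (R Z : Finset α) : Prop :=
  Z ⊆ R ∧ ∀ u ∈ R, ∀ v ∈ R, Adj B u v → (u ∈ Z ↔ v ∈ Z)

private theorem sm_adj_symm {B : Finset α → Prop} {u v : α} (h : Adj B u v) : Adj B v u := by
  refine ⟨h.1.symm, ?_⟩
  rw [Finset.pair_comm]
  exact h.2

private theorem sm_joined_symm {B : Finset α → Prop} {R : Finset α} {u v : α}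
    (h : Joined B R u v) : Joined B R v u := by
  unfold Joined at *
  induction h with
  | refl => exact Relation.ReflTransGen.refl
  | tail _ hab ih =>
    exact Relation.ReflTransGen.head ⟨hab.2.1, hab.1, sm_adj_symm hab.2.2⟩ ih

private theorem sm_joined_trans {B : Finset α → Prop} {R : Finset α} {u v w : α}
    (h : Joined B R u v) (h' : Joined B R v w) : Joined B R u w :=
  Relation.ReflTransGen.trans h h'

private noncomputable def cls (B : Finset α → Prop) (R : Finset α) (v : α) : Finset α :=
  R.filter (fun u => Joined B R v u)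

private theorem mem_cls {B : Finset α → Prop} {R : Finset α} {u v : α} :
    u ∈ cls B R v ↔ u ∈ R ∧ Joined B R v u := by
  simp [cls]

private theorem cls_eq {B : Finset α → Prop} {R : Finset α} {u v : α} (h : u ∈ cls B R v) :
    cls B R u = cls B R v := by
  rw [mem_cls] at h
  ext w
  rw [mem_cls, mem_cls]
  exact ⟨fun hw => ⟨hw.1, sm_joined_trans h.2 hw.2⟩,
    fun hw => ⟨hw.1, sm_joined_trans (sm_joined_symm h.2) hw.2⟩⟩

private theorem self_mem_cls {B : Finset α → Prop} {R : Finset α} {v : α} (h : v ∈ R) :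
    v ∈ cls B R v := by
  rw [mem_cls]
  exact ⟨h, Relation.ReflTransGen.refl⟩

private theorem mem_comps' {B : Finset α → Prop} {R D : Finset α} :
    D ∈ comps B R ↔ ∃ v ∈ R, cls B R v = D := by
  simp [comps, cls]

private theorem Cl_joined {B : Finset α → Prop} {R Z : Finset α} (hZ : Cl B R Z) {u v : α}
    (h : Joined B R u v) (hu : u ∈ Z) : v ∈ Z := by
  unfold Joined at h
  induction h with
  | refl => exact hu
  | tail _ hab ih => exact (hZ.2 _ hab.1 _ hab.2.1 hab.2.2).1 ih

private theorem card_Cl (B : Finset α → Prop) (R : Finset α) :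
    (R.powerset.filter (Cl B R)).card = 2 ^ (comps B R).card := by
  rw [← Finset.card_powerset]
  symm
  apply Finset.card_bij (fun P _ => P.biUnion id)
  · intro P hP
    rw [Finset.mem_powerset] at hP
    rw [Finset.mem_filter, Finset.mem_powerset]
    have hsub : P.biUnion id ⊆ R := by
      intro x hx
      rw [Finset.mem_biUnion] at hx
      obtain ⟨D, hD, hx⟩ := hx
      obtain ⟨v, _, rfl⟩ := mem_comps'.1 (hP hD)
      exact (mem_cls.1 hx).1
    have key : ∀ u ∈ R, ∀ v ∈ R, Adj B u v → u ∈ P.biUnion id → v ∈ P.biUnion id := by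
      intro u hu v hv huv hu'
      rw [Finset.mem_biUnion] at hu' ⊢
      obtain ⟨D, hD, hx⟩ := hu'
      refine ⟨D, hD, ?_⟩
      obtain ⟨w, _, rfl⟩ := mem_comps'.1 (hP hD)
      simp only [id] at hx ⊢
      rw [mem_cls] at hx ⊢
      exact ⟨hv, Relation.ReflTransGen.tail hx.2 ⟨hu, hv, huv⟩⟩
    exact ⟨hsub, hsub, fun u hu v hv huv =>
      ⟨key u hu v hv huv, key v hv u hu (sm_adj_symm huv)⟩⟩
  · intro P hP Q hQ hPQ
    rw [Finset.mem_powerset] at hP hQ
    have aux : ∀ P Q : Finset (Finset α), P ⊆ comps B R → Q ⊆ comps B R →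
        P.biUnion id = Q.biUnion id → P ⊆ Q := by
      intro P Q hP hQ hPQ D hD
      obtain ⟨v, hv, rfl⟩ := mem_comps'.1 (hP hD)
      have hvP : v ∈ P.biUnion id := Finset.mem_biUnion.2 ⟨_, hD, self_mem_cls hv⟩
      rw [hPQ, Finset.mem_biUnion] at hvP
      obtain ⟨D', hD', hvD'⟩ := hvP
      obtain ⟨w, _, rfl⟩ := mem_comps'.1 (hQ hD')
      simp only [id] at hvD'
      rw [cls_eq hvD']
      exact hD'
    exact Finset.Subset.antisymm (aux P Q hP hQ hPQ) (aux Q P hQ hP hPQ.symm)
  · intro Z hZ
    rw [Finset.mem_filter] at hZ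
    refine ⟨(comps B R).filter (fun D => D ⊆ Z), ?_, ?_⟩
    · rw [Finset.mem_powerset]
      exact Finset.filter_subset _ _
    · ext x
      rw [Finset.mem_biUnion]
      constructor
      · rintro ⟨D, hD, hx⟩
        exact (Finset.mem_filter.1 hD).2 hx
      · intro hx
        have hxR := hZ.2.1 hx
        refine ⟨cls B R x, ?_, self_mem_cls hxR⟩
        rw [Finset.mem_filter]
        refine ⟨mem_comps'.2 ⟨x, hxR, rfl⟩, ?_⟩
        intro y hy
        exact Cl_joined hZ.2 (mem_cls.1 hy).2 hx

private theorem card_mul_le (B : Finset α → Prop) (R X Y : Finset α) (hXY : Disjoint X Y)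
    (hRX : Disjoint R X) (hRY : Disjoint R Y)
    (hno : ∀ u ∈ X, ∀ v ∈ Y, ¬ Adj B u v) :
    ((R ∪ X).powerset.filter (Cl B (R ∪ X))).card *
      ((R ∪ Y).powerset.filter (Cl B (R ∪ Y))).card ≤
    ((R ∪ X ∪ Y).powerset.filter (Cl B (R ∪ X ∪ Y))).card *
      (R.powerset.filter (Cl B R)).card := by
  rw [← Finset.card_product]
  set S := ((R ∪ X).powerset.filter (Cl B (R ∪ X))) ×ˢ ((R ∪ Y).powerset.filter (Cl B (R ∪ Y)))
    with hS
  have hmemS : ∀ p : Finset α × Finset α, p ∈ S → Cl B (R ∪ X) p.1 ∧ Cl B (R ∪ Y) p.2 := by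
    intro p hp
    rw [hS, Finset.mem_product, Finset.mem_filter, Finset.mem_filter] at hp
    exact ⟨hp.1.2, hp.2.2⟩
  let f : Finset α × Finset α → Finset α := fun p => R.filter (fun x => ¬ (x ∈ p.1 ↔ x ∈ p.2))
  have himg : (S.image f) ⊆ R.powerset.filter (Cl B R) := by
    intro Z hZ
    rw [Finset.mem_image] at hZ
    obtain ⟨p, hp, rfl⟩ := hZ
    obtain ⟨h1, h2⟩ := hmemS p hp
    rw [Finset.mem_filter, Finset.mem_powerset]
    refine ⟨Finset.filter_subset _ _, Finset.filter_subset _ _, ?_⟩
    intro u hu v hv huv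
    have e1 := h1.2 u (Finset.mem_union_left _ hu) v (Finset.mem_union_left _ hv) huv
    have e2 := h2.2 u (Finset.mem_union_left _ hu) v (Finset.mem_union_left _ hv) huv
    simp only [f, Finset.mem_filter, hu, hv, true_and, e1, e2]
  have hfib : ∀ a ∈ S.image f, (S.filter fun x => f x = a).card ≤
      ((R ∪ X ∪ Y).powerset.filter (Cl B (R ∪ X ∪ Y))).card := by
    intro a ha
    rw [Finset.mem_image] at ha
    obtain ⟨p0, hp0, hfa⟩ := ha
    obtain ⟨k1, k2⟩ := hmemS p0 hp0
    let g : Finset α × Finset α → Finset α := fun p =>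
      (R ∪ X).filter (fun x => ¬ (x ∈ p.1 ↔ x ∈ p0.1)) ∪
        Y.filter (fun x => ¬ (x ∈ p.2 ↔ x ∈ p0.2))
    -- on the fibre, membership
    have hR : ∀ p ∈ S.filter (fun x => f x = a), ∀ x ∈ R,
        ((x ∈ p.1 ↔ x ∈ p0.1) ↔ (x ∈ p.2 ↔ x ∈ p0.2)) := by
      intro p hp x hx
      rw [Finset.mem_filter] at hp
      have h : f p = f p0 := by rw [hp.2, hfa]
      have h' : x ∈ f p ↔ x ∈ f p0 := by rw [h]
      simp only [f, Finset.mem_filter, hx, true_and] at h'
      tauto
    apply Finset.card_le_card_of_injOn g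
    · intro p hp
      have hp' := Finset.mem_coe.1 hp
      obtain ⟨h1, h2⟩ := hmemS p (Finset.mem_filter.1 hp').1
      rw [Finset.mem_coe, Finset.mem_filter, Finset.mem_powerset]
      have hsub : g p ⊆ R ∪ X ∪ Y := by
        apply Finset.union_subset_union
        · exact Finset.filter_subset _ _
        · exact Finset.filter_subset _ _
      have m1 : ∀ x ∈ R ∪ X, (x ∈ g p ↔ ¬ (x ∈ p.1 ↔ x ∈ p0.1)) := by
        intro x hx
        have hxY : x ∉ Y := by
          intro hy
          rcases Finset.mem_union.1 hx with h | h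
          · exact Finset.disjoint_left.1 hRY h hy
          · exact Finset.disjoint_left.1 hXY h hy
        simp only [g, Finset.mem_union, Finset.mem_filter, hxY, false_and, or_false]
        have : x ∈ R ∨ x ∈ X := Finset.mem_union.1 hx
        tauto
      have m2 : ∀ x ∈ R ∪ Y, (x ∈ g p ↔ ¬ (x ∈ p.2 ↔ x ∈ p0.2)) := by
        intro x hx
        rcases Finset.mem_union.1 hx with h | h
        · rw [m1 x (Finset.mem_union_left _ h)]
          exact not_congr (hR p hp' x h)
        · have hxR : x ∉ R := fun hr => Finset.disjoint_left.1 hRY hr h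
          have hxX : x ∉ X := fun hr => Finset.disjoint_left.1 hXY hr h
          simp only [g, Finset.mem_union, Finset.mem_filter, hxR, hxX, h, or_self, false_and,
            false_or, true_and]
      refine ⟨hsub, hsub, ?_⟩
      intro u hu v hv huv
      have case1 : ∀ u ∈ R ∪ X, ∀ v ∈ R ∪ X, Adj B u v → (u ∈ g p ↔ v ∈ g p) := by
        intro u hu v hv huv
        rw [m1 u hu, m1 v hv, h1.2 u hu v hv huv, k1.2 u hu v hv huv]
      have case2 : ∀ u ∈ R ∪ Y, ∀ v ∈ R ∪ Y, Adj B u v → (u ∈ g p ↔ v ∈ g p) := by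
        intro u hu v hv huv
        rw [m2 u hu, m2 v hv, h2.2 u hu v hv huv, k2.2 u hu v hv huv]
      rcases Finset.mem_union.1 hu with hu | hu
      · rcases Finset.mem_union.1 hv with hv | hv
        · exact case1 u hu v hv huv
        · rcases Finset.mem_union.1 hu with hu | hu
          · exact case2 u (Finset.mem_union_left _ hu) v (Finset.mem_union_right _ hv) huv
          · exact absurd huv (hno u hu v hv)
      · rcases Finset.mem_union.1 hv with hv | hv
        · rcases Finset.mem_union.1 hv with hv | hv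
          · exact case2 u (Finset.mem_union_right _ hu) v (Finset.mem_union_left _ hv) huv
          · exact absurd (sm_adj_symm huv) (hno v hv u hu)
        · exact case2 u (Finset.mem_union_right _ hu) v (Finset.mem_union_right _ hv) huv
    · intro p hp q hq hpq
      have hp' := Finset.mem_coe.1 hp
      have hq' := Finset.mem_coe.1 hq
      obtain ⟨h1, h2⟩ := hmemS p (Finset.mem_filter.1 hp').1
      obtain ⟨l1, l2⟩ := hmemS q (Finset.mem_filter.1 hq').1
      have e1 : ∀ x ∈ R ∪ X, (x ∈ p.1 ↔ x ∈ q.1) := by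
        intro x hx
        have hxY : x ∉ Y := by
          intro hy
          rcases Finset.mem_union.1 hx with h | h
          · exact Finset.disjoint_left.1 hRY h hy
          · exact Finset.disjoint_left.1 hXY h hy
        have h' : x ∈ g p ↔ x ∈ g q := by
          have : g p = g q := hpq
          rw [this]
        simp only [g, Finset.mem_union, Finset.mem_filter, hxY, false_and, or_false] at h'
        have : x ∈ R ∨ x ∈ X := Finset.mem_union.1 hx
        tauto
      have e2 : ∀ x ∈ R ∪ Y, (x ∈ p.2 ↔ x ∈ q.2) := by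
        intro x hx
        rcases Finset.mem_union.1 hx with h | h
        · have a1 := hR p hp' x h
          have a2 := hR q hq' x h
          have a3 := e1 x (Finset.mem_union_left _ h)
          tauto
        · have hxR : x ∉ R := fun hr => Finset.disjoint_left.1 hRY hr h
          have hxX : x ∉ X := fun hr => Finset.disjoint_left.1 hXY hr h
          have h' : x ∈ g p ↔ x ∈ g q := by
            have : g p = g q := hpq
            rw [this]
          simp only [g, Finset.mem_union, Finset.mem_filter, hxR, hxX, h, or_self, false_and,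
            false_or, true_and] at h'
          tauto
      apply Prod.ext
      · ext x
        constructor
        · intro hx
          exact (e1 x (h1.1 hx)).1 hx
        · intro hx
          exact (e1 x (l1.1 hx)).2 hx
      · ext x
        constructor
        · intro hx
          exact (e2 x (h2.1 hx)).1 hx
        · intro hx
          exact (e2 x (l2.1 hx)).2 hx
  calc S.card ≤ ((R ∪ X ∪ Y).powerset.filter (Cl B (R ∪ X ∪ Y))).card * (S.image f).card :=
        Finset.card_le_mul_card_image S _ hfib
    _ ≤ _ := Nat.mul_le_mul_left _ (Finset.card_le_card himg)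

/-- submodularity of `|S| - c(S)`: no edges between `A \ A'` and `A' \ A`. -/
theorem submodular (W : Finset α) (B : Finset α → Prop) (A A' : Finset α)
    (hA : A ⊆ W) (hA' : A' ⊆ W)
    (hno : ∀ u ∈ A \ A', ∀ v ∈ A' \ A, ¬ Adj B u v) :
    c W B A + c W B A' ≤ c W B (A ∪ A') + c W B (A ∩ A') := by
  set R := W \ (A ∪ A') with hR
  set X := A \ A' with hX
  set Y := A' \ A with hY
  have hXY : Disjoint X Y := by
    rw [Finset.disjoint_left]
    intro x hx hy
    rw [hX, Finset.mem_sdiff] at hx
    rw [hY, Finset.mem_sdiff] at hy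
    exact hy.2 hx.1
  have hRX : Disjoint R X := by
    rw [Finset.disjoint_left]
    intro x hx hy
    rw [hR, Finset.mem_sdiff, Finset.mem_union] at hx
    rw [hX, Finset.mem_sdiff] at hy
    exact hx.2 (Or.inl hy.1)
  have hRY : Disjoint R Y := by
    rw [Finset.disjoint_left]
    intro x hx hy
    rw [hR, Finset.mem_sdiff, Finset.mem_union] at hx
    rw [hY, Finset.mem_sdiff] at hy
    exact hx.2 (Or.inr hy.1)
  have h := card_mul_le B R X Y hXY hRX hRY hno
  rw [card_Cl, card_Cl, card_Cl, card_Cl, ← pow_add, ← pow_add] at h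
  have h' := (Nat.pow_le_pow_iff_right (by norm_num : 1 < 2)).1 h
  have e1 : W \ A = R ∪ Y := by
    ext x
    have := @hA' x
    simp only [hR, hY, Finset.mem_sdiff, Finset.mem_union]
    tauto
  have e2 : W \ A' = R ∪ X := by
    ext x
    have := @hA x
    simp only [hR, hX, Finset.mem_sdiff, Finset.mem_union]
    tauto
  have e3 : W \ (A ∩ A') = R ∪ X ∪ Y := by
    ext x
    have := @hA x
    have := @hA' x
    simp only [hR, hX, hY, Finset.mem_sdiff, Finset.mem_union, Finset.mem_inter]
    tauto
  unfold c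
  rw [e1, e2, e3]
  change _ ≤ (comps B R).card + _
  omega

end Pool.Agent.DK
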