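import Mathlib
import Pool.Agent.Lib_MP_6f255c_dk.StepAPhi
import Pool.Agent.Lib_MP_6f255c_dk.VCross
import Pool.Agent.Lib_MP_6f255c_dk.CompsSdiff
import Pool.Agent.Lib_MP_6f255c_dk.Submod

/-!
# Step A: the product condition holds for MAXIMAL hyper-tight sets
-/

set_option autoImplicit false

namespace Pool.Agent.DK

open Classical

variable {α : Type*}

/-- a component has exactly one component. -/
theorem comps_self_of_mem {G : Finset α → Prop} {R D : Finset α} (hD : D ∈ comps G R) :
    comps G D = {D} := by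
  have hDD : D ∈ comps G D :=
    mem_comps_of_superset G R D D ((mem_comps_iff G R D).1 hD).2.1.1 hD (Finset.Subset.refl _)
  ext X
  rw [Finset.mem_singleton]
  constructor
  · intro hX
    by_contra hne
    have hdis := comps_disjoint G D hX hDD hne
    obtain ⟨⟨x, hx⟩, ⟨hXD, _⟩, _⟩ := (mem_comps_iff G D X).1 hX
    exact (Finset.disjoint_left.1 hdis) hx (hXD hx)
  · rintro rfl
    exact hDD

/-- Number of components after removing `S ∪ R`, `R` inside one component `K` of `W \ S`:
`c(S ∪ R) = c(S) - 1 + #comps(K \ R)`.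

Proof: `card_comps_sdiff` for `R := W \ S`, `T := R`: `W \ (S ∪ R) = (W \ S) \ R`, the components of
`W \ S` different from `K` are disjoint from `R`, and `comps G D = {D}` for a component `D` (its
number of components is `1`; `mem_comps_iff`). -/
theorem c_union_of_subset_comp {W : Finset α} {G : Finset α → Prop} {S K R : Finset α}
    (hK : K ∈ comps G (W \ S)) (hR : R ⊆ K) :
    c W G (S ∪ R) + 1 = c W G S + (comps G (K \ R)).card := by
  have h1 : W \ (S ∪ R) = (W \ S) \ R := by
    ext x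
    simp only [Finset.mem_sdiff, Finset.mem_union]
    tauto
  unfold c
  rw [h1, card_comps_sdiff G (W \ S) R, ← Finset.add_sum_erase _ _ hK]
  have h2 : ∑ D ∈ (comps G (W \ S)).erase K, (comps G (D \ R)).card
      = ∑ _D ∈ (comps G (W \ S)).erase K, 1 := by
    refine Finset.sum_congr rfl (fun D hD => ?_)
    obtain ⟨hne, hD'⟩ := Finset.mem_erase.1 hD
    have hdis : Disjoint D R := by
      rw [Finset.disjoint_left]
      intro x hx hxR
      exact (Finset.disjoint_left.1 (comps_disjoint G _ hD' hK hne)) hx (hR hxR)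
    rw [Finset.sdiff_eq_self_of_disjoint hdis, comps_self_of_mem hD', Finset.card_singleton]
  rw [h2, Finset.sum_const, smul_eq_mul, mul_one, Finset.card_erase_of_mem hK]
  have h3 : 1 ≤ (comps G (W \ S)).card := Finset.card_pos.2 ⟨K, hK⟩
  omega

/-- the same for several components at once: `c(S ∪ F) = ∑_K #comps(K \ F)`. -/
theorem c_union_eq_sum {W : Finset α} {G : Finset α → Prop} (S F : Finset α) :
    c W G (S ∪ F) = ∑ K ∈ comps G (W \ S), (comps G (K \ F)).card := by
  have h1 : W \ (S ∪ F) = (W \ S) \ F := by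
    ext x
    simp only [Finset.mem_sdiff, Finset.mem_union]
    tauto
  unfold c
  rw [h1, card_comps_sdiff G (W \ S) F]

/-- If the product condition fails for `S` (tight) at `F`, everything is tight.

Proof (note 236 (ii)). Let `R_K := F ∩ K`. No `S ∪ R_K` is bad, so `v2` and `c_union_of_subset_comp` give
`#comps(K \ F) ≤ |R_K| + 1` for every `K ∈ comps G (W \ S)`; summing over the `|S|` components,
`c(F ∪ S) ≤ |F \ S| + |S|`. There is no edge between `F \ S` and `S \ F`: such an edge `u v`, `u ∈ K`, would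
make `S ∪ R_K` bad (`edge`, `up`).  Submodularity (G8) with `A = F`, `A' = S`:
`c(F) + c(S) ≤ c(F ∪ S) + c(F ∩ S)`; `c(F) ≥ |F|` (v1), `c(S) = |S|`, `c(F ∩ S) ≤ |F ∩ S|` (v2: `F ∩ S` is
nonempty, contained in the non-bad set `S`). Hence equality everywhere: `#comps(K \ F) = |R_K| + 1` for
all `K`, i.e. `c(S ∪ R_K) = |S ∪ R_K|`; also `c(F) = |F|` and `c(F ∩ S) = |F ∩ S|`. -/
theorem ClV.all_tight_of_not_PF {W : Finset α} {G B : Finset α → Prop} (h : ClV W G B)
    {S : Finset α} (hS : Tight W G B S) {F : Finset α} (hF : MB W G B F) (hFS : (F ∩ S).Nonempty)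
    (hno : ∀ K ∈ comps G (W \ S), ¬ B (S ∪ (F ∩ K))) :
    (∀ K ∈ comps G (W \ S), Tight W G B (S ∪ (F ∩ K))) ∧ c W G F = F.card ∧
      c W G (F ∩ S) = (F ∩ S).card := by
  have hSW : S ⊆ W := hS.1
  have hFW : F ⊆ W := hF.1.1
  have hcS : c W G S = S.card := h.c_tight hS
  have hKsub : ∀ K ∈ comps G (W \ S), K ⊆ W \ S := fun K hK =>
    ((mem_comps_iff G (W \ S) K).1 hK).2.1.1
  have hcardK : ∀ K ∈ comps G (W \ S), (S ∪ (F ∩ K)).card = S.card + (F ∩ K).card := by
    intro K hK
    apply Finset.card_union_of_disjoint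
    rw [Finset.disjoint_left]
    intro x hxS hx
    exact (Finset.mem_sdiff.1 (hKsub K hK (Finset.mem_inter.1 hx).2)).2 hxS
  have hsubW : ∀ K ∈ comps G (W \ S), S ∪ (F ∩ K) ⊆ W := fun K _ =>
    Finset.union_subset hSW (Finset.inter_subset_left.trans hFW)
  have hsd : ∀ K : Finset α, K \ (F ∩ K) = K \ F := by
    intro K
    ext x
    simp only [Finset.mem_sdiff, Finset.mem_inter]
    tauto
  have hform : ∀ K ∈ comps G (W \ S),
      c W G (S ∪ (F ∩ K)) + 1 = S.card + (comps G (K \ F)).card := by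
    intro K hK
    have h1 := c_union_of_subset_comp (W := W) (G := G) (S := S) (R := F ∩ K) hK
      Finset.inter_subset_right
    rw [hcS, hsd K] at h1
    exact h1
  have hle : ∀ K ∈ comps G (W \ S), (comps G (K \ F)).card ≤ (F ∩ K).card + 1 := by
    intro K hK
    have h1 := hform K hK
    have h2 := h.v2 (S ∪ (F ∩ K)) (hsubW K hK) (hS.nonempty.mono Finset.subset_union_left)
      (hno K hK)
    rw [hcardK K hK] at h2
    omega
  have hsumF : ∑ K ∈ comps G (W \ S), (F ∩ K).card = (F \ S).card := by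
    rw [← Finset.card_biUnion]
    · congr 1
      ext x
      rw [Finset.mem_biUnion, Finset.mem_sdiff]
      constructor
      · rintro ⟨K, hK, hx⟩
        obtain ⟨hxF, hxK⟩ := Finset.mem_inter.1 hx
        exact ⟨hxF, (Finset.mem_sdiff.1 (hKsub K hK hxK)).2⟩
      · rintro ⟨hxF, hxS⟩
        obtain ⟨K, hK, hxK⟩ := exists_comp G (W \ S) (Finset.mem_sdiff.2 ⟨hFW hxF, hxS⟩)
        exact ⟨K, hK, Finset.mem_inter.2 ⟨hxF, hxK⟩⟩
    · intro K hK K' hK' hne
      exact (comps_disjoint G _ hK hK' hne).mono Finset.inter_subset_right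
        Finset.inter_subset_right
  have hsum1 : ∑ _K ∈ comps G (W \ S), 1 = S.card := by
    rw [Finset.sum_const, smul_eq_mul, mul_one]
    exact hcS
  have hsumle : ∑ K ∈ comps G (W \ S), (comps G (K \ F)).card ≤
      ∑ K ∈ comps G (W \ S), ((F ∩ K).card + 1) := Finset.sum_le_sum hle
  have hsumval : ∑ K ∈ comps G (W \ S), ((F ∩ K).card + 1) = (F \ S).card + S.card := by
    rw [Finset.sum_add_distrib, hsumF, hsum1]
  have hcFS : c W G (F ∪ S) = ∑ K ∈ comps G (W \ S), (comps G (K \ F)).card := by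
    rw [Finset.union_comm, c_union_eq_sum]
  have hsm := submodular W G F S hFW hSW (by
    intro u hu v hv huv
    obtain ⟨huF, huS⟩ := Finset.mem_sdiff.1 hu
    obtain ⟨hvS, hvF⟩ := Finset.mem_sdiff.1 hv
    obtain ⟨K, hK, huK⟩ := exists_comp G (W \ S) (Finset.mem_sdiff.2 ⟨hFW huF, huS⟩)
    have hb := h.edge u (hFW huF) v (hSW hvS) huv
    refine hno K hK (h.up _ _ ?_ hb)
    intro x hx
    rw [Finset.mem_insert, Finset.mem_singleton] at hx
    rcases hx with rfl | rfl
    · exact Finset.mem_union_right _ (Finset.mem_inter.2 ⟨huF, huK⟩)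
    · exact Finset.mem_union_left _ hvS)
  have hv1 := h.v1 F hF
  have hv2 := h.v2 (F ∩ S) (Finset.inter_subset_left.trans hFW) hFS
    (h.not_bad_of_subset Finset.inter_subset_right hS.2.2.1)
  have hcard1 : (F \ S).card + (F ∩ S).card = F.card := Finset.card_sdiff_add_card_inter F S
  have hsumeq : ∑ K ∈ comps G (W \ S), (comps G (K \ F)).card =
      ∑ K ∈ comps G (W \ S), ((F ∩ K).card + 1) := by
    rw [hsumval]
    rw [hsumval] at hsumle
    rw [hcFS, hcS] at hsm
    omega
  have heq := (Finset.sum_eq_sum_iff_of_le hle).1 hsumeq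
  refine ⟨?_, ?_, ?_⟩
  · intro K hK
    have h1 := hform K hK
    have h2 := heq K hK
    have h3 := hcardK K hK
    refine ⟨hsubW K hK, ?_, hno K hK, ?_⟩
    · have := hS.2.1
      omega
    · omega
  · rw [hsumval] at hsumeq
    rw [hcFS, hcS] at hsm
    omega
  · rw [hsumval] at hsumeq
    rw [hcFS, hcS] at hsm
    omega

/-- ... and if moreover `S` is hyper-tight, all `S ∪ (F ∩ K)` are hyper-tight.

Proof. Let `S' = S ∪ R`, `R = F ∩ K`, and `F''` a minimal bad non-edge disjoint from `S'`. `S` is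
hyper-tight, so `F'' ⊆ L` for a component `L` of `W \ S`. If `L ≠ K`, `L` is also a component of `W \ S'`
(`mem_comps_of_superset`). If `L = K`: `F'' ∩ F ⊆ K ∩ F ∩ F'' = ∅`, so `v3` : `NC F'' F`; `NC F'' S` by
`nc_tight_symm`; `F ∩ S` is nonempty, so `NC F'' (F ∪ S)` (`NC.union`), `NC F'' S'`, and
again `nc_tight_symm` : `NC S' F''`. -/
theorem ClV.all_HT_of_not_PF {W : Finset α} {G B : Finset α → Prop} (h : ClV W G B)
    {S : Finset α} (hS : HT W G B S) {F : Finset α} (hF : MB W G B F) (hFS : (F ∩ S).Nonempty)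
    (hno : ∀ K ∈ comps G (W \ S), ¬ B (S ∪ (F ∩ K))) :
    ∀ K ∈ comps G (W \ S), HT W G B (S ∪ (F ∩ K)) := by
  intro K hK
  have ht : Tight W G B (S ∪ (F ∩ K)) := (h.all_tight_of_not_PF hS.1 hF hFS hno).1 K hK
  refine ⟨ht, ?_⟩
  intro F' hF' hd
  have hdS : Disjoint F' S := hd.mono_right Finset.subset_union_left
  obtain ⟨D, hD, hFD⟩ := hS.2 F' hF' hdS
  by_cases hDK : D = K
  · subst hDK
    have hdF : Disjoint F' F := by
      rw [Finset.disjoint_left]
      intro x hx hxF
      exact (Finset.disjoint_left.1 hd) hx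
        (Finset.mem_union_right _ (Finset.mem_inter.2 ⟨hxF, hFD hx⟩))
    have h1 : NC W G F' F := h.v3 F' F hF' hF hdF
    have h2 : NC W G F' S := (h.nc_tight_symm hS.1 hF' hdS).1 (hS.2 F' hF' hdS)
    have h3 : NC W G F' (F ∪ S) := h1.union h2 hFS
    have h4 : NC W G F' (S ∪ (F ∩ D)) := h3.mono (Finset.union_subset
      Finset.subset_union_right (Finset.inter_subset_left.trans Finset.subset_union_left))
    exact (h.nc_tight_symm ht hF' hd).2 h4
  · refine ⟨D, ?_, hFD⟩
    have hDsub : D ⊆ W \ S := ((mem_comps_iff G (W \ S) D).1 hD).2.1.1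
    refine mem_comps_of_superset G (W \ S) _ D ?_ hD ?_
    · exact Finset.sdiff_subset_sdiff (Finset.Subset.refl _) Finset.subset_union_left
    · intro x hx
      obtain ⟨hxW, hxS⟩ := Finset.mem_sdiff.1 (hDsub hx)
      rw [Finset.mem_sdiff, Finset.mem_union, Finset.mem_inter]
      refine ⟨hxW, ?_⟩
      rintro (h1 | ⟨_, h2⟩)
      · exact hxS h1
      · exact (Finset.disjoint_left.1 (comps_disjoint G _ hD hK hDK)) hx h2

/-- The product condition for maximal hyper-tight sets.

Proof. Otherwise, by `all_HT_of_not_PF` and maximality, `F ∩ K ⊆ S`, so `F ∩ K = ∅` for all `K`, so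
`F ⊆ S`, and `S` would be bad. -/
theorem ClV.pf_of_maximal {W : Finset α} {G B : Finset α → Prop} (h : ClV W G B) {S : Finset α}
    (hS : HT W G B S) (hmax : ∀ S' : Finset α, S ⊂ S' → ¬ HT W G B S') : PF W G B S := by
  intro F hF hFS
  by_contra hcon
  push Not at hcon
  have hall := h.all_HT_of_not_PF hS hF hFS hcon
  have hFsub : F ⊆ S := by
    intro x hxF
    by_contra hxS
    obtain ⟨K, hK, hxK⟩ := exists_comp G (W \ S) (Finset.mem_sdiff.2 ⟨hF.1.1 hxF, hxS⟩)
    refine hmax (S ∪ (F ∩ K)) ?_ (hall K hK)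
    refine Finset.ssubset_iff_subset_ne.2 ⟨Finset.subset_union_left, ?_⟩
    intro heq
    apply hxS
    rw [heq]
    exact Finset.mem_union_right _ (Finset.mem_inter.2 ⟨hxF, hxK⟩)
  exact hS.1.2.2.1 (h.up F S hFsub hF.1.2.1)

end Pool.Agent.DK
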