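import Mathlib
import Pool.Agent.Lib_MP_6f255c_dk.VConv
import Pool.Agent.Lib_MP_6f255c_dk.VCross

/-!
# Step A, the pieces: adjacency, components, minimal bad sets

`K ∈ comps G (W \ S)`, `s ∈ S`.  The piece has ground set `insert s K`, graph family
`contrBad (gr G) S s` and bad family `contrBad B S s`.  The collapse map is `φ v = v` for `v ∈ K`,
`φ v = s` otherwise; it maps edges of `W` to equal or adjacent vertices.
-/

set_option autoImplicit false

namespace Pool.Agent.DK

open Classical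

variable {α : Type*}

/-! ### the pieces

`K ∈ comps G (W \ S)`, `s ∈ S`.  The piece has ground set `insert s K`, graph family
`contrBad (gr G) S s` and bad family `contrBad B S s`.  The collapse map is `φ v = v` for `v ∈ K`,
`φ v = s` otherwise; it maps edges of `W` to equal or adjacent vertices. -/

/-- adjacency in the piece. -/
theorem adj_piece {G : Finset α → Prop} {S : Finset α} {s : α} (hs : s ∈ S)
    (hSG : ∀ u ∈ S, ∀ v ∈ S, ¬ Adj G u v) {u v : α} (hu : u ∉ S) :
    (v ∉ S → (Adj (contrBad (gr G) S s) u v ↔ Adj G u v)) ∧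
    (Adj (contrBad (gr G) S s) u s ↔ ∃ w ∈ S, Adj G u w) := by
  constructor
  · intro hv
    have hsn : s ∉ ({u, v} : Finset α) := by
      intro h
      rcases Finset.mem_insert.1 h with h | h
      · exact hu (h ▸ hs)
      · exact hv ((Finset.mem_singleton.1 h) ▸ hs)
    have h1 : Adj (contrBad (gr G) S s) u v ↔ Adj (gr G) u v := by
      unfold Adj contrBad
      rw [if_neg hsn]
    rw [h1, adj_gr]
  · have hsm : s ∈ ({u, s} : Finset α) := by simp
    have h1 : Adj (contrBad (gr G) S s) u s ↔ (u ≠ s ∧ gr G ({u, s} ∪ S)) := by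
      unfold Adj contrBad
      rw [if_pos hsm]
    rw [h1]
    have hmem : ∀ a : α, a ∈ (({u, s} : Finset α) ∪ S) → a = u ∨ a ∈ S := by
      intro a ha
      simp only [Finset.mem_union, Finset.mem_insert, Finset.mem_singleton] at ha
      rcases ha with (ha | ha) | ha
      · exact Or.inl ha
      · exact Or.inr (ha ▸ hs)
      · exact Or.inr ha
    constructor
    · rintro ⟨_, a, ha, b, hb, hab⟩
      rcases hmem a ha with ha' | ha' <;> rcases hmem b hb with hb' | hb'
      · exact absurd (ha'.trans hb'.symm) hab.1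
      · exact ⟨b, hb', ha' ▸ hab⟩
      · exact ⟨a, ha', adj_symm (hb' ▸ hab)⟩
      · exact absurd hab (hSG a ha' b hb')
    · rintro ⟨w, hw, huw⟩
      refine ⟨fun h => hu (h ▸ hs), u, ?_, w, ?_, huw⟩
      · simp
      · exact Finset.mem_union_right _ hw

/-- components of a piece minus a set containing `s`: those of `K \ T` in the old graph. -/
theorem comps_piece_of_mem {G : Finset α → Prop} {W S K T : Finset α} {s : α} (hs : s ∈ S)
    (hSG : ∀ u ∈ S, ∀ v ∈ S, ¬ Adj G u v) (hK : K ∈ comps G (W \ S)) (hsT : s ∈ T) :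
    comps (contrBad (gr G) S s) (insert s K \ T) = comps G (K \ T) := by
  rw [Finset.insert_sdiff_of_mem K hsT]
  have hKsub := ((mem_comps_iff G (W \ S) K).1 hK).2.1.1
  have hnS : ∀ u ∈ K \ T, u ∉ S := by
    intro u hu
    exact (Finset.mem_sdiff.1 (hKsub (Finset.mem_sdiff.1 hu).1)).2
  exact comps_congr_adj fun u hu v hv => (adj_piece hs hSG (hnS u hu)).1 (hnS v hv)

/-- a set `T ⊆ K` leaves in the piece at most as many components as in `W`
(`card_comps_le_of_map` for the collapse map). -/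
theorem c_piece_le {G : Finset α → Prop} {W S K T : Finset α} {s : α} (hs : s ∈ S) (hS : S ⊆ W)
    (hSG : ∀ u ∈ S, ∀ v ∈ S, ¬ Adj G u v) (hK : K ∈ comps G (W \ S)) (hT : T ⊆ K) :
    c (insert s K) (contrBad (gr G) S s) T ≤ c W G T := by
  have hKc := ((mem_comps_iff G (W \ S) K).1 hK).2.1
  have hnS : ∀ u ∈ K, u ∉ S := fun u hu => (Finset.mem_sdiff.1 (hKc.1 hu)).2
  have hKW : ∀ u ∈ K, u ∈ W := fun u hu => (Finset.mem_sdiff.1 (hKc.1 hu)).1
  have hsK : s ∉ K := fun h => hnS s h hs
  have hout : ∀ u ∈ K, ∀ v ∈ W, v ∉ K → Adj G u v → v ∈ S := by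
    intro u hu v hv hvK huv
    by_contra hvS
    exact hvK (hKc.2 u hu v (Finset.mem_sdiff.2 ⟨hv, hvS⟩) huv)
  unfold c
  refine card_comps_le_of_map (fun v => if v ∈ K then v else s) ?_ ?_ ?_
  · intro v hv
    rw [Finset.mem_sdiff] at hv
    by_cases hvK : v ∈ K
    · rw [if_pos hvK]
      exact Finset.mem_sdiff.2 ⟨Finset.mem_insert_of_mem hvK, hv.2⟩
    · rw [if_neg hvK]
      exact Finset.mem_sdiff.2 ⟨Finset.mem_insert_self _ _, fun h => hsK (hT h)⟩
  · intro w hw
    rw [Finset.mem_sdiff, Finset.mem_insert] at hw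
    rcases hw.1 with hws | hwK
    · subst hws
      exact ⟨w, Finset.mem_sdiff.2 ⟨hS hs, hw.2⟩, if_neg hsK⟩
    · exact ⟨w, Finset.mem_sdiff.2 ⟨hKW w hwK, hw.2⟩, if_pos hwK⟩
  · intro u hu v hv huv
    rw [Finset.mem_sdiff] at hu hv
    by_cases huK : u ∈ K
    · by_cases hvK : v ∈ K
      · refine Or.inr ?_
        rw [if_pos huK, if_pos hvK]
        exact ((adj_piece hs hSG (hnS u huK)).1 (hnS v hvK)).2 huv
      · refine Or.inr ?_
        rw [if_pos huK, if_neg hvK]
        exact (adj_piece (v := v) hs hSG (hnS u huK)).2.2 ⟨v, hout u huK v hv.1 hvK huv, huv⟩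
    · by_cases hvK : v ∈ K
      · refine Or.inr ?_
        rw [if_neg huK, if_pos hvK]
        exact adj_symm ((adj_piece (v := u) hs hSG (hnS v hvK)).2.2
          ⟨u, hout v hvK u hu.1 huK (adj_symm huv), adj_symm huv⟩)
      · refine Or.inl ?_
        rw [if_neg huK, if_neg hvK]

/-- minimal bad non-edges of the piece: either `F ⊆ K` is an old minimal bad non-edge, or
`F = insert s (F₀ ∩ K)` for an old minimal bad non-edge `F₀ ⊆ S ∪ K` meeting `S`.

Proof. If `s ∉ F` then `contrBad` on subsets of `F` is `B`. If `s ∈ F`: `B (F ∪ S)`; let `F₀ ⊆ F ∪ S` be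
minimal bad. If `F₀ ∩ S = ∅` then `F₀ ⊆ F.erase s` is bad in the piece, contradicting minimality.
`contrBad B S s (insert s (F₀ ∩ K))` holds (its union with `S` contains `F₀`), so by minimality
`F = insert s (F₀ ∩ K)`.  If `F₀ = {u, v}` were an edge of `G`, then (`S` is not bad) `u ∈ S`, `v ∈ K` say,
`F = {s, v}` would be an edge of the piece. -/
theorem mb_piece {G B : Finset α → Prop} {W S K F : Finset α} (h : ClV W G B) {s : α}
    (hs : s ∈ S) (hS : Tight W G B S) (hK : K ∈ comps G (W \ S))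
    (hF : MB (insert s K) (contrBad (gr G) S s) (contrBad B S s) F) :
    (s ∉ F ∧ F ⊆ K ∧ MB W G B F) ∨
    (s ∈ F ∧ ∃ F₀, MB W G B F₀ ∧ F₀ ⊆ S ∪ K ∧ (F₀ ∩ S).Nonempty ∧ F = insert s (F₀ ∩ K)) := by
  have hKc := ((mem_comps_iff G (W \ S) K).1 hK).2.1
  have hnS : ∀ u ∈ K, u ∉ S := fun u hu => (Finset.mem_sdiff.1 (hKc.1 hu)).2
  have hKW : ∀ u ∈ K, u ∈ W := fun u hu => (Finset.mem_sdiff.1 (hKc.1 hu)).1
  have hsK : s ∉ K := fun h => hnS s h hs
  have hSG : ∀ u ∈ S, ∀ v ∈ S, ¬ Adj G u v := by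
    intro u hu v hv huv
    refine hS.2.2.1 (h.up {u, v} S ?_ (h.edge u (hS.1 hu) v (hS.1 hv) huv))
    intro z hz
    simp only [Finset.mem_insert, Finset.mem_singleton] at hz
    rcases hz with rfl | rfl
    · exact hu
    · exact hv
  obtain ⟨⟨hFsub, hFB, hFmin⟩, hFe⟩ := hF
  by_cases hsF : s ∈ F
  · refine Or.inr ⟨hsF, ?_⟩
    have hB : B (F ∪ S) := by
      unfold contrBad at hFB
      rwa [if_pos hsF] at hFB
    have hFSW : F ∪ S ⊆ W := by
      intro z hz
      rcases Finset.mem_union.1 hz with hz | hz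
      · rcases Finset.mem_insert.1 (hFsub hz) with hz | hz
        · exact hz ▸ hS.1 hs
        · exact hKW z hz
      · exact hS.1 hz
    obtain ⟨F₀, hF₀, hF₀m⟩ := exists_minBad hFSW hB
    have hFK : ∀ z ∈ F, z ≠ s → z ∈ K := by
      intro z hz hzs
      rcases Finset.mem_insert.1 (hFsub hz) with hz | hz
      · exact absurd hz hzs
      · exact hz
    have hF₀SK : ∀ z ∈ F₀, z ∉ S → z ∈ F ∧ z ∈ K := by
      intro z hz hzS
      rcases Finset.mem_union.1 (hF₀ hz) with hzF | hzS'
      · exact ⟨hzF, hFK z hzF (fun he => hzS (he ▸ hs))⟩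
      · exact absurd hzS' hzS
    have hne : (F₀ ∩ S).Nonempty := by
      by_contra hcon
      rw [Finset.not_nonempty_iff_eq_empty] at hcon
      have hnot : ∀ z ∈ F₀, z ∉ S := by
        intro z hz hzS
        have : z ∈ F₀ ∩ S := Finset.mem_inter.2 ⟨hz, hzS⟩
        rw [hcon] at this
        exact Finset.notMem_empty _ this
      have hsF₀ : s ∉ F₀ := fun hz => hnot s hz hs
      refine hFmin F₀ ⟨fun z hz => (hF₀SK z hz (hnot z hz)).1, fun hsub => hsF₀ (hsub hsF)⟩ ?_
      unfold contrBad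
      rw [if_neg hsF₀]
      exact hF₀m.2.1
    have hFeq : F = insert s (F₀ ∩ K) := by
      by_contra hcon
      have hsub : insert s (F₀ ∩ K) ⊆ F := by
        intro z hz
        rcases Finset.mem_insert.1 hz with hz | hz
        · exact hz ▸ hsF
        · rw [Finset.mem_inter] at hz
          exact (hF₀SK z hz.1 (hnS z hz.2)).1
      refine hFmin (insert s (F₀ ∩ K))
        ⟨hsub, fun hsub' => hcon (Finset.Subset.antisymm hsub' hsub)⟩ ?_
      unfold contrBad
      rw [if_pos (Finset.mem_insert_self _ _)]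
      refine h.up F₀ _ ?_ hF₀m.2.1
      intro z hz
      by_cases hzS : z ∈ S
      · exact Finset.mem_union_right _ hzS
      · refine Finset.mem_union_left _ (Finset.mem_insert_of_mem ?_)
        exact Finset.mem_inter.2 ⟨hz, (hF₀SK z hz hzS).2⟩
    refine ⟨F₀, ⟨hF₀m, ?_⟩, ?_, hne, hFeq⟩
    · rintro ⟨u, v, huv, hF₀e⟩
      -- one of `u`, `v` is in `S`
      have key : ∀ a b : α, Adj G a b → F₀ = {a, b} → a ∈ S → False := by
        intro a b hab he haS
        have hbF₀ : b ∈ F₀ := by rw [he]; simp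
        have hbS : b ∉ S := fun hbS => hSG a haS b hbS hab
        obtain ⟨hbF, hbK⟩ := hF₀SK b hbF₀ hbS
        have haK : a ∉ K := fun hh => hnS a hh haS
        have hi : F₀ ∩ K = {b} := by
          rw [he]
          ext z
          simp only [Finset.mem_inter, Finset.mem_insert, Finset.mem_singleton]
          constructor
          · rintro ⟨hz | hz, hzK⟩
            · exact absurd (hz ▸ hzK) haK
            · exact hz
          · intro hz
            exact ⟨Or.inr hz, hz ▸ hbK⟩
        refine hFe ⟨s, b, adj_symm ((adj_piece (v := a) hs hSG (hnS b hbK)).2.2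
          ⟨a, haS, adj_symm hab⟩), ?_⟩
        rw [hFeq, hi]
      obtain ⟨z, hz⟩ := hne
      rw [Finset.mem_inter, hF₀e, Finset.mem_insert, Finset.mem_singleton] at hz
      rcases hz with ⟨hz | hz, hzS⟩
      · exact key u v huv hF₀e (hz ▸ hzS)
      · exact key v u (adj_symm huv) (by rw [hF₀e, Finset.pair_comm]) (hz ▸ hzS)
    · intro z hz
      by_cases hzS : z ∈ S
      · exact Finset.mem_union_left _ hzS
      · exact Finset.mem_union_right _ (hF₀SK z hz hzS).2
  · refine Or.inl ⟨hsF, ?_⟩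
    have hFK : F ⊆ K := by
      intro z hz
      rcases Finset.mem_insert.1 (hFsub hz) with hz' | hz'
      · exact absurd (hz' ▸ hz) hsF
      · exact hz'
    have hB : B F := by
      unfold contrBad at hFB
      rwa [if_neg hsF] at hFB
    refine ⟨hFK, ⟨fun z hz => hKW z (hFK hz), hB, ?_⟩, ?_⟩
    · intro T hT hBT
      refine hFmin T hT ?_
      unfold contrBad
      rw [if_neg (fun hsT => hsF (hT.1 hsT))]
      exact hBT
    · rintro ⟨u, v, huv, he⟩
      have huK : u ∈ K := hFK (by rw [he]; simp)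
      have hvK : v ∈ K := hFK (by rw [he]; simp)
      exact hFe ⟨u, v, ((adj_piece hs hSG (hnS u huK)).1 (hnS v hvK)).2 huv, he⟩

end Pool.Agent.DK
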