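import Mathlib
import Pool.Agent.Lib_MP_6f255c_dk.StepAPiece
import Pool.Agent.Lib_MP_6f255c_dk.StepAPF

/-!
# Step A, the pieces are in class V

Notation as in StepAPiece.
-/

set_option autoImplicit false

namespace Pool.Agent.DK

open Classical

variable {α : Type*}

private theorem spv_noEdge {G B : Finset α → Prop} {W S : Finset α} (h : ClV W G B)
    (hS : Tight W G B S) : ∀ u ∈ S, ∀ v ∈ S, ¬ Adj G u v := by
  intro u hu v hv huv
  refine hS.2.2.1 (h.up _ _ ?_ (h.edge u (hS.1 hu) v (hS.1 hv) huv))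
  intro x hx
  rw [Finset.mem_insert, Finset.mem_singleton] at hx
  rcases hx with rfl | rfl
  · exact hu
  · exact hv

private theorem spv_up {B : Finset α → Prop} {S : Finset α} {s : α}
    (hup : ∀ T T' : Finset α, T ⊆ T' → B T → B T') {T T' : Finset α} (hT : T ⊆ T')
    (h : contrBad B S s T) : contrBad B S s T' := by
  unfold contrBad at h ⊢
  by_cases h1 : s ∈ T
  · rw [if_pos h1] at h
    rw [if_pos (hT h1)]
    exact hup _ _ (Finset.union_subset_union_left hT) h
  · rw [if_neg h1] at h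
    split_ifs
    · exact hup _ _ (hT.trans Finset.subset_union_left) h
    · exact hup _ _ hT h

private theorem spv_one {G B : Finset α → Prop} {W S : Finset α} (h : ClV W G B)
    (hS : Tight W G B S) {s : α} (hs : s ∈ S) (v : α) : ¬ contrBad B S s {v} := by
  intro hb
  unfold contrBad at hb
  split_ifs at hb with h1
  · rw [Finset.mem_singleton] at h1
    subst h1
    refine hS.2.2.1 (h.up _ _ ?_ hb)
    intro x hx
    rcases Finset.mem_union.1 hx with hx | hx
    · rw [Finset.mem_singleton] at hx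
      exact hx ▸ hs
    · exact hx
  · exact h.one v hb

/-- The collapse map maps edges to equal or adjacent vertices. -/
private theorem spv_coll {G : Finset α → Prop} {W S K : Finset α} {s : α} (hs : s ∈ S)
    (hSG : ∀ u ∈ S, ∀ v ∈ S, ¬ Adj G u v) (hK : K ∈ comps G (W \ S)) :
    ∀ u ∈ W, ∀ v ∈ W, Adj G u v → (if u ∈ K then u else s) = (if v ∈ K then v else s) ∨
      Adj (contrBad (gr G) S s) (if u ∈ K then u else s) (if v ∈ K then v else s) := by
  obtain ⟨_, hKcl, _⟩ := (mem_comps_iff G (W \ S) K).1 hK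
  have hKS : ∀ x ∈ K, x ∉ S := fun x hx => (Finset.mem_sdiff.1 (hKcl.1 hx)).2
  have key : ∀ u ∈ K, ∀ v ∈ W, v ∉ K → Adj G u v → Adj (contrBad (gr G) S s) u s := by
    intro u hu v hv hvK huv
    have hvS : v ∈ S := by
      by_contra hvS
      exact hvK (hKcl.2 u hu v (Finset.mem_sdiff.2 ⟨hv, hvS⟩) huv)
    exact ((adj_piece hs hSG (v := v) (hKS u hu)).2).2 ⟨v, hvS, huv⟩
  intro u hu v hv huv
  by_cases h1 : u ∈ K
  · by_cases h2 : v ∈ K
    · rw [if_pos h1, if_pos h2]
      exact Or.inr (((adj_piece hs hSG (hKS u h1)).1 (hKS v h2)).2 huv)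
    · rw [if_pos h1, if_neg h2]
      exact Or.inr (key u h1 v hv h2 huv)
  · by_cases h2 : v ∈ K
    · rw [if_neg h1, if_pos h2]
      exact Or.inr (adj_symm (key v h2 u hu h1 (adj_symm huv)))
    · rw [if_neg h1, if_neg h2]
      exact Or.inl rfl

/-- The number of components of the piece minus a set containing `s`. -/
private theorem spv_count {G B : Finset α → Prop} {W S K T : Finset α} (h : ClV W G B) {s : α}
    (hs : s ∈ S) (hS : Tight W G B S) (hK : K ∈ comps G (W \ S)) (hsT : s ∈ T)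
    (hT : T ⊆ insert s K) :
    c W G (S ∪ T) + 1 = S.card + c (insert s K) (contrBad (gr G) S s) T ∧
      (S ∪ T).card + 1 = S.card + T.card := by
  obtain ⟨_, hKcl, _⟩ := (mem_comps_iff G (W \ S) K).1 hK
  have hKS : ∀ x ∈ K, x ∉ S := fun x hx => (Finset.mem_sdiff.1 (hKcl.1 hx)).2
  have hsK : s ∉ K := fun hx => hKS s hx hs
  have hR : T.erase s ⊆ K := by
    intro x hx
    obtain ⟨hxs, hxT⟩ := Finset.mem_erase.1 hx
    exact (Finset.mem_insert.1 (hT hxT)).resolve_left hxs
  have hU : S ∪ T = S ∪ T.erase s := by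
    ext x
    simp only [Finset.mem_union, Finset.mem_erase]
    constructor
    · rintro (hx | hx)
      · exact Or.inl hx
      · by_cases hxs : x = s
        · exact Or.inl (hxs ▸ hs)
        · exact Or.inr ⟨hxs, hx⟩
    · rintro (hx | hx)
      · exact Or.inl hx
      · exact Or.inr hx.2
  have hcomp := comps_piece_of_mem hs (spv_noEdge h hS) hK hsT
  have hKT : K \ T = K \ T.erase s := by
    ext x
    simp only [Finset.mem_sdiff, Finset.mem_erase]
    constructor
    · rintro ⟨h1, h2⟩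
      exact ⟨h1, fun h3 => h2 h3.2⟩
    · rintro ⟨h1, h2⟩
      exact ⟨h1, fun h3 => h2 ⟨fun e => hsK (e ▸ h1), h3⟩⟩
  have h1 := c_union_of_subset_comp (W := W) (G := G) hK hR
  rw [h.c_tight hS, ← hU, ← hKT, ← hcomp] at h1
  refine ⟨h1, ?_⟩
  have hdis : Disjoint S (T.erase s) := by
    rw [Finset.disjoint_left]
    intro x hx hx'
    exact hKS x (hR hx') hx
  rw [hU, Finset.card_union_of_disjoint hdis, Finset.card_erase_of_mem hsT]
  have h2 : 0 < T.card := Finset.card_pos.2 ⟨s, hsT⟩
  omega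

private theorem spv_v2 {G B : Finset α → Prop} {W S K T : Finset α} (h : ClV W G B) {s : α}
    (hs : s ∈ S) (hS : Tight W G B S) (hK : K ∈ comps G (W \ S)) (hT : T ⊆ insert s K)
    (hne : T.Nonempty) (hnb : ¬ contrBad B S s T) :
    c (insert s K) (contrBad (gr G) S s) T ≤ T.card := by
  obtain ⟨_, hKcl, _⟩ := (mem_comps_iff G (W \ S) K).1 hK
  have hKW : K ⊆ W := hKcl.1.trans Finset.sdiff_subset
  unfold contrBad at hnb
  by_cases hsT : s ∈ T
  · rw [if_pos hsT] at hnb
    obtain ⟨h1, h2⟩ := spv_count h hs hS hK hsT hT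
    have h3 := h.v2 (S ∪ T) (Finset.union_subset hS.1 fun x hx => by
      rcases Finset.mem_insert.1 (hT hx) with rfl | hx
      · exact hS.1 hs
      · exact hKW hx) (hS.nonempty.mono Finset.subset_union_left)
      (by rwa [Finset.union_comm])
    omega
  · rw [if_neg hsT] at hnb
    have hTK : T ⊆ K := fun x hx => (Finset.mem_insert.1 (hT hx)).resolve_left
      fun e => hsT (e ▸ hx)
    exact (c_piece_le hs hS.1 (spv_noEdge h hS) hK hTK).trans
      (h.v2 T (hTK.trans hKW) hne hnb)

private theorem spv_v1a {G B : Finset α → Prop} {W S K F : Finset α} (h : ClV W G B) {s : α}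
    (hs : s ∈ S) (hS : HT W G B S) (hK : K ∈ comps G (W \ S)) (hsF : s ∉ F) (hFK : F ⊆ K)
    (hF : MB W G B F) : F.card ≤ c (insert s K) (contrBad (gr G) S s) F := by
  obtain ⟨_, hKcl, _⟩ := (mem_comps_iff G (W \ S) K).1 hK
  have hKW : K ⊆ W := hKcl.1.trans Finset.sdiff_subset
  have hKS : ∀ x ∈ K, x ∉ S := fun x hx => (Finset.mem_sdiff.1 (hKcl.1 hx)).2
  have hsK : s ∉ K := fun hx => hKS s hx hs
  have hSG := spv_noEdge h hS.1
  have hFS : Disjoint F S := by
    rw [Finset.disjoint_left]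
    exact fun x hx => hKS x (hFK hx)
  obtain ⟨D, hD, hSD⟩ := (h.nc_tight_symm hS.1 hF hFS).1 (hS.2 F hF hFS)
  obtain ⟨_, hDcl, _⟩ := (mem_comps_iff G (W \ F) D).1 hD
  have hFne : F.Nonempty := by
    rw [← Finset.card_pos]
    have := h.minBad_two_le hF.1
    omega
  -- the other components
  have hX : ∀ X ∈ (comps G (W \ F)).erase D, X ⊆ K ∧ Disjoint X D := by
    intro X hX
    obtain ⟨hne, hX'⟩ := Finset.mem_erase.1 hX
    have hdis := comps_disjoint G _ hX' hD hne
    exact ⟨comp_subset_of_nc h.conn (hFK.trans hKW) hFne hK hFK hX'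
      (hdis.mono_right hSD), hdis⟩
  refine (h.v1 F hF).trans ?_
  have hnot : (D ∩ K) ∪ {s} ∉ (comps G (W \ F)).erase D := by
    intro hm
    exact hsK ((hX _ hm).1 (Finset.mem_union_right _ (Finset.mem_singleton_self s)))
  have hcard : (insert ((D ∩ K) ∪ {s}) ((comps G (W \ F)).erase D)).card = c W G F := by
    rw [Finset.card_insert_of_notMem hnot, Finset.card_erase_of_mem hD]
    have : 0 < (comps G (W \ F)).card := Finset.card_pos.2 ⟨D, hD⟩
    unfold c
    omega
  rw [← hcard]
  refine card_le_comps _ _ _ ?_ ?_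
  · intro X hX'
    rcases Finset.mem_insert.1 hX' with rfl | hX'
    · refine ⟨⟨s, Finset.mem_union_right _ (Finset.mem_singleton_self s)⟩, ?_, ?_⟩
      · intro x hx
        rw [Finset.mem_sdiff, Finset.mem_insert]
        rcases Finset.mem_union.1 hx with hx | hx
        · obtain ⟨hxD, hxK⟩ := Finset.mem_inter.1 hx
          exact ⟨Or.inr hxK, (Finset.mem_sdiff.1 (hDcl.1 hxD)).2⟩
        · rw [Finset.mem_singleton] at hx
          subst hx
          exact ⟨Or.inl rfl, hsF⟩
      · intro u hu v hv huv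
        rw [Finset.mem_sdiff, Finset.mem_insert] at hv
        rcases hv.1 with rfl | hvK
        · exact Finset.mem_union_right _ (Finset.mem_singleton_self v)
        · refine Finset.mem_union_left _ (Finset.mem_inter.2 ⟨?_, hvK⟩)
          have hvWF : v ∈ W \ F := Finset.mem_sdiff.2 ⟨hKW hvK, hv.2⟩
          rcases Finset.mem_union.1 hu with hu | hu
          · obtain ⟨huD, huK⟩ := Finset.mem_inter.1 hu
            exact hDcl.2 u huD v hvWF
              (((adj_piece hs hSG (hKS u huK)).1 (hKS v hvK)).1 huv)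
          · rw [Finset.mem_singleton] at hu
            subst hu
            obtain ⟨w, hw, hvw⟩ := ((adj_piece hs hSG (v := v) (hKS v hvK)).2).1 (adj_symm huv)
            exact hDcl.2 w (hSD hw) v hvWF (adj_symm hvw)
    · obtain ⟨hXK, hXD⟩ := hX X hX'
      obtain ⟨hXne, hXcl, _⟩ := (mem_comps_iff G (W \ F) X).1 (Finset.mem_of_mem_erase hX')
      refine ⟨hXne, ?_, ?_⟩
      · intro x hx
        exact Finset.mem_sdiff.2 ⟨Finset.mem_insert_of_mem (hXK hx),
          (Finset.mem_sdiff.1 (hXcl.1 hx)).2⟩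
      · intro u hu v hv huv
        rw [Finset.mem_sdiff, Finset.mem_insert] at hv
        rcases hv.1 with rfl | hvK
        · exfalso
          obtain ⟨w, hw, huw⟩ := ((adj_piece hs hSG (v := v) (hKS u (hXK hu))).2).1 huv
          have hwX : w ∈ X := hXcl.2 u hu w (hDcl.1 (hSD hw)) huw
          exact Finset.disjoint_left.1 hXD hwX (hSD hw)
        · exact hXcl.2 u hu v (Finset.mem_sdiff.2 ⟨hKW hvK, hv.2⟩)
            (((adj_piece hs hSG (hKS u (hXK hu))).1 (hKS v hvK)).1 huv)
  · have hd0 : ∀ X ∈ (comps G (W \ F)).erase D, Disjoint ((D ∩ K) ∪ {s}) X := by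
      intro X hX'
      obtain ⟨hXK, hXD⟩ := hX X hX'
      rw [Finset.disjoint_left]
      intro x hx hxX
      rcases Finset.mem_union.1 hx with hx | hx
      · exact Finset.disjoint_left.1 hXD hxX (Finset.mem_inter.1 hx).1
      · rw [Finset.mem_singleton] at hx
        subst hx
        exact hsK (hXK hxX)
    intro X hX' Y hY' hXY
    show Disjoint X Y
    rw [Finset.mem_coe, Finset.mem_insert] at hX' hY'
    rcases hX' with rfl | hX' <;> rcases hY' with rfl | hY'
    · exact absurd rfl hXY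
    · exact hd0 Y hY'
    · exact (hd0 X hX').symm
    · exact comps_disjoint G _ (Finset.mem_of_mem_erase hX') (Finset.mem_of_mem_erase hY') hXY

private theorem spv_v1b {G B : Finset α → Prop} {W S K F F₀ : Finset α} (h : ClV W G B) {s : α}
    (hs : s ∈ S) (hS : Tight W G B S) (hK : K ∈ comps G (W \ S))
    (hF : MB (insert s K) (contrBad (gr G) S s) (contrBad B S s) F)
    (hsF : s ∈ F) (hF₀ : MB W G B F₀) (hF₀S : F₀ ⊆ S ∪ K) (hne : (F₀ ∩ S).Nonempty)
    (hFe : F = insert s (F₀ ∩ K)) : F.card ≤ c (insert s K) (contrBad (gr G) S s) F := by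
  obtain ⟨_, hKcl, _⟩ := (mem_comps_iff G (W \ S) K).1 hK
  have hKW : K ⊆ W := hKcl.1.trans Finset.sdiff_subset
  have hKS : ∀ x ∈ K, x ∉ S := fun x hx => (Finset.mem_sdiff.1 (hKcl.1 hx)).2
  have hSG := spv_noEdge h hS
  have hsm := submodular W G F₀ S hF₀.1.1 hS.1 (by
    intro u hu v hv huv
    obtain ⟨huF, huS⟩ := Finset.mem_sdiff.1 hu
    obtain ⟨hvS, _⟩ := Finset.mem_sdiff.1 hv
    have huK : u ∈ K := (Finset.mem_union.1 (hF₀S huF)).resolve_left huS
    have hus : u ≠ s := fun e => huS (e ▸ hs)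
    have hsub : ({u, s} : Finset α) ⊆ F := by
      intro x hx
      rw [Finset.mem_insert, Finset.mem_singleton] at hx
      rcases hx with rfl | rfl
      · rw [hFe]
        exact Finset.mem_insert_of_mem (Finset.mem_inter.2 ⟨huF, huK⟩)
      · exact hsF
    have hbad : contrBad B S s {u, s} := by
      unfold contrBad
      rw [if_pos (Finset.mem_insert_of_mem (Finset.mem_singleton_self s))]
      refine h.up _ _ ?_ (h.edge u (hKW huK) v (hS.1 hvS) huv)
      intro x hx
      rw [Finset.mem_insert, Finset.mem_singleton] at hx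
      rcases hx with rfl | rfl
      · exact Finset.mem_union_left _ (Finset.mem_insert_self _ _)
      · exact Finset.mem_union_right _ hvS
    have heq : ({u, s} : Finset α) = F := by
      by_contra hneq
      exact hF.1.2.2 _ (Finset.ssubset_iff_subset_ne.2 ⟨hsub, hneq⟩) hbad
    exact hF.2 ⟨u, s, ((adj_piece hs hSG (v := v) (hKS u huK)).2).2 ⟨v, hvS, huv⟩, heq.symm⟩)
  have h1 := h.v1 F₀ hF₀
  have h2 := h.v2 (F₀ ∩ S) (Finset.inter_subset_left.trans hF₀.1.1) hne
    (h.not_bad_of_subset Finset.inter_subset_right hS.2.2.1)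
  rw [h.c_tight hS] at hsm
  obtain ⟨h3, h4⟩ := spv_count h hs hS hK hsF hF.1.1
  have hU : F₀ ∪ S = S ∪ F := by
    rw [hFe]
    ext x
    simp only [Finset.mem_union, Finset.mem_insert, Finset.mem_inter]
    constructor
    · rintro (hx | hx)
      · rcases Finset.mem_union.1 (hF₀S hx) with hx' | hx'
        · exact Or.inl hx'
        · exact Or.inr (Or.inr ⟨hx, hx'⟩)
      · exact Or.inl hx
    · rintro (hx | rfl | hx)
      · exact Or.inr hx
      · exact Or.inr hs
      · exact Or.inl hx.1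
  have h5 : (F₀ ∪ S).card + (F₀ ∩ S).card = F₀.card + S.card :=
    Finset.card_union_add_card_inter F₀ S
  rw [hU] at hsm h5
  omega

private theorem spv_v1 {G B : Finset α → Prop} {W S K F : Finset α} (h : ClV W G B) {s : α}
    (hs : s ∈ S) (hS : HT W G B S) (hK : K ∈ comps G (W \ S))
    (hF : MB (insert s K) (contrBad (gr G) S s) (contrBad B S s) F) :
    F.card ≤ c (insert s K) (contrBad (gr G) S s) F := by
  rcases mb_piece h hs hS.1 hK hF with ⟨h1, h2, h3⟩ | ⟨h1, F₀, h2, h3, h4, h5⟩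
  · exact spv_v1a h hs hS hK h1 h2 h3
  · exact spv_v1b h hs hS.1 hK hF h1 h2 h3 h4 h5

private theorem spv_conn {G B : Finset α → Prop} {W S K : Finset α} (h : ClV W G B) {s : α}
    (hs : s ∈ S) (hS : Tight W G B S) (hK : K ∈ comps G (W \ S)) :
    (comps (contrBad (gr G) S s) (insert s K)).card ≤ 1 := by
  obtain ⟨_, hKcl, _⟩ := (mem_comps_iff G (W \ S) K).1 hK
  have hKW : K ⊆ W := hKcl.1.trans Finset.sdiff_subset
  have hKS : ∀ x ∈ K, x ∉ S := fun x hx => (Finset.mem_sdiff.1 (hKcl.1 hx)).2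
  refine le_trans (card_comps_le_of_map (fun v => if v ∈ K then v else s) (R := W) ?_ ?_
    (spv_coll hs (spv_noEdge h hS) hK)) h.conn
  · intro v _
    show (if v ∈ K then v else s) ∈ insert s K
    split_ifs with h1
    · exact Finset.mem_insert_of_mem h1
    · exact Finset.mem_insert_self _ _
  · intro w hw
    rcases Finset.mem_insert.1 hw with rfl | hw
    · exact ⟨w, hS.1 hs, if_neg fun hx => hKS w hx hs⟩
    · exact ⟨w, hKW hw, if_pos hw⟩

/-- the map of components of `W \ F`, `F ⊆ K`, to components of the piece minus `F` -/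
private theorem spv_img {G B : Finset α → Prop} {W S K F D : Finset α} (h : ClV W G B) {s : α}
    (hs : s ∈ S) (hS : Tight W G B S) (hK : K ∈ comps G (W \ S)) (hsF : s ∉ F)
    (hD : D ∈ comps G (W \ F)) :
    ∃ D' ∈ comps (contrBad (gr G) S s) (insert s K \ F),
      ∀ v ∈ D, (if v ∈ K then v else s) ∈ D' := by
  refine exists_comp_image (fun v => if v ∈ K then v else s) hD ?_ ?_
  · intro v hv
    show (if v ∈ K then v else s) ∈ insert s K \ F
    split_ifs with h1
    · exact Finset.mem_sdiff.2 ⟨Finset.mem_insert_of_mem h1, (Finset.mem_sdiff.1 hv).2⟩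
    · exact Finset.mem_sdiff.2 ⟨Finset.mem_insert_self _ _, hsF⟩
  · intro u hu v hv huv
    exact spv_coll hs (spv_noEdge h hS) hK u (Finset.mem_sdiff.1 hu).1 v
      (Finset.mem_sdiff.1 hv).1 huv

/-- the mixed case of `v3` -/
private theorem spv_mix {G B : Finset α → Prop} {W S K F F' F₀ : Finset α} (h : ClV W G B)
    {s : α} (hs : s ∈ S) (hS : HT W G B S) (hK : K ∈ comps G (W \ S))
    (hF₀ : MB W G B F₀) (hne : (F₀ ∩ S).Nonempty)
    (hFe : F = insert s (F₀ ∩ K)) (hF' : MB W G B F') (hF'K : F' ⊆ K) (hsF' : s ∉ F')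
    (hd : Disjoint F F') : NC (insert s K) (contrBad (gr G) S s) F' F := by
  obtain ⟨_, hKcl, _⟩ := (mem_comps_iff G (W \ S) K).1 hK
  have hKS : ∀ x ∈ K, x ∉ S := fun x hx => (Finset.mem_sdiff.1 (hKcl.1 hx)).2
  have hd1 : Disjoint F' F₀ := by
    rw [Finset.disjoint_left]
    intro x hx hx0
    refine Finset.disjoint_left.1 hd ?_ hx
    rw [hFe]
    exact Finset.mem_insert_of_mem (Finset.mem_inter.2 ⟨hx0, hF'K hx⟩)
  have hd2 : Disjoint F' S := by
    rw [Finset.disjoint_left]
    exact fun x hx => hKS x (hF'K hx)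
  have h1 : NC W G F' F₀ := h.v3 F' F₀ hF' hF₀ hd1
  have h2 : NC W G F' S := (h.nc_tight_symm hS.1 hF' hd2).1 (hS.2 F' hF' hd2)
  obtain ⟨D, hD, hDs⟩ := h1.union h2 hne
  obtain ⟨D', hD', hDD'⟩ := spv_img h hs hS.1 hK hsF' hD
  refine ⟨D', hD', ?_⟩
  intro x hx
  rw [hFe] at hx
  rcases Finset.mem_insert.1 hx with rfl | hx
  · have h3 := hDD' x (hDs (Finset.mem_union_right _ hs))
    rwa [if_neg fun hx => hKS x hx hs] at h3
  · obtain ⟨hx0, hxK⟩ := Finset.mem_inter.1 hx
    have h3 := hDD' x (hDs (Finset.mem_union_left _ hx0))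
    rwa [if_pos hxK] at h3

/-- The pieces are in class V.

Proof.  `up`, `one` (as in `stepA_phi`), `edge`: clear. `two`: `K` is nonempty and `s ∉ K`.
`conn`: `card_comps_le_of_map` for the collapse map from `W`.
`v2`, `T` not bad in the piece. If `s ∉ T`: `c_piece_le` and the old `v2`. If `s ∈ T`, put `R = T.erase s`,
`T ∪ S = S ∪ R` is not bad, so `c(S ∪ R) ≤ |S| + |R|`, and `c(S ∪ R) + 1 = |S| + #comps(K \ R)` by
`c_union_of_subset_comp`; the piece minus `T` has `#comps(K \ R) ≤ |R| + 1 = |T|` components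
(`comps_piece_of_mem`).
`v1`, by `mb_piece`. If `F ⊆ K`: `NC W G S F` by hyper-tightness, so `NC W G F S` (`nc_tight_symm`): `S ⊆ D` for a
component `D` of `W \ F`. Every other component `X` of `W \ F` is disjoint from `S`, hence contained in `K` by
`comp_subset_of_nc` (applied with `K := F`, `K' := S`, `D := K`), and it is closed in the piece minus `F` (no vertex of
`X` is adjacent to a vertex of `S`, which would be in `X`). The set `(D ∩ K) ∪ {s}` is closed in the
piece minus `F` too. So the sets `X` and `(D ∩ K) ∪ {s}` show with `card_le_comps` that the piece minus `F` has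
at least `c W G F ≥ |F|` components. If `F = insert s R`, `R = F₀ ∩ K`: no edges between `F₀ \ S = R` and
`S \ F₀` (if `r ∈ R` is adjacent to a vertex of `S` then `{s, r}` is a bad pair of the piece, so
`F = {s, r}` by minimality, and it is an edge), so G8 : `c(F₀) + c(S) ≤ c(F₀ ∪ S) + c(F₀ ∩ S)` and
`c(F₀) ≥ |F₀|`, `c(S) ≥ |S|`, `c(F₀ ∩ S) ≤ |F₀ ∩ S|` give `c(S ∪ R) ≥ |S| + |R|`, i.e.
`#comps(K \ R) ≥ |R| + 1 = |F|`.
`v3`, `F`, `F'` disjoint. By `nc_symm` in the piece (both are critical there by `v1`, `v2` of the piece; its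
connectivity conditions are `conn` and `v2` for singletons) it is enough to prove one of `NC F F'`,
`NC F' F` in the piece. If both are contained in `K`: `NC W G F F'`, then `exists_comp_image`.
If `F = insert s R` comes from `F₀` and `F' ⊆ K`: `F'` is disjoint from `F₀` and from `S`; `NC W G F' F₀` (old
`v3`), `NC W G F' S` (hyper-tightness and `nc_tight_symm`), so `NC W G F' (F₀ ∪ S)` (`NC.union`), and
`exists_comp_image` for the collapse map gives `NC F' F` in the piece. -/
theorem ClV.piece {G B : Finset α → Prop} {W S K : Finset α} (h : ClV W G B) {s : α}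
    (hs : s ∈ S) (hS : HT W G B S) (hK : K ∈ comps G (W \ S)) :
    ClV (insert s K) (contrBad (gr G) S s) (contrBad B S s) := by
  obtain ⟨hKne, hKcl, _⟩ := (mem_comps_iff G (W \ S) K).1 hK
  have hKW : K ⊆ W := hKcl.1.trans Finset.sdiff_subset
  have hKS : ∀ x ∈ K, x ∉ S := fun x hx => (Finset.mem_sdiff.1 (hKcl.1 hx)).2
  have hsK : s ∉ K := fun hx => hKS s hx hs
  have hconn := spv_conn h hs hS.1 hK
  have hone : ∀ v, ¬ contrBad B S s {v} := spv_one h hS.1 hs
  have hup : ∀ T T' : Finset α, T ⊆ T' → contrBad B S s T → contrBad B S s T' :=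
    fun T T' hT hb => spv_up h.up hT hb
  have hv2 : ∀ T : Finset α, T ⊆ insert s K → T.Nonempty → ¬ contrBad B S s T →
      c (insert s K) (contrBad (gr G) S s) T ≤ T.card :=
    fun T hT hne hnb => spv_v2 h hs hS.1 hK hT hne hnb
  have hv1 : ∀ F, MB (insert s K) (contrBad (gr G) S s) (contrBad B S s) F →
      F.card ≤ c (insert s K) (contrBad (gr G) S s) F := fun F hF => spv_v1 h hs hS hK hF
  have hsing : ∀ v ∈ insert s K,
      (comps (contrBad (gr G) S s) (insert s K \ {v})).card ≤ 1 := by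
    intro v hv
    have h1 := hv2 {v} (Finset.singleton_subset_iff.2 hv) (Finset.singleton_nonempty v) (hone v)
    rw [Finset.card_singleton] at h1
    exact h1
  have hcrit : ∀ F, MB (insert s K) (contrBad (gr G) S s) (contrBad B S s) F →
      Crit (insert s K) (contrBad (gr G) S s) F := by
    intro F hF
    have hne : F.Nonempty := by
      rw [Finset.nonempty_iff_ne_empty]
      rintro rfl
      exact hone s (hup ∅ {s} (Finset.empty_subset _) hF.1.2.1)
    exact ⟨hF.1.1, hne, hv1 F hF, fun T hT hTne =>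
      hv2 T (hT.1.trans hF.1.1) hTne (hF.1.2.2 T hT)⟩
  refine ⟨hup, hone, ?_, ?_, hconn, hv1, hv2, ?_⟩
  · rintro u hu v hv ⟨_, huv⟩
    have hgr : ∀ T : Finset α, T ⊆ W → gr G T → B T := by
      rintro T hT ⟨a, ha, b, hb, hab⟩
      refine h.up _ _ ?_ (h.edge a (hT ha) b (hT hb) hab)
      intro x hx
      rw [Finset.mem_insert, Finset.mem_singleton] at hx
      rcases hx with rfl | rfl
      · exact ha
      · exact hb
    have hsub : ({u, v} : Finset α) ⊆ W := by
      have hW' : ∀ x ∈ insert s K, x ∈ W := by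
        intro x hx
        rcases Finset.mem_insert.1 hx with rfl | hx
        · exact hS.1.1 hs
        · exact hKW hx
      intro x hx
      rw [Finset.mem_insert, Finset.mem_singleton] at hx
      rcases hx with rfl | rfl
      · exact hW' _ hu
      · exact hW' _ hv
    unfold contrBad at huv ⊢
    split_ifs at huv ⊢ with h1
    · exact hgr _ (Finset.union_subset hsub hS.1.1) huv
    · exact hgr _ hsub huv
  · rw [Finset.card_insert_of_notMem hsK]
    have := Finset.card_pos.2 hKne
    omega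
  · intro F F' hF hF' hd
    rcases mb_piece h hs hS.1 hK hF with ⟨h1, h2, h3⟩ | ⟨h1, F₀, h2, _, h4, h5⟩
    · rcases mb_piece h hs hS.1 hK hF' with ⟨k1, k2, k3⟩ | ⟨k1, F₀', k2, _, k4, k5⟩
      · obtain ⟨D, hD, hF'D⟩ := h.v3 F F' h3 k3 hd
        obtain ⟨D', hD', hDD'⟩ := spv_img h hs hS.1 hK h1 hD
        refine ⟨D', hD', fun x hx => ?_⟩
        have h6 := hDD' x (hF'D hx)
        rwa [if_pos (k2 hx)] at h6
      · exact spv_mix h hs hS hK k2 k4 k5 h3 h2 h1 hd.symm
    · rcases mb_piece h hs hS.1 hK hF' with ⟨k1, k2, k3⟩ | ⟨k1, F₀', k2, _, k4, k5⟩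
      · exact nc_symm hconn hsing (hcrit F' hF') (hcrit F hF) hd.symm
          (spv_mix h hs hS hK h2 h4 h5 k3 k2 k1 hd)
      · exact absurd k1 (Finset.disjoint_left.1 hd h1)

/-- Tight sets of a piece.

Proof. `T` tight in the piece. If `s ∉ T`: `T ⊆ K` is not bad and `|T| ≤ c_piece(T) ≤ c W G T`
(`c_piece_le`).  If `s ∈ T`, `R = T.erase s`, `S ∪ T = S ∪ R` is not bad and
`c(S ∪ R) + 1 = |S| + #comps(K \ R) ≥ |S| + |T|`. -/
theorem tight_piece {G B : Finset α → Prop} {W S K T : Finset α} (h : ClV W G B) {s : α}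
    (hs : s ∈ S) (hS : HT W G B S) (hK : K ∈ comps G (W \ S))
    (hT : Tight (insert s K) (contrBad (gr G) S s) (contrBad B S s) T) :
    (s ∉ T ∧ T ⊆ K ∧ Tight W G B T) ∨ (s ∈ T ∧ Tight W G B (S ∪ T)) := by
  obtain ⟨_, hKcl, _⟩ := (mem_comps_iff G (W \ S) K).1 hK
  have hKW : K ⊆ W := hKcl.1.trans Finset.sdiff_subset
  obtain ⟨hTW, hT2, hTb, hTc⟩ := hT
  unfold contrBad at hTb
  by_cases hsT : s ∈ T
  · rw [if_pos hsT] at hTb
    right
    obtain ⟨h1, h2⟩ := spv_count h hs hS.1 hK hsT hTW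
    refine ⟨hsT, Finset.union_subset hS.1.1 fun x hx => ?_, ?_, ?_, ?_⟩
    · rcases Finset.mem_insert.1 (hTW hx) with rfl | hx
      · exact hS.1.1 hs
      · exact hKW hx
    · have := hS.1.2.1
      omega
    · rwa [Finset.union_comm]
    · omega
  · rw [if_neg hsT] at hTb
    left
    have hTK : T ⊆ K := fun x hx => (Finset.mem_insert.1 (hTW hx)).resolve_left
      fun e => hsT (e ▸ hx)
    exact ⟨hsT, hTK, hTK.trans hKW, hT2, hTb,
      hTc.trans (c_piece_le hs hS.1.1 (spv_noEdge h hS.1) hK hTK)⟩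

end Pool.Agent.DK
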