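import Mathlib
import Pool.Agent.Lib_MP_6f255c_dk.StepCPhi
import Pool.Agent.Lib_MP_6f255c_dk.VConv
import Pool.Agent.Lib_MP_6f255c_dk.VCross

/-!
# Step C: the pieces are in class V
-/

set_option autoImplicit false

namespace Pool.Agent.DK

open Classical

variable {α : Type*}

private theorem splitC_swap {W : Finset α} {B : Finset α → Prop} {a b : α} {P : Finset α}
    (hs : Split W B a b P) : Split W B b a P := by
  refine ⟨hs.hb, hs.ha, adj_symm hs.hab, ?_, hs.hne, ?_⟩
  · rw [Finset.pair_comm]; exact hs.hP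
  · rw [Finset.pair_comm]; exact hs.hne'

private theorem pieceC_subset {W : Finset α} {B : Finset α → Prop} {a b : α} {P : Finset α}
    (hs : Split W B a b P) : insert a (insert b P) ⊆ W := by
  intro x hx
  rw [Finset.mem_insert, Finset.mem_insert] at hx
  rcases hx with rfl | rfl | hx
  · exact hs.ha
  · exact hs.hb
  · exact (Finset.mem_sdiff.1 (hs.hP.1 hx)).1

/-- `Q` is closed in `W \ {a, b}`. -/
private theorem closedQ {W : Finset α} {B : Finset α → Prop} {a b : α} {P : Finset α}
    (hs : Split W B a b P) : ClosedIn B (W \ {a, b}) ((W \ {a, b}) \ P) := by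
  refine ⟨Finset.sdiff_subset, ?_⟩
  intro u hu v hv huv
  rw [Finset.mem_sdiff] at hu ⊢
  refine ⟨hv, fun hvP => hu.2 ?_⟩
  exact hs.hP.2 v hvP u hu.1 (adj_symm huv)

/-- every component of `W \ {a, b}` has a neighbour of `a`. -/
private theorem touches_a {W : Finset α} {B : Finset α → Prop} (h : ClV W B B)
    {a b : α} (ha : a ∈ W) (hb : b ∈ W) (hab : Adj B a b) {K : Finset α}
    (hK : K ∈ comps B (W \ {a, b})) : ∃ u ∈ K, Adj B u a := by
  by_contra hcon
  push Not at hcon
  obtain ⟨hKne, hKcl, -⟩ := (mem_comps_iff B _ K).1 hK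
  -- `K` is closed in `W \ {b}`
  have hcl : ClosedIn B (W \ {b}) K := by
    refine ⟨?_, ?_⟩
    · intro x hx
      have := hKcl.1 hx
      simp only [Finset.mem_sdiff, Finset.mem_insert, Finset.mem_singleton] at this ⊢
      exact ⟨this.1, fun hxb => this.2 (Or.inr hxb)⟩
    · intro u hu v hv huv
      have hva : v ≠ a := by
        rintro rfl
        exact hcon u hu huv
      refine hKcl.2 u hu v ?_ huv
      simp only [Finset.mem_sdiff, Finset.mem_insert, Finset.mem_singleton] at hv ⊢
      exact ⟨hv.1, fun h1 => h1.elim hva hv.2⟩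
  have haK : a ∉ K := by
    intro haK
    have := hKcl.1 haK
    simp at this
  have hab' : a ≠ b := hab.1
  have haW : a ∈ W \ {b} := by
    simp [ha, hab']
  obtain ⟨D, hD, haD⟩ := exists_comp B (W \ {b}) haW
  obtain ⟨x, hx⟩ := hKne
  obtain ⟨E, hE, hxE⟩ := exists_comp B (W \ {b}) (hcl.1 hx)
  have hEK : E ⊆ K := comp_subset_of_closed B _ K hcl hE hxE hx
  have hDE : D ≠ E := by
    rintro rfl
    exact haK (hEK haD)
  have hcard := h.card_comps_sdiff_singleton hb
  exact hDE (Finset.card_le_one.1 hcard D hD E hE)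

/-- the vertices of `Q` are outside of the piece. -/
private theorem notMem_piece_of_Q {W : Finset α} {a b : α} {P : Finset α} {x : α}
    (hx : x ∈ (W \ {a, b}) \ P) : x ∉ insert a (insert b P) := by
  simp only [Finset.mem_sdiff, Finset.mem_insert, Finset.mem_singleton] at hx ⊢
  rintro (h | h | h)
  · exact hx.1.2 (Or.inl h)
  · exact hx.1.2 (Or.inr h)
  · exact hx.2 h

private theorem mem_piece_or_Q {W : Finset α} {a b : α} {P : Finset α} {x : α} (hx : x ∈ W) :
    x ∈ insert a (insert b P) ∨ x ∈ (W \ {a, b}) \ P := by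
  by_cases h : x ∈ insert a (insert b P)
  · exact Or.inl h
  · right
    simp only [Finset.mem_sdiff, Finset.mem_insert, Finset.mem_singleton] at h ⊢
    push Not at h
    exact ⟨⟨hx, fun h' => h'.elim h.1 h.2.1⟩, h.2.2⟩

private theorem joined_Q_aux {W : Finset α} {B : Finset α → Prop} (h : ClV W B B)
    {a b : α} {P : Finset α} (hs : Split W B a b P)
    {T : Finset α} (hT : T ⊆ insert a (insert b P)) (_haT : a ∉ T) {D : Finset α}
    (hD : D ∈ comps B (W \ T)) (haD : a ∈ D) : (W \ {a, b}) \ P ⊆ D := by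
  intro q hq
  have hq' : q ∈ W \ {a, b} := (Finset.mem_sdiff.1 hq).1
  obtain ⟨K, hK, hqK⟩ := exists_comp B (W \ {a, b}) hq'
  have hKQ : K ⊆ (W \ {a, b}) \ P := comp_subset_of_closed B _ _ (closedQ hs) hK hqK hq
  obtain ⟨hKne, hKcl, hKmin⟩ := (mem_comps_iff B _ K).1 hK
  obtain ⟨hDne, hDcl, -⟩ := (mem_comps_iff B _ D).1 hD
  have hKT : ∀ x ∈ K, x ∈ W \ T := by
    intro x hx
    rw [Finset.mem_sdiff]
    exact ⟨(Finset.mem_sdiff.1 (hKcl.1 hx)).1, fun hxT => notMem_piece_of_Q (hKQ hx) (hT hxT)⟩
  obtain ⟨u, huK, hua⟩ := touches_a h hs.ha hs.hb hs.hab hK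
  have huD : u ∈ D := hDcl.2 a haD u (hKT u huK) (adj_symm hua)
  have hKD : K ∩ D = K := by
    refine hKmin _ Finset.inter_subset_left ⟨u, Finset.mem_inter.2 ⟨huK, huD⟩⟩ ?_
    refine ⟨fun x hx => hKcl.1 (Finset.mem_inter.1 hx).1, ?_⟩
    intro x hx y hy hxy
    rw [Finset.mem_inter] at hx ⊢
    have hyK : y ∈ K := hKcl.2 x hx.1 y hy hxy
    exact ⟨hyK, hDcl.2 x hx.2 y (hKT y hyK) hxy⟩
  have : q ∈ K ∩ D := by rw [hKD]; exact hqK
  exact (Finset.mem_inter.1 this).2

/-- the core lemma: `a ∉ T`; the trace of a component of `W \ T` on the piece is a component. -/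
private theorem trace_mem {W : Finset α} {B : Finset α → Prop} (h : ClV W B B)
    {a b : α} {P : Finset α} (hs : Split W B a b P)
    {T : Finset α} (hT : T ⊆ insert a (insert b P)) (haT : a ∉ T) {D : Finset α}
    (hD : D ∈ comps B (W \ T)) :
    D ∩ insert a (insert b P) ∈ comps B (insert a (insert b P) \ T) := by
  have hsub := pieceC_subset hs
  obtain ⟨hDne, hDcl, hDmin⟩ := (mem_comps_iff B _ D).1 hD
  have haW : a ∈ W \ T := Finset.mem_sdiff.2 ⟨hs.ha, haT⟩
  have haV : a ∈ insert a (insert b P) \ T := by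
    rw [Finset.mem_sdiff]; exact ⟨by simp, haT⟩
  by_cases haD : a ∈ D
  · have hQD := joined_Q_aux h hs hT haT hD haD
    refine (mem_comps_iff B _ _).2 ⟨⟨a, Finset.mem_inter.2 ⟨haD, by simp⟩⟩, ⟨?_, ?_⟩, ?_⟩
    · intro x hx
      rw [Finset.mem_inter] at hx
      rw [Finset.mem_sdiff]
      exact ⟨hx.2, (Finset.mem_sdiff.1 (hDcl.1 hx.1)).2⟩
    · intro u hu v hv huv
      rw [Finset.mem_inter] at hu ⊢
      rw [Finset.mem_sdiff] at hv
      exact ⟨hDcl.2 u hu.1 v (Finset.mem_sdiff.2 ⟨hsub hv.1, hv.2⟩) huv, hv.1⟩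
    · intro X hX hXne hXcl
      by_cases haX : a ∈ X
      · have hcl : ClosedIn B (W \ T) (X ∪ ((W \ {a, b}) \ P)) := by
          refine ⟨?_, ?_⟩
          · intro x hx
            rcases Finset.mem_union.1 hx with hx | hx
            · exact hDcl.1 (Finset.mem_inter.1 (hX hx)).1
            · exact hDcl.1 (hQD hx)
          · intro u hu v hv huv
            rw [Finset.mem_sdiff] at hv
            rw [Finset.mem_union]
            rcases mem_piece_or_Q (a := a) (b := b) (P := P) hv.1 with hvV | hvQ
            · left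
              rcases Finset.mem_union.1 hu with hu | hu
              · exact hXcl.2 u hu v (Finset.mem_sdiff.2 ⟨hvV, hv.2⟩) huv
              · have hvab : v = a ∨ v = b := by
                  by_contra hcon
                  have hvW : v ∈ W \ {a, b} := by
                    simp only [Finset.mem_sdiff, Finset.mem_insert, Finset.mem_singleton]
                    exact ⟨hv.1, hcon⟩
                  exact notMem_piece_of_Q ((closedQ hs).2 u hu v hvW huv) hvV
                rcases hvab with rfl | rfl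
                · exact haX
                · exact hXcl.2 a haX v (Finset.mem_sdiff.2 ⟨hvV, hv.2⟩) hs.hab
            · exact Or.inr hvQ
        have hXD : X ∪ ((W \ {a, b}) \ P) = D := by
          refine hDmin _ ?_ ⟨a, Finset.mem_union_left _ haX⟩ hcl
          intro x hx
          rcases Finset.mem_union.1 hx with hx | hx
          · exact (Finset.mem_inter.1 (hX hx)).1
          · exact hQD hx
        refine Finset.Subset.antisymm hX ?_
        intro x hx
        rw [Finset.mem_inter] at hx
        rw [← hXD] at hx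
        rcases Finset.mem_union.1 hx.1 with h1 | h1
        · exact h1
        · exact absurd hx.2 (notMem_piece_of_Q h1)
      · exfalso
        have hcl : ClosedIn B (W \ T) X := by
          refine ⟨fun x hx => hDcl.1 (Finset.mem_inter.1 (hX hx)).1, ?_⟩
          intro u hu v hv huv
          rw [Finset.mem_sdiff] at hv
          rcases mem_piece_or_Q (a := a) (b := b) (P := P) hv.1 with hvV | hvQ
          · exact hXcl.2 u hu v (Finset.mem_sdiff.2 ⟨hvV, hv.2⟩) huv
          · exfalso
            have huV : u ∈ insert a (insert b P) := (Finset.mem_inter.1 (hX hu)).2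
            rw [Finset.mem_insert, Finset.mem_insert] at huV
            rcases huV with rfl | rfl | huP
            · exact haX hu
            · exact haX (hXcl.2 u hu a haV (adj_symm hs.hab))
            · have hvW : v ∈ W \ {a, b} := (Finset.mem_sdiff.1 hvQ).1
              exact (Finset.mem_sdiff.1 hvQ).2 (hs.hP.2 u huP v hvW huv)
        have hXD : X = D :=
          hDmin X (fun x hx => (Finset.mem_inter.1 (hX hx)).1) hXne hcl
        rw [hXD] at haX
        exact haX haD
  · -- `D` is contained in the piece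
    obtain ⟨D₀, hD₀, haD₀⟩ := exists_comp B (W \ T) haW
    have hQD := joined_Q_aux h hs hT haT hD₀ haD₀
    have hne : D ≠ D₀ := by rintro rfl; exact haD haD₀
    have hdis := comps_disjoint B _ hD hD₀ hne
    have hDV : D ⊆ insert a (insert b P) := by
      intro x hx
      rcases mem_piece_or_Q (a := a) (b := b) (P := P) (Finset.mem_sdiff.1 (hDcl.1 hx)).1 with
        hxV | hxQ
      · exact hxV
      · exact absurd (hQD hxQ) (Finset.disjoint_left.1 hdis hx)
    rw [Finset.inter_eq_left.2 hDV]
    refine mem_comps_of_superset B (W \ T) _ D ?_ hD ?_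
    · exact Finset.sdiff_subset_sdiff hsub (Finset.Subset.refl _)
    · intro x hx
      exact Finset.mem_sdiff.2 ⟨hDV hx, (Finset.mem_sdiff.1 (hDcl.1 hx)).2⟩

/-- the same for a set not containing both `a` and `b`. -/
private theorem trace_mem' {W : Finset α} {B : Finset α → Prop} (h : ClV W B B)
    {a b : α} {P : Finset α} (hs : Split W B a b P)
    {T : Finset α} (hT : T ⊆ insert a (insert b P)) (hTab : ¬ (a ∈ T ∧ b ∈ T)) {D : Finset α}
    (hD : D ∈ comps B (W \ T)) :
    D ∩ insert a (insert b P) ∈ comps B (insert a (insert b P) \ T) := by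
  by_cases haT : a ∈ T
  · have hbT : b ∉ T := fun hb => hTab ⟨haT, hb⟩
    rw [Finset.insert_comm] at hT ⊢
    exact trace_mem h (splitC_swap hs) hT hbT hD
  · exact trace_mem h hs hT haT hD

private theorem comps_eq_image {W : Finset α} {B : Finset α → Prop} (h : ClV W B B)
    {a b : α} {P : Finset α} (hs : Split W B a b P)
    {T : Finset α} (hT : T ⊆ insert a (insert b P)) (hTab : ¬ (a ∈ T ∧ b ∈ T)) :
    comps B (insert a (insert b P) \ T) =
      (comps B (W \ T)).image (fun D => D ∩ insert a (insert b P)) := by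
  have hsub := pieceC_subset hs
  ext D'
  rw [Finset.mem_image]
  constructor
  · intro hD'
    obtain ⟨⟨v, hv⟩, hcl, -⟩ := (mem_comps_iff B _ D').1 hD'
    have hvV := Finset.mem_sdiff.1 (hcl.1 hv)
    obtain ⟨D, hD, hvD⟩ := exists_comp B (W \ T) (Finset.mem_sdiff.2 ⟨hsub hvV.1, hvV.2⟩)
    refine ⟨D, hD, ?_⟩
    by_contra hne
    exact (Finset.disjoint_left.1 (comps_disjoint B _ (trace_mem' h hs hT hTab hD) hD' hne))
      (Finset.mem_inter.2 ⟨hvD, hvV.1⟩) hv
  · rintro ⟨D, hD, rfl⟩
    exact trace_mem' h hs hT hTab hD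

/-- For a set `T ⊆ P + a + b` which does not contain both `a` and `b`, the piece minus `T` has as many
components as `W` minus `T`.

Proof. Every component `L` of `W \ {a, b}` touches `a` and `b` (see `blocked`).  Let `a ∉ T` say. The component
`D` of `W \ T` containing `a` contains `Q` (and `b` if `b ∉ T`); the other components of `W \ T` are
contained in `P` and are components of the piece minus `T`.  `≤`: `card_comps_le_of_map` with `φ : W → P + a + b`,
`φ v = v` for `v` in the piece, `φ v = a` otherwise (an edge between `Q` and `b`, `b ∉ T`, goes to the pair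
`a b`, which is an edge).  `≥`: `card_le_comps` with the closed sets `D ∩ (P + a + b)`. -/
theorem c_pieceC {W : Finset α} {B : Finset α → Prop} (h : ClV W B B)
    {a b : α} {P : Finset α} (hs : Split W B a b P)
    {T : Finset α} (hT : T ⊆ insert a (insert b P)) (hTab : ¬ (a ∈ T ∧ b ∈ T)) :
    c (insert a (insert b P)) B T = c W B T := by
  unfold c
  rw [comps_eq_image h hs hT hTab]
  refine Finset.card_image_of_injOn ?_
  intro D hD E hE hDE
  by_contra hne
  have hD' : D ∈ comps B (W \ T) := Finset.mem_coe.1 hD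
  have hE' : E ∈ comps B (W \ T) := Finset.mem_coe.1 hE
  obtain ⟨⟨x, hx⟩, -⟩ := (mem_comps_iff B _ _).1 (trace_mem' h hs hT hTab hD')
  have hxE : x ∈ E ∩ insert a (insert b P) := by
    have : D ∩ insert a (insert b P) = E ∩ insert a (insert b P) := hDE
    rw [← this]; exact hx
  exact (Finset.disjoint_left.1 (comps_disjoint B _ hD' hE' hne)) (Finset.mem_inter.1 hx).1
    (Finset.mem_inter.1 hxE).1

/-- Two vertices of the piece are in one component of the piece minus `T` iff they are in one component of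
`W \ T` (`T` not containing both `a` and `b`). Same proof as `c_pieceC`. -/
theorem joined_pieceC {W : Finset α} {B : Finset α → Prop} (h : ClV W B B)
    {a b : α} {P : Finset α} (hs : Split W B a b P)
    {T : Finset α} (hT : T ⊆ insert a (insert b P)) (hTab : ¬ (a ∈ T ∧ b ∈ T)) {u v : α}
    (hu : u ∈ insert a (insert b P) \ T) (hv : v ∈ insert a (insert b P) \ T) :
    (∃ D ∈ comps B (insert a (insert b P) \ T), u ∈ D ∧ v ∈ D) ↔
      (∃ D ∈ comps B (W \ T), u ∈ D ∧ v ∈ D) := by
  constructor
  · rintro ⟨D', hD', hu', hv'⟩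
    rw [comps_eq_image h hs hT hTab, Finset.mem_image] at hD'
    obtain ⟨D, hD, rfl⟩ := hD'
    exact ⟨D, hD, (Finset.mem_inter.1 hu').1, (Finset.mem_inter.1 hv').1⟩
  · rintro ⟨D, hD, hu', hv'⟩
    exact ⟨_, trace_mem' h hs hT hTab hD, Finset.mem_inter.2 ⟨hu', (Finset.mem_sdiff.1 hu).1⟩,
      Finset.mem_inter.2 ⟨hv', (Finset.mem_sdiff.1 hv).1⟩⟩

/-- If `a ∉ T ⊆ P + a + b`, then `a` and all of `Q` are in one component of `W \ T`. -/
theorem joined_Q {W : Finset α} {B : Finset α → Prop} (h : ClV W B B)
    {a b : α} {P : Finset α} (hs : Split W B a b P)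
    {T : Finset α} (hT : T ⊆ insert a (insert b P)) (haT : a ∉ T) :
    ∃ D ∈ comps B (W \ T), a ∈ D ∧ (W \ {a, b}) \ P ⊆ D := by
  obtain ⟨D, hD, haD⟩ := exists_comp B (W \ T) (Finset.mem_sdiff.2 ⟨hs.ha, haT⟩)
  exact ⟨D, hD, haD, joined_Q_aux h hs hT haT hD haD⟩

/-- minimal bad non-edges of the pieces are old ones. -/
private theorem mb_pieceC_aux {W : Finset α} {B : Finset α → Prop}
    {a b : α} {P F : Finset α} (hs : Split W B a b P) (hF : MB (insert a (insert b P)) B B F) :
    MB W B B F :=
  ⟨⟨hF.1.1.trans (pieceC_subset hs), hF.1.2.1, hF.1.2.2⟩, hF.2⟩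

private theorem mb_not_both {W : Finset α} {B : Finset α → Prop} {a b : α} {P : Finset α}
    (hs : Split W B a b P) {V F : Finset α} (hF : MB V B B F) : ¬ (a ∈ F ∧ b ∈ F) := by
  rintro ⟨ha, hb⟩
  have hsubF : ({a, b} : Finset α) ⊆ F := by
    intro x hx
    rw [Finset.mem_insert, Finset.mem_singleton] at hx
    rcases hx with rfl | rfl
    · exact ha
    · exact hb
  rcases eq_or_ne F {a, b} with heq | hne
  · exact hF.2 ⟨a, b, hs.hab, heq⟩
  · exact hF.1.2.2 {a, b} (Finset.ssubset_iff_subset_ne.2 ⟨hsubF, hne.symm⟩) hs.hab.2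

private theorem notBad_not_both {W : Finset α} {B : Finset α → Prop} (h : ClV W B B) {a b : α}
    {P : Finset α} (hs : Split W B a b P) {S : Finset α} (hS : ¬ B S) : ¬ (a ∈ S ∧ b ∈ S) := by
  rintro ⟨ha, hb⟩
  refine hS (h.up {a, b} S ?_ hs.hab.2)
  intro x hx
  rw [Finset.mem_insert, Finset.mem_singleton] at hx
  rcases hx with rfl | rfl
  · exact ha
  · exact hb

/-- The pieces are in class V.

Proof. The bad sets inside the piece are the old ones; the minimal bad non-edges and the non-bad sets do not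
contain both `a` and `b`; so `v1`, `v2` by `c_pieceC`, `v3` by `joined_pieceC` (`NC` for a nonempty set `F'`: all
its vertices are in the component of one of them). `conn`: `c_pieceC` with `T = ∅`. -/
theorem ClV.pieceC {W : Finset α} {B : Finset α → Prop} (h : ClV W B B)
    {a b : α} {P : Finset α} (hs : Split W B a b P) : ClV (insert a (insert b P)) B B := by
  refine ⟨h.up, h.one, fun _ _ _ _ huv => huv.2, ?_, ?_, ?_, ?_, ?_⟩
  · have hsub : ({a, b} : Finset α) ⊆ insert a (insert b P) := by
      intro x hx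
      rw [Finset.mem_insert, Finset.mem_singleton] at hx
      rcases hx with rfl | rfl
      · simp
      · simp
    calc 2 = ({a, b} : Finset α).card := (Finset.card_pair hs.hab.1).symm
      _ ≤ _ := Finset.card_le_card hsub
  · have h0 := c_pieceC h hs (T := ∅) (Finset.empty_subset _) (by simp)
    unfold c at h0
    rw [Finset.sdiff_empty, Finset.sdiff_empty] at h0
    rw [h0]
    exact h.conn
  · intro F hF
    rw [c_pieceC h hs hF.1.1 (mb_not_both hs hF)]
    exact h.v1 F (mb_pieceC_aux hs hF)
  · intro S hS hSne hSB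
    rw [c_pieceC h hs hS (notBad_not_both h hs hSB)]
    exact h.v2 S (hS.trans (pieceC_subset hs)) hSne hSB
  · intro F F' hF hF' hd
    obtain ⟨D, hD, hFD⟩ := h.v3 F F' (mb_pieceC_aux hs hF) (mb_pieceC_aux hs hF') hd
    refine ⟨_, trace_mem' h hs hF.1.1 (mb_not_both hs hF) hD, ?_⟩
    intro x hx
    exact Finset.mem_inter.2 ⟨hFD hx, hF'.1.1 hx⟩

/-- minimal bad non-edges of the pieces are old ones. -/
theorem mb_pieceC {W : Finset α} {B : Finset α → Prop}
    {a b : α} {P F : Finset α} (hs : Split W B a b P) (hF : MB (insert a (insert b P)) B B F) :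
    MB W B B F :=
  mb_pieceC_aux hs hF

/-- tight sets of the pieces are old tight sets (`c_pieceC`). -/
theorem tight_pieceC {W : Finset α} {B : Finset α → Prop} (h : ClV W B B)
    {a b : α} {P : Finset α} (hs : Split W B a b P) {T : Finset α}
    (hT : Tight (insert a (insert b P)) B B T) : Tight W B B T := by
  refine ⟨hT.1.trans (pieceC_subset hs), hT.2.1, hT.2.2.1, ?_⟩
  rw [← c_pieceC h hs hT.1 (notBad_not_both h hs hT.2.2.1)]
  exact hT.2.2.2

end Pool.Agent.DK
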