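import Mathlib
import Pool.Agent.Lib_MP_6f255c_dk.DDefs
import Pool.Agent.Lib_MP_6f255c_dk.StepAAdd
import Pool.Agent.Lib_MP_6f255c_dk.StepAPieceV
import Pool.Agent.Lib_MP_6f255c_dk.StepCPiece

/-!
# Class D is closed under Steps A and C
-/

set_option autoImplicit false

namespace Pool.Agent.DK

open Classical

variable {α : Type*}

/-- Step A, truncated state.

Proof. `ClV.addBad`, then `ClV.conv`. A tight set `T` of `(W, addBad B S)` (canonical graph) is tight for the graph
`Adj B` (`ClV.tight_of_conv`), hence tight in `(W, B)` (`tight_addBad`), hence a weak separator; the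
components of `W \ T` are the same for both graphs (`ClV.comps_tight_conv`). -/
theorem ClD.addBad {W : Finset α} {B : Finset α → Prop} {x y : α} (h : ClD W B x y)
    {S : Finset α} (hS : HT W B B S) : ClD W (addBad B S) x y := by
  have hV : ClV W B (Pool.Agent.DK.addBad B S) := h.cl.addBad hS
  refine ⟨hV.conv, h.hx, h.hy, ?_⟩
  intro T hT
  have hT' := hV.tight_of_conv hT
  have hc := hV.comps_tight_conv hT
  have hsep := h.sep T (tight_addBad hT').1
  unfold WSep at hsep ⊢
  rw [hc]
  exact hsep

/-- Step A, pieces: `x` is replaced by `s` if it is not in `K`.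

Proof. `ClV.piece`, then `ClV.conv`. Let `T` be tight in the canonical piece; then it is tight in the piece with
graph `contrBad (gr B) S s` (`tight_of_conv`) and the components of the complement are the same
(`comps_tight_conv`); so work with that graph. Let `x', y'` be the new special vertices.
By `tight_piece` there are two cases.
(1) `s ∉ T ⊆ K`, `T` tight in `(W, B)`. As `T ⊆ K ∈ comps B (W \ S)`, `NC W B S T`, so by `nc_tight_tight_symm` (both are
tight, disjoint) there is `D₀ ∈ comps B (W \ T)` with `S ⊆ D₀`. Moreover `W \ K ⊆ D₀`: a component `K' ≠ K` of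
`W \ S` is adjacent to `S` (`exists_adj_of_comp`), disjoint from `T`, so contained in `D₀`. For every
`D ∈ comps B (W \ T)` the set `Z_D := (D ∩ K) ∪ (if S ⊆ D then {s} else ∅)` is closed in the piece minus `T`.
If `x ∈ T` (then `x ∈ K`, `x' = x`) or `y ∈ T`, done. Otherwise `x, y` are in different components
`D_x, D_y` of `W \ T` (`sep`). If `x ∉ K` then `x ∈ D₀`, and `x' = s ∈ Z_{D₀}`; so in all cases `x' ∈ Z_{D_x}` and
`y' ∈ Z_{D_y}`, and these two sets are closed and disjoint, so no component of the piece minus `T` contains
both.
(2) `s ∈ T`, `S ∪ T` tight in `(W, B)`. If `x ∉ K` then `x' = s ∈ T`, done; same for `y`. If `x, y ∈ K`: by `sep` either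
`x ∈ S ∪ T`, so `x ∈ T`; or `y ∈ T`; or they are in different components of `W \ (S ∪ T)`. The components of
the piece minus `T` are those of `K \ T` (`comps_piece_of_mem`), and `K \ T = K \ (S ∪ T)` is closed in `W \ (S ∪ T)`, so
they are components of `W \ (S ∪ T)` (`mem_comps_of_subset`). -/
theorem ClD.piece {W : Finset α} {B : Finset α → Prop} {x y : α} (h : ClD W B x y)
    {S K : Finset α} {s : α} (hs : s ∈ S) (hS : HT W B B S) (hK : K ∈ comps B (W \ S)) :
    ClD (insert s K) (contrBad B S s) (if x ∈ K then x else s) (if y ∈ K then y else s) := by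
  have hSW : S ⊆ W := hS.1.1
  have hV : ClV (insert s K) (contrBad (gr B) S s) (contrBad B S s) := h.cl.piece hs hS hK
  obtain ⟨-, hKc, -⟩ := (mem_comps_iff B _ K).1 hK
  have hKW : ∀ v ∈ K, v ∈ W := fun v hv => (Finset.mem_sdiff.1 (hKc.1 hv)).1
  have hKS : ∀ v ∈ K, v ∉ S := fun v hv => (Finset.mem_sdiff.1 (hKc.1 hv)).2
  have hsK : s ∉ K := fun hsK => hKS s hsK hs
  have hSG : ∀ u ∈ S, ∀ v ∈ S, ¬ Adj B u v := by
    intro u hu v hv huv
    refine hS.1.2.2.1 (h.cl.up {u, v} S ?_ huv.2)
    intro w hw
    rw [Finset.mem_insert, Finset.mem_singleton] at hw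
    rcases hw with rfl | rfl
    · exact hu
    · exact hv
  refine ⟨hV.conv, ?_, ?_, ?_⟩
  · split_ifs with hx
    · exact Finset.mem_insert_of_mem hx
    · exact Finset.mem_insert_self _ _
  · split_ifs with hy
    · exact Finset.mem_insert_of_mem hy
    · exact Finset.mem_insert_self _ _
  · intro T hT
    have hT' := hV.tight_of_conv hT
    have hc := hV.comps_tight_conv hT
    have hcase := tight_piece h.cl hs hS hK hT'
    unfold WSep
    rw [hc]
    clear hT hT' hc
    rcases hcase with ⟨hsT, hTK, hTW⟩ | ⟨hsT, hTW⟩
    · -- case 1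
      have hdis : Disjoint S T := by
        rw [Finset.disjoint_left]
        intro v hvS hvT
        exact hKS v (hTK hvT) hvS
      obtain ⟨D₀, hD₀, hSD₀⟩ := h.cl.nc_tight_tight_symm hS.1 hTW hdis ⟨K, hK, hTK⟩
      obtain ⟨-, hD₀c, -⟩ := (mem_comps_iff B _ D₀).1 hD₀
      have hsD₀ : s ∈ D₀ := hSD₀ hs
      -- everything outside of `K` is in `D₀`
      have hout : ∀ v ∈ W, v ∉ K → v ∈ D₀ := by
        intro v hv hvK
        by_cases hvS : v ∈ S
        · exact hSD₀ hvS
        · obtain ⟨K', hK', hvK'⟩ := exists_comp B (W \ S) (Finset.mem_sdiff.2 ⟨hv, hvS⟩)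
          have hne : K' ≠ K := fun he => hvK (he ▸ hvK')
          have hdis' : Disjoint K' T := by
            have := comps_disjoint B _ hK' hK hne
            exact this.mono_right hTK
          exact comp_subset_of_nc h.cl.conn hSW ⟨s, hs⟩ hD₀ hSD₀ hK' hdis' hvK'
      by_cases hxT : x ∈ T
      · left
        rw [if_pos (hTK hxT)]
        exact hxT
      by_cases hyT : y ∈ T
      · right; left
        rw [if_pos (hTK hyT)]
        exact hyT
      right; right
      have hsep : ∀ D ∈ comps B (W \ T), ¬ (x ∈ D ∧ y ∈ D) := by
        rcases h.sep T hTW with h1 | h1 | h1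
        · exact absurd h1 hxT
        · exact absurd h1 hyT
        · exact h1
      obtain ⟨Dx, hDx, hxDx⟩ := exists_comp B (W \ T) (Finset.mem_sdiff.2 ⟨h.hx, hxT⟩)
      obtain ⟨-, hDxc, -⟩ := (mem_comps_iff B _ Dx).1 hDx
      have hyDx : y ∉ Dx := fun hy => hsep Dx hDx ⟨hxDx, hy⟩
      -- if `Dx` meets `D₀` they are equal
      have heq : ∀ v, v ∈ Dx → v ∈ D₀ → Dx = D₀ := by
        intro v h1 h2
        by_contra hne
        exact (Finset.disjoint_left.1 (comps_disjoint B _ hDx hD₀ hne)) h1 h2
      have hZc : ClosedIn (contrBad (gr B) S s) (insert s K \ T) (Dx ∩ insert s K) := by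
        refine ⟨?_, ?_⟩
        · intro v hv
          rw [Finset.mem_inter] at hv
          exact Finset.mem_sdiff.2 ⟨hv.2, (Finset.mem_sdiff.1 (hDxc.1 hv.1)).2⟩
        · intro u hu v hv huv
          rw [Finset.mem_inter] at hu ⊢
          rw [Finset.mem_sdiff] at hv
          refine ⟨?_, hv.1⟩
          by_cases hus : u = s
          · subst hus
            have hDD : Dx = D₀ := heq u hu.1 hsD₀
            have hvs : v ≠ u := huv.1.symm
            have hvK : v ∈ K := by
              rcases Finset.mem_insert.1 hv.1 with h1 | h1
              · exact absurd h1 hvs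
              · exact h1
            obtain ⟨w, hwS, hvw⟩ := (adj_piece (G := B) hs hSG (v := v) (hKS v hvK)).2.1
              (adj_symm huv)
            rw [hDD]
            exact hD₀c.2 w (hSD₀ hwS) v (Finset.mem_sdiff.2 ⟨hKW v hvK, hv.2⟩) (adj_symm hvw)
          · have huK : u ∈ K := by
              rcases Finset.mem_insert.1 hu.2 with h1 | h1
              · exact absurd h1 hus
              · exact h1
            by_cases hvs : v = s
            · subst hvs
              obtain ⟨w, hwS, huw⟩ := (adj_piece (G := B) hs hSG (v := u) (hKS u huK)).2.1 huv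
              have hwT : w ∉ T := Finset.disjoint_left.1 hdis hwS
              have hwD : w ∈ Dx := hDxc.2 u hu.1 w
                (Finset.mem_sdiff.2 ⟨hSW hwS, hwT⟩) huw
              rw [heq w hwD (hSD₀ hwS)]
              exact hsD₀
            · have hvK : v ∈ K := by
                rcases Finset.mem_insert.1 hv.1 with h1 | h1
                · exact absurd h1 hvs
                · exact h1
              have huv' : Adj B u v :=
                ((adj_piece (G := B) hs hSG (v := v) (hKS u huK)).1 (hKS v hvK)).1 huv
              exact hDxc.2 u hu.1 v (Finset.mem_sdiff.2 ⟨hKW v hvK, hv.2⟩) huv'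
      have hxZ : (if x ∈ K then x else s) ∈ Dx ∩ insert s K := by
        split_ifs with hxK
        · exact Finset.mem_inter.2 ⟨hxDx, Finset.mem_insert_of_mem hxK⟩
        · refine Finset.mem_inter.2 ⟨?_, Finset.mem_insert_self _ _⟩
          rw [heq x hxDx (hout x h.hx hxK)]
          exact hsD₀
      have hyZ : (if y ∈ K then y else s) ∉ Dx := by
        split_ifs with hyK
        · exact hyDx
        · intro hsD
          refine hyDx ?_
          rw [heq s hsD hsD₀]
          exact hout y h.hy hyK
      rintro D' hD' ⟨hx', hy'⟩
      have hsub := comp_subset_of_closed _ _ _ hZc hD' hx' hxZ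
      exact hyZ (Finset.mem_inter.1 (hsub hy')).1
    · -- case 2
      by_cases hxK : x ∈ K
      · by_cases hyK : y ∈ K
        · rw [if_pos hxK, if_pos hyK]
          rcases h.sep _ hTW with h1 | h1 | h1
          · left
            rcases Finset.mem_union.1 h1 with h2 | h2
            · exact absurd h2 (hKS x hxK)
            · exact h2
          · right; left
            rcases Finset.mem_union.1 h1 with h2 | h2
            · exact absurd h2 (hKS y hyK)
            · exact h2
          · right; right
            intro D' hD'
            rw [comps_piece_of_mem hs hSG hK hsT] at hD'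
            refine h1 D' (mem_comps_of_subset B _ (K \ T) D' ?_ hD' ?_)
            · intro v hv
              rw [Finset.mem_sdiff] at hv
              refine Finset.mem_sdiff.2 ⟨hKW v hv.1, ?_⟩
              intro hv2
              rcases Finset.mem_union.1 hv2 with h2 | h2
              · exact hKS v hv.1 h2
              · exact hv.2 h2
            · intro u hu v hv huv
              have huK : u ∈ K := by
                obtain ⟨-, hDc, -⟩ := (mem_comps_iff B _ D').1 hD'
                exact (Finset.mem_sdiff.1 (hDc.1 hu)).1
              rw [Finset.mem_sdiff, Finset.mem_union, not_or] at hv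
              exact Finset.mem_sdiff.2
                ⟨hKc.2 u huK v (Finset.mem_sdiff.2 ⟨hv.1, hv.2.1⟩) huv, hv.2.2⟩
        · right; left
          rw [if_neg hyK]
          exact hsT
      · left
        rw [if_neg hxK]
        exact hsT

/-- Step C, pieces: `x` is replaced by `a` if it is not in the piece.

Proof. `ClV.pieceC`. Let `T` be tight in the piece, then it is tight in `(W, B)` (`tight_pieceC`) and not bad, so it
does not contain both `a` and `b`. Let `x', y'` be the new special vertices. If `a ∈ T` and one of `x, y` is
not in the piece, then the corresponding new vertex is `a ∈ T`. If both `x, y` are in the piece: `sep` and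
`joined_pieceC`. There remains `a ∉ T`, and (say) `x` not in the piece, so `x ∈ Q`, `x ∉ T`, and by `joined_Q` `x` and
`a = x'` are in the same component of `W \ T`. If `y` is not in the piece, the same holds for `y`, and
then `T` would not be a weak separator of `x, y`: contradiction. If `y` is in the piece and `y ∉ T`, then
`y` and `x` are in different components of `W \ T`, so `y' = y` and `x' = a` too, and `joined_pieceC`. -/
theorem ClD.pieceC {W : Finset α} {B : Finset α → Prop} {x y : α} (h : ClD W B x y)
    {a b : α} {P : Finset α} (hs : Split W B a b P) :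
    ClD (insert a (insert b P)) B (if x ∈ insert a (insert b P) then x else a)
      (if y ∈ insert a (insert b P) then y else a) := by
  have haP : a ∈ insert a (insert b P) := Finset.mem_insert_self _ _
  refine ⟨h.cl.pieceC hs, ?_, ?_, ?_⟩
  · split_ifs with hx
    · exact hx
    · exact haP
  · split_ifs with hy
    · exact hy
    · exact haP
  · intro T hT
    have hTP := hT.1
    have hTW := tight_pieceC h.cl hs hT
    have hTab : ¬ (a ∈ T ∧ b ∈ T) := by
      rintro ⟨ha, hb⟩
      refine hT.2.2.1 (h.cl.up {a, b} T ?_ hs.hab.2)
      intro v hv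
      rw [Finset.mem_insert, Finset.mem_singleton] at hv
      rcases hv with rfl | rfl
      · exact ha
      · exact hb
    -- the key: a vertex and its substitute are in the same component of `W \ T`
    have key : ∀ z ∈ W, ∀ D ∈ comps B (W \ T),
        (if z ∈ insert a (insert b P) then z else a) ∈ D → z ∈ D := by
      intro z hz D hD hzD
      by_cases hzP : z ∈ insert a (insert b P)
      · rw [if_pos hzP] at hzD
        exact hzD
      · rw [if_neg hzP] at hzD
        obtain ⟨-, hDc, -⟩ := (mem_comps_iff B _ D).1 hD
        have haT : a ∉ T := (Finset.mem_sdiff.1 (hDc.1 hzD)).2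
        obtain ⟨D₁, hD₁, haD₁, hQ⟩ := joined_Q h.cl hs hTP haT
        have hDD : D₁ = D := by
          by_contra hne
          exact (Finset.disjoint_left.1 (comps_disjoint B _ hD₁ hD hne)) haD₁ hzD
        rw [← hDD]
        refine hQ ?_
        rw [Finset.mem_insert, Finset.mem_insert, not_or, not_or] at hzP
        rw [Finset.mem_sdiff, Finset.mem_sdiff, Finset.mem_insert, Finset.mem_singleton, not_or]
        exact ⟨⟨hz, hzP.1, hzP.2.1⟩, hzP.2.2⟩
    unfold WSep
    rcases h.sep T hTW with h1 | h1 | h1
    · left
      rw [if_pos (hTP h1)]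
      exact h1
    · right; left
      rw [if_pos (hTP h1)]
      exact h1
    · right; right
      rintro D' hD' ⟨hx', hy'⟩
      obtain ⟨-, hDc', -⟩ := (mem_comps_iff B _ D').1 hD'
      obtain ⟨D, hD, hxD, hyD⟩ := (joined_pieceC h.cl hs hTP hTab (hDc'.1 hx') (hDc'.1 hy')).1
        ⟨D', hD', hx', hy'⟩
      exact h1 D hD ⟨key x h.hx D hD hxD, key y h.hy D hD hyD⟩

end Pool.Agent.DK
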