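import Mathlib
import Pool.Agent.Lib_MP_6f255c_dk.DDefs

/-!
# The induction measure and the small states
-/

set_option autoImplicit false

namespace Pool.Agent.DK

open Classical

variable {α : Type*}

/-- flag: `0` if there is an adjacent separating pair, `1` otherwise. -/
noncomputable def fl (W : Finset α) (B : Finset α → Prop) : ℕ :=
  if ∃ a b P, Split W B a b P then 0 else 1

/-- number of edges. -/
noncomputable def nE (W : Finset α) (B : Finset α → Prop) : ℕ :=
  (W.powerset.filter (fun T => T.card = 2 ∧ B T)).card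

/-- number of sets which are not bad. -/
noncomputable def nN (W : Finset α) (B : Finset α → Prop) : ℕ :=
  (W.powerset.filter (fun T => ¬ B T)).card

private theorem me_split_congr {W : Finset α} {B B' : Finset α → Prop}
    (h : ∀ u v, Adj B' u v ↔ Adj B u v) (a b : α) (P : Finset α) (hs : Split W B' a b P) :
    Split W B a b P where
  ha := hs.ha
  hb := hs.hb
  hab := (h a b).1 hs.hab
  hP := ⟨hs.hP.1, fun u hu v hv huv => hs.hP.2 u hu v hv ((h u v).2 huv)⟩
  hne := hs.hne
  hne' := hs.hne'

private theorem me_two_le {B : Finset α → Prop} {R X Y : Finset α} (hX : ClosedIn B R X)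
    (hXn : X.Nonempty) (hY : ClosedIn B R Y) (hYn : Y.Nonempty) (hd : Disjoint X Y) :
    2 ≤ (comps B R).card := by
  have hne : X ≠ Y := by
    intro e
    obtain ⟨x, hx⟩ := hXn
    exact Finset.disjoint_left.1 hd hx (e ▸ hx)
  have h2 := card_le_comps B R {X, Y} ?_ ?_
  · rwa [Finset.card_pair hne] at h2
  · intro Z hZ
    rw [Finset.mem_insert, Finset.mem_singleton] at hZ
    rcases hZ with rfl | rfl
    · exact ⟨hXn, hX⟩
    · exact ⟨hYn, hY⟩
  · intro Z hZ Z' hZ' hne'
    simp only [Finset.coe_insert, Finset.coe_singleton, Set.mem_insert_iff,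
      Set.mem_singleton_iff] at hZ hZ'
    show Disjoint Z Z'
    rcases hZ with rfl | rfl <;> rcases hZ' with rfl | rfl
    · exact absurd rfl hne'
    · exact hd
    · exact hd.symm
    · exact absurd rfl hne'

/-- two vertices of a connected pair are adjacent -/
private theorem me_adj_of_pair {B : Finset α → Prop} {a b : α} (hab : a ≠ b)
    (h : (comps B {a, b}).card ≤ 1) : Adj B a b := by
  by_contra hn
  have hn' : ¬ Adj B b a := fun h' => hn (adj_symm h')
  have h2 := me_two_le (B := B) (R := {a, b}) (X := {a}) (Y := {b}) ?_ (by simp) ?_ (by simp)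
    (by simpa using hab)
  · omega
  · refine ⟨by simp, fun u hu v hv huv => ?_⟩
    rw [Finset.mem_singleton] at hu ⊢
    rw [Finset.mem_insert, Finset.mem_singleton] at hv
    subst hu
    rcases hv with rfl | rfl
    · rfl
    · exact absurd huv hn
  · refine ⟨by simp, fun u hu v hv huv => ?_⟩
    rw [Finset.mem_singleton] at hu ⊢
    rw [Finset.mem_insert, Finset.mem_singleton] at hv
    subst hu
    rcases hv with rfl | rfl
    · exact absurd huv hn'
    · rfl

/-- the value of `chrom` when all pairs are bad -/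
private theorem me_chrom_complete {W : Finset α} {B : Finset α → Prop}
    (hup : ∀ T T' : Finset α, T ⊆ T' → B T → B T') (hone : ∀ v, ¬ B {v})
    (h : ∀ a ∈ W, ∀ b ∈ W, a ≠ b → B {a, b}) (q : ℝ) :
    chrom W B q = ∏ i ∈ Finset.range W.card, (q - (i : ℝ)) := by
  unfold chrom
  rw [Finset.sum_eq_single (⊥ : Finpartition W)]
  · rw [if_pos, Finpartition.card_bot]
    intro S hS
    rw [Finpartition.mem_bot_iff] at hS
    obtain ⟨v, _, rfl⟩ := hS
    exact hone v
  · intro π _ hπ
    rw [if_neg]
    intro hB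
    apply hπ
    rw [← le_bot_iff]
    intro S hS
    obtain ⟨v, hv⟩ := π.nonempty_of_mem_parts hS
    have hSW : S ⊆ W := π.subset hS
    refine ⟨{v}, ?_, ?_⟩
    · rw [Finpartition.mem_bot_iff]
      exact ⟨v, hSW hv, rfl⟩
    · intro w hw
      rw [Finset.mem_singleton]
      by_contra hne
      refine hB S hS (hup {w, v} S ?_ (h w (hSW hw) v (hSW hv) hne))
      intro z hz
      rw [Finset.mem_insert, Finset.mem_singleton] at hz
      rcases hz with rfl | rfl
      · exact hw
      · exact hv
  · intro hn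
    exact absurd (Finset.mem_univ _) hn

/-- fewer non-bad sets: `S` becomes bad. -/
theorem nN_addBad_lt {W : Finset α} {B : Finset α → Prop} {S : Finset α} (hS : S ⊆ W)
    (hb : ¬ B S) : nN W (addBad B S) < nN W B := by
  unfold nN
  refine Finset.card_lt_card (Finset.ssubset_iff_subset_ne.2 ⟨?_, ?_⟩)
  · intro T hT
    rw [Finset.mem_filter] at hT ⊢
    exact ⟨hT.1, fun hBT => hT.2 (Or.inl hBT)⟩
  · intro he
    have h1 : S ∈ W.powerset.filter (fun T => ¬ B T) :=
      Finset.mem_filter.2 ⟨Finset.mem_powerset.2 hS, hb⟩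
    rw [← he, Finset.mem_filter] at h1
    exact h1.2 (Or.inr (Finset.Subset.refl S))

/-- `|S| ≥ 3`: same graph. -/
theorem fl_addBad_three {W : Finset α} {B : Finset α → Prop} {S : Finset α} (h3 : 3 ≤ S.card) :
    fl W (addBad B S) = fl W B ∧ nE W (addBad B S) = nE W B := by
  have hns : ∀ T : Finset α, T.card ≤ 2 → ¬ S ⊆ T := by
    intro T hT hs
    have := Finset.card_le_card hs
    omega
  have hadj : ∀ u v, Adj (addBad B S) u v ↔ Adj B u v := by
    intro u v
    unfold Adj addBad
    refine and_congr_right fun _ => ⟨fun h => h.resolve_right (hns _ Finset.card_le_two), Or.inl⟩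
  constructor
  · unfold fl
    refine if_congr ⟨?_, ?_⟩ rfl rfl
    · rintro ⟨a, b, P, h⟩
      exact ⟨a, b, P, me_split_congr hadj a b P h⟩
    · rintro ⟨a, b, P, h⟩
      exact ⟨a, b, P, me_split_congr (fun u v => (hadj u v).symm) a b P h⟩
  · unfold nE
    congr 1
    refine Finset.filter_congr fun T _ => and_congr_right fun hT => ?_
    exact ⟨fun h => h.resolve_right (hns _ hT.le), Or.inl⟩

/-- `|S| = 2`: the tight pair `S` is an adjacent separating pair of the truncated state.

Proof. `S = {a, b}`, `c W B S ≥ 2`; take `P ∈ comps B (W \ {a, b})`; another component shows that the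
complement of `P` is nonempty. Adjacency of `addBad B S` inside `W \ {a, b}` is the old one. -/
theorem fl_addBad_two {W : Finset α} {B : Finset α → Prop} {S : Finset α} (h2 : S.card = 2)
    (hS : Tight W B B S) : fl W (addBad B S) = 0 := by
  obtain ⟨a, b, hab, rfl⟩ := Finset.card_eq_two.1 h2
  obtain ⟨hSW, _, hnb, hc⟩ := hS
  rw [h2] at hc
  unfold fl
  rw [if_pos]
  unfold c at hc
  obtain ⟨P, hP, Q, hQ, hPQ⟩ := Finset.one_lt_card.1 (Nat.lt_of_lt_of_le (Nat.lt_succ_self 1) hc)
  obtain ⟨hPn, hPc, _⟩ := (mem_comps_iff B _ P).1 hP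
  obtain ⟨⟨z, hz⟩, hQc, _⟩ := (mem_comps_iff B _ Q).1 hQ
  refine ⟨a, b, P, hSW (by simp), hSW (by simp), ⟨hab, Or.inr (Finset.Subset.refl _)⟩, ?_, hPn, ?_⟩
  · refine ⟨hPc.1, fun u hu v hv huv => hPc.2 u hu v hv ⟨huv.1, ?_⟩⟩
    rcases huv.2 with h | h
    · exact h
    · have ha : a ∈ ({u, v} : Finset α) := h (by simp)
      rw [Finset.mem_insert, Finset.mem_singleton] at ha
      rcases ha with rfl | rfl
      · exact absurd (hPc.1 hu) (by simp)
      · exact absurd hv (by simp)
  · exact ⟨z, Finset.mem_sdiff.2 ⟨hQc.1 hz, fun hzP =>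
      Finset.disjoint_left.1 (comps_disjoint B _ hP hQ hPQ) hzP hz⟩⟩

/-- a ready state has no split: `P` and its complement would give two components of `W \ {a, b}`. -/
theorem Ready.fl_eq_one {W : Finset α} {B : Finset α → Prop} (h : Ready W B) : fl W B = 1 := by
  unfold fl
  rw [if_neg]
  rintro ⟨a, b, P, hs⟩
  have h2 := me_two_le hs.hP hs.hne hs.compl.hP hs.hne' Finset.disjoint_sdiff
  have h3 := h.conn3 a hs.ha b hs.hb
  unfold c at h3
  omega

/-- the bad pairs of the deletion child are the old ones except `{x, y}`. -/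
theorem nE_del_lt {W : Finset α} {B : Finset α → Prop} (h : ClV W B B) {x y : α}
    (hx : x ∈ W) (hy : y ∈ W) (hxy : Adj B x y) (hc : c W B {x, y} ≤ 1) :
    nE W (delBad W B x y) < nE W B := by
  unfold nE
  have hxyW : ({x, y} : Finset α) ⊆ W := by
    intro z hz
    rw [Finset.mem_insert, Finset.mem_singleton] at hz
    rcases hz with rfl | rfl
    · exact hx
    · exact hy
  have hdel : ¬ delBad W B x y {x, y} := by
    rintro (⟨h1, _⟩ | ⟨_, _, h1 | h1 | ⟨S, hS, hxS, hyS, hSc⟩⟩)
    · exact h1 ⟨by simp, by simp⟩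
    · rw [Finset.erase_insert (by simpa using hxy.1)] at h1
      exact h.one y h1
    · have he : ({x, y} : Finset α).erase y = {x} := by
        rw [Finset.pair_comm, Finset.erase_insert (by simpa using hxy.1.symm)]
      rw [he] at h1
      exact h.one x h1
    · have hSe : S = {x, y} := by
        refine Finset.Subset.antisymm hS ?_
        intro z hz
        rw [Finset.mem_insert, Finset.mem_singleton] at hz
        rcases hz with rfl | rfl
        · exact hxS
        · exact hyS
      rw [hSe, Finset.card_pair hxy.1] at hSc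
      omega
  have hcase : ∀ T : Finset α, T.card = 2 → x ∈ T → y ∈ T → T = {x, y} := by
    intro T hT hxT hyT
    refine (Finset.eq_of_subset_of_card_le ?_ ?_).symm
    · intro z hz
      rw [Finset.mem_insert, Finset.mem_singleton] at hz
      rcases hz with rfl | rfl
      · exact hxT
      · exact hyT
    · rw [hT, Finset.card_pair hxy.1]
  refine Finset.card_lt_card (Finset.ssubset_iff_subset_ne.2 ⟨?_, ?_⟩)
  · intro T hT
    rw [Finset.mem_filter] at hT ⊢
    refine ⟨hT.1, hT.2.1, ?_⟩
    by_cases hc1 : x ∈ T ∧ y ∈ T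
    · have h1 := hT.2.2
      rw [hcase T hT.2.1 hc1.1 hc1.2] at h1
      exact absurd h1 hdel
    · rcases hT.2.2 with h1 | h1
      · exact h1.2
      · exact absurd ⟨h1.1, h1.2.1⟩ hc1
  · intro he
    have h1 : ({x, y} : Finset α) ∈ W.powerset.filter (fun T => T.card = 2 ∧ B T) :=
      Finset.mem_filter.2 ⟨Finset.mem_powerset.2 hxyW, Finset.card_pair hxy.1, hxy.2⟩
    rw [← he, Finset.mem_filter] at h1
    exact hdel h1.2.2

theorem card_piece_lt {W : Finset α} {G : Finset α → Prop} {S K : Finset α} {s : α} (hS : S ⊆ W)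
    (h2 : 2 ≤ S.card) (hK : K ∈ comps G (W \ S)) : (insert s K).card < W.card := by
  have h1 : K ⊆ W \ S := ((mem_comps_iff G _ K).1 hK).2.1.1
  have h3 := Finset.card_le_card h1
  rw [Finset.card_sdiff_of_subset hS] at h3
  have h4 := Finset.card_le_card hS
  have h5 := Finset.card_insert_le s K
  omega

theorem Split.card_lt {W : Finset α} {B : Finset α → Prop} {a b : α} {P : Finset α}
    (h : Split W B a b P) : (insert a (insert b P)).card < W.card := by
  refine Finset.card_lt_card (Finset.ssubset_iff_subset_ne.2 ⟨?_, ?_⟩)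
  · intro z hz
    rw [Finset.mem_insert, Finset.mem_insert] at hz
    rcases hz with rfl | rfl | hz
    · exact h.ha
    · exact h.hb
    · exact (Finset.mem_sdiff.1 (h.hP.1 hz)).1
  · intro he
    obtain ⟨z, hz⟩ := h.hne'
    rw [Finset.mem_sdiff, Finset.mem_sdiff] at hz
    have h1 : z ∈ insert a (insert b P) := by
      rw [he]
      exact hz.1.1
    rw [Finset.mem_insert, Finset.mem_insert] at h1
    have h2 := hz.1.2
    rw [Finset.mem_insert, Finset.mem_singleton, not_or] at h2
    rcases h1 with h1 | h1 | h1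
    · exact h2.1 h1
    · exact h2.2 h1
    · exact hz.2 h1

theorem card_con_lt {W : Finset α} {x y : α} (hx : x ∈ W) (hy : y ∈ W) (hxy : x ≠ y) :
    (insert x (W \ {x, y})).card < W.card := by
  refine Finset.card_lt_card (Finset.ssubset_iff_subset_ne.2 ⟨?_, ?_⟩)
  · intro z hz
    rw [Finset.mem_insert] at hz
    rcases hz with rfl | hz
    · exact hx
    · exact (Finset.mem_sdiff.1 hz).1
  · intro he
    rw [← he, Finset.mem_insert, Finset.mem_sdiff] at hy
    rcases hy with h | h
    · exact hxy h.symm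
    · exact h.2 (by simp)

/-- two vertices: they are adjacent (`conn`), `chrom_pair` (P8). -/
theorem ClV.phi_card_two {W : Finset α} {B : Finset α → Prop} (h : ClV W B B) (h2 : W.card = 2)
    {q : ℝ} (hq : 1 < q) : Phi W B q = 1 := by
  obtain ⟨a, b, hab, rfl⟩ := Finset.card_eq_two.1 h2
  have h1 : Adj B a b := me_adj_of_pair hab h.conn
  have h3 : ∀ u ∈ ({a, b} : Finset α), ∀ v ∈ ({a, b} : Finset α), u ≠ v → B {u, v} := by
    intro u hu v hv huv
    rw [Finset.mem_insert, Finset.mem_singleton] at hu hv
    rcases hu with rfl | rfl <;> rcases hv with rfl | rfl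
    · exact absurd rfl huv
    · exact h1.2
    · exact (adj_symm h1).2
    · exact absurd rfl huv
  unfold Phi
  rw [me_chrom_complete h.up h.one h3 q, h2]
  have hq0 : q * (q - 1) ≠ 0 := (mul_pos (by linarith) (by linarith)).ne'
  rw [div_eq_one_iff_eq hq0]
  simp [Finset.prod_range_succ]

/-- three vertices: all adjacent (`v2` for the singletons), `chrom = q (q-1) (q-2)`.

Proof of the value: `W = {a, b, c}`. Let `B₀ T := B T ∧ ({a, b} ⊆ T ∨ {a, c} ⊆ T)`: `addBad B₀ {b, c}` agrees with `B` on
nonempty subsets of `W` (`chrom_congr`; the bad subsets of `W` are those with at least two elements), and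
`contrBad B₀ {b, c} b {a, b}` holds; so by `chrom_split` (P3)
`chrom W B₀ = chrom W B + chrom {b, a} _ = chrom W B + q (q-1)` (`chrom_pair`). `B₀` is glued at the vertex `a`
(`chrom_glue_vertex`, P4, with `C = {{b}, {c}}`), so `chrom W B₀ * q = (q (q-1))^2`. Hence
`chrom W B = q (q-1)^2 - q (q-1) = q (q-1) (q-2)`. -/
theorem ClV.phi_card_three {W : Finset α} {B : Finset α → Prop} (h : ClV W B B)
    (h3 : W.card = 3) {q : ℝ} (hq : 1 < q) : Phi W B q = 2 - q := by
  obtain ⟨a, b, d, hab, had, hbd, rfl⟩ := Finset.card_eq_three.1 h3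
  have key : ∀ u v w : α, u ≠ v → u ≠ w → v ≠ w → ({a, b, d} : Finset α) \ {w} = {u, v} →
      w ∈ ({a, b, d} : Finset α) → Adj B u v := by
    intro u v w huv huw hvw he hw
    refine me_adj_of_pair huv ?_
    rw [← he]
    exact h.card_comps_sdiff_singleton hw
  have h1 : Adj B a b := by
    refine key a b d hab had hbd ?_ (by simp)
    ext z
    simp only [Finset.mem_sdiff, Finset.mem_insert, Finset.mem_singleton]
    constructor
    · rintro ⟨h4 | h4 | h4, h5⟩
      · exact Or.inl h4
      · exact Or.inr h4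
      · exact absurd h4 h5
    · rintro (rfl | rfl)
      · exact ⟨Or.inl rfl, had⟩
      · exact ⟨Or.inr (Or.inl rfl), hbd⟩
  have h2 : Adj B a d := by
    refine key a d b had hab hbd.symm ?_ (by simp)
    ext z
    simp only [Finset.mem_sdiff, Finset.mem_insert, Finset.mem_singleton]
    constructor
    · rintro ⟨h4 | h4 | h4, h5⟩
      · exact Or.inl h4
      · exact absurd h4 h5
      · exact Or.inr h4
    · rintro (rfl | rfl)
      · exact ⟨Or.inl rfl, hab⟩
      · exact ⟨Or.inr (Or.inr rfl), hbd.symm⟩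
  have h4 : Adj B b d := by
    refine key b d a hbd hab.symm had.symm ?_ (by simp)
    ext z
    simp only [Finset.mem_sdiff, Finset.mem_insert, Finset.mem_singleton]
    constructor
    · rintro ⟨h4 | h4 | h4, h5⟩
      · exact absurd h4 h5
      · exact Or.inl h4
      · exact Or.inr h4
    · rintro (rfl | rfl)
      · exact ⟨Or.inr (Or.inl rfl), hab.symm⟩
      · exact ⟨Or.inr (Or.inr rfl), had.symm⟩
  have h5 : ∀ u ∈ ({a, b, d} : Finset α), ∀ v ∈ ({a, b, d} : Finset α), u ≠ v → B {u, v} := by
    intro u hu v hv huv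
    rw [Finset.mem_insert, Finset.mem_insert, Finset.mem_singleton] at hu hv
    rcases hu with rfl | rfl | rfl <;> rcases hv with rfl | rfl | rfl
    · exact absurd rfl huv
    · exact h1.2
    · exact h2.2
    · exact (adj_symm h1).2
    · exact absurd rfl huv
    · exact h4.2
    · exact (adj_symm h2).2
    · exact (adj_symm h4).2
    · exact absurd rfl huv
  unfold Phi
  rw [me_chrom_complete h.up h.one h5 q, h3]
  have hq0 : q * (q - 1) ≠ 0 := (mul_pos (by linarith) (by linarith)).ne'
  rw [div_eq_iff hq0]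
  simp only [Finset.prod_range_succ, Finset.prod_range_zero]
  push_cast
  ring

end Pool.Agent.DK
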