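import Mathlib
import Pool.Agent.Lib_MP_6f255c_dk.StepCPhi
import Pool.Agent.Lib_MP_6f255c_dk.VCross
import Pool.Agent.Lib_MP_6f255c_dk.CompsSdiff

/-!
# Step C: blocked pairs
-/

set_option autoImplicit false

namespace Pool.Agent.DK

open Classical

variable {α : Type*}

/-- components of `K \ F` not touching `Z`. -/
private noncomputable def freeC (B : Finset α → Prop) (F Z K : Finset α) : Finset (Finset α) :=
  (comps B (K \ F)).filter (fun D => ∀ u ∈ D, ∀ z ∈ Z, ¬ Adj B u z)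

/-- upper bound for `c(F)`: all components but one are free components of the pieces. -/
private theorem blk_upper {W : Finset α} {B : Finset α → Prop} {a b : α} {F Z : Finset α}
    (hZ : Z ⊆ W \ F) (hab : ({a, b} : Finset α) ⊆ F ∪ Z)
    (hconn : ∃ D ∈ comps B (W \ F), Z ⊆ D) :
    c W B F ≤ 1 + ∑ K ∈ comps B (W \ {a, b}), (freeC B F Z K).card := by
  obtain ⟨D₀, hD₀, hZD⟩ := hconn
  have hsub : comps B (W \ F) ⊆
      insert D₀ ((comps B (W \ {a, b})).biUnion (fun K => freeC B F Z K)) := by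
    intro D hD
    by_cases hDD : D = D₀
    · rw [hDD]; exact Finset.mem_insert_self _ _
    · refine Finset.mem_insert_of_mem ?_
      have hdis : Disjoint D D₀ := comps_disjoint B _ hD hD₀ hDD
      obtain ⟨_, hcl, _⟩ := (mem_comps_iff B _ D).1 hD
      have hDR : D ⊆ (W \ {a, b}) \ F := by
        intro x hx
        have hx1 := Finset.mem_sdiff.1 (hcl.1 hx)
        refine Finset.mem_sdiff.2 ⟨Finset.mem_sdiff.2 ⟨hx1.1, ?_⟩, hx1.2⟩
        intro hxab
        rcases Finset.mem_union.1 (hab hxab) with h1 | h1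
        · exact hx1.2 h1
        · exact (Finset.disjoint_left.1 hdis) hx (hZD h1)
      have hsubR : (W \ {a, b}) \ F ⊆ W \ F := by
        intro x hx
        have h1 := Finset.mem_sdiff.1 hx
        exact Finset.mem_sdiff.2 ⟨(Finset.mem_sdiff.1 h1.1).1, h1.2⟩
      have hD2 : D ∈ comps B ((W \ {a, b}) \ F) := mem_comps_of_superset B _ _ D hsubR hD hDR
      rw [comps_sdiff_biUnion, Finset.mem_biUnion] at hD2
      obtain ⟨K, hK, hDK⟩ := hD2
      refine Finset.mem_biUnion.2 ⟨K, hK, Finset.mem_filter.2 ⟨hDK, ?_⟩⟩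
      intro u hu z hz huz
      have hzD : z ∈ D := hcl.2 u hu z (hZ hz) huz
      exact (Finset.disjoint_left.1 hdis) hzD (hZD hz)
  unfold c
  calc (comps B (W \ F)).card
      ≤ (insert D₀ ((comps B (W \ {a, b})).biUnion (fun K => freeC B F Z K))).card :=
        Finset.card_le_card hsub
    _ ≤ ((comps B (W \ {a, b})).biUnion (fun K => freeC B F Z K)).card + 1 :=
        Finset.card_insert_le _ _
    _ ≤ (∑ K ∈ comps B (W \ {a, b}), (freeC B F Z K).card) + 1 :=
        Nat.add_le_add_right Finset.card_biUnion_le 1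
    _ = 1 + ∑ K ∈ comps B (W \ {a, b}), (freeC B F Z K).card := Nat.add_comm _ _

/-- lower bound for the number of components left by the part of `F` in one piece. -/
private theorem blk_lower {W : Finset α} {B : Finset α → Prop} {a b : α} {F Z K : Finset α}
    (hne : Z.Nonempty) (hZ : Z ⊆ W \ F) (hZab : Z ⊆ ({a, b} : Finset α))
    (hK : K ∈ comps B (W \ {a, b})) :
    1 + (freeC B F Z K).card ≤ c W B ((F ∩ K) ∪ (({a, b} : Finset α) \ Z)) := by
  obtain ⟨_, hKcl, _⟩ := (mem_comps_iff B _ K).1 hK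
  set S := (F ∩ K) ∪ (({a, b} : Finset α) \ Z) with hS
  -- every free component is closed in `W \ S`
  have hclosed : ∀ D ∈ freeC B F Z K, D.Nonempty ∧ ClosedIn B (W \ S) D := by
    intro D hD
    obtain ⟨hDc, hDf⟩ := Finset.mem_filter.1 hD
    obtain ⟨hDne, hDcl, _⟩ := (mem_comps_iff B _ D).1 hDc
    refine ⟨hDne, ⟨?_, ?_⟩⟩
    · intro x hx
      have hx1 := Finset.mem_sdiff.1 (hDcl.1 hx)
      have hx2 := Finset.mem_sdiff.1 (hKcl.1 hx1.1)
      refine Finset.mem_sdiff.2 ⟨hx2.1, ?_⟩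
      rw [hS, Finset.mem_union, not_or]
      exact ⟨fun h => hx1.2 (Finset.mem_inter.1 h).1, fun h => hx2.2 (Finset.mem_sdiff.1 h).1⟩
    · intro u hu v hv huv
      have hu1 := Finset.mem_sdiff.1 (hDcl.1 hu)
      have hv1 := Finset.mem_sdiff.1 hv
      rw [hS, Finset.mem_union, not_or] at hv1
      have hvZ : v ∉ Z := fun h => hDf u hu v h huv
      have hvab : v ∉ ({a, b} : Finset α) := fun h => hv1.2.2 (Finset.mem_sdiff.2 ⟨h, hvZ⟩)
      have hvK : v ∈ K := hKcl.2 u hu1.1 v (Finset.mem_sdiff.2 ⟨hv1.1, hvab⟩) huv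
      have hvF : v ∉ F := fun h => hv1.2.1 (Finset.mem_inter.2 ⟨h, hvK⟩)
      exact hDcl.2 u hu v (Finset.mem_sdiff.2 ⟨hvK, hvF⟩) huv
  -- the rest
  set Y := (W \ S) \ (freeC B F Z K).biUnion id with hY
  have hZY : Z ⊆ Y := by
    intro z hz
    have hz1 := Finset.mem_sdiff.1 (hZ hz)
    refine Finset.mem_sdiff.2 ⟨Finset.mem_sdiff.2 ⟨hz1.1, ?_⟩, ?_⟩
    · rw [hS, Finset.mem_union, not_or]
      exact ⟨fun h => hz1.2 (Finset.mem_inter.1 h).1, fun h => (Finset.mem_sdiff.1 h).2 hz⟩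
    · intro h
      obtain ⟨D, hD, hzD⟩ := Finset.mem_biUnion.1 h
      obtain ⟨hDc, _⟩ := Finset.mem_filter.1 hD
      obtain ⟨_, hDcl, _⟩ := (mem_comps_iff B _ D).1 hDc
      have h1 := Finset.mem_sdiff.1 (hDcl.1 hzD)
      exact (Finset.mem_sdiff.1 (hKcl.1 h1.1)).2 (hZab hz)
  have hYne : Y.Nonempty := hne.mono hZY
  have hYcl : ClosedIn B (W \ S) Y := by
    refine ⟨Finset.sdiff_subset, ?_⟩
    intro u hu v hv huv
    refine Finset.mem_sdiff.2 ⟨hv, ?_⟩
    intro h
    obtain ⟨D, hD, hvD⟩ := Finset.mem_biUnion.1 h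
    have hu1 := Finset.mem_sdiff.1 hu
    have huD : u ∈ D := (hclosed D hD).2.2 v hvD u hu1.1 (adj_symm huv)
    exact hu1.2 (Finset.mem_biUnion.2 ⟨D, hD, huD⟩)
  have hYD : ∀ D ∈ freeC B F Z K, Disjoint Y D := by
    intro D hD
    rw [Finset.disjoint_left]
    intro x hx hxD
    exact (Finset.mem_sdiff.1 hx).2 (Finset.mem_biUnion.2 ⟨D, hD, hxD⟩)
  have hYnot : Y ∉ freeC B F Z K := by
    intro h
    obtain ⟨y, hy⟩ := hYne
    exact (Finset.disjoint_left.1 (hYD Y h)) hy hy
  have hpd : ((insert Y (freeC B F Z K) : Finset (Finset α)) : Set (Finset α)).PairwiseDisjoint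
      id := by
    intro X hX X' hX' hXX
    have hX1 := Finset.mem_insert.1 (Finset.mem_coe.1 hX)
    have hX1' := Finset.mem_insert.1 (Finset.mem_coe.1 hX')
    show Disjoint X X'
    rcases hX1 with rfl | hX1
    · rcases hX1' with rfl | hX1'
      · exact absurd rfl hXX
      · exact hYD _ hX1'
    · rcases hX1' with rfl | hX1'
      · exact (hYD _ hX1).symm
      · exact comps_disjoint B _ (Finset.mem_filter.1 hX1).1 (Finset.mem_filter.1 hX1').1 hXX
  have hmain := card_le_comps B (W \ S) (insert Y (freeC B F Z K)) (by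
    intro X hX
    rcases Finset.mem_insert.1 hX with rfl | hX1
    · exact ⟨hYne, hYcl⟩
    · exact hclosed X hX1) hpd
  rw [Finset.card_insert_of_notMem hYnot] at hmain
  unfold c
  omega

/-- the pieces partition `F \ {a, b}`. -/
private theorem blk_sum {W : Finset α} {B : Finset α → Prop} {a b : α} {F : Finset α}
    (hF : F ⊆ W) : ∑ K ∈ comps B (W \ {a, b}), (F ∩ K).card = (F \ {a, b}).card := by
  have h1 : F \ {a, b} = (comps B (W \ {a, b})).biUnion (fun K => F ∩ K) := by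
    ext x
    rw [Finset.mem_biUnion]
    constructor
    · intro hx
      have hx1 := Finset.mem_sdiff.1 hx
      obtain ⟨K, hK, hxK⟩ := exists_comp B (W \ {a, b})
        (Finset.mem_sdiff.2 ⟨hF hx1.1, hx1.2⟩)
      exact ⟨K, hK, Finset.mem_inter.2 ⟨hx1.1, hxK⟩⟩
    · rintro ⟨K, hK, hx⟩
      obtain ⟨_, hKcl, _⟩ := (mem_comps_iff B _ K).1 hK
      have hx1 := Finset.mem_inter.1 hx
      exact Finset.mem_sdiff.2 ⟨hx1.1, (Finset.mem_sdiff.1 (hKcl.1 hx1.2)).2⟩
  rw [h1]
  symm
  apply Finset.card_biUnion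
  intro K hK K' hK' hne
  exact (comps_disjoint B _ hK hK' hne).mono Finset.inter_subset_right Finset.inter_subset_right

/-- Case `a ∈ F`, `b ∉ F`. -/
private theorem blk_one {W : Finset α} {B : Finset α → Prop} (h : ClV W B B)
    {a b : α} (ha : a ∈ W) (hb : b ∈ W) (hab : Adj B a b) {F : Finset α} (hF : MB W B B F)
    {K₁ K₂ : Finset α} (hK₁ : K₁ ∈ comps B (W \ {a, b})) (hK₂ : K₂ ∈ comps B (W \ {a, b}))
    (hne : K₁ ≠ K₂) (hF₁ : (F ∩ K₁).Nonempty) (hF₂ : (F ∩ K₂).Nonempty)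
    (haF : a ∈ F) (hbF : b ∉ F) :
    c W B F = F.card ∧
      ∀ K ∈ comps B (W \ {a, b}), (F ∩ K).Nonempty → Tight W B B (insert a (F ∩ K)) := by
  have hFW : F ⊆ W := hF.1.1
  have hab' : a ≠ b := hab.1
  -- another piece is always met
  have hother : ∀ K ∈ comps B (W \ {a, b}), ∃ x ∈ F, x ∉ K ∧ x ∉ ({a, b} : Finset α) := by
    intro K hK
    by_cases hKK : K = K₁
    · subst hKK
      obtain ⟨x, hx⟩ := hF₂
      have hx1 := Finset.mem_inter.1 hx
      refine ⟨x, hx1.1, fun hxK => ?_, ?_⟩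
      · exact (Finset.disjoint_left.1 (comps_disjoint B _ hK hK₂ hne)) hxK hx1.2
      · exact (Finset.mem_sdiff.1 (((mem_comps_iff B _ K₂).1 hK₂).2.1.1 hx1.2)).2
    · obtain ⟨x, hx⟩ := hF₁
      have hx1 := Finset.mem_inter.1 hx
      refine ⟨x, hx1.1, fun hxK => ?_, ?_⟩
      · exact (Finset.disjoint_left.1 (comps_disjoint B _ hK hK₁ hKK)) hxK hx1.2
      · exact (Finset.mem_sdiff.1 (((mem_comps_iff B _ K₁).1 hK₁).2.1.1 hx1.2)).2
  have hanK : ∀ K ∈ comps B (W \ {a, b}), a ∉ F ∩ K := by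
    intro K hK hx
    have h1 := ((mem_comps_iff B _ K).1 hK).2.1.1 (Finset.mem_inter.1 hx).2
    exact (Finset.mem_sdiff.1 h1).2 (by simp)
  have hsub : ∀ K ∈ comps B (W \ {a, b}), insert a (F ∩ K) ⊂ F := by
    intro K hK
    rw [Finset.ssubset_iff_of_subset (by
      intro x hx
      rcases Finset.mem_insert.1 hx with rfl | hx1
      · exact haF
      · exact (Finset.mem_inter.1 hx1).1)]
    obtain ⟨x, hxF, hxK, hxab⟩ := hother K hK
    refine ⟨x, hxF, ?_⟩
    intro hx
    rcases Finset.mem_insert.1 hx with rfl | hx1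
    · exact hxab (by simp)
    · exact hxK (Finset.mem_inter.1 hx1).2
  have hSeq : ∀ K, (F ∩ K) ∪ (({a, b} : Finset α) \ {b}) = insert a (F ∩ K) := by
    intro K
    ext x
    simp only [Finset.mem_union, Finset.mem_inter, Finset.mem_sdiff, Finset.mem_insert,
      Finset.mem_singleton]
    constructor
    · rintro (hx | ⟨hx, hx'⟩)
      · exact Or.inr hx
      · rcases hx with hx | hx
        · exact Or.inl hx
        · exact absurd hx hx'
    · rintro (hx | hx)
      · subst hx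
        exact Or.inr ⟨Or.inl rfl, hab'⟩
      · exact Or.inl hx
  have hZ : ({b} : Finset α) ⊆ W \ F := by
    intro x hx
    rw [Finset.mem_singleton] at hx
    subst hx
    exact Finset.mem_sdiff.2 ⟨hb, hbF⟩
  have hlow : ∀ K ∈ comps B (W \ {a, b}),
      1 + (freeC B F {b} K).card ≤ c W B (insert a (F ∩ K)) := by
    intro K hK
    have := blk_lower (a := a) (b := b) (F := F) (Z := {b}) (by simp) hZ (by simp) hK
    rwa [hSeq K] at this
  have hup : ∀ K ∈ comps B (W \ {a, b}), c W B (insert a (F ∩ K)) ≤ 1 + (F ∩ K).card := by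
    intro K hK
    have h1 := h.v2 (insert a (F ∩ K)) ((hsub K hK).1.trans hFW) (Finset.insert_nonempty _ _)
      (hF.1.2.2 _ (hsub K hK))
    rw [Finset.card_insert_of_notMem (hanK K hK)] at h1
    omega
  have hle : ∀ K ∈ comps B (W \ {a, b}), (freeC B F {b} K).card ≤ (F ∩ K).card := by
    intro K hK
    have h1 := hlow K hK
    have h2 := hup K hK
    omega
  have hupper : c W B F ≤ 1 + ∑ K ∈ comps B (W \ {a, b}), (freeC B F {b} K).card := by
    refine blk_upper hZ ?_ ?_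
    · intro x hx
      rcases Finset.mem_insert.1 hx with rfl | hx
      · exact Finset.mem_union_left _ haF
      · exact Finset.mem_union_right _ hx
    · obtain ⟨D, hD, hbD⟩ := exists_comp B (W \ F) (Finset.mem_sdiff.2 ⟨hb, hbF⟩)
      exact ⟨D, hD, by simpa using hbD⟩
  have hsum := blk_sum (B := B) (a := a) (b := b) hFW
  have hcard : (F \ {a, b}).card + 1 = F.card := by
    have : F \ {a, b} = F.erase a := by
      ext x
      simp only [Finset.mem_sdiff, Finset.mem_insert, Finset.mem_singleton, Finset.mem_erase,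
        not_or]
      constructor
      · rintro ⟨h1, h2, _⟩
        exact ⟨h2, h1⟩
      · rintro ⟨h1, h2⟩
        refine ⟨h2, h1, ?_⟩
        intro hx
        subst hx
        exact hbF h2
    rw [this, Finset.card_erase_add_one haF]
  have hv1 := h.v1 F hF
  have hsle : ∑ K ∈ comps B (W \ {a, b}), (freeC B F {b} K).card ≤
      ∑ K ∈ comps B (W \ {a, b}), (F ∩ K).card := Finset.sum_le_sum hle
  have hcF : c W B F = F.card := by omega
  have hseq : ∑ K ∈ comps B (W \ {a, b}), (freeC B F {b} K).card =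
      ∑ K ∈ comps B (W \ {a, b}), (F ∩ K).card := by omega
  have heach := (Finset.sum_eq_sum_iff_of_le hle).1 hseq
  refine ⟨hcF, ?_⟩
  intro K hK hKne
  refine ⟨(hsub K hK).1.trans hFW, ?_, hF.1.2.2 _ (hsub K hK), ?_⟩
  · rw [Finset.card_insert_of_notMem (hanK K hK)]
    have := Finset.card_pos.2 hKne
    omega
  · rw [Finset.card_insert_of_notMem (hanK K hK)]
    have h1 := hlow K hK
    have h2 := heach K hK
    omega

/-- Case `a, b ∉ F` is impossible. -/
private theorem blk_zero {W : Finset α} {B : Finset α → Prop} (h : ClV W B B)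
    {a b : α} (ha : a ∈ W) (hb : b ∈ W) (hab : Adj B a b) {F : Finset α} (hF : MB W B B F)
    {K₁ K₂ : Finset α} (hK₁ : K₁ ∈ comps B (W \ {a, b})) (hK₂ : K₂ ∈ comps B (W \ {a, b}))
    (hne : K₁ ≠ K₂) (hF₁ : (F ∩ K₁).Nonempty) (hF₂ : (F ∩ K₂).Nonempty)
    (haF : a ∉ F) (hbF : b ∉ F) : False := by
  have hFW : F ⊆ W := hF.1.1
  have hab' : a ≠ b := hab.1
  have hsub : ∀ K ∈ comps B (W \ {a, b}), F ∩ K ⊂ F := by
    intro K hK
    rw [Finset.ssubset_iff_of_subset Finset.inter_subset_left]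
    by_cases hKK : K = K₁
    · subst hKK
      obtain ⟨x, hx⟩ := hF₂
      have hx1 := Finset.mem_inter.1 hx
      refine ⟨x, hx1.1, fun hxK => ?_⟩
      exact (Finset.disjoint_left.1 (comps_disjoint B _ hK hK₂ hne))
        (Finset.mem_inter.1 hxK).2 hx1.2
    · obtain ⟨x, hx⟩ := hF₁
      have hx1 := Finset.mem_inter.1 hx
      refine ⟨x, hx1.1, fun hxK => ?_⟩
      exact (Finset.disjoint_left.1 (comps_disjoint B _ hK hK₁ hKK))
        (Finset.mem_inter.1 hxK).2 hx1.2
  have hZ : ({a, b} : Finset α) ⊆ W \ F := by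
    intro x hx
    rcases Finset.mem_insert.1 hx with rfl | hx
    · exact Finset.mem_sdiff.2 ⟨ha, haF⟩
    · rw [Finset.mem_singleton] at hx
      subst hx
      exact Finset.mem_sdiff.2 ⟨hb, hbF⟩
  have hSeq : ∀ K, (F ∩ K) ∪ (({a, b} : Finset α) \ {a, b}) = F ∩ K := by
    intro K
    simp
  have hlow : ∀ K ∈ comps B (W \ {a, b}),
      1 + (freeC B F {a, b} K).card ≤ c W B (F ∩ K) := by
    intro K hK
    have := blk_lower (a := a) (b := b) (F := F) (Z := {a, b}) (by simp) hZ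
      (Finset.Subset.refl _) hK
    rwa [hSeq K] at this
  have hup : ∀ K ∈ comps B (W \ {a, b}), (F ∩ K).Nonempty →
      (freeC B F {a, b} K).card + 1 ≤ (F ∩ K).card := by
    intro K hK hKne
    have h1 := h.v2 (F ∩ K) (Finset.inter_subset_left.trans hFW) hKne
      (hF.1.2.2 _ (hsub K hK))
    have h2 := hlow K hK
    omega
  have hle : ∀ K ∈ comps B (W \ {a, b}), (freeC B F {a, b} K).card ≤ (F ∩ K).card := by
    intro K hK
    by_cases hKne : (F ∩ K).Nonempty
    · have := hup K hK hKne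
      omega
    · rw [Finset.not_nonempty_iff_eq_empty] at hKne
      have h2 := hlow K hK
      rw [hKne] at h2
      have h3 := h.conn
      unfold c at h2
      rw [Finset.sdiff_empty] at h2
      omega
  have hupper : c W B F ≤ 1 + ∑ K ∈ comps B (W \ {a, b}), (freeC B F {a, b} K).card := by
    refine blk_upper hZ Finset.subset_union_right ?_
    obtain ⟨D, hD, haD⟩ := exists_comp B (W \ F) (Finset.mem_sdiff.2 ⟨ha, haF⟩)
    refine ⟨D, hD, ?_⟩
    intro x hx
    rcases Finset.mem_insert.1 hx with rfl | hx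
    · exact haD
    · rw [Finset.mem_singleton] at hx
      subst hx
      exact ((mem_comps_iff B _ D).1 hD).2.1.2 a haD x (Finset.mem_sdiff.2 ⟨hb, hbF⟩) hab
  have hsum := blk_sum (B := B) (a := a) (b := b) hFW
  have hcard : (F \ {a, b}).card = F.card := by
    congr 1
    ext x
    simp only [Finset.mem_sdiff, Finset.mem_insert, Finset.mem_singleton, not_or]
    constructor
    · rintro ⟨h1, _⟩
      exact h1
    · intro h1
      exact ⟨h1, fun hx => haF (hx ▸ h1), fun hx => hbF (hx ▸ h1)⟩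
  have hv1 := h.v1 F hF
  -- strict inequality at `K₁` and `K₂`
  have hK₁' : K₁ ∈ (comps B (W \ {a, b})).erase K₂ := Finset.mem_erase.2 ⟨hne, hK₁⟩
  have e1 : ∀ f : Finset α → ℕ, ∑ K ∈ comps B (W \ {a, b}), f K =
      f K₂ + (f K₁ + ∑ K ∈ ((comps B (W \ {a, b})).erase K₂).erase K₁, f K) := by
    intro f
    rw [Finset.add_sum_erase _ f hK₁', Finset.add_sum_erase _ f hK₂]
  have hrest : ∑ K ∈ ((comps B (W \ {a, b})).erase K₂).erase K₁, (freeC B F {a, b} K).card ≤
      ∑ K ∈ ((comps B (W \ {a, b})).erase K₂).erase K₁, (F ∩ K).card :=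
    Finset.sum_le_sum (fun K hK => hle K (Finset.mem_of_mem_erase (Finset.mem_of_mem_erase hK)))
  have h1 := hup K₁ hK₁ hF₁
  have h2 := hup K₂ hK₂ hF₂
  rw [e1] at hupper hsum
  omega

/-- (BL): if a minimal bad non-edge `F` meets two different components of `W \ {a, b}`, `a b` an edge, then
`F` contains exactly one of `a, b`; and if `a ∈ F`, then `a + (F ∩ K)` is tight for every component `K`
met by `F`, and `c(F) = |F|`.

Proof (note 237, Step C). As `F` is not an edge and its pairs are not bad (minimality), `F` does not contain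
both `a` and `b`. `F_K := F ∩ K` for `K ∈ C := comps B (W \ {a, b})`. Every `K` touches both `a` and `b`:
otherwise `K` would be closed in `W \ {a}`, resp. `W \ {b}`, and `c(W \ {a}) ≥ 2` (`card_le_comps`), against
`v2`. Case `a, b ∉ F`. For `K ∈ C` let `e_K` := number of components of `K \ F` touching neither `a` nor `b`.
Then `c(F) ≤ 1 + ∑ e_K` (all other components of `W \ F` contain `a` and `b`, which are adjacent; every
component of `W \ F` not containing `a, b` is contained in some `K` and is a component of `K \ F` touching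
neither), and if `F_K` is nonempty, `c(F_K) ≥ 1 + e_K` so `e_K ≤ |F_K| - 1` (`v2`, `F_K` is a proper subset of
`F`); `e_K = 0` if `F_K` is empty. At least two `F_K` are nonempty, so `c(F) ≤ 1 + |F| - 2 < |F|`,
contradiction with `v1`.
Case `a ∈ F`, `b ∉ F`. `e_K` := number of components of `K \ F` not touching `b`. `c(F) ≤ 1 + ∑ e_K`,
`c({a} ∪ F_K) ≥ 1 + e_K`, so `e_K ≤ |F_K|` (`{a} ∪ F_K` is a proper subset of `F`), and `e_K = 0` if `F_K` is
empty. `|F| ≤ c(F) ≤ 1 + ∑ e_K ≤ 1 + ∑ |F_K| = |F|`: equality everywhere. -/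
theorem ClV.blocked {W : Finset α} {B : Finset α → Prop} (h : ClV W B B)
    {a b : α} (ha : a ∈ W) (hb : b ∈ W) (hab : Adj B a b) {F : Finset α} (hF : MB W B B F)
    {K₁ K₂ : Finset α} (hK₁ : K₁ ∈ comps B (W \ {a, b})) (hK₂ : K₂ ∈ comps B (W \ {a, b}))
    (hne : K₁ ≠ K₂) (hF₁ : (F ∩ K₁).Nonempty) (hF₂ : (F ∩ K₂).Nonempty) :
    (a ∈ F ∧ b ∉ F ∧ c W B F = F.card ∧
      ∀ K ∈ comps B (W \ {a, b}), (F ∩ K).Nonempty → Tight W B B (insert a (F ∩ K))) ∨
    (b ∈ F ∧ a ∉ F ∧ c W B F = F.card ∧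
      ∀ K ∈ comps B (W \ {a, b}), (F ∩ K).Nonempty → Tight W B B (insert b (F ∩ K))) := by
  by_cases haF : a ∈ F
  · by_cases hbF : b ∈ F
    · exfalso
      have hsub : ({a, b} : Finset α) ⊆ F := by
        intro x hx
        rcases Finset.mem_insert.1 hx with rfl | hx
        · exact haF
        · rw [Finset.mem_singleton] at hx
          subst hx
          exact hbF
      by_cases hEq : F = {a, b}
      · exact hF.2 ⟨a, b, hab, hEq⟩
      · exact hF.1.2.2 {a, b} (Finset.ssubset_iff_subset_ne.2 ⟨hsub, fun h => hEq h.symm⟩) hab.2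
    · left
      obtain ⟨h1, h2⟩ := blk_one h ha hb hab hF hK₁ hK₂ hne hF₁ hF₂ haF hbF
      exact ⟨haF, hbF, h1, h2⟩
  · by_cases hbF : b ∈ F
    · right
      have hpc : ({a, b} : Finset α) = {b, a} := Finset.pair_comm a b
      rw [hpc] at hK₁ hK₂ ⊢
      obtain ⟨h1, h2⟩ := blk_one h hb ha (adj_symm hab) hF hK₁ hK₂ hne hF₁ hF₂ hbF haF
      exact ⟨hbF, haF, h1, h2⟩
    · exact (blk_zero h ha hb hab hF hK₁ hK₂ hne hF₁ hF₂ haF hbF).elim

/-- If no minimal bad non-edge has a tight proper subset, then nothing spreads (from `blocked`: if `F` meets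
two components, `insert a (F ∩ K₁)` is a tight subset of `F`, proper since `F` meets `K₂`; if `F` meets at
most one component it is contained in `P + a + b` or `Q + a + b`). -/
theorem ClV.noSpread {W : Finset α} {B : Finset α → Prop} (h : ClV W B B)
    (hP : ∀ F, MB W B B F → ∀ T : Finset α, T ⊂ F → ¬ Tight W B B T)
    {a b : α} {P : Finset α} (hs : Split W B a b P) : NoSpread W B a b P := by
  intro F hF
  by_contra hcon
  rw [not_or] at hcon
  obtain ⟨h1, h2⟩ := hcon
  obtain ⟨x, hxF, hx⟩ := Finset.not_subset.1 h1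
  obtain ⟨y, hyF, hy⟩ := Finset.not_subset.1 h2
  have hFW : F ⊆ W := hF.1.1
  simp only [Finset.mem_insert, not_or] at hx hy
  have hxR : x ∈ W \ {a, b} := by
    simp only [Finset.mem_sdiff, Finset.mem_insert, Finset.mem_singleton, not_or]
    exact ⟨hFW hxF, hx.1, hx.2.1⟩
  have hyR : y ∈ W \ {a, b} := by
    simp only [Finset.mem_sdiff, Finset.mem_insert, Finset.mem_singleton, not_or]
    exact ⟨hFW hyF, hy.1, hy.2.1⟩
  have hyP : y ∈ P := by
    by_contra hyP
    exact hy.2.2 (Finset.mem_sdiff.2 ⟨hyR, hyP⟩)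
  obtain ⟨K₁, hK₁, hyK⟩ := exists_comp B _ hyR
  obtain ⟨K₂, hK₂, hxK⟩ := exists_comp B _ hxR
  have hK₁P : K₁ ⊆ P := comp_subset_of_closed B _ P hs.hP hK₁ hyK hyP
  have hxK₁ : x ∉ K₁ := fun hh => hx.2.2 (hK₁P hh)
  have hne : K₁ ≠ K₂ := by
    intro hh
    rw [hh] at hxK₁
    exact hxK₁ hxK
  have hF₁ : (F ∩ K₁).Nonempty := ⟨y, Finset.mem_inter.2 ⟨hyF, hyK⟩⟩
  have hF₂ : (F ∩ K₂).Nonempty := ⟨x, Finset.mem_inter.2 ⟨hxF, hxK⟩⟩
  have hprop : ∀ w, w ∈ F → w ≠ x → insert w (F ∩ K₁) ⊂ F := by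
    intro w hw hwx
    rw [Finset.ssubset_iff_of_subset (by
      intro z hz
      rcases Finset.mem_insert.1 hz with rfl | hz
      · exact hw
      · exact (Finset.mem_inter.1 hz).1)]
    refine ⟨x, hxF, ?_⟩
    intro hz
    rcases Finset.mem_insert.1 hz with hz | hz
    · exact hwx hz.symm
    · exact hxK₁ (Finset.mem_inter.1 hz).2
  rcases h.blocked hs.ha hs.hb hs.hab hF hK₁ hK₂ hne hF₁ hF₂ with
    ⟨haF, _, _, hT⟩ | ⟨hbF, _, _, hT⟩
  · exact hP F hF _ (hprop a haF (fun hh => hx.1 hh.symm)) (hT K₁ hK₁ hF₁)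
  · exact hP F hF _ (hprop b hbF (fun hh => hx.2.1 hh.symm)) (hT K₁ hK₁ hF₁)

end Pool.Agent.DK
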