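import Mathlib
import Pool.Agent.Lib_MP_6f255c_dk.DDefs
import Pool.Agent.Lib_MP_6f255c_dk.StepAAdd
import Pool.Agent.Lib_MP_6f255c_dk.StepAPieceV
import Pool.Agent.Lib_MP_6f255c_dk.StepCPiece
import Pool.Agent.Lib_MP_6f255c_dk.StepCBlock
import Pool.Agent.Lib_MP_6f255c_dk.Submod
import Pool.Agent.Lib_MP_6f255c_dk.Crossing

/-!
# Phase 1: class Q
-/

set_option autoImplicit false

namespace Pool.Agent.DK

open Classical

variable {α : Type*}

/-! ### auxiliary facts -/

private theorem qp_subset {B : Finset α → Prop} {R D : Finset α} (hD : D ∈ comps B R) : D ⊆ R :=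
  ((mem_comps_iff B R D).1 hD).2.1.1

private theorem qp_nonempty {B : Finset α → Prop} {R D : Finset α} (hD : D ∈ comps B R) :
    D.Nonempty := ((mem_comps_iff B R D).1 hD).1

private theorem qp_closed {B : Finset α → Prop} {R D : Finset α} (hD : D ∈ comps B R) :
    ClosedIn B R D := ((mem_comps_iff B R D).1 hD).2.1

/-- the traces on the components. -/
private theorem qp_sum_inter (B : Finset α → Prop) (R F : Finset α) :
    ∑ D ∈ comps B R, (F ∩ D).card = (F ∩ R).card := by
  rw [← Finset.card_biUnion]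
  · congr 1
    ext v
    simp only [Finset.mem_biUnion, Finset.mem_inter]
    constructor
    · rintro ⟨D, hD, hvF, hvD⟩
      exact ⟨hvF, qp_subset hD hvD⟩
    · rintro ⟨hvF, hvR⟩
      obtain ⟨D, hD, hvD⟩ := exists_comp B R hvR
      exact ⟨D, hD, hvF, hvD⟩
  · intro D hD D' hD' hne
    have hd := comps_disjoint B R hD hD' hne
    exact Finset.disjoint_of_subset_left Finset.inter_subset_right
      (Finset.disjoint_of_subset_right Finset.inter_subset_right hd)

/-- two disjoint nonempty closed sets. -/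
private theorem qp_two_le {B : Finset α → Prop} {R X Y : Finset α} (hX : ClosedIn B R X)
    (hY : ClosedIn B R Y) (hXn : X.Nonempty) (hYn : Y.Nonempty) (hd : Disjoint X Y) :
    2 ≤ (comps B R).card := by
  have hneq : X ≠ Y := by
    intro h
    obtain ⟨x, hx⟩ := hXn
    exact Finset.disjoint_left.1 hd hx (h ▸ hx)
  have h2 := card_le_comps B R ({X, Y} : Finset (Finset α)) (by
    intro Z hZ
    rw [Finset.mem_insert, Finset.mem_singleton] at hZ
    rcases hZ with rfl | rfl
    · exact ⟨hXn, hX⟩
    · exact ⟨hYn, hY⟩) (by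
    intro Z hZ Z' hZ' hne
    simp only [Finset.coe_insert, Finset.coe_singleton, Set.mem_insert_iff,
      Set.mem_singleton_iff] at hZ hZ'
    rcases hZ with rfl | rfl <;> rcases hZ' with rfl | rfl
    · exact absurd rfl hne
    · exact hd
    · exact hd.symm
    · exact absurd rfl hne)
  rwa [Finset.card_pair hneq] at h2

private theorem qp_closed_compl {B : Finset α → Prop} {R X : Finset α} (hX : ClosedIn B R X) :
    ClosedIn B R (R \ X) := by
  refine ⟨Finset.sdiff_subset, fun u hu v hv huv => ?_⟩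
  rw [Finset.mem_sdiff] at hu ⊢
  exact ⟨hv, fun hvX => hu.2 (hX.2 v hvX u hu.1 (adj_symm huv))⟩

/-- a set which is not in one component meets two components. -/
private theorem qp_two_comps {W K F : Finset α} {B : Finset α → Prop} (hF : F ⊆ W)
    (hne : F.Nonempty) (hd : Disjoint F K) (hn : ¬ NC W B K F) :
    ∃ D₁ ∈ comps B (W \ K), ∃ D₂ ∈ comps B (W \ K), D₁ ≠ D₂ ∧ (F ∩ D₁).Nonempty ∧
      (F ∩ D₂).Nonempty := by
  obtain ⟨v, hv⟩ := hne
  have hmem : ∀ w ∈ F, w ∈ W \ K := fun w hw =>
    Finset.mem_sdiff.2 ⟨hF hw, Finset.disjoint_left.1 hd hw⟩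
  obtain ⟨D₁, hD₁, hvD⟩ := exists_comp B (W \ K) (hmem v hv)
  have hnot : ¬ F ⊆ D₁ := fun hsub => hn ⟨D₁, hD₁, hsub⟩
  obtain ⟨w, hw, hwD⟩ := Finset.not_subset.1 hnot
  obtain ⟨D₂, hD₂, hwD₂⟩ := exists_comp B (W \ K) (hmem w hw)
  refine ⟨D₁, hD₁, D₂, hD₂, ?_, ⟨v, Finset.mem_inter.2 ⟨hv, hvD⟩⟩,
    ⟨w, Finset.mem_inter.2 ⟨hw, hwD₂⟩⟩⟩
  rintro rfl
  exact hwD hwD₂

private theorem qp_isEdge_pair {B : Finset α → Prop} {F : Finset α} {u v : α} (huv : u ≠ v)
    (hB : B {u, v}) (hF : F = {u, v}) : IsEdge B F := ⟨u, v, ⟨huv, hB⟩, hF⟩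

/-- a minimal bad non-edge contains no bad pair. -/
private theorem qp_no_pair {W : Finset α} {B : Finset α → Prop} {F : Finset α}
    (hF : MB W B B F) {u v : α} (hu : u ∈ F) (hv : v ∈ F) (huv : Adj B u v) : False := by
  have hsub : ({u, v} : Finset α) ⊆ F := by
    intro x hx
    simp only [Finset.mem_insert, Finset.mem_singleton] at hx
    rcases hx with rfl | rfl
    · exact hu
    · exact hv
  by_cases he : ({u, v} : Finset α) = F
  · exact hF.2 ⟨u, v, huv, he.symm⟩
  · exact hF.1.2.2 _ (Finset.ssubset_iff_subset_ne.2 ⟨hsub, he⟩) huv.2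

/-- non-edges of the larger graph are non-edges of the smaller one. -/
private theorem qp_mb_of_mb {W : Finset α} {G B : Finset α → Prop} (h : ClV W G B)
    {F : Finset α} (hF : MB W B B F) : MB W G B F := by
  refine ⟨hF.1, ?_⟩
  rintro ⟨u, v, huv, rfl⟩
  have hu : u ∈ W := hF.1.1 (by simp)
  have hv : v ∈ W := hF.1.1 (by simp)
  exact hF.2 ⟨u, v, ⟨huv.1, h.edge u hu v hv huv⟩, rfl⟩

/-- conversion does not change the components of the complement of a minimal bad non-edge (see the proof
of `ClV.conv`: a bad pair disjoint from `F` which is not an edge is a minimal bad non-edge, so `v3`). -/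
theorem ClV.comps_mb_conv {W : Finset α} {G B : Finset α → Prop} (h : ClV W G B)
    {F : Finset α} (hF : MB W B B F) : comps B (W \ F) = comps G (W \ F) := by
  refine comps_eq_of_joined ?_ ?_
  · intro u hu v hv huv
    exact ⟨huv.1, h.edge u (Finset.mem_sdiff.1 hu).1 v (Finset.mem_sdiff.1 hv).1 huv⟩
  · intro u hu v hv huv
    by_cases hG : Adj G u v
    · obtain ⟨D, hD, huD⟩ := exists_comp G (W \ F) hu
      exact ⟨D, hD, huD, (qp_closed hD).2 u huD v hv hG⟩
    · have hmb : MB W G B {u, v} := by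
        refine ⟨⟨?_, huv.2, ?_⟩, ?_⟩
        · intro x hx
          simp only [Finset.mem_insert, Finset.mem_singleton] at hx
          rcases hx with rfl | rfl
          · exact (Finset.mem_sdiff.1 hu).1
          · exact (Finset.mem_sdiff.1 hv).1
        · intro T hT hBT
          have hc := Finset.card_lt_card hT
          rw [Finset.card_pair huv.1] at hc
          have hcases : T.card = 0 ∨ T.card = 1 := by omega
          rcases hcases with h0 | h1
          · rw [Finset.card_eq_zero] at h0
            subst h0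
            exact h.not_bad_empty hBT
          · obtain ⟨w, rfl⟩ := Finset.card_eq_one.1 h1
            exact h.one w hBT
        · rintro ⟨a, b, hab, he⟩
          have ha : a ∈ ({u, v} : Finset α) := by rw [he]; simp
          have hb : b ∈ ({u, v} : Finset α) := by rw [he]; simp
          simp only [Finset.mem_insert, Finset.mem_singleton] at ha hb
          rcases ha with rfl | rfl <;> rcases hb with rfl | rfl
          · exact hab.1 rfl
          · exact hG hab
          · exact hG (adj_symm hab)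
          · exact hab.1 rfl
      have hd : Disjoint F {u, v} := by
        rw [Finset.disjoint_left]
        intro x hx hx'
        simp only [Finset.mem_insert, Finset.mem_singleton] at hx'
        rcases hx' with rfl | rfl
        · exact (Finset.mem_sdiff.1 hu).2 hx
        · exact (Finset.mem_sdiff.1 hv).2 hx
      obtain ⟨D, hD, hsub⟩ := h.v3 F {u, v} (qp_mb_of_mb h hF) hmb hd
      exact ⟨D, hD, hsub (by simp), hsub (by simp)⟩

/-- Step A in class Q for an inclusion-minimal tight set `S` which is hyper-tight: the product condition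
holds.

Proof. Suppose not: `F` minimal bad non-edge, `F ∩ S ≠ ∅`, no `S ∪ (F ∩ K)` bad. By `all_tight_of_not_PF` all
`S ∪ (F ∩ K)` are tight, `c(F) = |F|`, `c(F ∩ S) = |F ∩ S|` (and `c(F ∪ S) = |F ∪ S|`, by the sum formula
`c_union_eq_sum` and `c_union_of_subset_comp`). By `e4` `F` has no tight proper subset. `S ⊄ F` (`S ≠ F`,
as `F` is bad), so `F ∩ S ⊂ S`; if `|F ∩ S| ≥ 2` it would be tight (a subset of the non-bad `S`), against
minimality. So `F ∩ S = {v}`. `F ≠ {v}`, so there is `K` with `R := F ∩ K ≠ ∅`; `F` is not contained in `S ∪ R` (which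
is not bad), so `{v} ∪ R ⊂ F`. There are no edges between `F` and `S` (such an edge would make some `S ∪ (F ∩ K)`
bad), and none between `F \ (S ∪ R)` and `(S ∪ R) \ F ⊆ S`. G8 (`submodular`) for `F` and `S ∪ R`:
`c(F) + c(S ∪ R) ≤ c(F ∪ S) + c({v} ∪ R)`, i.e. `|F| + |S| + |R| ≤ |F ∪ S| + c({v} ∪ R)`, `|F ∪ S| = |F| + |S| - 1`, so
`c({v} ∪ R) ≥ |R| + 1`: `{v} ∪ R` is a tight proper subset of `F`, against `e4`. -/
theorem ClQ.pf_of_minimal {W : Finset α} {B : Finset α → Prop} (h : ClQ W B) {S : Finset α}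
    (hS : HT W B B S) (hmin : ∀ T : Finset α, T ⊂ S → ¬ Tight W B B T) : PF W B B S := by
  intro F hF hFS
  by_contra hcon
  have hno : ∀ K ∈ comps B (W \ S), ¬ B (S ∪ (F ∩ K)) := fun K hK hB => hcon ⟨K, hK, hB⟩
  obtain ⟨htK, hcF, hcFS⟩ := h.cl.all_tight_of_not_PF hS.1 hF hFS hno
  have he4 := h.e4 F hF hcF
  have hSW : S ⊆ W := hS.1.1
  have hFW : F ⊆ W := hF.1.1
  have hSnB : ¬ B S := hS.1.2.2.1
  have hSF : ¬ S ⊆ F := by
    intro hsub
    by_cases he : S = F
    · exact hSnB (he ▸ hF.1.2.1)
    · exact he4 S (Finset.ssubset_iff_subset_ne.2 ⟨hsub, he⟩) hS.1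
  have hlt : F ∩ S ⊂ S := by
    refine Finset.ssubset_iff_subset_ne.2 ⟨Finset.inter_subset_right, fun he => hSF ?_⟩
    rw [← he]
    exact Finset.inter_subset_left
  have hone : (F ∩ S).card = 1 := by
    by_contra hne
    have hpos := hFS.card_pos
    refine hmin (F ∩ S) hlt ⟨Finset.inter_subset_left.trans hFW, by omega, ?_, hcFS.ge⟩
    exact h.cl.not_bad_of_subset Finset.inter_subset_right hSnB
  obtain ⟨v, hv⟩ := Finset.card_eq_one.1 hone
  have hvFS : v ∈ F ∩ S := by rw [hv]; simp
  have hvF : v ∈ F := (Finset.mem_inter.1 hvFS).1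
  have hvS : v ∈ S := (Finset.mem_inter.1 hvFS).2
  have hF2 := h.cl.minBad_two_le hF.1
  obtain ⟨x, hxF, hxS⟩ : ∃ x ∈ F, x ∉ S := by
    by_contra hall
    push Not at hall
    have : F ∩ S = F := Finset.inter_eq_left.2 hall
    rw [this] at hone
    omega
  obtain ⟨K, hK, hxK⟩ := exists_comp B (W \ S) (Finset.mem_sdiff.2 ⟨hFW hxF, hxS⟩)
  have hKS := qp_subset hK
  set R : Finset α := F ∩ K with hR
  have hRF : R ⊆ F := Finset.inter_subset_left
  have hRne : R.Nonempty := ⟨x, Finset.mem_inter.2 ⟨hxF, hxK⟩⟩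
  have hdSR : Disjoint S R := by
    rw [Finset.disjoint_left]
    intro z hz hzR
    exact (Finset.mem_sdiff.1 (hKS (Finset.mem_inter.1 hzR).2)).2 hz
  have hTR := htK K hK
  obtain ⟨y, hyF, hySR⟩ : ∃ y ∈ F, y ∉ S ∪ R := by
    by_contra hall
    push Not at hall
    exact hTR.2.2.1 (h.cl.up F _ hall hF.1.2.1)
  -- no edges
  have hnoedge : ∀ u ∈ F \ (S ∪ R), ∀ w ∈ (S ∪ R) \ F, ¬ Adj B u w := by
    intro u hu w hw huw
    rw [Finset.mem_sdiff, Finset.mem_union, not_or] at hu
    rw [Finset.mem_sdiff, Finset.mem_union] at hw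
    have hwS : w ∈ S := by
      rcases hw.1 with h1 | h1
      · exact h1
      · exact absurd (hRF h1) hw.2
    obtain ⟨K', hK', huK'⟩ := exists_comp B (W \ S) (Finset.mem_sdiff.2 ⟨hFW hu.1, hu.2.1⟩)
    refine hno K' hK' (h.cl.up {u, w} _ ?_ huw.2)
    intro z hz
    simp only [Finset.mem_insert, Finset.mem_singleton] at hz
    rcases hz with rfl | rfl
    · exact Finset.mem_union_right _ (Finset.mem_inter.2 ⟨hu.1, huK'⟩)
    · exact Finset.mem_union_left _ hwS
  have hsm := submodular W B F (S ∪ R) hFW (Finset.union_subset hSW (hRF.trans hFW)) hnoedge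
  -- the number of components for the union
  have hcS : c W B S = S.card := h.cl.c_tight hS.1
  have hcSR : c W B (S ∪ R) = S.card + R.card := by
    rw [h.cl.c_tight hTR, Finset.card_union_of_disjoint hdSR]
  have hcU : c W B (S ∪ F) = S.card + (F \ S).card := by
    rw [c_union_eq_sum S F]
    have e1 : ∀ K ∈ comps B (W \ S), (comps B (K \ F)).card = (F ∩ K).card + 1 := by
      intro K hK
      have h1 := c_union_of_subset_comp (R := F ∩ K) hK Finset.inter_subset_right
      have h2 := h.cl.c_tight (htK K hK)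
      have h3 : Disjoint S (F ∩ K) := by
        rw [Finset.disjoint_left]
        intro z hz hzR
        exact (Finset.mem_sdiff.1 (qp_subset hK (Finset.mem_inter.1 hzR).2)).2 hz
      rw [Finset.card_union_of_disjoint h3] at h2
      have h4 : K \ (F ∩ K) = K \ F := by
        ext z
        simp only [Finset.mem_sdiff, Finset.mem_inter]
        tauto
      rw [h4] at h1
      omega
    rw [Finset.sum_congr rfl e1, Finset.sum_add_distrib, qp_sum_inter, Finset.sum_const,
      smul_eq_mul, mul_one]
    have e2 : (comps B (W \ S)).card = S.card := hcS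
    have e3 : F ∩ (W \ S) = F \ S := by
      ext z
      simp only [Finset.mem_inter, Finset.mem_sdiff]
      exact ⟨fun h1 => ⟨h1.1, h1.2.2⟩, fun h1 => ⟨h1.1, hFW h1.1, h1.2⟩⟩
    rw [e2, e3, add_comm]
  have hun : F ∪ (S ∪ R) = S ∪ F := by
    ext z
    simp only [Finset.mem_union]
    constructor
    · rintro (h1 | h1 | h1)
      · exact Or.inr h1
      · exact Or.inl h1
      · exact Or.inr (hRF h1)
    · rintro (h1 | h1)
      · exact Or.inr (Or.inl h1)
      · exact Or.inl h1
  have hin : F ∩ (S ∪ R) = insert v R := by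
    ext z
    simp only [Finset.mem_inter, Finset.mem_union, Finset.mem_insert]
    constructor
    · rintro ⟨h1, h2 | h2⟩
      · left
        have : z ∈ F ∩ S := Finset.mem_inter.2 ⟨h1, h2⟩
        rw [hv] at this
        exact Finset.mem_singleton.1 this
      · exact Or.inr h2
    · rintro (rfl | h1)
      · exact ⟨hvF, Or.inl hvS⟩
      · exact ⟨hRF h1, Or.inr h1⟩
  have hvR : v ∉ R := fun hvR => Finset.disjoint_left.1 hdSR hvS hvR
  rw [hun, hin, hcF, hcSR, hcU] at hsm
  have hcardF : F.card = (F ∩ S).card + (F \ S).card := (Finset.card_inter_add_card_sdiff F S).symm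
  have hcT : (insert v R).card = R.card + 1 := Finset.card_insert_of_notMem hvR
  have hRpos := hRne.card_pos
  have hsubT : insert v R ⊆ F := Finset.insert_subset hvF hRF
  refine he4 (insert v R) (Finset.ssubset_iff_subset_ne.2 ⟨hsubT, ?_⟩)
    ⟨hsubT.trans hFW, by omega, ?_, by omega⟩
  · intro he
    rw [← he, Finset.mem_insert] at hyF
    rw [Finset.mem_union, not_or] at hySR
    rcases hyF with rfl | h1
    · exact hySR.1 hvS
    · exact hySR.2 h1
  · refine hF.1.2.2 _ (Finset.ssubset_iff_subset_ne.2 ⟨hsubT, ?_⟩)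
    intro he
    rw [← he, Finset.mem_insert] at hyF
    rw [Finset.mem_union, not_or] at hySR
    rcases hyF with rfl | h1
    · exact hySR.1 hvS
    · exact hySR.2 h1

/-- Step A, truncated state: class Q is preserved for an inclusion-minimal tight `S`.

Proof. `ClV.addBad`, `ClV.conv`. Let `F` be a minimal bad non-edge of the canonical child, `c(F) = |F|` there, `T ⊂ F`
tight there. `T` is tight in `(W, B)` and `¬ S ⊆ T` (`tight_of_conv`, `tight_addBad`). By `minBad_addBad` either
`F = S`, and `T ⊂ S` contradicts `hmin`, or `F` is an old minimal bad set; it is not an edge of `B` (`B ≤ addBad B S`)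
and the components of `W \ F` are the same for both graphs (`comps_mb_conv`), so `c W B F = |F|`, against
`e4`. -/
theorem ClQ.addBad {W : Finset α} {B : Finset α → Prop} (h : ClQ W B) {S : Finset α}
    (hS : HT W B B S) (hmin : ∀ T : Finset α, T ⊂ S → ¬ Tight W B B T) :
    ClQ W (addBad B S) := by
  have h' : ClV W B (Pool.Agent.DK.addBad B S) := h.cl.addBad hS
  refine ⟨h'.conv, ?_⟩
  intro F hF hcF T hTF hT
  obtain ⟨hT1, _⟩ := tight_addBad (h'.tight_of_conv hT)
  have hcomp := h'.comps_mb_conv hF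
  rcases minBad_addBad hF.1 with h1 | ⟨h1, _⟩
  · subst h1
    exact hmin T hTF hT1
  · have hmb : MB W B B F := by
      refine ⟨h1, ?_⟩
      rintro ⟨u, v, huv, he⟩
      exact hF.2 ⟨u, v, ⟨huv.1, Or.inl huv.2⟩, he⟩
    refine h.e4 F hmb ?_ T hTF hT1
    rw [← hcF]
    unfold c
    rw [hcomp]

/-- the lower bound for the number of components of a piece minus an old minimal bad non-edge. -/
private theorem qp_c_le_piece {W : Finset α} {B : Finset α → Prop} (h : ClV W B B)
    {S K F : Finset α} {s : α} (hs : s ∈ S) (hS : HT W B B S) (hK : K ∈ comps B (W \ S))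
    (hF : MB W B B F) (hFK : F ⊆ K) :
    c W B F ≤ c (insert s K) (contrBad (gr B) S s) F := by
  have hSW : S ⊆ W := hS.1.1
  have hKS : K ⊆ W \ S := qp_subset hK
  have hFS : Disjoint F S := by
    rw [Finset.disjoint_left]
    intro x hx hxS
    exact (Finset.mem_sdiff.1 (hKS (hFK hx))).2 hxS
  have hSG : ∀ u ∈ S, ∀ v ∈ S, ¬ Adj B u v := by
    intro u hu v hv huv
    refine hS.1.2.2.1 (h.up {u, v} S ?_ huv.2)
    intro x hx
    simp only [Finset.mem_insert, Finset.mem_singleton] at hx
    rcases hx with rfl | rfl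
    · exact hu
    · exact hv
  obtain ⟨D, hD, hSD⟩ := (h.nc_tight_symm hS.1 hF hFS).1 (hS.2 F hF hFS)
  have hFne : F.Nonempty := by
    rw [← Finset.card_pos]
    have := h.minBad_two_le hF.1
    omega
  have hsK : s ∉ K := fun hsK => (Finset.mem_sdiff.1 (hKS hsK)).2 hs
  -- the other components
  have hX : ∀ X ∈ comps B (W \ F), X ≠ D → X ⊆ K ∧ Disjoint X S := by
    intro X hX hne
    have hd := comps_disjoint B _ hX hD hne
    have hXS : Disjoint X S := Finset.disjoint_of_subset_right hSD hd
    exact ⟨comp_subset_of_nc h.conn hF.1.1 hFne hK hFK hX hXS, hXS⟩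
  set f : Finset α → Finset α := fun X => if X = D then insert s (D ∩ K) else X with hf
  have hfinj : Set.InjOn f (comps B (W \ F) : Set (Finset α)) := by
    intro X hX1 Y hY1 he
    have hX1' : X ∈ comps B (W \ F) := hX1
    have hY1' : Y ∈ comps B (W \ F) := hY1
    simp only [hf] at he
    by_cases h1 : X = D <;> by_cases h2 : Y = D
    · rw [h1, h2]
    · rw [if_pos h1, if_neg h2] at he
      exact absurd ((hX Y hY1' h2).1 (he ▸ Finset.mem_insert_self s _)) hsK
    · rw [if_neg h1, if_pos h2] at he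
      exact absurd ((hX X hX1' h1).1 (he.symm ▸ Finset.mem_insert_self s _)) hsK
    · rw [if_neg h1, if_neg h2] at he
      exact he
  have hcard : ((comps B (W \ F)).image f).card = c W B F := Finset.card_image_of_injOn hfinj
  rw [← hcard]
  -- adjacency
  have hadj := fun (u v : α) (hu : u ∉ S) => adj_piece (G := B) hs hSG (v := v) hu
  have hKnS : ∀ v ∈ K, v ∉ S := fun v hv => (Finset.mem_sdiff.1 (hKS hv)).2
  have hKW : ∀ v ∈ K, v ∈ W := fun v hv => (Finset.mem_sdiff.1 (hKS hv)).1
  have hclX : ∀ X ∈ comps B (W \ F), X ≠ D →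
      ClosedIn (contrBad (gr B) S s) (insert s K \ F) X := by
    intro X hX1 hne
    obtain ⟨hXK, hXS⟩ := hX X hX1 hne
    have hXcl := qp_closed hX1
    refine ⟨fun u hu => ?_, fun u hu v hv huv => ?_⟩
    · rw [Finset.mem_sdiff]
      exact ⟨Finset.mem_insert_of_mem (hXK hu), (Finset.mem_sdiff.1 (hXcl.1 hu)).2⟩
    · rw [Finset.mem_sdiff, Finset.mem_insert] at hv
      have huS : u ∉ S := Finset.disjoint_left.1 hXS hu
      rcases hv.1 with rfl | hvK
      · obtain ⟨w, hw, huw⟩ := (hadj u v huS).2.1 huv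
        exfalso
        have hwF : w ∈ W \ F := Finset.mem_sdiff.2
          ⟨hSW hw, fun h1 => Finset.disjoint_left.1 hFS h1 hw⟩
        exact Finset.disjoint_left.1 hXS (hXcl.2 u hu w hwF huw) hw
      · have h1 := ((hadj u v huS).1 (hKnS v hvK)).1 huv
        exact hXcl.2 u hu v (Finset.mem_sdiff.2 ⟨hKW v hvK, hv.2⟩) h1
  have hDcl := qp_closed hD
  have hclD : ClosedIn (contrBad (gr B) S s) (insert s K \ F) (insert s (D ∩ K)) := by
    refine ⟨fun u hu => ?_, fun u hu v hv huv => ?_⟩
    · rw [Finset.mem_insert, Finset.mem_inter] at hu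
      rw [Finset.mem_sdiff, Finset.mem_insert]
      rcases hu with rfl | hu
      · exact ⟨Or.inl rfl, fun h1 => Finset.disjoint_left.1 hFS h1 hs⟩
      · exact ⟨Or.inr hu.2, (Finset.mem_sdiff.1 (hDcl.1 hu.1)).2⟩
    · rw [Finset.mem_insert, Finset.mem_inter] at hu ⊢
      rw [Finset.mem_sdiff, Finset.mem_insert] at hv
      rcases hv.1 with h1 | hvK
      · exact Or.inl h1
      right
      refine ⟨?_, hvK⟩
      have hvWF : v ∈ W \ F := Finset.mem_sdiff.2 ⟨hKW v hvK, hv.2⟩
      rcases hu with rfl | hu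
      · -- `v` is adjacent to a vertex of `S`
        obtain ⟨w, hw, hvw⟩ := (hadj v u (hKnS v hvK)).2.1 (adj_symm huv)
        exact hDcl.2 w (hSD hw) v hvWF (adj_symm hvw)
      · have h1 := ((hadj u v (hKnS u hu.2)).1 (hKnS v hvK)).1 huv
        exact hDcl.2 u hu.1 v hvWF h1
  refine card_le_comps _ _ _ ?_ ?_
  · intro Y hY
    obtain ⟨X, hX1, rfl⟩ := Finset.mem_image.1 hY
    simp only [hf]
    split_ifs with h1
    · exact ⟨⟨s, Finset.mem_insert_self s _⟩, hclD⟩
    · exact ⟨qp_nonempty hX1, hclX X hX1 h1⟩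
  · intro Y hY Y' hY' hne
    have hY2 := Finset.mem_coe.1 hY
    have hY2' := Finset.mem_coe.1 hY'
    obtain ⟨X, hX1, rfl⟩ := Finset.mem_image.1 hY2
    obtain ⟨X', hX1', rfl⟩ := Finset.mem_image.1 hY2'
    have hXX : X ≠ X' := fun e => hne (by rw [e])
    have hd := comps_disjoint B _ hX1 hX1' hXX
    have hd1 : ∀ Z ∈ comps B (W \ F), Z ≠ D → Disjoint Z (insert s (D ∩ K)) := by
      intro Z hZ hZD
      rw [Finset.disjoint_left]
      intro z hz hz'
      rw [Finset.mem_insert, Finset.mem_inter] at hz'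
      rcases hz' with rfl | hz'
      · exact hsK ((hX Z hZ hZD).1 hz)
      · exact Finset.disjoint_left.1 (comps_disjoint B _ hZ hD hZD) hz hz'.1
    show Disjoint (f X) (f X')
    simp only [hf]
    by_cases h1 : X = D <;> by_cases h2 : X' = D
    · exact absurd (h1.trans h2.symm) hXX
    · rw [if_pos h1, if_neg h2]
      exact (hd1 X' hX1' h2).symm
    · rw [if_neg h1, if_pos h2]
      exact hd1 X hX1 h1
    · rw [if_neg h1, if_neg h2]
      exact hd


/-- Step A, pieces.

Proof. `ClV.piece`, `ClV.conv`. Let `F` be a minimal bad non-edge of the canonical piece with `c'(F) = |F|`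
(by `comps_mb_conv` the number of components is the same for the graph `contrBad (gr B) S s`; `F` is
also a non-edge of it), and `T ⊂ F` tight; `T` is tight for that graph.  `mb_piece`:
(a) `F ⊆ K` old. `c W B F = |F|`: `≥` is `v1`; `≤`: from the proof of `v1` in `ClV.piece`, the piece minus `F` has at
least `c W B F` components. `T ⊆ F ⊆ K`, `s ∉ T`, so `T` is tight in `(W, B)` (`tight_piece`), against `e4`.
(b) `F = insert s R`, `R = F₀ ∩ K`, `F₀ ⊆ S ∪ K`, `N := F₀ ∩ S ≠ ∅`. There are no edges between `R` and `S` (otherwise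
`{s, r}` is a bad pair in `F`, so `F` is an edge). `c'(F) = #comps(K \ R) = |R| + 1`, so `c(S ∪ R) = |S| + |R|`
(`c_union_of_subset_comp`), and G8 for `F₀`, `S`: `c(F₀) ≤ c(F₀ ∪ S) + c(N) - c(S) ≤ |S| + |R| + |N| - |S| = |F₀|`, so
`c(F₀) = |F₀|`. If `s ∉ T`: `T ⊆ R ⊂ F₀` is tight in `(W, B)`, against `e4`. If `s ∈ T`: `T = insert s R'`, `R' ⊂ R`,
`R'` nonempty, `S ∪ R'` is tight in `(W, B)`. G8 for `F₀` and `S ∪ R'` (no edges between `F₀ \ (S ∪ R') ⊆ R` and
`(S ∪ R') \ F₀ ⊆ S`): `|F₀| + |S| + |R'| ≤ c(F₀) + c(S ∪ R') ≤ c(S ∪ R) + c(N ∪ R') = |S| + |R| + c(N ∪ R')`, so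
`c(N ∪ R') ≥ |N| + |R'|`, and `N ∪ R'` is a tight proper subset of `F₀`, against `e4`. -/
theorem ClQ.piece {W : Finset α} {B : Finset α → Prop} (h : ClQ W B) {S K : Finset α} {s : α}
    (hs : s ∈ S) (hS : HT W B B S) (hK : K ∈ comps B (W \ S)) :
    ClQ (insert s K) (contrBad B S s) := by
  have hp : ClV (insert s K) (contrBad (gr B) S s) (contrBad B S s) := h.cl.piece hs hS hK
  refine ⟨hp.conv, ?_⟩
  intro F hF hcF T hTF hT
  have hSW : S ⊆ W := hS.1.1
  have hKS : K ⊆ W \ S := qp_subset hK
  have hsK : s ∉ K := fun hsK => (Finset.mem_sdiff.1 (hKS hsK)).2 hs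
  have hSnB : ¬ B S := hS.1.2.2.1
  have hSG : ∀ u ∈ S, ∀ v ∈ S, ¬ Adj B u v := by
    intro u hu v hv huv
    refine hSnB (h.cl.up {u, v} S ?_ huv.2)
    intro x hx
    simp only [Finset.mem_insert, Finset.mem_singleton] at hx
    rcases hx with rfl | rfl
    · exact hu
    · exact hv
  have hFG := qp_mb_of_mb hp hF
  have hT' := hp.tight_of_conv hT
  have hcG : c (insert s K) (contrBad (gr B) S s) F = F.card := by
    rw [← hcF]
    unfold c
    rw [hp.comps_mb_conv hF]
  have htp := tight_piece h.cl hs hS hK hT'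
  rcases mb_piece h.cl hs hS.1 hK hFG with ⟨hsF, hFK, hmb⟩ | ⟨hsF, F₀, hmb, hF₀, hN, hFeq⟩
  · -- old set
    have h1 := qp_c_le_piece h.cl hs hS hK hmb hFK
    have h2 := h.cl.v1 F hmb
    have h3 : c W B F = F.card := by omega
    rcases htp with ⟨_, _, h4⟩ | ⟨h4, _⟩
    · exact h.e4 F hmb h3 T hTF h4
    · exact hsF (hTF.1 h4)
  · set R : Finset α := F₀ ∩ K with hR
    set N : Finset α := F₀ ∩ S with hNdef
    have hF₀W : F₀ ⊆ W := hmb.1.1
    have hRK : R ⊆ K := Finset.inter_subset_right
    have hRF₀ : R ⊆ F₀ := Finset.inter_subset_left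
    have hsR : s ∉ R := fun h1 => hsK (hRK h1)
    have hdSR : Disjoint S R := by
      rw [Finset.disjoint_left]
      intro z hz hzR
      exact (Finset.mem_sdiff.1 (hKS (hRK hzR))).2 hz
    -- no edges between `R` and `S`
    have hnoRS : ∀ r ∈ R, ∀ w ∈ S, ¬ Adj B r w := by
      intro r hr w hw hrw
      have hsr : s ≠ r := fun e => hsR (e ▸ hr)
      have hbad : contrBad B S s {s, r} := by
        unfold contrBad
        rw [if_pos (by simp)]
        refine h.cl.up {r, w} _ ?_ hrw.2
        intro x hx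
        simp only [Finset.mem_insert, Finset.mem_singleton] at hx
        rcases hx with rfl | rfl
        · simp
        · exact Finset.mem_union_right _ hw
      have hrF : r ∈ F := by
        rw [hFeq]
        exact Finset.mem_insert_of_mem hr
      exact qp_no_pair hF hsF hrF ⟨hsr, hbad⟩
    have hcardF : F.card = R.card + 1 := by
      rw [hFeq]
      exact Finset.card_insert_of_notMem hsR
    have hcKR : (comps B (K \ R)).card = R.card + 1 := by
      have h1 := comps_piece_of_mem (W := W) (T := F) hs hSG hK hsF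
      have h2 : (comps B (K \ F)).card = F.card := by
        rw [← hcG]
        unfold c
        rw [h1]
      have h3 : K \ F = K \ R := by
        rw [hFeq]
        ext z
        simp only [Finset.mem_sdiff, Finset.mem_insert, not_or]
        constructor
        · rintro ⟨a1, _, a3⟩
          exact ⟨a1, a3⟩
        · rintro ⟨a1, a2⟩
          exact ⟨a1, fun e => hsK (e ▸ a1), a2⟩
      rw [h3] at h2
      omega
    have hcS : c W B S = S.card := h.cl.c_tight hS.1
    have hcSR : c W B (S ∪ R) = S.card + R.card := by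
      have h1 := c_union_of_subset_comp hK hRK
      omega
    have hNS : N ⊆ S := Finset.inter_subset_right
    have hNF₀ : N ⊆ F₀ := Finset.inter_subset_left
    have hNnB : ¬ B N := h.cl.not_bad_of_subset hNS hSnB
    have hcN : c W B N ≤ N.card := h.cl.v2 N (hNS.trans hSW) hN hNnB
    have hF₀card : F₀.card = N.card + R.card := by
      have h1 : F₀ = N ∪ R := by
        ext z
        simp only [hNdef, hR, Finset.mem_union, Finset.mem_inter]
        constructor
        · intro hz
          rcases Finset.mem_union.1 (hF₀ hz) with h2 | h2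
          · exact Or.inl ⟨hz, h2⟩
          · exact Or.inr ⟨hz, h2⟩
        · rintro (h2 | h2)
          · exact h2.1
          · exact h2.1
      have h2 : Disjoint N R := Finset.disjoint_of_subset_left hNS hdSR
      rw [← Finset.card_union_of_disjoint h2, ← h1]
    have hF₀S : ∀ u ∈ F₀, u ∉ S → u ∈ R := by
      intro u hu huS
      rcases Finset.mem_union.1 (hF₀ hu) with h2 | h2
      · exact absurd h2 huS
      · exact Finset.mem_inter.2 ⟨hu, h2⟩
    have hun : F₀ ∪ S = S ∪ R := by
      ext z
      simp only [Finset.mem_union]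
      constructor
      · rintro (h1 | h1)
        · by_cases hz : z ∈ S
          · exact Or.inl hz
          · exact Or.inr (hF₀S z h1 hz)
        · exact Or.inl h1
      · rintro (h1 | h1)
        · exact Or.inr h1
        · exact Or.inl (hRF₀ h1)
    have hcF₀ : c W B F₀ = F₀.card := by
      have h1 := submodular W B F₀ S hF₀W hSW (by
        intro u hu w hw huw
        rw [Finset.mem_sdiff] at hu hw
        exact hnoRS u (hF₀S u hu.1 hu.2) w hw.1 huw)
      rw [hun, hcSR, hcS, ← hNdef] at h1
      have h2 := h.cl.v1 F₀ hmb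
      omega
    have hNpos := hN.card_pos
    have hRne : R.Nonempty := by
      rw [← Finset.card_pos]
      have := hp.minBad_two_le hFG.1
      omega
    have hRpos := hRne.card_pos
    have hRlt : R ⊂ F₀ := by
      refine Finset.ssubset_iff_subset_ne.2 ⟨hRF₀, fun he => ?_⟩
      rw [← he] at hF₀card
      omega
    rcases htp with ⟨hsT, hTK, hTt⟩ | ⟨hsT, hTt⟩
    · -- `T ⊆ R`
      have hTR : T ⊆ R := by
        intro z hz
        have h1 := hTF.1 hz
        rw [hFeq, Finset.mem_insert] at h1
        rcases h1 with rfl | h1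
        · exact absurd hz hsT
        · exact h1
      exact h.e4 F₀ hmb hcF₀ T (lt_of_le_of_lt hTR hRlt) hTt
    · set R' : Finset α := T.erase s with hR'
      have hR'R : R' ⊆ R := by
        intro z hz
        rw [hR', Finset.mem_erase] at hz
        have h1 := hTF.1 hz.2
        rw [hFeq, Finset.mem_insert] at h1
        rcases h1 with h1 | h1
        · exact absurd h1 hz.1
        · exact h1
      have hcT : T.card = R'.card + 1 := by
        rw [hR', Finset.card_erase_of_mem hsT]
        have := Finset.card_pos.2 ⟨s, hsT⟩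
        omega
      have hTlt := Finset.card_lt_card hTF
      have hT2 := hT'.2.1
      have hST : S ∪ T = S ∪ R' := by
        ext z
        simp only [hR', Finset.mem_union, Finset.mem_erase]
        constructor
        · rintro (h1 | h1)
          · exact Or.inl h1
          · by_cases hz : z = s
            · left
              rw [hz]
              exact hs
            · exact Or.inr ⟨hz, h1⟩
        · rintro (h1 | h1)
          · exact Or.inl h1
          · exact Or.inr h1.2
      rw [hST] at hTt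
      have hdSR' : Disjoint S R' := Finset.disjoint_of_subset_right hR'R hdSR
      have hcSR' : c W B (S ∪ R') = S.card + R'.card := by
        rw [h.cl.c_tight hTt, Finset.card_union_of_disjoint hdSR']
      have h1 := submodular W B F₀ (S ∪ R') hF₀W
        (Finset.union_subset hSW (hR'R.trans (hRF₀.trans hF₀W))) (by
        intro u hu w hw huw
        rw [Finset.mem_sdiff, Finset.mem_union, not_or] at hu
        rw [Finset.mem_sdiff, Finset.mem_union] at hw
        rcases hw.1 with h2 | h2
        · exact hnoRS u (hF₀S u hu.1 hu.2.1) w h2 huw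
        · exact hw.2 (hRF₀ (hR'R h2)))
      have h2 : F₀ ∪ (S ∪ R') = S ∪ R := by
        rw [← hun]
        ext z
        simp only [Finset.mem_union]
        constructor
        · rintro (a1 | a1 | a1)
          · exact Or.inl a1
          · exact Or.inr a1
          · exact Or.inl (hRF₀ (hR'R a1))
        · rintro (a1 | a1)
          · exact Or.inl a1
          · exact Or.inr (Or.inl a1)
      have h3 : F₀ ∩ (S ∪ R') = N ∪ R' := by
        ext z
        simp only [hNdef, Finset.mem_union, Finset.mem_inter]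
        constructor
        · rintro ⟨a1, a2 | a2⟩
          · exact Or.inl ⟨a1, a2⟩
          · exact Or.inr a2
        · rintro (a1 | a1)
          · exact ⟨a1.1, Or.inl a1.2⟩
          · exact ⟨hRF₀ (hR'R a1), Or.inr a1⟩
      rw [h2, h3, hcF₀, hcSR, hcSR'] at h1
      have hdN : Disjoint N R' := Finset.disjoint_of_subset_left hNS hdSR'
      have hcard : (N ∪ R').card = N.card + R'.card := Finset.card_union_of_disjoint hdN
      have hsub : N ∪ R' ⊆ F₀ := Finset.union_subset hNF₀ (hR'R.trans hRF₀)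
      have hlt : N ∪ R' ⊂ F₀ := by
        refine Finset.ssubset_iff_subset_ne.2 ⟨hsub, fun he => ?_⟩
        rw [he] at hcard
        omega
      exact h.e4 F₀ hmb hcF₀ (N ∪ R') hlt
        ⟨hsub.trans hF₀W, by omega, hmb.1.2.2 _ hlt, by omega⟩

/-- Step C, pieces (`mb_pieceC`, `c_pieceC`, `tight_pieceC`). -/
theorem ClQ.pieceC {W : Finset α} {B : Finset α → Prop} (h : ClQ W B)
    {a b : α} {P : Finset α} (hs : Split W B a b P) : ClQ (insert a (insert b P)) B := by
  refine ⟨h.cl.pieceC hs, ?_⟩
  intro F hF hcF T hTF hT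
  have hmb := mb_pieceC hs hF
  have hab : ¬ (a ∈ F ∧ b ∈ F) := fun hab => qp_no_pair hmb hab.1 hab.2 hs.hab
  have hc := c_pieceC h.cl hs hF.1.1 hab
  exact h.e4 F hmb (hc ▸ hcF) T hTF (tight_pieceC h.cl hs hT)

/-- In class Q Step C is always possible.

Proof. If `F` meets `P` and `Q`, then it meets two components of `W \ {a, b}`; `ClV.blocked` gives `c(F) = |F|` and a
tight subset `insert a (F ∩ K)` (or with `b`), proper since `F` meets another component: against `e4`. -/
theorem ClQ.noSpread {W : Finset α} {B : Finset α → Prop} (h : ClQ W B)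
    {a b : α} {P : Finset α} (hs : Split W B a b P) : NoSpread W B a b P := by
  intro F hF
  by_contra hcon
  rw [not_or] at hcon
  obtain ⟨x, hxF, hx⟩ := Finset.not_subset.1 hcon.1
  obtain ⟨y, hyF, hy⟩ := Finset.not_subset.1 hcon.2
  simp only [Finset.mem_insert, not_or] at hx
  simp only [Finset.mem_insert, Finset.mem_sdiff, not_or, not_and, not_not] at hy
  have hxW : x ∈ W \ {a, b} := by
    rw [Finset.mem_sdiff]
    refine ⟨hF.1.1 hxF, ?_⟩
    simp only [Finset.mem_insert, Finset.mem_singleton, not_or]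
    exact ⟨hx.1, hx.2.1⟩
  have hyW : y ∈ W \ {a, b} := by
    rw [Finset.mem_sdiff]
    refine ⟨hF.1.1 hyF, ?_⟩
    simp only [Finset.mem_insert, Finset.mem_singleton, not_or]
    exact ⟨hy.1, hy.2.1⟩
  have hyP : y ∈ P := by
    refine hy.2.2 ⟨hF.1.1 hyF, hy.1, ?_⟩
    rw [Finset.mem_singleton]
    exact hy.2.1
  obtain ⟨K₁, hK₁, hxK⟩ := exists_comp B (W \ {a, b}) hxW
  obtain ⟨K₂, hK₂, hyK⟩ := exists_comp B (W \ {a, b}) hyW
  have hne : K₁ ≠ K₂ := by
    rintro rfl
    exact hx.2.2 (comp_subset_of_closed B _ P hs.hP hK₂ hyK hyP hxK)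
  have hdis := comps_disjoint B _ hK₁ hK₂ hne
  have hyK₁ : y ∉ K₁ := fun h1 => Finset.disjoint_left.1 hdis h1 hyK
  have key : ∀ z : α, z ≠ y → z ∈ F → c W B F = F.card →
      Tight W B B (insert z (F ∩ K₁)) → False := by
    intro z hzy hzF hcF hT
    refine h.e4 F hF hcF (insert z (F ∩ K₁)) ?_ hT
    refine Finset.ssubset_iff_subset_ne.2
      ⟨Finset.insert_subset hzF Finset.inter_subset_left, fun he => ?_⟩
    have hyF' := hyF
    rw [← he, Finset.mem_insert, Finset.mem_inter] at hyF'
    rcases hyF' with h1 | h1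
    · exact hzy h1.symm
    · exact hyK₁ h1.2
  have hm₁ : (F ∩ K₁).Nonempty := ⟨x, Finset.mem_inter.2 ⟨hxF, hxK⟩⟩
  have hm₂ : (F ∩ K₂).Nonempty := ⟨y, Finset.mem_inter.2 ⟨hyF, hyK⟩⟩
  rcases h.cl.blocked hs.ha hs.hb hs.hab hF hK₁ hK₂ hne hm₁ hm₂ with h1 | h1
  · exact key a (fun e => hy.1 e.symm) h1.1 h1.2.2.1 (h1.2.2.2 K₁ hK₁ hm₁)
  · exact key b (fun e => hy.2.1 e.symm) h1.1 h1.2.2.1 (h1.2.2.2 K₁ hK₁ hm₁)

/-- End of phase 1: if no inclusion-minimal tight set is hyper-tight and there is no split, then the state is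
ready.

Proof. (i) `conn3`. `a = b`: `v2`. Suppose `a ≠ b` and `c W B {a, b} ≥ 2`. If `Adj B a b`, a component of `W \ {a, b}` gives a
split. Otherwise `{a, b}` is not bad, so it is tight, inclusion-minimal, so not hyper-tight: it separates
a minimal bad non-edge `F` disjoint from it. G10 `crossing` (for `K = F`, `K' = {a, b}`, both critical): `c(F) = |F|`,
the number of components of `W \ F` meeting `{a, b}` is at least 2, hence equal to 2, and equals the
number of traces of `F` on the components of `W \ {a, b}`; these traces `F ∩ D` have `c(F ∩ D) = |F ∩ D|`, and they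
are proper subsets of `F`, so by `e4` they have one element. So `|F| = 2`, and `F` is a bad pair, an edge:
contradiction.
(ii) `cover`. Let `T` be tight; it contains an inclusion-minimal tight `T₀`; it is enough to show that `T₀` is a
vertex cover. `T₀` is not hyper-tight, it separates some minimal bad non-edge `F`, `F ∩ T₀ = ∅`. By G10 (and
`nc_symm`), `c(F) = |F|`, and all traces of `F` on components of `W \ T₀` and of `T₀` on components of `W \ F` satisfy
`c = card`, so they have one element (minimality of `T₀`, `e4` for `F`). Let `x y` be an edge with `x, y ∉ T₀`.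
Not both are in `F`. Say `x ∉ F`, and let `X` be the component of `W \ (T₀ ∪ F)` containing `x`. `X` is contained
in one component `D` of `W \ T₀` and in one component `D'` of `W \ F`; all neighbours of `X` in `T₀` are in `D'`, and all
neighbours of `X` in `F` are in `D`. So `X` has at most one neighbour `t` in `T₀` and at most one neighbour `f`
in `F`, and `X` is closed in `W \ {t, f}` (or `W` minus one vertex or `W`); `T₀` has another vertex, so there are at
least two components: contradiction with (i) (or `v2`, `conn`). -/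
theorem ClQ.ready {W : Finset α} {B : Finset α → Prop} (h : ClQ W B) (h4 : 4 ≤ W.card)
    (hno : ∀ S, HT W B B S → ∃ T : Finset α, T ⊂ S ∧ Tight W B B T)
    (hsp : ∀ a b P, ¬ Split W B a b P) : Ready W B := by
  have h1c : ∀ v ∈ W, (comps B (W \ {v})).card ≤ 1 := fun v hv =>
    h.cl.card_comps_sdiff_singleton hv
  -- crossing an inclusion-minimal tight set
  have hcross : ∀ T₀, Tight W B B T₀ → (∀ T : Finset α, T ⊂ T₀ → ¬ Tight W B B T) →
      ∃ F, MB W B B F ∧ Disjoint F T₀ ∧
        (∀ D ∈ comps B (W \ T₀), (F ∩ D).card ≤ 1) ∧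
        (∀ D ∈ comps B (W \ F), (T₀ ∩ D).card ≤ 1) ∧
        ((comps B (W \ T₀)).filter (fun D => (F ∩ D).Nonempty)).card =
          ((comps B (W \ F)).filter (fun D => (T₀ ∩ D).Nonempty)).card := by
    intro T₀ hT₀ hTmin
    have hnHT : ¬ HT W B B T₀ := by
      intro hHT
      obtain ⟨T, hT, hTt⟩ := hno T₀ hHT
      exact hTmin T hT hTt
    obtain ⟨F, hF, hd, hnc⟩ : ∃ F, MB W B B F ∧ Disjoint F T₀ ∧ ¬ NC W B T₀ F := by
      by_contra hcon
      push Not at hcon
      exact hnHT ⟨hT₀, fun F hF hd => hcon F hF hd⟩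
    have hFne : F.Nonempty := by
      rw [← Finset.card_pos]
      have := h.cl.minBad_two_le hF.1
      omega
    obtain ⟨D₁, hD₁, D₂, hD₂, hne, hm₁, hm₂⟩ := qp_two_comps hF.1.1 hFne hd hnc
    have hcF := h.cl.crit_of_minBad hF
    have hcT := h.cl.crit_of_tight hT₀
    obtain ⟨e1, e2, e3, e4, e5, e6⟩ := crossing W B F T₀ h.cl.conn h1c hF.1.1 hT₀.1 hd
      hcF.2.2.1 hcT.2.2.1 hcF.2.2.2 hcT.2.2.2 D₁ D₂ hD₁ hD₂ hne hm₁ hm₂
    refine ⟨F, hF, hd, ?_, ?_, e3⟩
    · intro D hD
      by_contra hcon
      have hn : (F ∩ D).Nonempty := by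
        rw [← Finset.card_pos]
        omega
      have hlt : F ∩ D ⊂ F := by
        refine Finset.ssubset_iff_subset_ne.2 ⟨Finset.inter_subset_left, fun he => ?_⟩
        have hFD : F ⊆ D := by
          rw [← he]
          exact Finset.inter_subset_right
        obtain ⟨z₁, hz₁⟩ := hm₁
        obtain ⟨z₂, hz₂⟩ := hm₂
        rw [Finset.mem_inter] at hz₁ hz₂
        have a1 : D = D₁ := by
          by_contra hne1
          exact Finset.disjoint_left.1 (comps_disjoint B _ hD hD₁ hne1) (hFD hz₁.1) hz₁.2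
        have a2 : D = D₂ := by
          by_contra hne1
          exact Finset.disjoint_left.1 (comps_disjoint B _ hD hD₂ hne1) (hFD hz₂.1) hz₂.2
        exact hne (a1.symm.trans a2)
      exact h.e4 F hF e1 (F ∩ D) hlt ⟨Finset.inter_subset_left.trans hF.1.1, by omega,
        hF.1.2.2 _ hlt, (e5 D hD hn).1.ge⟩
    · intro D hD
      by_contra hcon
      have hn : (T₀ ∩ D).Nonempty := by
        rw [← Finset.card_pos]
        omega
      have hlt : T₀ ∩ D ⊂ T₀ := by
        refine Finset.ssubset_iff_subset_ne.2 ⟨Finset.inter_subset_left, fun he => ?_⟩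
        have hTD : T₀ ⊆ D := by
          rw [← he]
          exact Finset.inter_subset_right
        have hle : ((comps B (W \ F)).filter (fun D => (T₀ ∩ D).Nonempty)).card ≤ 1 := by
          rw [Finset.card_le_one]
          intro X hX Y hY
          rw [Finset.mem_filter] at hX hY
          have key : ∀ Z ∈ comps B (W \ F), (T₀ ∩ Z).Nonempty → Z = D := by
            rintro Z hZ ⟨z, hz⟩
            rw [Finset.mem_inter] at hz
            by_contra hne1
            exact Finset.disjoint_left.1 (comps_disjoint B _ hZ hD hne1) hz.2 (hTD hz.1)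
          rw [key X hX.1 hX.2, key Y hY.1 hY.2]
        omega
      exact hTmin (T₀ ∩ D) hlt ⟨Finset.inter_subset_left.trans hT₀.1, by omega,
        h.cl.not_bad_of_subset Finset.inter_subset_left hT₀.2.2.1, (e6 D hD hn).1.ge⟩
  -- no separating pair
  have hconn3 : ∀ a ∈ W, ∀ b ∈ W, c W B {a, b} ≤ 1 := by
    intro a ha b hb
    by_cases hab : a = b
    · subst hab
      rw [Finset.pair_eq_singleton]
      exact h1c a ha
    by_contra hcon
    have h2 : 1 < (comps B (W \ {a, b})).card := by
      have : c W B {a, b} = (comps B (W \ {a, b})).card := rfl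
      omega
    have hsub : ({a, b} : Finset α) ⊆ W := by
      intro x hx
      simp only [Finset.mem_insert, Finset.mem_singleton] at hx
      rcases hx with rfl | rfl
      · exact ha
      · exact hb
    by_cases hadj : Adj B a b
    · obtain ⟨P, hP, Q, hQ, hPQ⟩ := Finset.one_lt_card.1 h2
      refine hsp a b P ⟨ha, hb, hadj, qp_closed hP, qp_nonempty hP, ?_⟩
      obtain ⟨z, hz⟩ := qp_nonempty hQ
      exact ⟨z, Finset.mem_sdiff.2 ⟨qp_subset hQ hz, fun hzP =>
        Finset.disjoint_left.1 (comps_disjoint B _ hP hQ hPQ) hzP hz⟩⟩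
    · have hnB : ¬ B {a, b} := fun hB => hadj ⟨hab, hB⟩
      have hcard : ({a, b} : Finset α).card = 2 := Finset.card_pair hab
      have hT : Tight W B B {a, b} := ⟨hsub, hcard.ge, hnB, by omega⟩
      have hTmin : ∀ T : Finset α, T ⊂ {a, b} → ¬ Tight W B B T := by
        intro T hT1 hT2
        have := Finset.card_lt_card hT1
        have := hT2.2.1
        omega
      obtain ⟨F, hF, hd, hF1, _, he⟩ := hcross {a, b} hT hTmin
      -- at most two components meet `{a, b}`
      have hM : ((comps B (W \ F)).filter (fun D => (({a, b} : Finset α) ∩ D).Nonempty)).card ≤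
          2 := by
        rw [← hcard]
        have hex : ∀ D ∈ (comps B (W \ F)).filter
            (fun D => (({a, b} : Finset α) ∩ D).Nonempty), ∃ x ∈ ({a, b} : Finset α), x ∈ D := by
          intro D hD
          obtain ⟨x, hx⟩ := (Finset.mem_filter.1 hD).2
          exact ⟨x, (Finset.mem_inter.1 hx).1, (Finset.mem_inter.1 hx).2⟩
        have hne0 : Nonempty α := ⟨a⟩
        choose! g hg1 hg2 using hex
        refine Finset.card_le_card_of_injOn g (fun D hD => hg1 D hD) ?_
        intro D hD D' hD' hgg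
        by_contra hne
        have hD1 := Finset.mem_coe.1 hD
        have hD1' := Finset.mem_coe.1 hD'
        have hdis := comps_disjoint B _ (Finset.mem_filter.1 hD1).1 (Finset.mem_filter.1 hD1').1 hne
        exact Finset.disjoint_left.1 hdis (hg2 D hD1) (hgg ▸ hg2 D' hD1')
      have hFle : F.card ≤ 2 := by
        have hs1 := qp_sum_inter B (W \ {a, b}) F
        have hFW : F ∩ (W \ {a, b}) = F := by
          rw [Finset.inter_eq_left]
          intro z hz
          exact Finset.mem_sdiff.2 ⟨hF.1.1 hz, Finset.disjoint_left.1 hd hz⟩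
        rw [hFW] at hs1
        rw [← hs1, ← Finset.sum_filter_add_sum_filter_not _ (fun D => (F ∩ D).Nonempty)]
        have z1 : ∑ D ∈ (comps B (W \ {a, b})).filter (fun D => ¬ (F ∩ D).Nonempty),
            (F ∩ D).card = 0 := by
          refine Finset.sum_eq_zero fun D hD => ?_
          rw [Finset.card_eq_zero]
          exact Finset.not_nonempty_iff_eq_empty.1 (Finset.mem_filter.1 hD).2
        have z2 : ∑ D ∈ (comps B (W \ {a, b})).filter (fun D => (F ∩ D).Nonempty),
            (F ∩ D).card ≤ ((comps B (W \ {a, b})).filter (fun D => (F ∩ D).Nonempty)).card := by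
          refine (Finset.sum_le_card_nsmul _ _ 1 fun D hD =>
            hF1 D (Finset.mem_filter.1 hD).1).trans ?_
          simp
        omega
      have hF2 := h.cl.minBad_two_le hF.1
      have hFc : F.card = 2 := by omega
      obtain ⟨x, y, hxy, rfl⟩ := Finset.card_eq_two.1 hFc
      exact hF.2 ⟨x, y, ⟨hxy, hF.1.2.1⟩, rfl⟩
  refine ⟨h.cl, h4, hconn3, ?_⟩
  -- vertex covers
  have hmain : ∀ T, Tight W B B T → ∃ T₀, T₀ ⊆ T ∧ Tight W B B T₀ ∧
      ∀ T' : Finset α, T' ⊂ T₀ → ¬ Tight W B B T' := by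
    intro T
    induction T using Finset.strongInduction with
    | H T ih =>
      intro hT
      by_cases hex : ∃ T', T' ⊂ T ∧ Tight W B B T'
      · obtain ⟨T', hT', hTt⟩ := hex
        obtain ⟨T₀, h1, h2, h3⟩ := ih T' hT' hTt
        exact ⟨T₀, h1.trans hT'.1, h2, h3⟩
      · push Not at hex
        exact ⟨T, Finset.Subset.refl _, hT, hex⟩
  intro T hT x hx y hy hxy
  obtain ⟨T₀, hT₀T, hT₀, hTmin⟩ := hmain T hT
  by_contra hcon
  rw [not_or] at hcon
  obtain ⟨F, hF, hd, hF1, hF2, _⟩ := hcross T₀ hT₀ hTmin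
  have hT2 := hT₀.2.1
  -- every vertex is in `T₀` or `F`
  have hall : ∀ z ∈ W, z ∉ T₀ → z ∈ F := by
    intro z hz hzT
    by_contra hzF
    have hzR : z ∈ W \ (T₀ ∪ F) := by
      rw [Finset.mem_sdiff, Finset.mem_union, not_or]
      exact ⟨hz, hzT, hzF⟩
    obtain ⟨X, hX, hzX⟩ := exists_comp B (W \ (T₀ ∪ F)) hzR
    obtain ⟨D, hD, hzD⟩ := exists_comp B (W \ T₀) (Finset.mem_sdiff.2 ⟨hz, hzT⟩)
    obtain ⟨D', hD', hzD'⟩ := exists_comp B (W \ F) (Finset.mem_sdiff.2 ⟨hz, hzF⟩)
    have hXR : ∀ u ∈ X, u ∈ W ∧ u ∉ T₀ ∧ u ∉ F := by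
      intro u hu
      have := qp_subset hX hu
      rw [Finset.mem_sdiff, Finset.mem_union, not_or] at this
      exact this
    have hXD : X ⊆ D := by
      have hcl : ClosedIn B (W \ (T₀ ∪ F)) (D ∩ (W \ (T₀ ∪ F))) := by
        refine ⟨Finset.inter_subset_right, fun u hu v hv huv => ?_⟩
        rw [Finset.mem_inter] at hu ⊢
        refine ⟨(qp_closed hD).2 u hu.1 v ?_ huv, hv⟩
        rw [Finset.mem_sdiff, Finset.mem_union, not_or] at hv
        exact Finset.mem_sdiff.2 ⟨hv.1, hv.2.1⟩
      exact (comp_subset_of_closed B _ _ hcl hX hzX (Finset.mem_inter.2 ⟨hzD, hzR⟩)).trans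
        Finset.inter_subset_left
    have hXD' : X ⊆ D' := by
      have hcl : ClosedIn B (W \ (T₀ ∪ F)) (D' ∩ (W \ (T₀ ∪ F))) := by
        refine ⟨Finset.inter_subset_right, fun u hu v hv huv => ?_⟩
        rw [Finset.mem_inter] at hu ⊢
        refine ⟨(qp_closed hD').2 u hu.1 v ?_ huv, hv⟩
        rw [Finset.mem_sdiff, Finset.mem_union, not_or] at hv
        exact Finset.mem_sdiff.2 ⟨hv.1, hv.2.2⟩
      exact (comp_subset_of_closed B _ _ hcl hX hzX (Finset.mem_inter.2 ⟨hzD', hzR⟩)).trans
        Finset.inter_subset_left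
    have hpick : ∀ A E : Finset α, A.Nonempty → (A ∩ E).card ≤ 1 →
        ∃ t ∈ A, ∀ v ∈ A, v ∈ E → v = t := by
      intro A E hA hE
      by_cases hn : (A ∩ E).Nonempty
      · obtain ⟨t, ht⟩ := hn
        refine ⟨t, (Finset.mem_inter.1 ht).1, fun v hv hvE => ?_⟩
        exact Finset.card_le_one.1 hE v (Finset.mem_inter.2 ⟨hv, hvE⟩) t ht
      · obtain ⟨t, ht⟩ := hA
        exact ⟨t, ht, fun v hv hvE => absurd ⟨v, Finset.mem_inter.2 ⟨hv, hvE⟩⟩ hn⟩
    have hT₀ne : T₀.Nonempty := hT₀.nonempty
    have hFne : F.Nonempty := by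
      rw [← Finset.card_pos]
      have := h.cl.minBad_two_le hF.1
      omega
    obtain ⟨t, ht, htu⟩ := hpick T₀ D' hT₀ne (hF2 D' hD')
    obtain ⟨f, hf, hfu⟩ := hpick F D hFne (hF1 D hD)
    have hXcl : ClosedIn B (W \ {t, f}) X := by
      refine ⟨fun u hu => ?_, fun u hu v hv huv => ?_⟩
      · have h1 := hXR u hu
        rw [Finset.mem_sdiff]
        refine ⟨h1.1, ?_⟩
        simp only [Finset.mem_insert, Finset.mem_singleton, not_or]
        exact ⟨fun e => h1.2.1 (e ▸ ht), fun e => h1.2.2 (e ▸ hf)⟩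
      · rw [Finset.mem_sdiff] at hv
        simp only [Finset.mem_insert, Finset.mem_singleton, not_or] at hv
        by_cases hvT : v ∈ T₀
        · exfalso
          have hvF : v ∉ F := fun h1 => Finset.disjoint_left.1 hd h1 hvT
          have hvD' : v ∈ D' := (qp_closed hD').2 u (hXD' hu) v
            (Finset.mem_sdiff.2 ⟨hv.1, hvF⟩) huv
          exact hv.2.1 (htu v hvT hvD')
        · by_cases hvF : v ∈ F
          · exfalso
            have hvD : v ∈ D := (qp_closed hD).2 u (hXD hu) v
              (Finset.mem_sdiff.2 ⟨hv.1, hvT⟩) huv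
            exact hv.2.2 (hfu v hvF hvD)
          · refine (qp_closed hX).2 u hu v ?_ huv
            rw [Finset.mem_sdiff, Finset.mem_union, not_or]
            exact ⟨hv.1, hvT, hvF⟩
    -- another vertex of `T₀`
    obtain ⟨t', ht', htt⟩ : ∃ t' ∈ T₀, t' ≠ t := Finset.exists_mem_ne (by omega) t
    have ht'f : t' ≠ f := fun e => Finset.disjoint_left.1 hd hf (e ▸ ht')
    have hYne : ((W \ {t, f}) \ X).Nonempty := by
      refine ⟨t', ?_⟩
      rw [Finset.mem_sdiff, Finset.mem_sdiff]
      refine ⟨⟨hT₀.1 ht', ?_⟩, fun h1 => (hXR t' h1).2.1 ht'⟩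
      simp only [Finset.mem_insert, Finset.mem_singleton, not_or]
      exact ⟨htt, ht'f⟩
    have h2 := qp_two_le hXcl (qp_closed_compl hXcl) (qp_nonempty hX) hYne
      Finset.disjoint_sdiff
    have h3 := hconn3 t (hT₀.1 ht) f (hF.1.1 hf)
    have h4 : c W B {t, f} = (comps B (W \ {t, f})).card := rfl
    omega
  exact qp_no_pair hF (hall x hx fun h1 => hcon.1 (hT₀T h1))
    (hall y hy fun h1 => hcon.2 (hT₀T h1)) hxy

end Pool.Agent.DK
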