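import Mathlib
import Pool.Agent.Lib_MP_6f255c_dk.StepBPhi
import Pool.Agent.Lib_MP_6f255c_dk.VConv
import Pool.Agent.Lib_MP_6f255c_dk.VCross
import Pool.Agent.Lib_MP_6f255c_dk.Crossing

/-!
# Step B: the deletion child is in class V
-/

set_option autoImplicit false

namespace Pool.Agent.DK

open Classical

variable {α : Type*}

/-- minimal bad non-edges of the deletion child.

Proof. `F` minimal bad for `delBad`. If not both `x, y ∈ F`: the bad subsets of `F` are the same for `B`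
and `delBad`, so `F` is minimal bad for `B`, and it is not an edge of `B` (an edge `{u, v} ≠ {x, y}` of `B` is an
edge of `delG`; `F` does not contain both `x, y`). If `x, y ∈ F`: `B (F.erase x)` would give the proper bad subset
`F.erase x` (it does not contain `x`), same for `y`; so there is `S ⊆ F`, `x, y ∈ S`, `|S| ≤ c W B S`, which is bad
itself, so `S = F`. -/
theorem mb_del {W : Finset α} {B : Finset α → Prop} (h : ClV W B B) {x y : α}
    (hx : x ∈ W) (hy : y ∈ W) (hxy : Adj B x y) {F : Finset α}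
    (hF : MB W (delG B x y) (delBad W B x y) F) :
    (¬ (x ∈ F ∧ y ∈ F) ∧ MB W B B F) ∨ (x ∈ F ∧ y ∈ F ∧ F.card ≤ c W B F) := by
  obtain ⟨⟨hFW, hFb, hmin⟩, hne⟩ := hF
  by_cases hboth : x ∈ F ∧ y ∈ F
  · right
    obtain ⟨hxF, hyF⟩ := hboth
    refine ⟨hxF, hyF, ?_⟩
    rcases hFb with ⟨h0, _⟩ | ⟨_, _, h1 | h1 | ⟨S, hSF, hxS, hyS, hSc⟩⟩
    · exact absurd ⟨hxF, hyF⟩ h0
    · exact absurd (Or.inl ⟨fun hh => Finset.notMem_erase x F hh.1, h1⟩)
        (hmin _ (Finset.erase_ssubset hxF))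
    · exact absurd (Or.inl ⟨fun hh => Finset.notMem_erase y F hh.2, h1⟩)
        (hmin _ (Finset.erase_ssubset hyF))
    · rcases eq_or_ne S F with rfl | hSne
      · exact hSc
      · exact absurd (Or.inr ⟨hxS, hyS, Or.inr (Or.inr ⟨S, Finset.Subset.refl _, hxS, hyS, hSc⟩)⟩)
          (hmin S (lt_of_le_of_ne hSF hSne))
  · left
    refine ⟨hboth, ⟨hFW, ?_, ?_⟩, ?_⟩
    · rcases hFb with ⟨_, h0⟩ | ⟨h1, h2, _⟩
      · exact h0
      · exact absurd ⟨h1, h2⟩ hboth
    · intro T hT hBT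
      exact hmin T hT (Or.inl ⟨fun hh => hboth ⟨hT.1 hh.1, hT.1 hh.2⟩, hBT⟩)
    · rintro ⟨u, v, huv, rfl⟩
      refine hne ⟨u, v, adj_delG.2 ⟨huv, fun he => hboth ?_⟩, rfl⟩
      rw [he]
      simp

private theorem del_aux {W : Finset α} {B : Finset α → Prop} (h : ClV W B B) {x y : α}
    (hxy : Adj B x y) {F F' : Finset α} (hF : MB W (delG B x y) (delBad W B x y) F)
    (hxF : x ∈ F) (hyF : y ∈ F) (hd : Disjoint F F')
    (hc' : c W (delG B x y) F' = F'.card) (hv1 : F'.card ≤ c W B F')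
    (htr : ∀ D ∈ comps (delG B x y) (W \ F'), (F ∩ D).Nonempty →
      c W (delG B x y) (F ∩ D) = (F ∩ D).card)
    {D₁ D₂ : Finset α} (hD₁ : D₁ ∈ comps (delG B x y) (W \ F'))
    (hD₂ : D₂ ∈ comps (delG B x y) (W \ F')) (hne : D₁ ≠ D₂)
    (hm₁ : (F ∩ D₁).Nonempty) (hm₂ : (F ∩ D₂).Nonempty) : False := by
  have hxR : x ∈ W \ F' := Finset.mem_sdiff.2 ⟨hF.1.1 hxF, Finset.disjoint_left.1 hd hxF⟩
  have hyR : y ∈ W \ F' := Finset.mem_sdiff.2 ⟨hF.1.1 hyF, Finset.disjoint_left.1 hd hyF⟩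
  rcases card_comps_delG hxy (W \ F') with ⟨h3 | ⟨D, hD, hxD, hyD⟩, _⟩ | ⟨_, h3⟩
  · exact h3 ⟨hxR, hyR⟩
  · -- x and y in one component
    have hxT : x ∈ F ∩ D := Finset.mem_inter.2 ⟨hxF, hxD⟩
    have hyT : y ∈ F ∩ D := Finset.mem_inter.2 ⟨hyF, hyD⟩
    have hss : F ∩ D ⊂ F := by
      refine lt_of_le_of_ne Finset.inter_subset_left (fun he => ?_)
      have hFD : F ⊆ D := Finset.inter_eq_left.1 he
      have key : ∀ D' ∈ comps (delG B x y) (W \ F'), (F ∩ D').Nonempty → D' = D := by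
        intro D' hD' hm
        by_contra hn
        obtain ⟨z, hz⟩ := hm
        rw [Finset.mem_inter] at hz
        exact Finset.disjoint_left.1 (comps_disjoint _ _ hD' hD hn) hz.2 (hFD hz.1)
      exact hne ((key D₁ hD₁ hm₁).trans (key D₂ hD₂ hm₂).symm)
    have h4 := htr D hD ⟨x, hxT⟩
    have h5 : c W B (F ∩ D) = c W (delG B x y) (F ∩ D) := by
      rcases card_comps_delG hxy (W \ (F ∩ D)) with ⟨_, h6⟩ | ⟨⟨h6, _⟩, _⟩
      · unfold c
        rw [h6]
      · exact absurd hxT (Finset.mem_sdiff.1 h6).2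
    refine hF.1.2.2 _ hss (Or.inr ⟨hxT, hyT, Or.inr (Or.inr
      ⟨F ∩ D, Finset.Subset.refl _, hxT, hyT, ?_⟩)⟩)
    rw [h5, h4]
  · unfold c at hc' hv1
    omega

/-- The deletion child is in class V.

Hypotheses: `{x, y}` is not a separating pair (`hc`), `W` minus the edge is 2-connected (`h0`, `h1`), and every
tight set contains `x` or `y` (`hT`; so the set `B_f` of the paper proof is empty).

Proof (note 237).  `two`, `up`, `edge`: clear (`delBad` is up-closed: cases). `one`: `delBad {v}` for a singleton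
means `B {v}` (`x ≠ y`).
`v2`, `S` not bad for `delBad`: if `x, y ∈ S` then not `|S| ≤ c W B S`, and `W \ S` does not contain `x`, so the
components are the same. Otherwise `S` is not in `B`, `c W B S ≤ |S|`; by `card_comps_delG` only the case
`x, y ∉ S`, `c W B S = |S|` can be a problem: `|S| = 1` is `h1`, and if `|S| ≥ 2`, `S` is tight, contradiction
with `hT`.
`v1`: by `mb_del` and `card_comps_delG` (the number of components does not decrease).
`v3`: let `F, F'` be disjoint minimal bad non-edges; suppose `F` separates `F'`.  Both are critical in the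
deletion child (`v1`, `v2` just proved), so by G10 `crossing`: `c'(F) = |F|`, `c'(F') = |F'|`, the traces `T` of `F`
on the components of `W \ F'` have `c'(T) = |T|`, and at least two components of `W \ F` meet `F'` (use
`nc_symm` first to get the form needed).  Not both contain `x` and `y`.
Case both are old (`MB W B B`, `¬ (x ∈ F ∧ y ∈ F)`...): `c W B F ≥ |F| = c'(F)`, so by `card_comps_delG` the components
of `W \ F` are the same for both graphs, and old `v3` contradicts.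
Case `x, y ∈ F` (then `F'` is old and `x, y ∉ F'`), or symmetric. If `x` and `y` are in the same component `D` of
`W \ F'` (for `delG`) then `T = F ∩ D` is a proper subset of `F` containing `x, y` with `|T| = c'(T) = c W B T`, so
`T` is bad for `delBad`: contradiction with the minimality of `F`. If they are in different components, the
edge `x y` joins them: `c W B F' = c'(F') - 1 = |F'| - 1` by `card_comps_delG`, contradiction with old `v1`. -/
theorem ClV.del {W : Finset α} {B : Finset α → Prop} (h : ClV W B B) {x y : α}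
    (hx : x ∈ W) (hy : y ∈ W) (hxy : Adj B x y) (hc : c W B {x, y} ≤ 1)
    (h0 : (comps (delG B x y) W).card ≤ 1)
    (h1 : ∀ v ∈ W, (comps (delG B x y) (W \ {v})).card ≤ 1)
    (hT : ∀ T, Tight W B B T → x ∈ T ∨ y ∈ T) :
    ClV W (delG B x y) (delBad W B x y) := by
  have hle : ∀ S : Finset α, c W B S ≤ c W (delG B x y) S := by
    intro S
    unfold c
    rcases card_comps_delG hxy (W \ S) with ⟨_, h2⟩ | ⟨_, h2⟩
    · rw [h2]
    · omega
  have hv1 : ∀ F, MB W (delG B x y) (delBad W B x y) F → F.card ≤ c W (delG B x y) F := by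
    intro F hF
    rcases mb_del h hx hy hxy hF with ⟨_, h2⟩ | ⟨_, _, h2⟩
    · exact (h.v1 F h2).trans (hle F)
    · exact h2.trans (hle F)
  have hv2 : ∀ S : Finset α, S ⊆ W → S.Nonempty → ¬ delBad W B x y S →
      c W (delG B x y) S ≤ S.card := by
    intro S hSW hSne hSb
    by_cases hb : x ∈ S ∧ y ∈ S
    · have h2 : ¬ (S.card ≤ c W B S) := fun hh =>
        hSb (Or.inr ⟨hb.1, hb.2, Or.inr (Or.inr ⟨S, Finset.Subset.refl _, hb.1, hb.2, hh⟩)⟩)
      rcases card_comps_delG hxy (W \ S) with ⟨_, h3⟩ | ⟨⟨h3, _⟩, _⟩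
      · unfold c at h2 ⊢
        rw [h3]
        omega
      · exact absurd hb.1 (Finset.mem_sdiff.1 h3).2
    · have hB : ¬ B S := fun hh => hSb (Or.inl ⟨hb, hh⟩)
      have h2 := h.v2 S hSW hSne hB
      rcases card_comps_delG hxy (W \ S) with ⟨_, h3⟩ | ⟨⟨h3, h4, _⟩, h5⟩
      · unfold c at h2 ⊢
        rw [h3]
        exact h2
      · have hcard : 1 ≤ S.card := Finset.card_pos.2 hSne
        rcases Nat.lt_or_ge (c W B S) S.card with h6 | h6
        · unfold c at h6 ⊢
          omega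
        · rcases Nat.lt_or_ge S.card 2 with h7 | h7
          · have h8 : S.card = 1 := by omega
            obtain ⟨v, rfl⟩ := Finset.card_eq_one.1 h8
            have h9 := h1 v (by simpa using hSW)
            unfold c
            simpa using h9
          · rcases hT S ⟨hSW, h7, hB, h6⟩ with h8 | h8
            · exact absurd h8 (Finset.mem_sdiff.1 h3).2
            · exact absurd h8 (Finset.mem_sdiff.1 h4).2
  have htwo : ∀ F, MB W (delG B x y) (delBad W B x y) F → F.Nonempty := by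
    intro F hF
    rw [Finset.nonempty_iff_ne_empty]
    rintro rfl
    rcases hF.1.2.1 with ⟨_, h2⟩ | ⟨h2, _⟩
    · exact h.not_bad_empty h2
    · simp at h2
  have hcrit : ∀ F, MB W (delG B x y) (delBad W B x y) F → Crit W (delG B x y) F := by
    intro F hF
    refine ⟨hF.1.1, htwo F hF, hv1 F hF, fun S hS hSne => ?_⟩
    exact hv2 S (hS.1.trans hF.1.1) hSne (hF.1.2.2 S hS)
  refine ⟨?_, ?_, ?_, h.two, h0, hv1, hv2, ?_⟩
  · intro T T' hTT hb
    rcases hb with ⟨h2, h3⟩ | ⟨h2, h3, h4⟩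
    · by_cases hb : x ∈ T' ∧ y ∈ T'
      · refine Or.inr ⟨hb.1, hb.2, ?_⟩
        by_cases hxT : x ∈ T
        · refine Or.inr (Or.inl (h.up T _ (fun z hz => ?_) h3))
          refine Finset.mem_erase.2 ⟨?_, hTT hz⟩
          rintro rfl
          exact h2 ⟨hxT, hz⟩
        · refine Or.inl (h.up T _ (fun z hz => ?_) h3)
          refine Finset.mem_erase.2 ⟨?_, hTT hz⟩
          rintro rfl
          exact hxT hz
      · exact Or.inl ⟨hb, h.up T T' hTT h3⟩
    · refine Or.inr ⟨hTT h2, hTT h3, ?_⟩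
      rcases h4 with h4 | h4 | ⟨S, hS, h5⟩
      · exact Or.inl (h.up _ _ (Finset.erase_subset_erase _ hTT) h4)
      · exact Or.inr (Or.inl (h.up _ _ (Finset.erase_subset_erase _ hTT) h4))
      · exact Or.inr (Or.inr ⟨S, hS.trans hTT, h5⟩)
  · rintro v (⟨_, h2⟩ | ⟨h2, h3, _⟩)
    · exact h.one v h2
    · rw [Finset.mem_singleton] at h2 h3
      exact hxy.1 (h2.trans h3.symm)
  · intro u hu v hv huv
    obtain ⟨h2, h3⟩ := adj_delG.1 huv
    refine Or.inl ⟨?_, h2.2⟩
    rintro ⟨h4, h5⟩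
    apply h3
    have h6 := hxy.1
    simp only [Finset.mem_insert, Finset.mem_singleton] at h4 h5
    rcases h4 with rfl | rfl <;> rcases h5 with rfl | rfl
    · exact absurd rfl h6
    · rfl
    · rw [Finset.pair_comm]
    · exact absurd rfl h6
  · intro F F' hF hF' hd
    by_contra hnc
    have hcF := hcrit F hF
    have hcF' := hcrit F' hF'
    -- F' meets two components of W minus F
    obtain ⟨v₁, hv₁⟩ := htwo F' hF'
    have hv₁R : v₁ ∈ W \ F :=
      Finset.mem_sdiff.2 ⟨hF'.1.1 hv₁, Finset.disjoint_right.1 hd hv₁⟩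
    obtain ⟨D₁, hD₁, hvD₁⟩ := exists_comp (delG B x y) (W \ F) hv₁R
    have hnot : ¬ F' ⊆ D₁ := fun hh => hnc ⟨D₁, hD₁, hh⟩
    obtain ⟨v₂, hv₂, hvn⟩ := Finset.not_subset.1 hnot
    have hv₂R : v₂ ∈ W \ F :=
      Finset.mem_sdiff.2 ⟨hF'.1.1 hv₂, Finset.disjoint_right.1 hd hv₂⟩
    obtain ⟨D₂, hD₂, hvD₂⟩ := exists_comp (delG B x y) (W \ F) hv₂R
    have hDne : D₁ ≠ D₂ := by
      rintro rfl
      exact hvn hvD₂
    obtain ⟨hcr1, hcr2, _, hcr4, hcr5, hcr6⟩ := crossing W (delG B x y) F' F h0 h1 hF'.1.1 hF.1.1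
      hd.symm hcF'.2.2.1 hcF.2.2.1 hcF'.2.2.2 hcF.2.2.2 D₁ D₂ hD₁ hD₂ hDne
      ⟨v₁, Finset.mem_inter.2 ⟨hv₁, hvD₁⟩⟩ ⟨v₂, Finset.mem_inter.2 ⟨hv₂, hvD₂⟩⟩
    rcases mb_del h hx hy hxy hF with ⟨_, hoF⟩ | ⟨hxF, hyF, _⟩
    · rcases mb_del h hx hy hxy hF' with ⟨_, hoF'⟩ | ⟨hxF', hyF', _⟩
      · have h3 := h.v1 F hoF
        rcases card_comps_delG hxy (W \ F) with ⟨_, h4⟩ | ⟨_, h4⟩
        · obtain ⟨D, hD, hFD⟩ := h.v3 F F' hoF hoF' hd
          exact hnc ⟨D, h4 ▸ hD, hFD⟩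
        · unfold c at h3 hcr2
          omega
      · exact del_aux h hxy hF' hxF' hyF' hd.symm hcr2 (h.v1 F hoF)
          (fun D hD hne => (hcr5 D hD hne).1) hD₁ hD₂ hDne
          ⟨v₁, Finset.mem_inter.2 ⟨hv₁, hvD₁⟩⟩ ⟨v₂, Finset.mem_inter.2 ⟨hv₂, hvD₂⟩⟩
    · rcases mb_del h hx hy hxy hF' with ⟨_, hoF'⟩ | ⟨hxF', _, _⟩
      · obtain ⟨D₃, hD₃, D₄, hD₄, hne34⟩ := Finset.one_lt_card.1 (lt_of_lt_of_le one_lt_two hcr4)
        rw [Finset.mem_filter] at hD₃ hD₄
        exact del_aux h hxy hF hxF hyF hd hcr1 (h.v1 F' hoF')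
          (fun D hD hne => (hcr6 D hD hne).1) hD₃.1 hD₄.1 hne34 hD₃.2 hD₄.2
      · exact absurd hxF' (Finset.disjoint_left.1 hd hxF)

/-- tight sets of the deletion child are weak separators of `x` and `y`.

Proof. Let `T` be tight in the child, `x, y ∉ T`. Then `T` is not in `B`, `c W B T ≤ |T| ≤ c'(T)`. If
`c W B T = |T|` then `T` is tight in `(W, B)`, contradiction with `hT`. So `c'(T) = c W B T + 1` and
`card_comps_delG` says that no component contains both. (If `x, y ∈ T`, `T` contains `x`.) -/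
theorem tight_del {W : Finset α} {B : Finset α → Prop} (h : ClV W B B) {x y : α}
    (hx : x ∈ W) (hy : y ∈ W) (hxy : Adj B x y)
    (hT : ∀ T, Tight W B B T → x ∈ T ∨ y ∈ T) {T : Finset α}
    (hTt : Tight W (delG B x y) (delBad W B x y) T) :
    x ∈ T ∨ y ∈ T ∨ ∀ D ∈ comps (delG B x y) (W \ T), ¬ (x ∈ D ∧ y ∈ D) := by
  by_contra hcon
  push Not at hcon
  obtain ⟨hxT, hyT, D, hD, hxD, hyD⟩ := hcon
  obtain ⟨hTW, hT2, hTb, hTc⟩ := hTt
  have hB : ¬ B T := fun hh => hTb (Or.inl ⟨fun h3 => hxT h3.1, hh⟩)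
  rcases card_comps_delG hxy (W \ T) with ⟨_, h3⟩ | ⟨⟨_, _, h3⟩, _⟩
  · have h4 : Tight W B B T := by
      refine ⟨hTW, hT2, hB, ?_⟩
      unfold c at hTc ⊢
      rw [h3] at hTc
      exact hTc
    rcases hT T h4 with h5 | h5
    · exact hxT h5
    · exact hyT h5
  · exact h3 D hD ⟨hxD, hyD⟩

end Pool.Agent.DK
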