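import Mathlib
import Pool.Agent.Lib_MP_6f255c_dk.StepBConA
import Pool.Agent.Lib_MP_6f255c_dk.StepBDel
import Pool.Agent.Lib_MP_6f255c_dk.VConv
import Pool.Agent.Lib_MP_6f255c_dk.VCross
import Pool.Agent.Lib_MP_6f255c_dk.CompsSdiff

/-!
# Step B: the contraction child is in class V
-/

set_option autoImplicit false

namespace Pool.Agent.DK

open Classical

variable {α : Type*}

private theorem cv_not_mem {W : Finset α} {B : Finset α → Prop} {x y : α} {T : Finset α}
    (hxT : x ∉ T) : conBad W B x y T ↔ delBad W B x y T := by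
  unfold conBad contrBad
  rw [if_neg hxT]

private theorem cv_mem {W : Finset α} {B : Finset α → Prop} {x y : α} {T : Finset α}
    (hxT : x ∈ T) : conBad W B x y T ↔ delBad W B x y (T ∪ {x, y}) := by
  unfold conBad contrBad
  rw [if_pos hxT]

private theorem cv_del {W : Finset α} {B : Finset α → Prop} {x y : α} {T : Finset α}
    (hxT : x ∉ T) : delBad W B x y T ↔ B T := by
  unfold delBad
  constructor
  · rintro (h | h)
    · exact h.2
    · exact absurd h.1 hxT
  · intro h
    exact Or.inl ⟨fun h' => hxT h'.1, h⟩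

private theorem cv_old {W : Finset α} {B : Finset α → Prop} {x y : α} {T : Finset α}
    (hxT : x ∉ T) : conBad W B x y T ↔ B T := (cv_not_mem hxT).trans (cv_del hxT)

private theorem cv_W {W : Finset α} {x y : α} (hx : x ∈ W) (hxy : x ≠ y) {v : α} :
    v ∈ insert x (W \ {x, y}) ↔ v ∈ W ∧ v ≠ y := by
  simp only [Finset.mem_insert, Finset.mem_sdiff, Finset.mem_singleton]
  constructor
  · rintro (rfl | ⟨h1, h2⟩)
    · exact ⟨hx, hxy⟩
    · exact ⟨h1, fun h => h2 (Or.inr h)⟩
  · rintro ⟨h1, h2⟩
    by_cases h : v = x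
    · exact Or.inl h
    · exact Or.inr ⟨h1, fun h' => h'.elim h h2⟩

private theorem cv_subW {W : Finset α} {x y : α} (hx : x ∈ W) (hxy : x ≠ y) :
    insert x (W \ {x, y}) ⊆ W := fun _ hv => ((cv_W hx hxy).1 hv).1

private theorem cv_sub_sdiff {W : Finset α} {x y : α} (hx : x ∈ W) (hxy : x ≠ y) {T : Finset α}
    (hT : T ⊆ insert x (W \ {x, y})) (hxT : x ∉ T) : T ⊆ W \ {x, y} := by
  intro v hv
  have h := (cv_W hx hxy).1 (hT hv)
  rw [Finset.mem_sdiff, Finset.mem_insert, Finset.mem_singleton]
  refine ⟨h.1, ?_⟩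
  rintro (rfl | h')
  · exact hxT hv
  · exact h.2 h'

/-- the quotient map -/
private noncomputable def cvPhi (x y : α) : α → α := fun v => if v = y then x else v

private theorem cvPhi_y (x y : α) : cvPhi x y y = x := by simp [cvPhi]

private theorem cvPhi_ne {x y v : α} (h : v ≠ y) : cvPhi x y v = v := by simp [cvPhi, h]

private theorem cv_map {W : Finset α} {x y : α} (hx : x ∈ W) (hxy : x ≠ y) {T : Finset α}
    (hxT : x ∉ T) : ∀ v ∈ W \ T, cvPhi x y v ∈ insert x (W \ {x, y}) \ T := by
  intro v hv
  rw [Finset.mem_sdiff] at hv ⊢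
  by_cases h : v = y
  · subst h
    rw [cvPhi_y]
    exact ⟨(cv_W hx hxy).2 ⟨hx, hxy⟩, hxT⟩
  · rw [cvPhi_ne h]
    exact ⟨(cv_W hx hxy).2 ⟨hv.1, h⟩, hv.2⟩

private theorem cv_adj {B : Finset α → Prop} {x y : α} (hxy : x ≠ y) {u v : α}
    (h : Adj B u v) :
    cvPhi x y u = cvPhi x y v ∨ Adj (conG B x y) (cvPhi x y u) (cvPhi x y v) := by
  by_cases huy : u = y
  · subst huy
    rw [cvPhi_y, cvPhi_ne h.1.symm]
    by_cases hvx : v = x
    · exact Or.inl hvx.symm
    · refine Or.inr (adj_symm ?_)
      exact ((adj_conG hxy hvx h.1.symm (v := u)).2).2 (Or.inr (adj_symm h))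
  · rw [cvPhi_ne huy]
    by_cases hvy : v = y
    · subst hvy
      rw [cvPhi_y]
      by_cases hux : u = x
      · exact Or.inl hux
      · exact Or.inr (((adj_conG hxy hux huy (v := u)).2).2 (Or.inr h))
    · rw [cvPhi_ne hvy]
      by_cases hux : u = x
      · subst hux
        refine Or.inr (adj_symm ?_)
        exact ((adj_conG hxy h.1.symm hvy (v := u)).2).2 (Or.inl (adj_symm h))
      · by_cases hvx : v = x
        · subst hvx
          exact Or.inr (((adj_conG hxy hux huy (v := u)).2).2 (Or.inl h))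
        · exact Or.inr (((adj_conG hxy hux huy (v := v)).1 hvx hvy).2 h)

private theorem cv_up {W : Finset α} {B : Finset α → Prop} {x y : α}
    (hdel : ClV W (delG B x y) (delBad W B x y)) :
    ∀ T T' : Finset α, T ⊆ T' → conBad W B x y T → conBad W B x y T' := by
  intro T T' hTT' hT
  by_cases hxT : x ∈ T
  · rw [cv_mem hxT] at hT
    rw [cv_mem (hTT' hxT)]
    exact hdel.up _ _ (Finset.union_subset_union hTT' (Finset.Subset.refl _)) hT
  · rw [cv_not_mem hxT] at hT
    by_cases hxT' : x ∈ T'
    · rw [cv_mem hxT']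
      exact hdel.up _ _ (hTT'.trans Finset.subset_union_left) hT
    · rw [cv_not_mem hxT']
      exact hdel.up _ _ hTT' hT

private theorem cv_one {W : Finset α} {B : Finset α → Prop} (h : ClV W B B) {x y : α}
    (hxy : Adj B x y) (hc : c W B {x, y} ≤ 1) (v : α) : ¬ conBad W B x y {v} := by
  intro hB
  by_cases hv : x = v
  · subst hv
    rw [cv_mem (by simp)] at hB
    have he : ({x} ∪ {x, y} : Finset α) = {x, y} := by
      ext a; simp
    rw [he] at hB
    unfold delBad at hB
    rcases hB with hB | ⟨_, _, hB | hB | ⟨S, hS, hxS, hyS, hcS⟩⟩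
    · exact hB.1 (by simp)
    · refine h.one y (h.up _ _ ?_ hB)
      intro a ha
      rw [Finset.mem_erase, Finset.mem_insert, Finset.mem_singleton] at ha
      rw [Finset.mem_singleton]
      exact ha.2.resolve_left ha.1
    · refine h.one x (h.up _ _ ?_ hB)
      intro a ha
      rw [Finset.mem_erase, Finset.mem_insert, Finset.mem_singleton] at ha
      rw [Finset.mem_singleton]
      exact ha.2.resolve_right ha.1
    · have hSe : S = {x, y} := by
        refine Finset.Subset.antisymm hS ?_
        intro a ha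
        rw [Finset.mem_insert, Finset.mem_singleton] at ha
        rcases ha with rfl | rfl
        · exact hxS
        · exact hyS
      rw [hSe, Finset.card_pair hxy.1] at hcS
      omega
  · rw [cv_old (by rw [Finset.mem_singleton]; exact hv)] at hB
    exact h.one v hB

/-- edges at the contracted vertex are bad pairs of the child. -/
private theorem cv_edge_x {W : Finset α} {B : Finset α → Prop} (h : ClV W B B) {x y : α}
    {u : α} (hux : u ≠ x) (huy : u ≠ y) (hxy : x ≠ y)
    (ha : Adj B u x ∨ Adj B u y) : conBad W B x y {u, x} := by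
  rw [cv_mem (by simp)]
  unfold delBad
  refine Or.inr ⟨by simp, by simp, ?_⟩
  rcases ha with ha | ha
  · refine Or.inr (Or.inl (h.up _ _ ?_ ha.2))
    intro a hmem
    rw [Finset.mem_insert, Finset.mem_singleton] at hmem
    rw [Finset.mem_erase]
    rcases hmem with rfl | rfl
    · exact ⟨huy, by simp⟩
    · exact ⟨hxy, by simp⟩
  · refine Or.inl (h.up _ _ ?_ ha.2)
    intro a hmem
    rw [Finset.mem_insert, Finset.mem_singleton] at hmem
    rw [Finset.mem_erase]
    rcases hmem with rfl | rfl
    · exact ⟨hux, by simp⟩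
    · exact ⟨hxy.symm, by simp⟩

private theorem cv_edge {W : Finset α} {B : Finset α → Prop} (h : ClV W B B) {x y : α}
    (hx : x ∈ W) (hxy : x ≠ y) :
    ∀ u ∈ insert x (W \ {x, y}), ∀ v ∈ insert x (W \ {x, y}), Adj (conG B x y) u v →
      conBad W B x y {u, v} := by
  intro u hu v hv huv
  rw [cv_W hx hxy] at hu hv
  by_cases hux : u = x
  · subst hux
    have hvx : v ≠ u := huv.1.symm
    have := (adj_conG hxy hvx hv.2 (v := u)).2.1 (adj_symm huv)
    rw [Finset.pair_comm]
    exact cv_edge_x h hvx hv.2 hxy this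
  · by_cases hvx : v = x
    · subst hvx
      exact cv_edge_x h hux hu.2 hxy ((adj_conG hxy hux hu.2 (v := u)).2.1 huv)
    · have hB := ((adj_conG hxy hux hu.2 (v := v)).1 hvx hv.2).1 huv
      rw [cv_old]
      · exact hB.2
      · rw [Finset.mem_insert, Finset.mem_singleton]
        rintro (h' | h')
        · exact hux h'.symm
        · exact hvx h'.symm

private theorem cv_conn {W : Finset α} {B : Finset α → Prop} (h : ClV W B B) {x y : α}
    (hx : x ∈ W) (hy : y ∈ W) (hxy : Adj B x y) :
    (comps (conG B x y) (insert x (W \ {x, y}))).card ≤ 1 := by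
  have h1 := c_con_of_not_mem hx hy hxy (S := ∅) (Finset.empty_subset _)
  unfold c at h1
  rw [Finset.sdiff_empty, Finset.sdiff_empty] at h1
  rw [h1]
  exact h.conn

private theorem cv_v2 {W : Finset α} {B : Finset α → Prop} (h : ClV W B B) {x y : α}
    (hx : x ∈ W) (hy : y ∈ W) (hxy : Adj B x y) :
    ∀ S : Finset α, S ⊆ insert x (W \ {x, y}) → S.Nonempty → ¬ conBad W B x y S →
      c (insert x (W \ {x, y})) (conG B x y) S ≤ S.card := by
  intro S hS hne hB
  by_cases hxS : x ∈ S
  · rw [c_con_of_mem hxy hxS]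
    by_contra hlt
    apply hB
    rw [cv_mem hxS]
    unfold delBad
    refine Or.inr ⟨by simp, by simp, Or.inr (Or.inr ⟨insert y S, ?_, by simp [hxS], by simp, ?_⟩)⟩
    · intro a ha
      rw [Finset.mem_insert] at ha
      rw [Finset.mem_union, Finset.mem_insert, Finset.mem_singleton]
      rcases ha with rfl | ha
      · exact Or.inr (Or.inr rfl)
      · exact Or.inl ha
    · have hyS : y ∉ S := fun h' => ((cv_W hx hxy.1).1 (hS h')).2 rfl
      rw [Finset.card_insert_of_notMem hyS]
      omega
  · have hS' := cv_sub_sdiff hx hxy.1 hS hxS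
    rw [c_con_of_not_mem hx hy hxy hS']
    rw [cv_old hxS] at hB
    exact h.v2 S (hS'.trans Finset.sdiff_subset) hne hB

/-- minimal bad non-edges of the child not containing `x` are old. -/
private theorem cv_mb_old {W : Finset α} {B : Finset α → Prop} {x y : α}
    (hx : x ∈ W) (hxy : x ≠ y) {F : Finset α}
    (hF : MB (insert x (W \ {x, y})) (conG B x y) (conBad W B x y) F) (hxF : x ∉ F) :
    MB W B B F := by
  have hsub := cv_sub_sdiff hx hxy hF.1.1 hxF
  refine ⟨⟨hsub.trans Finset.sdiff_subset, (cv_old hxF).1 hF.1.2.1, ?_⟩, ?_⟩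
  · intro T hT hBT
    exact hF.1.2.2 T hT ((cv_old (fun h' => hxF (hT.1 h'))).2 hBT)
  · rintro ⟨u, v, huv, rfl⟩
    have hu := hsub (show u ∈ ({u, v} : Finset α) by simp)
    have hv := hsub (show v ∈ ({u, v} : Finset α) by simp)
    simp only [Finset.mem_sdiff, Finset.mem_insert, Finset.mem_singleton, not_or] at hu hv
    exact hF.2 ⟨u, v, ((adj_conG hxy hu.2.1 hu.2.2 (v := v)).1 hv.2.1 hv.2.2).2 huv, rfl⟩

/-- minimal bad non-edges of the child containing `x` come from the deletion child. -/
private theorem cv_mb_new {W : Finset α} {B : Finset α → Prop} {x y : α}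
    (hx : x ∈ W) (hy : y ∈ W) (hxy : x ≠ y)
    (hdel : ClV W (delG B x y) (delBad W B x y)) {F : Finset α}
    (hF : MB (insert x (W \ {x, y})) (conG B x y) (conBad W B x y) F) (hxF : x ∈ F) :
    ∃ F₀, MB W (delG B x y) (delBad W B x y) F₀ ∧ F₀ ⊆ insert y F ∧ (x ∈ F₀ ∨ y ∈ F₀) ∧
      F = insert x (F₀ \ {x, y}) := by
  have hB := (cv_mem hxF).1 hF.1.2.1
  have hsubW : F ∪ {x, y} ⊆ W := by
    intro a ha
    rw [Finset.mem_union, Finset.mem_insert, Finset.mem_singleton] at ha
    rcases ha with ha | rfl | rfl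
    · exact cv_subW hx hxy (hF.1.1 ha)
    · exact hx
    · exact hy
  obtain ⟨F₀, hF₀, hmin⟩ := exists_minBad hsubW hB
  have hF₀' : F₀ ⊆ insert y F := by
    intro a ha
    have := hF₀ ha
    rw [Finset.mem_union, Finset.mem_insert, Finset.mem_singleton] at this
    rw [Finset.mem_insert]
    rcases this with h' | rfl | rfl
    · exact Or.inr h'
    · exact Or.inr hxF
    · exact Or.inl rfl
  have hor : x ∈ F₀ ∨ y ∈ F₀ := by
    by_contra hno
    push Not at hno
    refine hF.1.2.2 F₀ ?_ ((cv_not_mem hno.1).2 hmin.2.1)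
    refine ⟨?_, fun h' => hno.1 (h' hxF)⟩
    intro a ha
    have := hF₀' ha
    rw [Finset.mem_insert] at this
    rcases this with rfl | h'
    · exact absurd ha hno.2
    · exact h'
  have heq : F = insert x (F₀ \ {x, y}) := by
    have hs : insert x (F₀ \ {x, y}) ⊆ F := by
      intro a ha
      rw [Finset.mem_insert, Finset.mem_sdiff, Finset.mem_insert, Finset.mem_singleton] at ha
      rcases ha with rfl | ⟨ha, hn⟩
      · exact hxF
      · have := hF₀' ha
        rw [Finset.mem_insert] at this
        rcases this with rfl | h'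
        · exact absurd (Or.inr rfl) hn
        · exact h'
    by_contra hne
    refine hF.1.2.2 (insert x (F₀ \ {x, y})) (Finset.ssubset_iff_subset_ne.2 ⟨hs, fun h' => hne h'.symm⟩)
      ((cv_mem (Finset.mem_insert_self _ _)).2 (hdel.up _ _ ?_ hmin.2.1))
    intro a ha
    by_cases h1 : a ∈ ({x, y} : Finset α)
    · exact Finset.mem_union_right _ h1
    · exact Finset.mem_union_left _ (Finset.mem_insert_of_mem (Finset.mem_sdiff.2 ⟨ha, h1⟩))
  refine ⟨F₀, ⟨hmin, ?_⟩, hF₀', hor, heq⟩
  -- not an edge
  have key : ∀ u v : α, Adj (delG B x y) u v → F₀ = {u, v} → (u = x ∨ u = y) → False := by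
    intro u v huv hF₀e hu
    rw [adj_delG] at huv
    have hvx : v ≠ x := by
      rintro rfl
      rcases hu with rfl | rfl
      · exact huv.1.1 rfl
      · exact huv.2 (Finset.pair_comm _ _)
    have hvy : v ≠ y := by
      rintro rfl
      rcases hu with rfl | rfl
      · exact huv.2 rfl
      · exact huv.1.1 rfl
    apply hF.2
    refine ⟨v, x, ?_, ?_⟩
    · refine ((adj_conG hxy hvx hvy (v := v)).2).2 ?_
      rcases hu with rfl | rfl
      · exact Or.inl (adj_symm huv.1)
      · exact Or.inr (adj_symm huv.1)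
    · rw [heq, hF₀e]
      ext a
      simp only [Finset.mem_insert, Finset.mem_sdiff, Finset.mem_singleton]
      constructor
      · rintro (h' | ⟨h' | h', h2⟩)
        · exact Or.inr h'
        · exact absurd (h' ▸ hu) h2
        · exact Or.inl h'
      · rintro (h' | h')
        · refine Or.inr ⟨Or.inr h', ?_⟩
          rw [h']
          rintro (h2 | h2)
          · exact hvx h2
          · exact hvy h2
        · exact Or.inl h'
  rintro ⟨u, v, huv, hF₀e⟩
  have hor' : (u = x ∨ u = y) ∨ (v = x ∨ v = y) := by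
    rw [hF₀e] at hor
    simp only [Finset.mem_insert, Finset.mem_singleton] at hor
    rcases hor with (h' | h') | (h' | h')
    · exact Or.inl (Or.inl h'.symm)
    · exact Or.inr (Or.inl h'.symm)
    · exact Or.inl (Or.inr h'.symm)
    · exact Or.inr (Or.inr h'.symm)
  rcases hor' with h' | h'
  · exact key u v huv hF₀e h'
  · exact key v u (adj_symm huv) (by rw [hF₀e, Finset.pair_comm]) h'

private theorem cv_card_comps {B : Finset α → Prop} {R : Finset α} {z : α}
    (h : ∀ D ∈ comps B R, D ≠ {z}) : (comps B R).card ≤ (comps B (R \ {z})).card := by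
  rw [card_comps_sdiff B R {z}, Finset.card_eq_sum_ones]
  refine Finset.sum_le_sum ?_
  intro D hD
  have hne := ((mem_comps_iff B R D).1 hD).1
  have hex : ∃ a ∈ D, a ≠ z := by
    by_contra hno
    push Not at hno
    apply h D hD
    obtain ⟨b, hb⟩ := hne
    ext a
    rw [Finset.mem_singleton]
    constructor
    · exact hno a
    · intro ha
      rw [ha, ← hno b hb]
      exact hb
  obtain ⟨a, ha, haz⟩ := hex
  obtain ⟨D', hD', _⟩ := exists_comp B (D \ {z}) (v := a)
    (by rw [Finset.mem_sdiff, Finset.mem_singleton]; exact ⟨ha, haz⟩)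
  exact Finset.card_pos.2 ⟨D', hD'⟩

/-- the case of an old set containing exactly one of the two ends: `z ∈ F₀`, `z' ∉ F₀`. -/
private theorem cv_one_end {W : Finset α} {B : Finset α → Prop} {y : α} {z' w : α}
    {F F₀ : Finset α} (hw : w ∈ W) (hzw : Adj B z' w)
    (hwF : w ∉ F₀) (hc : F₀.card ≤ c W B F₀) (hins : insert y F = insert z' F₀)
    (hcard : F.card = F₀.card) : F.card ≤ c W B (insert y F) := by
  have hle : c W B F₀ ≤ c W B (insert z' F₀) := by
    unfold c
    have he : W \ insert z' F₀ = (W \ F₀) \ {z'} := by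
      ext a
      simp only [Finset.mem_sdiff, Finset.mem_insert, Finset.mem_singleton, not_or]
      tauto
    rw [he]
    apply cv_card_comps
    intro D hD hDz
    have hcl := ((mem_comps_iff B _ D).1 hD).2.1
    have hmem := hcl.2 z' (by rw [hDz]; simp) w (Finset.mem_sdiff.2 ⟨hw, hwF⟩) hzw
    rw [hDz, Finset.mem_singleton] at hmem
    exact hzw.1 hmem.symm
  rw [hins, hcard]
  exact hc.trans hle

private theorem cv_v1 {W : Finset α} {B : Finset α → Prop} (h : ClV W B B) {x y : α}
    (hx : x ∈ W) (hy : y ∈ W) (hxy : Adj B x y)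
    (hdx : ∃ w ∈ W, w ≠ y ∧ Adj B x w) (hdy : ∃ w ∈ W, w ≠ x ∧ Adj B y w)
    (hdel : ClV W (delG B x y) (delBad W B x y)) :
    ∀ F, MB (insert x (W \ {x, y})) (conG B x y) (conBad W B x y) F →
      F.card ≤ c (insert x (W \ {x, y})) (conG B x y) F := by
  intro F hF
  by_cases hxF : x ∈ F
  · have hyF : y ∉ F := fun h' => ((cv_W hx hxy.1).1 (hF.1.1 h')).2 rfl
    rw [c_con_of_mem hxy hxF]
    obtain ⟨F₀, hmb, hsub, hor, heq⟩ := cv_mb_new hx hy hxy.1 hdel hF hxF
    -- an edge of the child from the contracted vertex to `w ∈ F` is impossible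
    have hnoedge : ∀ w ∈ F, w ≠ x → ¬ (Adj B w x ∨ Adj B w y) := by
      intro w hw hwx ha
      have hwy : w ≠ y := fun h' => hyF (h' ▸ hw)
      have hbad := cv_edge_x h hwx hwy hxy.1 ha (W := W)
      have hs : ({w, x} : Finset α) ⊆ F := by
        intro a ha
        rw [Finset.mem_insert, Finset.mem_singleton] at ha
        rcases ha with rfl | rfl
        · exact hw
        · exact hxF
      have he : ({w, x} : Finset α) = F := by
        by_contra hne
        exact hF.1.2.2 _ (Finset.ssubset_iff_subset_ne.2 ⟨hs, hne⟩) hbad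
      exact hF.2 ⟨w, x, ((adj_conG hxy.1 hwx hwy (v := w)).2).2 ha, he.symm⟩
    have hmemF : ∀ a, a ∈ F ↔ a = x ∨ (a ∈ F₀ ∧ a ≠ x ∧ a ≠ y) := by
      intro a
      conv_lhs => rw [heq]
      simp only [Finset.mem_insert, Finset.mem_sdiff, Finset.mem_singleton, not_or]
    rcases mb_del h hx hy hxy hmb with ⟨hnb, hold⟩ | ⟨hx0, hy0, hcc⟩
    · have hc0 := h.v1 F₀ hold
      by_cases hx0 : x ∈ F₀
      · have hy0 : y ∉ F₀ := fun h' => hnb ⟨hx0, h'⟩
        have hFF : F = F₀ := by
          ext a
          rw [hmemF]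
          constructor
          · rintro (rfl | h')
            · exact hx0
            · exact h'.1
          · intro ha
            by_cases hax : a = x
            · exact Or.inl hax
            · exact Or.inr ⟨ha, hax, fun h' => hy0 (h' ▸ ha)⟩
        obtain ⟨w, hw, hwx, hyw⟩ := hdy
        have hwF : w ∉ F₀ := by
          intro hwF
          rw [← hFF] at hwF
          exact hnoedge w hwF hwx (Or.inr (adj_symm hyw))
        exact cv_one_end hw hyw hwF hc0 (by rw [hFF]) (by rw [hFF])
      · have hy0 : y ∈ F₀ := hor.resolve_left hx0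
        obtain ⟨w, hw, hwy, hxw⟩ := hdx
        have hwF : w ∉ F₀ := by
          intro hwF
          have hwx : w ≠ x := hxw.1.symm
          exact hnoedge w ((hmemF w).2 (Or.inr ⟨hwF, hwx, hwy⟩)) hwx (Or.inl (adj_symm hxw))
        have hins : insert y F = insert x F₀ := by
          ext a
          rw [Finset.mem_insert, Finset.mem_insert, hmemF]
          constructor
          · rintro (rfl | rfl | h')
            · exact Or.inr hy0
            · exact Or.inl rfl
            · exact Or.inr h'.1
          · rintro (rfl | h')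
            · exact Or.inr (Or.inl rfl)
            · by_cases hay : a = y
              · exact Or.inl hay
              · exact Or.inr (Or.inr ⟨h', fun h2 => hx0 (h2 ▸ h'), hay⟩)
        refine cv_one_end hw hxw hwF hc0 hins ?_
        have h1 := congrArg Finset.card hins
        rw [Finset.card_insert_of_notMem hyF, Finset.card_insert_of_notMem hx0] at h1
        omega
    · have hins : insert y F = F₀ := by
        ext a
        rw [Finset.mem_insert, hmemF]
        constructor
        · rintro (rfl | rfl | h')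
          · exact hy0
          · exact hx0
          · exact h'.1
        · intro h'
          by_cases hay : a = y
          · exact Or.inl hay
          · by_cases hax : a = x
            · exact Or.inr (Or.inl hax)
            · exact Or.inr (Or.inr ⟨h', hax, hay⟩)
      rw [hins]
      refine le_trans ?_ hcc
      rw [← hins, Finset.card_insert_of_notMem hyF]
      omega
  · have hsub := cv_sub_sdiff hx hxy.1 hF.1.1 hxF
    rw [c_con_of_not_mem hx hy hxy hsub]
    exact h.v1 F (cv_mb_old hx hxy.1 hF hxF)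

/-- `v3` for a first set not containing `x`. -/
private theorem cv_nc {W : Finset α} {B : Finset α → Prop} (h : ClV W B B) {x y : α}
    (hx : x ∈ W) (hy : y ∈ W) (hxy : Adj B x y)
    (hdel : ClV W (delG B x y) (delBad W B x y)) {K K' : Finset α}
    (hK : MB (insert x (W \ {x, y})) (conG B x y) (conBad W B x y) K)
    (hK' : MB (insert x (W \ {x, y})) (conG B x y) (conBad W B x y) K')
    (hd : Disjoint K K') (hxK : x ∉ K) :
    NC (insert x (W \ {x, y})) (conG B x y) K K' := by
  have hyK : y ∉ K := fun h' => ((cv_W hx hxy.1).1 (hK.1.1 h')).2 rfl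
  by_cases hxK' : x ∈ K'
  · obtain ⟨F₀, hmb, hsub, hor, heq⟩ := cv_mb_new hx hy hxy.1 hdel hK' hxK'
    have hKdel : MB W (delG B x y) (delBad W B x y) K := by
      have hsubK := cv_sub_sdiff hx hxy.1 hK.1.1 hxK
      refine ⟨⟨hsubK.trans Finset.sdiff_subset, (cv_not_mem hxK).1 hK.1.2.1, ?_⟩, ?_⟩
      · intro T hT hBT
        exact hK.1.2.2 T hT ((cv_not_mem (fun h' => hxK (hT.1 h'))).2 hBT)
      · rintro ⟨u, v, huv, he⟩
        rw [adj_delG] at huv
        have hu := hsubK (show u ∈ K by rw [he]; simp)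
        have hv := hsubK (show v ∈ K by rw [he]; simp)
        simp only [Finset.mem_sdiff, Finset.mem_insert, Finset.mem_singleton, not_or] at hu hv
        exact hK.2 ⟨u, v, ((adj_conG hxy.1 hu.2.1 hu.2.2 (v := v)).1 hv.2.1 hv.2.2).2 huv.1, he⟩
    have hd0 : Disjoint K F₀ := by
      rw [Finset.disjoint_left]
      intro a ha ha0
      have := hsub ha0
      rw [Finset.mem_insert] at this
      rcases this with rfl | h'
      · exact hyK ha
      · exact (Finset.disjoint_left.1 hd) ha h'
    obtain ⟨D, hD, hFD⟩ := hdel.v3 K F₀ hKdel hmb hd0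
    obtain ⟨D', hD', himg⟩ := exists_comp_image (cvPhi x y) (G' := conG B x y) hD
      (cv_map hx hxy.1 hxK) (fun u _ v _ huv => cv_adj hxy.1 (adj_delG.1 huv).1)
    refine ⟨D', hD', ?_⟩
    intro a ha
    rw [heq, Finset.mem_insert, Finset.mem_sdiff, Finset.mem_insert, Finset.mem_singleton,
      not_or] at ha
    rcases ha with rfl | ⟨ha, hax, hay⟩
    · rcases hor with h' | h'
      · have := himg _ (hFD h')
        rwa [cvPhi_ne hxy.1] at this
      · have := himg _ (hFD h')
        rwa [cvPhi_y] at this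
    · have := himg _ (hFD ha)
      rwa [cvPhi_ne hay] at this
  · obtain ⟨D, hD, hFD⟩ := h.v3 K K' (cv_mb_old hx hxy.1 hK hxK) (cv_mb_old hx hxy.1 hK' hxK') hd
    obtain ⟨D', hD', himg⟩ := exists_comp_image (cvPhi x y) (G' := conG B x y) hD
      (cv_map hx hxy.1 hxK) (fun u _ v _ huv => cv_adj hxy.1 huv)
    refine ⟨D', hD', ?_⟩
    intro a ha
    have := himg _ (hFD ha)
    have hay : a ≠ y := ((cv_W hx hxy.1).1 (hK'.1.1 ha)).2
    rwa [cvPhi_ne hay] at this

/-- The contraction child is in class V.

Proof (note 237). `W' = insert x (W \ {x, y})`. `one`: `conBad {x}` is `delBad {x, y}`, i.e. `B {y}`, `B {x}` or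
`{x, y}` leaves at least 2 components: excluded by `hc`. `two`: `|W| ≥ 3`. `conn`: `c_con_of_not_mem` with `S = ∅`.
`up`, `edge`: clear.
`v2`: `x ∉ S`: `c_con_of_not_mem`, old `v2`. `x ∈ S`: `S ∪ {x, y} = insert y S` is not in `delBad`, so not
`|S| + 1 ≤ c W B (insert y S)`, so `c ≤ |S|`; `c_con_of_mem`.
`v1`: let `F` be a minimal bad non-edge of the child. If `x ∉ F`: it is a minimal bad non-edge of `(W, B)`;
`c_con_of_not_mem`. If `x ∈ F`: `delBad (F ∪ {x, y})`; let `F₀ ⊆ insert y F` be minimal bad for `delBad`. `F₀` contains `x`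
or `y` (otherwise `F₀ ⊆ F.erase x` is bad in the child), and `F = insert x (F₀ \ {x, y})` by minimality.
If `F₀ ∋ x, y`: `|F₀| ≤ c W B F₀` (`mb_del`), `|F| = |F₀| - 1`, and `insert y F = F₀`: fine by `c_con_of_mem`.
If `F₀` contains exactly one of them, say `x` (so `F₀ = F`; the case `y` is symmetric): `F₀` is a minimal bad
set of `B`. If it is an edge `{x, w}` of `B`, then `F = {x, w}` is an edge of the child, excluded. So
`c W B F₀ ≥ |F₀|`, and `c W B (insert y F₀) ≥ c W B F₀` unless `{y}` is a component of `W \ F₀`; in this last case all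
neighbours of `y` are in `F₀`, and `y` has a neighbour `w ≠ x` (`hdy`; for the symmetric case `hdx`), `w ∈ F₀`, and
`{x, w} ⊆ F` is an edge of the child, so a bad pair, `F = {x, w}` by minimality, excluded.
`v3`, `F, F'` disjoint. By `nc_symm` in the child it is enough to prove one of the two directions. Both avoid `x`:
old `v3` and `exists_comp_image` for the map `y ↦ x`. `x ∈ F`, `x ∉ F'`: take `F₀` as above; `F₀`, `F'` are disjoint
minimal bad non-edges of the DELETION child (`F₀` is not an edge of `delG B x y`), which is in class V (`hdel`):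
`NC W (delG B x y) F' F₀`; the image of the component under `y ↦ x` lies in one component of the child minus
`F'` and contains `x` and `F₀ \ {x, y}`. -/
theorem ClV.con {W : Finset α} {B : Finset α → Prop} (h : ClV W B B) {x y : α}
    (hx : x ∈ W) (hy : y ∈ W) (hxy : Adj B x y) (hc : c W B {x, y} ≤ 1) (h3 : 3 ≤ W.card)
    (hdx : ∃ w ∈ W, w ≠ y ∧ Adj B x w) (hdy : ∃ w ∈ W, w ≠ x ∧ Adj B y w)
    (hdel : ClV W (delG B x y) (delBad W B x y)) :
    ClV (insert x (W \ {x, y})) (conG B x y) (conBad W B x y) := by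
  have hone := cv_one h hxy hc
  have hup := cv_up hdel
  have hconn := cv_conn h hx hy hxy
  have hv1 := cv_v1 h hx hy hxy hdx hdy hdel
  have hv2 := cv_v2 h hx hy hxy
  have htwo : 2 ≤ (insert x (W \ {x, y})).card := by
    have he : insert x (W \ {x, y}) = W.erase y := by
      ext a
      rw [cv_W hx hxy.1, Finset.mem_erase]
      tauto
    rw [he, Finset.card_erase_of_mem hy]
    omega
  have hsing : ∀ v ∈ insert x (W \ {x, y}),
      (comps (conG B x y) (insert x (W \ {x, y}) \ {v})).card ≤ 1 := by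
    intro v hv
    have := hv2 {v} (by simpa using hv) (by simp) (hone v)
    simpa [c] using this
  have hempty : ¬ conBad W B x y ∅ := fun h' => hone x (hup _ _ (Finset.empty_subset _) h')
  have hcrit : ∀ F, MB (insert x (W \ {x, y})) (conG B x y) (conBad W B x y) F →
      Crit (insert x (W \ {x, y})) (conG B x y) F := by
    intro F hF
    refine ⟨hF.1.1, ?_, hv1 F hF, fun S hS hne => hv2 S (hS.1.trans hF.1.1) hne (hF.1.2.2 S hS)⟩
    rw [Finset.nonempty_iff_ne_empty]
    rintro rfl
    exact hempty hF.1.2.1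
  refine ⟨hup, hone, cv_edge h hx hxy.1, htwo, hconn, hv1, hv2, ?_⟩
  intro F F' hF hF' hd
  by_cases hxF : x ∈ F
  · have hxF' : x ∉ F' := fun h' => (Finset.disjoint_left.1 hd) hxF h'
    exact nc_symm hconn hsing (hcrit F' hF') (hcrit F hF) hd.symm
      (cv_nc h hx hy hxy hdel hF' hF hd.symm hxF')
  · exact cv_nc h hx hy hxy hdel hF hF' hd hxF

/-- tight sets of the contraction child contain `x`.

Proof. If `x ∉ T`, `T` is not in `B`, `c W B T = c_child(T) ≥ |T|`, so `T` is tight in `(W, B)`, so it contains `x` or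
`y` (`hT`); but `T ⊆ insert x (W \ {x, y})` and `x ∉ T`. -/
theorem tight_con {W : Finset α} {B : Finset α → Prop} (h : ClV W B B) {x y : α}
    (hx : x ∈ W) (hy : y ∈ W) (hxy : Adj B x y)
    (hT : ∀ T, Tight W B B T → x ∈ T ∨ y ∈ T) {T : Finset α}
    (hTt : Tight (insert x (W \ {x, y})) (conG B x y) (conBad W B x y) T) : x ∈ T := by
  have _ := h.two
  by_contra hxT
  have hsub := cv_sub_sdiff hx hxy.1 hTt.1 hxT
  have hyT : y ∉ T := fun h' => ((cv_W hx hxy.1).1 (hTt.1 h')).2 rfl
  have hc := hTt.2.2.2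
  rw [c_con_of_not_mem hx hy hxy hsub] at hc
  rcases hT T ⟨hsub.trans Finset.sdiff_subset, hTt.2.1, fun h' => hTt.2.2.1 ((cv_old hxT).2 h'), hc⟩
    with h' | h'
  · exact hxT h'
  · exact hyT h'

end Pool.Agent.DK
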