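import Mathlib
import Pool.Agent.Lib_MP_6f255c_dk.DDefs
import Pool.Agent.Lib_MP_6f255c_dk.StepBConV

/-!
# Step B in a ready state
-/

set_option autoImplicit false

namespace Pool.Agent.DK

open Classical

variable {α : Type*}

private theorem rb_two {B : Finset α → Prop} {R X Y : Finset α} (hXn : X.Nonempty)
    (hX : ClosedIn B R X) (hYn : Y.Nonempty) (hY : ClosedIn B R Y) (hd : Disjoint X Y) :
    2 ≤ (comps B R).card := by
  have hne : X ≠ Y := by
    rintro rfl
    obtain ⟨v, hv⟩ := hXn
    exact Finset.disjoint_left.1 hd hv hv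
  have h := card_le_comps B R {X, Y} (by
    intro Z hZ
    rw [Finset.mem_insert, Finset.mem_singleton] at hZ
    rcases hZ with rfl | rfl
    · exact ⟨hXn, hX⟩
    · exact ⟨hYn, hY⟩) (by
    intro Z hZ Z' hZ' hne'
    rw [Finset.mem_coe, Finset.mem_insert, Finset.mem_singleton] at hZ hZ'
    rcases hZ with rfl | rfl <;> rcases hZ' with rfl | rfl
    · exact absurd rfl hne'
    · exact hd
    · exact hd.symm
    · exact absurd rfl hne')
  rwa [Finset.card_pair hne] at h

private theorem rb_aux {B G : Finset α → Prop} {R X Y : Finset α} {z : α}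
    (hX : X ∈ comps G R) (hY : Y ∈ comps G R) (hne : X ≠ Y) (hz : z ∈ X) (hc : 2 ≤ X.card)
    (hG : ∀ u v, Adj B u v → u ≠ z → v ≠ z → Adj G u v) :
    2 ≤ (comps B (R \ {z})).card := by
  have hd := comps_disjoint G R hX hY hne
  obtain ⟨_, hXc, _⟩ := (mem_comps_iff G R X).1 hX
  obtain ⟨hYn, hYc, _⟩ := (mem_comps_iff G R Y).1 hY
  have hzY : z ∉ Y := Finset.disjoint_left.1 hd hz
  refine rb_two (X := X.erase z) (Y := Y) ?_ ?_ hYn ?_
    (hd.mono_left (Finset.erase_subset _ _))
  · rw [← Finset.card_pos, Finset.card_erase_of_mem hz]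
    omega
  · refine ⟨?_, ?_⟩
    · intro u hu
      rw [Finset.mem_erase] at hu
      exact Finset.mem_sdiff.2 ⟨hXc.1 hu.2, by simpa using hu.1⟩
    · intro u hu v hv huv
      rw [Finset.mem_erase] at hu ⊢
      obtain ⟨hvR, hvz⟩ := Finset.mem_sdiff.1 hv
      have hvz' : v ≠ z := by simpa using hvz
      exact ⟨hvz', hXc.2 u hu.2 v hvR (hG u v huv hu.1 hvz')⟩
  · refine ⟨?_, ?_⟩
    · intro u hu
      refine Finset.mem_sdiff.2 ⟨hYc.1 hu, ?_⟩
      rw [Finset.mem_singleton]
      rintro rfl
      exact hzY hu
    · intro u hu v hv huv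
      obtain ⟨hvR, hvz⟩ := Finset.mem_sdiff.1 hv
      have hvz' : v ≠ z := by simpa using hvz
      refine hYc.2 u hu v hvR (hG u v huv ?_ hvz')
      rintro rfl
      exact hzY hu

private theorem rb_del {B : Finset α → Prop} {R : Finset α} {x y : α} (hxy : Adj B x y)
    (h1 : (comps B R).card ≤ 1) (hR : 3 ≤ R.card) (hx : (comps B (R \ {x})).card ≤ 1)
    (hy : (comps B (R \ {y})).card ≤ 1) : (comps (delG B x y) R).card ≤ 1 := by
  rcases card_comps_delG hxy R with ⟨_, heq⟩ | ⟨⟨hxR, hyR, hsep⟩, hcard⟩
  · rw [heq]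
    exact h1
  · exfalso
    obtain ⟨X, hX, hxX⟩ := exists_comp (delG B x y) R hxR
    obtain ⟨Y, hY, hyY⟩ := exists_comp (delG B x y) R hyR
    have hne : X ≠ Y := by
      rintro rfl
      exact hsep X hX ⟨hxX, hyY⟩
    have hsub : ({X, Y} : Finset (Finset α)) ⊆ comps (delG B x y) R := by
      intro Z hZ
      rw [Finset.mem_insert, Finset.mem_singleton] at hZ
      rcases hZ with rfl | rfl
      · exact hX
      · exact hY
    have heq := Finset.eq_of_subset_of_card_le hsub (by
      rw [Finset.card_pair hne, hcard]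
      omega)
    have hRsub : R ⊆ X ∪ Y := by
      intro v hv
      obtain ⟨D, hD, hvD⟩ := exists_comp (delG B x y) R hv
      rw [← heq, Finset.mem_insert, Finset.mem_singleton] at hD
      rcases hD with rfl | rfl
      · exact Finset.mem_union_left _ hvD
      · exact Finset.mem_union_right _ hvD
    have hle := (Finset.card_le_card hRsub).trans (Finset.card_union_le X Y)
    rcases le_or_gt 2 X.card with h2 | h2
    · have := rb_aux (B := B) hX hY hne hxX h2 (fun u v huv hu hv => adj_delG.2 ⟨huv, fun he => by
        have h3 : x ∈ ({u, v} : Finset α) := by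
          rw [he]
          simp
        rw [Finset.mem_insert, Finset.mem_singleton] at h3
        rcases h3 with h3 | h3
        · exact hu h3.symm
        · exact hv h3.symm⟩)
      omega
    · have := rb_aux (B := B) hY hX hne.symm hyY (by omega) (fun u v huv hu hv =>
        adj_delG.2 ⟨huv, fun he => by
        have h3 : y ∈ ({u, v} : Finset α) := by
          rw [he]
          simp
        rw [Finset.mem_insert, Finset.mem_singleton] at h3
        rcases h3 with h3 | h3
        · exact hu h3.symm
        · exact hv h3.symm⟩)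
      omega

/-- a ready state has an edge: `|W| ≥ 2` and `W` is connected. -/
theorem Ready.exists_edge {W : Finset α} {B : Finset α → Prop} (h : Ready W B) :
    ∃ x ∈ W, ∃ y ∈ W, Adj B x y := by
  by_contra hn
  push Not at hn
  have h4 := h.four
  obtain ⟨v, hv, w, hw, hvw⟩ := Finset.one_lt_card.1 (show 1 < W.card by omega)
  have hcl : ∀ z ∈ W, ClosedIn B W {z} := by
    intro z hz
    refine ⟨Finset.singleton_subset_iff.2 hz, ?_⟩
    intro u hu u' hu' huu'
    rw [Finset.mem_singleton] at hu
    subst hu
    exact absurd huu' (hn u hz u' hu')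
  have := rb_two (Finset.singleton_nonempty v) (hcl v hv) (Finset.singleton_nonempty w) (hcl w hw)
    (Finset.disjoint_singleton.2 hvw)
  have := h.cl.conn
  omega

/-- no separating pair and `|W| ≥ 4`: deleting an edge leaves `W` 2-connected.

Proof. Let `v ∈ W`, `R := W \ {v}` (or `R := W` for the last claim). By `card_comps_delG` the number of components
of `delG` on `R` is that of `B` on `R`, at most one, except if `x, y ∈ R` are in different components `X ∋ x`, `Y ∋ y`
of `R` for `delG B x y`, and then there are at most `2` of them, so `R = X ∪ Y`. In this case one of `X`, `Y`, say `X`,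
has at least two elements (`|R| ≥ 3`). Then in `(W, B)` minus `{v, x}` (resp. minus `{x}`) the sets `X.erase x` and `Y`
are nonempty, closed and disjoint: at least two components, contradiction with `conn3` (resp. with
`v2` for the singleton `{x}`). -/
theorem Ready.two_conn_del {W : Finset α} {B : Finset α → Prop} (h : Ready W B) {x y : α}
    (hx : x ∈ W) (hy : y ∈ W) (hxy : Adj B x y) :
    (comps (delG B x y) W).card ≤ 1 ∧ ∀ v ∈ W, (comps (delG B x y) (W \ {v})).card ≤ 1 := by
  have h4 := h.four
  refine ⟨rb_del hxy h.cl.conn (by omega) (h.cl.card_comps_sdiff_singleton hx)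
    (h.cl.card_comps_sdiff_singleton hy), fun v hv => ?_⟩
  have hc : ∀ z : α, (W \ {v}) \ {z} = W \ {v, z} := by
    intro z
    ext u
    simp only [Finset.mem_sdiff, Finset.mem_singleton, Finset.mem_insert]
    tauto
  refine rb_del hxy (h.cl.card_comps_sdiff_singleton hv) ?_ ?_ ?_
  · rw [Finset.card_sdiff_of_subset (Finset.singleton_subset_iff.2 hv), Finset.card_singleton]
    omega
  · rw [hc]
    exact h.conn3 v hv x hx
  · rw [hc]
    exact h.conn3 v hv y hy

/-- every vertex of a ready state has two different neighbours (`v2` for a vertex: if `w` is the only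
neighbour of `x`, then `{x}` is a component of `W \ {w}`). -/
theorem Ready.exists_other {W : Finset α} {B : Finset α → Prop} (h : Ready W B) {x y : α}
    (hx : x ∈ W) (hy : y ∈ W) (hxy : Adj B x y) : ∃ w ∈ W, w ≠ y ∧ Adj B x w := by
  by_contra hn
  push Not at hn
  have h4 := h.four
  have hxy' : x ≠ y := hxy.1
  have h2 : 2 ≤ (comps B (W \ {y})).card := by
    refine rb_two (X := {x}) (Y := (W \ {y}).erase x) (Finset.singleton_nonempty x) ?_ ?_ ?_ ?_
    · refine ⟨?_, ?_⟩
      · rw [Finset.singleton_subset_iff, Finset.mem_sdiff, Finset.mem_singleton]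
        exact ⟨hx, hxy'⟩
      · intro u hu v hv huv
        rw [Finset.mem_singleton] at hu
        subst hu
        obtain ⟨hvW, hvy⟩ := Finset.mem_sdiff.1 hv
        exact absurd huv (hn v hvW (by simpa using hvy))
    · rw [← Finset.card_pos, Finset.card_erase_of_mem (Finset.mem_sdiff.2 ⟨hx, by simpa using hxy'⟩),
        Finset.card_sdiff_of_subset (Finset.singleton_subset_iff.2 hy), Finset.card_singleton]
      omega
    · refine ⟨Finset.erase_subset _ _, ?_⟩
      intro u hu v hv huv
      obtain ⟨hux, hu2⟩ := Finset.mem_erase.1 hu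
      obtain ⟨huW, huy⟩ := Finset.mem_sdiff.1 hu2
      refine Finset.mem_erase.2 ⟨?_, hv⟩
      rintro rfl
      exact hn u huW (by simpa using huy) (adj_symm huv)
    · rw [Finset.disjoint_singleton_left]
      exact Finset.notMem_erase _ _
  have := h.cl.card_comps_sdiff_singleton hy
  omega

/-- the deletion child, canonical form, is in class D(x, y).

Proof. `ClV.del` (hypotheses from `conn3`, `two_conn_del`, `cover`), `ClV.conv`; a tight set of the canonical child
is tight for the graph `delG B x y` with the same components (`tight_of_conv`, `comps_tight_conv`), and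
`tight_del`. -/
theorem Ready.del {W : Finset α} {B : Finset α → Prop} (h : Ready W B) {x y : α}
    (hx : x ∈ W) (hy : y ∈ W) (hxy : Adj B x y) : ClD W (delBad W B x y) x y := by
  obtain ⟨h0, h1⟩ := h.two_conn_del hx hy hxy
  have hT : ∀ T, Tight W B B T → x ∈ T ∨ y ∈ T := fun T hT => h.cover T hT x hx y hy hxy
  have hdel := h.cl.del hx hy hxy (h.conn3 x hx y hy) h0 h1 hT
  refine ⟨hdel.conv, hx, hy, fun T hTt => ?_⟩
  have h2 := tight_del h.cl hx hy hxy hT (hdel.tight_of_conv hTt)
  unfold WSep
  rw [hdel.comps_tight_conv hTt]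
  exact h2

/-- the contraction child, canonical form, is in class D(x, x). -/
theorem Ready.con {W : Finset α} {B : Finset α → Prop} (h : Ready W B) {x y : α}
    (hx : x ∈ W) (hy : y ∈ W) (hxy : Adj B x y) :
    ClD (insert x (W \ {x, y})) (conBad W B x y) x x := by
  have h4 := h.four
  obtain ⟨h0, h1⟩ := h.two_conn_del hx hy hxy
  have hT : ∀ T, Tight W B B T → x ∈ T ∨ y ∈ T := fun T hT => h.cover T hT x hx y hy hxy
  have hdel := h.cl.del hx hy hxy (h.conn3 x hx y hy) h0 h1 hT
  have hcon := h.cl.con hx hy hxy (h.conn3 x hx y hy) (by omega) (h.exists_other hx hy hxy)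
    (h.exists_other hy hx (adj_symm hxy)) hdel
  refine ⟨hcon.conv, Finset.mem_insert_self _ _, Finset.mem_insert_self _ _, fun T hTt => ?_⟩
  exact Or.inl (tight_con h.cl hx hy hxy hT (hcon.tight_of_conv hTt))

end Pool.Agent.DK
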