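import Mathlib
import Pool.Agent.Lib_MP_6f255c_dk.DDefs
import Pool.Agent.Lib_MP_6f255c_dk.VCross

/-!
# Theorem D: definitions (sides, lobes, crossing)

Canonical states: the graph is `Adj B`; `ClV W B B`.  `MB W B B F` : minimal bad non-edge (at least three
elements, independent).  Notation of the paper proof: `TT` = `Tight W B B`, `min U` = `MB W B B`.
-/

set_option autoImplicit false

namespace Pool.Agent.DK

open Classical

variable {α : Type*}

/-- `F` (minimal bad non-edge) crosses `T`; `T` will be tight, or a subset of such a set. -/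
structure Crosses (W : Finset α) (B : Finset α → Prop) (F T : Finset α) : Prop where
  mb : MB W B B F
  disj : Disjoint F T
  nTF : ¬ NC W B T F
  nFT : ¬ NC W B F T

/-- A side: the complement of a component of `W \ T`, `T` tight. -/
def IsSide (W : Finset α) (B : Finset α → Prop) (L : Finset α) : Prop :=
  ∃ T D, Tight W B B T ∧ D ∈ comps B (W \ T) ∧ L = W \ D

/-- A lobe: `T` tight, `D₀` a component of `W \ T`, `W \ D₀` an inclusion-minimal side and `T`
inclusion-minimal among the tight sets with component `D₀`. The lobe is the set `W \ D₀`, it contains `T`,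
and `lobeW W T D₀` is the rest of it. -/
structure Lobe (W : Finset α) (B : Finset α → Prop) (T D₀ : Finset α) : Prop where
  tight : Tight W B B T
  comp : D₀ ∈ comps B (W \ T)
  minSide : ∀ L, IsSide W B L → L ⊆ W \ D₀ → L = W \ D₀
  minT : ∀ T' : Finset α, T' ⊂ T → Tight W B B T' → D₀ ∉ comps B (W \ T')

/-- the second part `W` of a lobe `T + W`. -/
noncomputable def lobeW (W T D₀ : Finset α) : Finset α := (W \ D₀) \ T

theorem mem_lobeW {W T D₀ : Finset α} {w : α} :
    w ∈ lobeW W T D₀ ↔ w ∈ W ∧ w ∉ D₀ ∧ w ∉ T := by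
  unfold lobeW
  simp only [Finset.mem_sdiff]
  tauto

/-- edges inside `W` are bad pairs, so bad-free sets are independent. -/
theorem Tight.indep {W : Finset α} {B : Finset α → Prop} (h : ClV W B B) {T : Finset α}
    (hT : Tight W B B T) {u v : α} (hu : u ∈ T) (hv : v ∈ T) : ¬ Adj B u v := by
  intro hA
  refine hT.2.2.1 (h.up {u, v} T ?_ hA.2)
  intro z hz
  simp only [Finset.mem_insert, Finset.mem_singleton] at hz
  rcases hz with rfl | rfl
  · exact hu
  · exact hv

/-- minimal bad non-edges have at least three elements (canonical states). -/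
theorem MB.three_le {W : Finset α} {B : Finset α → Prop} (h : ClV W B B) {F : Finset α}
    (hF : MB W B B F) : 3 ≤ F.card := by
  have h2 := h.minBad_two_le hF.1
  by_contra hlt
  have h2' : F.card = 2 := by omega
  obtain ⟨u, v, huv, rfl⟩ := Finset.card_eq_two.1 h2'
  exact hF.2 ⟨u, v, ⟨huv, hF.1.2.1⟩, rfl⟩

/-- minimal bad non-edges are independent. -/
theorem MB.indep {W : Finset α} {B : Finset α → Prop} (h : ClV W B B) {F : Finset α}
    (hF : MB W B B F) {u v : α} (hu : u ∈ F) (hv : v ∈ F) : ¬ Adj B u v := by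
  intro hA
  have h3 := hF.three_le h
  refine hF.1.2.2 {u, v} ?_ hA.2
  refine Finset.ssubset_iff_subset_ne.2 ⟨?_, ?_⟩
  · intro z hz
    simp only [Finset.mem_insert, Finset.mem_singleton] at hz
    rcases hz with rfl | rfl
    · exact hu
    · exact hv
  · intro he
    rw [← he, Finset.card_pair hA.1] at h3
    omega

/-- a proper nonempty subset of a minimal bad non-edge with `|S| ≥ 2` and `c(S) ≥ |S|` is tight. -/
theorem MB.tight_of_ssubset {W : Finset α} {B : Finset α → Prop} {F S : Finset α}
    (hF : MB W B B F) (hS : S ⊂ F) (h2 : 2 ≤ S.card) (hc : S.card ≤ c W B S) :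
    Tight W B B S :=
  ⟨hS.1.trans hF.1.1, h2, hF.1.2.2 S hS, hc⟩

/-- a subset `S` of a tight set with `|S| ≥ 2` and `c(S) ≥ |S|` is tight. -/
theorem Tight.tight_of_subset {W : Finset α} {B : Finset α → Prop} (h : ClV W B B)
    {T S : Finset α} (hT : Tight W B B T) (hS : S ⊆ T) (h2 : 2 ≤ S.card)
    (hc : S.card ≤ c W B S) : Tight W B B S :=
  ⟨hS.trans hT.1, h2, h.not_bad_of_subset hS hT.2.2.1, hc⟩

/-- a component of the complement of a tight set gives a side. -/
theorem Tight.isSide {W : Finset α} {B : Finset α → Prop} {T D : Finset α}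
    (hT : Tight W B B T) (hD : D ∈ comps B (W \ T)) : IsSide W B (W \ D) :=
  ⟨T, D, hT, hD, rfl⟩

end Pool.Agent.DK
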