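import Mathlib
import Pool.Agent.Lib_MP_6f255c_dk.TDDefs
import Pool.Agent.Lib_MP_6f255c_dk.Crossing

/-!
# Theorem D, crossing tools (consequences of G10 `crossing`)
-/

set_option autoImplicit false

namespace Pool.Agent.DK

open Classical

variable {α : Type*}

/-- In a stuck state every tight set is crossed (`Stuck`: no `HT` set; `ClV.nc_tight_symm`). -/
theorem Stuck.exists_cross {W : Finset α} {B : Finset α → Prop} (h : ClV W B B)
    (hst : Stuck W B) {T : Finset α} (hT : Tight W B B T) : ∃ F, Crosses W B F T := by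
  have hn := hst.1 T
  have h1 : ∃ F, MB W B B F ∧ Disjoint F T ∧ ¬ NC W B T F := by
    by_contra hcon
    push Not at hcon
    exact hn ⟨hT, hcon⟩
  obtain ⟨F, hF, hd, hnc⟩ := h1
  exact ⟨F, hF, hd, hnc, fun h2 => hnc ((h.nc_tight_symm hT hF hd).2 h2)⟩

/-- (V3+) If `S ⊆ F`, `F` a minimal bad non-edge, and `F'` crosses `S`, then `F'` meets `F`.
Proof. Otherwise `v3` for `F', F` gives `NC W B F' F`, so `NC W B F' S` (`NC.mono`), against `nFT`. -/
theorem Crosses.meet {W : Finset α} {B : Finset α → Prop} (h : ClV W B B) {F F' S : Finset α}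
    (hF : MB W B B F) (hS : S ⊆ F) (hc : Crosses W B F' S) : (F' ∩ F).Nonempty := by
  by_contra hcon
  rw [← Finset.not_disjoint_iff_nonempty_inter, not_not] at hcon
  exact hc.nFT ((h.v3 F' F hc.mb hF hcon).mono hS)

/-- `F` meets two different components of the complement of `T`: it crosses `T` (`T` tight).
(`¬ NC W B T F` because components are disjoint; the other one by `ClV.nc_tight_symm`.) -/
theorem Tight.crosses {W : Finset α} {B : Finset α → Prop} (h : ClV W B B) {T F : Finset α}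
    (hT : Tight W B B T) (hF : MB W B B F) (hd : Disjoint F T) {D D' : Finset α}
    (hD : D ∈ comps B (W \ T)) (hD' : D' ∈ comps B (W \ T)) (hne : D ≠ D')
    (hm : (F ∩ D).Nonempty) (hm' : (F ∩ D').Nonempty) : Crosses W B F T := by
  have hn : ¬ NC W B T F := by
    rintro ⟨D₀, hD₀, hFD⟩
    obtain ⟨x, hx⟩ := hm
    obtain ⟨y, hy⟩ := hm'
    rw [Finset.mem_inter] at hx hy
    have e1 : D = D₀ := by
      by_contra hcon
      exact Finset.disjoint_left.1 (comps_disjoint B _ hD hD₀ hcon) hx.2 (hFD hx.1)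
    have e2 : D' = D₀ := by
      by_contra hcon
      exact Finset.disjoint_left.1 (comps_disjoint B _ hD' hD₀ hcon) hy.2 (hFD hy.1)
    exact hne (e1.trans e2.symm)
  exact ⟨hF, hd, hn, fun h2 => hn ((h.nc_tight_symm hT hF hd).2 h2)⟩

/-- NODE LEMMA. `K`, `K'` disjoint and critical, `K` not in one component of `W \ K'`; `D` a component of
`W \ K'` meeting `K`. Then the node `K ∩ D` is a proper subset of `K`, `c(K ∩ D) = |K ∩ D|`, one component `M` of
`W \ (K ∩ D)` contains all of `K' ∪ (K \ D)`, `W \ M ⊆ D`, and all other components are components of `W \ K`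
disjoint from `K'` (private components).

Proof. `K` is nonempty, contained in `W \ K'`, not in one component: it meets two different components; apply
G10 `crossing` (`hW0`: `h.conn`, `hW`: `h.card_comps_sdiff_singleton`). So `c(K ∩ D) = |K ∩ D|`, and the number
of components of `W \ (K ∩ D)` disjoint from `K ∪ K'` is `|K ∩ D| - 1`; so exactly one component `M` is not
disjoint from `K ∪ K'`, and it contains every vertex of `(K ∪ K') \ (K ∩ D)`. Let `X ≠ M` be another component of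
`W \ (K ∩ D)`. It is disjoint from `K ∪ K'`, `X ⊆ W \ K`, so `X ∈ comps B (W \ K)` (`mem_comps_of_superset`).
`X ⊆ D`: some `u ∈ X` has a neighbour `v ∈ K ∩ D` (`exists_adj_of_comp`), `u ∉ K'`, so `u ∈ D`; `X ∩ D` is closed
in `W \ (K ∩ D)` (as `X ∩ K' = ∅`), nonempty, so it is `X`. Every vertex of `W \ M` is in `K ∩ D` or in such an `X`. -/
theorem node_lemma {W : Finset α} {B : Finset α → Prop} (h : ClV W B B) {K K' D : Finset α}
    (hK : Crit W B K) (hK' : Crit W B K') (hd : Disjoint K K') (hn : ¬ NC W B K' K)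
    (hD : D ∈ comps B (W \ K')) (hm : (K ∩ D).Nonempty) :
    K ∩ D ⊂ K ∧ c W B (K ∩ D) = (K ∩ D).card ∧
    ∃ M ∈ comps B (W \ (K ∩ D)), K' ⊆ M ∧ K \ D ⊆ M ∧ W \ M ⊆ D ∧
      ∀ X ∈ comps B (W \ (K ∩ D)), X ≠ M → X ∈ comps B (W \ K) ∧ Disjoint X K' := by
  obtain ⟨hKW, ⟨v, hv⟩, hKd, hKs⟩ := hK
  obtain ⟨hK'W, _, hK'd, hK's⟩ := hK'
  have hsub : K ⊆ W \ K' := fun x hx =>
    Finset.mem_sdiff.2 ⟨hKW hx, Finset.disjoint_left.1 hd hx⟩
  have hnD : ¬ K ⊆ D := fun hs => hn ⟨D, hD, hs⟩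
  obtain ⟨w, hw, hwD⟩ := Finset.not_subset.1 hnD
  obtain ⟨D', hD', hwD'⟩ := exists_comp B (W \ K') (hsub hw)
  have hne : D ≠ D' := by
    rintro rfl
    exact hwD hwD'
  have hcr := (crossing W B K K' h.conn (fun v hv => h.card_comps_sdiff_singleton hv) hKW hK'W hd
    hKd hK'd hKs hK's D D' hD hD' hne hm
    ⟨w, Finset.mem_inter.2 ⟨hw, hwD'⟩⟩).2.2.2.2.1 D hD hm
  have hNK : K ∩ D ⊂ K := by
    rw [Finset.ssubset_iff_of_subset Finset.inter_subset_left]
    exact ⟨w, hw, fun hh => hwD (Finset.mem_inter.1 hh).2⟩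
  have hNW : K ∩ D ⊆ W := Finset.inter_subset_left.trans hKW
  obtain ⟨hcN, hfN⟩ := hcr
  refine ⟨hNK, hcN, ?_⟩
  have hcount : ((comps B (W \ (K ∩ D))).filter (fun X => ¬ Disjoint X (K ∪ K'))).card = 1 := by
    have h1 := Finset.card_filter_add_card_filter_not (s := comps B (W \ (K ∩ D)))
      (fun X => Disjoint X (K ∪ K'))
    unfold c at hcN
    omega
  obtain ⟨M, hM⟩ := Finset.card_eq_one.1 hcount
  have hMm : M ∈ comps B (W \ (K ∩ D)) ∧ ¬ Disjoint M (K ∪ K') := by
    have : M ∈ (comps B (W \ (K ∩ D))).filter (fun X => ¬ Disjoint X (K ∪ K')) := by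
      rw [hM]; exact Finset.mem_singleton_self M
    exact Finset.mem_filter.1 this
  have hMu : ∀ X ∈ comps B (W \ (K ∩ D)), ¬ Disjoint X (K ∪ K') → X = M := by
    intro X hX hXd
    have : X ∈ (comps B (W \ (K ∩ D))).filter (fun X => ¬ Disjoint X (K ∪ K')) :=
      Finset.mem_filter.2 ⟨hX, hXd⟩
    rw [hM] at this
    exact Finset.mem_singleton.1 this
  have hin : ∀ z ∈ K ∪ K', z ∉ K ∩ D → z ∈ M := by
    intro z hz hzN
    have hzW : z ∈ W := by
      rcases Finset.mem_union.1 hz with h1 | h1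
      · exact hKW h1
      · exact hK'W h1
    obtain ⟨X, hX, hzX⟩ := exists_comp B (W \ (K ∩ D)) (Finset.mem_sdiff.2 ⟨hzW, hzN⟩)
    have := hMu X hX (fun hdis => Finset.disjoint_left.1 hdis hzX hz)
    rwa [← this]
  have hother : ∀ X ∈ comps B (W \ (K ∩ D)), X ≠ M → X ∈ comps B (W \ K) ∧ Disjoint X K' := by
    intro X hX hXM
    have hXd : Disjoint X (K ∪ K') := by
      by_contra hcon
      exact hXM (hMu X hX hcon)
    rw [Finset.disjoint_union_right] at hXd
    have hXW := ((mem_comps_iff B (W \ (K ∩ D)) X).1 hX).2.1.1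
    refine ⟨mem_comps_of_superset B (W \ (K ∩ D)) (W \ K) X
      (Finset.sdiff_subset_sdiff (Finset.Subset.refl W) Finset.inter_subset_left) hX ?_, hXd.2⟩
    intro x hx
    exact Finset.mem_sdiff.2 ⟨(Finset.mem_sdiff.1 (hXW hx)).1, Finset.disjoint_left.1 hXd.1 hx⟩
  refine ⟨M, hMm.1, ?_, ?_, ?_, hother⟩
  · intro z hz
    exact hin z (Finset.mem_union_right _ hz)
      (fun hzN => Finset.disjoint_left.1 hd (Finset.mem_inter.1 hzN).1 hz)
  · intro z hz
    rw [Finset.mem_sdiff] at hz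
    exact hin z (Finset.mem_union_left _ hz.1) (fun hzN => hz.2 (Finset.mem_inter.1 hzN).2)
  · intro z hz
    rw [Finset.mem_sdiff] at hz
    by_cases hzN : z ∈ K ∩ D
    · exact (Finset.mem_inter.1 hzN).2
    · obtain ⟨X, hX, hzX⟩ := exists_comp B (W \ (K ∩ D)) (Finset.mem_sdiff.2 ⟨hz.1, hzN⟩)
      have hXM : X ≠ M := by
        rintro rfl
        exact hz.2 hzX
      exact comp_subset_of_nc h.conn hNW hm hD Finset.inter_subset_right hX
        (hother X hX hXM).2 hzX

/-- The node lemma for the nodes of a tight set `T` crossed by `F`. -/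
theorem Crosses.nodeT {W : Finset α} {B : Finset α → Prop} (h : ClV W B B) {F T D : Finset α}
    (hc : Crosses W B F T) (hT : Tight W B B T) (hD : D ∈ comps B (W \ F))
    (h2 : 2 ≤ (T ∩ D).card) :
    T ∩ D ⊂ T ∧ Tight W B B (T ∩ D) ∧
    ∃ M ∈ comps B (W \ (T ∩ D)), F ⊆ M ∧ T \ D ⊆ M ∧ W \ M ⊆ D ∧
      ∀ X ∈ comps B (W \ (T ∩ D)), X ≠ M → X ∈ comps B (W \ T) ∧ Disjoint X F := by
  have hm : (T ∩ D).Nonempty := by
    rw [← Finset.card_pos]; omega
  obtain ⟨h3, h4, h5⟩ := node_lemma h (h.crit_of_tight hT) (h.crit_of_minBad hc.mb)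
    hc.disj.symm hc.nFT hD hm
  exact ⟨h3, hT.tight_of_subset h Finset.inter_subset_left h2 h4.ge, h5⟩

/-- The node lemma for the nodes of `F` crossing the tight set `T`. -/
theorem Crosses.nodeF {W : Finset α} {B : Finset α → Prop} (h : ClV W B B) {F T D : Finset α}
    (hc : Crosses W B F T) (hT : Tight W B B T) (hD : D ∈ comps B (W \ T))
    (h2 : 2 ≤ (F ∩ D).card) :
    F ∩ D ⊂ F ∧ Tight W B B (F ∩ D) ∧
    ∃ M ∈ comps B (W \ (F ∩ D)), T ⊆ M ∧ F \ D ⊆ M ∧ W \ M ⊆ D ∧
      ∀ X ∈ comps B (W \ (F ∩ D)), X ≠ M → X ∈ comps B (W \ F) ∧ Disjoint X T := by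
  have hm : (F ∩ D).Nonempty := by
    rw [← Finset.card_pos]; omega
  obtain ⟨h3, h4, h5⟩ := node_lemma h (h.crit_of_minBad hc.mb) (h.crit_of_tight hT)
    hc.disj hc.nTF hD hm
  exact ⟨h3, hc.mb.tight_of_ssubset h3 h2 h4.ge, h5⟩

/-- If all nodes of `T` are single then `F` meets every component of `W \ T`.

Proof. G10 `crossing` with `K := T`, `K' := F`: the number of components of `W \ F` meeting `T` equals the number of
components of `W \ T` meeting `F`. `T ⊆ W \ F` is the disjoint union of its traces, all of size `≤ 1`, so the first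
number is `|T| = c(T)` (`ClV.c_tight`), the number of all components of `W \ T`. So all of them meet `F`
(`Finset.filter_card_eq` / `Finset.eq_of_subset_of_card_le`). -/
theorem Crosses.all_meet {W : Finset α} {B : Finset α → Prop} (h : ClV W B B) {F T : Finset α}
    (hc : Crosses W B F T) (hT : Tight W B B T)
    (hs : ∀ D ∈ comps B (W \ F), (T ∩ D).card ≤ 1) :
    ∀ X ∈ comps B (W \ T), (F ∩ X).Nonempty := by
  have hTc := h.crit_of_tight hT
  have hFc := h.crit_of_minBad hc.mb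
  obtain ⟨t, ht⟩ := hTc.2.1
  have hsub : T ⊆ W \ F := fun x hx =>
    Finset.mem_sdiff.2 ⟨hTc.1 hx, fun hxF => Finset.disjoint_left.1 hc.disj hxF hx⟩
  obtain ⟨D₁, hD₁, htD₁⟩ := exists_comp B (W \ F) (hsub ht)
  have hnD : ¬ T ⊆ D₁ := fun hs => hc.nFT ⟨D₁, hD₁, hs⟩
  obtain ⟨w, hw, hwD⟩ := Finset.not_subset.1 hnD
  obtain ⟨D₂, hD₂, hwD₂⟩ := exists_comp B (W \ F) (hsub hw)
  have hne : D₁ ≠ D₂ := by
    rintro rfl
    exact hwD hwD₂
  have hcr := crossing W B T F h.conn (fun v hv => h.card_comps_sdiff_singleton hv) hTc.1 hFc.1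
    hc.disj.symm hTc.2.2.1 hFc.2.2.1 hTc.2.2.2 hFc.2.2.2 D₁ D₂ hD₁ hD₂ hne
    ⟨t, Finset.mem_inter.2 ⟨ht, htD₁⟩⟩ ⟨w, Finset.mem_inter.2 ⟨hw, hwD₂⟩⟩
  have hle : T.card ≤ ((comps B (W \ F)).filter (fun D => (T ∩ D).Nonempty)).card := by
    have h1 : T ⊆ ((comps B (W \ F)).filter (fun D => (T ∩ D).Nonempty)).biUnion
        (fun D => T ∩ D) := by
      intro x hx
      obtain ⟨D, hD, hxD⟩ := exists_comp B (W \ F) (hsub hx)
      exact Finset.mem_biUnion.2 ⟨D, Finset.mem_filter.2 ⟨hD, ⟨x, Finset.mem_inter.2 ⟨hx, hxD⟩⟩⟩,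
        Finset.mem_inter.2 ⟨hx, hxD⟩⟩
    refine (Finset.card_le_card h1).trans (Finset.card_biUnion_le.trans ?_)
    refine (Finset.sum_le_sum (g := fun _ => 1) (fun D hD => hs D (Finset.mem_filter.1 hD).1)).trans ?_
    simp
  have hall : (comps B (W \ T)).filter (fun D => (F ∩ D).Nonempty) = comps B (W \ T) := by
    refine Finset.eq_of_subset_of_card_le (Finset.filter_subset _ _) ?_
    have h2 := hcr.1
    have h3 := hcr.2.2.1
    unfold c at h2
    omega
  intro X hX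
  rw [← hall] at hX
  exact (Finset.mem_filter.1 hX).2

end Pool.Agent.DK
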