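import Mathlib
import Pool.Agent.Lib_MP_6f255c_dk.TDDefs
import Pool.Agent.Lib_MP_6f255c_dk.StepCBlock

/-!
# Theorem D, sides and separating pairs
-/

set_option autoImplicit false

namespace Pool.Agent.DK

open Classical

variable {α : Type*}

/-- A connected set `D` (here: a component of some `R`) contained in `R'` is contained in a component of
`R'`. (Take `v ∈ D`, the component `M` of `v` in `R'` (`exists_comp`); `D ∩ M` is closed in `R`: if `u ∈ D ∩ M`, `x ∈ R`,
adjacent, then `x ∈ D ⊆ R'`, so `x ∈ M`.) -/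
theorem exists_comp_sup {B : Finset α → Prop} {R R' D : Finset α} (hD : D ∈ comps B R)
    (hR : D ⊆ R') : ∃ M ∈ comps B R', D ⊆ M := by
  obtain ⟨hne, hcl, hmin⟩ := (mem_comps_iff B R D).1 hD
  obtain ⟨v, hv⟩ := hne
  obtain ⟨M, hM, hvM⟩ := exists_comp B R' (hR hv)
  refine ⟨M, hM, ?_⟩
  obtain ⟨_, hMcl, _⟩ := (mem_comps_iff B R' M).1 hM
  have h1 := hmin (D ∩ M) Finset.inter_subset_left ⟨v, Finset.mem_inter.2 ⟨hv, hvM⟩⟩
    ⟨Finset.inter_subset_left.trans hcl.1, by
      intro u hu x hx hux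
      rw [Finset.mem_inter] at hu ⊢
      have hxD := hcl.2 u hu.1 x hx hux
      exact ⟨hxD, hMcl.2 u hu.2 x (hR hxD) hux⟩⟩
  rw [← h1]
  exact Finset.inter_subset_right

/-- Every side contains an inclusion-minimal side (strong induction). -/
theorem IsSide.exists_minimal {W : Finset α} {B : Finset α → Prop} {L : Finset α}
    (hL : IsSide W B L) :
    ∃ L', L' ⊆ L ∧ IsSide W B L' ∧ ∀ L'', IsSide W B L'' → L'' ⊆ L' → L'' = L' := by
  induction L using Finset.strongInduction with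
  | H L ih =>
    by_cases h : ∃ L₁, IsSide W B L₁ ∧ L₁ ⊂ L
    · obtain ⟨L₁, h1, h2⟩ := h
      obtain ⟨L', h3, h4, h5⟩ := ih L₁ h2 h1
      exact ⟨L', h3.trans h2.1, h4, h5⟩
    · push Not at h
      refine ⟨L, Finset.Subset.refl _, hL, ?_⟩
      intro L'' h1 h2
      by_contra hne
      exact h L'' h1 (Finset.ssubset_iff_subset_ne.2 ⟨h2, hne⟩)

/-- Sides have at least three vertices: `T ⊆ L`, `|T| ≥ 2`, and `L` contains a component of `W \ T` other than
`D` (there are `c(T) ≥ 2` components). -/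
theorem IsSide.three_le {W : Finset α} {B : Finset α → Prop} {L : Finset α}
    (hL : IsSide W B L) : 3 ≤ L.card := by
  obtain ⟨T, D, hT, hD, rfl⟩ := hL
  have hDsub : D ⊆ W \ T := ((mem_comps_iff B _ D).1 hD).2.1.1
  have hTL : T ⊆ W \ D := by
    intro t ht
    rw [Finset.mem_sdiff]
    refine ⟨hT.1 ht, fun htD => ?_⟩
    exact (Finset.mem_sdiff.1 (hDsub htD)).2 ht
  have h2 : 2 ≤ (comps B (W \ T)).card := hT.2.1.trans hT.2.2.2
  obtain ⟨D', hD', hne⟩ : ∃ D' ∈ comps B (W \ T), D' ≠ D := by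
    by_contra hcon
    push Not at hcon
    have : (comps B (W \ T)).card ≤ 1 := Finset.card_le_one.2 (fun a ha b hb =>
      (hcon a ha).trans (hcon b hb).symm)
    omega
  obtain ⟨⟨z, hz⟩, hD'cl, _⟩ := (mem_comps_iff B _ D').1 hD'
  have hz' := Finset.mem_sdiff.1 (hD'cl.1 hz)
  have hzD : z ∉ D := fun h => Finset.disjoint_left.1 (comps_disjoint B _ hD' hD hne) hz h
  have hins : insert z T ⊆ W \ D := by
    intro y hy
    rw [Finset.mem_insert] at hy
    rcases hy with rfl | hy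
    · exact Finset.mem_sdiff.2 ⟨hz'.1, hzD⟩
    · exact hTL hy
  have hc := Finset.card_le_card hins
  rw [Finset.card_insert_of_notMem hz'.2] at hc
  have := hT.2.1
  omega

private theorem exists_lobe_aux {W : Finset α} {B : Finset α → Prop} {T D₀ : Finset α}
    (hmin : ∀ L, IsSide W B L → L ⊆ W \ D₀ → L = W \ D₀)
    (hT : Tight W B B T) (hD : D₀ ∈ comps B (W \ T)) :
    ∃ T', T' ⊆ T ∧ Lobe W B T' D₀ := by
  induction T using Finset.strongInduction with
  | H T ih =>
    by_cases h : ∃ T₁, T₁ ⊂ T ∧ Tight W B B T₁ ∧ D₀ ∈ comps B (W \ T₁)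
    · obtain ⟨T₁, h1, h2, h3⟩ := h
      obtain ⟨T', h4, h5⟩ := ih T₁ h1 h2 h3
      exact ⟨T', h4.trans h1.1, h5⟩
    · push Not at h
      exact ⟨T, Finset.Subset.refl _, ⟨hT, hD, hmin, h⟩⟩

/-- Every side contains a lobe.  Proof: take a minimal side `L' = W \ D₀` inside `L`, and then a tight
set `T` of minimal cardinality among the tight sets having `D₀` as a component of the complement. -/
theorem IsSide.exists_lobe {W : Finset α} {B : Finset α → Prop} {L : Finset α}
    (hL : IsSide W B L) : ∃ T D₀, Lobe W B T D₀ ∧ W \ D₀ ⊆ L := by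
  obtain ⟨L', h1, h2, h3⟩ := hL.exists_minimal
  obtain ⟨T, D, hT, hD, rfl⟩ := h2
  obtain ⟨T', _, h5⟩ := exists_lobe_aux h3 hT hD
  exact ⟨T', D, h5, h1⟩

/-- A tight set `S` having the component `D₀` of a lobe as a component contains a set `T'` which forms a
lobe with `D₀` (same argument: minimal cardinality among the tight subsets of `S` with component `D₀`). -/
theorem Lobe.exists_lobe_sub {W : Finset α} {B : Finset α → Prop} {T D₀ S : Finset α}
    (hL : Lobe W B T D₀) (hS : Tight W B B S) (hD : D₀ ∈ comps B (W \ S)) :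
    ∃ T', T' ⊆ S ∧ Lobe W B T' D₀ :=
  exists_lobe_aux hL.minSide hS hD

/-- In class D(u, v) every side contains `u` or `v` (from `ClD.sep`; `T ⊆ L`). -/
theorem ClD.mem_side {W : Finset α} {B : Finset α → Prop} {u v : α} (hD : ClD W B u v)
    {L : Finset α} (hL : IsSide W B L) : u ∈ L ∨ v ∈ L := by
  obtain ⟨T, D, hT, hDc, rfl⟩ := hL
  have hDsub : D ⊆ W \ T := ((mem_comps_iff B _ D).1 hDc).2.1.1
  have hTL : ∀ t ∈ T, t ∈ W \ D := by
    intro t ht
    rw [Finset.mem_sdiff]
    exact ⟨hT.1 ht, fun htD => (Finset.mem_sdiff.1 (hDsub htD)).2 ht⟩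
  rcases hD.sep T hT with h | h | h
  · exact Or.inl (hTL u h)
  · exact Or.inr (hTL v h)
  · by_contra hcon
    rw [not_or, Finset.mem_sdiff, Finset.mem_sdiff] at hcon
    have hu : u ∈ D := by
      by_contra hu
      exact hcon.1 ⟨hD.hx, hu⟩
    have hv : v ∈ D := by
      by_contra hv
      exact hcon.2 ⟨hD.hy, hv⟩
    exact h D hDc ⟨hu, hv⟩

/-! ### separating pairs -/

private theorem closed_sdiff_aux {W : Finset α} {B : Finset α → Prop} (h : ClV W B B) {a : α}
    (ha : a ∈ W) {X : Finset α} (hX : ClosedIn B (W \ {a}) X) (hne : X.Nonempty) :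
    X = W \ {a} := by
  by_contra hneq
  have h1 := h.card_comps_sdiff_singleton ha
  have hcl' : ClosedIn B (W \ {a}) ((W \ {a}) \ X) := ⟨Finset.sdiff_subset, by
    intro u hu v hv huv
    rw [Finset.mem_sdiff] at hu ⊢
    refine ⟨hv, fun hvX => hu.2 ?_⟩
    exact hX.2 v hvX u hu.1 (adj_symm huv)⟩
  have hne' : ((W \ {a}) \ X).Nonempty := by
    rw [Finset.nonempty_iff_ne_empty]
    intro he
    rw [Finset.sdiff_eq_empty_iff_subset] at he
    exact hneq (Finset.Subset.antisymm hX.1 he)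
  have hd : Disjoint X ((W \ {a}) \ X) := Finset.disjoint_sdiff
  have hXne : X ≠ (W \ {a}) \ X := by
    intro he
    obtain ⟨z, hz⟩ := hne
    exact Finset.disjoint_left.1 hd hz (he ▸ hz)
  have h2 := card_le_comps B (W \ {a}) ({X, (W \ {a}) \ X} : Finset (Finset α)) (by
    intro Y hY
    rw [Finset.mem_insert, Finset.mem_singleton] at hY
    rcases hY with rfl | rfl
    · exact ⟨hne, hX⟩
    · exact ⟨hne', hcl'⟩) (by
    intro Y hY Z hZ hYZ
    simp only [Finset.coe_insert, Finset.coe_singleton, Set.mem_insert_iff,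
      Set.mem_singleton_iff] at hY hZ
    rcases hY with rfl | rfl <;> rcases hZ with rfl | rfl
    · exact absurd rfl hYZ
    · exact hd
    · exact hd.symm
    · exact absurd rfl hYZ)
  rw [Finset.card_pair hXne] at h2
  omega

private theorem comp_pair_adj_aux {W : Finset α} {B : Finset α → Prop} (h : ClV W B B) {a b : α}
    (ha : a ∈ W) (hb : b ∈ W) (hab : a ≠ b) {X : Finset α} (hX : X ∈ comps B (W \ {a, b})) :
    ∃ z ∈ X, Adj B z a := by
  obtain ⟨hne, hcl, _⟩ := (mem_comps_iff B _ X).1 hX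
  by_contra hcon
  push Not at hcon
  have hXb : ClosedIn B (W \ {b}) X := by
    refine ⟨fun u hu => ?_, ?_⟩
    · have := Finset.mem_sdiff.1 (hcl.1 hu)
      rw [Finset.mem_sdiff, Finset.mem_singleton]
      refine ⟨this.1, fun he => this.2 ?_⟩
      rw [he]; simp
    · intro u hu v hv huv
      by_cases hva : v = a
      · subst hva
        exact absurd huv (hcon u hu)
      · refine hcl.2 u hu v ?_ huv
        rw [Finset.mem_sdiff, Finset.mem_singleton] at hv
        rw [Finset.mem_sdiff, Finset.mem_insert, Finset.mem_singleton]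
        exact ⟨hv.1, fun h' => h'.elim hva hv.2⟩
  have heq := closed_sdiff_aux h hb hXb hne
  have haX : a ∈ X := by
    rw [heq, Finset.mem_sdiff, Finset.mem_singleton]
    exact ⟨ha, hab⟩
  have := Finset.mem_sdiff.1 (hcl.1 haX)
  exact this.2 (by simp)

/-- Every component of `W \ {a, b}` touches `a` and `b` (`a ≠ b`): otherwise it would be closed in `W \ {b}`,
resp. `W \ {a}`, which is connected and contains `a`, resp. `b`.  (`h.card_comps_sdiff_singleton` and
`card_le_comps` for the two closed sets `X` and its complement.) -/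
theorem ClV.comp_pair_adj {W : Finset α} {B : Finset α → Prop} (h : ClV W B B) {a b : α}
    (ha : a ∈ W) (hb : b ∈ W) (hab : a ≠ b) {X : Finset α} (hX : X ∈ comps B (W \ {a, b})) :
    (∃ z ∈ X, Adj B z a) ∧ (∃ z ∈ X, Adj B z b) := by
  refine ⟨comp_pair_adj_aux h ha hb hab hX, comp_pair_adj_aux h hb ha hab.symm ?_⟩
  rwa [Finset.pair_comm]

/-- A set closed in `W \ {a}` is empty or everything. -/
theorem ClV.closed_sdiff_singleton {W : Finset α} {B : Finset α → Prop} (h : ClV W B B) {a : α}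
    (ha : a ∈ W) {X : Finset α} (hX : ClosedIn B (W \ {a}) X) (hne : X.Nonempty) :
    X = W \ {a} :=
  closed_sdiff_aux h ha hX hne

/-- For `S ⊆ X + a`, `X` a component of `W \ {a, b}`, everything outside `X + a` lies in one component of
`W \ S` (namely that of `b`: the components of `W \ {a, b}` other than `X` touch `b`). -/
theorem ClV.rest_connected {W : Finset α} {B : Finset α → Prop} (h : ClV W B B) {a b : α}
    (ha : a ∈ W) (hb : b ∈ W) (hab : a ≠ b) {X : Finset α} (hX : X ∈ comps B (W \ {a, b}))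
    {S : Finset α} (hS : S ⊆ insert a X) :
    ∃ M ∈ comps B (W \ S), W \ insert a X ⊆ M := by
  have hclX := ((mem_comps_iff B _ X).1 hX).2.1
  have hbX : b ∉ insert a X := by
    rw [Finset.mem_insert, not_or]
    refine ⟨fun hh => hab hh.symm, fun hh => ?_⟩
    exact (Finset.mem_sdiff.1 (hclX.1 hh)).2 (by simp)
  have hout : ∀ x ∈ W, x ∉ insert a X → x ∈ W \ S := by
    intro x hx hxn
    exact Finset.mem_sdiff.2 ⟨hx, fun hh => hxn (hS hh)⟩
  obtain ⟨M, hM, hbM⟩ := exists_comp B (W \ S) (hout b hb hbX)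
  have hclM := ((mem_comps_iff B _ M).1 hM).2.1
  refine ⟨M, hM, ?_⟩
  intro x hx
  obtain ⟨hxW, hxn⟩ := Finset.mem_sdiff.1 hx
  by_cases hxb : x = b
  · rw [hxb]; exact hbM
  have hxa : x ≠ a := fun hh => hxn (by rw [hh]; exact Finset.mem_insert_self _ _)
  have hxX : x ∉ X := fun hh => hxn (Finset.mem_insert_of_mem hh)
  have hxR : x ∈ W \ {a, b} := by
    simp only [Finset.mem_sdiff, Finset.mem_insert, Finset.mem_singleton, not_or]
    exact ⟨hxW, hxa, hxb⟩
  obtain ⟨K, hK, hxK⟩ := exists_comp B _ hxR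
  obtain ⟨_, hclK, hminK⟩ := (mem_comps_iff B _ K).1 hK
  have hKX : K ≠ X := fun hh => hxX (hh ▸ hxK)
  have hdKX := comps_disjoint B _ hK hX hKX
  obtain ⟨_, z, hzK, hzb⟩ := h.comp_pair_adj ha hb hab hK
  have hKout : ∀ y ∈ K, y ∈ W \ S := by
    intro y hy
    have hy1 := Finset.mem_sdiff.1 (hclK.1 hy)
    refine hout y hy1.1 ?_
    rw [Finset.mem_insert, not_or]
    refine ⟨fun hh => hy1.2 (by rw [hh]; simp), fun hh => ?_⟩
    exact (Finset.disjoint_left.1 hdKX) hy hh
  have hzM : z ∈ M := hclM.2 b hbM z (hKout z hzK) (adj_symm hzb)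
  have hKM : K ∩ M = K := by
    refine hminK _ Finset.inter_subset_left ⟨z, Finset.mem_inter.2 ⟨hzK, hzM⟩⟩
      ⟨Finset.inter_subset_left.trans hclK.1, ?_⟩
    intro u hu v hv huv
    obtain ⟨hu1, hu2⟩ := Finset.mem_inter.1 hu
    have hvK := hclK.2 u hu1 v hv huv
    exact Finset.mem_inter.2 ⟨hvK, hclM.2 u hu2 v (hKout v hvK) huv⟩
  rw [← hKM] at hxK
  exact (Finset.mem_inter.1 hxK).2

/-- so a tight set inside `X + a` has a side inside `X + a`. -/
theorem ClV.side_in {W : Finset α} {B : Finset α → Prop} (h : ClV W B B) {a b : α}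
    (ha : a ∈ W) (hb : b ∈ W) (hab : a ≠ b) {X : Finset α} (hX : X ∈ comps B (W \ {a, b}))
    {S : Finset α} (hS : S ⊆ insert a X) (hT : Tight W B B S) :
    ∃ M ∈ comps B (W \ S), W \ insert a X ⊆ M ∧ IsSide W B (W \ M) ∧ W \ M ⊆ insert a X := by
  obtain ⟨M, hM, hsub⟩ := h.rest_connected ha hb hab hX hS
  refine ⟨M, hM, hsub, hT.isSide hM, ?_⟩
  intro x hx
  obtain ⟨hxW, hxM⟩ := Finset.mem_sdiff.1 hx
  by_contra hxn
  exact hxM (hsub (Finset.mem_sdiff.2 ⟨hxW, hxn⟩))

/-- A nonadjacent separating pair is tight and leaves exactly two components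
(`v2` for `{a, b}`, which is not bad as it is not an edge). -/
theorem ClV.tight_pair {W : Finset α} {B : Finset α → Prop} (h : ClV W B B) {a b : α}
    (ha : a ∈ W) (hb : b ∈ W) (hab : a ≠ b) (hn : ¬ Adj B a b) {X Y : Finset α}
    (hX : X ∈ comps B (W \ {a, b})) (hY : Y ∈ comps B (W \ {a, b})) (hXY : X ≠ Y) :
    Tight W B B {a, b} ∧ comps B (W \ {a, b}) = {X, Y} ∧
      W \ Y = insert a (insert b X) ∧ IsSide W B (insert a (insert b X)) := by
  have hsubW : ({a, b} : Finset α) ⊆ W := by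
    intro x hx
    simp only [Finset.mem_insert, Finset.mem_singleton] at hx
    rcases hx with rfl | rfl
    · exact ha
    · exact hb
  have hcard : ({a, b} : Finset α).card = 2 := Finset.card_pair hab
  have hnB : ¬ B {a, b} := fun hB => hn ⟨hab, hB⟩
  have hle := h.v2 {a, b} hsubW ⟨a, by simp⟩ hnB
  have hXYsub : ({X, Y} : Finset (Finset α)) ⊆ comps B (W \ {a, b}) := by
    intro D hD
    simp only [Finset.mem_insert, Finset.mem_singleton] at hD
    rcases hD with rfl | rfl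
    · exact hX
    · exact hY
  have hXYcard : ({X, Y} : Finset (Finset α)).card = 2 := Finset.card_pair hXY
  have hge : 2 ≤ c W B {a, b} := by
    unfold c
    rw [← hXYcard]
    exact Finset.card_le_card hXYsub
  have hT : Tight W B B {a, b} := ⟨hsubW, hcard.ge, hnB, by rw [hcard]; exact hge⟩
  have hcomps : comps B (W \ {a, b}) = {X, Y} := by
    symm
    apply Finset.eq_of_subset_of_card_le hXYsub
    rw [hXYcard]
    unfold c at hle
    omega
  have hXcl := ((mem_comps_iff B _ X).1 hX).2.1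
  have hYcl := ((mem_comps_iff B _ Y).1 hY).2.1
  have hdis := comps_disjoint B _ hX hY hXY
  have hW : W \ Y = insert a (insert b X) := by
    ext x
    simp only [Finset.mem_sdiff, Finset.mem_insert]
    constructor
    · rintro ⟨hxW, hxY⟩
      by_cases hxa : x = a
      · exact Or.inl hxa
      by_cases hxb : x = b
      · exact Or.inr (Or.inl hxb)
      have hxR : x ∈ W \ {a, b} := by
        simp only [Finset.mem_sdiff, Finset.mem_insert, Finset.mem_singleton, not_or]
        exact ⟨hxW, hxa, hxb⟩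
      obtain ⟨K, hK, hxK⟩ := exists_comp B _ hxR
      rw [hcomps] at hK
      simp only [Finset.mem_insert, Finset.mem_singleton] at hK
      rcases hK with rfl | rfl
      · exact Or.inr (Or.inr hxK)
      · exact absurd hxK hxY
    · rintro (rfl | rfl | hx)
      · exact ⟨ha, fun hh => (Finset.mem_sdiff.1 (hYcl.1 hh)).2 (by simp)⟩
      · exact ⟨hb, fun hh => (Finset.mem_sdiff.1 (hYcl.1 hh)).2 (by simp)⟩
      · exact ⟨(Finset.mem_sdiff.1 (hXcl.1 hx)).1, fun hh =>
          (Finset.disjoint_left.1 hdis) hx hh⟩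
  refine ⟨hT, hcomps, hW, ?_⟩
  rw [← hW]
  exact hT.isSide hY

/-- If a minimal bad non-edge `F` meets a component `X` of `W \ {a, b}`, `a b` an edge, and is not contained in
`X + a + b`, then it contains exactly one of `a, b`, say `a`, and `a + (F ∩ X)` is tight.
(`F` has a vertex in another component `K₂`; `ClV.blocked`.) -/
theorem ClV.blocked' {W : Finset α} {B : Finset α → Prop} (h : ClV W B B) {a b : α}
    (ha : a ∈ W) (hb : b ∈ W) (hab : Adj B a b) {F X : Finset α} (hF : MB W B B F)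
    (hX : X ∈ comps B (W \ {a, b})) (hm : (F ∩ X).Nonempty)
    (hn : ¬ F ⊆ insert a (insert b X)) :
    (a ∈ F ∧ b ∉ F ∧ Tight W B B (insert a (F ∩ X))) ∨
    (b ∈ F ∧ a ∉ F ∧ Tight W B B (insert b (F ∩ X))) := by
  obtain ⟨x, hxF, hx⟩ := Finset.not_subset.1 hn
  simp only [Finset.mem_insert, not_or] at hx
  have hxR : x ∈ W \ {a, b} := by
    simp only [Finset.mem_sdiff, Finset.mem_insert, Finset.mem_singleton, not_or]
    exact ⟨hF.1.1 hxF, hx.1, hx.2.1⟩
  obtain ⟨K, hK, hxK⟩ := exists_comp B _ hxR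
  have hne : X ≠ K := fun hh => hx.2.2 (hh ▸ hxK)
  rcases h.blocked ha hb hab hF hX hK hne hm ⟨x, Finset.mem_inter.2 ⟨hxF, hxK⟩⟩ with
    ⟨h1, h2, _, h3⟩ | ⟨h1, h2, _, h3⟩
  · exact Or.inl ⟨h1, h2, h3 X hX hm⟩
  · exact Or.inr ⟨h1, h2, h3 X hX hm⟩

/-- In a stuck state every adjacent separating pair is blocked at every component `X`.
(`Split W B a b X`; `NoSpread` fails; `F ⊆ W`.) -/
theorem Stuck.blocked {W : Finset α} {B : Finset α → Prop} (h : ClV W B B) (hst : Stuck W B)
    {a b : α} (ha : a ∈ W) (hb : b ∈ W) (hab : Adj B a b) {X Y : Finset α}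
    (hX : X ∈ comps B (W \ {a, b})) (hY : Y ∈ comps B (W \ {a, b})) (hXY : X ≠ Y) :
    ∃ F, MB W B B F ∧ (F ∩ X).Nonempty ∧ ¬ F ⊆ insert a (insert b X) ∧
      ((a ∈ F ∧ b ∉ F ∧ Tight W B B (insert a (F ∩ X))) ∨
       (b ∈ F ∧ a ∉ F ∧ Tight W B B (insert b (F ∩ X)))) := by
  obtain ⟨hXne, hXcl, _⟩ := (mem_comps_iff B _ X).1 hX
  obtain ⟨⟨y, hy⟩, hYcl, _⟩ := (mem_comps_iff B _ Y).1 hY
  have hdis := comps_disjoint B _ hX hY hXY
  have hs : Split W B a b X := ⟨ha, hb, hab, hXcl, hXne,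
    ⟨y, Finset.mem_sdiff.2 ⟨hYcl.1 hy, fun hh => (Finset.disjoint_left.1 hdis) hh hy⟩⟩⟩
  have hns := hst.2 a b X hs
  unfold NoSpread at hns
  push Not at hns
  obtain ⟨F, hF, h1, h2⟩ := hns
  obtain ⟨z, hzF, hz⟩ := Finset.not_subset.1 h2
  simp only [Finset.mem_insert, Finset.mem_sdiff, Finset.mem_singleton, not_or, not_and,
    not_not] at hz
  have hzX : z ∈ X := hz.2.2 ⟨hF.1.1 hzF, hz.1, hz.2.1⟩
  have hm : (F ∩ X).Nonempty := ⟨z, Finset.mem_inter.2 ⟨hzF, hzX⟩⟩
  exact ⟨F, hF, hm, h1, h.blocked' ha hb hab hF hX hm h1⟩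

/-- In a stuck state, if `X` and `Y` are different components of `W \ {a, b}` then there is a side inside
`X + a + b`. (Nonadjacent: `tight_pair`. Adjacent: `Stuck.blocked` and `side_in`.) -/
theorem Stuck.side_in_pair {W : Finset α} {B : Finset α → Prop} (h : ClV W B B)
    (hst : Stuck W B) {a b : α} (ha : a ∈ W) (hb : b ∈ W) (hab : a ≠ b) {X Y : Finset α}
    (hX : X ∈ comps B (W \ {a, b})) (hY : Y ∈ comps B (W \ {a, b})) (hXY : X ≠ Y) :
    ∃ L, IsSide W B L ∧ L ⊆ insert a (insert b X) := by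
  by_cases hadj : Adj B a b
  · obtain ⟨F, hF, hm, hn, hc⟩ := Stuck.blocked h hst ha hb hadj hX hY hXY
    rcases hc with ⟨_, _, hT⟩ | ⟨_, _, hT⟩
    · obtain ⟨M, _, _, hside, hsub⟩ := h.side_in ha hb hab hX
        (S := insert a (F ∩ X)) (Finset.insert_subset_insert _ Finset.inter_subset_right) hT
      exact ⟨_, hside, hsub.trans (Finset.insert_subset_insert _ (Finset.subset_insert _ _))⟩
    · have hX' : X ∈ comps B (W \ {b, a}) := by rw [Finset.pair_comm]; exact hX
      obtain ⟨M, _, _, hside, hsub⟩ := h.side_in hb ha hab.symm hX'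
        (S := insert b (F ∩ X)) (Finset.insert_subset_insert _ Finset.inter_subset_right) hT
      exact ⟨_, hside, hsub.trans (Finset.subset_insert _ _)⟩
  · obtain ⟨_, _, _, hside⟩ := h.tight_pair ha hb hab hadj hX hY hXY
    exact ⟨_, hside, Finset.Subset.refl _⟩

/-- EDGE COMPONENTS. `Z` a component of `R ⊆ W` whose neighbours in `W` lie in `Z ∪ {a, b}`; `y ∈ W` a vertex
outside `Z ∪ {a, b}`. Then `Z` and the component of `y` are different components of `W \ {a, b}`. -/
theorem comp_of_nbhd {W : Finset α} {B : Finset α → Prop} {R Z : Finset α} {a b y : α}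
    (hZ : Z ∈ comps B R) (hR : R ⊆ W) (haR : a ∉ Z) (hbR : b ∉ Z)
    (hN : ∀ z ∈ Z, ∀ x ∈ W, Adj B z x → x ∈ Z ∨ x = a ∨ x = b)
    (hy : y ∈ W) (hya : y ≠ a) (hyb : y ≠ b) (hyZ : y ∉ Z) :
    Z ∈ comps B (W \ {a, b}) ∧ ∃ Y ∈ comps B (W \ {a, b}), Z ≠ Y ∧ y ∈ Y := by
  obtain ⟨hZne, hZcl, hZmin⟩ := (mem_comps_iff B R Z).1 hZ
  have hZab : ∀ z ∈ Z, z ∈ W \ {a, b} := by
    intro z hz
    simp only [Finset.mem_sdiff, Finset.mem_insert, Finset.mem_singleton, not_or]
    exact ⟨hR (hZcl.1 hz), fun hh => haR (hh ▸ hz), fun hh => hbR (hh ▸ hz)⟩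
  have hZ' : Z ∈ comps B (W \ {a, b}) := by
    refine (mem_comps_iff B _ Z).2 ⟨hZne, ⟨hZab, ?_⟩, ?_⟩
    · intro u hu v hv huv
      simp only [Finset.mem_sdiff, Finset.mem_insert, Finset.mem_singleton, not_or] at hv
      rcases hN u hu v hv.1 huv with hh | hh | hh
      · exact hh
      · exact absurd hh hv.2.1
      · exact absurd hh hv.2.2
    · intro X hXZ hXne hXcl
      refine hZmin X hXZ hXne ⟨hXZ.trans hZcl.1, ?_⟩
      intro u hu v hv huv
      have hvZ : v ∈ Z := hZcl.2 u (hXZ hu) v hv huv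
      exact hXcl.2 u hu v (hZab v hvZ) huv
  have hyR : y ∈ W \ {a, b} := by
    simp only [Finset.mem_sdiff, Finset.mem_insert, Finset.mem_singleton, not_or]
    exact ⟨hy, hya, hyb⟩
  obtain ⟨Y, hY, hyY⟩ := exists_comp B _ hyR
  exact ⟨hZ', Y, hY, fun hh => hyZ (hh ▸ hyY), hyY⟩

end Pool.Agent.DK
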