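import Mathlib
import Pool.Agent.Lib_MP_6f255c_dk.TDCross
import Pool.Agent.Lib_MP_6f255c_dk.TDSide

/-!
# Theorem D, the Lobe Lemma

`L : Lobe W B T D₀` in a stuck state. Results: all nodes of `T` with respect to a crossing `F` are single;
`lobeW W T D₀` consists of `|T| - 1` isolated vertices of `W \ T`; every vertex of `T` has a neighbour in `lobeW`; every
minimal bad non-edge disjoint from `T` and meeting `lobeW` contains `lobeW` and meets `D₀`; the graph on the
lobe `W \ D₀` is connected; UNIQUENESS: the only tight set disjoint from `D₀` is `T`.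
-/

set_option autoImplicit false

namespace Pool.Agent.DK

open Classical

variable {α : Type*}

/-- `T` is contained in `W \ D₀`. -/
theorem Lobe.mem_sdiff {W : Finset α} {B : Finset α → Prop} {T D₀ : Finset α}
    (hL : Lobe W B T D₀) {t : α} (ht : t ∈ T) : t ∈ W \ D₀ :=
  Finset.mem_sdiff.2 ⟨hL.tight.1 ht, fun hh =>
    (Finset.mem_sdiff.1 (((mem_comps_iff B (W \ T) D₀).1 hL.comp).2.1.1 hh)).2 ht⟩

/-- If `F` crosses `T`, all nodes of `T` are single.

Proof. Let `D ∈ comps B (W \ F)`, `|T ∩ D| ≥ 2`. `Crosses.nodeT`: `T' := T ∩ D` is tight, a proper subset of `T`, and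
there is `M`. `D₀` is connected in `W \ T'` (`exists_comp_sup`), so it is contained in a component `X` of `W \ T'`.
If `X ≠ M` then `X ∈ comps B (W \ T)`, so `X = D₀` (`comps_disjoint`) and `D₀ ∈ comps B (W \ T')`: against `minT`.
If `X = M`: `W \ M` is a side, `W \ M ⊆ W \ D₀`, so equal by `minSide`; but the nonempty set `T \ D` is contained in `M` and
in `W \ D₀`. -/
theorem Lobe.nodes_single {W : Finset α} {B : Finset α → Prop} (h : ClV W B B) {T D₀ : Finset α}
    (hL : Lobe W B T D₀) {F : Finset α} (hc : Crosses W B F T) :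
    ∀ D ∈ comps B (W \ F), (T ∩ D).card ≤ 1 := by
  intro D hD
  by_contra hlt
  have h2 : 2 ≤ (T ∩ D).card := by omega
  obtain ⟨hss, htight, M, hM, hFM, hTDM, hWM, hX⟩ := hc.nodeT h hL.tight hD h2
  have hD0 := (mem_comps_iff B (W \ T) D₀).1 hL.comp
  have hsub : D₀ ⊆ W \ (T ∩ D) := fun x hx =>
    Finset.mem_sdiff.2 ⟨(Finset.mem_sdiff.1 (hD0.2.1.1 hx)).1,
      fun hh => (Finset.mem_sdiff.1 (hD0.2.1.1 hx)).2 (Finset.mem_inter.1 hh).1⟩
  obtain ⟨X, hXc, hDX⟩ := exists_comp_sup hL.comp hsub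
  by_cases hXM : X = M
  · subst hXM
    have hside : IsSide W B (W \ X) := htight.isSide hXc
    have hle : W \ X ⊆ W \ D₀ := Finset.sdiff_subset_sdiff (Finset.Subset.refl W) hDX
    have heq := hL.minSide _ hside hle
    obtain ⟨t, ht, htD⟩ := Finset.exists_of_ssubset hss
    have htD' : t ∉ D := fun hh => htD (Finset.mem_inter.2 ⟨ht, hh⟩)
    have htX : t ∈ X := hTDM (Finset.mem_sdiff.2 ⟨ht, htD'⟩)
    have htL : t ∈ W \ D₀ := Finset.mem_sdiff.2 ⟨hL.tight.1 ht,
      fun hh => (Finset.mem_sdiff.1 (hD0.2.1.1 hh)).2 ht⟩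
    rw [← heq] at htL
    exact (Finset.mem_sdiff.1 htL).2 htX
  · have hXT := (hX X hXc hXM).1
    have hXD : X = D₀ := by
      by_contra hne
      obtain ⟨x, hx⟩ := hD0.1
      exact Finset.disjoint_left.1 (comps_disjoint B _ hXT hL.comp hne) (hDX hx) hx
    exact hL.minT (T ∩ D) hss htight (hXD ▸ hXc)

/-- If `F` crosses `T` and `D ≠ D₀` is a component of `W \ T` then `D` is a single vertex, contained in `F`.

Proof. `F ∩ D` is nonempty by `Crosses.all_meet`. If `|F ∩ D| ≥ 2`, `Crosses.nodeF` gives a tight set `F ∩ D` with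
a side `W \ M ⊆ D ⊆ W \ D₀`; by `minSide` `W \ M = W \ D₀`, but `T ⊆ W \ D₀` is disjoint from `D`. So `F ∩ D = {w}`.
Suppose `D ≠ {w}`, let `Z` be a component of `D \ {w}` (`exists_comp`). Neighbours of `Z` in `W` are in
`Z ∪ {w} ∪ T`, and at most one vertex `t` of `T` is adjacent to `Z`: `Z` is connected in `W \ F`
(`Z ∩ F ⊆ D ∩ F \ {w} = ∅`), so it lies in a component of `W \ F`, which then contains all `T`-neighbours of `Z`, and
the nodes of `T` are single. If `Z` has no neighbour in `T` take any `t ∈ T`. Let `t' ∈ T`, `t' ≠ t`. By `comp_of_nbhd`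
`Z` and the component of `t'` are different components of `W \ {w, t}`, so there is a side `L ⊆ {w, t} ∪ Z`
(`Stuck.side_in_pair`), contained in `W \ D₀`, so equal to it by `minSide`; but `t' ∈ W \ D₀`, `t' ∉ {w, t} ∪ Z`. -/
theorem Lobe.comp_single {W : Finset α} {B : Finset α → Prop} (h : ClV W B B) (hst : Stuck W B)
    {T D₀ : Finset α} (hL : Lobe W B T D₀) {F : Finset α} (hc : Crosses W B F T) {D : Finset α}
    (hD : D ∈ comps B (W \ T)) (hne : D ≠ D₀) : ∃ w ∈ F, D = {w} := by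
  have hall := hc.all_meet h hL.tight (hL.nodes_single h hc)
  have hm : (F ∩ D).Nonempty := hall D hD
  have hDspec := (mem_comps_iff B (W \ T) D).1 hD
  have hDT : ∀ x ∈ D, x ∈ W ∧ x ∉ T := fun x hx => Finset.mem_sdiff.1 (hDspec.2.1.1 hx)
  have hdisj : Disjoint D D₀ := comps_disjoint B _ hD hL.comp hne
  have hTL : ∀ x ∈ T, x ∈ W \ D₀ := fun x hx => hL.mem_sdiff hx
  have hcard : (F ∩ D).card = 1 := by
    by_contra hne1
    have h2 : 2 ≤ (F ∩ D).card := by
      have := Finset.card_pos.2 hm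
      omega
    obtain ⟨hss, htight, M, hM, hTM, hFM, hWM, hX⟩ := hc.nodeF h hL.tight hD h2
    have hle : W \ M ⊆ W \ D₀ := by
      intro x hx
      exact Finset.mem_sdiff.2 ⟨(Finset.mem_sdiff.1 hx).1,
        fun hh => Finset.disjoint_left.1 hdisj (hWM hx) hh⟩
    have heq := hL.minSide _ (htight.isSide hM) hle
    obtain ⟨t, ht⟩ := hL.tight.nonempty
    have htL := hTL t ht
    rw [← heq] at htL
    exact (Finset.mem_sdiff.1 htL).2 (hTM ht)
  obtain ⟨w, hw⟩ := Finset.card_eq_one.1 hcard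
  have hwm : w ∈ F ∩ D := by rw [hw]; exact Finset.mem_singleton_self w
  have hwF : w ∈ F := (Finset.mem_inter.1 hwm).1
  have hwD : w ∈ D := (Finset.mem_inter.1 hwm).2
  refine ⟨w, hwF, ?_⟩
  by_contra hDw
  obtain ⟨z, hz⟩ : (D \ {w}).Nonempty := by
    rw [Finset.sdiff_nonempty]
    intro hsub
    exact hDw (Finset.Subset.antisymm hsub (Finset.singleton_subset_iff.2 hwD))
  obtain ⟨Z, hZ, hzZ⟩ := exists_comp B (D \ {w}) hz
  have hZspec := (mem_comps_iff B (D \ {w}) Z).1 hZ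
  have hZD : ∀ x ∈ Z, x ∈ D ∧ x ≠ w := by
    intro x hx
    have := hZspec.2.1.1 hx
    rw [Finset.mem_sdiff, Finset.mem_singleton] at this
    exact this
  have hnb : ∀ u ∈ Z, ∀ v ∈ W, Adj B u v → v ∈ Z ∨ v = w ∨ v ∈ T := by
    intro u hu v hv huv
    by_cases hvT : v ∈ T
    · exact Or.inr (Or.inr hvT)
    · have hvD : v ∈ D := hDspec.2.1.2 u (hZD u hu).1 v (Finset.mem_sdiff.2 ⟨hv, hvT⟩) huv
      by_cases hvw : v = w
      · exact Or.inr (Or.inl hvw)
      · exact Or.inl (hZspec.2.1.2 u hu v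
          (Finset.mem_sdiff.2 ⟨hvD, by rwa [Finset.mem_singleton]⟩) huv)
  have hZF : Z ⊆ W \ F := by
    intro x hx
    refine Finset.mem_sdiff.2 ⟨(hDT x (hZD x hx).1).1, fun hxF => ?_⟩
    have : x ∈ F ∩ D := Finset.mem_inter.2 ⟨hxF, (hZD x hx).1⟩
    rw [hw, Finset.mem_singleton] at this
    exact (hZD x hx).2 this
  obtain ⟨M', hM', hZM'⟩ := exists_comp_sup hZ hZF
  have hM's := (mem_comps_iff B (W \ F) M').1 hM'
  have hTM' : ∀ t ∈ T, (∃ u ∈ Z, Adj B u t) → t ∈ M' := by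
    rintro t ht ⟨u, hu, hut⟩
    exact hM's.2.1.2 u (hZM' hu) t (Finset.mem_sdiff.2 ⟨hL.tight.1 ht,
      fun htF => Finset.disjoint_left.1 hc.disj htF ht⟩) hut
  have hone := Finset.card_le_one.1 (hL.nodes_single h hc M' hM')
  obtain ⟨t, htT, ht⟩ : ∃ t ∈ T, ∀ v ∈ T, (∃ u ∈ Z, Adj B u v) → v = t := by
    by_cases hex : ∃ t ∈ T, ∃ u ∈ Z, Adj B u t
    · obtain ⟨t, htT, hadj⟩ := hex
      refine ⟨t, htT, fun v hv hva => ?_⟩
      exact hone v (Finset.mem_inter.2 ⟨hv, hTM' v hv hva⟩) t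
        (Finset.mem_inter.2 ⟨htT, hTM' t htT hadj⟩)
    · obtain ⟨t, htT⟩ := hL.tight.nonempty
      exact ⟨t, htT, fun v hv hva => absurd ⟨v, hv, hva⟩ hex⟩
  have hN : ∀ z ∈ Z, ∀ x ∈ W, Adj B z x → x ∈ Z ∨ x = w ∨ x = t := by
    intro u hu v hv huv
    rcases hnb u hu v hv huv with h1 | h1 | h1
    · exact Or.inl h1
    · exact Or.inr (Or.inl h1)
    · exact Or.inr (Or.inr (ht v h1 ⟨u, hu, huv⟩))
  obtain ⟨t', ht', htt'⟩ : ∃ t' ∈ T, t' ≠ t :=
    Finset.exists_mem_ne (by have := hL.tight.2.1; omega) t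
  have hwT : ∀ x ∈ T, x ≠ w := fun x hx hxw => (hDT w hwD).2 (hxw ▸ hx)
  have hTZ : ∀ x ∈ T, x ∉ Z := fun x hx hxZ => (hDT x (hZD x hxZ).1).2 hx
  have hDW : D \ {w} ⊆ W := fun x hx => (hDT x (Finset.mem_sdiff.1 hx).1).1
  obtain ⟨hZc, Y, hY, hZY, hyY⟩ := comp_of_nbhd (y := t') hZ hDW (fun hh => (hZD w hh).2 rfl)
    (hTZ t htT) hN (hL.tight.1 ht') (hwT t' ht') htt' (hTZ t' ht')
  obtain ⟨L, hLs, hLsub⟩ := Stuck.side_in_pair h hst (hDT w hwD).1 (hL.tight.1 htT)
    (hwT t htT).symm hZc hY hZY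
  have hLD : L ⊆ W \ D₀ := by
    intro x hx
    have hx' := hLsub hx
    rw [Finset.mem_insert, Finset.mem_insert] at hx'
    rcases hx' with rfl | rfl | hx'
    · exact Finset.mem_sdiff.2 ⟨(hDT x hwD).1, fun hh => Finset.disjoint_left.1 hdisj hwD hh⟩
    · exact hTL x htT
    · exact Finset.mem_sdiff.2 ⟨(hDT x (hZD x hx').1).1,
        fun hh => Finset.disjoint_left.1 hdisj (hZD x hx').1 hh⟩
  have heq := hL.minSide L hLs hLD
  have ht'L : t' ∈ L := by rw [heq]; exact hTL t' ht'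
  have := hLsub ht'L
  rw [Finset.mem_insert, Finset.mem_insert] at this
  rcases this with h1 | h1 | h1
  · exact hwT t' ht' h1
  · exact htt' h1
  · exact hTZ t' ht' h1

/-- `{w}` is a component of `W \ T` for `w ∈ lobeW` (`Stuck.exists_cross`, the component of `w` is not `D₀`,
`Lobe.comp_single`). -/
theorem Lobe.isolated {W : Finset α} {B : Finset α → Prop} (h : ClV W B B) (hst : Stuck W B)
    {T D₀ : Finset α} (hL : Lobe W B T D₀) {w : α} (hw : w ∈ lobeW W T D₀) :
    {w} ∈ comps B (W \ T) := by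
  obtain ⟨hwW, hwD, hwT⟩ := mem_lobeW.1 hw
  obtain ⟨F, hc⟩ := hst.exists_cross h hL.tight
  obtain ⟨D, hD, hwD'⟩ := exists_comp B (W \ T) (Finset.mem_sdiff.2 ⟨hwW, hwT⟩)
  have hne : D ≠ D₀ := by
    rintro rfl
    exact hwD hwD'
  obtain ⟨w', _, rfl⟩ := hL.comp_single h hst hc hD hne
  rw [Finset.mem_singleton] at hwD'
  rwa [hwD']

/-- neighbours of `lobeW` are in `T`. -/
theorem Lobe.nbr_mem {W : Finset α} {B : Finset α → Prop} (h : ClV W B B) (hst : Stuck W B)
    {T D₀ : Finset α} (hL : Lobe W B T D₀) {w v : α} (hw : w ∈ lobeW W T D₀) (hv : v ∈ W)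
    (hA : Adj B w v) : v ∈ T := by
  by_contra hvT
  have hs := (mem_comps_iff B (W \ T) {w}).1 (hL.isolated h hst hw)
  have := hs.2.1.2 w (Finset.mem_singleton_self w) v (Finset.mem_sdiff.2 ⟨hv, hvT⟩) hA
  rw [Finset.mem_singleton] at this
  exact hA.1 this.symm

/-- `|lobeW| + 1 = |T|`: the components of `W \ T` are `D₀` and the singletons of `lobeW`; `ClV.c_tight`. -/
theorem Lobe.card_lobeW {W : Finset α} {B : Finset α → Prop} (h : ClV W B B) (hst : Stuck W B)
    {T D₀ : Finset α} (hL : Lobe W B T D₀) : (lobeW W T D₀).card + 1 = T.card := by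
  have hcomps : comps B (W \ T) = insert D₀ ((lobeW W T D₀).image (fun w => ({w} : Finset α))) := by
    ext X
    rw [Finset.mem_insert, Finset.mem_image]
    constructor
    · intro hX
      by_cases hXD : X = D₀
      · exact Or.inl hXD
      · right
        have hXs := (mem_comps_iff B (W \ T) X).1 hX
        obtain ⟨x, hx⟩ := hXs.1
        have hxW := Finset.mem_sdiff.1 (hXs.2.1.1 hx)
        have hxl : x ∈ lobeW W T D₀ := mem_lobeW.2 ⟨hxW.1,
          fun hh => Finset.disjoint_left.1 (comps_disjoint B _ hX hL.comp hXD) hx hh, hxW.2⟩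
        refine ⟨x, hxl, ?_⟩
        by_contra hne
        exact Finset.disjoint_left.1 (comps_disjoint B _ (hL.isolated h hst hxl) hX hne)
          (Finset.mem_singleton_self x) hx
    · rintro (rfl | ⟨w, hw, rfl⟩)
      · exact hL.comp
      · exact hL.isolated h hst hw
  have hc := h.c_tight hL.tight
  unfold c at hc
  rw [hcomps, Finset.card_insert_of_notMem, Finset.card_image_of_injective] at hc
  · exact hc
  · intro a b hab
    exact Finset.singleton_injective hab
  · intro hmem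
    obtain ⟨w, hw, hwD⟩ := Finset.mem_image.1 hmem
    exact (mem_lobeW.1 hw).2.1 (hwD ▸ Finset.mem_singleton_self w)

/-- (Hall) For `∅ ≠ S ⊆ T`, `S ≠ T`: at most `|S| - 1` vertices of `lobeW` have all their neighbours in `S`.
Proof. `v2` for `S`, and `card_le_comps` for the sets `{w}` and the rest `(W \ S) \ those` (closed in `W \ S`, nonempty as
`D₀ ≠ ∅`). -/
theorem Lobe.hall {W : Finset α} {B : Finset α → Prop} (h : ClV W B B) (hst : Stuck W B)
    {T D₀ : Finset α} (hL : Lobe W B T D₀) {S : Finset α} (hS : S ⊆ T) (hne : S.Nonempty) :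
    ((lobeW W T D₀).filter (fun w => ∀ v ∈ W, Adj B w v → v ∈ S)).card + 1 ≤ S.card := by
  have hTW := hL.tight.1
  have hSbad : ¬ B S := h.not_bad_of_subset hS hL.tight.2.2.1
  have hv2 := h.v2 S (hS.trans hTW) hne hSbad
  set N := (lobeW W T D₀).filter (fun w => ∀ v ∈ W, Adj B w v → v ∈ S) with hNdef
  have hNmem : ∀ w, w ∈ N ↔ w ∈ lobeW W T D₀ ∧ ∀ v ∈ W, Adj B w v → v ∈ S := by
    intro w
    rw [hNdef, Finset.mem_filter]
  have hNW : ∀ w ∈ N, w ∈ W \ S := by
    intro w hw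
    have hw' := mem_lobeW.1 ((hNmem w).1 hw).1
    exact Finset.mem_sdiff.2 ⟨hw'.1, fun hh => hw'.2.2 (hS hh)⟩
  have hD0 := (mem_comps_iff B (W \ T) D₀).1 hL.comp
  set Rst := (W \ S) \ N with hR
  have hRne : Rst.Nonempty := by
    obtain ⟨x, hx⟩ := hD0.1
    have hxW := Finset.mem_sdiff.1 (hD0.2.1.1 hx)
    refine ⟨x, Finset.mem_sdiff.2 ⟨Finset.mem_sdiff.2 ⟨hxW.1, fun hh => hxW.2 (hS hh)⟩, ?_⟩⟩
    intro hxN
    exact (mem_lobeW.1 ((hNmem x).1 hxN).1).2.1 hx
  have hcard : (insert Rst (N.image (fun w => ({w} : Finset α)))).card = N.card + 1 := by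
    rw [Finset.card_insert_of_notMem, Finset.card_image_of_injective]
    · intro a b hab
      exact Finset.singleton_injective hab
    · intro hmem
      obtain ⟨w, hw, hwR⟩ := Finset.mem_image.1 hmem
      have : w ∈ Rst := hwR ▸ Finset.mem_singleton_self w
      exact (Finset.mem_sdiff.1 this).2 hw
  rw [← hcard]
  refine (card_le_comps B (W \ S) _ ?_ ?_).trans hv2
  · intro X hX
    rcases Finset.mem_insert.1 hX with rfl | hX
    · refine ⟨hRne, Finset.sdiff_subset, ?_⟩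
      intro u hu v hv huv
      refine Finset.mem_sdiff.2 ⟨hv, fun hvN => ?_⟩
      have huW := Finset.mem_sdiff.1 (Finset.mem_sdiff.1 hu).1
      exact huW.2 (((hNmem v).1 hvN).2 u huW.1 (adj_symm huv))
    · obtain ⟨w, hw, rfl⟩ := Finset.mem_image.1 hX
      refine ⟨Finset.singleton_nonempty w, Finset.singleton_subset_iff.2 (hNW w hw), ?_⟩
      intro u hu v hv huv
      rw [Finset.mem_singleton] at hu
      subst hu
      exact absurd (((hNmem u).1 hw).2 v (Finset.mem_sdiff.1 hv).1 huv) (Finset.mem_sdiff.1 hv).2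
  · intro X hX Y hY hXY
    rw [Function.onFun, id, id]
    rw [Finset.mem_coe, Finset.mem_insert, Finset.mem_image] at hX hY
    rcases hX with rfl | ⟨w, hw, rfl⟩ <;> rcases hY with rfl | ⟨w', hw', rfl⟩
    · exact absurd rfl hXY
    · exact Finset.disjoint_singleton_right.2 (fun hh => (Finset.mem_sdiff.1 hh).2 hw')
    · exact Finset.disjoint_singleton_left.2 (fun hh => (Finset.mem_sdiff.1 hh).2 hw)
    · rw [Finset.disjoint_singleton]
      rintro rfl
      exact hXY rfl

/-- Every vertex of `T` has a neighbour in `lobeW` (otherwise all of `lobeW` has its neighbours in `T.erase t`: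
`Lobe.hall` and `Lobe.card_lobeW`). -/
theorem Lobe.exists_nbr {W : Finset α} {B : Finset α → Prop} (h : ClV W B B) (hst : Stuck W B)
    {T D₀ : Finset α} (hL : Lobe W B T D₀) {t : α} (ht : t ∈ T) :
    ∃ w ∈ lobeW W T D₀, Adj B w t := by
  by_contra hcon
  push Not at hcon
  have h2 := hL.tight.2.1
  have hne : (T.erase t).Nonempty := by
    rw [← Finset.card_pos, Finset.card_erase_of_mem ht]
    omega
  have hh := hL.hall h hst (Finset.erase_subset t T) hne
  have heq : (lobeW W T D₀).filter (fun w => ∀ v ∈ W, Adj B w v → v ∈ T.erase t) =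
      lobeW W T D₀ := by
    refine Finset.filter_true_of_mem (fun w hw v hv hA => ?_)
    refine Finset.mem_erase.2 ⟨?_, hL.nbr_mem h hst hw hv hA⟩
    rintro rfl
    exact hcon w hw hA
  rw [heq, Finset.card_erase_of_mem ht] at hh
  have := hL.card_lobeW h hst
  omega

/-- Every vertex of `lobeW` has a neighbour in `T`. -/
theorem Lobe.exists_nbrT {W : Finset α} {B : Finset α → Prop} (h : ClV W B B) (hst : Stuck W B)
    {T D₀ : Finset α} (hL : Lobe W B T D₀) {w : α} (hw : w ∈ lobeW W T D₀) :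
    ∃ t ∈ T, Adj B w t := by
  obtain ⟨u, hu, v, hv, hA⟩ := exists_adj_of_comp h.conn hL.tight.1 hL.tight.nonempty
    (hL.isolated h hst hw)
  rw [Finset.mem_singleton] at hu
  subst hu
  exact ⟨v, hv, hA⟩

/-- the same conclusion for every `F` crossing `T` (`Crosses.all_meet`). -/
theorem Lobe.of_crosses {W : Finset α} {B : Finset α → Prop} (h : ClV W B B)
    (hst : Stuck W B) {T D₀ : Finset α} (hL : Lobe W B T D₀) {F : Finset α}
    (hc : Crosses W B F T) :
    lobeW W T D₀ ⊆ F ∧ (F ∩ D₀).Nonempty ∧ F = lobeW W T D₀ ∪ (F ∩ D₀) := by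
  have hall := hc.all_meet h hL.tight (hL.nodes_single h hc)
  have h1 : lobeW W T D₀ ⊆ F := by
    intro w hw
    obtain ⟨x, hx⟩ := hall {w} (hL.isolated h hst hw)
    rw [Finset.mem_inter, Finset.mem_singleton] at hx
    rw [← hx.2]
    exact hx.1
  refine ⟨h1, hall D₀ hL.comp, ?_⟩
  refine Finset.Subset.antisymm ?_ (Finset.union_subset h1 Finset.inter_subset_left)
  intro x hx
  rw [Finset.mem_union, Finset.mem_inter]
  by_cases hxD : x ∈ D₀
  · exact Or.inr ⟨hx, hxD⟩
  · exact Or.inl (mem_lobeW.2 ⟨hc.mb.1.1 hx, hxD, fun hxT => Finset.disjoint_left.1 hc.disj hx hxT⟩)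

/-- Every minimal bad non-edge `F` disjoint from `T` and meeting `lobeW` crosses `T`, contains `lobeW`,
and meets `D₀`; `F = lobeW ∪ (F ∩ D₀)`.

Proof. `|F| ≥ 3`, so if `w ∈ F ∩ lobeW`, `F` has a vertex in a component of `W \ T` other than `{w}` (`F ⊆ W \ T`):
`Tight.crosses`. Nodes of `T` are single, `Crosses.all_meet` : `F` meets `D₀` and all `{w'}`, `w' ∈ lobeW`. -/
theorem Lobe.cross_of_meet {W : Finset α} {B : Finset α → Prop} (h : ClV W B B)
    (hst : Stuck W B) {T D₀ : Finset α} (hL : Lobe W B T D₀) {F : Finset α}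
    (hF : MB W B B F) (hd : Disjoint F T) (hm : (F ∩ lobeW W T D₀).Nonempty) :
    Crosses W B F T ∧ lobeW W T D₀ ⊆ F ∧ (F ∩ D₀).Nonempty ∧
      F = lobeW W T D₀ ∪ (F ∩ D₀) := by
  obtain ⟨w, hw⟩ := hm
  rw [Finset.mem_inter] at hw
  have h3 := hF.three_le h
  obtain ⟨v, hv, hvw⟩ : ∃ v ∈ F, v ≠ w := Finset.exists_mem_ne (by omega) w
  have hvT : v ∉ T := fun hh => Finset.disjoint_left.1 hd hv hh
  obtain ⟨D', hD', hvD'⟩ := exists_comp B (W \ T) (Finset.mem_sdiff.2 ⟨hF.1.1 hv, hvT⟩)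
  have hne : ({w} : Finset α) ≠ D' := by
    rintro rfl
    exact hvw (Finset.mem_singleton.1 hvD')
  have hc : Crosses W B F T := hL.tight.crosses h hF hd (hL.isolated h hst hw.2) hD' hne
    ⟨w, Finset.mem_inter.2 ⟨hw.1, Finset.mem_singleton_self w⟩⟩
    ⟨v, Finset.mem_inter.2 ⟨hv, hvD'⟩⟩
  exact ⟨hc, hL.of_crosses h hst hc⟩

/-- one half of the count for a closed set `X` of the lobe. -/
theorem Lobe.closed_count {W : Finset α} {B : Finset α → Prop} (h : ClV W B B)
    (hst : Stuck W B) {T D₀ X : Finset α} (hL : Lobe W B T D₀) (hX : ClosedIn B (W \ D₀) X)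
    (hne : X.Nonempty) : (lobeW W T D₀ ∩ X).card + 1 ≤ (T ∩ X).card := by
  have hTX : (T ∩ X).Nonempty := by
    obtain ⟨x, hx⟩ := hne
    by_cases hxT : x ∈ T
    · exact ⟨x, Finset.mem_inter.2 ⟨hxT, hx⟩⟩
    · have hxW := Finset.mem_sdiff.1 (hX.1 hx)
      obtain ⟨t, ht, hA⟩ := hL.exists_nbrT h hst (mem_lobeW.2 ⟨hxW.1, hxW.2, hxT⟩)
      exact ⟨t, Finset.mem_inter.2 ⟨ht, hX.2 x hx t (hL.mem_sdiff ht) hA⟩⟩
  have hh := hL.hall h hst (Finset.inter_subset_left : T ∩ X ⊆ T) hTX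
  refine le_trans (Nat.succ_le_succ (Finset.card_le_card ?_)) hh
  intro w hw
  rw [Finset.mem_inter] at hw
  refine Finset.mem_filter.2 ⟨hw.1, fun v hv hA => ?_⟩
  have hvT := hL.nbr_mem h hst hw.1 hv hA
  exact Finset.mem_inter.2 ⟨hvT, hX.2 w hw.2 v (hL.mem_sdiff hvT) hA⟩

/-- A nonempty set closed in the lobe is the whole lobe. -/
theorem Lobe.closed_eq {W : Finset α} {B : Finset α → Prop} (h : ClV W B B)
    (hst : Stuck W B) {T D₀ X : Finset α} (hL : Lobe W B T D₀) (hX : ClosedIn B (W \ D₀) X)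
    (hne : X.Nonempty) : X = W \ D₀ := by
  by_contra hXne
  have hYne : ((W \ D₀) \ X).Nonempty := by
    rw [Finset.sdiff_nonempty]
    intro hs
    exact hXne (Finset.Subset.antisymm hX.1 hs)
  have hY : ClosedIn B (W \ D₀) ((W \ D₀) \ X) := by
    refine ⟨Finset.sdiff_subset, fun u hu v hv huv => Finset.mem_sdiff.2 ⟨hv, fun hvX => ?_⟩⟩
    have hu' := Finset.mem_sdiff.1 hu
    exact hu'.2 (hX.2 v hvX u hu'.1 (adj_symm huv))
  have h1 := hL.closed_count h hst hX hne
  have h2 := hL.closed_count h hst hY hYne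
  have e1 : (T ∩ X).card + (T ∩ ((W \ D₀) \ X)).card = T.card := by
    rw [← Finset.card_union_of_disjoint]
    · congr 1
      ext x
      simp only [Finset.mem_union, Finset.mem_inter, Finset.mem_sdiff]
      constructor
      · rintro (hx | hx)
        · exact hx.1
        · exact hx.1
      · intro hx
        have := Finset.mem_sdiff.1 (hL.mem_sdiff hx)
        tauto
    · rw [Finset.disjoint_left]
      intro x hx hx'
      exact (Finset.mem_sdiff.1 (Finset.mem_inter.1 hx').2).2 (Finset.mem_inter.1 hx).2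
  have e2 : (lobeW W T D₀ ∩ X).card + (lobeW W T D₀ ∩ ((W \ D₀) \ X)).card =
      (lobeW W T D₀).card := by
    rw [← Finset.card_union_of_disjoint]
    · congr 1
      ext x
      simp only [Finset.mem_union, Finset.mem_inter, Finset.mem_sdiff]
      constructor
      · rintro (hx | hx)
        · exact hx.1
        · exact hx.1
      · intro hx
        have := mem_lobeW.1 hx
        tauto
    · rw [Finset.disjoint_left]
      intro x hx hx'
      exact (Finset.mem_sdiff.1 (Finset.mem_inter.1 hx').2).2 (Finset.mem_inter.1 hx).2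
  have h3 := hL.card_lobeW h hst
  omega

/-- The graph on the lobe `W \ D₀` is connected.

Proof. Let `Y` be a component of `W \ D₀` and suppose `Y ≠ W \ D₀`; `Y' := (W \ D₀) \ Y` is closed in `W \ D₀` and
nonempty. Every `w ∈ lobeW` has a neighbour in `T` (`exists_adj_of_comp` for `{w}`), every `t ∈ T` has a neighbour in
`lobeW`. So `T ∩ Y` and `T ∩ Y'` are nonempty; the vertices of `lobeW ∩ Y` have all neighbours in `T ∩ Y`
(`Lobe.nbr_mem`), so by `Lobe.hall` `|lobeW ∩ Y| + 1 ≤ |T ∩ Y|`, the same for `Y'`; adding,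
`|lobeW| + 2 ≤ |T|`, against `card_lobeW`. -/
theorem Lobe.connected {W : Finset α} {B : Finset α → Prop} (h : ClV W B B)
    (hst : Stuck W B) {T D₀ : Finset α} (hL : Lobe W B T D₀) :
    comps B (W \ D₀) = {W \ D₀} := by
  have hne : (W \ D₀).Nonempty := by
    obtain ⟨t, ht⟩ := hL.tight.nonempty
    exact ⟨t, hL.mem_sdiff ht⟩
  ext X
  rw [Finset.mem_singleton]
  constructor
  · intro hX
    obtain ⟨hXne, hXcl, _⟩ := (mem_comps_iff B (W \ D₀) X).1 hX
    exact hL.closed_eq h hst hXcl hXne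
  · rintro rfl
    refine (mem_comps_iff B (W \ D₀) _).2 ⟨hne, ⟨Finset.Subset.refl _, fun _ _ v hv _ => hv⟩, ?_⟩
    intro Y _ hY hYcl
    exact hL.closed_eq h hst hYcl hY

/-- The lobe is contained in one component of every `W \ S`, `S ⊆ D₀`. -/
theorem Lobe.lobe_in_comp {W : Finset α} {B : Finset α → Prop} (h : ClV W B B)
    (hst : Stuck W B) {T D₀ : Finset α} (hL : Lobe W B T D₀) {S : Finset α} (hS : S ⊆ D₀) :
    ∃ M ∈ comps B (W \ S), W \ D₀ ⊆ M := by
  have hmem : W \ D₀ ∈ comps B (W \ D₀) := by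
    rw [hL.connected h hst]
    exact Finset.mem_singleton_self _
  exact exists_comp_sup hmem (Finset.sdiff_subset_sdiff (Finset.Subset.refl W) hS)

/-- UNIQUENESS 1: two lobes with the same `D₀` have the same `T`.

Proof. `X := (T ∩ T') ∪ (lobeW W T D₀ ∩ lobeW W T' D₀)` is closed in `W \ D₀`: a neighbour `v ∈ W \ D₀` of
`u ∈ T ∩ T'` is in neither `T` nor `T'` (`Tight.indep`), so in both `lobeW`s; a neighbour of `u` in both `lobeW`s is in
`T` and `T'` (`nbr_mem`). `W \ D₀` is connected, so `X = ∅` or `X = W \ D₀`. If `X = W \ D₀`, then `T ⊆ T'` and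
conversely. If `X = ∅`: `T' ⊆ lobeW W T D₀` and `T ⊆ lobeW W T' D₀`, and `|T'| ≤ |T| - 1`, `|T| ≤ |T'| - 1`. -/
theorem Lobe.unique {W : Finset α} {B : Finset α → Prop} (h : ClV W B B)
    (hst : Stuck W B) {T T' D₀ : Finset α} (hL : Lobe W B T D₀) (hL' : Lobe W B T' D₀) :
    T = T' := by
  have hcl : ClosedIn B (W \ D₀) ((T ∩ T') ∪ (lobeW W T D₀ ∩ lobeW W T' D₀)) := by
    refine ⟨?_, ?_⟩
    · intro x hx
      rw [Finset.mem_union, Finset.mem_inter, Finset.mem_inter] at hx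
      rcases hx with hx | hx
      · exact hL.mem_sdiff hx.1
      · have := mem_lobeW.1 hx.1
        exact Finset.mem_sdiff.2 ⟨this.1, this.2.1⟩
    · intro u hu v hv huv
      rw [Finset.mem_union, Finset.mem_inter, Finset.mem_inter] at hu ⊢
      rw [Finset.mem_sdiff] at hv
      rcases hu with hu | hu
      · right
        exact ⟨mem_lobeW.2 ⟨hv.1, hv.2, fun hvT => hL.tight.indep h hu.1 hvT huv⟩,
          mem_lobeW.2 ⟨hv.1, hv.2, fun hvT => hL'.tight.indep h hu.2 hvT huv⟩⟩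
      · left
        exact ⟨hL.nbr_mem h hst hu.1 hv.1 huv, hL'.nbr_mem h hst hu.2 hv.1 huv⟩
  by_cases hne : ((T ∩ T') ∪ (lobeW W T D₀ ∩ lobeW W T' D₀)).Nonempty
  · have heq := hL.closed_eq h hst hcl hne
    refine Finset.Subset.antisymm ?_ ?_
    · intro t ht
      have := hL.mem_sdiff ht
      rw [← heq, Finset.mem_union, Finset.mem_inter, Finset.mem_inter] at this
      rcases this with h1 | h1
      · exact h1.2
      · exact absurd ht (mem_lobeW.1 h1.1).2.2
    · intro t ht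
      have := hL'.mem_sdiff ht
      rw [← heq, Finset.mem_union, Finset.mem_inter, Finset.mem_inter] at this
      rcases this with h1 | h1
      · exact h1.1
      · exact absurd ht (mem_lobeW.1 h1.2).2.2
  · exfalso
    have hnot : ∀ x ∈ T, x ∉ T' := fun x hx hx' =>
      hne ⟨x, Finset.mem_union_left _ (Finset.mem_inter.2 ⟨hx, hx'⟩)⟩
    have h1 : T' ⊆ lobeW W T D₀ := by
      intro x hx
      have hx' := Finset.mem_sdiff.1 (hL'.mem_sdiff hx)
      exact mem_lobeW.2 ⟨hx'.1, hx'.2, fun hh => hnot x hh hx⟩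
    have h2 : T ⊆ lobeW W T' D₀ := by
      intro x hx
      have hx' := Finset.mem_sdiff.1 (hL.mem_sdiff hx)
      exact mem_lobeW.2 ⟨hx'.1, hx'.2, fun hh => hnot x hx hh⟩
    have h3 := Finset.card_le_card h1
    have h4 := Finset.card_le_card h2
    have h5 := hL.card_lobeW h hst
    have h6 := hL'.card_lobeW h hst
    omega

/-- UNIQUENESS 2: the only tight set disjoint from `D₀` is `T`.

Proof. `D₀` is connected in `W \ S`, so `D₀ ⊆ M`, `M ∈ comps B (W \ S)` (`exists_comp_sup`). `W \ M` is a side contained in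
`W \ D₀`, so `W \ M = W \ D₀` and `M = D₀` (both are contained in `W`). By `Lobe.exists_lobe_sub` there is a lobe `T' ⊆ S`
with component `D₀`, `T' = T` by `Lobe.unique`, so `T ⊆ S`. If `S` had an element `w` outside `T`, it is in `lobeW`
(`S ⊆ W \ D₀`), it has a neighbour in `T ⊆ S` (`exists_adj_of_comp` for the component `{w}` of `W \ T`):
against `Tight.indep`. -/
theorem Lobe.eq_of_disjoint {W : Finset α} {B : Finset α → Prop} (h : ClV W B B)
    (hst : Stuck W B) {T D₀ S : Finset α} (hL : Lobe W B T D₀) (hS : Tight W B B S)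
    (hd : Disjoint S D₀) : S = T := by
  have hD0 := (mem_comps_iff B (W \ T) D₀).1 hL.comp
  have hD0W : D₀ ⊆ W := fun x hx => (Finset.mem_sdiff.1 (hD0.2.1.1 hx)).1
  obtain ⟨M, hM, hDM⟩ := exists_comp_sup (R' := W \ S) hL.comp (fun x hx =>
    Finset.mem_sdiff.2 ⟨hD0W hx, fun hh => Finset.disjoint_left.1 hd hh hx⟩)
  have hMW : M ⊆ W := fun x hx =>
    (Finset.mem_sdiff.1 (((mem_comps_iff B (W \ S) M).1 hM).2.1.1 hx)).1
  have heq := hL.minSide _ (hS.isSide hM)
    (Finset.sdiff_subset_sdiff (Finset.Subset.refl W) hDM)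
  have hMD : M = D₀ := by
    rw [← Finset.sdiff_sdiff_eq_self hMW, heq, Finset.sdiff_sdiff_eq_self hD0W]
  rw [hMD] at hM
  obtain ⟨T', hT'S, hL'⟩ := hL.exists_lobe_sub hS hM
  have hTT' : T = T' := hL.unique h hst hL'
  have hTS : T ⊆ S := by
    rw [hTT']
    exact hT'S
  refine Finset.Subset.antisymm ?_ hTS
  intro w hw
  by_contra hwT
  have hwl : w ∈ lobeW W T D₀ := mem_lobeW.2 ⟨hS.1 hw,
    fun hh => Finset.disjoint_left.1 hd hw hh, hwT⟩
  obtain ⟨t, ht, hA⟩ := hL.exists_nbrT h hst hwl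
  exact hS.indep h hw (hTS ht) hA

/-- `lobeW` is nonempty. -/
theorem Lobe.lobeW_nonempty {W : Finset α} {B : Finset α → Prop} (h : ClV W B B)
    (hst : Stuck W B) {T D₀ : Finset α} (hL : Lobe W B T D₀) : (lobeW W T D₀).Nonempty := by
  rw [← Finset.card_pos]
  have h1 := hL.card_lobeW h hst
  have h2 := hL.tight.2.1
  omega

end Pool.Agent.DK
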