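import Mathlib
import Pool.Agent.Lib_MP_6f255c_dk.VDefs
import Pool.Agent.Lib_MP_6f255c_dk.Crossing

/-!
# Tools for Theorem D: connected sides, adding a set behind two attachments, traces of nodes

* `ClV.side_connected`: `T` tight, `D` a component of `W \ T`: then `W \ D` is connected.
* `c_add_le`: adding a set `A ⊆ X` where `X` has its outer neighbours in `{t} ∪ Q`.
* `ClV.node_sdiff_ge`: a node `N = F' ∩ B₀` (of `F'` crossing the tight set `F₀`) minus any union of
  such sets `X t` still has `c ≥ card`.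
-/

set_option autoImplicit false

namespace Pool.Agent.DK

open Classical

variable {α : Type*}

/-- closed sets: complements. -/
theorem closedIn_sdiff {G : Finset α → Prop} {R X : Finset α} (hX : ClosedIn G R X) :
    ClosedIn G R (R \ X) := by
  refine ⟨Finset.sdiff_subset, ?_⟩
  intro u hu v hv huv
  rw [Finset.mem_sdiff] at hu ⊢
  exact ⟨hv, fun hvX => hu.2 (hX.2 v hvX u hu.1 (adj_symm huv))⟩

theorem closedIn_of_mem_comps {G : Finset α → Prop} {R D : Finset α} (hD : D ∈ comps G R) :
    ClosedIn G R D := ((mem_comps_iff G R D).1 hD).2.1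

theorem subset_of_mem_comps {G : Finset α → Prop} {R D : Finset α} (hD : D ∈ comps G R) :
    D ⊆ R := (closedIn_of_mem_comps hD).1

theorem nonempty_of_mem_comps {G : Finset α → Prop} {R D : Finset α} (hD : D ∈ comps G R) :
    D.Nonempty := ((mem_comps_iff G R D).1 hD).1

/-- components with a common vertex are equal. -/
theorem comps_eq_of_mem {G : Finset α → Prop} {R D D' : Finset α} (hD : D ∈ comps G R)
    (hD' : D' ∈ comps G R) {v : α} (hv : v ∈ D) (hv' : v ∈ D') : D = D' := by
  by_contra hne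
  exact Finset.disjoint_left.1 (comps_disjoint G R hD hD' hne) hv hv'

/-- disjoint closed sets and one vertex outside: one more component. -/
theorem card_add_one_le_comps {G : Finset α → Prop} {R : Finset α} (M : Finset (Finset α))
    (hM : ∀ X ∈ M, X.Nonempty ∧ ClosedIn G R X)
    (hd : (M : Set (Finset α)).PairwiseDisjoint id) {v : α} (hv : v ∈ R)
    (hvM : ∀ X ∈ M, v ∉ X) : M.card + 1 ≤ (comps G R).card := by
  obtain ⟨D, hD, hvD⟩ := exists_comp G R hv
  have hdis : ∀ X ∈ M, Disjoint X D := by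
    intro X hX
    rw [Finset.disjoint_left]
    intro x hxX hxD
    exact hvM X hX (comp_subset_of_closed G R X (hM X hX).2 hD hxD hxX hvD)
  have hDM : D ∉ M := fun h => hvM D h hvD
  rw [← Finset.card_insert_of_notMem hDM]
  refine card_le_comps G R (insert D M) ?_ ?_
  · intro X hX
    rcases Finset.mem_insert.1 hX with rfl | hX
    · exact ⟨nonempty_of_mem_comps hD, closedIn_of_mem_comps hD⟩
    · exact hM X hX
  · intro X hX Y hY hne
    rw [Finset.mem_coe, Finset.mem_insert] at hX hY
    rcases hX with rfl | hX <;> rcases hY with rfl | hY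
    · exact absurd rfl hne
    · exact (hdis Y hY).symm
    · exact hdis X hX
    · exact hd hX hY hne

/-- a set with at most one component, inside `R`, is contained in one component of `R`. -/
theorem exists_comp_of_connected {G : Finset α → Prop} {R Q : Finset α} (hQR : Q ⊆ R)
    (hne : Q.Nonempty) (hQ : (comps G Q).card ≤ 1) : ∃ D ∈ comps G R, Q ⊆ D := by
  obtain ⟨v, hv⟩ := hne
  obtain ⟨D, hD, hvD⟩ := exists_comp G R (hQR hv)
  refine ⟨D, hD, ?_⟩
  have hcl : ClosedIn G Q (Q ∩ D) := by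
    refine ⟨Finset.inter_subset_left, ?_⟩
    intro u hu w hw huw
    rw [Finset.mem_inter] at hu ⊢
    exact ⟨hw, (closedIn_of_mem_comps hD).2 u hu.2 w (hQR hw) huw⟩
  by_contra hnot
  obtain ⟨w, hwQ, hwD⟩ := Finset.not_subset.1 hnot
  have h2 := card_add_one_le_comps (G := G) (R := Q) {Q ∩ D}
    (by
      intro X hX
      rw [Finset.mem_singleton] at hX
      subst hX
      exact ⟨⟨v, Finset.mem_inter.2 ⟨hv, hvD⟩⟩, hcl⟩)
    (by simp) hwQ
    (by
      intro X hX
      rw [Finset.mem_singleton] at hX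
      subst hX
      exact fun h => hwD (Finset.mem_inter.1 h).2)
  rw [Finset.card_singleton] at h2
  omega

/-- **Sides are connected**: `T` tight, `D` a component of `W \ T`, then `W \ D` is connected. -/
theorem ClV.side_connected {W : Finset α} {G B : Finset α → Prop} (h : ClV W G B)
    {T D : Finset α} (hT : Tight W G B T) (hD : D ∈ comps G (W \ T)) :
    (comps G (W \ D)).card ≤ 1 := by
  have hDcl := closedIn_of_mem_comps hD
  have hDne := nonempty_of_mem_comps hD
  have hDW : D ⊆ W := hDcl.1.trans Finset.sdiff_subset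
  have hTD : T ⊆ W \ D := by
    intro t ht
    rw [Finset.mem_sdiff]
    exact ⟨hT.1 ht, fun htD => (Finset.mem_sdiff.1 (hDcl.1 htD)).2 ht⟩
  -- the key estimate for a closed subset of the side
  have key : ∀ P : Finset α, ClosedIn G (W \ D) P → P.Nonempty →
      ((comps G (W \ T)).filter (fun K => K ⊆ P)).card + 1 ≤ (T ∩ P).card := by
    intro P hP hPne
    have hPW : P ⊆ W := hP.1.trans Finset.sdiff_subset
    have hPD : ∀ v ∈ P, v ∉ D := fun v hv => (Finset.mem_sdiff.1 (hP.1 hv)).2
    -- `T ∩ P` is nonempty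
    have hTP : (T ∩ P).Nonempty := by
      by_contra hemp
      rw [Finset.not_nonempty_iff_eq_empty] at hemp
      have hnT : ∀ v ∈ P, v ∉ T := fun v hv hvT => by
        have : v ∈ T ∩ P := Finset.mem_inter.2 ⟨hvT, hv⟩
        rw [hemp] at this
        simp at this
      have hPcl : ClosedIn G W P := by
        refine ⟨hPW, ?_⟩
        intro u hu v hv huv
        by_cases hvD : v ∈ D
        · exfalso
          exact hPD u hu (hDcl.2 v hvD u (Finset.mem_sdiff.2 ⟨hPW hu, hnT u hu⟩) (adj_symm huv))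
        · exact hP.2 u hu v (Finset.mem_sdiff.2 ⟨hv, hvD⟩) huv
      obtain ⟨d, hd⟩ := hDne
      have h2 := card_add_one_le_comps (G := G) (R := W) {P}
        (by
          intro X hX
          rw [Finset.mem_singleton] at hX
          subst hX
          exact ⟨hPne, hPcl⟩)
        (by simp) (hDW hd)
        (by
          intro X hX
          rw [Finset.mem_singleton] at hX
          subst hX
          exact fun h => hPD d h hd)
      rw [Finset.card_singleton] at h2
      have := h.conn
      omega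
    have hv2 := h.v2 (T ∩ P) (Finset.inter_subset_left.trans hT.1) hTP
      (h.not_bad_of_subset Finset.inter_subset_left hT.2.2.1)
    refine le_trans ?_ hv2
    obtain ⟨d, hd⟩ := hDne
    refine card_add_one_le_comps (G := G) (R := W \ (T ∩ P)) _ ?_ ?_ (v := d) ?_ ?_
    · intro K hK
      rw [Finset.mem_filter] at hK
      have hKcl := closedIn_of_mem_comps hK.1
      refine ⟨nonempty_of_mem_comps hK.1, ?_, ?_⟩
      · intro x hx
        rw [Finset.mem_sdiff]
        exact ⟨(Finset.mem_sdiff.1 (hKcl.1 hx)).1, fun hx' =>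
          (Finset.mem_sdiff.1 (hKcl.1 hx)).2 (Finset.mem_inter.1 hx').1⟩
      · intro u hu v hv huv
        rw [Finset.mem_sdiff, Finset.mem_inter] at hv
        by_cases hvT : v ∈ T
        · exfalso
          exact hv.2 ⟨hvT, hP.2 u (hK.2 hu) v (hTD hvT) huv⟩
        · exact hKcl.2 u hu v (Finset.mem_sdiff.2 ⟨hv.1, hvT⟩) huv
    · intro X hX Y hY hne
      rw [Finset.mem_coe, Finset.mem_filter] at hX hY
      exact comps_disjoint G _ hX.1 hY.1 hne
    · rw [Finset.mem_sdiff]
      exact ⟨hDW hd, fun hd' => hPD d (Finset.mem_inter.1 hd').2 hd⟩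
    · intro X hX hdX
      rw [Finset.mem_filter] at hX
      exact hPD d (hX.2 hdX) hd
  by_contra hlt
  obtain ⟨P, hP, P', hP', hPP'⟩ := Finset.one_lt_card.1 (by omega : 1 < (comps G (W \ D)).card)
  have hPcl := closedIn_of_mem_comps hP
  have hPcl' := closedIn_sdiff hPcl
  have hdis := comps_disjoint G _ hP hP' hPP'
  obtain ⟨x', hx'⟩ := nonempty_of_mem_comps hP'
  have hx'2 : x' ∈ (W \ D) \ P := Finset.mem_sdiff.2
    ⟨subset_of_mem_comps hP' hx', fun h => Finset.disjoint_left.1 hdis h hx'⟩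
  have e1 := key P hPcl (nonempty_of_mem_comps hP)
  have e2 := key ((W \ D) \ P) hPcl' ⟨x', hx'2⟩
  have e3 : (T ∩ P).card + (T ∩ ((W \ D) \ P)).card = T.card := by
    rw [← Finset.card_union_of_disjoint]
    · congr 1
      ext t
      simp only [Finset.mem_union, Finset.mem_inter]
      constructor
      · rintro (⟨ht, _⟩ | ⟨ht, _⟩) <;> exact ht
      · intro ht
        by_cases htP : t ∈ P
        · exact Or.inl ⟨ht, htP⟩
        · exact Or.inr ⟨ht, Finset.mem_sdiff.2 ⟨hTD ht, htP⟩⟩
    · rw [Finset.disjoint_left]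
      intro t ht ht'
      exact (Finset.mem_sdiff.1 (Finset.mem_inter.1 ht').2).2 (Finset.mem_inter.1 ht).2
  -- every component of `W \ T` is `D` or in one of the two parts
  have hsub : comps G (W \ T) ⊆ insert D (((comps G (W \ T)).filter (fun K => K ⊆ P)) ∪
      ((comps G (W \ T)).filter (fun K => K ⊆ (W \ D) \ P))) := by
    intro K hK
    rw [Finset.mem_insert, Finset.mem_union, Finset.mem_filter, Finset.mem_filter]
    by_cases hKD : K = D
    · exact Or.inl hKD
    · right
      have hKdis := comps_disjoint G _ hK hD hKD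
      have hKsub : K ⊆ W \ D := by
        intro x hx
        rw [Finset.mem_sdiff]
        exact ⟨(Finset.mem_sdiff.1 (subset_of_mem_comps hK hx)).1,
          Finset.disjoint_left.1 hKdis hx⟩
      by_cases hKP : ∃ x ∈ K, x ∈ P
      · left
        obtain ⟨x, hxK, hxP⟩ := hKP
        refine ⟨hK, ?_⟩
        have hcl : ClosedIn G (W \ T) (P \ T) := by
          refine ⟨?_, ?_⟩
          · intro y hy
            rw [Finset.mem_sdiff] at hy ⊢
            exact ⟨(Finset.mem_sdiff.1 (hPcl.1 hy.1)).1, hy.2⟩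
          · intro u hu v hv huv
            rw [Finset.mem_sdiff] at hu hv ⊢
            by_cases hvD : v ∈ D
            · exfalso
              have : u ∈ D := hDcl.2 v hvD u
                (Finset.mem_sdiff.2 ⟨(Finset.mem_sdiff.1 (hPcl.1 hu.1)).1, hu.2⟩) (adj_symm huv)
              exact (Finset.mem_sdiff.1 (hPcl.1 hu.1)).2 this
            · exact ⟨hPcl.2 u hu.1 v (Finset.mem_sdiff.2 ⟨hv.1, hvD⟩) huv, hv.2⟩
        exact (comp_subset_of_closed G _ _ hcl hK hxK
          (Finset.mem_sdiff.2 ⟨hxP, (Finset.mem_sdiff.1 (subset_of_mem_comps hK hxK)).2⟩)).trans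
          Finset.sdiff_subset
      · right
        push Not at hKP
        exact ⟨hK, fun x hx => Finset.mem_sdiff.2 ⟨hKsub hx, hKP x hx⟩⟩
  have e4 := Finset.card_le_card hsub
  have e5 := Finset.card_insert_le D (((comps G (W \ T)).filter (fun K => K ⊆ P)) ∪
      ((comps G (W \ T)).filter (fun K => K ⊆ (W \ D) \ P)))
  have e6 := Finset.card_union_le ((comps G (W \ T)).filter (fun K => K ⊆ P))
      ((comps G (W \ T)).filter (fun K => K ⊆ (W \ D) \ P))
  have e7 := hT.2.2.2
  unfold c at e7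
  omega

/-- **Adding a set.**  `X` has its outer neighbours in `{t} ∪ Q`, `Q` is connected, `S` is disjoint from
`X` and `Q`.  Then adding `A ⊆ X` to `S` creates at most `|A|` new components. -/
theorem c_add_le {W : Finset α} {G : Finset α → Prop} {X Q S A : Finset α} {t : α}
    (hXW : X ⊆ W) (hQW : Q ⊆ W) (hQne : Q.Nonempty) (hQ : (comps G Q).card ≤ 1)
    (hXQ : Disjoint X Q) (htX : t ∉ X)
    (hN : ∀ u ∈ X, ∀ v ∈ W, Adj G u v → v ∈ X ∨ v = t ∨ v ∈ Q)
    (hSX : Disjoint S X) (hSQ : Disjoint S Q) (hA : A ⊆ X)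
    (h1 : A.Nonempty → t ∉ S → c W G A ≤ A.card)
    (h2 : A.Nonempty → t ∈ S → c W G (insert t A) ≤ A.card + 1) :
    c W G (S ∪ A) ≤ c W G S + A.card := by
  rcases A.eq_empty_or_nonempty with rfl | hAne
  · simp
  have hXQ' := Finset.disjoint_left.1 hXQ
  have hSX' := Finset.disjoint_left.1 hSX
  have hSQ' := Finset.disjoint_left.1 hSQ
  obtain ⟨q₀, hq₀⟩ := hQne
  set R' := W \ (S ∪ A) with hR'
  have hmemR' : ∀ v, v ∈ R' ↔ v ∈ W ∧ v ∉ S ∧ v ∉ A := by
    intro v
    rw [hR', Finset.mem_sdiff, Finset.mem_union, not_or]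
  have hQR' : Q ⊆ R' := by
    intro q hq
    rw [hmemR']
    exact ⟨hQW hq, fun h => hSQ' h hq, fun h => hXQ' (hA h) hq⟩
  obtain ⟨DQ, hDQ, hQDQ⟩ := exists_comp_of_connected hQR' ⟨q₀, hq₀⟩ hQ
  -- `M` : components inside `X`
  set M := (comps G R').filter (fun K => K ⊆ X) with hM
  set O := (comps G R').filter (fun K => ¬ K ⊆ X) with hO
  have hMO : c W G (S ∪ A) = M.card + O.card := by
    unfold c
    rw [← hR', hM, hO]
    exact (Finset.card_filter_add_card_filter_not _).symm
  -- components in `M` are closed in every set avoiding `t` or containing neither...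
  have hMcl : ∀ K ∈ M, ∀ u ∈ K, ∀ v ∈ W, v ∉ A → Adj G u v → v ∈ K ∨ (v = t ∧ t ∈ S) := by
    intro K hK u hu v hv hvA huv
    rw [hM, Finset.mem_filter] at hK
    have hKcl := closedIn_of_mem_comps hK.1
    rcases hN u (hK.2 hu) v hv huv with hvX | rfl | hvQ
    · left
      exact hKcl.2 u hu v ((hmemR' v).2 ⟨hv, fun h => hSX' h hvX, hvA⟩) huv
    · by_cases hvS : v ∈ S
      · exact Or.inr ⟨rfl, hvS⟩
      · left
        exact hKcl.2 u hu v ((hmemR' v).2 ⟨hv, hvS, hvA⟩) huv
    · left
      exact hKcl.2 u hu v (hQR' hvQ) huv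
  have hMd : (M : Set (Finset α)).PairwiseDisjoint id := by
    intro K hK K' hK' hne
    rw [Finset.mem_coe, hM, Finset.mem_filter] at hK hK'
    exact comps_disjoint G _ hK.1 hK'.1 hne
  have hMq : ∀ K ∈ M, q₀ ∉ K := by
    intro K hK h
    rw [hM, Finset.mem_filter] at hK
    exact hXQ' (hK.2 h) hq₀
  have hMW : ∀ K ∈ M, ∀ v ∈ K, v ∈ W ∧ v ∉ S ∧ v ∉ A := by
    intro K hK v hv
    rw [hM, Finset.mem_filter] at hK
    exact (hmemR' v).1 (subset_of_mem_comps hK.1 hv)
  have hMne : ∀ K ∈ M, K.Nonempty := by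
    intro K hK
    rw [hM, Finset.mem_filter] at hK
    exact nonempty_of_mem_comps hK.1
  -- the bound for `M`
  have hMle : M.card + (if t ∈ S then 0 else 1) ≤ A.card := by
    split_ifs with htS
    · have hb := h2 hAne htS
      have h3 : M.card + 1 ≤ c W G (insert t A) := by
        refine card_add_one_le_comps M ?_ hMd (v := q₀) ?_ hMq
        · intro K hK
          refine ⟨hMne K hK, ?_, ?_⟩
          · intro v hv
            obtain ⟨hvW, hvS, hvA⟩ := hMW K hK v hv
            rw [Finset.mem_sdiff, Finset.mem_insert, not_or]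
            exact ⟨hvW, fun h => hvS (h ▸ htS), hvA⟩
          · intro u hu v hv huv
            rw [Finset.mem_sdiff, Finset.mem_insert, not_or] at hv
            rcases hMcl K hK u hu v hv.1 hv.2.2 huv with h | h
            · exact h
            · exact absurd h.1 hv.2.1
        · rw [Finset.mem_sdiff, Finset.mem_insert, not_or]
          exact ⟨hQW hq₀, fun h => hSQ' (h ▸ htS) hq₀, fun h => hXQ' (hA h) hq₀⟩
      omega
    · have hb := h1 hAne htS
      have h3 : M.card + 1 ≤ c W G A := by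
        refine card_add_one_le_comps M ?_ hMd (v := q₀) ?_ hMq
        · intro K hK
          refine ⟨hMne K hK, ?_, ?_⟩
          · intro v hv
            obtain ⟨hvW, hvS, hvA⟩ := hMW K hK v hv
            rw [Finset.mem_sdiff]
            exact ⟨hvW, hvA⟩
          · intro u hu v hv huv
            rw [Finset.mem_sdiff] at hv
            rcases hMcl K hK u hu v hv.1 hv.2 huv with h | h
            · exact h
            · exact absurd h.2 htS
        · rw [Finset.mem_sdiff]
          exact ⟨hQW hq₀, fun h => hXQ' (hA h) hq₀⟩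
      omega
  -- `E` : the component of `t` in `R'`, if `t ∈ R'`
  obtain ⟨E, hE1, hE2, hE3⟩ : ∃ E : Finset α, (t ∈ R' → t ∈ E) ∧ ClosedIn G R' E ∧
      (E = ∅ ∨ (E ∈ comps G R' ∧ t ∈ E)) := by
    by_cases ht : t ∈ R'
    · obtain ⟨E, hE, htE⟩ := exists_comp G R' ht
      exact ⟨E, fun _ => htE, closedIn_of_mem_comps hE, Or.inr ⟨hE, htE⟩⟩
    · exact ⟨∅, fun h => absurd h ht, ⟨by simp, by simp⟩, Or.inl rfl⟩
  have hOle : O.card ≤ (O.erase E).card + (if t ∈ S then 0 else 1) := by
    split_ifs with htS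
    · have : E ∉ O := by
        intro hEO
        rcases hE3 with rfl | ⟨hE4, htE⟩
        · rw [hO, Finset.mem_filter] at hEO
          exact (nonempty_of_mem_comps hEO.1).ne_empty rfl
        · exact ((hmemR' t).1 (hE2.1 htE)).2.1 htS
      rw [Finset.erase_eq_of_notMem this]
      omega
    · have := Finset.pred_card_le_card_erase (s := O) (a := E)
      omega
  -- facts about `K ∈ O.erase E`
  have hOc : ∀ K ∈ O.erase E, K ∈ comps G R' ∧ ¬ K ⊆ X ∧ t ∉ K := by
    intro K hK
    rw [Finset.mem_erase, hO, Finset.mem_filter] at hK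
    refine ⟨hK.2.1, hK.2.2, fun htK => hK.1 ?_⟩
    have htR' := subset_of_mem_comps hK.2.1 htK
    have htE := hE1 htR'
    rcases hE3 with h | ⟨hE4, _⟩
    · rw [h] at htE
      simp at htE
    · exact comps_eq_of_mem hK.2.1 hE4 htK htE
  have hdisE : ∀ K ∈ O.erase E, ∀ v ∈ K, v ∉ E := by
    intro K hK v hvK hvE
    obtain ⟨hKc, _, htK⟩ := hOc K hK
    rcases hE3 with h | ⟨hE4, htE⟩
    · rw [h] at hvE
      simp at hvE
    · have := comps_eq_of_mem hKc hE4 hvK hvE
      exact htK (this ▸ htE)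
  -- a component other than the one of `Q` is disjoint from `X` and closed in `W \ S`
  have hOX : ∀ K ∈ O.erase E, K ≠ DQ → ∀ v ∈ K, v ∉ X := by
    intro K hK hKQ
    obtain ⟨hKc, hKX, htK⟩ := hOc K hK
    have hcl : ClosedIn G R' (K ∩ X) := by
      refine ⟨Finset.inter_subset_left.trans (subset_of_mem_comps hKc), ?_⟩
      intro u hu v hv huv
      rw [Finset.mem_inter] at hu ⊢
      have hvK := (closedIn_of_mem_comps hKc).2 u hu.1 v hv huv
      refine ⟨hvK, ?_⟩
      rcases hN u hu.2 v ((hmemR' v).1 hv).1 huv with h | rfl | hvQ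
      · exact h
      · exact absurd hvK htK
      · exact absurd (comps_eq_of_mem hKc hDQ hvK (hQDQ hvQ)) hKQ
    intro v hvK hvX
    have := ((mem_comps_iff G R' K).1 hKc).2.2 (K ∩ X) Finset.inter_subset_left
      ⟨v, Finset.mem_inter.2 ⟨hvK, hvX⟩⟩ hcl
    exact hKX (Finset.inter_eq_left.1 this)
  have hclS : ∀ K ∈ O.erase E, K ≠ DQ → ClosedIn G (W \ S) K := by
    intro K hK hKQ
    obtain ⟨hKc, hKX, htK⟩ := hOc K hK
    refine ⟨?_, ?_⟩
    · intro v hv
      have := (hmemR' v).1 (subset_of_mem_comps hKc hv)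
      exact Finset.mem_sdiff.2 ⟨this.1, this.2.1⟩
    · intro u hu v hv huv
      rw [Finset.mem_sdiff] at hv
      have huW := ((hmemR' u).1 (subset_of_mem_comps hKc hu)).1
      have hvA : v ∉ A := by
        intro hvA
        rcases hN v (hA hvA) u huW (adj_symm huv) with h | h | h
        · exact hOX K hK hKQ u hu h
        · exact htK (h ▸ hu)
        · exact hKQ (comps_eq_of_mem hKc hDQ hu (hQDQ h))
      exact (closedIn_of_mem_comps hKc).2 u hu v ((hmemR' v).2 ⟨hv.1, hv.2, hvA⟩) huv
  have hclQ : ClosedIn G (W \ S) (DQ ∪ (X ∪ E)) := by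
    refine ⟨?_, ?_⟩
    · intro v hv
      rw [Finset.mem_union, Finset.mem_union] at hv
      rw [Finset.mem_sdiff]
      rcases hv with hv | hv | hv
      · have := (hmemR' v).1 (subset_of_mem_comps hDQ hv)
        exact ⟨this.1, this.2.1⟩
      · exact ⟨hXW hv, fun h => hSX' h hv⟩
      · have := (hmemR' v).1 (hE2.1 hv)
        exact ⟨this.1, this.2.1⟩
    · intro u hu v hv huv
      rw [Finset.mem_union, Finset.mem_union] at hu ⊢
      rw [Finset.mem_sdiff] at hv
      by_cases hvX : v ∈ X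
      · exact Or.inr (Or.inl hvX)
      have hvR' : v ∈ R' := (hmemR' v).2 ⟨hv.1, hv.2, fun h => hvX (hA h)⟩
      rcases hu with hu | hu | hu
      · exact Or.inl ((closedIn_of_mem_comps hDQ).2 u hu v hvR' huv)
      · rcases hN u hu v hv.1 huv with h | rfl | h
        · exact absurd h hvX
        · exact Or.inr (Or.inr (hE1 hvR'))
        · exact Or.inl (hQDQ h)
      · exact Or.inr (Or.inr (hE2.2 u hu v hvR' huv))
  -- the injection
  have hOinj : (O.erase E).card ≤ c W G S := by
    set f : Finset α → Finset α := fun K => if K = DQ then DQ ∪ (X ∪ E) else K with hf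
    have hfd : ∀ K ∈ O.erase E, ∀ K' ∈ O.erase E, K ≠ K' → Disjoint (f K) (f K') := by
      have haux : ∀ K' ∈ O.erase E, K' ≠ DQ → Disjoint (DQ ∪ (X ∪ E)) K' := by
        intro K' hK' hne
        rw [Finset.disjoint_left]
        intro v hv hvK'
        rw [Finset.mem_union, Finset.mem_union] at hv
        rcases hv with hv | hv | hv
        · exact hne (comps_eq_of_mem (hOc K' hK').1 hDQ hvK' hv)
        · exact hOX K' hK' hne v hvK' hv
        · exact hdisE K' hK' v hvK' hv
      intro K hK K' hK' hne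
      rw [hf]
      dsimp only
      split_ifs with e1 e2 e2
      · exact absurd (e1.trans e2.symm) hne
      · exact haux K' hK' e2
      · exact (haux K hK e1).symm
      · exact comps_disjoint G R' (hOc K hK).1 (hOc K' hK').1 hne
    have hfne : ∀ K ∈ O.erase E, (f K).Nonempty := by
      intro K hK
      rw [hf]
      dsimp only
      split_ifs with e1
      · exact (nonempty_of_mem_comps hDQ).mono Finset.subset_union_left
      · exact nonempty_of_mem_comps (hOc K hK).1
    have hinj : Set.InjOn f (O.erase E) := by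
      intro K hK K' hK' hff
      by_contra hne
      have hdd := hfd K (Finset.mem_coe.1 hK) K' (Finset.mem_coe.1 hK') hne
      rw [hff, disjoint_self] at hdd
      exact (hfne K' (Finset.mem_coe.1 hK')).ne_empty hdd
    rw [← Finset.card_image_of_injOn hinj]
    unfold c
    refine card_le_comps G (W \ S) _ ?_ ?_
    · intro Y hY
      obtain ⟨K, hK, rfl⟩ := Finset.mem_image.1 hY
      refine ⟨hfne K hK, ?_⟩
      rw [hf]
      dsimp only
      split_ifs with e1
      · exact hclQ
      · exact hclS K hK e1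
    · intro Y hY Y' hY' hne
      rw [Finset.mem_coe] at hY hY'
      obtain ⟨K, hK, rfl⟩ := Finset.mem_image.1 hY
      obtain ⟨K', hK', rfl⟩ := Finset.mem_image.1 hY'
      exact hfd K hK K' hK' (fun h => hne (by rw [h]))
  rw [hMO]
  split_ifs at hMle hOle <;> omega

/-- two components met, from `¬ NC`. -/
theorem exists_two_of_not_NC {W : Finset α} {G : Finset α → Prop} {K K' : Finset α}
    (hK' : K' ⊆ W) (hne : K'.Nonempty) (hd : Disjoint K' K) (h : ¬ NC W G K K') :
    ∃ D₁ ∈ comps G (W \ K), ∃ D₂ ∈ comps G (W \ K), D₁ ≠ D₂ ∧ (K' ∩ D₁).Nonempty ∧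
      (K' ∩ D₂).Nonempty := by
  obtain ⟨v, hv⟩ := hne
  have hmem : ∀ w ∈ K', w ∈ W \ K := fun w hw =>
    Finset.mem_sdiff.2 ⟨hK' hw, Finset.disjoint_left.1 hd hw⟩
  obtain ⟨D₁, hD₁, hvD⟩ := exists_comp G (W \ K) (hmem v hv)
  have hnot : ¬ K' ⊆ D₁ := fun hs => h ⟨D₁, hD₁, hs⟩
  obtain ⟨w, hw, hwD⟩ := Finset.not_subset.1 hnot
  obtain ⟨D₂, hD₂, hwD₂⟩ := exists_comp G (W \ K) (hmem w hw)
  exact ⟨D₁, hD₁, D₂, hD₂, fun h => hwD (h ▸ hwD₂), ⟨v, Finset.mem_inter.2 ⟨hv, hvD⟩⟩,
    ⟨w, Finset.mem_inter.2 ⟨hw, hwD₂⟩⟩⟩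

/-- the crossing lemma G10 for a tight set `T` and a minimal bad non-edge `F` separated by it. -/
theorem ClV.crossing {W : Finset α} {G B : Finset α → Prop} (h : ClV W G B)
    {T F : Finset α} (hT : Tight W G B T) (hF : MB W G B F) (hd : Disjoint F T)
    (hnc : ¬ NC W G T F) :
    c W G F = F.card ∧ c W G T = T.card ∧
    ((comps G (W \ T)).filter (fun D => (F ∩ D).Nonempty)).card =
      ((comps G (W \ F)).filter (fun D => (T ∩ D).Nonempty)).card ∧
    2 ≤ ((comps G (W \ F)).filter (fun D => (T ∩ D).Nonempty)).card ∧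
    (∀ D ∈ comps G (W \ T), (F ∩ D).Nonempty → c W G (F ∩ D) = (F ∩ D).card ∧
      ((comps G (W \ (F ∩ D))).filter (fun X => Disjoint X (F ∪ T))).card + 1 = (F ∩ D).card) ∧
    (∀ D ∈ comps G (W \ F), (T ∩ D).Nonempty → c W G (T ∩ D) = (T ∩ D).card ∧
      ((comps G (W \ (T ∩ D))).filter (fun X => Disjoint X (F ∪ T))).card + 1 =
        (T ∩ D).card) := by
  have cF := h.crit_of_minBad hF
  have cT := h.crit_of_tight hT
  obtain ⟨D₁, h₁, D₂, h₂, h₁₂, hm₁, hm₂⟩ := exists_two_of_not_NC cF.1 cF.2.1 hd hnc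
  exact Pool.Agent.DK.crossing W G F T h.conn (fun v hv => h.card_comps_sdiff_singleton hv)
    cF.1 cT.1 hd cF.2.2.1 cT.2.2.1 cF.2.2.2 cT.2.2.2 D₁ D₂ h₁ h₂ h₁₂ hm₁ hm₂

/-- a node minus attached parts: if `F'` crosses the tight set `F₀`, `B₀` is a component of `W \ F₀` met by
`F'`, `N = F' ∩ B₀`, and each `X t` (`t ∈ I`) is a subset of `B₀` with outer neighbours in `{t}` and outside
`B₀`, then `N \ ⋃ X t` still has `c ≥ card`. -/
theorem ClV.node_sdiff_ge {W : Finset α} {G B : Finset α → Prop} (h : ClV W G B)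
    {F₀ F' B₀ : Finset α} (hF₀ : Tight W G B F₀) (hF' : MB W G B F') (hd : Disjoint F' F₀)
    (hnc : ¬ NC W G F₀ F') (hB₀ : B₀ ∈ comps G (W \ F₀)) (hne : (F' ∩ B₀).Nonempty)
    (X : α → Finset α) (I : Finset α)
    (hX : ∀ t ∈ I, t ∉ X t ∧ X t ⊆ B₀ ∧
      ∀ u ∈ X t, ∀ v ∈ W, Adj G u v → v ∈ X t ∨ v = t ∨ v ∉ B₀) :
    ((F' ∩ B₀) \ I.biUnion X).card ≤ c W G ((F' ∩ B₀) \ I.biUnion X) := by
  have hcr := h.crossing hF₀ hF' hd hnc
  have hcN : c W G (F' ∩ B₀) = (F' ∩ B₀).card := (hcr.2.2.2.2.1 B₀ hB₀ hne).1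
  have hB₀W : B₀ ⊆ W := (subset_of_mem_comps hB₀).trans Finset.sdiff_subset
  -- subsets of the node are not bad
  have hNF : F' ∩ B₀ ⊂ F' := by
    refine (Finset.ssubset_iff_of_subset Finset.inter_subset_left).2 ?_
    have hnot : ¬ F' ⊆ B₀ := fun hs => hnc ⟨B₀, hB₀, hs⟩
    obtain ⟨w, hw, hwB⟩ := Finset.not_subset.1 hnot
    exact ⟨w, hw, fun h => hwB (Finset.mem_inter.1 h).2⟩
  have hv2 : ∀ S ⊆ F' ∩ B₀, S.Nonempty → c W G S ≤ S.card := by
    intro S hS hSne
    exact h.v2 S (hS.trans (Finset.inter_subset_right.trans hB₀W)) hSne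
      (hF'.1.2.2 S (Finset.ssubset_of_subset_of_ssubset hS hNF))
  have hQne : (W \ B₀).Nonempty := by
    obtain ⟨v, hv⟩ := hF₀.nonempty
    exact ⟨v, Finset.mem_sdiff.2 ⟨hF₀.1 hv, fun hvB =>
      (Finset.mem_sdiff.1 (subset_of_mem_comps hB₀ hvB)).2 hv⟩⟩
  have hQ := h.side_connected hF₀ hB₀
  induction I using Finset.induction_on with
  | empty => simp [hcN]
  | insert t I htI ih =>
    have hX' : ∀ t ∈ I, t ∉ X t ∧ X t ⊆ B₀ ∧
      ∀ u ∈ X t, ∀ v ∈ W, Adj G u v → v ∈ X t ∨ v = t ∨ v ∉ B₀ :=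
      fun s hs => hX s (Finset.mem_insert_of_mem hs)
    have ih' := ih hX'
    obtain ⟨htX, hXB, hN⟩ := hX t (Finset.mem_insert_self t I)
    set N := F' ∩ B₀ with hNdef
    set S₁ := N \ I.biUnion X with hS₁
    set S₂ := N \ (insert t I).biUnion X with hS₂
    have hS₁N : S₁ ⊆ N := Finset.sdiff_subset
    have hS₂eq : S₂ = S₁ \ X t := by
      rw [hS₂, hS₁, Finset.biUnion_insert]
      ext v
      simp only [Finset.mem_sdiff, Finset.mem_union, not_or]
      tauto
    have hun : S₁ = S₂ ∪ (S₁ ∩ X t) := by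
      rw [hS₂eq]
      ext v
      simp only [Finset.mem_union, Finset.mem_sdiff, Finset.mem_inter]
      tauto
    have hcard : S₁.card = S₂.card + (S₁ ∩ X t).card := by
      rw [hS₂eq]
      exact (Finset.card_sdiff_add_card_inter S₁ (X t)).symm
    have hadd : c W G (S₂ ∪ (S₁ ∩ X t)) ≤ c W G S₂ + (S₁ ∩ X t).card := by
      refine c_add_le (X := X t) (Q := W \ B₀) (t := t) (hXB.trans hB₀W) Finset.sdiff_subset
        hQne hQ ?_ htX ?_ ?_ ?_ Finset.inter_subset_right ?_ ?_
      · rw [Finset.disjoint_left]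
        intro v hv hv'
        exact (Finset.mem_sdiff.1 hv').2 (hXB hv)
      · intro u hu v hv huv
        rcases hN u hu v hv huv with h | h | h
        · exact Or.inl h
        · exact Or.inr (Or.inl h)
        · exact Or.inr (Or.inr (Finset.mem_sdiff.2 ⟨hv, h⟩))
      · rw [hS₂eq]
        exact Finset.sdiff_disjoint
      · rw [Finset.disjoint_left]
        intro v hv hv'
        have : v ∈ N := hS₁N (Finset.sdiff_subset (hS₂eq ▸ hv))
        exact (Finset.mem_sdiff.1 hv').2 (Finset.mem_inter.1 this).2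
      · intro hne' _
        exact hv2 _ (Finset.inter_subset_left.trans hS₁N) hne'
      · intro hne' htS
        have h1 := hv2 (insert t (S₁ ∩ X t)) ?_ (Finset.insert_nonempty _ _)
        · rw [Finset.card_insert_of_notMem
            (fun h => htX (Finset.mem_inter.1 h).2)] at h1
          exact h1
        · intro v hv
          rcases Finset.mem_insert.1 hv with rfl | hv
          · rw [hS₂eq] at htS
            exact hS₁N (Finset.mem_sdiff.1 htS).1
          · exact hS₁N (Finset.mem_inter.1 hv).1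
    rw [← hun] at hadd
    omega

end Pool.Agent.DK
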