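import Mathlib
import Pool.Agent.Lib_MP_6f255c_dk.TDAdd
import Pool.Agent.Lib_MP_6f255c_dk.TDLobe

/-!
# Theorem D: traces of an `F'` crossing `F ∩ D₀`

`L` a lobe `(T, D₀)`, `F` crosses `T`, `|F ∩ D₀| ≥ 2`, `F'` crosses `F ∩ D₀`, `Y t` the component of `W \ F`
containing `t ∈ T`.  For every `I ⊆ T` the set `(F' \ D₀) ∪ ⋃_{t ∈ I} (F' ∩ Y t)` has `c ≥ card`.
-/

set_option autoImplicit false

namespace Pool.Agent.DK

open Classical

variable {α : Type*}

/-- two vertices of `T` in the same component of `W \ F` are equal (single nodes). -/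
theorem Lobe.eq_of_mem_comp {W : Finset α} {B : Finset α → Prop} (h : ClV W B B)
    {T D₀ : Finset α} (hL : Lobe W B T D₀) {F : Finset α} (hc : Crosses W B F T) {K : Finset α}
    (hK : K ∈ comps B (W \ F)) {s t : α} (hs : s ∈ T) (ht : t ∈ T) (hsK : s ∈ K)
    (htK : t ∈ K) : s = t := by
  have h1 := hL.nodes_single h hc K hK
  exact Finset.card_le_one.1 h1 s (Finset.mem_inter.2 ⟨hs, hsK⟩) t (Finset.mem_inter.2 ⟨ht, htK⟩)

/-- structure of the component `Bc ⊇ W \ D₀` of `W \ (F ∩ D₀)`: the component `Y` of `W \ F` containing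
`t ∈ T` is contained in `Bc`, and the neighbours of `Y \ {t}` are in `Y` or outside `Bc`. -/
theorem Lobe.Y_sub {W : Finset α} {B : Finset α → Prop} (h : ClV W B B) (hst : Stuck W B)
    {T D₀ : Finset α} (hL : Lobe W B T D₀) {F : Finset α} (hc : Crosses W B F T)
    {Bc : Finset α} (hBc : Bc ∈ comps B (W \ (F ∩ D₀))) (hLB : W \ D₀ ⊆ Bc) {t : α}
    (ht : t ∈ T) {Y : Finset α} (hY : Y ∈ comps B (W \ F)) (htY : t ∈ Y) :
    Y ⊆ Bc ∧ ∀ u ∈ Y, u ≠ t → ∀ v ∈ W, Adj B u v → v ∈ Y ∨ v ∉ Bc := by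
  have hTD : ∀ s ∈ T, s ∉ D₀ := fun s hs hsD =>
    (Finset.mem_sdiff.1 (subset_of_mem_comps hL.comp hsD)).2 hs
  have hF := hL.of_crosses h hst hc
  refine ⟨?_, ?_⟩
  · have hcl : ClosedIn B (W \ F) (Bc \ F) := by
      refine ⟨?_, ?_⟩
      · intro v hv
        rw [Finset.mem_sdiff] at hv ⊢
        exact ⟨(Finset.mem_sdiff.1 (subset_of_mem_comps hBc hv.1)).1, hv.2⟩
      · intro u hu v hv huv
        rw [Finset.mem_sdiff] at hu hv ⊢
        exact ⟨(closedIn_of_mem_comps hBc).2 u hu.1 v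
          (Finset.mem_sdiff.2 ⟨hv.1, fun h => hv.2 (Finset.mem_inter.1 h).1⟩) huv, hv.2⟩
    exact (comp_subset_of_closed B _ _ hcl hY htY (Finset.mem_sdiff.2
      ⟨hLB (Finset.mem_sdiff.2 ⟨hL.tight.1 ht, hTD t ht⟩),
        (Finset.mem_sdiff.1 (subset_of_mem_comps hY htY)).2⟩)).trans Finset.sdiff_subset
  · intro u hu hut v hv huv
    by_cases hvF : v ∈ F
    · right
      intro hvB
      have hv1 : v ∉ D₀ := fun hvD =>
        (Finset.mem_sdiff.1 (subset_of_mem_comps hBc hvB)).2 (Finset.mem_inter.2 ⟨hvF, hvD⟩)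
      have hvT : v ∉ T := fun hvT => Finset.disjoint_left.1 hc.disj hvF hvT
      have hvW : v ∈ lobeW W T D₀ := mem_lobeW.2 ⟨hv, hv1, hvT⟩
      have huW : u ∈ W := (Finset.mem_sdiff.1 (subset_of_mem_comps hY hu)).1
      have huT := hL.nbr_mem h hst hvW huW (adj_symm huv)
      exact hut (hL.eq_of_mem_comp h hc hY huT ht hu htY)
    · left
      exact (closedIn_of_mem_comps hY).2 u hu v (Finset.mem_sdiff.2 ⟨hv, hvF⟩) huv

/-- every component of `W \ F` meeting `Bc ∩ D₀` contains a vertex of `T`. -/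
theorem Lobe.exists_T_of_mem {W : Finset α} {B : Finset α → Prop} (h : ClV W B B)
    (hst : Stuck W B) {T D₀ : Finset α} (hL : Lobe W B T D₀) {F : Finset α}
    (hc : Crosses W B F T) {Bc : Finset α} (hBc : Bc ∈ comps B (W \ (F ∩ D₀)))
    (hLB : W \ D₀ ⊆ Bc) {K : Finset α} (hK : K ∈ comps B (W \ F)) {v : α} (hvK : v ∈ K)
    (hvB : v ∈ Bc) : ∃ t ∈ T, t ∈ K := by
  by_contra hno
  push Not at hno
  have hTD : ∀ s ∈ T, s ∉ D₀ := fun s hs hsD =>
    (Finset.mem_sdiff.1 (subset_of_mem_comps hL.comp hsD)).2 hs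
  have hKcl : ClosedIn B (W \ (F ∩ D₀)) K := by
    refine ⟨?_, ?_⟩
    · intro x hx
      have := Finset.mem_sdiff.1 (subset_of_mem_comps hK hx)
      exact Finset.mem_sdiff.2 ⟨this.1, fun h => this.2 (Finset.mem_inter.1 h).1⟩
    · intro x hx y hy hxy
      rw [Finset.mem_sdiff] at hy
      by_cases hyF : y ∈ F
      · exfalso
        have hy1 : y ∉ D₀ := fun hyD => hy.2 (Finset.mem_inter.2 ⟨hyF, hyD⟩)
        have hyT : y ∉ T := fun hyT => Finset.disjoint_left.1 hc.disj hyF hyT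
        have hyW : y ∈ lobeW W T D₀ := mem_lobeW.2 ⟨hy.1, hy1, hyT⟩
        have hxW : x ∈ W := (Finset.mem_sdiff.1 (subset_of_mem_comps hK hx)).1
        exact hno x (hL.nbr_mem h hst hyW hxW (adj_symm hxy)) hx
      · exact (closedIn_of_mem_comps hK).2 x hx y (Finset.mem_sdiff.2 ⟨hy.1, hyF⟩) hxy
  have hsub : Bc ⊆ K := comp_subset_of_closed B _ _ hKcl hBc hvB hvK
  obtain ⟨t, ht⟩ := hL.tight.nonempty
  exact hno t ht (hsub (hLB (Finset.mem_sdiff.2 ⟨hL.tight.1 ht, hTD t ht⟩)))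

/-- **Lemma 1'** (trace inequality). -/
theorem Lobe.trace_ge {W : Finset α} {B : Finset α → Prop} (h : ClV W B B) (hst : Stuck W B)
    {T D₀ : Finset α} (hL : Lobe W B T D₀) {F F' : Finset α} (hc : Crosses W B F T)
    (h2 : 2 ≤ (F ∩ D₀).card) (hc' : Crosses W B F' (F ∩ D₀)) (Y : α → Finset α)
    (hY : ∀ t ∈ T, Y t ∈ comps B (W \ F) ∧ t ∈ Y t) (I : Finset α) (hI : I ⊆ T) :
    ((F' \ D₀) ∪ I.biUnion (fun t => F' ∩ Y t)).card ≤
      c W B ((F' \ D₀) ∪ I.biUnion (fun t => F' ∩ Y t)) := by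
  have hTD : ∀ s ∈ T, s ∉ D₀ := fun s hs hsD =>
    (Finset.mem_sdiff.1 (subset_of_mem_comps hL.comp hsD)).2 hs
  have hF₀ : Tight W B B (F ∩ D₀) := (hc.nodeF h hL.tight hL.comp h2).2.1
  obtain ⟨Bc, hBc, hLB⟩ := hL.lobe_in_comp h hst (S := F ∩ D₀) Finset.inter_subset_right
  have hF := hL.of_crosses h hst hc
  have hne : (F' ∩ Bc).Nonempty := by
    obtain ⟨v, hv⟩ := hc'.meet h hc.mb Finset.inter_subset_left
    rw [Finset.mem_inter] at hv
    refine ⟨v, Finset.mem_inter.2 ⟨hv.1, hLB (Finset.mem_sdiff.2 ⟨hc.mb.1.1 hv.2, ?_⟩)⟩⟩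
    intro hvD
    exact Finset.disjoint_left.1 hc'.disj hv.1 (Finset.mem_inter.2 ⟨hv.2, hvD⟩)
  have hkey : (F' ∩ Bc) \ (T \ I).biUnion (fun t => Y t \ {t}) =
      (F' \ D₀) ∪ I.biUnion (fun t => F' ∩ Y t) := by
    ext v
    simp only [Finset.mem_sdiff, Finset.mem_inter, Finset.mem_union, Finset.mem_biUnion,
      Finset.mem_singleton, not_exists, not_and, and_imp, not_not]
    constructor
    · rintro ⟨⟨hvF', hvB⟩, hvJ⟩
      by_cases hvD : v ∈ D₀
      · right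
        have hvF : v ∉ F := fun hvF =>
          Finset.disjoint_left.1 hc'.disj hvF' (Finset.mem_inter.2 ⟨hvF, hvD⟩)
        have hvW : v ∈ W := hc'.mb.1.1 hvF'
        obtain ⟨K, hK, hvK⟩ := exists_comp B (W \ F) (Finset.mem_sdiff.2 ⟨hvW, hvF⟩)
        obtain ⟨t, ht, htK⟩ := hL.exists_T_of_mem h hst hc hBc hLB hK hvK hvB
        have hKY : K = Y t := comps_eq_of_mem hK (hY t ht).1 htK (hY t ht).2
        refine ⟨t, ?_, hvF', hKY ▸ hvK⟩
        by_contra htI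
        have := hvJ t ht htI (hKY ▸ hvK)
        exact hTD t ht (this ▸ hvD)
      · exact Or.inl ⟨hvF', hvD⟩
    · rintro (⟨hvF', hvD⟩ | ⟨t, htI, hvF', hvY⟩)
      · refine ⟨⟨hvF', hLB (Finset.mem_sdiff.2 ⟨hc'.mb.1.1 hvF', hvD⟩)⟩, ?_⟩
        intro t ht _ hvY
        have hvWF := Finset.mem_sdiff.1 (subset_of_mem_comps (hY t ht).1 hvY)
        have hvT : v ∈ T := by
          by_contra hvT
          exact hvWF.2 (hF.1 (mem_lobeW.2 ⟨hvWF.1, hvD, hvT⟩))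
        exact hL.eq_of_mem_comp h hc (hY t ht).1 hvT ht hvY (hY t ht).2
      · have htT := hI htI
        refine ⟨⟨hvF', (hL.Y_sub h hst hc hBc hLB htT (hY t htT).1 (hY t htT).2).1 hvY⟩, ?_⟩
        intro s hs hsI hvYs
        have e1 : Y s = Y t := comps_eq_of_mem (hY s hs).1 (hY t htT).1 hvYs hvY
        have e2 : s = t := hL.eq_of_mem_comp h hc (hY t htT).1 hs htT (e1 ▸ (hY s hs).2)
          (hY t htT).2
        exact absurd (e2 ▸ htI) hsI
  rw [← hkey]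
  refine h.node_sdiff_ge hF₀ hc'.mb hc'.disj hc'.nTF hBc hne (fun t => Y t \ {t}) (T \ I) ?_
  intro t ht
  rw [Finset.mem_sdiff] at ht
  obtain ⟨h1, h3⟩ := hL.Y_sub h hst hc hBc hLB ht.1 (hY t ht.1).1 (hY t ht.1).2
  refine ⟨by simp, Finset.sdiff_subset.trans h1, ?_⟩
  intro u hu v hv huv
  rw [Finset.mem_sdiff, Finset.mem_singleton] at hu
  by_cases hvt : v = t
  · exact Or.inr (Or.inl hvt)
  · rcases h3 u hu.1 hu.2 v hv huv with h | h
    · exact Or.inl (Finset.mem_sdiff.2 ⟨h, by simpa using hvt⟩)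
    · exact Or.inr (Or.inr h)

end Pool.Agent.DK
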