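import Mathlib
import Pool.Agent.Lib_MP_6f255c_dk.TDLobe
import Pool.Agent.Lib_MP_6f255c_dk.TDTrace

/-!
# Theorem D, Lemma 1: if `|T| ≥ 3` then every `F` crossing `T` meets `D₀` in a single vertex
-/

set_option autoImplicit false

namespace Pool.Agent.DK

open Classical

variable {α : Type*}

/-- THE COUNT. `T, D₀` a lobe, `F` crosses `T`, `|F ∩ D₀| ≥ 2`, `F'` crosses `F₀ := F ∩ D₀`. Then
`S := F' \ D₀` satisfies `c(S) ≥ |S|`.

Proof. `F = lobeW ∪ F₀` (`Lobe.of_crosses`). `F₀` is tight by `Crosses.nodeF` (`D := D₀`). Let `Bc` be the component of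
`W \ F₀` containing the lobe `W \ D₀` (`Lobe.lobe_in_comp`). By `Crosses.meet` (`F₀ ⊆ F`) `F'` meets `F`, and
`F' ∩ F₀ = ∅`, so `F'` meets `lobeW ⊆ Bc`.
Let `N := F' ∩ Bc`, nonempty. If `|N| = 1`, `N = {w}`, `S ⊆ Bc` (`S ⊆ W \ D₀`) so `S = {w}` and `c(S) ≥ 1` trivially
(`D₀` is nonempty, so `W \ S` has a component). In general use `node_lemma` with `K := F'`, `K' := F₀`, `D := Bc`
(`h.crit_of_minBad`, `h.crit_of_tight`): `c(N) = |N|`, `M ⊇ F₀`, `W \ M ⊆ Bc`, `F' \ Bc ⊆ M`; let `PP := (comps B (W \ N)).erase M`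
(private components), `|PP| = |N| - 1`, each `X ∈ PP` is disjoint from `F₀` and from `F'`, and contained in `Bc`, and
NOT ADJACENT to `F₀` (a vertex of `F₀ ⊆ M` adjacent to `X` would make `X = M`). So all neighbours of `X ∈ PP` are in `X ∪ N`.
For `t ∈ T` let `Y t` be the component of `W \ F` containing `t` (`t ∉ F`); different `t` give different, disjoint
`Y t` (`Lobe.nodes_single`). Facts: (a) `Bc \ lobeW = ⋃_t Y t`; proof: `Y t ⊆ Bc`, since `Y t` is connected in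
`W \ F₀` and meets `W \ D₀ ⊆ Bc`. Conversely let `y ∈ Bc \ lobeW`; `y ∉ F₀`, so `y ∉ F`, `y ∈ Y`, `Y` a component of `W \ F`,
`Y ⊆ Bc`. If `Y` contained no vertex of `T`, no vertex of `Y` would be adjacent to `lobeW` (`Lobe.nbr_mem`), so `Y`
would be closed in `W \ F₀`, so `Y = Bc`; but `lobeW ⊆ Bc` is disjoint from `Y`. (b) `Y t \ {t} ⊆ D₀`: a vertex of the
lobe in `Y t` is in `T` (`lobeW ⊆ F`), so it is `t`. (c) Put `Nt := N ∩ Y t`. `N = (N ∩ lobeW) ∪ ⋃_t Nt`, disjoint,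
so `|N| = |N ∩ lobeW| + ∑_{t ∈ T} |Nt|`; `S = F' \ D₀ = (F' ∩ lobeW) ∪ (F' ∩ T)`, `|S| = |N ∩ lobeW| + |T ∩ F'|`.
Classify `X ∈ PP`:
 (A_t) `X ⊆ Y t \ {t}`;
 (B_t) `t ∈ X` and `t` has a neighbour in `D₀`;
 (C) `X` disjoint from `D₀` and `X ∈ comps B (W \ S)`.
Every `X` is of one of these types: if `X` is disjoint from the lobe then `X ⊆ Bc \ lobeW` is connected and disjoint
from `F = lobeW ∪ F₀`, so it lies in a component of `W \ F`, a `Y t` by (a), and `t ∉ X`. If `X` meets the lobe and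
some `t ∈ X ∩ T` has a neighbour in `D₀`: type (B_t). Otherwise no vertex of `X ∩ (W \ D₀)` has a neighbour in `D₀`
(vertices of `lobeW` never do), so `X` (connected) is disjoint from `D₀` and its neighbours are in `N \ D₀ ⊆ S`: `X` is
a component of `W \ S` (`S` is disjoint from `X`).
COUNT for fixed `t`: #(A_t) + #(B_t) ≤ |Nt| - [t ∈ F'] (in particular both are empty if `Nt = ∅`). Indeed:
 if `Nt = ∅`: an `X` of type (A_t) has all its neighbours in `Y t ∪ F₀ ∪ lobeW`, intersected with `X ∪ N`: not in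
 `lobeW` (`X ⊆ D₀`), not in `F₀`, not in `Nt = ∅`: so `X` is closed in `W`, `X = W`, impossible. If `X` is of type (B_t):
 the neighbour `y ∈ D₀` of `t` is not in `N` or it is in `F₀`... precisely: `y ∈ F₀` is impossible (`X` is not adjacent to `F₀`),
 so `y ∉ F`, `y ∈ Y t`, `Y t ∩ N = ∅`, so `Y t ⊆ X` (`Y t` is connected in `W \ N`). But `Y t` is adjacent to `F₀`: `D₀` is
 connected, contains `y ∈ Y t` and `F₀`, and `D₀ ∩ Y t` would be closed in `D₀` otherwise (a vertex of `D₀` adjacent to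
 `Y t` is in `Y t` or in `F ∩ D₀ = F₀`). Contradiction.
 If `Nt ≠ ∅` : the `X` of type (A_t) have all neighbours in `X ∪ Nt`, so they are components of `W \ Nt`
 (`mem_comps_of_subset` or directly), and `W \ Nt` has another component, that of a vertex of `F₀`
 (`F₀` is disjoint from all these `X`). `Nt ⊆ F'` is a proper subset of `F'` (`F'` meets `lobeW`), so `v2` gives
 #(A_t) + 1 ≤ |Nt|. Type (B_t): at most one `X` contains `t`, and none if `t ∈ F'` (then `t ∈ N`).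
TOTAL: |N| - 1 = |PP| ≤ #(C) + ∑_t (|Nt| - [t ∈ F']) = #(C) + |N| - |N ∩ lobeW| - |T ∩ F'| = #(C) + |N| - |S|,
so #(C) ≥ |S| - 1; together with the component of `W \ S` containing `D₀` (disjoint from the type (C) ones):
`c(S) ≥ |S|`. -/
theorem Lobe.count {W : Finset α} {B : Finset α → Prop} (h : ClV W B B) (hst : Stuck W B)
    {T D₀ : Finset α} (hL : Lobe W B T D₀) {F F' : Finset α} (hc : Crosses W B F T)
    (h2 : 2 ≤ (F ∩ D₀).card) (hc' : Crosses W B F' (F ∩ D₀)) :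
    (F' \ D₀).card ≤ c W B (F' \ D₀) := by
  have hTF : ∀ t ∈ T, ∃ Y ∈ comps B (W \ F), t ∈ Y := fun t ht =>
    exists_comp B (W \ F) (Finset.mem_sdiff.2 ⟨hL.tight.1 ht, fun hF =>
      Finset.disjoint_left.1 hc.disj hF ht⟩)
  choose! Y hY using hTF
  have h0 := hL.trace_ge h hst hc h2 hc' Y hY ∅ (by simp)
  simpa using h0

/-- `S := F' \ D₀` is a proper subset of `F'` (same notation).  `S ⊆ W \ D₀ ⊆ Bc`, and `F'` has a vertex outside
`Bc` (otherwise `NC W B F₀ F'`). -/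
theorem Lobe.count_ssubset {W : Finset α} {B : Finset α → Prop} (h : ClV W B B)
    (hst : Stuck W B) {T D₀ : Finset α} (hL : Lobe W B T D₀) {F F' : Finset α}
    (hc : Crosses W B F T) (h2 : 2 ≤ (F ∩ D₀).card) (hc' : Crosses W B F' (F ∩ D₀)) :
    F' \ D₀ ⊂ F' ∧ (F' ∩ lobeW W T D₀).Nonempty := by
  obtain ⟨hWF, _, hFeq⟩ := hL.of_crosses h hst hc
  constructor
  · refine Finset.ssubset_iff_subset_ne.2 ⟨Finset.sdiff_subset, fun he => hc'.nTF ?_⟩
    obtain ⟨M, hM, hsub⟩ := hL.lobe_in_comp h hst (S := F ∩ D₀) Finset.inter_subset_right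
    refine ⟨M, hM, fun x hx => hsub ?_⟩
    have hx' := hx
    rw [← he] at hx'
    exact Finset.mem_sdiff.2 ⟨hc'.mb.1.1 hx, (Finset.mem_sdiff.1 hx').2⟩
  · obtain ⟨x, hx⟩ := Crosses.meet h hc.mb Finset.inter_subset_left hc'
    rw [Finset.mem_inter] at hx
    have hx2 := hx.2
    rw [hFeq, Finset.mem_union] at hx2
    rcases hx2 with h1 | h1
    · exact ⟨x, Finset.mem_inter.2 ⟨hx.1, h1⟩⟩
    · exact absurd h1 (Finset.disjoint_left.1 hc'.disj hx.1)

/-- LEMMA 1. If `|T| ≥ 3` then `|F ∩ D₀| = 1` for every `F` crossing `T`.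

Proof. `F ∩ D₀` is nonempty (`Lobe.of_crosses`). Suppose `|F ∩ D₀| ≥ 2`; it is tight (`Crosses.nodeF`), so it is
crossed by some `F'` (`Stuck.exists_cross`). `S := F' \ D₀`, `S ≠ ∅` since `F'` meets `lobeW`. If `|S| ≥ 2`: by `Lobe.count`
and `MB.tight_of_ssubset` `S` is tight, disjoint from `D₀`, so `S = T` (`Lobe.eq_of_disjoint`); but `S` contains a
vertex of `lobeW`. If `|S| = 1`: `S = {w}`, `w ∈ lobeW`, `F'` is disjoint from `T`; `Lobe.cross_of_meet`: `lobeW ⊆ F'`,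
so `lobeW ⊆ S`, `|lobeW| ≤ 1`, `|T| ≤ 2`. -/
theorem Lobe.lemma1 {W : Finset α} {B : Finset α → Prop} (h : ClV W B B) (hst : Stuck W B)
    {T D₀ : Finset α} (hL : Lobe W B T D₀) (h3 : 3 ≤ T.card) {F : Finset α}
    (hc : Crosses W B F T) : ∃ w₀ ∈ D₀, F ∩ D₀ = {w₀} := by
  obtain ⟨hWF, hne, hFeq⟩ := hL.of_crosses h hst hc
  by_contra hcon
  have h2 : 2 ≤ (F ∩ D₀).card := by
    by_contra hlt
    have h1 : (F ∩ D₀).card = 1 := by
      have := hne.card_pos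
      omega
    obtain ⟨w₀, hw₀⟩ := Finset.card_eq_one.1 h1
    refine hcon ⟨w₀, ?_, hw₀⟩
    have : w₀ ∈ F ∩ D₀ := by rw [hw₀]; simp
    exact (Finset.mem_inter.1 this).2
  obtain ⟨_, htight, _⟩ := hc.nodeF h hL.tight hL.comp h2
  obtain ⟨F', hc'⟩ := hst.exists_cross h htight
  obtain ⟨hss, ⟨w, hw⟩⟩ := hL.count_ssubset h hst hc h2 hc'
  have hcount := hL.count h hst hc h2 hc'
  rw [Finset.mem_inter] at hw
  have hwS : w ∈ F' \ D₀ := Finset.mem_sdiff.2 ⟨hw.1, (mem_lobeW.1 hw.2).2.1⟩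
  by_cases hS2 : 2 ≤ (F' \ D₀).card
  · have hST := hc'.mb.tight_of_ssubset hss hS2 hcount
    have heq := hL.eq_of_disjoint h hst hST Finset.sdiff_disjoint
    rw [heq] at hwS
    exact (mem_lobeW.1 hw.2).2.2 hwS
  · have hS1 : (F' \ D₀).card = 1 := by
      have : 0 < (F' \ D₀).card := Finset.card_pos.2 ⟨w, hwS⟩
      omega
    have hSw : ∀ x ∈ F' \ D₀, x = w := by
      intro x hx
      exact (Finset.card_le_one.1 (by omega) x hx w hwS)
    have hTD : ∀ x ∈ T, x ∉ D₀ := by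
      intro x hx hxD
      have := ((mem_comps_iff B _ D₀).1 hL.comp).2.1.1 hxD
      exact (Finset.mem_sdiff.1 this).2 hx
    have hdT : Disjoint F' T := by
      rw [Finset.disjoint_left]
      intro x hx hxT
      have hxw := hSw x (Finset.mem_sdiff.2 ⟨hx, hTD x hxT⟩)
      rw [hxw] at hxT
      exact (mem_lobeW.1 hw.2).2.2 hxT
    obtain ⟨_, hWF', _⟩ := hL.cross_of_meet h hst hc'.mb hdT ⟨w, Finset.mem_inter.2 hw⟩
    have hle : (lobeW W T D₀).card ≤ (F' \ D₀).card := by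
      apply Finset.card_le_card
      intro x hx
      exact Finset.mem_sdiff.2 ⟨hWF' hx, (mem_lobeW.1 hx).2.1⟩
    have := hL.card_lobeW h hst
    omega

/-- EDGE COMPONENTS in the case `F ∩ D₀ = {w₀}`, `Z` a component of `D₀ \ {w₀}`: there is `t ∈ T` such that
`Z` is a component of `W \ {w₀, t}`, `Z` is adjacent to no other vertex of `T`, and there is another component of
`W \ {w₀, t}`.

Proof. `Z` is connected in `W \ F`; all `T`-neighbours of `Z` are in the same component of `W \ F`, so there is at most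
one, `t` (`Lobe.nodes_single`); if there is none take any `t ∈ T`. The neighbours of `Z` in `W` are in
`Z ∪ {w₀} ∪ T` (`Z ⊆ D₀`, a component of `W \ T`). `comp_of_nbhd` with `y` any vertex of `lobeW`. -/
theorem Lobe.edge_comp {W : Finset α} {B : Finset α → Prop} (h : ClV W B B) (hst : Stuck W B)
    {T D₀ : Finset α} (hL : Lobe W B T D₀) {F : Finset α} (hc : Crosses W B F T) {w₀ : α}
    (hw : F ∩ D₀ = {w₀}) {Z : Finset α} (hZ : Z ∈ comps B (D₀ \ {w₀})) :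
    ∃ t ∈ T, Z ∈ comps B (W \ {w₀, t}) ∧
      (∀ t' ∈ T, t' ≠ t → ∀ z ∈ Z, ¬ Adj B z t') ∧
      ∃ Y ∈ comps B (W \ {w₀, t}), Z ≠ Y := by
  obtain ⟨_, hDcl, _⟩ := (mem_comps_iff B _ D₀).1 hL.comp
  obtain ⟨_, hZcl, _⟩ := (mem_comps_iff B _ Z).1 hZ
  have hZD : ∀ z ∈ Z, z ∈ D₀ ∧ z ≠ w₀ := by
    intro z hz
    have := Finset.mem_sdiff.1 (hZcl.1 hz)
    exact ⟨this.1, by simpa using this.2⟩
  have hDW : ∀ z ∈ D₀, z ∈ W ∧ z ∉ T := fun z hz => Finset.mem_sdiff.1 (hDcl.1 hz)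
  have hZF : Z ⊆ W \ F := by
    intro z hz
    refine Finset.mem_sdiff.2 ⟨(hDW z (hZD z hz).1).1, fun hzF => (hZD z hz).2 ?_⟩
    have : z ∈ F ∩ D₀ := Finset.mem_inter.2 ⟨hzF, (hZD z hz).1⟩
    rw [hw] at this
    simpa using this
  obtain ⟨M, hM, hZM⟩ := exists_comp_sup hZ hZF
  obtain ⟨_, hMcl, _⟩ := (mem_comps_iff B _ M).1 hM
  have hadj : ∀ t ∈ T, ∀ z ∈ Z, Adj B z t → t ∈ M := by
    intro t ht z hz hzt
    refine hMcl.2 z (hZM hz) t (Finset.mem_sdiff.2 ⟨hL.tight.1 ht, fun htF => ?_⟩) hzt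
    exact Finset.disjoint_left.1 hc.disj htF ht
  have huniq : ∀ t ∈ T, ∀ t' ∈ T, t ∈ M → t' ∈ M → t = t' := by
    intro t ht t' ht' htM ht'M
    exact Finset.card_le_one.1 (hL.nodes_single h hc M hM) t (Finset.mem_inter.2 ⟨ht, htM⟩) t'
      (Finset.mem_inter.2 ⟨ht', ht'M⟩)
  obtain ⟨t, ht, hto⟩ : ∃ t ∈ T, ∀ t' ∈ T, t' ≠ t → ∀ z ∈ Z, ¬ Adj B z t' := by
    by_cases hex : ∃ t ∈ T, ∃ z ∈ Z, Adj B z t
    · obtain ⟨t, ht, z, hz, hzt⟩ := hex
      refine ⟨t, ht, fun t' ht' hne z' hz' hA => hne ?_⟩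
      exact huniq t' ht' t ht (hadj t' ht' z' hz' hA) (hadj t ht z hz hzt)
    · push Not at hex
      obtain ⟨t, ht⟩ := hL.tight.nonempty
      exact ⟨t, ht, fun t' ht' _ z hz => hex t' ht' z hz⟩
  obtain ⟨y, hy⟩ := hL.lobeW_nonempty h hst
  rw [mem_lobeW] at hy
  have hwD : w₀ ∈ D₀ := by
    have : w₀ ∈ F ∩ D₀ := by rw [hw]; simp
    exact (Finset.mem_inter.1 this).2
  obtain ⟨h1, Y, hY, hne, _⟩ := comp_of_nbhd (W := W) (y := y) (a := w₀) (b := t) hZ
    (fun z hz => (hDW z (Finset.mem_sdiff.1 hz).1).1)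
    (fun hwZ => (hZD w₀ hwZ).2 rfl)
    (fun htZ => (hDW t (hZD t htZ).1).2 ht)
    (by
      intro z hz x hx hA
      by_cases hxT : x ∈ T
      · right; right
        by_contra hne
        exact hto x hxT hne z hz hA
      · have hxD : x ∈ D₀ := hDcl.2 z (hZD z hz).1 x (Finset.mem_sdiff.2 ⟨hx, hxT⟩) hA
        by_cases hxw : x = w₀
        · exact Or.inr (Or.inl hxw)
        · exact Or.inl (hZcl.2 z hz x (Finset.mem_sdiff.2 ⟨hxD, by simpa using hxw⟩) hA))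
    hy.1 (fun he => hy.2.1 (he ▸ hwD)) (fun he => hy.2.2 (he ▸ ht))
    (fun hyZ => hy.2.1 (hZD y hyZ).1)
  exact ⟨t, ht, h1, hto, Y, hY, hne⟩

end Pool.Agent.DK
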