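import Mathlib
import Pool.Agent.Lib_MP_6f255c_dk.TDL1

/-!
# Theorem D, Lemma 2: lobes with `|T| = 2`, basic facts. `T = {t₁, t₂}`, `lobeW = {w}`; `F` runs over the minimal bad non-edges containing `w`, `F.erase w = F ∩ D₀` is tight
-/

set_option autoImplicit false

namespace Pool.Agent.DK

open Classical

variable {α : Type*}

/-- `lobeW = {w}`, `w` is adjacent to both vertices of `T` and to nothing else. -/
theorem Lobe.two {W : Finset α} {B : Finset α → Prop} (h : ClV W B B) (hst : Stuck W B)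
    {T D₀ : Finset α} (hL : Lobe W B T D₀) (h2 : T.card = 2) {w : α} (hw : w ∈ lobeW W T D₀) :
    lobeW W T D₀ = {w} ∧ (∀ t ∈ T, Adj B w t) ∧ (∀ v ∈ W, Adj B w v → v ∈ T) := by
  have hc := hL.card_lobeW h hst
  have h1 : (lobeW W T D₀).card = 1 := by omega
  obtain ⟨w', hw'⟩ := Finset.card_eq_one.1 h1
  have hww : w = w' := by
    rw [hw'] at hw
    exact Finset.mem_singleton.1 hw
  subst hww
  refine ⟨hw', ?_, ?_⟩
  · intro t ht
    obtain ⟨w₁, hw₁, hA⟩ := hL.exists_nbr h hst ht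
    rw [hw'] at hw₁
    rw [Finset.mem_singleton.1 hw₁] at hA
    exact hA
  · intro v hv hA
    exact hL.nbr_mem h hst hw hv hA

/-- For every minimal bad non-edge `F` containing `w`: `F` crosses `T`, `F ∩ D₀ = F.erase w` is tight.

Proof. `F` is disjoint from `T` (`MB.indep`, `w` is adjacent to all of `T`), so `Lobe.cross_of_meet`;
`F = {w} ∪ (F ∩ D₀)`, `|F| ≥ 3`, so `|F ∩ D₀| ≥ 2`, `Crosses.nodeF`. -/
theorem Lobe.two_F {W : Finset α} {B : Finset α → Prop} (h : ClV W B B) (hst : Stuck W B)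
    {T D₀ : Finset α} (hL : Lobe W B T D₀) (h2 : T.card = 2) {w : α} (hw : w ∈ lobeW W T D₀)
    {F : Finset α} (hF : MB W B B F) (hwF : w ∈ F) :
    Crosses W B F T ∧ F ∩ D₀ = F.erase w ∧ 2 ≤ (F.erase w).card ∧
      Tight W B B (F.erase w) := by
  obtain ⟨hW1, hadj, _⟩ := hL.two h hst h2 hw
  have hd : Disjoint F T := by
    rw [Finset.disjoint_left]
    intro t htF htT
    exact hF.indep h hwF htF (hadj t htT)
  obtain ⟨hc, _, _, hFeq⟩ := hL.cross_of_meet h hst hF hd ⟨w, Finset.mem_inter.2 ⟨hwF, hw⟩⟩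
  have hwD : w ∉ D₀ := (mem_lobeW.1 hw).2.1
  have hE : F ∩ D₀ = F.erase w := by
    ext x
    rw [Finset.mem_inter, Finset.mem_erase]
    constructor
    · rintro ⟨hxF, hxD⟩
      exact ⟨fun he => hwD (he ▸ hxD), hxF⟩
    · rintro ⟨hxw, hxF⟩
      refine ⟨hxF, ?_⟩
      have hx2 := hxF
      rw [hFeq, hW1, Finset.mem_union, Finset.mem_singleton] at hx2
      rcases hx2 with h3 | h3
      · exact absurd h3 hxw
      · exact (Finset.mem_inter.1 h3).2
  have h3 := hF.three_le h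
  have hcard : 2 ≤ (F.erase w).card := by
    rw [Finset.card_erase_of_mem hwF]
    omega
  refine ⟨hc, hE, hcard, ?_⟩
  have h4 : 2 ≤ (F ∩ D₀).card := by
    rw [hE]
    exact hcard
  obtain ⟨_, h5, _⟩ := hc.nodeF h hL.tight hL.comp h4
  rw [hE] at h5
  exact h5

/-- The component `Bc` of `W \ F₀` containing the lobe: it is `{w}` together with the components of `W \ F` meeting
`T`, and `W \ Bc` is a side.

Proof. `Lobe.lobe_in_comp` for `S := F.erase w ⊆ D₀`. A component `Y` of `W \ F` meeting `T` is connected in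
`W \ F₀` and meets `W \ D₀ ⊆ Bc`. Conversely let `y ∈ Bc`, `y ≠ w`; `y ∉ F`; its component `Y` in `W \ F` is contained
in `Bc` (`exists_comp_sup`, disjointness). If `Y` contained no vertex of `T` then `Y` would be closed in `W \ F₀`
(`w` has neighbours only in `T`), `Y = Bc ∋ w`, contradiction. -/
theorem Lobe.two_B {W : Finset α} {B : Finset α → Prop} (h : ClV W B B) (hst : Stuck W B)
    {T D₀ : Finset α} (hL : Lobe W B T D₀) (h2 : T.card = 2) {w : α} (hw : w ∈ lobeW W T D₀)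
    {F : Finset α} (hF : MB W B B F) (hwF : w ∈ F) :
    ∃ Bc ∈ comps B (W \ F.erase w), W \ D₀ ⊆ Bc ∧ IsSide W B (W \ Bc) ∧
      (∀ Y ∈ comps B (W \ F), (Y ∩ T).Nonempty → Y ⊆ Bc) ∧
      (∀ y ∈ Bc, y ≠ w → ∃ Y ∈ comps B (W \ F), y ∈ Y ∧ (Y ∩ T).Nonempty) := by
  obtain ⟨_, _, hnb⟩ := hL.two h hst h2 hw
  obtain ⟨_, hE, _, hT⟩ := hL.two_F h hst h2 hw hF hwF
  obtain ⟨Bc, hBc, hsub⟩ := hL.lobe_in_comp h hst (S := F.erase w)
    (by rw [← hE]; exact Finset.inter_subset_right)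
  have hWF : W \ F ⊆ W \ F.erase w :=
    Finset.sdiff_subset_sdiff (Finset.Subset.refl W) (Finset.erase_subset _ _)
  have hTB : ∀ t ∈ T, t ∈ Bc := by
    intro t ht
    refine hsub (Finset.mem_sdiff.2 ⟨hL.tight.1 ht, fun htD => ?_⟩)
    exact (Finset.mem_sdiff.1 (((mem_comps_iff B _ D₀).1 hL.comp).2.1.1 htD)).2 ht
  refine ⟨Bc, hBc, hsub, hT.isSide hBc, ?_, ?_⟩
  · rintro Y hY ⟨t, ht⟩
    rw [Finset.mem_inter] at ht
    have hYW := ((mem_comps_iff B _ Y).1 hY).2.1.1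
    obtain ⟨M, hM, hYM⟩ := exists_comp_sup hY (hYW.trans hWF)
    have hMB : M = Bc := by
      by_contra hne
      exact Finset.disjoint_left.1 (comps_disjoint B _ hM hBc hne) (hYM ht.1) (hTB t ht.2)
    rw [← hMB]
    exact hYM
  · intro y hy hyw
    have hyR := ((mem_comps_iff B _ Bc).1 hBc).2.1.1 hy
    rw [Finset.mem_sdiff] at hyR
    have hyF : y ∉ F := fun hyF => hyR.2 (Finset.mem_erase.2 ⟨hyw, hyF⟩)
    obtain ⟨Y, hY, hyY⟩ := exists_comp B (W \ F) (Finset.mem_sdiff.2 ⟨hyR.1, hyF⟩)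
    refine ⟨Y, hY, hyY, ?_⟩
    by_contra hcon
    rw [Finset.not_nonempty_iff_eq_empty] at hcon
    have hYcl := ((mem_comps_iff B _ Y).1 hY).2.1
    have hcl : ClosedIn B (W \ F.erase w) Y := by
      refine ⟨hYcl.1.trans hWF, ?_⟩
      intro u hu v hv hA
      rw [Finset.mem_sdiff] at hv
      by_cases hvw : v = w
      · exfalso
        have huW := (Finset.mem_sdiff.1 (hYcl.1 hu)).1
        have hA' : Adj B w u := adj_symm (by rw [← hvw]; exact hA)
        have huT := hnb u huW hA'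
        have : u ∈ Y ∩ T := Finset.mem_inter.2 ⟨hu, huT⟩
        rw [hcon] at this
        exact Finset.notMem_empty _ this
      · have hvF : v ∉ F := fun hvF => hv.2 (Finset.mem_erase.2 ⟨hvw, hvF⟩)
        exact hYcl.2 u hu v (Finset.mem_sdiff.2 ⟨hv.1, hvF⟩) hA
    have hBY := comp_subset_of_closed B _ Y hcl hBc hy hyY
    have hwL := mem_lobeW.1 hw
    have hwB : w ∈ Bc := hsub (Finset.mem_sdiff.2 ⟨hwL.1, hwL.2.1⟩)
    exact (Finset.mem_sdiff.1 (hYcl.1 (hBY hwB))).2 hwF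

end Pool.Agent.DK
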