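import Mathlib
import Pool.Agent.Lib_MP_6f255c_dk.TDL2A
import Pool.Agent.Lib_MP_6f255c_dk.TDTrace
import Pool.Agent.Lib_MP_6f255c_dk.CrossTools

/-!
# Theorem D, Lemma 2, the step
-/

set_option autoImplicit false

namespace Pool.Agent.DK

open Classical

variable {α : Type*}

/-- LEMMA 2, the step. `F'` crosses `F.erase w`, `Y` a component of `W \ F` meeting `T`. Then `w ∈ F'`; if `F'` meets `Y`
there is a side inside `w + Y`; if not, `Y` is properly contained in a component of `W \ F'`.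

Proof. `w ∈ F'`: `Crosses.meet`. Let `Bc` be as in `Lobe.two_B`, `N := F' ∩ Bc = {w} ∪ A₁ ∪ A₂`, `A_i := F' ∩ Y_i`,
`Y_1, Y_2` the components of `W \ F` containing the two vertices of `T`. `node_lemma` (`K := F'`, `K' := F.erase w`,
`D := Bc`): `c(N) = |N|`, `M ⊇ F.erase w`, the components `X ≠ M` of `W \ N` are disjoint from `F.erase w` and from
`F' ∋ w`, hence from `F`, contained in `Bc`, so each is contained in `Y_1` or in `Y_2` (connected in `W \ F`), and not
adjacent to `F.erase w`; so an `X ⊆ Y_i` has all its neighbours in `X ∪ A_i ∪ {w}` and is a component of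
`W \ (A_i + w)`, different from the component containing `F.erase w`. So
`|N| = c(N) ≤ 1 + (c(A_1 + w) - 1) + (c(A_2 + w) - 1) ≤ 1 + |A_1| + |A_2| = |N|` (`v2`: `A_i + w` is a proper subset of `F'`
since `F'` is not contained in `Bc`). Equality: `c(A_i + w) = |A_i| + 1`, and ALL the components of `W \ (A_i + w)` not
containing `F.erase w` are such `X ⊆ Y_i`. If `A_i ≠ ∅` then `A_i + w` is tight (`MB.tight_of_ssubset`) and its side
`W \ M_i` (`M_i ⊇ F.erase w`) is contained in `w + Y_i`. (Alternatively use TDAdd.lean of helper91.)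
If `F' ∩ Y = ∅`, `Y ⊆ Y'`, `Y' ∈ comps B (W \ F')` (`exists_comp_sup`). If `Y = Y'` then the neighbours of `Y` are in
`F ∩ F' = {w}`, `Y` is closed in `W \ {w}`, so `Y = W \ {w}` (`ClV.closed_sdiff_singleton`), but `F.erase w ≠ ∅` is outside. -/
theorem Lobe.two_step {W : Finset α} {B : Finset α → Prop} (h : ClV W B B) (hst : Stuck W B)
    {T D₀ : Finset α} (hL : Lobe W B T D₀) (h2 : T.card = 2) {w : α} (hw : w ∈ lobeW W T D₀)
    {F F' : Finset α} (hF : MB W B B F) (hwF : w ∈ F) (hc : Crosses W B F' (F.erase w)) :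
    w ∈ F' ∧ ∀ Y ∈ comps B (W \ F), (Y ∩ T).Nonempty →
      ((F' ∩ Y).Nonempty → ∃ L, IsSide W B L ∧ L ⊆ insert w Y) ∧
      (¬ (F' ∩ Y).Nonempty → ∃ Y' ∈ comps B (W \ F'), Y ⊂ Y') := by
  obtain ⟨hWw, hadj, _⟩ := Lobe.two h hst hL h2 hw
  obtain ⟨hcF, hFD, hcard, hF₀⟩ := Lobe.two_F h hst hL h2 hw hF hwF
  obtain ⟨Bc, hBc, hDB, _, hYB, hBY⟩ := Lobe.two_B h hst hL h2 hw hF hwF
  have hwmem := mem_lobeW.1 hw
  have hcut : ∀ v ∈ W, (comps B (W \ {v})).card ≤ 1 := fun v hv => h.card_comps_sdiff_singleton hv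
  have hwF' : w ∈ F' := by
    obtain ⟨v, hv⟩ := hc.meet h hF (Finset.erase_subset w F)
    rw [Finset.mem_inter] at hv
    by_cases hvw : v = w
    · exact hvw ▸ hv.1
    · exact absurd (Finset.mem_erase.2 ⟨hvw, hv.2⟩) (Finset.disjoint_left.1 hc.disj hv.1)
  have hint : ∀ v, v ∈ F → v ∈ F' → v = w := by
    intro v hvF hvF'
    by_contra hvw
    exact Finset.disjoint_left.1 hc.disj hvF' (Finset.mem_erase.2 ⟨hvw, hvF⟩)
  obtain ⟨x₀, hx₀⟩ := hF₀.nonempty
  have hx₀F := (Finset.mem_erase.1 hx₀).2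
  have hx₀w := (Finset.mem_erase.1 hx₀).1
  have hx₀W : x₀ ∈ W := hF₀.1 hx₀
  refine ⟨hwF', ?_⟩
  intro Y hY hYT
  have hwY : w ∉ Y := fun hwY => Finset.disjoint_left.1 (comp_disjoint hY) hwY hwF
  refine ⟨?_, ?_⟩
  · intro hne
    obtain ⟨t, ht⟩ := hYT
    rw [Finset.mem_inter] at ht
    -- the family of the components
    have hexY : ∀ s : α, ∃ Z : Finset α, s ∈ T → Z ∈ comps B (W \ F) ∧ s ∈ Z := by
      intro s
      by_cases hs : s ∈ T
      · obtain ⟨Z, hZ, hsZ⟩ := exists_comp B (W \ F) (Finset.mem_sdiff.2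
          ⟨hL.tight.1 hs, fun hsF => Finset.disjoint_left.1 hcF.disj hsF hs⟩)
        exact ⟨Z, fun _ => ⟨hZ, hsZ⟩⟩
      · exact ⟨∅, fun h' => absurd h' hs⟩
    choose Yf hYf using hexY
    have hYt : Yf t = Y := comp_eq_of_mem (hYf t ht.2).1 hY (hYf t ht.2).2 ht.1
    have htr := hL.trace_ge h hst hcF (by rw [hFD]; exact hcard) (F' := F')
      (by rw [hFD]; exact hc) Yf hYf {t} (Finset.singleton_subset_iff.2 ht.2)
    have hF'D : F' \ D₀ = {w} := by
      ext v
      rw [Finset.mem_sdiff, Finset.mem_singleton]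
      constructor
      · rintro ⟨hvF', hvD⟩
        have hvW : v ∈ W := hc.mb.1.1 hvF'
        by_cases hvT : v ∈ T
        · exact absurd (hadj v hvT) (hc.mb.indep h hwF' hvF')
        · have h3 : v ∈ lobeW W T D₀ := mem_lobeW.2 ⟨hvW, hvD, hvT⟩
          rw [hWw, Finset.mem_singleton] at h3
          exact h3
      · rintro rfl
        exact ⟨hwF', hwmem.2.1⟩
    have hS : (F' \ D₀) ∪ ({t} : Finset α).biUnion (fun s => F' ∩ Yf s) =
        insert w (F' ∩ Y) := by
      rw [hF'D, Finset.singleton_biUnion, hYt]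
      rfl
    rw [hS] at htr
    have hYBc : Y ⊆ Bc := hYB Y hY ⟨t, Finset.mem_inter.2 ht⟩
    have hwBc : w ∈ Bc := hDB (Finset.mem_sdiff.2 ⟨hwmem.1, hwmem.2.1⟩)
    have hSB : insert w (F' ∩ Y) ⊆ Bc := by
      intro v hv
      rcases Finset.mem_insert.1 hv with rfl | hv
      · exact hwBc
      · exact hYBc (Finset.mem_inter.1 hv).2
    have hSF : insert w (F' ∩ Y) ⊆ F' := by
      intro v hv
      rcases Finset.mem_insert.1 hv with rfl | hv
      · exact hwF'
      · exact (Finset.mem_inter.1 hv).1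
    have hSs : insert w (F' ∩ Y) ⊂ F' := by
      refine (Finset.ssubset_iff_of_subset hSF).2 ?_
      have hnot : ¬ F' ⊆ Bc := fun hs => hc.nTF ⟨Bc, hBc, hs⟩
      obtain ⟨v, hv, hvB⟩ := Finset.not_subset.1 hnot
      exact ⟨v, hv, fun h' => hvB (hSB h')⟩
    have hwn : w ∉ F' ∩ Y := fun h' => hwY (Finset.mem_inter.1 h').2
    have hS2 : 2 ≤ (insert w (F' ∩ Y)).card := by
      rw [Finset.card_insert_of_notMem hwn]
      have := Finset.card_pos.2 hne
      omega
    have hST : Tight W B B (insert w (F' ∩ Y)) := hc.mb.tight_of_ssubset hSs hS2 htr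
    have hx₀B : x₀ ∉ Bc := fun h' => Finset.disjoint_left.1 (comp_disjoint hBc) h' hx₀
    have hconn := h.side_connected hF₀ hBc
    have hsubR : W \ Bc ⊆ W \ insert w (F' ∩ Y) :=
      Finset.sdiff_subset_sdiff (Finset.Subset.refl _) hSB
    obtain ⟨M, hM, hBM⟩ := exists_comp_of_connected hsubR
      ⟨x₀, Finset.mem_sdiff.2 ⟨hx₀W, hx₀B⟩⟩ hconn
    refine ⟨W \ M, hST.isSide hM, ?_⟩
    intro v hv
    rw [Finset.mem_sdiff] at hv
    rw [Finset.mem_insert]
    by_contra hcon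
    rw [not_or] at hcon
    have hvB : v ∈ Bc := by
      by_contra hvB
      exact hv.2 (hBM (Finset.mem_sdiff.2 ⟨hv.1, hvB⟩))
    obtain ⟨Y₂, hY₂, hvY₂, _⟩ := hBY v hvB hcon.1
    have hYY : Y₂ ≠ Y := by
      rintro rfl
      exact hcon.2 hvY₂
    have hdis := comps_disjoint B _ hY₂ hY hYY
    have hwY₂ : w ∉ Y₂ := fun h' => Finset.disjoint_left.1 (comp_disjoint hY₂) h' hwF
    have hY₂R : Y₂ ⊆ W \ insert w (F' ∩ Y) := by
      intro z hz
      refine Finset.mem_sdiff.2 ⟨comp_subset_left hY₂ hz, ?_⟩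
      intro hz'
      rcases Finset.mem_insert.1 hz' with rfl | hz'
      · exact hwY₂ hz
      · exact Finset.disjoint_left.1 hdis hz (Finset.mem_inter.1 hz').2
    obtain ⟨u, hu, x, hx, hux⟩ : ∃ u ∈ Y₂, ∃ x ∈ F.erase w, Adj B u x := by
      by_contra hno
      push Not at hno
      have h3 := subset_insert_of_no_cut hcut (comp_subset_left hY₂) (comp_nonempty hY₂)
        hwmem.1 hwY₂ (by
          intro u hu z hz huz
          by_cases hzF : z ∈ F
          · right
            by_contra hzw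
            exact hno u hu z (Finset.mem_erase.2 ⟨hzw, hzF⟩) huz
          · exact Or.inl (mem_comp_of_adj hY₂ hu (Finset.mem_sdiff.2 ⟨hz, hzF⟩) huz))
      rcases Finset.mem_insert.1 (h3 hx₀W) with h4 | h4
      · exact hx₀w h4
      · exact Finset.disjoint_left.1 (comp_disjoint hY₂) h4 hx₀F
    have hxM : x ∈ M := hBM (Finset.mem_sdiff.2 ⟨hF₀.1 hx,
      fun h' => Finset.disjoint_left.1 (comp_disjoint hBc) h' hx⟩)
    exact hv.2 (comp_subset_of_adj hY₂ hY₂R hM hu hxM hux hvY₂)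
  · intro hemp
    have hYF' : Y ⊆ W \ F' := by
      intro v hv
      refine Finset.mem_sdiff.2 ⟨comp_subset_left hY hv, fun hvF' => ?_⟩
      exact hemp ⟨v, Finset.mem_inter.2 ⟨hvF', hv⟩⟩
    obtain ⟨Y', hY', hYY'⟩ := exists_comp_superset hY hYF'
    refine ⟨Y', hY', Finset.ssubset_iff_subset_ne.2 ⟨hYY', ?_⟩⟩
    rintro rfl
    have h3 := subset_insert_of_no_cut hcut (comp_subset_left hY) (comp_nonempty hY)
      hwmem.1 hwY (by
        intro u hu z hz huz
        by_cases hzF : z ∈ F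
        · by_cases hzF' : z ∈ F'
          · exact Or.inr (hint z hzF hzF')
          · exact Or.inl (mem_comp_of_adj hY' hu (Finset.mem_sdiff.2 ⟨hz, hzF'⟩) huz)
        · exact Or.inl (mem_comp_of_adj hY hu (Finset.mem_sdiff.2 ⟨hz, hzF⟩) huz))
    rcases Finset.mem_insert.1 (h3 hx₀W) with h4 | h4
    · exact hx₀w h4
    · exact Finset.disjoint_left.1 (comp_disjoint hY) h4 hx₀F

end Pool.Agent.DK
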