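import Mathlib
import Pool.Agent.Lib_MP_6f255c_dk.TDL2B

/-!
# Theorem D, Lemmas 2 and 3
-/

set_option autoImplicit false

namespace Pool.Agent.DK

open Classical

variable {α : Type*}

/-- LEMMA 2. For each `t ∈ T` there are a minimal bad non-edge `F ∋ w` and a side inside `w + Y`, `Y` the component of
`W \ F` containing `t`.

Proof. There is a minimal bad non-edge containing `w` (`Stuck.exists_cross`, `Lobe.of_crosses`). Choose the pair
`(F, Y)`, `w ∈ F`, `t ∈ Y ∈ comps B (W \ F)`, with `|Y|` maximal. `F.erase w` is tight (`two_F`), crossed by some `F'`;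
`Lobe.two_step`: either a side, or a larger `Y'` (`w ∈ F'`, `t ∈ Y'`), contradiction. -/
theorem Lobe.lemma2 {W : Finset α} {B : Finset α → Prop} (h : ClV W B B) (hst : Stuck W B)
    {T D₀ : Finset α} (hL : Lobe W B T D₀) (h2 : T.card = 2) {w : α} (hw : w ∈ lobeW W T D₀)
    {t : α} (ht : t ∈ T) :
    ∃ F Y L, MB W B B F ∧ w ∈ F ∧ Y ∈ comps B (W \ F) ∧ t ∈ Y ∧ Y ∩ T = {t} ∧
      IsSide W B L ∧ L ⊆ insert w Y := by
  have key : ∀ n : ℕ, ∀ F Y : Finset α, MB W B B F → w ∈ F → Y ∈ comps B (W \ F) → t ∈ Y →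
      W.card ≤ Y.card + n → ∃ F Y L, MB W B B F ∧ w ∈ F ∧ Y ∈ comps B (W \ F) ∧ t ∈ Y ∧
        Y ∩ T = {t} ∧ IsSide W B L ∧ L ⊆ insert w Y := by
    intro n
    induction n with
    | zero =>
      intro F Y hF hwF hY htY hn
      exfalso
      have h1 : Y ⊆ W.erase w := by
        intro z hz
        have hz' := Finset.mem_sdiff.1 (subset_of_mem_comps hY hz)
        exact Finset.mem_erase.2 ⟨fun hzw => hz'.2 (hzw ▸ hwF), hz'.1⟩
      have h3 := Finset.card_le_card h1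
      have h4 := Finset.card_erase_lt_of_mem (hF.1.1 hwF)
      omega
    | succ n ih =>
      intro F Y hF hwF hY htY hn
      obtain ⟨hcF, _, _, hTF⟩ := hL.two_F h hst h2 hw hF hwF
      obtain ⟨F', hF'⟩ := hst.exists_cross h hTF
      obtain ⟨hwF', hstep⟩ := hL.two_step h hst h2 hw hF hwF hF'
      obtain ⟨hs1, hs2⟩ := hstep Y hY ⟨t, Finset.mem_inter.2 ⟨htY, ht⟩⟩
      by_cases hne : (F' ∩ Y).Nonempty
      · obtain ⟨L, hLs, hLY⟩ := hs1 hne
        refine ⟨F, Y, L, hF, hwF, hY, htY, ?_, hLs, hLY⟩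
        ext z
        rw [Finset.mem_inter, Finset.mem_singleton]
        constructor
        · rintro ⟨hzY, hzT⟩
          exact hL.eq_of_mem_comp h hcF hY hzT ht hzY htY
        · rintro rfl
          exact ⟨htY, ht⟩
      · obtain ⟨Y', hY', hYY'⟩ := hs2 hne
        have hlt := Finset.card_lt_card hYY'
        exact ih F' Y' hF'.mb hwF' hY' (hYY'.1 htY) (by omega)
  obtain ⟨F, hF⟩ := hst.exists_cross h hL.tight
  have hwF : w ∈ F := (hL.of_crosses h hst hF).1 hw
  have htF : t ∈ W \ F :=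
    Finset.mem_sdiff.2 ⟨hL.tight.1 ht, fun hh => Finset.disjoint_left.1 hF.disj hh ht⟩
  obtain ⟨Y, hY, htY⟩ := exists_comp B (W \ F) htF
  exact key W.card F Y hF.mb hwF hY htY (by omega)

/-- one half of Lemma 3. -/
private theorem lemma3_aux {W : Finset α} {B : Finset α → Prop} (h : ClV W B B) (hst : Stuck W B)
    {u v : α} (hside : ∀ L, IsSide W B L → u ∈ L ∨ v ∈ L)
    {T D₀ : Finset α} (hL : Lobe W B T D₀) (h2 : T.card = 2) {w : α}
    (hw : w ∈ lobeW W T D₀) (hv : v ∈ W \ D₀) :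
    w = v ∧ ∀ F, MB W B B F → w ∈ F → ∀ Bc ∈ comps B (W \ F.erase w), w ∈ Bc → u ∉ Bc := by
  have hwD : w ∈ W \ D₀ :=
    Finset.mem_sdiff.2 ⟨(mem_lobeW.1 hw).1, (mem_lobeW.1 hw).2.1⟩
  have hu : ∀ F, MB W B B F → w ∈ F → ∀ Bc ∈ comps B (W \ F.erase w), w ∈ Bc → u ∉ Bc := by
    intro F hF hwF Bc hBc hwB
    obtain ⟨Bc', hBc', hDB, hs, _, _⟩ := hL.two_B h hst h2 hw hF hwF
    have hEq : Bc = Bc' := by
      by_contra hne
      exact Finset.disjoint_left.1 (comps_disjoint B _ hBc hBc' hne) hwB (hDB hwD)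
    subst hEq
    rcases hside _ hs with h3 | h3
    · exact (Finset.mem_sdiff.1 h3).2
    · exact absurd (hDB hv) (Finset.mem_sdiff.1 h3).2
  refine ⟨?_, hu⟩
  have hT : ∀ t ∈ T, v = w ∨ v = t := by
    intro t ht
    obtain ⟨F, Y, L, hF, hwF, hY, htY, hYT, hLs, hLY⟩ := hL.lemma2 h hst h2 hw ht
    obtain ⟨Bc, hBc, hDB, _, hYB, _⟩ := hL.two_B h hst h2 hw hF hwF
    have hYBc : Y ⊆ Bc := hYB Y hY ⟨t, Finset.mem_inter.2 ⟨htY, ht⟩⟩
    have huB : u ∉ Bc := hu F hF hwF Bc hBc (hDB hwD)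
    have hvY : v ∈ insert w Y := by
      rcases hside L hLs with h3 | h3
      · exfalso
        have h4 := hLY h3
        rw [Finset.mem_insert] at h4
        rcases h4 with h4 | h4
        · exact huB (h4 ▸ hDB hwD)
        · exact huB (hYBc h4)
      · exact hLY h3
    rw [Finset.mem_insert] at hvY
    rcases hvY with h3 | h3
    · exact Or.inl h3
    · by_cases hvT : v ∈ T
      · right
        have h4 : v ∈ Y ∩ T := Finset.mem_inter.2 ⟨h3, hvT⟩
        rw [hYT, Finset.mem_singleton] at h4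
        exact h4
      · left
        have h5 : v ∈ lobeW W T D₀ :=
          mem_lobeW.2 ⟨(Finset.mem_sdiff.1 hv).1, (Finset.mem_sdiff.1 hv).2, hvT⟩
        rw [(hL.two h hst h2 hw).1, Finset.mem_singleton] at h5
        exact h5
  obtain ⟨a, b, hab, rfl⟩ := Finset.card_eq_two.1 h2
  rcases hT a (by simp) with h3 | h3
  · exact h3.symm
  · rcases hT b (by simp) with h4 | h4
    · exact h4.symm
    · exact absurd (h3.symm.trans h4) hab

/-- LEMMA 3. In class D(u, v), a lobe with `|T| = 2`: `w` is `u` or `v`, and the other special vertex is outside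
`Bc` for every `F ∋ w`.

Proof. For every `F ∋ w`, `W \ Bc` (`Lobe.two_B`) and `W \ D₀` are disjoint sides (`W \ D₀ ⊆ Bc`; `Tight.isSide`), each
contains `u` or `v` (`ClD.mem_side`); by symmetry let `v ∈ W \ D₀ = {t₁, t₂, w}` (for one, hence for all `F`), then
`u ∉ Bc` for all `F`. Let `t ∈ T`; `Lobe.lemma2`: a side `L ⊆ w + Y ⊆ Bc` contains `u` or `v`, hence `v`, so
`v ∈ w + Y`, `Y ∩ T = {t}`. So `v = w` or `v = t`. With both `t ∈ T`: `v = w`. -/
theorem Lobe.lemma3 {W : Finset α} {B : Finset α → Prop} {u v : α} (hD : ClD W B u v)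
    (hst : Stuck W B) {T D₀ : Finset α} (hL : Lobe W B T D₀) (h2 : T.card = 2) {w : α}
    (hw : w ∈ lobeW W T D₀) :
    (w = v ∧ ∀ F, MB W B B F → w ∈ F → ∀ Bc ∈ comps B (W \ F.erase w), w ∈ Bc → u ∉ Bc) ∨
    (w = u ∧ ∀ F, MB W B B F → w ∈ F → ∀ Bc ∈ comps B (W \ F.erase w), w ∈ Bc → v ∉ Bc) := by
  have hs : IsSide W B (W \ D₀) := hL.tight.isSide hL.comp
  rcases hD.mem_side hs with h3 | h3
  · right
    exact lemma3_aux hD.cl hst (fun L hLs => (hD.mem_side hLs).symm) hL h2 hw h3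
  · left
    exact lemma3_aux hD.cl hst (fun L hLs => hD.mem_side hLs) hL h2 hw h3

end Pool.Agent.DK
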