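import Mathlib
import Pool.Agent.Lib_MP_6f255c_dk.TDL2

/-!
# Theorem D, Lemma 4, nonadjacent case
-/

set_option autoImplicit false

namespace Pool.Agent.DK

open Classical

variable {α : Type*}

/-- class D is symmetric in `u, v`. -/
theorem ClD.symm {W : Finset α} {B : Finset α → Prop} {u v : α} (hD : ClD W B u v) :
    ClD W B v u := by
  refine ⟨hD.cl, hD.hy, hD.hx, ?_⟩
  intro T hT
  rcases hD.sep T hT with h | h | h
  · exact Or.inr (Or.inl h)
  · exact Or.inl h
  · exact Or.inr (Or.inr fun D hDc hh => h D hDc ⟨hh.2, hh.1⟩)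

/-- LEMMA 4, nonadjacent case. `IH` is Lemma 4 for smaller components.

Proof. Suppose `u, v ∉ X`. `ClV.tight_pair`: `{a, b}` is tight, the components of `W \ {a, b}` are `X` and `Y`. Let `F`
cross `{a, b}` (`Stuck.exists_cross`); `F ⊆ X ∪ Y` meets both. If `|F ∩ X| ≥ 2`, `Crosses.nodeF` gives a side contained
in `X`, contradiction (`ClD.mem_side`). So `F ∩ X = {c}`. If `X ≠ {c}` let `Z` be a component of `X \ {c}`; its
neighbours are in `Z ∪ {a, b, c}`, `Z` is connected in `W \ F`, and `a, b` are in different components of `W \ F`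
(`nFT`), so `Z` is adjacent to at most one of `a, b`, say not to `b`: `comp_of_nbhd` with the pair `{a, c}` and
`y := b`: `IH` for `Z`: contradiction (`Z ⊆ X`). So `X = {c}`, `W \ Y = {a, b, c}`. `Lobe W B {a, b} Y`: `minSide` because sides
have at least 3 vertices (`IsSide.three_le`), `minT` because proper subsets of `{a, b}` are not tight (`2 ≤ card`).
`c ∈ lobeW W {a, b} Y`; `Lobe.lemma3`: `c = u` or `c = v`. Contradiction. -/
theorem ClD.lemma4_nonadj {W : Finset α} {B : Finset α → Prop} {u v : α} (hD : ClD W B u v)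
    (hst : Stuck W B) {a b : α} {X Y : Finset α}
    (IH : ∀ (a' b' : α) (X' Y' : Finset α), X'.card < X.card → a' ∈ W → b' ∈ W → a' ≠ b' →
      X' ∈ comps B (W \ {a', b'}) → Y' ∈ comps B (W \ {a', b'}) → X' ≠ Y' → u ∈ X' ∨ v ∈ X')
    (ha : a ∈ W) (hb : b ∈ W) (hab : a ≠ b) (hn : ¬ Adj B a b)
    (hX : X ∈ comps B (W \ {a, b})) (hY : Y ∈ comps B (W \ {a, b})) (hXY : X ≠ Y) :
    u ∈ X ∨ v ∈ X := by
  by_contra hcon
  push Not at hcon
  obtain ⟨huX, hvX⟩ := hcon
  have h := hD.cl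
  obtain ⟨hT, hcomps, hWY, hside⟩ := h.tight_pair ha hb hab hn hX hY hXY
  obtain ⟨F, hF⟩ := hst.exists_cross h hT
  have haF : a ∉ F := fun hh => Finset.disjoint_left.1 hF.disj hh (by simp)
  have hbF : b ∉ F := fun hh => Finset.disjoint_left.1 hF.disj hh (by simp)
  have hFW : F ⊆ W := hF.mb.1.1
  have hXsub : X ⊆ W \ {a, b} := ((mem_comps_iff B _ X).1 hX).2.1.1
  have hXcl := ((mem_comps_iff B _ X).1 hX).2.1.2
  have hXW : X ⊆ W := hXsub.trans Finset.sdiff_subset
  have haX : a ∉ X := fun hh => (Finset.mem_sdiff.1 (hXsub hh)).2 (by simp)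
  have hbX : b ∉ X := fun hh => (Finset.mem_sdiff.1 (hXsub hh)).2 (by simp)
  have hFXY : ∀ z ∈ F, z ∈ X ∨ z ∈ Y := by
    intro z hz
    have hzR : z ∈ W \ {a, b} := by
      refine Finset.mem_sdiff.2 ⟨hFW hz, ?_⟩
      intro hh
      exact Finset.disjoint_left.1 hF.disj hz hh
    obtain ⟨K, hK, hzK⟩ := exists_comp B _ hzR
    rw [hcomps] at hK
    simp only [Finset.mem_insert, Finset.mem_singleton] at hK
    rcases hK with rfl | rfl
    · exact Or.inl hzK
    · exact Or.inr hzK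
  have hFX : (F ∩ X).Nonempty := by
    by_contra hne
    refine hF.nTF ⟨Y, hY, ?_⟩
    intro z hz
    rcases hFXY z hz with hh | hh
    · exact absurd ⟨z, Finset.mem_inter.2 ⟨hz, hh⟩⟩ hne
    · exact hh
  have hlt : ¬ 2 ≤ (F ∩ X).card := by
    intro h2
    obtain ⟨_, hTF, M, hM, _, _, hWM, _⟩ := hF.nodeF h hT hX h2
    rcases hD.mem_side (hTF.isSide hM) with hu | hv
    · exact huX (hWM hu)
    · exact hvX (hWM hv)
  have hcard : (F ∩ X).card = 1 := by
    have := Finset.card_pos.2 hFX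
    omega
  obtain ⟨x, hx⟩ := Finset.card_eq_one.1 hcard
  have hxFX : x ∈ F ∩ X := by rw [hx]; exact Finset.mem_singleton_self x
  obtain ⟨hxF, hxX⟩ := Finset.mem_inter.1 hxFX
  have hxW : x ∈ W := hXW hxX
  have hax : a ≠ x := fun hh => haX (hh ▸ hxX)
  have hbx : b ≠ x := fun hh => hbX (hh ▸ hxX)
  have hXF : ∀ z ∈ X, z ≠ x → z ∉ F := by
    intro z hz hzx hzF
    have : z ∈ F ∩ X := Finset.mem_inter.2 ⟨hzF, hz⟩
    rw [hx, Finset.mem_singleton] at this
    exact hzx this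
  -- `X = {x}`
  have hXx : X = {x} := by
    by_contra hne
    obtain ⟨z, hzX, hzx⟩ : ∃ z ∈ X, z ≠ x := by
      by_contra hall
      push Not at hall
      exact hne (Finset.eq_singleton_iff_unique_mem.2 ⟨hxX, hall⟩)
    obtain ⟨Z, hZ, hzZ⟩ := exists_comp B (X \ {x})
      (Finset.mem_sdiff.2 ⟨hzX, by simpa using hzx⟩)
    have hZsub : Z ⊆ X \ {x} := ((mem_comps_iff B _ Z).1 hZ).2.1.1
    have hZcl := ((mem_comps_iff B _ Z).1 hZ).2.1.2
    have hZX : Z ⊆ X := hZsub.trans Finset.sdiff_subset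
    have hxZ : x ∉ Z := fun hh => (Finset.mem_sdiff.1 (hZsub hh)).2 (by simp)
    have haZ : a ∉ Z := fun hh => haX (hZX hh)
    have hbZ : b ∉ Z := fun hh => hbX (hZX hh)
    have hZcard : Z.card < X.card :=
      Finset.card_lt_card ((Finset.ssubset_iff_of_subset hZX).2 ⟨x, hxX, hxZ⟩)
    -- the neighbours of `Z`
    have hNZ : ∀ p ∈ Z, ∀ q ∈ W, Adj B p q → q ∈ Z ∨ q = x ∨ q = a ∨ q = b := by
      intro p hp q hq hpq
      by_cases hqa : q = a
      · exact Or.inr (Or.inr (Or.inl hqa))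
      by_cases hqb : q = b
      · exact Or.inr (Or.inr (Or.inr hqb))
      have hqR : q ∈ W \ {a, b} := by
        simp only [Finset.mem_sdiff, Finset.mem_insert, Finset.mem_singleton, not_or]
        exact ⟨hq, hqa, hqb⟩
      have hqX : q ∈ X := hXcl p (hZX hp) q hqR hpq
      by_cases hqx : q = x
      · exact Or.inr (Or.inl hqx)
      · exact Or.inl (hZcl p hp q (Finset.mem_sdiff.2 ⟨hqX, by simpa using hqx⟩) hpq)
    -- `Z` is not adjacent to both
    have hnot : ¬ ((∃ p ∈ Z, Adj B p a) ∧ (∃ p ∈ Z, Adj B p b)) := by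
      rintro ⟨⟨p, hp, hpa⟩, ⟨q, hq, hqb⟩⟩
      have hZF : Z ⊆ W \ F := by
        intro t ht
        refine Finset.mem_sdiff.2 ⟨hXW (hZX ht), hXF t (hZX ht) ?_⟩
        intro hh
        exact hxZ (hh ▸ ht)
      obtain ⟨M, hM, hZM⟩ := exists_comp_sup hZ hZF
      have hMcl := ((mem_comps_iff B _ M).1 hM).2.1.2
      refine hF.nFT ⟨M, hM, ?_⟩
      intro t ht
      simp only [Finset.mem_insert, Finset.mem_singleton] at ht
      rcases ht with rfl | rfl
      · exact hMcl p (hZM hp) _ (Finset.mem_sdiff.2 ⟨ha, haF⟩) hpa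
      · exact hMcl q (hZM hq) _ (Finset.mem_sdiff.2 ⟨hb, hbF⟩) hqb
    have hZW : X \ {x} ⊆ W := Finset.sdiff_subset.trans hXW
    by_cases hpa : ∃ p ∈ Z, Adj B p a
    · have hpb : ¬ ∃ p ∈ Z, Adj B p b := fun hh => hnot ⟨hpa, hh⟩
      have hN : ∀ p ∈ Z, ∀ q ∈ W, Adj B p q → q ∈ Z ∨ q = a ∨ q = x := by
        intro p hp q hq hpq
        rcases hNZ p hp q hq hpq with hh | hh | hh | hh
        · exact Or.inl hh
        · exact Or.inr (Or.inr hh)
        · exact Or.inr (Or.inl hh)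
        · exact absurd ⟨p, hp, hh ▸ hpq⟩ hpb
      obtain ⟨hZc, Y', hY', hZY', _⟩ := comp_of_nbhd hZ hZW haZ hxZ hN hb hab.symm hbx hbZ
      rcases IH a x Z Y' hZcard ha hxW hax hZc hY' hZY' with hu | hv
      · exact huX (hZX hu)
      · exact hvX (hZX hv)
    · have hN : ∀ p ∈ Z, ∀ q ∈ W, Adj B p q → q ∈ Z ∨ q = b ∨ q = x := by
        intro p hp q hq hpq
        rcases hNZ p hp q hq hpq with hh | hh | hh | hh
        · exact Or.inl hh
        · exact Or.inr (Or.inr hh)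
        · exact absurd ⟨p, hp, hh ▸ hpq⟩ hpa
        · exact Or.inr (Or.inl hh)
      obtain ⟨hZc, Y', hY', hZY', _⟩ := comp_of_nbhd hZ hZW hbZ hxZ hN ha hab hax haZ
      rcases IH b x Z Y' hZcard hb hxW hbx hZc hY' hZY' with hu | hv
      · exact huX (hZX hu)
      · exact hvX (hZX hv)
  subst hXx
  have hlobe : Lobe W B {a, b} Y := by
    refine ⟨hT, hY, ?_, ?_⟩
    · intro L hL hLs
      have h3 := hL.three_le
      rw [hWY] at hLs ⊢
      refine Finset.eq_of_subset_of_card_le hLs ?_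
      have : (insert a (insert b ({x} : Finset α))).card ≤ 3 :=
        (Finset.card_insert_le _ _).trans (Nat.succ_le_succ
          ((Finset.card_insert_le _ _).trans (by simp)))
      omega
    · intro T' hT' hTt
      have h1 := Finset.card_lt_card hT'
      have h2 : ({a, b} : Finset α).card ≤ 2 := Finset.card_le_two
      have h3 := hTt.2.1
      omega
  have hxl : x ∈ lobeW W {a, b} Y := by
    rw [mem_lobeW]
    refine ⟨hxW, ?_, ?_⟩
    · intro hxY
      exact Finset.disjoint_left.1 (comps_disjoint B _ hX hY hXY) hxX hxY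
    · simp only [Finset.mem_insert, Finset.mem_singleton, not_or]
      exact ⟨hax.symm, hbx.symm⟩
  rcases Lobe.lemma3 hD hst hlobe (Finset.card_pair hab) hxl with ⟨hxv, _⟩ | ⟨hxu, _⟩
  · exact hvX (hxv ▸ hxX)
  · exact huX (hxu ▸ hxX)

end Pool.Agent.DK
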