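import Mathlib
import Pool.Agent.Lib_MP_6f255c_dk.TDL2

/-!
# Theorem D, Lemma 4, adjacent case, part 1 (the lobe)
-/

set_option autoImplicit false

namespace Pool.Agent.DK

open Classical

variable {α : Type*}

/-- LEMMA 4, adjacent case, part 1: if `F'` meets `X`, `F' ⊄ X + a + b` and `a ∈ F'` (so `S := a + (F' ∩ X)` is tight), and
`u, v ∉ X`, then `{a, b} = {u, v}`, and there is a lobe `W \ D₀ ⊆ X + a` with `a ∈ T`, `|T| ≥ 3`.

Proof. `ClV.side_in` for `S ⊆ X + a`: a side inside `X + a`; it contains `u` or `v`, so `a ∈ {u, v}`. Let `F1` cross `S`. `F1` meets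
`F'` (`Crosses.meet`, `S ⊆ F'`) in a vertex `z ∉ S`, so `z ∉ X`, `z ≠ a`, and `z ≠ b` (`b ∉ F'` by `ClV.blocked'` or
`MB.indep`): `F1 ⊄ X + a + b`. `F1 ∩ X ≠ ∅`: otherwise `F1 ⊆ W \ (X + a)` (`a ∉ F1`), which lies in one component of
`W \ S` (`ClV.rest_connected`), against `nTF`. By `ClV.blocked'` `b ∈ F1` (as `a ∉ F1`) and `b + (F1 ∩ X)` is tight;
`ClV.side_in` with the roles of `a, b` exchanged (`Finset.pair_comm`): a side inside `X + b`, so `b ∈ {u, v}`.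
LOBE: `IsSide.exists_lobe` for the side `W \ M ⊆ X + a`: a lobe `T, D₀` with `W \ D₀ ⊆ X + a`. It contains `u` or `v`,
not `b`, no vertex of `X`; so `a ∈ W \ D₀`. If `a ∈ lobeW` then `b ∈ T` (`Lobe.nbr_mem`), but `b ∉ X + a`. So `a ∈ T`. If
`|T| = 2`, let `w ∈ lobeW`; by `Lobe.lemma3` `w ∈ {u, v} = {a, b}`, but `w ≠ a` (`a ∈ T`) and `w ≠ b`. `|T| ≥ 2` anyway. -/
theorem ClD.lemma4_adj_lobe {W : Finset α} {B : Finset α → Prop} {u v : α}
    (hD : ClD W B u v) (hst : Stuck W B) {a b : α} {X Y : Finset α}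
    (ha : a ∈ W) (hb : b ∈ W) (hab : Adj B a b)
    (hX : X ∈ comps B (W \ {a, b})) (hY : Y ∈ comps B (W \ {a, b})) (hXY : X ≠ Y)
    (hu : u ∉ X) (hv : v ∉ X) {F' : Finset α} (hF : MB W B B F') (haF : a ∈ F')
    (hT : Tight W B B (insert a (F' ∩ X))) (hn : ¬ F' ⊆ insert a (insert b X)) :
    ∃ T D₀, Lobe W B T D₀ ∧ W \ D₀ ⊆ insert a X ∧ a ∈ T ∧ 3 ≤ T.card := by
  have h := hD.cl
  have hXcl := ((mem_comps_iff B _ X).1 hX).2.1
  have hbX : b ∉ insert a X := by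
    rw [Finset.mem_insert, not_or]
    refine ⟨fun hh => hab.1 hh.symm, fun hh => ?_⟩
    exact (Finset.mem_sdiff.1 (hXcl.1 hh)).2 (by simp)
  obtain ⟨M, _, _, hside, hsub⟩ := h.side_in ha hb hab.1 hX
    (S := insert a (F' ∩ X)) (Finset.insert_subset_insert _ Finset.inter_subset_right) hT
  obtain ⟨T, D₀, hL, hLsub⟩ := hside.exists_lobe
  have hLX : W \ D₀ ⊆ insert a X := hLsub.trans hsub
  have hua : u ∈ insert a X → u = a := fun hh => (Finset.mem_insert.1 hh).resolve_right hu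
  have hva : v ∈ insert a X → v = a := fun hh => (Finset.mem_insert.1 hh).resolve_right hv
  have haL : a ∈ W \ D₀ := by
    rcases hD.mem_side (hL.tight.isSide hL.comp) with hh | hh
    · rw [← hua (hLX hh)]; exact hh
    · rw [← hva (hLX hh)]; exact hh
  have hD0 := ((mem_comps_iff B _ D₀).1 hL.comp).2.1.1
  have haT : a ∈ T := by
    by_contra haT
    have haw : a ∈ lobeW W T D₀ :=
      mem_lobeW.2 ⟨ha, (Finset.mem_sdiff.1 haL).2, haT⟩
    have hbT : b ∈ T := hL.nbr_mem h hst haw hb hab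
    refine hbX (hLX (Finset.mem_sdiff.2 ⟨hb, fun hbD => ?_⟩))
    exact (Finset.mem_sdiff.1 (hD0 hbD)).2 hbT
  refine ⟨T, D₀, hL, hLX, haT, ?_⟩
  have h2 : 2 ≤ T.card := hL.tight.2.1
  by_contra hlt
  have h2' : T.card = 2 := by omega
  obtain ⟨w, hw⟩ := hL.lobeW_nonempty h hst
  have hw' := mem_lobeW.1 hw
  have hwX : w ∈ insert a X := hLX (Finset.mem_sdiff.2 ⟨hw'.1, hw'.2.1⟩)
  rcases Lobe.lemma3 hD hst hL h2' hw with ⟨hwv, _⟩ | ⟨hwu, _⟩
  · rw [hwv] at hwX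
    have := hva hwX
    rw [hwv, this] at hw'
    exact hw'.2.2 haT
  · rw [hwu] at hwX
    have := hua hwX
    rw [hwu, this] at hw'
    exact hw'.2.2 haT

end Pool.Agent.DK
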