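import Mathlib
import Pool.Agent.Lib_MP_6f255c_dk.TDL2

/-!
# Theorem D, Lemma 4, adjacent case, part 2 (contradiction)
-/

set_option autoImplicit false

namespace Pool.Agent.DK

open Classical

variable {α : Type*}

/-- LEMMA 4, adjacent case, part 2: contradiction from the lobe of part 1.

Proof. `F` crosses `T`, `F ∩ D₀ = {w₀}` (`Lobe.lemma1`), `F = lobeW ∪ {w₀}` (`Lobe.of_crosses`). `b ∈ D₀` as `b ∉ X + a`.
Note `lobeW ⊆ X` (`lobeW ⊆ W \ D₀ ⊆ X + a`, `a ∈ T`), nonempty.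
(2a) `w₀ = b`. First `X ⊆ W \ D₀`: let `x ∈ X ∩ D₀`, `Z` the component of `x` in `D₀ \ {b}`; `Z` avoids `a, b`, is
connected and meets `X`, so `Z ⊆ X` (`comp_subset_of_closed`-style); `Lobe.edge_comp`: `IH` for `Z` and the pair
`{b, t}`, `|Z| < |X|` because `lobeW ⊆ X` is disjoint from `Z ⊆ D₀`: `u` or `v` in `Z ⊆ X`, contradiction. So
`insert a X = W \ D₀`. `S := insert a (F' ∩ X)` is tight and disjoint from `D₀`, so `S = T` (`Lobe.eq_of_disjoint`), `T ⊆ F'`.
`F` meets `F'` (`Crosses.meet` with `T ⊆ F'`): a common vertex in `lobeW` has a neighbour in `T ⊆ F'`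
(`Lobe.exists_nbrT`, `MB.indep`), and `b ∉ F'` (`a ∈ F'`, `a b` adjacent): contradiction.
(2b) `w₀ ≠ b`. Let `Zb` be the component of `b` in `D₀ \ {w₀}`; `Lobe.edge_comp` and `Adj b a`, `a ∈ T`: its `t` is `a`.
 (i) `w₀ ∉ X`. Claim: a vertex of `D₀` is adjacent to no `t ∈ T`, `t ≠ a`. `t ∈ X` (`T ⊆ X + a`). Let `y ∈ D₀` be
 adjacent to `t`. If `y = w₀`: `X` is closed in `W \ {a, b}`, `w₀ ≠ a, b`, so `w₀ ∈ X`, no. Otherwise `y ∈ Z`, a
 component of `D₀ \ {w₀}` with its `t_Z = t` (`edge_comp`: `Z` is adjacent to no other vertex of `T`); `b ∉ Z`, because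
 `Z = Zb` would be adjacent to `a ≠ t`; so `Z ⊆ X` (connected in `W \ {a, b}`, `y` adjacent to `t ∈ X`), and
 `ClV.comp_pair_adj` (pair `{w₀, t}`) gives a vertex of `Z` adjacent to `w₀`: `w₀ ∈ X`, no. So `D₀` is closed in
 `W \ {a}`: `ClV.closed_sdiff_singleton` : `D₀ = W \ {a}`, but `T` has other vertices.
 (ii) `w₀ ∈ X`. Every component `Z ≠ Zb` of `D₀ \ {w₀}` avoids `a, b`, is adjacent to `w₀ ∈ X`
 (`ClV.comp_pair_adj`), so `Z ⊆ X \ {w₀}`: `IH`, contradiction. So `D₀ = insert w₀ Zb`. `edge_comp`: `Zb` is a component of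
 `W \ {w₀, a}` and there is another one `Y'`; `Y' ⊆ W \ {w₀, a} \ Zb ⊆ (W \ D₀) \ {a} ⊆ X`, `w₀ ∉ Y'`: `|Y'| < |X|`, `IH` for `Y'`:
 `u` or `v` in `Y' ⊆ X`, contradiction. -/
theorem ClD.lemma4_adj_contra {W : Finset α} {B : Finset α → Prop} {u v : α}
    (hD : ClD W B u v) (hst : Stuck W B) {a b : α} {X : Finset α}
    (IH : ∀ (a' b' : α) (X' Y' : Finset α), X'.card < X.card → a' ∈ W → b' ∈ W → a' ≠ b' →
      X' ∈ comps B (W \ {a', b'}) → Y' ∈ comps B (W \ {a', b'}) → X' ≠ Y' → u ∈ X' ∨ v ∈ X')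
    (ha : a ∈ W) (hb : b ∈ W) (hab : Adj B a b)
    (hX : X ∈ comps B (W \ {a, b}))
    (hu : u ∉ X) (hv : v ∉ X) {F' : Finset α} (hF : MB W B B F') (haF : a ∈ F')
    (hT : Tight W B B (insert a (F' ∩ X)))
    {T D₀ : Finset α} (hL : Lobe W B T D₀) (hsub : W \ D₀ ⊆ insert a X) (haT : a ∈ T)
    (h3 : 3 ≤ T.card) : False := by
  have h := hD.cl
  obtain ⟨_, hXcl, _⟩ := (mem_comps_iff B _ X).1 hX
  obtain ⟨hDne, hDcl, _⟩ := (mem_comps_iff B _ D₀).1 hL.comp
  have hXR : ∀ x ∈ X, x ∈ W ∧ x ≠ a ∧ x ≠ b := by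
    intro x hx
    have h1 := Finset.mem_sdiff.1 (hXcl.1 hx)
    simp only [Finset.mem_insert, Finset.mem_singleton, not_or] at h1
    exact h1
  have hmemR : ∀ x ∈ W, x ≠ a → x ≠ b → x ∈ W \ {a, b} := by
    intro x hx hxa hxb
    simp only [Finset.mem_sdiff, Finset.mem_insert, Finset.mem_singleton, not_or]
    exact ⟨hx, hxa, hxb⟩
  have hDW : ∀ z ∈ D₀, z ∈ W ∧ z ∉ T := fun z hz => Finset.mem_sdiff.1 (hDcl.1 hz)
  have haD : a ∉ D₀ := fun hh => (hDW a hh).2 haT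
  have hbD : b ∈ D₀ := by
    by_contra hn
    have h1 := hsub (Finset.mem_sdiff.2 ⟨hb, hn⟩)
    rcases Finset.mem_insert.1 h1 with h2 | h2
    · exact hab.1 h2.symm
    · exact (hXR b h2).2.2 rfl
  have hTX : ∀ t ∈ T, t ≠ a → t ∈ X := by
    intro t ht hta
    have h1 := hsub (Finset.mem_sdiff.2 ⟨hL.tight.1 ht, fun hh => (hDW t hh).2 ht⟩)
    exact (Finset.mem_insert.1 h1).resolve_left hta
  have hWX : ∀ w ∈ lobeW W T D₀, w ∈ X := by
    intro w hw
    obtain ⟨hw1, hw2, hw3⟩ := mem_lobeW.1 hw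
    have h1 := hsub (Finset.mem_sdiff.2 ⟨hw1, hw2⟩)
    exact (Finset.mem_insert.1 h1).resolve_left fun he => hw3 (he ▸ haT)
  have hsupX : ∀ (R Z : Finset α), Z ∈ comps B R → (∀ z ∈ Z, z ∈ W ∧ z ≠ a ∧ z ≠ b) →
      ∀ y ∈ Z, y ∈ X → Z ⊆ X := by
    intro R Z hZ hZR y hyZ hyX
    obtain ⟨M, hM, hZM⟩ := exists_comp_sup (R' := W \ {a, b}) hZ
      (fun z hz => hmemR z (hZR z hz).1 (hZR z hz).2.1 (hZR z hz).2.2)
    have hMX : M = X := by
      by_contra hne
      exact Finset.disjoint_left.1 (comps_disjoint B _ hM hX hne) (hZM hyZ) hyX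
    rw [← hMX]
    exact hZM
  obtain ⟨F, hc⟩ := hst.exists_cross h hL.tight
  obtain ⟨w₀, hwD, hFD⟩ := hL.lemma1 h hst h3 hc
  obtain ⟨hWF, _, hFeq⟩ := hL.of_crosses h hst hc
  have hwW : w₀ ∈ W := (hDW w₀ hwD).1
  have hwa : w₀ ≠ a := fun he => haD (he ▸ hwD)
  have hwT : ∀ t ∈ T, w₀ ≠ t := fun t ht he => (hDW w₀ hwD).2 (he ▸ ht)
  have hZmem : ∀ Z ∈ comps B (D₀ \ {w₀}), ∀ z ∈ Z, z ∈ D₀ ∧ z ≠ w₀ := by
    intro Z hZ z hz
    have h1 := Finset.mem_sdiff.1 (((mem_comps_iff B _ Z).1 hZ).2.1.1 hz)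
    exact ⟨h1.1, by simpa using h1.2⟩
  obtain ⟨y₀, hy₀⟩ := hL.lobeW_nonempty h hst
  by_cases hwb : w₀ = b
  · -- case (2a)
    have hXD : ∀ x ∈ X, x ∉ D₀ := by
      intro x hx hxD
      have hxb : x ∈ D₀ \ {w₀} := by
        rw [Finset.mem_sdiff, Finset.mem_singleton, hwb]
        exact ⟨hxD, (hXR x hx).2.2⟩
      obtain ⟨Z, hZ, hxZ⟩ := exists_comp B _ hxb
      obtain ⟨t, ht, hZt, _, Y, hY, hne⟩ := hL.edge_comp h hst hc hFD hZ
      have hZX : Z ⊆ X := by
        refine hsupX _ Z hZ (fun z hz => ?_) x hxZ hx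
        obtain ⟨h1, h2⟩ := hZmem Z hZ z hz
        exact ⟨(hDW z h1).1, fun he => haD (he ▸ h1), fun he => h2 (he.trans hwb.symm)⟩
      have hlt : Z.card < X.card := by
        refine Finset.card_lt_card ((Finset.ssubset_iff_of_subset hZX).2
          ⟨y₀, hWX y₀ hy₀, fun hyZ => ?_⟩)
        exact (mem_lobeW.1 hy₀).2.1 (hZmem Z hZ y₀ hyZ).1
      rcases IH w₀ t Z Y hlt hwW (hL.tight.1 ht) (hwT t ht) hZt hY hne with h1 | h1
      · exact hu (hZX h1)
      · exact hv (hZX h1)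
    have hdis : Disjoint (insert a (F' ∩ X)) D₀ := by
      rw [Finset.disjoint_left]
      intro x hx
      rcases Finset.mem_insert.1 hx with rfl | h1
      · exact haD
      · exact hXD x (Finset.mem_inter.1 h1).2
    have hST := hL.eq_of_disjoint h hst hT hdis
    have hTF : T ⊆ F' := by
      rw [← hST]
      intro x hx
      rcases Finset.mem_insert.1 hx with rfl | h1
      · exact haF
      · exact (Finset.mem_inter.1 h1).1
    obtain ⟨x, hx⟩ := Crosses.meet h hF hTF hc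
    obtain ⟨hxF, hxF'⟩ := Finset.mem_inter.1 hx
    rw [hFeq] at hxF
    rcases Finset.mem_union.1 hxF with h1 | h1
    · obtain ⟨t, ht, hA⟩ := hL.exists_nbrT h hst h1
      exact hF.indep h hxF' (hTF ht) hA
    · rw [hFD, Finset.mem_singleton] at h1
      rw [h1, hwb] at hxF'
      exact hF.indep h haF hxF' hab
  · -- case (2b)
    have hbR : b ∈ D₀ \ {w₀} := by
      rw [Finset.mem_sdiff, Finset.mem_singleton]
      exact ⟨hbD, fun he => hwb he.symm⟩
    obtain ⟨Zb, hZb, hbZb⟩ := exists_comp B _ hbR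
    obtain ⟨tb, htb, hZbt, hZbo, Y', hY', hne'⟩ := hL.edge_comp h hst hc hFD hZb
    have hta : tb = a := by
      by_contra hn
      exact hZbo a haT (fun he => hn he.symm) b hbZb (adj_symm hab)
    rw [hta] at hZbt hY'
    by_cases hwX : w₀ ∈ X
    · -- (ii)
      have hall : ∀ Z ∈ comps B (D₀ \ {w₀}), Z = Zb := by
        intro Z hZ
        by_contra hnZ
        have hdZ := comps_disjoint B _ hZ hZb hnZ
        obtain ⟨t, ht, hZt, _, Y, hY, hne⟩ := hL.edge_comp h hst hc hFD hZ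
        have hZR : ∀ z ∈ Z, z ∈ W ∧ z ≠ a ∧ z ≠ b := by
          intro z hz
          obtain ⟨h1, _⟩ := hZmem Z hZ z hz
          exact ⟨(hDW z h1).1, fun he => haD (he ▸ h1),
            fun he => Finset.disjoint_left.1 hdZ hz (he ▸ hbZb)⟩
        obtain ⟨⟨z, hz, hzw⟩, _⟩ := h.comp_pair_adj hwW (hL.tight.1 ht) (hwT t ht) hZt
        have hzX : z ∈ X := hXcl.2 w₀ hwX z
          (hmemR z (hZR z hz).1 (hZR z hz).2.1 (hZR z hz).2.2) (adj_symm hzw)
        have hZX : Z ⊆ X := hsupX _ Z hZ hZR z hz hzX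
        have hlt : Z.card < X.card := by
          refine Finset.card_lt_card ((Finset.ssubset_iff_of_subset hZX).2
            ⟨w₀, hwX, fun hyZ => ?_⟩)
          exact (hZmem Z hZ w₀ hyZ).2 rfl
        rcases IH w₀ t Z Y hlt hwW (hL.tight.1 ht) (hwT t ht) hZt hY hne with h1 | h1
        · exact hu (hZX h1)
        · exact hv (hZX h1)
      obtain ⟨_, hY'cl, _⟩ := (mem_comps_iff B _ Y').1 hY'
      have hdY := comps_disjoint B _ hZbt hY' hne'
      have hY'X : Y' ⊆ X := by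
        intro y hy
        have h1 := Finset.mem_sdiff.1 (hY'cl.1 hy)
        simp only [Finset.mem_insert, Finset.mem_singleton, not_or] at h1
        have hyD : y ∉ D₀ := by
          intro hyD
          obtain ⟨Z, hZ, hyZ⟩ := exists_comp B (D₀ \ {w₀}) (v := y)
            (by rw [Finset.mem_sdiff, Finset.mem_singleton]; exact ⟨hyD, h1.2.1⟩)
          rw [hall Z hZ] at hyZ
          exact Finset.disjoint_left.1 hdY hyZ hy
        exact (Finset.mem_insert.1 (hsub (Finset.mem_sdiff.2 ⟨h1.1, hyD⟩))).resolve_left h1.2.2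
      have hlt : Y'.card < X.card := by
        refine Finset.card_lt_card ((Finset.ssubset_iff_of_subset hY'X).2
          ⟨w₀, hwX, fun hyZ => ?_⟩)
        have h1 := Finset.mem_sdiff.1 (hY'cl.1 hyZ)
        exact h1.2 (Finset.mem_insert_self _ _)
      rcases IH w₀ a Y' Zb hlt hwW ha hwa hY' hZbt (fun he => hne' he.symm) with h1 | h1
      · exact hu (hY'X h1)
      · exact hv (hY'X h1)
    · -- (i)
      have hclaim : ∀ y ∈ D₀, ∀ t ∈ T, t ≠ a → ¬ Adj B y t := by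
        intro y hy t ht hta' hA
        have htX := hTX t ht hta'
        by_cases hyw : y = w₀
        · rw [hyw] at hA
          exact hwX (hXcl.2 t htX w₀ (hmemR w₀ hwW hwa hwb) (adj_symm hA))
        · obtain ⟨Z, hZ, hyZ⟩ := exists_comp B (D₀ \ {w₀}) (v := y)
            (by rw [Finset.mem_sdiff, Finset.mem_singleton]; exact ⟨hy, hyw⟩)
          obtain ⟨tz, htz, hZt, hZo, _, _, _⟩ := hL.edge_comp h hst hc hFD hZ
          have htt : tz = t := by
            by_contra hn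
            exact hZo t ht (fun he => hn he.symm) y hyZ hA
          rw [htt] at hZt
          have hZR : ∀ z ∈ Z, z ∈ W ∧ z ≠ a ∧ z ≠ b := by
            intro z hz
            obtain ⟨h1, _⟩ := hZmem Z hZ z hz
            refine ⟨(hDW z h1).1, fun he => haD (he ▸ h1), fun he => ?_⟩
            rw [he] at hz
            exact hZo a haT (fun h2 => hta' (htt.symm.trans h2.symm)) b hz (adj_symm hab)
          have hyX : y ∈ X := hXcl.2 t htX y
            (hmemR y (hZR y hyZ).1 (hZR y hyZ).2.1 (hZR y hyZ).2.2) (adj_symm hA)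
          have hZX : Z ⊆ X := hsupX _ Z hZ hZR y hyZ hyX
          obtain ⟨⟨z, hz, hzw⟩, _⟩ := h.comp_pair_adj hwW (hL.tight.1 ht) (hwT t ht) hZt
          exact hwX (hXcl.2 z (hZX hz) w₀ (hmemR w₀ hwW hwa hwb) hzw)
      have hcl : ClosedIn B (W \ {a}) D₀ := by
        refine ⟨fun z hz => ?_, fun p hp q hq hA => ?_⟩
        · rw [Finset.mem_sdiff, Finset.mem_singleton]
          exact ⟨(hDW z hz).1, fun he => haD (he ▸ hz)⟩
        · rw [Finset.mem_sdiff, Finset.mem_singleton] at hq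
          by_cases hqT : q ∈ T
          · exact absurd hA (hclaim p hp q hqT hq.2)
          · exact hDcl.2 p hp q (Finset.mem_sdiff.2 ⟨hq.1, hqT⟩) hA
      have hDeq := h.closed_sdiff_singleton ha hcl hDne
      obtain ⟨t, ht, hta'⟩ : ∃ t ∈ T, t ≠ a := by
        by_contra hn
        push Not at hn
        have h1 : T.card ≤ 1 := Finset.card_le_one.2 fun x hx y hy => (hn x hx).trans (hn y hy).symm
        omega
      have htD : t ∈ D₀ := by
        rw [hDeq, Finset.mem_sdiff, Finset.mem_singleton]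
        exact ⟨hL.tight.1 ht, hta'⟩
      exact (hDW t htD).2 ht

end Pool.Agent.DK
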