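import Mathlib
import Pool.Agent.Lib_MP_6f255c_dk.TDL4A
import Pool.Agent.Lib_MP_6f255c_dk.TDL4B
import Pool.Agent.Lib_MP_6f255c_dk.TDL4C

/-!
# Theorem D, Lemma 4: every component of the complement of a separating pair contains `u` or `v`
-/

set_option autoImplicit false

namespace Pool.Agent.DK

open Classical

variable {α : Type*}

/-- LEMMA 4, induction. -/
private theorem ClD.lemma4_aux {W : Finset α} {B : Finset α → Prop} {u v : α} (hD : ClD W B u v)
    (hst : Stuck W B) : ∀ n : ℕ, ∀ (a b : α) (X Y : Finset α), X.card = n → a ∈ W → b ∈ W → a ≠ b →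
      X ∈ comps B (W \ {a, b}) → Y ∈ comps B (W \ {a, b}) → X ≠ Y → u ∈ X ∨ v ∈ X := by
  intro n
  induction n using Nat.strong_induction_on with
  | _ n ih =>
    intro a b X Y hn ha hb hab hX hY hXY
    have IH : ∀ (a' b' : α) (X' Y' : Finset α), X'.card < X.card → a' ∈ W → b' ∈ W → a' ≠ b' →
        X' ∈ comps B (W \ {a', b'}) → Y' ∈ comps B (W \ {a', b'}) → X' ≠ Y' →
        u ∈ X' ∨ v ∈ X' := by
      intro a' b' X' Y' hc ha' hb' hab' hX' hY' hXY'
      exact ih X'.card (by omega) a' b' X' Y' rfl ha' hb' hab' hX' hY' hXY'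
    by_cases hA : Adj B a b
    · by_contra hcon
      push Not at hcon
      obtain ⟨hu, hv⟩ := hcon
      obtain ⟨F', hF', _, hn', hcase⟩ := hst.blocked hD.cl ha hb hA hX hY hXY
      rcases hcase with ⟨haF, _, hT⟩ | ⟨hbF, _, hT⟩
      · obtain ⟨T, D₀, hL, hsub, haT, h3⟩ :=
          hD.lemma4_adj_lobe hst ha hb hA hX hY hXY hu hv hF' haF hT hn'
        exact hD.lemma4_adj_contra hst IH ha hb hA hX hu hv hF' haF hT hL hsub haT h3
      · have hX' : X ∈ comps B (W \ {b, a}) := by rw [Finset.pair_comm]; exact hX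
        have hY' : Y ∈ comps B (W \ {b, a}) := by rw [Finset.pair_comm]; exact hY
        have hn'' : ¬ F' ⊆ insert b (insert a X) := by
          rw [Finset.insert_comm]
          exact hn'
        obtain ⟨T, D₀, hL, hsub, haT, h3⟩ :=
          hD.lemma4_adj_lobe hst hb ha (adj_symm hA) hX' hY' hXY hu hv hF' hbF hT hn''
        exact hD.lemma4_adj_contra hst IH hb ha (adj_symm hA) hX' hu hv hF' hbF hT hL hsub haT h3
    · exact hD.lemma4_nonadj hst IH ha hb hab hA hX hY hXY

/-- LEMMA 4. Strong induction on `|X|`; adjacent case: `Stuck.blocked`, by symmetry (`Finset.pair_comm`, adjacency symmetric)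
`a ∈ F'`. -/
theorem ClD.lemma4 {W : Finset α} {B : Finset α → Prop} {u v : α} (hD : ClD W B u v)
    (hst : Stuck W B) {a b : α} {X Y : Finset α}
    (ha : a ∈ W) (hb : b ∈ W) (hab : a ≠ b)
    (hX : X ∈ comps B (W \ {a, b})) (hY : Y ∈ comps B (W \ {a, b})) (hXY : X ≠ Y) :
    u ∈ X ∨ v ∈ X := by
  exact hD.lemma4_aux hst _ a b X Y rfl ha hb hab hX hY hXY

end Pool.Agent.DK
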