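import Mathlib
import Pool.Agent.Lib_MP_6f255c_dk.TDL4

/-!
# Theorem D, Lemma 5, structure of a non-single `D₀`
-/

set_option autoImplicit false

namespace Pool.Agent.DK

open Classical

variable {α : Type*}

/-- three pairwise disjoint sets cannot all contain `u` or `v`. -/
theorem three_disjoint_uv {u v : α} {X Y Z : Finset α} (hXY : Disjoint X Y) (hXZ : Disjoint X Z)
    (hYZ : Disjoint Y Z) (hX : u ∈ X ∨ v ∈ X) (hY : u ∈ Y ∨ v ∈ Y) (hZ : u ∈ Z ∨ v ∈ Z) :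
    False := by
  rw [Finset.disjoint_left] at hXY hXZ hYZ
  rcases hX with hX | hX <;> rcases hY with hY | hY <;> rcases hZ with hZ | hZ
  · exact hXY hX hY
  · exact hXY hX hY
  · exact hXZ hX hZ
  · exact hYZ hY hZ
  · exact hYZ hY hZ
  · exact hXZ hX hZ
  · exact hXY hX hY
  · exact hXY hX hY

/-- a separating pair leaves exactly two components (class D, stuck). -/
theorem ClD.comps_pair {W : Finset α} {B : Finset α → Prop} {u v : α} (hD : ClD W B u v)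
    (hst : Stuck W B) {a b : α} (ha : a ∈ W) (hb : b ∈ W) (hab : a ≠ b) {X Y : Finset α}
    (hX : X ∈ comps B (W \ {a, b})) (hY : Y ∈ comps B (W \ {a, b})) (hXY : X ≠ Y) :
    ∀ Z ∈ comps B (W \ {a, b}), Z = X ∨ Z = Y := by
  intro Z hZ
  by_contra hcon
  push Not at hcon
  exact three_disjoint_uv (comps_disjoint B _ hX hY hXY)
    (comps_disjoint B _ hX hZ (Ne.symm hcon.1)) (comps_disjoint B _ hY hZ (Ne.symm hcon.2))
    (hD.lemma4 hst ha hb hab hX hY hXY) (hD.lemma4 hst ha hb hab hY hX hXY.symm)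
    (hD.lemma4 hst ha hb hab hZ hX hcon.1)

/-- the structure of `D₀` when it is not a single vertex. -/
theorem Lobe.l5_setup {W : Finset α} {B : Finset α → Prop} {u v : α} (hD : ClD W B u v)
    (hst : Stuck W B) {T D₀ : Finset α} (hL : Lobe W B T D₀) {F : Finset α}
    (hc : Crosses W B F T) {w₀ : α} (hw : F ∩ D₀ = {w₀}) (hne : D₀ ≠ {w₀}) :
    ∃ X t₁, t₁ ∈ T ∧ w₀ ∉ X ∧ D₀ = insert w₀ X ∧ X ∈ comps B (W \ {w₀, t₁}) ∧
      (W \ D₀).erase t₁ ∈ comps B (W \ {w₀, t₁}) ∧ X ≠ (W \ D₀).erase t₁ ∧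
      ∀ t' ∈ T, t' ≠ t₁ → ∀ z ∈ X, ¬ Adj B z t' := by
  have h := hD.cl
  have hwD : w₀ ∈ D₀ := by
    have : w₀ ∈ F ∩ D₀ := by rw [hw]; simp
    exact (Finset.mem_inter.1 this).2
  obtain ⟨x, hxD, hxw⟩ : ∃ x ∈ D₀, x ≠ w₀ := by
    by_contra hcon
    push Not at hcon
    exact hne (Finset.eq_singleton_iff_unique_mem.2 ⟨hwD, hcon⟩)
  obtain ⟨X, hX, hxX⟩ := exists_comp B (D₀ \ {w₀})
    (Finset.mem_sdiff.2 ⟨hxD, by simpa using hxw⟩)
  obtain ⟨t₁, ht₁, hXc, hXt, Y, hY, hXY⟩ := hL.edge_comp h hst hc hw hX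
  obtain ⟨_, hDcl, _⟩ := (mem_comps_iff B _ D₀).1 hL.comp
  have hDW : ∀ z ∈ D₀, z ∈ W ∧ z ∉ T := fun z hz => Finset.mem_sdiff.1 (hDcl.1 hz)
  have hXD : ∀ z ∈ X, z ∈ D₀ ∧ z ≠ w₀ := by
    intro z hz
    have := Finset.mem_sdiff.1 (((mem_comps_iff B _ X).1 hX).2.1.1 hz)
    exact ⟨this.1, by simpa using this.2⟩
  have hw0W := (hDW w₀ hwD).1
  have ht1W := hL.tight.1 ht₁
  have hwt : w₀ ≠ t₁ := fun he => (hDW w₀ hwD).2 (he ▸ ht₁)
  have hXuv := hD.lemma4 hst hw0W ht1W hwt hXc hY hXY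
  have hLuv := hD.mem_side (hL.tight.isSide hL.comp)
  have hXL : Disjoint X (W \ D₀) := by
    rw [Finset.disjoint_left]
    intro z hz hzL
    exact (Finset.mem_sdiff.1 hzL).2 (hXD z hz).1
  have hDX : D₀ = insert w₀ X := by
    ext z
    rw [Finset.mem_insert]
    constructor
    · intro hz
      by_cases hzw : z = w₀
      · exact Or.inl hzw
      right
      obtain ⟨Z, hZ, hzZ⟩ := exists_comp B (D₀ \ {w₀})
        (Finset.mem_sdiff.2 ⟨hz, by simpa using hzw⟩)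
      by_cases hZX : Z = X
      · rw [← hZX]; exact hzZ
      exfalso
      obtain ⟨t, ht, hZc, _, Y', hY', hZY'⟩ := hL.edge_comp h hst hc hw hZ
      have hZD : ∀ z ∈ Z, z ∈ D₀ := fun z hz =>
        (Finset.mem_sdiff.1 (((mem_comps_iff B _ Z).1 hZ).2.1.1 hz)).1
      have hZuv := hD.lemma4 hst hw0W (hL.tight.1 ht) (fun he => (hDW w₀ hwD).2 (he ▸ ht))
        hZc hY' hZY'
      refine three_disjoint_uv (comps_disjoint B _ hX hZ (Ne.symm hZX)) hXL ?_ hXuv hZuv hLuv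
      rw [Finset.disjoint_left]
      intro z hz hzL
      exact (Finset.mem_sdiff.1 hzL).2 (hZD z hz)
    · rintro (rfl | hz)
      · exact hwD
      · exact (hXD z hz).1
  have hwX : w₀ ∉ X := fun hwX => (hXD w₀ hwX).2 rfl
  have hYR : Y = (W \ D₀).erase t₁ := by
    have hYcl := ((mem_comps_iff B _ Y).1 hY).2.1
    have hYX : Disjoint Y X := comps_disjoint B _ hY hXc hXY.symm
    ext z
    rw [Finset.mem_erase, Finset.mem_sdiff]
    constructor
    · intro hz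
      have hz1 := Finset.mem_sdiff.1 (hYcl.1 hz)
      simp only [Finset.mem_insert, Finset.mem_singleton, not_or] at hz1
      refine ⟨hz1.2.2, hz1.1, ?_⟩
      rw [hDX, Finset.mem_insert, not_or]
      exact ⟨hz1.2.1, fun hzX => Finset.disjoint_left.1 hYX hz hzX⟩
    · rintro ⟨hzt, hzW, hzD⟩
      have hzm : z ∈ W \ {w₀, t₁} := by
        refine Finset.mem_sdiff.2 ⟨hzW, ?_⟩
        simp only [Finset.mem_insert, Finset.mem_singleton, not_or]
        exact ⟨fun he => hzD (he ▸ hwD), hzt⟩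
      obtain ⟨Z, hZ, hzZ⟩ := exists_comp B (W \ {w₀, t₁}) hzm
      rcases hD.comps_pair hst hw0W ht1W hwt hXc hY hXY Z hZ with he | he
      · exact absurd (hXD z (he ▸ hzZ)).1 hzD
      · exact he ▸ hzZ
  refine ⟨X, t₁, ht₁, hwX, hDX, hXc, hYR ▸ hY, hYR ▸ hXY, hXt⟩

/-- STRUCTURE. Suppose `|T| ≥ 3`, `F` crosses `T`, `F ∩ D₀ = {w₀}`, `D₀ ≠ {w₀}`. Then there is `t₁ ∈ T` such that
`D₀ = {w₀} ∪ X`, where `X` and `R := (W \ D₀) \ {t₁}` are the only two components of `W \ {w₀, t₁}`; and every set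
disjoint from `X` which contains `u` or `v`... precisely: any two disjoint sets both disjoint from `X` do not
both contain a special vertex.

Proof. Let `X` be a component of `D₀ \ {w₀}`, `Lobe.edge_comp`: `t₁`. `ClD.lemma4`: `X` contains `u` or `v`; the side `W \ D₀`
contains `u` or `v` too (`ClD.mem_side`). So exactly one of `u, v` is in `X`. Another component `X'` of `D₀ \ {w₀}` contains
`u` or `v` by Lemma 4, but `X, X', W \ D₀` are pairwise disjoint. So `D₀ = {w₀} ∪ X`. `W \ {w₀, t₁} = X ∪ R`; every component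
of `W \ {w₀, t₁}` other than `X` is contained in `R` and contains `u` or `v` (Lemma 4), hence the special vertex not
in `X`; so there is only one, and it is `R` (there is at least one by `edge_comp`). -/
theorem ClD.lemma5_struct {W : Finset α} {B : Finset α → Prop} {u v : α} (hD : ClD W B u v)
    (hst : Stuck W B) {T D₀ : Finset α} (hL : Lobe W B T D₀) (h3 : 3 ≤ T.card)
    {F : Finset α} (hc : Crosses W B F T) {w₀ : α} (hw : F ∩ D₀ = {w₀}) (hne : D₀ ≠ {w₀}) :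
    ∃ t₁ ∈ T, ∃ X, w₀ ∉ X ∧ D₀ = insert w₀ X ∧ X ∈ comps B (W \ {w₀, t₁}) ∧
      (W \ D₀) \ {t₁} ∈ comps B (W \ {w₀, t₁}) ∧ X ≠ (W \ D₀) \ {t₁} ∧
      (∀ P Q : Finset α, Disjoint P X → Disjoint Q X → Disjoint P Q →
        (u ∈ P ∨ v ∈ P) → (u ∈ Q ∨ v ∈ Q) → False) := by
  obtain ⟨X, t₁, ht₁, hwX, hDX, hX, hR, hXR, _⟩ := hL.l5_setup hD hst hc hw hne
  have hDcl := ((mem_comps_iff B _ D₀).1 hL.comp).2.1
  have hDW : ∀ z ∈ D₀, z ∈ W ∧ z ∉ T := fun z hz => Finset.mem_sdiff.1 (hDcl.1 hz)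
  have hwD : w₀ ∈ D₀ := by rw [hDX]; simp
  have hwt : w₀ ≠ t₁ := fun he => (hDW w₀ hwD).2 (he ▸ ht₁)
  have hXuv := hD.lemma4 hst (hDW w₀ hwD).1 (hL.tight.1 ht₁) hwt hX hR hXR
  rw [← Finset.sdiff_singleton_eq_erase] at hR hXR
  refine ⟨t₁, ht₁, X, hwX, hDX, hX, hR, hXR, ?_⟩
  intro P Q hPX hQX hPQ hP hQ
  exact three_disjoint_uv hPX.symm hQX.symm hPQ hXuv hP hQ

end Pool.Agent.DK
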