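import Mathlib
import Pool.Agent.Lib_MP_6f255c_dk.TDL4
import Pool.Agent.Lib_MP_6f255c_dk.TDL5A

/-!
# Theorem D, Lemma 5, nonadjacent case
-/

set_option autoImplicit false

namespace Pool.Agent.DK

open Classical

variable {α : Type*}

/-- nonadjacent case. -/
theorem Lobe.l5_nonadj {W : Finset α} {B : Finset α → Prop} {u v : α} (hD : ClD W B u v)
    (hst : Stuck W B) {T D₀ : Finset α} (hL : Lobe W B T D₀) {F : Finset α}
    (hc : Crosses W B F T) (h3 : 3 ≤ T.card) {w₀ : α} (hw : F ∩ D₀ = {w₀}) {X : Finset α} {t₁ : α}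
    (ht₁ : t₁ ∈ T) (hwX : w₀ ∉ X) (hDX : D₀ = insert w₀ X) (hX : X ∈ comps B (W \ {w₀, t₁}))
    (hR : (W \ D₀).erase t₁ ∈ comps B (W \ {w₀, t₁})) (hXR : X ≠ (W \ D₀).erase t₁)
    (hXt : ∀ t' ∈ T, t' ≠ t₁ → ∀ z ∈ X, ¬ Adj B z t') (hn : ¬ Adj B w₀ t₁) : False := by
  have h := hD.cl
  have hDcl := ((mem_comps_iff B _ D₀).1 hL.comp).2.1
  have hDW : ∀ z ∈ D₀, z ∈ W ∧ z ∉ T := fun z hz => Finset.mem_sdiff.1 (hDcl.1 hz)
  have hwD : w₀ ∈ D₀ := by rw [hDX]; simp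
  have hw0W := (hDW w₀ hwD).1
  have ht1W := hL.tight.1 ht₁
  have hwt : w₀ ≠ t₁ := fun he => (hDW w₀ hwD).2 (he ▸ ht₁)
  have hXuv := hD.lemma4 hst hw0W ht1W hwt hX hR hXR
  obtain ⟨htight, hcomps, _, _⟩ := h.tight_pair hw0W ht1W hwt hn hX hR hXR
  obtain ⟨F₂, hc₂⟩ := hst.exists_cross h htight
  set R := (W \ D₀).erase t₁ with hRdef
  have hRD : ∀ z ∈ R, z ∈ W ∧ z ∉ D₀ ∧ z ≠ t₁ := by
    intro z hz
    rw [hRdef, Finset.mem_erase, Finset.mem_sdiff] at hz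
    exact ⟨hz.2.1, hz.2.2, hz.1⟩
  have hRcl := ((mem_comps_iff B _ R).1 hR).2.1
  have hF2W := hc₂.mb.1.1
  have hF2w : w₀ ∉ F₂ := fun hF => Finset.disjoint_left.1 hc₂.disj hF (by simp)
  have hF2t : t₁ ∉ F₂ := fun hF => Finset.disjoint_left.1 hc₂.disj hF (by simp)
  have hF2R : (F₂ ∩ R).Nonempty := by
    by_contra hemp
    rw [Finset.not_nonempty_iff_eq_empty] at hemp
    refine hc₂.nTF ⟨X, hX, fun z hz => ?_⟩
    have hzm : z ∈ W \ {w₀, t₁} := by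
      refine Finset.mem_sdiff.2 ⟨hF2W hz, ?_⟩
      simp only [Finset.mem_insert, Finset.mem_singleton, not_or]
      exact ⟨fun he => hF2w (he ▸ hz), fun he => hF2t (he ▸ hz)⟩
    obtain ⟨Z, hZ, hzZ⟩ := exists_comp B (W \ {w₀, t₁}) hzm
    rw [hcomps, Finset.mem_insert, Finset.mem_singleton] at hZ
    rcases hZ with rfl | rfl
    · exact hzZ
    · have : z ∈ F₂ ∩ R := Finset.mem_inter.2 ⟨hz, hzZ⟩
      rw [hemp] at this
      simp at this
  -- the node in `R` is single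
  have hone : (F₂ ∩ R).card = 1 := by
    by_contra hne1
    have h2 : 2 ≤ (F₂ ∩ R).card := by
      have := hF2R.card_pos
      omega
    obtain ⟨_, hTt, M, hM, hsub, _, hMR, _⟩ := hc₂.nodeF h htight hR h2
    have hside : IsSide W B (W \ M) := hTt.isSide hM
    have heq := hL.minSide _ hside (by
      intro z hz
      have := hRD z (hMR hz)
      exact Finset.mem_sdiff.2 ⟨this.1, this.2.1⟩)
    have ht1L : t₁ ∈ W \ D₀ := Finset.mem_sdiff.2 ⟨ht1W, fun hD' => (hDW t₁ hD').2 ht₁⟩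
    rw [← heq] at ht1L
    exact (Finset.mem_sdiff.1 ht1L).2 (hsub (by simp))
  obtain ⟨x, hx⟩ := Finset.card_eq_one.1 hone
  have hxFR : x ∈ F₂ ∩ R := by rw [hx]; simp
  have hxuniq : ∀ z, z ∈ F₂ → z ∈ R → z = x := by
    intro z hz hz'
    have : z ∈ F₂ ∩ R := Finset.mem_inter.2 ⟨hz, hz'⟩
    rw [hx] at this
    simpa using this
  rw [Finset.mem_inter] at hxFR
  have hcard := hL.card_lobeW h hst
  have hTR : ∀ t ∈ T, t ≠ t₁ → t ∈ R := by
    intro t ht hne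
    rw [hRdef, Finset.mem_erase, Finset.mem_sdiff]
    exact ⟨hne, hL.tight.1 ht, fun hD' => (hDW t hD').2 ht⟩
  have hWR : ∀ z ∈ lobeW W T D₀, z ∈ R := by
    intro z hz
    rw [mem_lobeW] at hz
    rw [hRdef, Finset.mem_erase, Finset.mem_sdiff]
    exact ⟨fun he => hz.2.2 (he ▸ ht₁), hz.1, hz.2.1⟩
  have hxT : x ∈ T := by
    by_contra hxT
    have hxW : x ∈ lobeW W T D₀ := by
      have := hRD x hxFR.2
      exact mem_lobeW.2 ⟨this.1, this.2.1, hxT⟩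
    have hdis : Disjoint F₂ T := by
      rw [Finset.disjoint_left]
      intro z hz hzT
      by_cases hzt : z = t₁
      · exact hF2t (hzt ▸ hz)
      · have := hxuniq z hz (hTR z hzT hzt)
        exact hxT (this ▸ hzT)
    obtain ⟨_, hsub, _⟩ := hL.cross_of_meet h hst hc₂.mb hdis
      ⟨x, Finset.mem_inter.2 ⟨hxFR.1, hxW⟩⟩
    have : (lobeW W T D₀).card ≤ 1 := by
      apply Finset.card_le_one.2
      intro z hz z' hz'
      rw [hxuniq z (hsub hz) (hWR z hz), hxuniq z' (hsub hz') (hWR z' hz')]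
    omega
  have hxt : x ≠ t₁ := (hRD x hxFR.2).2.2
  -- `w₀` and `t₁` are in different components of `W \ F₂`
  have hsep : ∀ M ∈ comps B (W \ F₂), w₀ ∈ M → t₁ ∉ M := by
    intro M hM hwM htM
    refine hc₂.nFT ⟨M, hM, ?_⟩
    intro z hz
    simp only [Finset.mem_insert, Finset.mem_singleton] at hz
    rcases hz with rfl | rfl
    · exact hwM
    · exact htM
  -- components of `R \ {x}`
  have hRx : R \ {x} ⊆ W \ F₂ := by
    intro z hz
    rw [Finset.mem_sdiff, Finset.mem_singleton] at hz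
    exact Finset.mem_sdiff.2 ⟨(hRD z hz.1).1, fun hzF => hz.2 (hxuniq z hzF hz.1)⟩
  have hnot : ∀ Z ∈ comps B (R \ {x}), ∀ z ∈ Z, ∀ z' ∈ Z, Adj B z w₀ → Adj B z' t₁ → False := by
    intro Z hZ z hz z' hz' hA hA'
    have hZcl := ((mem_comps_iff B _ Z).1 hZ).2.1
    obtain ⟨M, hM, hZM⟩ := exists_comp_sup hZ (hZcl.1.trans hRx)
    have hMcl := ((mem_comps_iff B _ M).1 hM).2.1
    exact hsep M hM (hMcl.2 z (hZM hz) w₀ (Finset.mem_sdiff.2 ⟨hw0W, hF2w⟩) hA)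
      (hMcl.2 z' (hZM hz') t₁ (Finset.mem_sdiff.2 ⟨ht1W, hF2t⟩) hA')
  have hnbr : ∀ Z ∈ comps B (R \ {x}), ∀ z ∈ Z, ∀ y ∈ W, Adj B z y →
      y ∈ Z ∨ y = x ∨ y = w₀ ∨ y = t₁ := by
    intro Z hZ z hz y hy hA
    have hZcl := ((mem_comps_iff B _ Z).1 hZ).2.1
    by_cases hy1 : y = w₀
    · exact Or.inr (Or.inr (Or.inl hy1))
    by_cases hy2 : y = t₁
    · exact Or.inr (Or.inr (Or.inr hy2))
    have hzR := (Finset.mem_sdiff.1 (hZcl.1 hz)).1
    have hyR : y ∈ R := hRcl.2 z hzR y (Finset.mem_sdiff.2 ⟨hy, by simp [hy1, hy2]⟩) hA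
    by_cases hy3 : y = x
    · exact Or.inr (Or.inl hy3)
    · exact Or.inl (hZcl.2 z hz y (Finset.mem_sdiff.2 ⟨hyR, by simpa using hy3⟩) hA)
  have hxW := (hRD x hxFR.2).1
  have hxw : x ≠ w₀ := fun he => (hRD x hxFR.2).2.1 (he ▸ hwD)
  -- a component of `R \ {x}` adjacent to `t₁`
  obtain ⟨w, hwL, hwA⟩ := hL.exists_nbr h hst ht₁
  have hwm : w ∈ R \ {x} := by
    refine Finset.mem_sdiff.2 ⟨hWR w hwL, ?_⟩
    rw [Finset.mem_singleton]
    rintro rfl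
    exact (mem_lobeW.1 hwL).2.2 hxT
  obtain ⟨Z₁, hZ₁, hwZ₁⟩ := exists_comp B (R \ {x}) hwm
  have hZR : ∀ Z ∈ comps B (R \ {x}), ∀ z ∈ Z, z ∈ R ∧ z ≠ x := by
    intro Z hZ z hz
    have := Finset.mem_sdiff.1 (((mem_comps_iff B _ Z).1 hZ).2.1.1 hz)
    exact ⟨this.1, by simpa using this.2⟩
  have hZX : ∀ Z ∈ comps B (R \ {x}), Disjoint X Z := by
    intro Z hZ
    rw [Finset.disjoint_left]
    intro z hzX hzZ
    exact (hRD z (hZR Z hZ z hzZ).1).2.1 (by rw [hDX]; exact Finset.mem_insert_of_mem hzX)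
  have hZ₁uv : u ∈ Z₁ ∨ v ∈ Z₁ := by
    obtain ⟨h1, Y, hY, hne, _⟩ := comp_of_nbhd (W := W) (y := w₀) (a := x) (b := t₁) hZ₁
      (fun z hz => (hRD z (Finset.mem_sdiff.1 hz).1).1)
      (fun hm => (hZR Z₁ hZ₁ x hm).2 rfl)
      (fun hm => (hRD t₁ (hZR Z₁ hZ₁ t₁ hm).1).2.2 rfl)
      (by
        intro z hz y hy hA
        rcases hnbr Z₁ hZ₁ z hz y hy hA with h1 | h1 | h1 | h1
        · exact Or.inl h1
        · exact Or.inr (Or.inl h1)
        · subst h1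
          exact absurd (hnot Z₁ hZ₁ z hz w hwZ₁ hA hwA) (by simp)
        · exact Or.inr (Or.inr h1))
      hw0W hxw.symm hwt (fun hm => (hRD w₀ (hZR Z₁ hZ₁ w₀ hm).1).2.1 hwD)
    exact hD.lemma4 hst hxW ht1W hxt h1 hY hne
  -- `w₀` has no neighbour in `R \ {x}`
  have hw0R : ∀ r ∈ R, r ≠ x → ¬ Adj B w₀ r := by
    intro r hr hrx hA
    obtain ⟨Z₂, hZ₂, hrZ₂⟩ := exists_comp B (R \ {x})
      (Finset.mem_sdiff.2 ⟨hr, by simpa using hrx⟩)
    have hZ₂uv : u ∈ Z₂ ∨ v ∈ Z₂ := by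
      obtain ⟨h1, Y, hY, hne, _⟩ := comp_of_nbhd (W := W) (y := t₁) (a := x) (b := w₀) hZ₂
        (fun z hz => (hRD z (Finset.mem_sdiff.1 hz).1).1)
        (fun hm => (hZR Z₂ hZ₂ x hm).2 rfl)
        (fun hm => (hRD w₀ (hZR Z₂ hZ₂ w₀ hm).1).2.1 hwD)
        (by
          intro z hz y hy hA'
          rcases hnbr Z₂ hZ₂ z hz y hy hA' with h1 | h1 | h1 | h1
          · exact Or.inl h1
          · exact Or.inr (Or.inl h1)
          · exact Or.inr (Or.inr h1)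
          · subst h1
            exact absurd (hnot Z₂ hZ₂ r hrZ₂ z hz (adj_symm hA) hA') (by simp))
        ht1W hxt.symm hwt.symm (fun hm => (hRD t₁ (hZR Z₂ hZ₂ t₁ hm).1).2.2 rfl)
      exact hD.lemma4 hst hxW hw0W hxw h1 hY hne
    have hne : Z₁ ≠ Z₂ := by
      rintro rfl
      exact hnot Z₁ hZ₁ r hrZ₂ w hwZ₁ (adj_symm hA) hwA
    exact three_disjoint_uv (hZX Z₁ hZ₁) (hZX Z₂ hZ₂) (comps_disjoint B _ hZ₁ hZ₂ hne)
      hXuv hZ₁uv hZ₂uv
  -- `D₀` is a component of `W \ {t₁, x}`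
  have hpair : ({t₁, x} : Finset α) ⊂ T := by
    refine Finset.ssubset_iff_subset_ne.2 ⟨?_, ?_⟩
    · intro z hz
      simp only [Finset.mem_insert, Finset.mem_singleton] at hz
      rcases hz with rfl | rfl
      · exact ht₁
      · exact hxT
    · intro he
      rw [← he, Finset.card_pair hxt.symm] at h3
      omega
  obtain ⟨t₃, ht₃, ht₃n⟩ := Finset.exists_of_ssubset hpair
  simp only [Finset.mem_insert, Finset.mem_singleton, not_or] at ht₃n
  obtain ⟨h1, Y, hY, hne, _⟩ := comp_of_nbhd (W := W) (y := t₃) (a := t₁) (b := x) hL.comp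
    Finset.sdiff_subset (fun hm => (hDW t₁ hm).2 ht₁) (fun hm => (hDW x hm).2 hxT)
    (by
      intro z hz y hy hA
      by_cases hyT : y ∈ T
      · by_cases hyt : y = t₁
        · exact Or.inr (Or.inl hyt)
        · right; right
          rw [hDX, Finset.mem_insert] at hz
          rcases hz with rfl | hz
          · by_contra hyx
            exact hw0R y (hTR y hyT hyt) hyx hA
          · exact absurd hA (hXt y hyT hyt z hz)
      · exact Or.inl (hDcl.2 z hz y (Finset.mem_sdiff.2 ⟨hy, hyT⟩) hA))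
    (hL.tight.1 ht₃) ht₃n.1 ht₃n.2 (fun hm => (hDW t₃ hm).2 ht₃)
  have hnadj : ¬ Adj B t₁ x := hL.tight.indep h ht₁ hxT
  obtain ⟨htp, _⟩ := h.tight_pair ht1W hxW hxt.symm hnadj h1 hY hne
  exact hL.minT _ hpair htp h1

/-- LEMMA 5, nonadjacent case `w₀ t₁`: contradiction.

Proof. `{w₀, t₁}` is tight (`ClV.tight_pair`), crossed by `F2`, which meets `X` and `R := (W \ D₀) \ {t₁}`. If
`|F2 ∩ R| ≥ 2`: it is tight (`Crosses.nodeF`) and disjoint from `D₀`, so it is `T` (`Lobe.eq_of_disjoint`), but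
`t₁ ∉ R`. So `F2 ∩ R = {c}`. If `c ∉ T`: `c ∈ lobeW`, `F2` is disjoint from `T` (`t₁ ∉ F2`, `T \ {t₁} ⊆ R`),
`Lobe.cross_of_meet` : `lobeW ⊆ F2 ∩ R = {c}`, `|T| ≤ 2`. So `c = t₂ ∈ T`. `R \ {t₂}` is nonempty (`lobeW ⊆ R \ {t₂}`). Let `Z` be a
component of `R \ {t₂}`: neighbours in `Z ∪ {t₂, w₀, t₁}`; `Z` is connected in `W \ F2`, and `w₀`, `t₁` are in different
components of `W \ F2` (`nFT`), so `Z` is adjacent to at most one of them, and by `comp_of_nbhd` it is a component of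
`W \ {t₂, w₀}` or `W \ {t₂, t₁}`, there being another one; by Lemma 4 it contains `u` or `v`. By the last statement of
`lemma5_struct` there is only one such `Z` (all are disjoint from `X`), so `Z = R \ {t₂}`. `t₁` has a neighbour in
`lobeW ⊆ Z` (`Lobe.exists_nbr`), so `Z` is not adjacent to `w₀`. So the neighbours of `w₀` are in `X ∪ {t₂}` (not `t₁`:
nonadjacent), those of `X` in `X ∪ {w₀, t₁}`: `D₀` is closed in `W \ {t₁, t₂}`, connected (a component of `W \ T`):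
`D₀ ∈ comps B (W \ {t₁, t₂})`, and there is another component (`lobeW`). `ClV.tight_pair` (`t₁, t₂ ∈ T` are not
adjacent): `{t₁, t₂}` is tight and disjoint from `D₀`, so it is `T`, `|T| = 2`. Contradiction. -/
theorem ClD.lemma5_nonadj {W : Finset α} {B : Finset α → Prop} {u v : α} (hD : ClD W B u v)
    (hst : Stuck W B) {T D₀ : Finset α} (hL : Lobe W B T D₀) (h3 : 3 ≤ T.card)
    {F : Finset α} (hc : Crosses W B F T) {w₀ t₁ : α} (hw : F ∩ D₀ = {w₀}) (ht : t₁ ∈ T)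
    (hn : ¬ Adj B w₀ t₁) {X : Finset α} (hwX : w₀ ∉ X) (hDX : D₀ = insert w₀ X)
    (hX : X ∈ comps B (W \ {w₀, t₁})) (hR : (W \ D₀) \ {t₁} ∈ comps B (W \ {w₀, t₁}))
    (hXR : X ≠ (W \ D₀) \ {t₁})
    (hdis : ∀ P Q : Finset α, Disjoint P X → Disjoint Q X → Disjoint P Q →
        (u ∈ P ∨ v ∈ P) → (u ∈ Q ∨ v ∈ Q) → False) : False := by
  have hDcl := ((mem_comps_iff B _ D₀).1 hL.comp).2.1
  have hXcl := ((mem_comps_iff B _ X).1 hX).2.1
  have hXt : ∀ t' ∈ T, t' ≠ t₁ → ∀ z ∈ X, ¬ Adj B z t' := by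
    intro t' ht' hne z hz hA
    have hT'D : t' ∉ D₀ := fun hm => (Finset.mem_sdiff.1 (hDcl.1 hm)).2 ht'
    have hm : t' ∈ W \ {w₀, t₁} := by
      refine Finset.mem_sdiff.2 ⟨hL.tight.1 ht', ?_⟩
      simp only [Finset.mem_insert, Finset.mem_singleton, not_or]
      exact ⟨fun he => hT'D (by rw [he, hDX]; simp), hne⟩
    exact hT'D (by rw [hDX]; exact Finset.mem_insert_of_mem (hXcl.2 z hz t' hm hA))
  rw [Finset.sdiff_singleton_eq_erase] at hR hXR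
  exact hL.l5_nonadj hD hst hc h3 hw ht hwX hDX hX hR hXR hXt hn

end Pool.Agent.DK
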