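import Mathlib
import Pool.Agent.Lib_MP_6f255c_dk.TDL4
import Pool.Agent.Lib_MP_6f255c_dk.TDAdd

/-!
# Theorem D, Lemma 5, adjacent case
-/

set_option autoImplicit false

namespace Pool.Agent.DK

open Classical

variable {α : Type*}

/-- adjacent case, second possibility: `w₀` in the blocking set. A lobe inside `R + w₀`. -/
theorem Lobe.l5_adj2 {W : Finset α} {B : Finset α → Prop} (h : ClV W B B)
    (hst : Stuck W B) {T D₀ : Finset α} (hL : Lobe W B T D₀) {F : Finset α}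
    (hc : Crosses W B F T) (h3 : 3 ≤ T.card) {w₀ : α} (hw : F ∩ D₀ = {w₀}) {t₁ : α}
    (ht₁ : t₁ ∈ T) (hA : Adj B w₀ t₁) {T' D' : Finset α} (hL' : Lobe W B T' D')
    (hsub : W \ D' ⊆ insert w₀ ((W \ D₀).erase t₁)) : False := by
  have hDcl := ((mem_comps_iff B _ D₀).1 hL.comp).2.1
  have hDW : ∀ z ∈ D₀, z ∈ W ∧ z ∉ T := fun z hz => Finset.mem_sdiff.1 (hDcl.1 hz)
  have hD'cl := ((mem_comps_iff B _ D').1 hL'.comp).2.1
  have hD'W : ∀ z ∈ D', z ∈ W ∧ z ∉ T' := fun z hz => Finset.mem_sdiff.1 (hD'cl.1 hz)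
  have hwD : w₀ ∈ D₀ := by
    have : w₀ ∈ F ∩ D₀ := by rw [hw]; simp
    exact (Finset.mem_inter.1 this).2
  have hw0W := (hDW w₀ hwD).1
  have ht1W := hL.tight.1 ht₁
  have hwt : w₀ ≠ t₁ := fun he => (hDW w₀ hwD).2 (he ▸ ht₁)
  have hwT : w₀ ∉ T := (hDW w₀ hwD).2
  -- `t₁` is in `D'`
  have ht1D' : t₁ ∈ D' := by
    by_contra hcon
    have := hsub (Finset.mem_sdiff.2 ⟨ht1W, hcon⟩)
    rw [Finset.mem_insert, Finset.mem_erase] at this
    rcases this with he | he
    · exact hwt he.symm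
    · exact he.1 rfl
  have ht1T' : t₁ ∉ T' := (hD'W t₁ ht1D').2
  have hT'L : ∀ z ∈ T', z = w₀ ∨ (z ≠ t₁ ∧ z ∈ W ∧ z ∉ D₀) := by
    intro z hz
    have := hsub (Finset.mem_sdiff.2 ⟨hL'.tight.1 hz, fun hm => (hD'W z hm).2 hz⟩)
    rw [Finset.mem_insert, Finset.mem_erase, Finset.mem_sdiff] at this
    exact this
  -- `w₀` is in the lobe
  have hw0D' : w₀ ∉ D' := by
    intro hcon
    have heq := hL.minSide (W \ D') (hL'.tight.isSide hL'.comp) (by
      intro z hz
      have h1 := hsub hz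
      rw [Finset.mem_insert, Finset.mem_erase] at h1
      rcases h1 with he | he
      · exact absurd hcon (he ▸ (Finset.mem_sdiff.1 hz).2)
      · exact he.2)
    have ht1L : t₁ ∈ W \ D₀ := Finset.mem_sdiff.2 ⟨ht1W, fun hD' => (hDW t₁ hD').2 ht₁⟩
    rw [← heq] at ht1L
    exact (Finset.mem_sdiff.1 ht1L).2 ht1D'
  have hw0T' : w₀ ∈ T' := by
    by_contra hcon
    have hwl : w₀ ∈ lobeW W T' D' := mem_lobeW.2 ⟨hw0W, hw0D', hcon⟩
    exact ht1T' (hL'.nbr_mem h hst hwl ht1W hA)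
  set V := lobeW W T D₀ with hVdef
  set V' := lobeW W T' D' with hV'def
  have hV'mem : ∀ z ∈ V', z ∈ T ∨ z ∈ V := by
    intro z hz
    have hz' := mem_lobeW.1 (hV'def ▸ hz)
    have h1 := hsub (Finset.mem_sdiff.2 ⟨hz'.1, hz'.2.1⟩)
    rw [Finset.mem_insert, Finset.mem_erase, Finset.mem_sdiff] at h1
    rcases h1 with he | he
    · exact absurd hw0T' (he ▸ hz'.2.2)
    · by_cases hzT : z ∈ T
      · exact Or.inl hzT
      · right
        rw [hVdef]
        exact mem_lobeW.2 ⟨he.2.1, he.2.2, hzT⟩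
  have hcard := hL.card_lobeW h hst
  have hcard' := hL'.card_lobeW h hst
  rw [← hVdef] at hcard
  rw [← hV'def] at hcard'
  -- `T' ∩ T = ∅`
  have hTT : T' ∩ T = ∅ := by
    by_contra hne
    have hne' : (T' ∩ T).Nonempty := Finset.nonempty_iff_ne_empty.2 hne
    have h1 := hL.hall h hst (S := T' ∩ T) Finset.inter_subset_right hne'
    have h2 := hL'.hall h hst (S := T' \ T) Finset.sdiff_subset
      ⟨w₀, Finset.mem_sdiff.2 ⟨hw0T', hwT⟩⟩
    rw [← hVdef] at h1
    rw [← hV'def] at h2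
    have h1' : (V' \ T).card ≤ (V.filter (fun w => ∀ v ∈ W, Adj B w v → v ∈ T' ∩ T)).card := by
      apply Finset.card_le_card
      intro z hz
      rw [Finset.mem_sdiff] at hz
      have hzV : z ∈ V := (hV'mem z hz.1).resolve_left hz.2
      refine Finset.mem_filter.2 ⟨hzV, fun v hv hzv => Finset.mem_inter.2 ⟨?_, ?_⟩⟩
      · exact hL'.nbr_mem h hst (hV'def ▸ hz.1) hv hzv
      · exact hL.nbr_mem h hst (hVdef ▸ hzV) hv hzv
    have h2' : (V' ∩ T).card ≤ (V'.filter (fun w => ∀ v ∈ W, Adj B w v → v ∈ T' \ T)).card := by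
      apply Finset.card_le_card
      intro z hz
      rw [Finset.mem_inter] at hz
      refine Finset.mem_filter.2 ⟨hz.1, fun v hv hzv => Finset.mem_sdiff.2 ⟨?_, ?_⟩⟩
      · exact hL'.nbr_mem h hst (hV'def ▸ hz.1) hv hzv
      · exact fun hvT => hL.tight.indep h hz.2 hvT hzv
    have h4 := Finset.card_sdiff_add_card_inter V' T
    have h5 : (T' \ T).card + (T' ∩ T).card = T'.card := Finset.card_sdiff_add_card_inter T' T
    omega
  have hTT' : ∀ z ∈ T', z ∉ T := by
    intro z hz hzT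
    have : z ∈ T' ∩ T := Finset.mem_inter.2 ⟨hz, hzT⟩
    rw [hTT] at this
    simp at this
  -- `V' ⊆ T`
  have hV'T : ∀ z ∈ V', z ∈ T := by
    intro z hz
    rcases hV'mem z hz with hzT | hzV
    · exact hzT
    · exfalso
      obtain ⟨t, ht, hzt⟩ := hL'.exists_nbrT h hst (hV'def ▸ hz)
      exact hTT' t ht (hL.nbr_mem h hst (hVdef ▸ hzV) (hL'.tight.1 ht) hzt)
  -- `T' ⊆ F`
  obtain ⟨hVF, _, hFeq⟩ := hL.of_crosses h hst hc
  rw [← hVdef] at hVF hFeq
  rw [hw] at hFeq
  have hT'F : ∀ z ∈ T', z ∈ F := by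
    intro z hz
    rw [hFeq, Finset.mem_union, Finset.mem_singleton]
    rcases hT'L z hz with he | he
    · exact Or.inr he
    · left
      rw [hVdef]
      exact mem_lobeW.2 ⟨he.2.1, he.2.2, hTT' z hz⟩
  have hw0V : w₀ ∉ V := by
    intro hcon
    exact (mem_lobeW.1 (hVdef ▸ hcon)).2.1 hwD
  have hFcard : F.card = T.card := by
    rw [hFeq, Finset.card_union_of_disjoint (by
      rw [Finset.disjoint_singleton_right]; exact hw0V), Finset.card_singleton]
    exact hcard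
  -- the set `S := T \ V'`
  set S := T \ V' with hSdef
  have hV'ne : V'.Nonempty := hV'def ▸ hL'.lobeW_nonempty h hst
  have ht1S : t₁ ∈ S := by
    rw [hSdef, Finset.mem_sdiff]
    refine ⟨ht₁, fun hm => ?_⟩
    exact (mem_lobeW.1 (hV'def ▸ hm)).2.1 ht1D'
  have hScard : S.card + V'.card = T.card := by
    rw [hSdef, Finset.card_sdiff_of_subset hV'T]
    have := Finset.card_le_card hV'T
    omega
  have hST : S ⊆ T := Finset.sdiff_subset
  by_cases hS2 : 2 ≤ S.card
  · -- `S` is tight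
    have hVT'card : (V \ T').card + T'.card = T.card := by
      have h1 : (V ∪ {w₀}) \ T' = V \ T' := by
        ext z
        simp only [Finset.mem_sdiff, Finset.mem_union, Finset.mem_singleton]
        constructor
        · rintro ⟨h1 | h1, h2⟩
          · exact ⟨h1, h2⟩
          · exact absurd hw0T' (h1 ▸ h2)
        · rintro ⟨h1, h2⟩
          exact ⟨Or.inl h1, h2⟩
      rw [← h1, ← hFeq, Finset.card_sdiff_of_subset hT'F]
      have := Finset.card_le_card (show T' ⊆ F from hT'F)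
      omega
    have hcS : S.card ≤ c W B S := by
      have hcl : ∀ w ∈ V \ T', ClosedIn B (W \ S) {w} := by
        intro w hwm
        rw [Finset.mem_sdiff] at hwm
        have hwl := mem_lobeW.1 (hVdef ▸ hwm.1)
        refine ⟨?_, ?_⟩
        · intro z hz
          rw [Finset.mem_singleton] at hz
          subst hz
          exact Finset.mem_sdiff.2 ⟨hwl.1, fun hzS => hwl.2.2 (hST hzS)⟩
        · intro z hz y hy hzy
          rw [Finset.mem_singleton] at hz
          subst hz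
          exfalso
          rw [Finset.mem_sdiff] at hy
          have hyT := hL.nbr_mem h hst (hVdef ▸ hwm.1) hy.1 hzy
          have hyV' : y ∈ V' := by
            by_contra hcon
            exact hy.2 (by rw [hSdef]; exact Finset.mem_sdiff.2 ⟨hyT, hcon⟩)
          exact hwm.2 (hL'.nbr_mem h hst (hV'def ▸ hyV') hwl.1 (adj_symm hzy))
      have hw0S : w₀ ∈ W \ S := Finset.mem_sdiff.2 ⟨hw0W, fun hm => hwT (hST hm)⟩
      have hle := card_add_one_le_comps (G := B) (R := W \ S)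
        ((V \ T').image (fun w => ({w} : Finset α)))
        (by
          intro X hX
          rw [Finset.mem_image] at hX
          obtain ⟨w, hwm, rfl⟩ := hX
          exact ⟨by simp, hcl w hwm⟩)
        (by
          intro X hX Y hY hne
          simp only [Finset.coe_image, Set.mem_image, Finset.mem_coe] at hX hY
          obtain ⟨w, _, rfl⟩ := hX
          obtain ⟨w', _, rfl⟩ := hY
          simp only [Function.onFun, id, Finset.disjoint_singleton]
          rintro rfl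
          exact hne rfl)
        hw0S
        (by
          intro X hX
          rw [Finset.mem_image] at hX
          obtain ⟨w, hwm, rfl⟩ := hX
          rw [Finset.mem_singleton]
          rintro rfl
          exact hw0V (Finset.mem_sdiff.1 hwm).1)
      rw [Finset.card_image_of_injective _ (by
        intro x y hxy
        simpa using hxy)] at hle
      unfold c
      omega
    have hSt := hL.tight.tight_of_subset h hST hS2 hcS
    have heq := hL.eq_of_disjoint h hst hSt (by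
      rw [Finset.disjoint_left]
      intro z hz hzD
      exact (hDW z hzD).2 (hST hz))
    have : S.card = T.card := by rw [heq]
    have := hV'ne.card_pos
    omega
  · -- `S = {t₁}`, `T' = F`
    have hT'card : F.card ≤ T'.card := by
      have : 0 < S.card := Finset.card_pos.2 ⟨t₁, ht1S⟩
      omega
    have heq := Finset.eq_of_subset_of_card_le (show T' ⊆ F from hT'F) hT'card
    exact hL'.tight.2.2.1 (heq ▸ hc.mb.1.2.1)

/-- LEMMA 5, adjacent case: contradiction.

Proof. `Stuck.blocked` for the edge `w₀ t₁` and the component `R := (W \ D₀) \ {t₁}`: `F'`.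
Case `t₁ ∈ F'`, `w₀ ∉ F'`: `t₁ + (F' ∩ R)` is tight and contained in `W \ D₀`, so it is `T` (`Lobe.eq_of_disjoint`), `T ⊆ F'`;
`F` meets `F'` (`Crosses.meet`); `F = lobeW ∪ {w₀}` (`Lobe.of_crosses`): a common vertex in `lobeW` has a neighbour in
`T ⊆ F'`, and `w₀ ∉ F'`. Contradiction.
Case `w₀ ∈ F'`, `t₁ ∉ F'`: `S := w₀ + (F' ∩ R)` is tight; `ClV.side_in` (`a := w₀`, `b := t₁`, `X := R`): a side inside
`w₀ + R`, so a lobe `T', D₀'` with `W \ D₀' ⊆ w₀ + R` (`IsSide.exists_lobe`). `w₀ ∈ W \ D₀'`, otherwise `W \ D₀' ⊆ R ⊆ W \ D₀`,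
equal by `minSide`, but `t₁ ∈ W \ D₀`, `t₁ ∉ R`. `w₀ ∈ T'`: otherwise `w₀ ∈ lobeW W T' D₀'` and `t₁ ∈ T' ⊆ w₀ + R`
(`Lobe.nbr_mem`), no. `X0 := (T' ∩ F) ∪ (lobeW W T' D₀' ∩ T)` is closed in `W \ D₀'`: a neighbour `y ∈ W \ D₀'` of `x ∈ T' ∩ F` is
not in `T'`, so in `lobeW'`, it is not in `F` (`MB.indep`), and it is in `w₀ + R ⊆ F ∪ T`, so in `T`; a neighbour
`y ∈ W \ D₀'` of `x ∈ lobeW' ∩ T` is in `T'` (`nbr_mem`), not in `T` (`Tight.indep`), so in `F`. `X0` contains `w₀`, so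
`X0 = W \ D₀'` (`Lobe.connected`): `T' ⊆ F` and `lobeW' ⊆ T`.
Let `Q := T \ lobeW'`, `t₁ ∈ Q`. Every `w ∈ lobeW \ T'` (`lobeW := lobeW W T D₀`) has all its neighbours in `Q`: they are in `T`
(`nbr_mem`), and a neighbour in `lobeW'` would give `w ∈ T'`. So `c(Q) ≥ |lobeW \ T'| + 1` (`card_le_comps`: the sets `{w}` and
the rest, which contains `w₀`). `|lobeW \ T'| = |lobeW| - (|T'| - 1)` (`T' ⊆ F = lobeW + w₀`, `w₀ ∈ T'`), `|T'| - 1 = |lobeW'|`,
`|lobeW| = |T| - 1`: `c(Q) ≥ |T| - |lobeW'| = |Q|`. If `|Q| ≥ 2`, `Q` is tight (subset of `T`), disjoint from `D₀`, so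
`Q = T`, `lobeW' ∩ T = ∅`, but `lobeW' ⊆ T` is nonempty. If `|Q| = 1`: `|lobeW'| = |T| - 1`, `|T'| = |T| = |F|`, `T' ⊆ F`, so
`T' = F` is bad, contradiction. -/
theorem ClD.lemma5_adj {W : Finset α} {B : Finset α → Prop} {u v : α} (hD : ClD W B u v)
    (hst : Stuck W B) {T D₀ : Finset α} (hL : Lobe W B T D₀) (h3 : 3 ≤ T.card)
    {F : Finset α} (hc : Crosses W B F T) {w₀ t₁ : α} (hw : F ∩ D₀ = {w₀}) (ht : t₁ ∈ T)
    (ha : Adj B w₀ t₁) {X : Finset α} (hwX : w₀ ∉ X) (hDX : D₀ = insert w₀ X)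
    (hX : X ∈ comps B (W \ {w₀, t₁})) (hR : (W \ D₀) \ {t₁} ∈ comps B (W \ {w₀, t₁}))
    (hXR : X ≠ (W \ D₀) \ {t₁}) : False := by
  have h := hD.cl
  have hDcl := ((mem_comps_iff B _ D₀).1 hL.comp).2.1
  have hDW : ∀ z ∈ D₀, z ∈ W ∧ z ∉ T := fun z hz => Finset.mem_sdiff.1 (hDcl.1 hz)
  have hwD : w₀ ∈ D₀ := by rw [hDX]; simp
  have hw0W := (hDW w₀ hwD).1
  have ht1W := hL.tight.1 ht
  have hwt : w₀ ≠ t₁ := fun he => (hDW w₀ hwD).2 (he ▸ ht)
  rw [Finset.sdiff_singleton_eq_erase] at hR hXR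
  obtain ⟨F₁, hF₁, _, _, hcase⟩ := hst.blocked h hw0W ht1W ha hR hX hXR.symm
  rcases hcase with ⟨hwF, htF, htight⟩ | ⟨htF, hwF, htight⟩
  · obtain ⟨M, hM, _, hside, hsub⟩ := h.side_in hw0W ht1W hwt hR
      (S := insert w₀ (F₁ ∩ (W \ D₀).erase t₁))
      (Finset.insert_subset_insert _ Finset.inter_subset_right) htight
    obtain ⟨T', D', hL', hsub'⟩ := hside.exists_lobe
    exact hL.l5_adj2 h hst hc h3 hw ht ha hL' (hsub'.trans hsub)
  · -- `t₁ ∈ F₁`
    have heq := hL.eq_of_disjoint h hst htight (by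
      rw [Finset.disjoint_left]
      intro z hz hzD
      rw [Finset.mem_insert, Finset.mem_inter, Finset.mem_erase, Finset.mem_sdiff] at hz
      rcases hz with rfl | hz
      · exact (hDW z hzD).2 ht
      · exact hz.2.2.2 hzD)
    have hTF : T ⊆ F₁ := by
      rw [← heq]
      intro z hz
      rw [Finset.mem_insert, Finset.mem_inter] at hz
      rcases hz with rfl | hz
      · exact htF
      · exact hz.1
    obtain ⟨z, hz⟩ := Crosses.meet h hF₁ hTF hc
    rw [Finset.mem_inter] at hz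
    obtain ⟨_, _, hFeq⟩ := hL.of_crosses h hst hc
    have hzF := hz.1
    rw [hFeq, hw, Finset.mem_union, Finset.mem_singleton] at hzF
    rcases hzF with hzV | rfl
    · obtain ⟨t, ht, hzt⟩ := hL.exists_nbrT h hst hzV
      exact hF₁.indep h hz.2 (hTF ht) hzt
    · exact hwF hz.2

end Pool.Agent.DK
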