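import Mathlib
import Pool.Agent.Lib_MP_6f255c_dk.TDL5A
import Pool.Agent.Lib_MP_6f255c_dk.TDL5B
import Pool.Agent.Lib_MP_6f255c_dk.TDL5C

/-!
# Theorem D, Lemma 5: if `|T| ≥ 3` then `D₀` is a single vertex
-/

set_option autoImplicit false

namespace Pool.Agent.DK

open Classical

variable {α : Type*}

/-- LEMMA 5. -/
theorem ClD.lemma5 {W : Finset α} {B : Finset α → Prop} {u v : α} (hD : ClD W B u v)
    (hst : Stuck W B) {T D₀ : Finset α} (hL : Lobe W B T D₀) (h3 : 3 ≤ T.card)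
    {F : Finset α} (hc : Crosses W B F T) :
    ∃ w₀, D₀ = {w₀} ∧ F = lobeW W T D₀ ∪ {w₀} := by
  have h := hD.cl
  obtain ⟨w₀, hw0D, hw⟩ := hL.lemma1 h hst h3 hc
  obtain ⟨_, _, hFeq⟩ := hL.of_crosses h hst hc
  refine ⟨w₀, ?_, by rw [hw] at hFeq; exact hFeq⟩
  by_contra hne
  obtain ⟨t₁, ht₁, X, hwX, hDX, hX, hR, hXR, hdis⟩ := hD.lemma5_struct hst hL h3 hc hw hne
  by_cases hA : Adj B w₀ t₁
  · exact hD.lemma5_adj hst hL h3 hc hw ht₁ hA hwX hDX hX hR hXR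
  · exact hD.lemma5_nonadj hst hL h3 hc hw ht₁ hA hwX hDX hX hR hXR hdis

end Pool.Agent.DK
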