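import Mathlib
import Pool.Agent.Lib_MP_6f255c_dk.TDL5

/-!
# Theorem D, Lemma 6: no lobe with `|T| = 2`
-/

set_option autoImplicit false

namespace Pool.Agent.DK

open Classical

variable {α : Type*}

private theorem tdl6_aux {W : Finset α} {B : Finset α → Prop} {u v : α} (hD : ClD W B u v)
    (hst : Stuck W B) {T D₀ : Finset α} (hL : Lobe W B T D₀) (h2 : T.card = 2) {w : α}
    (hw : w ∈ lobeW W T D₀) (hwv : w = v)
    (hB : ∀ F, MB W B B F → w ∈ F → ∀ Bc ∈ comps B (W \ F.erase w), w ∈ Bc → u ∉ Bc) :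
    False := by
  have h := hD.cl
  obtain ⟨t, t₂, htt, hTeq⟩ := Finset.card_eq_two.1 h2
  have ht : t ∈ T := by rw [hTeq]; simp
  have ht₂ : t₂ ∈ T := by rw [hTeq]; simp
  obtain ⟨F, Y, L, hF, hwF, hY, htY, hYT, hLs, hLY⟩ := hL.lemma2 h hst h2 hw ht
  obtain ⟨T', D', hL', hsub⟩ := hLs.exists_lobe
  obtain ⟨hwW, hwD, hwT⟩ := mem_lobeW.1 hw
  obtain ⟨Bc, hBc, hDB, _, hYB, _⟩ := hL.two_B h hst h2 hw hF hwF
  have hwB : w ∈ Bc := hDB (Finset.mem_sdiff.2 ⟨hwW, hwD⟩)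
  have huB : u ∉ Bc := hB F hF hwF Bc hBc hwB
  have hYBc : Y ⊆ Bc := hYB Y hY ⟨t, Finset.mem_inter.2 ⟨htY, ht⟩⟩
  have hin : ∀ x ∈ W \ D', x ∈ insert w Y := fun x hx => hLY (hsub hx)
  have hinB : ∀ x ∈ W \ D', x ∈ Bc := by
    intro x hx
    rcases Finset.mem_insert.1 (hin x hx) with rfl | h1
    · exact hwB
    · exact hYBc h1
  have hwL : w ∈ W \ D' := by
    rcases hD.mem_side (hL'.tight.isSide hL'.comp) with h1 | h1
    · exact absurd (hinB u h1) huB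
    · rw [hwv]
      exact h1
  have ht₂Y : t₂ ∉ insert w Y := by
    rw [Finset.mem_insert, not_or]
    refine ⟨fun h1 => hwT (h1 ▸ ht₂), fun h1 => ?_⟩
    have h3 : t₂ ∈ Y ∩ T := Finset.mem_inter.2 ⟨h1, ht₂⟩
    rw [hYT, Finset.mem_singleton] at h3
    exact htt h3.symm
  have ht₂D : t₂ ∉ W \ D' := fun h1 => ht₂Y (hin t₂ h1)
  have hwT' : w ∈ T' := by
    by_contra hn
    have hw' : w ∈ lobeW W T' D' := mem_lobeW.2
      ⟨hwW, (Finset.mem_sdiff.1 hwL).2, hn⟩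
    have h3 := hL'.nbr_mem h hst hw' (hL.tight.1 ht₂) ((hL.two h hst h2 hw).2.1 t₂ ht₂)
    exact ht₂D (hL'.mem_sdiff h3)
  by_cases h3 : 3 ≤ T'.card
  · obtain ⟨F', hc'⟩ := hst.exists_cross h hL'.tight
    obtain ⟨w₀, hw₀, _⟩ := hD.lemma5 hst hL' h3 hc'
    have hFD : F.erase w ⊆ D' := by
      intro x hx
      by_contra hxD
      have hxF := Finset.mem_erase.1 hx
      have hxW : x ∈ W := hF.1.1 hxF.2
      rcases Finset.mem_insert.1 (hin x (Finset.mem_sdiff.2 ⟨hxW, hxD⟩)) with h4 | h4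
      · exact hxF.1 h4
      · exact (Finset.mem_sdiff.1 (((mem_comps_iff B _ Y).1 hY).2.1.1 h4)).2 hxF.2
    have h4 := Finset.card_le_card hFD
    rw [hw₀, Finset.card_singleton] at h4
    have h5 := (hL.two_F h hst h2 hw hF hwF).2.2.1
    omega
  · have h4 := hL'.tight.2.1
    have h5 : T'.card = 2 := by omega
    have h6 := hL'.card_lobeW h hst
    have h7 : (lobeW W T' D').Nonempty := by
      rw [← Finset.card_pos]
      omega
    obtain ⟨w', hw'⟩ := h7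
    obtain ⟨hw'W, hw'D, hw'T⟩ := mem_lobeW.1 hw'
    rcases Lobe.lemma3 hD hst hL' h5 hw' with ⟨h8, _⟩ | ⟨h8, _⟩
    · exact hw'T (by rw [h8, ← hwv]; exact hwT')
    · exact huB (hinB u (Finset.mem_sdiff.2 ⟨h8 ▸ hw'W, h8 ▸ hw'D⟩))

/-- LEMMA 6. There is no lobe with `|T| = 2`.

Proof. Let `w ∈ lobeW`. By `Lobe.lemma3` (and symmetry `ClD.symm`) let `w = v`, and `u ∉ Bc` for all `F ∋ w`. Let `t ∈ T`, and
`t₂` the other element of `T`. `Lobe.lemma2`: `F`, `Y ∋ t`, `Y ∩ T = {t}`, a side `L ⊆ w + Y`; `IsSide.exists_lobe`: a lobe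
`T', D'` with `W \ D' ⊆ w + Y`. It contains `u` or `v = w`; `w + Y ⊆ Bc` (`Lobe.two_B`), so `u` is not in it, and
`w ∈ W \ D'`. `t₂ ∉ w + Y`, so `w ∉ lobeW W T' D'` (`Lobe.nbr_mem`, `w` is adjacent to `t₂`): `w ∈ T'`. If `|T'| = 2`:
by `Lobe.lemma3` for this lobe its `w' ∈ lobeW W T' D'` is `v = w` (no, `w ∈ T'`) or `u` (no, `u ∉ w + Y`). If `|T'| ≥ 3`:
`ClD.lemma5`: `D'` is a single vertex; but `t₂ ∈ D'` and `F.erase w ⊆ D'` (`F` is disjoint from `Y`), which has at least 2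
elements. Contradiction. -/
theorem ClD.lemma6 {W : Finset α} {B : Finset α → Prop} {u v : α} (hD : ClD W B u v)
    (hst : Stuck W B) {T D₀ : Finset α} (hL : Lobe W B T D₀) : 3 ≤ T.card := by
  have h := hD.cl
  by_contra hcon
  have h4 := hL.tight.2.1
  have h2 : T.card = 2 := by omega
  have h6 := hL.card_lobeW h hst
  have h7 : (lobeW W T D₀).Nonempty := by
    rw [← Finset.card_pos]
    omega
  obtain ⟨w, hw⟩ := h7
  rcases Lobe.lemma3 hD hst hL h2 hw with ⟨h8, h9⟩ | ⟨h8, h9⟩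
  · exact tdl6_aux hD hst hL h2 hw h8 h9
  · exact tdl6_aux hD.symm hst hL h2 hw h8 h9

end Pool.Agent.DK
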