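import Mathlib
import Pool.Agent.Lib_MP_6f255c_dk.TDL6

/-!
# Theorem D, the end
-/

set_option autoImplicit false

namespace Pool.Agent.DK

open Classical

variable {α : Type*}

/-- Every lobe is `W` minus one vertex, and `W = T ∪ F` (disjoint) for every `F` crossing `T`. -/
theorem ClD.lobe_all {W : Finset α} {B : Finset α → Prop} {u v : α} (hD : ClD W B u v)
    (hst : Stuck W B) {T D₀ : Finset α} (hL : Lobe W B T D₀) :
    ∃ F w₀, Crosses W B F T ∧ D₀ = {w₀} ∧ w₀ ∈ F ∧ W = T ∪ F := by
  have h := hD.cl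
  have h3 := hD.lemma6 hst hL
  obtain ⟨F, hc⟩ := hst.exists_cross h hL.tight
  obtain ⟨w₀, hD₀, hF⟩ := hD.lemma5 hst hL h3 hc
  refine ⟨F, w₀, hc, hD₀, ?_, ?_⟩
  · rw [hF]
    simp
  · ext x
    rw [Finset.mem_union]
    constructor
    · intro hx
      by_cases hxT : x ∈ T
      · exact Or.inl hxT
      · right
        rw [hF, Finset.mem_union, mem_lobeW, Finset.mem_singleton]
        by_cases hxw : x = w₀
        · exact Or.inr hxw
        · left
          refine ⟨hx, ?_, hxT⟩
          rw [hD₀, Finset.mem_singleton]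
          exact hxw
    · rintro (hx | hx)
      · exact hL.tight.1 hx
      · exact hc.mb.1.1 hx

private theorem tdend_closed {W : Finset α} {B : Finset α → Prop} (h : (comps B W).card ≤ 1)
    {X : Finset α} (hX : ClosedIn B W X) (hne : X.Nonempty) : X = W := by
  obtain ⟨x, hx⟩ := hne
  obtain ⟨D, hD, hxD⟩ := exists_comp B W (hX.1 hx)
  have hDX := comp_subset_of_closed B W X hX hD hxD hx
  refine Finset.Subset.antisymm hX.1 (fun y hy => ?_)
  obtain ⟨D', hD', hyD'⟩ := exists_comp B W hy
  have hDD : D' = D := Finset.card_le_one.1 h D' hD' D hD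
  rw [hDD] at hyD'
  exact hDX hyD'

/-- All lobes have the same `T`.

Proof. Let `W = T ∪ F = T' ∪ F'`. `X := (T ∩ T') ∪ (F ∩ F')` is closed in `W` (all four sets are independent: `Tight.indep`,
`MB.indep`), so `X = ∅` or `X = W` (`h.conn`). `X = W`: `T = T'`. `X = ∅`: `T ⊆ F'` and `F' ⊆ T`, so `T = F'` is bad. -/
theorem ClD.lobe_unique {W : Finset α} {B : Finset α → Prop} {u v : α} (hD : ClD W B u v)
    (hst : Stuck W B) {T D₀ T' D₀' : Finset α} (hL : Lobe W B T D₀) (hL' : Lobe W B T' D₀') :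
    T = T' := by
  have h := hD.cl
  obtain ⟨F, w₀, hc, _, _, hW⟩ := hD.lobe_all hst hL
  obtain ⟨F', w₀', hc', _, _, hW'⟩ := hD.lobe_all hst hL'
  have hm : ∀ x ∈ W, x ∈ T ∨ x ∈ F := by
    intro x hx
    rw [hW, Finset.mem_union] at hx
    exact hx
  have hm' : ∀ x ∈ W, x ∈ T' ∨ x ∈ F' := by
    intro x hx
    rw [hW', Finset.mem_union] at hx
    exact hx
  have hcl : ClosedIn B W ((T ∩ T') ∪ (F ∩ F')) := by
    constructor
    · intro x hx
      rw [Finset.mem_union, Finset.mem_inter, Finset.mem_inter] at hx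
      rcases hx with hx | hx
      · exact hL.tight.1 hx.1
      · exact hc.mb.1.1 hx.1
    · intro x hx y hy hA
      rw [Finset.mem_union, Finset.mem_inter, Finset.mem_inter] at hx ⊢
      rcases hx with hx | hx
      · right
        constructor
        · rcases hm y hy with h1 | h1
          · exact absurd hA (hL.tight.indep h hx.1 h1)
          · exact h1
        · rcases hm' y hy with h1 | h1
          · exact absurd hA (hL'.tight.indep h hx.2 h1)
          · exact h1
      · left
        constructor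
        · rcases hm y hy with h1 | h1
          · exact h1
          · exact absurd hA (hc.mb.indep h hx.1 h1)
        · rcases hm' y hy with h1 | h1
          · exact h1
          · exact absurd hA (hc'.mb.indep h hx.2 h1)
  rcases Finset.eq_empty_or_nonempty ((T ∩ T') ∪ (F ∩ F')) with he | hne
  · exfalso
    have hno : ∀ x, ¬ ((x ∈ T ∧ x ∈ T') ∨ (x ∈ F ∧ x ∈ F')) := by
      intro x hx
      have : x ∈ (T ∩ T') ∪ (F ∩ F') := by
        rw [Finset.mem_union, Finset.mem_inter, Finset.mem_inter]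
        exact hx
      rw [he] at this
      simp at this
    have hTF : T = F' := by
      ext x
      constructor
      · intro hx
        rcases hm' x (hL.tight.1 hx) with h1 | h1
        · exact absurd (Or.inl ⟨hx, h1⟩) (hno x)
        · exact h1
      · intro hx
        rcases hm x (hc'.mb.1.1 hx) with h1 | h1
        · exact h1
        · exact absurd (Or.inr ⟨h1, hx⟩) (hno x)
    apply hL.tight.2.2.1
    rw [hTF]
    exact hc'.mb.1.2.1
  · have hXW := tdend_closed h.conn hcl hne
    have hall : ∀ x ∈ W, (x ∈ T ∧ x ∈ T') ∨ (x ∈ F ∧ x ∈ F') := by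
      intro x hx
      rw [← hXW, Finset.mem_union, Finset.mem_inter, Finset.mem_inter] at hx
      exact hx
    ext x
    constructor
    · intro hx
      rcases hall x (hL.tight.1 hx) with h1 | h1
      · exact h1.2
      · exact absurd hx (Finset.disjoint_left.1 hc.disj h1.1)
    · intro hx
      rcases hall x (hL'.tight.1 hx) with h1 | h1
      · exact h1.1
      · exact absurd hx (Finset.disjoint_left.1 hc'.disj h1.2)

private theorem tdend_eq {W : Finset α} {B : Finset α → Prop} {u v : α} (hD : ClD W B u v)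
    (hst : Stuck W B) {T D₀ S : Finset α} (hL : Lobe W B T D₀) (hS : Tight W B B S) : S = T := by
  have h := hD.cl
  have hTS : T ⊆ S := by
    intro t ht
    by_contra htS
    obtain ⟨D, hDc, htD⟩ := exists_comp B (W \ S) (Finset.mem_sdiff.2 ⟨hL.tight.1 ht, htS⟩)
    obtain ⟨T', D', hL', hsub⟩ := (hS.isSide hDc).exists_lobe
    have hTT := hD.lobe_unique hst hL hL'
    have htD' : t ∈ W \ D' := by
      rw [Finset.mem_sdiff]
      refine ⟨hL.tight.1 ht, fun htD' => ?_⟩
      have h1 := ((mem_comps_iff B _ D').1 hL'.comp).2.1.1 htD'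
      rw [Finset.mem_sdiff, ← hTT] at h1
      exact h1.2 ht
    exact (Finset.mem_sdiff.1 (hsub htD')).2 htD
  refine Finset.Subset.antisymm (fun f hf => ?_) hTS
  by_contra hfT
  have hnb : ∃ t ∈ T, Adj B f t := by
    by_cases hfD : f ∈ D₀
    · obtain ⟨F, w₀, hc, hD₀, _, _⟩ := hD.lobe_all hst hL
      obtain ⟨x, hx, t, ht, hA⟩ := exists_adj_of_comp h.conn hL.tight.1 hL.tight.nonempty hL.comp
      rw [hD₀, Finset.mem_singleton] at hx hfD
      rw [hfD, ← hx]
      exact ⟨t, ht, hA⟩
    · exact hL.exists_nbrT h hst (mem_lobeW.2 ⟨hS.1 hf, hfD, hfT⟩)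
  obtain ⟨t, ht, hA⟩ := hnb
  exact hS.indep h hf (hTS ht) hA

private theorem tdend_two {W : Finset α} {B : Finset α → Prop} {S : Finset α} (hS : Tight W B B S) :
    ∃ D, D ∈ comps B (W \ S) := by
  have h2 := hS.2.1
  have h3 := hS.2.2.2
  have : 0 < (comps B (W \ S)).card := by
    unfold c at h3
    omega
  exact Finset.card_pos.1 this

/-- THEOREM D, structure: if there is a tight set `S` then it is the only one, `|S| ≥ 3`, and `W = S ∪ F` for a
minimal bad non-edge `F` disjoint from `S`.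

Proof. Let `T, D₀` be any lobe (from the side of `S`), `W = T ∪ F`. For every component `D` of `W \ S` the side
`W \ D` contains a lobe, whose `T'` is `T`; so `T ⊆ W \ D`; hence `T ⊆ S`. A vertex `f ∈ S \ T` is in `F`; it has a
neighbour in `T` (`f ∈ lobeW`: `Lobe.exists_nbrT`; `f = w₀`: `exists_adj_of_comp` for `D₀ = {w₀}`), against `Tight.indep`. -/
theorem ClD.tight_unique {W : Finset α} {B : Finset α → Prop} {u v : α} (hD : ClD W B u v)
    (hst : Stuck W B) {S : Finset α} (hS : Tight W B B S) :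
    3 ≤ S.card ∧ (∀ S', Tight W B B S' → S' = S) ∧
      ∃ F, MB W B B F ∧ Disjoint F S ∧ W = S ∪ F := by
  obtain ⟨D, hDc⟩ := tdend_two hS
  obtain ⟨T, D₀, hL, _⟩ := (hS.isSide hDc).exists_lobe
  have hST := tdend_eq hD hst hL hS
  subst hST
  obtain ⟨F, w₀, hc, _, _, hW⟩ := hD.lobe_all hst hL
  exact ⟨hD.lemma6 hst hL, fun S' hS' => tdend_eq hD hst hL hS', F, hc.mb, hc.disj, hW⟩

private theorem tdend_blocked {W : Finset α} {B : Finset α → Prop} (h : ClV W B B)
    (hst : Stuck W B) {a b : α} (ha : a ∈ W) (hb : b ∈ W) (hab : Adj B a b) {X Y : Finset α}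
    (hX : X ∈ comps B (W \ {a, b})) (hY : Y ∈ comps B (W \ {a, b})) (hXY : X ≠ Y) :
    ∃ S, Tight W B B S ∧ S ⊆ insert a (insert b X) ∧ (S ∩ X).Nonempty := by
  obtain ⟨F, _, ⟨x, hx⟩, _, hor⟩ := hst.blocked h ha hb hab hX hY hXY
  rcases hor with ⟨_, _, hT⟩ | ⟨_, _, hT⟩
  · refine ⟨_, hT, ?_, x, ?_⟩
    · intro y hy
      simp only [Finset.mem_insert, Finset.mem_inter] at hy ⊢
      tauto
    · rw [Finset.mem_inter] at hx ⊢
      exact ⟨Finset.mem_insert_of_mem (Finset.mem_inter.2 hx), hx.2⟩
  · refine ⟨_, hT, ?_, x, ?_⟩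
    · intro y hy
      simp only [Finset.mem_insert, Finset.mem_inter] at hy ⊢
      tauto
    · rw [Finset.mem_inter] at hx ⊢
      exact ⟨Finset.mem_insert_of_mem (Finset.mem_inter.2 hx), hx.2⟩

/-- No separating pairs.

Proof. `a = b`: `v2` for `{a}`. Otherwise two different components `X, Y` of `W \ {a, b}`. Nonadjacent: `ClV.tight_pair`,
`{a, b}` is tight, but tight sets have at least 3 elements. Adjacent: `Stuck.blocked` for `X` and for `Y`: tight sets
`S_X ⊆ X + a + b` meeting `X`, and `S_Y ⊆ Y + a + b` meeting `Y`; they are equal by `tight_unique`, impossible. -/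
theorem ClD.no_pair {W : Finset α} {B : Finset α → Prop} {u v : α} (hD : ClD W B u v)
    (hst : Stuck W B) : ∀ a ∈ W, ∀ b ∈ W, c W B {a, b} ≤ 1 := by
  have h := hD.cl
  intro a ha b hb
  by_cases hab : a = b
  · subst hab
    rw [Finset.pair_eq_singleton]
    exact h.card_comps_sdiff_singleton ha
  by_contra hlt
  have h2 : 1 < (comps B (W \ {a, b})).card := by
    unfold c at hlt
    omega
  obtain ⟨X, hX, Y, hY, hXY⟩ := Finset.one_lt_card.1 h2
  by_cases hA : Adj B a b
  · obtain ⟨S, hS, hSX, x, hx⟩ := tdend_blocked h hst ha hb hA hX hY hXY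
    obtain ⟨S', hS', hSY, _⟩ := tdend_blocked h hst ha hb hA hY hX hXY.symm
    have hSS := (hD.tight_unique hst hS).2.1 S' hS'
    rw [Finset.mem_inter] at hx
    rw [hSS] at hSY
    have hxY := hSY hx.1
    have hxW := ((mem_comps_iff B _ X).1 hX).2.1.1 hx.2
    simp only [Finset.mem_insert, Finset.mem_sdiff, Finset.mem_singleton, not_or] at hxY hxW
    rcases hxY with h1 | h1 | h1
    · exact hxW.2.1 h1
    · exact hxW.2.2 h1
    · exact Finset.disjoint_left.1 (comps_disjoint B _ hX hY hXY) hx.2 h1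
  · have hT := (h.tight_pair ha hb hab hA hX hY hXY).1
    have h3 := (hD.tight_unique hst hT).1
    rw [Finset.card_pair hab] at h3
    omega

/-- THEOREM D. (`cover`: `W = S ∪ F`, `F` independent.) -/
theorem ClD.ready_of_stuck_td {W : Finset α} {B : Finset α → Prop} {x y : α} (h : ClD W B x y)
    (h4 : 4 ≤ W.card) (hst : Stuck W B) : Ready W B := by
  refine ⟨h.cl, h4, h.no_pair hst, ?_⟩
  intro T hT a ha b hb hA
  obtain ⟨_, _, F, hF, _, hW⟩ := h.tight_unique hst hT
  by_contra hcon
  rw [not_or] at hcon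
  rw [hW, Finset.mem_union] at ha hb
  exact hF.indep h.cl (ha.resolve_left hcon.1) (hb.resolve_left hcon.2) hA

end Pool.Agent.DK
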