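import Mathlib
import Pool.Agent.Lib_MP_6f255c_dk.DDefs
import Pool.Agent.Lib_MP_6f255c_dk.TDFin

/-!
# Theorem D (helper22), end statement
-/

set_option autoImplicit false

namespace Pool.Agent.DK

open Classical

variable {α : Type*}

/-- THEOREM D. -/
theorem ClD.ready_of_stuck {W : Finset α} {B : Finset α → Prop} {x y : α} (h : ClD W B x y)
    (h4 : 4 ≤ W.card) (hst : Stuck W B) : Ready W B :=
  h.ready_of_stuck_td h4 hst

end Pool.Agent.DK
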