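import Mathlib
import Pool.Agent.Lib_MP_6f255c_dk.DDefs
import Pool.Agent.Lib_MP_6f255c_dk.DClosure
import Pool.Agent.Lib_MP_6f255c_dk.QPhase
import Pool.Agent.Lib_MP_6f255c_dk.ReadyB
import Pool.Agent.Lib_MP_6f255c_dk.Measure
import Pool.Agent.Lib_MP_6f255c_dk.StepAPhi
import Pool.Agent.Lib_MP_6f255c_dk.StepBPhi
import Pool.Agent.Lib_MP_6f255c_dk.StepCPhi
import Pool.Agent.Lib_MP_6f255c_dk.TDend

/-!
# The induction: `Phi > 0` on `(1, 2)` in classes D and Q
-/

set_option autoImplicit false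

namespace Pool.Agent.DK

open Classical

variable {α : Type*}

/-- a hyper-tight set is contained in a maximal one. -/
theorem exists_maximal_HT {W : Finset α} {B : Finset α → Prop} {S : Finset α}
    (hS : HT W B B S) : ∃ S', HT W B B S' ∧ ∀ S'' : Finset α, S' ⊂ S'' → ¬ HT W B B S'' := by
  obtain ⟨S', hS', hmax⟩ := Finset.exists_max_image (W.powerset.filter (fun T => HT W B B T))
    Finset.card ⟨S, Finset.mem_filter.2 ⟨Finset.mem_powerset.2 hS.1.1, hS⟩⟩
  rw [Finset.mem_filter] at hS'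
  refine ⟨S', hS'.2, fun S'' hss hHT => ?_⟩
  have h1 := hmax S'' (Finset.mem_filter.2 ⟨Finset.mem_powerset.2 hHT.1.1, hHT⟩)
  have h2 := Finset.card_lt_card hss
  omega

/-- positivity from Step A. -/
theorem phi_pos_stepA {W : Finset α} {B : Finset α → Prop} (h : ClV W B B) {S : Finset α}
    (hS : HT W B B S) (hPF : PF W B B S) {s : α} (hs : s ∈ S) {q : ℝ} (hq : 1 < q)
    (h1 : 0 < Phi W (addBad B S) q)
    (h2 : ∀ K ∈ comps B (W \ S), 0 < Phi (insert s K) (contrBad B S s) q) :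
    0 < Phi W B q := by
  rw [stepA_phi h hS hPF hs hq]
  have h3 : 0 < ∏ K ∈ comps B (W \ S), Phi (insert s K) (contrBad B S s) q :=
    Finset.prod_pos h2
  have h4 : 0 < (q - 1) ^ (S.card - 1) := pow_pos (by linarith) _
  have h5 := mul_pos h4 h3
  linarith

/-- the induction in class D. -/
theorem ClD.phi_pos_aux {q : ℝ} (hq1 : 1 < q) (hq2 : q < 2) :
    ∀ n f e m : ℕ, ∀ (W : Finset α) (B : Finset α → Prop) (x y : α), ClD W B x y →
      W.card = n → fl W B = f → fl W B * nE W B = e → nN W B = m → 0 < Phi W B q := by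
  intro n
  induction n using Nat.strong_induction_on with
  | _ n ihn =>
  intro f
  induction f using Nat.strong_induction_on with
  | _ f ihf =>
  intro e
  induction e using Nat.strong_induction_on with
  | _ e ihe =>
  intro m
  induction m using Nat.strong_induction_on with
  | _ m ihm =>
  intro W B x y h hn hf he hm
  have IHn : ∀ (W' : Finset α) (B' : Finset α → Prop) (x' y' : α), ClD W' B' x' y' →
      W'.card < W.card → 0 < Phi W' B' q := fun W' B' x' y' h' hlt =>
    ihn W'.card (by omega) _ _ _ W' B' x' y' h' rfl rfl rfl rfl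
  have IHf : ∀ (B' : Finset α → Prop) (x' y' : α), ClD W B' x' y' →
      fl W B' < fl W B → 0 < Phi W B' q := fun B' x' y' h' hlt =>
    ihf (fl W B') (by omega) _ _ W B' x' y' h' hn rfl rfl rfl
  have IHe : ∀ (B' : Finset α → Prop) (x' y' : α), ClD W B' x' y' →
      fl W B' = fl W B → fl W B' * nE W B' < fl W B * nE W B → 0 < Phi W B' q :=
    fun B' x' y' h' hfl hlt =>
    ihe (fl W B' * nE W B') (by omega) _ W B' x' y' h' hn (by omega) rfl rfl
  have IHm : ∀ (B' : Finset α → Prop) (x' y' : α), ClD W B' x' y' →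
      fl W B' = fl W B → fl W B' * nE W B' = fl W B * nE W B → nN W B' < nN W B →
      0 < Phi W B' q := fun B' x' y' h' hfl hE hlt =>
    ihm (nN W B') (by omega) W B' x' y' h' hn (by omega) (by omega) rfl
  have htwo := h.cl.two
  by_cases hc2 : W.card = 2
  · rw [h.cl.phi_card_two hc2 hq1]; norm_num
  by_cases hc3 : W.card = 3
  · rw [h.cl.phi_card_three hc3 hq1]; linarith
  have h4 : 4 ≤ W.card := by omega
  by_cases hC : ∃ a b P, Split W B a b P ∧ NoSpread W B a b P
  · obtain ⟨a, b, P, hs, hns⟩ := hC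
    rw [stepC_phi h.cl hs hns hq1]
    exact mul_pos (IHn _ _ _ _ (h.pieceC hs) hs.card_lt)
      (IHn _ _ _ _ (h.pieceC hs.compl) hs.compl.card_lt)
  by_cases hA : ∃ S, HT W B B S
  · obtain ⟨S₀, hS₀⟩ := hA
    obtain ⟨S, hS, hmax⟩ := exists_maximal_HT hS₀
    obtain ⟨s, hs⟩ := hS.1.nonempty
    refine phi_pos_stepA h.cl hS (h.cl.pf_of_maximal hS hmax) hs hq1 ?_ ?_
    · have hD := h.addBad hS
      have hlt := nN_addBad_lt hS.1.1 hS.1.2.2.1
      by_cases h3 : 3 ≤ S.card
      · obtain ⟨hfl, hE⟩ := fl_addBad_three (W := W) (B := B) h3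
        exact IHm _ _ _ hD hfl (by rw [hfl, hE]) hlt
      · have hS2 : S.card = 2 := by have := hS.1.2.1; omega
        have h0 := fl_addBad_two hS2 hS.1
        by_cases hf0 : fl W B = 0
        · exact IHm _ _ _ hD (by rw [h0, hf0]) (by rw [h0, hf0]; simp) hlt
        · exact IHf _ _ _ hD (by omega)
    · intro K hK
      exact IHn _ _ _ _ (h.piece hs hS hK) (card_piece_lt hS.1.1 hS.1.2.1 hK)
  · have hst : Stuck W B := by
      refine ⟨fun S hS => hA ⟨S, hS⟩, fun a b P hs hns => hC ⟨a, b, P, hs, hns⟩⟩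
    have hR := h.ready_of_stuck h4 hst
    obtain ⟨u, hu, v, hv, huv⟩ := hR.exists_edge
    rw [stepB_phi h.cl hu hv huv hq1]
    have hfl1 := hR.fl_eq_one
    have hdel := hR.del hu hv huv
    have hnE := nE_del_lt h.cl hu hv huv (hR.conn3 u hu v hv)
    have hpos1 : 0 < Phi W (delBad W B u v) q := by
      by_cases hf' : fl W (delBad W B u v) = fl W B
      · refine IHe _ _ _ hdel hf' ?_
        rw [hf', hfl1]; omega
      · refine IHf _ _ _ hdel ?_
        have : fl W (delBad W B u v) ≤ 1 := by unfold fl; split <;> omega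
        omega
    have hpos2 : 0 < Phi (insert u (W \ {u, v})) (contrBad (delBad W B u v) {u, v} u) q :=
      IHn _ _ _ _ (hR.con hu hv huv) (card_con_lt hu hv huv.1)
    linarith

theorem ClD.phi_pos {W : Finset α} {B : Finset α → Prop} {x y : α} (h : ClD W B x y) {q : ℝ}
    (hq1 : 1 < q) (hq2 : q < 2) : 0 < Phi W B q :=
  ClD.phi_pos_aux hq1 hq2 _ _ _ _ W B x y h rfl rfl rfl rfl

/-- the induction in class Q. -/
theorem ClQ.phi_pos_aux {q : ℝ} (hq1 : 1 < q) (hq2 : q < 2) :
    ∀ n m : ℕ, ∀ (W : Finset α) (B : Finset α → Prop), ClQ W B →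
      W.card = n → nN W B = m → 0 < Phi W B q := by
  intro n
  induction n using Nat.strong_induction_on with
  | _ n ihn =>
  intro m
  induction m using Nat.strong_induction_on with
  | _ m ihm =>
  intro W B h hn hm
  have IHn : ∀ (W' : Finset α) (B' : Finset α → Prop), ClQ W' B' →
      W'.card < W.card → 0 < Phi W' B' q := fun W' B' h' hlt =>
    ihn W'.card (by omega) _ W' B' h' rfl rfl
  have IHm : ∀ (B' : Finset α → Prop), ClQ W B' → nN W B' < nN W B → 0 < Phi W B' q :=
    fun B' h' hlt => ihm (nN W B') (by omega) W B' h' hn rfl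
  have htwo := h.cl.two
  by_cases hc2 : W.card = 2
  · rw [h.cl.phi_card_two hc2 hq1]; norm_num
  by_cases hc3 : W.card = 3
  · rw [h.cl.phi_card_three hc3 hq1]; linarith
  have h4 : 4 ≤ W.card := by omega
  by_cases hC : ∃ a b P, Split W B a b P
  · obtain ⟨a, b, P, hs⟩ := hC
    rw [stepC_phi h.cl hs (h.noSpread hs) hq1]
    exact mul_pos (IHn _ _ (h.pieceC hs) hs.card_lt)
      (IHn _ _ (h.pieceC hs.compl) hs.compl.card_lt)
  by_cases hA : ∃ S, HT W B B S ∧ ∀ T : Finset α, T ⊂ S → ¬ Tight W B B T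
  · obtain ⟨S, hS, hmin⟩ := hA
    obtain ⟨s, hs⟩ := hS.1.nonempty
    refine phi_pos_stepA h.cl hS (h.pf_of_minimal hS hmin) hs hq1 ?_ ?_
    · exact IHm _ (h.addBad hS hmin) (nN_addBad_lt hS.1.1 hS.1.2.2.1)
    · intro K hK
      exact IHn _ _ (h.piece hs hS hK) (card_piece_lt hS.1.1 hS.1.2.1 hK)
  · have hR : Ready W B := by
      refine h.ready h4 ?_ (fun a b P hs => hC ⟨a, b, P, hs⟩)
      intro S hS
      by_contra hno
      push Not at hno
      exact hA ⟨S, hS, hno⟩
    obtain ⟨u, hu, v, hv, huv⟩ := hR.exists_edge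
    rw [stepB_phi h.cl hu hv huv hq1]
    have hpos1 : 0 < Phi W (delBad W B u v) q := (hR.del hu hv huv).phi_pos hq1 hq2
    have hpos2 : 0 < Phi (insert u (W \ {u, v})) (contrBad (delBad W B u v) {u, v} u) q :=
      (hR.con hu hv huv).phi_pos hq1 hq2
    linarith

theorem ClQ.phi_pos {W : Finset α} {B : Finset α → Prop} (h : ClQ W B) {q : ℝ}
    (hq1 : 1 < q) (hq2 : q < 2) : 0 < Phi W B q :=
  ClQ.phi_pos_aux hq1 hq2 _ _ W B h rfl rfl

end Pool.Agent.DK
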