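import Mathlib
import Pool.Agent.Lib_MP_6f255c_dk.DDefs
import Pool.Agent.Lib_MP_6f255c_dk.MainInd

/-!
# The initial state of a graph is in class Q
-/

set_option autoImplicit false

namespace Pool.Agent.DK

open Classical

variable {V : Type} [Fintype V]

/-- the bad family of the initial state: sets containing an edge of `G`. -/
def iB (G : SimpleGraph V) : Finset V → Prop := fun S => ∃ u ∈ S, ∃ v ∈ S, G.Adj u v

theorem adj_iB {G : SimpleGraph V} {u v : V} : Adj (iB G) u v ↔ G.Adj u v := by
  unfold iB
  constructor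
  · rintro ⟨hne, a, ha, b, hb, hab⟩
    simp only [Finset.mem_insert, Finset.mem_singleton] at ha hb
    rcases ha with rfl | rfl <;> rcases hb with rfl | rfl
    · exact absurd hab (G.irrefl)
    · exact hab
    · exact hab.symm
    · exact absurd hab (G.irrefl)
  · intro h
    exact ⟨h.ne, u, by simp, v, by simp, h⟩

theorem mb_iB {G : SimpleGraph V} {F : Finset V} : ¬ MB Finset.univ (iB G) (iB G) F := by
  rintro ⟨⟨_, hB, hmin⟩, hne⟩
  obtain ⟨u, hu, v, hv, huv⟩ := hB
  have hsub : ({u, v} : Finset V) ⊆ F := by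
    intro w hw
    simp only [Finset.mem_insert, Finset.mem_singleton] at hw
    rcases hw with rfl | rfl
    · exact hu
    · exact hv
  by_cases hF : F = {u, v}
  · exact hne ⟨u, v, adj_iB.2 huv, hF⟩
  · refine hmin {u, v} ⟨hsub, fun h => hF (Finset.Subset.antisymm h hsub)⟩ ?_
    exact ⟨u, by simp, v, by simp, huv⟩

/-- connectedness of a tough graph with an edge. -/
theorem init_conn {G : SimpleGraph V}
    (hG : ∀ v, (comps (iB G) (Finset.univ \ {v})).card ≤ 1) (he : ∃ u v, G.Adj u v) :
    (comps (iB G) (Finset.univ : Finset V)).card ≤ 1 := by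
  obtain ⟨u, v, huv⟩ := he
  by_contra hlt
  obtain ⟨D, hD, huD⟩ := exists_comp (iB G) Finset.univ (Finset.mem_univ u)
  have h2 : ∃ D' ∈ comps (iB G) (Finset.univ : Finset V), D' ≠ D := by
    by_contra hno
    push Not at hno
    apply hlt
    rw [Finset.card_le_one]
    intro a ha b hb
    rw [hno a ha, hno b hb]
  obtain ⟨D', hD', hne⟩ := h2
  have hvD : v ∈ D := ((mem_comps_iff _ _ _).1 hD).2.1.2 u huD v (Finset.mem_univ v)
    (adj_iB.2 huv)
  have hdis := comps_disjoint (iB G) _ hD' hD hne
  have huD' : u ∉ D' := fun h => (Finset.disjoint_left.1 hdis) h huD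
  have h3 := card_le_comps (iB G) (Finset.univ \ {u}) {D.erase u, D'} (by
    intro X hX
    simp only [Finset.mem_insert, Finset.mem_singleton] at hX
    rcases hX with rfl | rfl
    · refine ⟨⟨v, Finset.mem_erase.2 ⟨huv.ne.symm, hvD⟩⟩, ?_, ?_⟩
      · intro w hw
        have := Finset.mem_erase.1 hw
        simp [this.1]
      · intro a ha b hb hab
        rw [Finset.mem_erase] at ha ⊢
        refine ⟨by simpa using hb, ?_⟩
        exact ((mem_comps_iff _ _ _).1 hD).2.1.2 a ha.2 b (Finset.mem_univ b) hab
    · refine ⟨((mem_comps_iff _ _ _).1 hD').1, ?_, ?_⟩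
      · intro w hw
        simp only [Finset.mem_sdiff, Finset.mem_univ, Finset.mem_singleton, true_and]
        rintro rfl
        exact huD' hw
      · intro a ha b hb hab
        exact ((mem_comps_iff _ _ _).1 hD').2.1.2 a ha b (Finset.mem_univ b) hab) (by
    intro a ha b hb hab
    simp only [Finset.coe_insert, Finset.coe_singleton, Set.mem_insert_iff,
      Set.mem_singleton_iff] at ha hb
    rcases ha with rfl | rfl <;> rcases hb with rfl | rfl
    · exact absurd rfl hab
    · exact (hdis.mono_right (Finset.erase_subset _ _)).symm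
    · exact hdis.mono_right (Finset.erase_subset _ _)
    · exact absurd rfl hab)
  have h4 : ({D.erase u, D'} : Finset (Finset V)).card = 2 := by
    apply Finset.card_pair
    intro h
    have : v ∈ D' := by rw [← h]; exact Finset.mem_erase.2 ⟨huv.ne.symm, hvD⟩
    exact (Finset.disjoint_left.1 hdis) this hvD
  have h5 := hG u
  omega

/-- the initial state is in class Q. -/
theorem init_ClQ {G : SimpleGraph V}
    (hG : ∀ S : Finset V, S.Nonempty → (∀ u ∈ S, ∀ v ∈ S, ¬ G.Adj u v) →
      c Finset.univ (iB G) S ≤ S.card)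
    (he : ∃ u v, G.Adj u v) : ClQ Finset.univ (iB G) := by
  refine ⟨⟨?_, ?_, ?_, ?_, ?_, ?_, ?_, ?_⟩, ?_⟩
  · rintro T T' hT ⟨u, hu, v, hv, huv⟩
    exact ⟨u, hT hu, v, hT hv, huv⟩
  · rintro v ⟨a, ha, b, hb, hab⟩
    rw [Finset.mem_singleton] at ha hb
    subst ha; subst hb
    exact G.irrefl hab
  · intro u _ v _ huv
    exact huv.2
  · obtain ⟨u, v, huv⟩ := he
    have : ({u, v} : Finset V).card = 2 := Finset.card_pair huv.ne
    rw [← this]
    exact Finset.card_le_card (Finset.subset_univ _)
  · refine init_conn (fun v => ?_) he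
    have := hG {v} (by simp) (by
      intro a ha b hb
      rw [Finset.mem_singleton] at ha hb
      subst ha; subst hb
      exact G.irrefl)
    simpa [c] using this
  · intro F hF
    exact absurd hF mb_iB
  · intro S _ hne hB
    refine hG S hne (fun u hu v hv huv => hB ⟨u, hu, v, hv, huv⟩)
  · intro F F' hF
    exact absurd hF mb_iB
  · intro F hF
    exact absurd hF mb_iB

/-- the chromatic value of a tough graph with an edge is not zero on `(1, 2)`. -/
theorem init_chrom_ne {G : SimpleGraph V}
    (hG : ∀ S : Finset V, S.Nonempty → (∀ u ∈ S, ∀ v ∈ S, ¬ G.Adj u v) →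
      c Finset.univ (iB G) S ≤ S.card)
    (he : ∃ u v, G.Adj u v) {q : ℝ} (hq1 : 1 < q) (hq2 : q < 2) :
    chrom (Finset.univ : Finset V) (iB G) q ≠ 0 := by
  have h := (init_ClQ hG he).phi_pos hq1 hq2
  intro h0
  unfold Phi at h
  rw [h0] at h
  simp at h

end Pool.Agent.DK
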