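import Mathlib
import Pool.Agent.Lib_MP_6f255c_dk.Init
import Pool.Agent.Lib_MP_6f255c_dk.ChromBridge
import Pool.Agent.Lib_MP_6f255c_dk.ChromMisc

/-!
# The frozen statement from the induction
-/

set_option autoImplicit false

namespace Pool.Agent.DK

/-- the statement S09397, in full. -/
theorem main (V : Type) [Fintype V] [DecidableEq V] (G : SimpleGraph V) [DecidableRel G.Adj]
    (hG : ∀ S : Finset V, S.Nonempty → G.IsIndepSet (S : Set V) →
      Nat.card ((G.induce ((S : Set V)ᶜ)).ConnectedComponent) ≤ S.card)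
    (q : ℝ) (hq1 : 1 < q) (hq2 : q < 2) :
    (∑ A ∈ G.edgeFinset.powerset,
      (-1 : ℝ) ^ A.card *
        q ^ Nat.card (SimpleGraph.fromEdgeSet (A : Set (Sym2 V))).ConnectedComponent) ≠ 0 := by
  by_cases he : ∃ u v, G.Adj u v
  · rw [edge_sum_eq_chrom V G q]
    refine init_chrom_ne (G := G) ?_ he hq1 hq2
    intro S hne hS
    have hind : G.IsIndepSet (S : Set V) := by
      intro a ha b hb _ hab
      exact hS a ha b hb hab
    have h := hG S hne hind
    rw [natCard_cc_eq_c V G S] at h
    exact h
  · have hempty : G.edgeFinset = ∅ := by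
      rw [Finset.eq_empty_iff_forall_notMem]
      intro e
      refine Sym2.ind (fun u v hmem => ?_) e
      rw [SimpleGraph.mem_edgeFinset, SimpleGraph.mem_edgeSet] at hmem
      exact he ⟨u, v, hmem⟩
    rw [hempty, Finset.powerset_empty, Finset.sum_singleton]
    have : (0 : ℝ) < (-1 : ℝ) ^ (∅ : Finset (Sym2 V)).card *
        q ^ Nat.card (SimpleGraph.fromEdgeSet
          (((∅ : Finset (Sym2 V)) : Set (Sym2 V)))).ConnectedComponent := by
      rw [Finset.card_empty, pow_zero, one_mul]
      exact pow_pos (by linarith) _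
    exact this.ne'

end Pool.Agent.DK
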