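import Mathlib
import Pool.Agent.Lib_MP_6f255c_dk.Init
import Pool.Agent.Lib_MP_6f255c_dk.ChromBridge
import Pool.Agent.Lib_MP_6f255c_dk.ChromMisc

/-!
# Sign version, connected version and Hamiltonian graphs

`main_pos` : the sign of the chromatic polynomial of a graph with an edge in which no nonempty independent
set `S` leaves more than `|S|` components is `(-1)^n` on `(1, 2)`. Consequences: the frozen statements S12543 and S09967.
-/

set_option autoImplicit false

namespace Pool.Agent.DK

/-- sign of the chromatic value. -/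
theorem init_chrom_pos {V : Type} [Fintype V] {G : SimpleGraph V}
    (hG : ∀ S : Finset V, S.Nonempty → (∀ u ∈ S, ∀ v ∈ S, ¬ G.Adj u v) →
      c Finset.univ (iB G) S ≤ S.card)
    (he : ∃ u v, G.Adj u v) {q : ℝ} (hq1 : 1 < q) (hq2 : q < 2) :
    0 < (-1 : ℝ) ^ Fintype.card V * chrom (Finset.univ : Finset V) (iB G) q := by
  have h := (init_ClQ hG he).phi_pos hq1 hq2
  unfold Phi at h
  have hq : 0 < q * (q - 1) := mul_pos (by linarith) (by linarith)
  have h2 := mul_pos h hq
  rw [div_mul_cancel₀ _ hq.ne'] at h2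
  exact h2

/-- Whitney expansion, sign version. -/
theorem main_pos (V : Type) [Fintype V] [DecidableEq V] (G : SimpleGraph V) [DecidableRel G.Adj]
    (hG : ∀ S : Finset V, S.Nonempty → (∀ u ∈ S, ∀ v ∈ S, ¬ G.Adj u v) →
      c Finset.univ (iB G) S ≤ S.card)
    (he : ∃ u v, G.Adj u v) (q : ℝ) (hq1 : 1 < q) (hq2 : q < 2) :
    0 < (-1 : ℝ) ^ Fintype.card V *
      ∑ A ∈ G.edgeFinset.powerset,
        (-1 : ℝ) ^ A.card *
          q ^ Nat.card (SimpleGraph.fromEdgeSet (A : Set (Sym2 V))).ConnectedComponent := by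
  rw [edge_sum_eq_chrom V G q]
  exact init_chrom_pos hG he hq1 hq2

open Classical in
/-- A graph with a cyclic enumeration of its vertices: deleting a nonempty set `S` leaves at most `|S|`
components. -/
theorem cyc_tough {V : Type} [Fintype V] {G : SimpleGraph V} {n : ℕ} (hn0 : 0 < n) (g : ℕ → V)
    (hadj : ∀ i, G.Adj (g i) (g (i + 1))) (hsurj : ∀ x, ∃ i, g i = x)
    (hper : ∀ i j, i % n = j % n → g i = g j)
    (hinj : ∀ i j, g i = g j → i % n = j % n) (S : Finset V) (hne : S.Nonempty) :
    c Finset.univ (iB G) S ≤ S.card := by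
  have key : ∀ D ∈ comps (iB G) (Finset.univ \ S), ∃ k, g k ∈ D ∧ g (k + 1) ∈ S := by
    intro D hD
    obtain ⟨⟨x, hx⟩, hcl, _⟩ := (mem_comps_iff _ _ _).1 hD
    by_contra hno
    push Not at hno
    obtain ⟨i, hi⟩ := hsurj x
    have hall : ∀ m, g (i + m) ∈ D := by
      intro m
      induction m with
      | zero => rw [Nat.add_zero, hi]; exact hx
      | succ m ih =>
        have h1 := hno (i + m) ih
        rw [← Nat.add_assoc]
        refine hcl.2 (g (i + m)) ih (g (i + m + 1)) ?_ (adj_iB.2 (hadj (i + m)))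
        simp only [Finset.mem_sdiff, Finset.mem_univ, true_and]
        exact h1
    obtain ⟨s, hs⟩ := hne
    obtain ⟨j, hj⟩ := hsurj s
    have h1 := hall (j + i * (n - 1))
    have h2 : i + (j + i * (n - 1)) = j + i * n := by
      obtain ⟨n', hn'⟩ : ∃ n', n = n' + 1 := ⟨n - 1, by omega⟩
      rw [hn']
      simp only [Nat.add_sub_cancel]
      ring
    have h3 : g (j + i * n) = s := by
      rw [← hj]
      exact hper _ _ (Nat.add_mul_mod_self_right j i n)
    rw [h2, h3] at h1
    have h4 := hcl.1 h1
    rw [Finset.mem_sdiff] at h4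
    exact h4.2 hs
  choose! k hk1 hk2 using key
  unfold c
  refine Finset.card_le_card_of_injOn (fun D => g (k D + 1)) (fun D hD => hk2 D hD) ?_
  intro D hD D' hD' he
  have hD1 : D ∈ comps (iB G) (Finset.univ \ S) := hD
  have hD2 : D' ∈ comps (iB G) (Finset.univ \ S) := hD'
  have h1 := hinj _ _ he
  have h2 : k D % n = k D' % n := Nat.ModEq.add_right_cancel' 1 h1
  have h3 : g (k D) = g (k D') := hper _ _ h2
  by_contra hDD
  have hdis := comps_disjoint _ _ hD1 hD2 hDD
  exact (Finset.disjoint_left.1 hdis) (hk1 D hD1) (h3 ▸ hk1 D' hD2)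

/-- A graph with a Hamiltonian cycle: deleting a nonempty set `S` leaves at most `|S|` components. -/
theorem ham_tough {V : Type} [Fintype V] {G : SimpleGraph V} [DecidableEq V] {v : V}
    {p : G.Walk v v} (hp : p.IsHamiltonianCycle) (S : Finset V) (hne : S.Nonempty) :
    c Finset.univ (iB G) S ≤ S.card := by
  have hcyc := hp.isCycle
  have hn3 : 3 ≤ p.length := hcyc.three_le_length
  refine cyc_tough (n := p.length) (by omega) (fun i => p.getVert (i % p.length)) ?_ ?_ ?_ ?_ S hne
  · intro i
    have hlt : i % p.length < p.length := Nat.mod_lt _ (by omega)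
    have h1 : (i + 1) % p.length = (i % p.length + 1) % p.length :=
      (Nat.mod_add_mod i p.length 1).symm
    have h2 := p.adj_getVert_succ (i := i % p.length) (by omega)
    show G.Adj (p.getVert (i % p.length)) (p.getVert ((i + 1) % p.length))
    by_cases h : i % p.length + 1 < p.length
    · have h3 : (i + 1) % p.length = i % p.length + 1 := by rw [h1, Nat.mod_eq_of_lt h]
      rw [h3]
      exact h2
    · have h3 : i % p.length + 1 = p.length := by omega
      have h4 : (i + 1) % p.length = 0 := by rw [h1, h3, Nat.mod_self]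
      rw [h4, SimpleGraph.Walk.getVert_zero]
      rw [h3, SimpleGraph.Walk.getVert_length] at h2
      exact h2
  · intro x
    obtain ⟨m, hm, hmn⟩ := SimpleGraph.Walk.mem_support_iff_exists_getVert.1 (hp.mem_support x)
    by_cases h : m < p.length
    · refine ⟨m, ?_⟩
      show p.getVert (m % p.length) = x
      rw [Nat.mod_eq_of_lt h]
      exact hm
    · have hmn' : m = p.length := by omega
      refine ⟨0, ?_⟩
      show p.getVert (0 % p.length) = x
      rw [Nat.zero_mod, SimpleGraph.Walk.getVert_zero, ← hm, hmn',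
        SimpleGraph.Walk.getVert_length]
  · intro i j hij
    show p.getVert (i % p.length) = p.getVert (j % p.length)
    rw [hij]
  · intro i j hij
    have hi : i % p.length < p.length := Nat.mod_lt _ (by omega)
    have hj : j % p.length < p.length := Nat.mod_lt _ (by omega)
    refine hcyc.getVert_injOn' ?_ ?_ hij
    · show i % p.length ≤ p.length - 1
      omega
    · show j % p.length ≤ p.length - 1
      omega

/-- the statement S09967, in full. -/
theorem main_ham (V : Type) [Fintype V] [DecidableEq V] (G : SimpleGraph V) [DecidableRel G.Adj]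
    (hG : ∃ v : V, ∃ p : G.Walk v v, p.IsHamiltonianCycle) (x : ℝ) (hx1 : 1 < x) (hx2 : x < 2) :
    0 < ((-1 : ℝ) ^ Fintype.card V) *
      ∑ S ∈ G.edgeFinset.powerset,
        ((-1 : ℝ) ^ S.card) *
          x ^ Nat.card (SimpleGraph.fromEdgeSet (S : Set (Sym2 V))).ConnectedComponent := by
  obtain ⟨v, p, hp⟩ := hG
  refine main_pos V G (fun S hne _ => ham_tough hp S hne) ?_ x hx1 hx2
  have hn3 := hp.isCycle.three_le_length
  exact ⟨_, _, p.adj_getVert_succ (i := 0) (by omega)⟩

/-- the statement S12543, in full. -/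
theorem main_tough (V : Type) [Fintype V] [DecidableEq V] (G : SimpleGraph V)
    [DecidableRel G.Adj]
    (hG : ∀ S : Set V, S.Nonempty → S.Pairwise (fun u v => ¬ G.Adj u v) →
        Nat.card (G.induce Sᶜ).ConnectedComponent ≤ S.ncard)
    (x : ℝ) (hx1 : 1 < x) (hx2 : x < 2) :
    (∑ A ∈ G.edgeFinset.powerset,
      (-1 : ℝ) ^ A.card *
        x ^ Nat.card (SimpleGraph.fromEdgeSet (A : Set (Sym2 V))).ConnectedComponent) ≠ 0 := by
  by_cases he : ∃ u v, G.Adj u v
  · have h := main_pos V G (fun S hne hS => by
      have h1 := hG (S : Set V) hne (fun a ha b hb _ => hS a ha b hb)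
      rw [Set.ncard_coe_finset] at h1
      have h2 := natCard_cc_eq_c V G S
      rw [h2] at h1
      exact h1) he x hx1 hx2
    intro h0
    rw [h0, mul_zero] at h
    exact lt_irrefl _ h
  · have hempty : G.edgeFinset = ∅ := by
      rw [Finset.eq_empty_iff_forall_notMem]
      intro e
      refine Sym2.ind (fun u v hmem => ?_) e
      rw [SimpleGraph.mem_edgeFinset, SimpleGraph.mem_edgeSet] at hmem
      exact he ⟨u, v, hmem⟩
    rw [hempty, Finset.powerset_empty, Finset.sum_singleton]
    have : (0 : ℝ) < (-1 : ℝ) ^ (∅ : Finset (Sym2 V)).card *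
        x ^ Nat.card (SimpleGraph.fromEdgeSet
          (((∅ : Finset (Sym2 V)) : Set (Sym2 V)))).ConnectedComponent := by
      rw [Finset.card_empty, pow_zero, one_mul]
      exact pow_pos (by linarith) _
    exact this.ne'

end Pool.Agent.DK
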