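import Mathlib
import Pool.Agent.Lib_MP_6f255c_dk.VDefs
import Pool.Agent.Lib_MP_6f255c_dk.ChromSplit
import Pool.Agent.Lib_MP_6f255c_dk.ChromGlueV
import Pool.Agent.Lib_MP_6f255c_dk.ChromMisc

/-!
# Values of `Phi` on two and three vertices
-/

set_option autoImplicit false

namespace Pool.Agent.DK

open Classical

variable {α : Type*}

/-- two vertices spanning a connected graph are adjacent. -/
theorem adj_of_comps_pair {B : Finset α → Prop} {b c : α} (hbc : b ≠ c)
    (h : (comps B {b, c}).card ≤ 1) : Adj B b c := by
  by_contra hn
  have hP := card_le_comps B {b, c} {{b}, {c}} (by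
    intro X hX
    simp only [Finset.mem_insert, Finset.mem_singleton] at hX
    rcases hX with rfl | rfl
    · refine ⟨Finset.singleton_nonempty _, by simp, ?_⟩
      intro u hu v hv huv
      simp only [Finset.mem_insert, Finset.mem_singleton] at hu hv ⊢
      subst hu
      rcases hv with rfl | rfl
      · rfl
      · exact absurd huv hn
    · refine ⟨Finset.singleton_nonempty _, by simp, ?_⟩
      intro u hu v hv huv
      simp only [Finset.mem_insert, Finset.mem_singleton] at hu hv ⊢
      subst hu
      rcases hv with rfl | rfl
      · exact absurd (adj_symm huv) hn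
      · rfl)
    (by
      intro X hX Y hY hXY
      simp only [Finset.coe_insert, Finset.coe_singleton, Set.mem_insert_iff,
        Set.mem_singleton_iff] at hX hY
      rcases hX with rfl | rfl <;> rcases hY with rfl | rfl
      · exact absurd rfl hXY
      · simp [Function.onFun, hbc]
      · simp [Function.onFun, hbc.symm]
      · exact absurd rfl hXY)
  have hcard : ({{b}, {c}} : Finset (Finset α)).card = 2 := by
    rw [Finset.card_pair]
    intro he
    exact hbc (Finset.singleton_injective he)
  omega

/-- value of a single edge. -/
theorem ClV.phi_two {W : Finset α} {B : Finset α → Prop} (h : ClV W B B) (h2 : W.card = 2)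
    {q : ℝ} (hq : 1 < q) : Phi W B q = 1 := by
  obtain ⟨a, b, hab, rfl⟩ := Finset.card_eq_two.1 h2
  have hA : Adj B a b := adj_of_comps_pair hab h.conn
  unfold Phi
  rw [chrom_pair a b hab B h.one hA.2 q, h2]
  have h1 : q ≠ 0 := by linarith
  have h3 : q - 1 ≠ 0 := by
    intro h0
    linarith
  field_simp

/-- chromatic polynomial of the triangle. -/
theorem chrom_triangle {a b c : α} {B : Finset α → Prop} (hab : a ≠ b) (hac : a ≠ c)
    (hbc : b ≠ c) (hup : ∀ T T' : Finset α, T ⊆ T' → B T → B T') (hB1 : ∀ v, ¬ B {v})
    (h1 : B {a, b}) (h2 : B {a, c}) (h3 : B {b, c}) {q : ℝ} (hq : 1 < q) :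
    chrom {a, b, c} B q = q * (q - 1) * (q - 2) := by
  set P : Finset α → Prop := fun T => ({a, b} : Finset α) ⊆ T ∨ ({a, c} : Finset α) ⊆ T with hP
  have hq0 : q ≠ 0 := by linarith
  -- singletons
  have hP1 : ∀ v, ¬ P {v} := by
    intro v hv
    rcases hv with hv | hv
    · have ha := hv (Finset.mem_insert_self a {b})
      have hb := hv (Finset.mem_insert_of_mem (Finset.mem_singleton_self b))
      rw [Finset.mem_singleton] at ha hb
      exact hab (ha.trans hb.symm)
    · have ha := hv (Finset.mem_insert_self a {c})
      have hb := hv (Finset.mem_insert_of_mem (Finset.mem_singleton_self c))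
      rw [Finset.mem_singleton] at ha hb
      exact hac (ha.trans hb.symm)
  have hP0 : ¬ P ∅ := by
    intro hv
    rcases hv with hv | hv
    · exact absurd (hv (Finset.mem_insert_self a {b})) (Finset.notMem_empty _)
    · exact absurd (hv (Finset.mem_insert_self a {c})) (Finset.notMem_empty _)
  -- the glued path
  have hglue := chrom_glue_vertex a {{b}, {c}} P (Finset.insert_nonempty _ _) (by
      intro X hX Y hY hXY
      simp only [Finset.coe_insert, Finset.coe_singleton, Set.mem_insert_iff,
        Set.mem_singleton_iff] at hX hY
      rcases hX with rfl | rfl <;> rcases hY with rfl | rfl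
      · exact absurd rfl hXY
      · simp [Function.onFun, hbc]
      · simp [Function.onFun, hbc.symm]
      · exact absurd rfl hXY)
    (by
      intro K hK
      simp only [Finset.mem_insert, Finset.mem_singleton] at hK
      rcases hK with rfl | rfl
      · simpa using hab
      · simpa using hac)
    hP0 hP1 (by
      intro T _
      constructor
      · intro hT
        rcases hT with hT | hT
        · refine ⟨{b}, by simp, Or.inl ?_⟩
          exact Finset.subset_inter hT (Finset.Subset.refl _)
        · refine ⟨{c}, by simp, Or.inr ?_⟩
          exact Finset.subset_inter hT (Finset.Subset.refl _)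
      · rintro ⟨K, _, hK⟩
        rcases hK with hK | hK
        · exact Or.inl (hK.trans Finset.inter_subset_left)
        · exact Or.inr (hK.trans Finset.inter_subset_left)) q
  have hcardC : ({{b}, {c}} : Finset (Finset α)).card = 2 := by
    rw [Finset.card_pair]
    intro he
    exact hbc (Finset.singleton_injective he)
  have hne2 : ({b} : Finset α) ≠ {c} := fun he => hbc (Finset.singleton_injective he)
  have hW : insert a ((({{b}, {c}} : Finset (Finset α))).biUnion id) = {a, b, c} := by
    ext z
    simp
  rw [hW, hcardC, Finset.prod_pair hne2] at hglue
  have hpb : chrom (insert a {b}) P q = q * (q - 1) :=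
    chrom_pair a b hab P hP1 (Or.inl (Finset.Subset.refl _)) q
  have hpc : chrom (insert a {c}) P q = q * (q - 1) :=
    chrom_pair a c hac P hP1 (Or.inr (Finset.Subset.refl _)) q
  rw [hpb, hpc] at hglue
  have hchP : chrom {a, b, c} P q = q * (q - 1) * (q - 1) := by
    have : chrom {a, b, c} P q * q = (q * (q - 1) * (q - 1)) * q := by
      have h' := hglue
      simp only [Nat.add_one_sub_one, pow_one] at h'
      rw [h']
      ring
    exact mul_right_cancel₀ hq0 this
  -- the split at {b, c}
  have hsplit := chrom_split {a, b, c} P {b, c} b (by
    intro z hz
    simp only [Finset.mem_insert, Finset.mem_singleton] at hz ⊢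
    exact Or.inr hz) (Finset.mem_insert_self _ _) q
  have hW2 : insert b (({a, b, c} : Finset α) \ {b, c}) = {b, a} := by
    ext z
    simp only [Finset.mem_insert, Finset.mem_sdiff, Finset.mem_singleton]
    constructor
    · rintro (h | ⟨h | h | h, h'⟩)
      · exact Or.inl h
      · exact Or.inr h
      · exact Or.inl h
      · exact absurd (Or.inr h) h'
    · rintro (h | h)
      · exact Or.inl h
      · refine Or.inr ⟨Or.inl h, ?_⟩
        rintro (h' | h')
        · exact hab (h.symm.trans h')
        · exact hac (h.symm.trans h')
  have hcontr : chrom {b, a} (contrBad P {b, c} b) q = q * (q - 1) := by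
    refine chrom_pair b a hab.symm _ ?_ ?_ q
    · intro v hv
      unfold contrBad at hv
      by_cases hbv : b ∈ ({v} : Finset α)
      · rw [if_pos hbv] at hv
        rw [Finset.mem_singleton] at hbv
        subst hbv
        have hmem : a ∈ ({b} : Finset α) ∪ {b, c} := by
          rcases hv with hv | hv
          · exact hv (Finset.mem_insert_self a {b})
          · exact hv (Finset.mem_insert_self a {c})
        simp only [Finset.mem_union, Finset.mem_insert, Finset.mem_singleton] at hmem
        rcases hmem with h | h | h
        · exact hab h
        · exact hab h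
        · exact hac h
      · rw [if_neg hbv] at hv
        exact hP1 v hv
    · unfold contrBad
      rw [if_pos (Finset.mem_insert_self _ _)]
      refine Or.inl ?_
      intro z hz
      simp only [Finset.mem_union, Finset.mem_insert, Finset.mem_singleton] at hz ⊢
      rcases hz with h | h
      · exact Or.inl (Or.inr h)
      · exact Or.inl (Or.inl h)
  have hcongr : chrom {a, b, c} B q = chrom {a, b, c} (addBad P {b, c}) q := by
    refine chrom_congr _ _ _ ?_ q
    intro T hT hTn
    unfold addBad
    constructor
    · intro hBT
      by_cases ha : a ∈ T
      · by_cases hb : b ∈ T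
        · refine Or.inl (Or.inl ?_)
          intro z hz
          simp only [Finset.mem_insert, Finset.mem_singleton] at hz
          rcases hz with rfl | rfl
          · exact ha
          · exact hb
        · by_cases hc : c ∈ T
          · refine Or.inl (Or.inr ?_)
            intro z hz
            simp only [Finset.mem_insert, Finset.mem_singleton] at hz
            rcases hz with rfl | rfl
            · exact ha
            · exact hc
          · exfalso
            refine hB1 a (hup T {a} ?_ hBT)
            intro z hz
            have := hT hz
            simp only [Finset.mem_insert, Finset.mem_singleton] at this ⊢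
            rcases this with rfl | rfl | rfl
            · rfl
            · exact absurd hz hb
            · exact absurd hz hc
      · by_cases hb : b ∈ T
        · by_cases hc : c ∈ T
          · refine Or.inr ?_
            intro z hz
            simp only [Finset.mem_insert, Finset.mem_singleton] at hz
            rcases hz with rfl | rfl
            · exact hb
            · exact hc
          · exfalso
            refine hB1 b (hup T {b} ?_ hBT)
            intro z hz
            have := hT hz
            simp only [Finset.mem_insert, Finset.mem_singleton] at this ⊢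
            rcases this with rfl | rfl | rfl
            · exact absurd hz ha
            · rfl
            · exact absurd hz hc
        · exfalso
          refine hB1 c (hup T {c} ?_ hBT)
          intro z hz
          have := hT hz
          simp only [Finset.mem_insert, Finset.mem_singleton] at this ⊢
          rcases this with rfl | rfl | rfl
          · exact absurd hz ha
          · exact absurd hz hb
          · rfl
    · rintro ((h | h) | h)
      · exact hup _ _ h h1
      · exact hup _ _ h h2
      · exact hup _ _ h h3
  rw [hW2, hcontr, hchP] at hsplit
  rw [hcongr]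
  linarith

/-- value of a triangle. -/
theorem ClV.phi_three {W : Finset α} {B : Finset α → Prop} (h : ClV W B B)
    (h3 : W.card = 3) {q : ℝ} (hq : 1 < q) : Phi W B q = 2 - q := by
  obtain ⟨a, b, c, hab, hac, hbc, hWe⟩ := Finset.card_eq_three.1 h3
  subst hWe
  have ha : ({a, b, c} : Finset α) \ {a} = {b, c} := by
    ext z
    simp only [Finset.mem_insert, Finset.mem_sdiff, Finset.mem_singleton]
    constructor
    · rintro ⟨e | e, h'⟩
      · exact absurd e h'
      · exact e
    · intro e
      refine ⟨Or.inr e, ?_⟩
      intro hz
      rcases e with e | e
      · exact hab (hz.symm.trans e)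
      · exact hac (hz.symm.trans e)
  have hb : ({a, b, c} : Finset α) \ {b} = {a, c} := by
    ext z
    simp only [Finset.mem_insert, Finset.mem_sdiff, Finset.mem_singleton]
    constructor
    · rintro ⟨e | e | e, h'⟩
      · exact Or.inl e
      · exact absurd e h'
      · exact Or.inr e
    · rintro (e | e)
      · exact ⟨Or.inl e, fun hz => hab (e.symm.trans hz)⟩
      · exact ⟨Or.inr (Or.inr e), fun hz => hbc (hz.symm.trans e)⟩
  have hc : ({a, b, c} : Finset α) \ {c} = {a, b} := by
    ext z
    simp only [Finset.mem_insert, Finset.mem_sdiff, Finset.mem_singleton]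
    constructor
    · rintro ⟨e | e | e, h'⟩
      · exact Or.inl e
      · exact Or.inr e
      · exact absurd e h'
    · rintro (e | e)
      · exact ⟨Or.inl e, fun hz => hac (e.symm.trans hz)⟩
      · exact ⟨Or.inr (Or.inl e), fun hz => hbc (e.symm.trans hz)⟩
  have e1 : Adj B b c := adj_of_comps_pair hbc (by
    rw [← ha]; exact h.card_comps_sdiff_singleton (by simp))
  have e2 : Adj B a c := adj_of_comps_pair hac (by
    rw [← hb]; exact h.card_comps_sdiff_singleton (by simp))
  have e3 : Adj B a b := adj_of_comps_pair hab (by
    rw [← hc]; exact h.card_comps_sdiff_singleton (by simp))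
  unfold Phi
  rw [h3, chrom_triangle hab hac hbc h.up h.one e3.2 e2.2 e1.2 hq]
  have h1 : q ≠ 0 := by linarith
  have h4 : q - 1 ≠ 0 := by
    intro h0
    linarith
  field_simp
  ring

end Pool.Agent.DK
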